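import Pool.Agent.ZGap.Half.BoxK
import Pool.Agent.ZGap.Res.D8
import Pool.Agent.ZGap.Res.Diag

/-!
# The fourth moment of the resonator in boxes of size `A / log T`
-/

open scoped ContDiff

namespace Pool.Agent.HalfGap

open MeasureTheory Real Set Pool.Agent.ZGap.Res Pool.Agent.ZGap.Res.FM

/-- The double integral with an arbitrary shift. -/
lemma double_integral_shift {R : ResData} {Φ : ℝ → ℂ} (h : PhiOK R Φ) {T : ℝ} (hT0 : 0 ≤ T) (n : ℕ)
    {s : ℝ → ℝ} (hs : Continuous s) :
    IntervalIntegrable (fun t => ∫ x : ℝ, ‖Φ x‖ * ‖Pr R T (t - s x)‖ ^ n) volume (T / 2) (3 * T) ∧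
    ∫ t in (T / 2)..(3 * T), ∫ x : ℝ, ‖Φ x‖ * ‖Pr R T (t - s x)‖ ^ n =
      ∫ x : ℝ, ‖Φ x‖ * ∫ t in (T / 2)..(3 * T), ‖Pr R T (t - s x)‖ ^ n :=
  double_integral h hT0 n hs

lemma Amp_continuous (R : ResData) (T : ℝ) : Continuous (Amp R T) := by
  unfold Amp; fun_prop

/-- **Fourth moment of the resonator**, with an arbitrary shift. -/
theorem fourth_moment_shift (hRH : RiemannHypothesis) (R : ResData) : ∃ K T0 : ℝ, 0 < K ∧
    Real.exp 2 ≤ T0 ∧ ∀ T : ℝ, T0 ≤ T → ∀ a : ℝ,
      ∫ t in (T / 2)..(3 * T), ‖Amp R T (t - a)‖ ^ 4 ≤ K * T * (1 + |a|) ^ (4 * NN R) := by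
  obtain ⟨Φ, hΦ⟩ := exists_PhiOK R
  obtain ⟨K, T0, hK, hT0, hsm⟩ := shifted_moment hRH R (4 * NN R)
  have hth : 0 < R.th := by linarith [R.ep_th, R.ep_pos]
  have hc2 := one_le_c2 R
  set W := ∫ x, ‖Φ x‖ with hW
  have hW0 : 0 ≤ W := integral_nonneg fun x => norm_nonneg _
  set V := ∫ x, ‖Φ x‖ * (1 + |x|) ^ (4 * NN R) with hV
  have hV0 : 0 ≤ V := integral_nonneg fun x => by positivity
  set A := (1 + 2 * π / R.th) ^ (4 * NN R) with hA
  have hA0 : 0 ≤ A := by positivity
  set D := (W ^ 2) ^ 3 * ((NN R + 1) ^ 4 * 3 ^ (4 * NN R)) with hD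
  have hD0 : 0 ≤ D := by positivity
  refine ⟨D * (2 * W * (K * A * V) + 3 * W ^ 2 * c2 R ^ (4 * NN R)) + 1, T0, by positivity, hT0,
    fun T hT a => ?_⟩
  have hTe : Real.exp 2 ≤ T := hT0.trans hT
  have hTp : 0 < T := (Real.exp_pos _).trans_le hTe
  have hL2 : 2 ≤ Real.log T := by rw [Real.le_log_iff_exp_le hTp]; exact hTe
  have hle : T / 2 ≤ 3 * T := by linarith
  have hshc := sh_continuous R T
  set P := (1 + |a|) ^ (4 * NN R) with hP
  have hP1 : 1 ≤ P := one_le_pow₀ (by linarith [abs_nonneg a])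
  obtain ⟨im, em⟩ := double_integral (s := fun x => a + sh R T x) hΦ hTp.le (4 * NN R)
    (continuous_const.add hshc)
  obtain ⟨ip, ep⟩ := double_integral (s := fun x => a + -sh R T x) hΦ hTp.le (4 * NN R)
    (continuous_const.add hshc.neg)
  have hJm : ∀ t, Jm R Φ T (t - a) =
      ∫ x : ℝ, ‖Φ x‖ * ‖Pr R T (t - (a + sh R T x))‖ ^ (4 * NN R) := by
    intro t
    unfold Jm
    refine integral_congr_ae (Filter.Eventually.of_forall fun x => ?_)
    simp only
    rw [sub_sub]
  have hJp : ∀ t, Jp R Φ T (t - a) =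
      ∫ x : ℝ, ‖Φ x‖ * ‖Pr R T (t - (a + -sh R T x))‖ ^ (4 * NN R) := by
    intro t
    unfold Jp
    refine integral_congr_ae (Filter.Eventually.of_forall fun x => ?_)
    simp only
    congr 4
    ring
  -- bound of the double integrals
  have hbd : ∀ s : ℝ → ℝ, Continuous s → (∀ x, |s x| ≤ |a| + |sh R T x|) →
      ∫ x : ℝ, ‖Φ x‖ * ∫ t in (T / 2)..(3 * T), ‖Pr R T (t - s x)‖ ^ (4 * NN R) ≤
        K * A * V * T * P := by
    intro s hs hsx
    have h1 : ∀ x, ‖Φ x‖ * ∫ t in (T / 2)..(3 * T), ‖Pr R T (t - s x)‖ ^ (4 * NN R) ≤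
        K * A * T * P * (‖Φ x‖ * (1 + |x|) ^ (4 * NN R)) := by
      intro x
      have h2 := hsm T hT (s x)
      have h3 : (1 + |s x|) ^ (4 * NN R) ≤ P * (A * (1 + |x|) ^ (4 * NN R)) := by
        rw [hA, hP, ← mul_pow, ← mul_pow]
        have h4 := abs_sh_le R (by linarith : 1 ≤ Real.log T) x
        have h5 := hsx x
        have h6 : 1 + |s x| ≤ (1 + |a|) * (1 + |sh R T x|) := by
          nlinarith [mul_nonneg (abs_nonneg a) (abs_nonneg (sh R T x))]
        have h7 : (1 + |a|) * (1 + |sh R T x|) ≤ (1 + |a|) * ((1 + 2 * π / R.th) * (1 + |x|)) := by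
          gcongr
        have h8 : 0 ≤ 1 + |s x| := by positivity
        exact pow_le_pow_left₀ h8 (h6.trans h7) _
      calc _ ≤ ‖Φ x‖ * (K * T * (1 + |s x|) ^ (4 * NN R)) := by gcongr
        _ ≤ ‖Φ x‖ * (K * T * (P * (A * (1 + |x|) ^ (4 * NN R)))) := by gcongr
        _ = _ := by ring
    have h2 : ∫ x : ℝ, ‖Φ x‖ * ∫ t in (T / 2)..(3 * T), ‖Pr R T (t - s x)‖ ^ (4 * NN R) ≤
        ∫ x : ℝ, K * A * T * P * (‖Φ x‖ * (1 + |x|) ^ (4 * NN R)) := by
      refine integral_mono_of_nonneg (Filter.Eventually.of_forall fun x => ?_)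
        ((hΦ.int (4 * NN R)).const_mul _) (Filter.Eventually.of_forall h1)
      refine mul_nonneg (norm_nonneg _) ?_
      exact intervalIntegral.integral_nonneg hle fun t _ => by positivity
    refine h2.trans (le_of_eq ?_)
    rw [integral_const_mul]
    ring
  have hJmb : ∫ t in (T / 2)..(3 * T), Jm R Φ T (t - a) ≤ K * A * V * T * P := by
    simp_rw [hJm]
    rw [em]
    exact hbd _ (continuous_const.add hshc) fun x => abs_add_le _ _
  have hJpb : ∫ t in (T / 2)..(3 * T), Jp R Φ T (t - a) ≤ K * A * V * T * P := by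
    simp_rw [hJp]
    rw [ep]
    refine hbd _ (continuous_const.add hshc.neg) fun x => ?_
    have := abs_add_le a (-sh R T x)
    rwa [abs_neg] at this
  have im' : IntervalIntegrable (fun t => Jm R Φ T (t - a)) volume (T / 2) (3 * T) := by
    have : (fun t => Jm R Φ T (t - a)) =
        fun t => ∫ x : ℝ, ‖Φ x‖ * ‖Pr R T (t - (a + sh R T x))‖ ^ (4 * NN R) := funext hJm
    rw [this]
    exact im
  have ip' : IntervalIntegrable (fun t => Jp R Φ T (t - a)) volume (T / 2) (3 * T) := by
    have : (fun t => Jp R Φ T (t - a)) =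
        fun t => ∫ x : ℝ, ‖Φ x‖ * ‖Pr R T (t - (a + -sh R T x))‖ ^ (4 * NN R) := funext hJp
    rw [this]
    exact ip
  have hAmpc := Amp_continuous R T
  have hpt : ∀ t, ‖Amp R T (t - a)‖ ^ 4 ≤ D * (W * Jm R Φ T (t - a) + W * Jp R Φ T (t - a) +
      W ^ 2 * c2 R ^ (4 * NN R)) := by
    intro t
    refine (norm_Amp_pow_le hΦ hTe (t - a)).trans (le_of_eq ?_)
    rw [hD]
    ring
  have i1 : IntervalIntegrable (fun t => W * Jm R Φ T (t - a) + W * Jp R Φ T (t - a)) volume
      (T / 2) (3 * T) := (im'.const_mul W).add (ip'.const_mul W)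
  have i2 : IntervalIntegrable (fun t => (W * Jm R Φ T (t - a) + W * Jp R Φ T (t - a)) +
      W ^ 2 * c2 R ^ (4 * NN R)) volume (T / 2) (3 * T) := i1.add (by simp)
  calc ∫ t in (T / 2)..(3 * T), ‖Amp R T (t - a)‖ ^ 4 ≤
      ∫ t in (T / 2)..(3 * T), D * ((W * Jm R Φ T (t - a) + W * Jp R Φ T (t - a)) +
        W ^ 2 * c2 R ^ (4 * NN R)) := by
        refine intervalIntegral.integral_mono_on hle ?_ (i2.const_mul D) fun t _ => hpt t
        exact (by fun_prop : Continuous fun t => ‖Amp R T (t - a)‖ ^ 4).intervalIntegrable _ _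
    _ = D * (W * (∫ t in (T / 2)..(3 * T), Jm R Φ T (t - a)) +
          W * (∫ t in (T / 2)..(3 * T), Jp R Φ T (t - a)) +
          (3 * T - T / 2) * (W ^ 2 * c2 R ^ (4 * NN R))) := by
        rw [intervalIntegral.integral_const_mul, intervalIntegral.integral_add i1 (by simp),
          intervalIntegral.integral_add (im'.const_mul W) (ip'.const_mul W),
          intervalIntegral.integral_const_mul, intervalIntegral.integral_const_mul,
          intervalIntegral.integral_const, smul_eq_mul]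
    _ ≤ D * (W * (K * A * V * T * P) + W * (K * A * V * T * P) +
          (3 * T * P) * (W ^ 2 * c2 R ^ (4 * NN R))) := by
        gcongr
        nlinarith
    _ = (D * (2 * W * (K * A * V) + 3 * W ^ 2 * c2 R ^ (4 * NN R))) * T * P := by ring
    _ ≤ _ := by
        have : 0 ≤ T * P := by positivity
        nlinarith

/-- The resonator at a complex point. -/
noncomputable def AmpC (R : ResData) (T : ℝ) (z : ℂ) : ℂ :=
  ∑ q ∈ QQ T, (al R T q : ℂ) * Complex.exp (-(Complex.I * z * fr q))

lemma AmpC_ofReal (R : ResData) (T t : ℝ) : AmpC R T t = Amp R T t := by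
  rw [Pool.Agent.ZGap.Res.Amp_eq]
  unfold AmpC
  refine Finset.sum_congr rfl fun q _ => ?_
  congr 2
  push_cast
  ring

/-- Total mass of the coefficients. -/
noncomputable def alS (R : ResData) (T : ℝ) : ℝ := ∑ q ∈ QQ T, |al R T q|

lemma norm_Amp_le_alS (R : ResData) (T t : ℝ) : ‖Amp R T t‖ ≤ alS R T := by
  rw [Pool.Agent.ZGap.Res.Amp_eq]
  refine (norm_sum_le _ _).trans (Finset.sum_le_sum fun q _ => ?_)
  rw [norm_mul, Complex.norm_exp_ofReal_mul_I, mul_one, Complex.norm_real, Real.norm_eq_abs]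

lemma alS_nonneg (R : ResData) (T : ℝ) : 0 ≤ alS R T := Finset.sum_nonneg fun _ _ => abs_nonneg _

lemma abs_fr_le' {R : ResData} {T : ℝ} (hT : 1 < T) {q : Finset ℕ × Finset ℕ}
    (h : al R T q ≠ 0) : |fr q| ≤ R.th * Real.log T := by
  have h1 := ell_lt_of_aa_ne hT (left_ne_zero_of_mul h)
  have h2 := ell_lt_of_aa_ne hT (right_ne_zero_of_mul h)
  have h3 := ell_nonneg q.1
  have h4 := ell_nonneg q.2
  unfold fr
  rw [abs_le]
  constructor <;> linarith

lemma integrable_kk (w : ℂ) : Integrable (kk w) := by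
  obtain ⟨C, hC, h⟩ := kk_decay ‖w‖ 2
  refine (integrable_inv_one_add_sq.const_mul C).mono' (kk_continuous w).aestronglyMeasurable
    (Filter.Eventually.of_forall fun u => ?_)
  refine (h w le_rfl u).trans ?_
  have h1 : 1 + u ^ 2 ≤ (1 + |u|) ^ 2 := by nlinarith [abs_nonneg u, sq_abs u]
  gcongr

/-- The reproducing formula. -/
lemma AmpC_rep (R : ResData) {T : ℝ} (hT : 1 < T) (t : ℝ) (z : ℂ) :
    AmpC R T z = ∫ u : ℝ, kk ((z - t) * Real.log T) u * Amp R T (t + u / Real.log T) := by
  have hL : 0 < Real.log T := Real.log_pos hT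
  set w : ℂ := (z - t) * Real.log T with hw
  have h1 : ∀ u : ℝ, kk w u * Amp R T (t + u / Real.log T) =
      ∑ q ∈ QQ T, ((al R T q : ℂ) * Complex.exp (-(Complex.I * t * fr q))) *
        (kk w u * Complex.exp (((-(2 * π * u * (fr q / (2 * π * Real.log T))) : ℝ) : ℂ) *
          Complex.I)) := by
    intro u
    rw [Pool.Agent.ZGap.Res.Amp_eq, Finset.mul_sum]
    refine Finset.sum_congr rfl fun q _ => ?_
    have e1 : Complex.exp (((-((t + u / Real.log T) * fr q) : ℝ) : ℂ) * Complex.I) =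
        Complex.exp (-(Complex.I * t * fr q)) *
        Complex.exp (((-(2 * π * u * (fr q / (2 * π * Real.log T))) : ℝ) : ℂ) * Complex.I) := by
      rw [← Complex.exp_add]
      congr 1
      have e2 : 2 * π * u * (fr q / (2 * π * Real.log T)) = u / Real.log T * fr q := by
        have := Real.pi_pos
        field_simp
      rw [e2]
      push_cast
      ring
    rw [e1]
    ring
  have hint : ∀ x : ℝ, Integrable fun u : ℝ => kk w u *
      Complex.exp (((-(2 * π * u * x) : ℝ) : ℂ) * Complex.I) := by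
    intro x
    refine (integrable_kk w).mul_bdd (c := 1) ?_ (Filter.Eventually.of_forall fun u => ?_)
    · exact Continuous.aestronglyMeasurable (by fun_prop)
    · rw [Complex.norm_exp_ofReal_mul_I]
  simp_rw [h1]
  rw [integral_finsetSum _ fun q _ => (hint _).const_mul _]
  unfold AmpC
  refine Finset.sum_congr rfl fun q _ => ?_
  rw [integral_const_mul]
  by_cases hq : al R T q = 0
  · rw [hq]; simp
  · have hfr := abs_fr_le' hT hq
    have hx : |fr q / (2 * π * Real.log T)| ≤ 1 := by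
      have hpi := Real.pi_gt_three
      rw [abs_div, abs_of_pos (by positivity : 0 < 2 * π * Real.log T), div_le_one (by positivity)]
      refine hfr.trans ?_
      have : R.th ≤ 2 * π := by linarith [R.th_lt]
      gcongr
    rw [kk_rep w hx, mul_assoc (al R T q : ℂ), ← Complex.exp_add]
    congr 2
    have hL' : (Real.log T : ℂ) ≠ 0 := by exact_mod_cast hL.ne'
    have hpi' : (π : ℂ) ≠ 0 := by exact_mod_cast Real.pi_ne_zero
    rw [hw]
    push_cast
    field_simp
    ring

/-- **Fourth moment of the resonator in boxes.** -/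
theorem box_moment (hRH : RiemannHypothesis) (R : ResData) (A : ℝ) : ∃ K T0 : ℝ, 0 < K ∧
    Real.exp 2 ≤ T0 ∧ ∀ T : ℝ, T0 ≤ T → ∃ E : ℝ → ℝ, Continuous E ∧ (∀ t, 0 ≤ E t) ∧
      (∀ (t : ℝ) (z : ℂ), ‖z - t‖ ≤ A / Real.log T → ‖AmpC R T z‖ ≤ E t) ∧
      ∫ t in (T / 2)..(3 * T), E t ^ 4 ≤ K * T := by
  obtain ⟨K, T0, hK, hT0, hfm⟩ := fourth_moment_shift hRH R
  set N := 4 * NN R with hN
  obtain ⟨C, hC, hdec⟩ := kk_decay A (N + 2)
  have hpos : ∀ u : ℝ, 0 < 1 + |u| := fun u => by positivity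
  -- the weight
  set κ : ℝ → ℝ := fun u => C * ((1 + |u|) ^ (N + 2))⁻¹ with hκ
  have hκc : Continuous κ := by
    simp only [hκ]
    refine continuous_const.mul (Continuous.inv₀ (by fun_prop) fun u => ?_)
    exact pow_ne_zero _ (hpos u).ne'
  have hκ0 : ∀ u, 0 ≤ κ u := fun u => by simp only [hκ]; positivity
  have hκN : Integrable fun u => κ u * (1 + |u|) ^ N := by
    refine (integrable_inv_one_add_sq.const_mul C).mono'
      (by fun_prop : Continuous fun u => κ u * (1 + |u|) ^ N).aestronglyMeasurable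
      (Filter.Eventually.of_forall fun u => ?_)
    rw [Real.norm_of_nonneg (mul_nonneg (hκ0 u) (by positivity))]
    simp only [hκ]
    have h1 : 1 + u ^ 2 ≤ (1 + |u|) ^ 2 := by nlinarith [abs_nonneg u, sq_abs u]
    have h2 : C * ((1 + |u|) ^ (N + 2))⁻¹ * (1 + |u|) ^ N = C * ((1 + |u|) ^ 2)⁻¹ := by
      rw [pow_add]
      have := (hpos u).ne'
      field_simp
    rw [h2]
    gcongr
  have hκi : Integrable κ := by
    refine hκN.mono' hκc.aestronglyMeasurable (Filter.Eventually.of_forall fun u => ?_)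
    rw [Real.norm_of_nonneg (hκ0 u)]
    have : 1 ≤ (1 + |u|) ^ N := one_le_pow₀ (by linarith [abs_nonneg u])
    nlinarith [hκ0 u]
  set W := ∫ u, κ u with hW
  have hW0 : 0 ≤ W := integral_nonneg hκ0
  set V := ∫ u, κ u * (1 + |u|) ^ N with hV
  have hV0 : 0 ≤ V := integral_nonneg fun u => mul_nonneg (hκ0 u) (by positivity)
  refine ⟨W ^ 3 * (K * V) + 1, T0, by positivity, hT0, fun T hT => ?_⟩
  have hTe : Real.exp 2 ≤ T := hT0.trans hT
  have hTp : 0 < T := (Real.exp_pos _).trans_le hTe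
  have hL2 : 2 ≤ Real.log T := by rw [Real.le_log_iff_exp_le hTp]; exact hTe
  have hL : 0 < Real.log T := by linarith
  have hT1 : 1 < T := by
    have := Real.add_one_le_exp (2:ℝ); linarith
  have hle : T / 2 ≤ 3 * T := by linarith
  have hAc := Amp_continuous R T
  have hAb := norm_Amp_le_alS R T
  have hS0 := alS_nonneg R T
  set E : ℝ → ℝ := fun t => ∫ u : ℝ, κ u * ‖Amp R T (t + u / Real.log T)‖ with hE
  have hE0 : ∀ t, 0 ≤ E t := fun t => integral_nonneg fun u => mul_nonneg (hκ0 u) (norm_nonneg _)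
  have hpow : ∀ (n : ℕ) (t : ℝ),
      Integrable fun u => κ u * ‖Amp R T (t + u / Real.log T)‖ ^ n := by
    intro n t
    refine hκi.mul_bdd (c := alS R T ^ n) ?_ (Filter.Eventually.of_forall fun u => ?_)
    · exact Continuous.aestronglyMeasurable (by fun_prop)
    · rw [norm_pow, norm_norm]
      gcongr
      exact hAb _
  have hEc : Continuous E := by
    simp only [hE]
    refine continuous_of_dominated (bound := fun u => κ u * alS R T) (fun t => ?_) (fun t => ?_)
      (hκi.mul_const _) ?_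
    · exact Continuous.aestronglyMeasurable (by fun_prop)
    · refine Filter.Eventually.of_forall fun u => ?_
      rw [norm_mul, norm_norm, Real.norm_of_nonneg (hκ0 u)]
      have := hAb (t + u / Real.log T)
      have := hκ0 u
      gcongr
    · exact Filter.Eventually.of_forall fun u => by fun_prop
  refine ⟨E, hEc, hE0, fun t z hz => ?_, ?_⟩
  · -- the pointwise bound
    rw [AmpC_rep R hT1 t z]
    have h1 := hpow 1 t
    simp only [pow_one] at h1
    refine norm_integral_le_of_norm_le h1 (Filter.Eventually.of_forall fun u => ?_)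
    rw [norm_mul]
    have hw : ‖(z - t) * (Real.log T : ℂ)‖ ≤ A := by
      rw [norm_mul, Complex.norm_real, Real.norm_of_nonneg hL.le]
      rwa [le_div_iff₀ hL] at hz
    have := hdec _ hw u
    gcongr
  · -- the moment
    have hpt : ∀ t, E t ^ 4 ≤ W ^ 3 * ∫ u : ℝ, κ u * ‖Amp R T (t + u / Real.log T)‖ ^ 4 := by
      intro t
      have h1 := hpow 1 t
      simp only [pow_one] at h1
      exact pow_four_integral_le hκ0 hκi h1 (hpow 2 t) (hpow 4 t)
    have hprod : Integrable (fun p : ℝ × ℝ => κ p.2 * ‖Amp R T (p.1 + p.2 / Real.log T)‖ ^ 4)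
        ((volume.restrict (Ioc (T / 2) (3 * T))).prod volume) := by
      have h1 : Integrable (fun _ : ℝ => alS R T ^ 4) (volume.restrict (Ioc (T / 2) (3 * T))) :=
        integrableOn_const (by rw [Real.volume_Ioc]; exact ENNReal.ofReal_ne_top)
      have h2 := h1.mul_prod hκi
      refine h2.mono' ?_ (Filter.Eventually.of_forall fun p => ?_)
      · exact Continuous.aestronglyMeasurable (by fun_prop)
      · rw [norm_mul, norm_pow, norm_norm, Real.norm_of_nonneg (hκ0 _), mul_comm]
        have := hAb (p.1 + p.2 / Real.log T)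
        have := hκ0 p.2
        gcongr
    have hii : IntervalIntegrable (fun t => ∫ u : ℝ, κ u * ‖Amp R T (t + u / Real.log T)‖ ^ 4)
        volume (T / 2) (3 * T) := by
      rw [intervalIntegrable_iff, uIoc_of_le hle]
      exact hprod.integral_prod_left
    have hswap : ∫ t in (T / 2)..(3 * T), ∫ u : ℝ, κ u * ‖Amp R T (t + u / Real.log T)‖ ^ 4 =
        ∫ u : ℝ, κ u * ∫ t in (T / 2)..(3 * T), ‖Amp R T (t + u / Real.log T)‖ ^ 4 := by
      rw [intervalIntegral.integral_of_le hle, integral_integral_swap hprod]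
      refine integral_congr_ae (Filter.Eventually.of_forall fun u => ?_)
      simp only
      rw [intervalIntegral.integral_of_le hle, integral_const_mul]
    have hin : ∀ u : ℝ, κ u * ∫ t in (T / 2)..(3 * T), ‖Amp R T (t + u / Real.log T)‖ ^ 4 ≤
        K * T * (κ u * (1 + |u|) ^ N) := by
      intro u
      have h1 := hfm T hT (-(u / Real.log T))
      simp only [sub_neg_eq_add, abs_neg] at h1
      have h2 : |u / Real.log T| ≤ |u| := by
        rw [abs_div, abs_of_pos hL]
        exact div_le_self (abs_nonneg _) (by linarith)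
      have h0 := hκ0 u
      calc _ ≤ κ u * (K * T * (1 + |u / Real.log T|) ^ N) := by gcongr
        _ ≤ κ u * (K * T * (1 + |u|) ^ N) := by gcongr
        _ = _ := by ring
    calc ∫ t in (T / 2)..(3 * T), E t ^ 4 ≤
        ∫ t in (T / 2)..(3 * T), W ^ 3 * ∫ u : ℝ, κ u * ‖Amp R T (t + u / Real.log T)‖ ^ 4 := by
          refine intervalIntegral.integral_mono_on hle ?_ (hii.const_mul _) fun t _ => hpt t
          exact (hEc.pow 4).intervalIntegrable _ _
      _ = W ^ 3 * ∫ u : ℝ, κ u * ∫ t in (T / 2)..(3 * T), ‖Amp R T (t + u / Real.log T)‖ ^ 4 := by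
          rw [intervalIntegral.integral_const_mul, hswap]
      _ ≤ W ^ 3 * ∫ u : ℝ, K * T * (κ u * (1 + |u|) ^ N) := by
          refine mul_le_mul_of_nonneg_left ?_ (by positivity)
          refine integral_mono_of_nonneg (Filter.Eventually.of_forall fun u => ?_)
            (hκN.const_mul _) (Filter.Eventually.of_forall hin)
          refine mul_nonneg (hκ0 u) ?_
          exact intervalIntegral.integral_nonneg hle fun t _ => by positivity
      _ = (W ^ 3 * (K * V)) * T := by
          rw [integral_const_mul]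
          ring
      _ ≤ _ := by nlinarith

end Pool.Agent.HalfGap
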