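import Pool.Agent.Lib.Hadamard.Xi

/-!
# The imaginary part of `ξ'/ξ` next to the critical line
-/

namespace Pool.Agent.HalfGap

open Complex Pool.Agent.Hadamard

/-- `Im (ξ'/ξ)(1/2 + 1/log T + it) / log T`. -/
noncomputable def D1 (T t : ℝ) : ℝ :=
  (logDeriv xiF (((1 / 2 + 1 / Real.log T : ℝ) : ℂ) + t * I)).im / Real.log T

end Pool.Agent.HalfGap
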