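import Pool.Agent.ZGap.Half.ExpMom2
import Pool.Agent.ZGap.Half.D1Def

/-!
# Exponential moments of the local count of zeros and of `ξ'/ξ`, under RH
-/

namespace Pool.Agent.HalfGap

open MeasureTheory Set Pool.Agent.Hadamard Pool.Agent.ZGap Pool.Agent.DirPoly Complex

lemma D1_eq (T t : ℝ) : D1 T t = (logDeriv xiF (ss (1 / Real.log T) t)).im / Real.log T := rfl

lemma W1_eq (hRH : RiemannHypothesis) {T : ℝ} (hT : 1 ≤ Real.log T) (t : ℝ) :
    Res.FM.W1 T t = (logDeriv xiF (ss (1 / Real.log T) t)).re / Real.log T := by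
  set L := Real.log T with hL
  have hL0 : 0 < L := by linarith
  have h1 := (hasSum_re_ss hRH (δ := 1 / L) (by positivity) t).div_const L
  rw [Res.FM.W1, ← h1.tsum_eq]
  refine tsum_congr fun ρ => ?_
  rw [← hL]
  field_simp

lemma logDeriv_ss_continuous (hRH : RiemannHypothesis) {δ : ℝ} (hδ : 0 < δ) :
    Continuous (fun t : ℝ => logDeriv xiF (ss δ t)) := by
  have h1 : Continuous (fun t : ℝ => ss δ t) := by unfold ss; fun_prop
  have h2 : Continuous (deriv xiF) :=
    (xiF_differentiable.contDiff (n := 1)).continuous_deriv le_rfl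
  have h3 : Continuous xiF := xiF_differentiable.continuous
  simp only [logDeriv_apply]
  exact (h2.comp h1).div (h3.comp h1) fun t h => ss_notMem hRH hδ t (xiF_eq_zero_iff.mp h)

/-- The random-like quantity. -/
noncomputable def XX (T t : ℝ) : ℝ := Res.FM.W1 T t + |D1 T t|

lemma XX_continuous (hRH : RiemannHypothesis) {T : ℝ} (hT : 1 ≤ Real.log T) :
    Continuous (XX T) := by
  have h1 := logDeriv_ss_continuous hRH (δ := 1 / Real.log T) (by positivity)
  have h2 : XX T = fun t => (logDeriv xiF (ss (1 / Real.log T) t)).re / Real.log T +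
      |(logDeriv xiF (ss (1 / Real.log T) t)).im / Real.log T| := by
    funext t
    rw [XX, W1_eq hRH hT, D1_eq]
  rw [h2]
  exact ((continuous_re.comp h1).div_const _).add ((continuous_im.comp h1).div_const _).abs

/-- The prime polynomial of length `T^{1/k}`. -/
noncomputable def PP (T : ℝ) (k : ℕ) (t : ℝ) : ℂ :=
  primePoly (fun n => bkc (64 * k / Real.log T) (Real.log T / k) (Real.log n))
    ⌊Real.exp (Real.log T / k)⌋₊ t

lemma pow_six_le {L : ℝ} (hL : 0 ≤ L) : L ^ 6 ≤ 46080 * Real.exp (L / 2) := by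
  have h := Real.pow_div_factorial_le_exp (x := L / 2) (by positivity) 6
  have e : ((Nat.factorial 6 : ℕ) : ℝ) = 720 := by norm_num [Nat.factorial]
  rw [e, div_le_iff₀ (by norm_num)] at h
  have : (L / 2) ^ 6 = L ^ 6 / 64 := by ring
  rw [this] at h
  linarith

/-- The local quantity is controlled by short prime polynomials. -/
theorem XX_le (hRH : RiemannHypothesis) : ∃ C : ℝ, 0 < C ∧ ∀ T : ℝ, Real.exp 4 ≤ T → ∀ t : ℝ,
    T / 2 ≤ t → t ≤ 3 * T → XX T t ≤ C * Real.log T ∧
    ∀ k : ℕ, 4 ≤ k → 256 * (k : ℝ) ≤ Real.log T → ‖PP T k t‖ ≤ Real.log T → XX T t ≤ C * k := by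
  obtain ⟨C0, hC0, hxi⟩ := norm_xi_le hRH
  obtain ⟨C1, hC1, hb⟩ := xi_bound hRH
  obtain ⟨C2, hC2, hpp⟩ := exists_vmPoly_sub_primePoly_le
  refine ⟨6 * C0 + 129 * (2 * (1 + C2) + 2 * C1 + 92160 * C1), by positivity,
    fun T hT t ht1 ht2 => ?_⟩
  have hT0 : 0 < T := (Real.exp_pos _).trans_le hT
  set L := Real.log T with hL
  have hL4 : 4 ≤ L := by rw [hL, Real.le_log_iff_exp_le hT0]; exact hT
  have hL0 : 0 < L := by linarith
  have hT5 : 5 ≤ T := by have := Real.add_one_le_exp 4; linarith
  have ht : 1 ≤ t := by linarith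
  have hlt : Real.log (t + 2) ≤ 2 * L := by
    have e1 : Real.log (t + 2) ≤ Real.log (T * T) := by
      apply Real.log_le_log (by linarith)
      nlinarith
    rw [Real.log_mul hT0.ne' hT0.ne'] at e1
    linarith
  constructor
  · have h1 := local_le hRH (T := T) (by linarith) (y := L) (by linarith) t
    rw [← hL, div_self hL0.ne'] at h1
    have h2 := hxi (ss 1 t) (by simp) (by simp; norm_num)
    rw [ss_im, abs_of_pos (by linarith)] at h2
    have h3 : ‖logDeriv xiF (ss 1 t)‖ ≤ C0 * (2 * L) := h2.trans (by gcongr)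
    have h4 : XX T t ≤ (1 + 2 * L) * (C0 * (2 * L)) / L := by
      refine h1.trans ?_
      gcongr
    have h5 : (1 + 2 * L) * (C0 * (2 * L)) / L = 2 * C0 * (1 + 2 * L) := by
      field_simp
    rw [h5] at h4
    have h6 : 2 * C0 * (1 + 2 * L) ≤ 6 * C0 * L := by nlinarith
    have h7 : 0 ≤ 129 * (2 * (1 + C2) + 2 * C1 + 92160 * C1) * L := by positivity
    linarith
  · intro k hk4 hkL hP
    have hkr : (4 : ℝ) ≤ k := by exact_mod_cast hk4
    have hk0 : (0 : ℝ) < k := by linarith
    set D := L / k with hD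
    set δ := 64 * (k : ℝ) / L with hδ
    have hδ0 : 0 < δ := by positivity
    have hδ1 : δ ≤ 1 / 4 := by
      rw [hδ, div_le_div_iff₀ hL0 (by norm_num)]; linarith
    have hD256 : 256 ≤ D := by rw [hD, le_div_iff₀ hk0]; exact hkL
    have hD0 : 0 < D := by linarith
    have hDδ : D * δ = 64 := by rw [hD, hδ]; field_simp
    have hDL : D ≤ L / 4 := by rw [hD]; gcongr
    set x := ⌊Real.exp D⌋₊ with hx
    have hexpD : 2 ≤ Real.exp D := by
      have := Real.add_one_le_exp D; linarith
    have hx2 : 2 ≤ x := by rw [hx]; exact Nat.le_floor (by exact_mod_cast hexpD)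
    have hxle : (x : ℝ) ≤ Real.exp D := Nat.floor_le (Real.exp_pos D).le
    have hxlt : Real.exp D ≤ x + 1 := (Nat.lt_floor_add_one _).le
    have hlogx : Real.log x ≤ D := by
      rw [Real.log_le_iff_le_exp (by exact_mod_cast (by omega : 0 < x))]
      exact hxle
    have h1 := local_le hRH (T := T) (by linarith) (y := 64 * k) (by linarith) t
    rw [← hL, ← hδ] at h1
    have h2 := hb δ D t x hδ0 hδ1 (by linarith) (by rw [hDδ]) hxlt ht
    have h3 := hpp x 1 (fun n => bkc δ D (Real.log n)) t hx2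
      (fun n => norm_bkc_le hδ0.le hD0 _)
    have h4 : ‖vmPoly (fun n => bkc δ D (Real.log n)) x t‖ ≤ (1 + C2) * L := by
      have h5 := norm_sub_norm_le (vmPoly (fun n => bkc δ D (Real.log n)) x t)
        (primePoly (fun n => bkc δ D (Real.log n)) x t)
      have h6 : ‖primePoly (fun n => bkc δ D (Real.log n)) x t‖ ≤ L := hP
      have h7 : C2 * 1 * Real.log x ≤ C2 * L := by
        rw [mul_one]
        gcongr
        linarith
      linarith
    have h8 : C1 * (1 / δ) ^ 6 * Real.exp D / t ≤ 92160 * C1 := by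
      have e1 : 1 / δ ≤ L := by
        rw [hδ, one_div_div, div_le_iff₀ (by positivity)]
        nlinarith
      have e2 : (1 / δ) ^ 6 ≤ 46080 * Real.exp (L / 2) :=
        (pow_le_pow_left₀ (by positivity) e1 6).trans (pow_six_le hL0.le)
      have e3 : Real.exp D ≤ Real.exp (L / 4) := Real.exp_le_exp.mpr hDL
      have e4 : Real.exp (L / 2) * Real.exp (L / 4) ≤ T := by
        rw [← Real.exp_add]
        calc Real.exp (L / 2 + L / 4) ≤ Real.exp L := by
              apply Real.exp_le_exp.mpr; linarith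
          _ = T := by rw [hL, Real.exp_log hT0]
      rw [div_le_iff₀ (by linarith)]
      calc C1 * (1 / δ) ^ 6 * Real.exp D ≤ C1 * (46080 * Real.exp (L / 2)) * Real.exp (L / 4) := by
            gcongr
        _ = 46080 * C1 * (Real.exp (L / 2) * Real.exp (L / 4)) := by ring
        _ ≤ 46080 * C1 * T := by gcongr
        _ ≤ 92160 * C1 * t := by nlinarith
    have h9 : ‖logDeriv xiF (ss δ t)‖ ≤ (2 * (1 + C2) + 2 * C1 + 92160 * C1) * L := by
      have e5 : C1 * Real.log (t + 2) ≤ C1 * (2 * L) := by gcongr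
      have e6 : 92160 * C1 ≤ 92160 * C1 * L := by
        have : 0 ≤ C1 * (L - 1) := mul_nonneg hC1.le (by linarith)
        linarith
      linarith
    have h10 : XX T t ≤ (1 + 2 * (64 * (k : ℝ))) *
        ((2 * (1 + C2) + 2 * C1 + 92160 * C1) * L) / L := by
      refine h1.trans ?_
      gcongr
    have h11 : (1 + 2 * (64 * (k : ℝ))) * ((2 * (1 + C2) + 2 * C1 + 92160 * C1) * L) / L =
        (1 + 2 * (64 * (k : ℝ))) * (2 * (1 + C2) + 2 * C1 + 92160 * C1) := by
      field_simp
    rw [h11] at h10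
    have h12 : (1 + 2 * (64 * (k : ℝ))) * (2 * (1 + C2) + 2 * C1 + 92160 * C1) ≤
        (129 * k) * (2 * (1 + C2) + 2 * C1 + 92160 * C1) := by
      gcongr
      linarith
    have h13 : 0 ≤ 6 * C0 * k := by positivity
    linarith

/-- The pointwise bound for the exponential. -/
lemma exp_le_sum {X a C : ℝ} (ha : 0 < a) (p : ℕ → ℝ) (hp : ∀ k, 0 ≤ p k) (m : ℕ) (hm : 4 ≤ m)
    (h : ∀ k, 4 ≤ k → k < m → p k ≤ 1 → X ≤ C * k) (hX : X ≤ C * m) :
    Real.exp (a * X) ≤ Real.exp (a * (C * 4)) +
      ∑ k ∈ Finset.Ico 4 m, Real.exp (a * (C * (k + 1))) * p k ^ (2 * k) := by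
  induction m, hm using Nat.le_induction with
  | base =>
    simp only [Finset.Ico_self, Finset.sum_empty, add_zero]
    apply Real.exp_le_exp.mpr
    push_cast at hX
    gcongr
  | succ m hm ih =>
    rw [Finset.sum_Ico_succ_top hm, ← add_assoc]
    have hnn : 0 ≤ Real.exp (a * (C * (m + 1))) * p m ^ (2 * m) := by
      have := hp m; positivity
    rcases le_or_gt (p m) 1 with h1 | h1
    · have h2 := ih (fun k hk hkm => h k hk (by omega)) (h m hm (by omega) h1)
      linarith
    · have h2 : 1 ≤ p m ^ (2 * m) := one_le_pow₀ h1.le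
      have h3 : Real.exp (a * X) ≤ Real.exp (a * (C * (m + 1))) := by
        apply Real.exp_le_exp.mpr
        push_cast at hX
        gcongr
      have h4 : Real.exp (a * (C * (m + 1))) ≤
          Real.exp (a * (C * (m + 1))) * p m ^ (2 * m) :=
        le_mul_of_one_le_right (Real.exp_pos _).le h2
      have h5 : 0 ≤ ∑ k ∈ Finset.Ico 4 m, Real.exp (a * (C * (k + 1))) * p k ^ (2 * k) :=
        Finset.sum_nonneg fun k _ => by have := hp k; positivity
      have h6 := Real.exp_pos (a * (C * 4))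
      linarith

lemma PP_continuous (T : ℝ) (k : ℕ) : Continuous (PP T k) := primePoly_continuous _ _

/-- Moments of the prime polynomials. -/
lemma PP_moment {T : ℝ} (hT : Real.exp 4 ≤ T) {k : ℕ} (hk4 : 4 ≤ k)
    (hkL : 256 * (k : ℝ) ≤ Real.log T) :
    ∫ t in (T / 2)..(3 * T), (‖PP T k t‖ / Real.log T) ^ (2 * k) ≤
      (15 / 2 * Real.pi * T) * (6 ^ k / (k.factorial : ℝ)) := by
  have hT0 : 0 < T := (Real.exp_pos _).trans_le hT
  set L := Real.log T with hL
  have hkr : (4 : ℝ) ≤ k := by exact_mod_cast hk4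
  have hk0 : (0 : ℝ) < k := by linarith
  have hL0 : 0 < L := by linarith
  set D := L / k with hD
  set δ := 64 * (k : ℝ) / L with hδ
  have hδ0 : 0 < δ := by positivity
  have hD256 : 256 ≤ D := by rw [hD, le_div_iff₀ hk0]; exact hkL
  have hD0 : 0 < D := by linarith
  set x := ⌊Real.exp D⌋₊ with hx
  have hexpD : 2 ≤ Real.exp D := by
    have := Real.add_one_le_exp D; linarith
  have hx2 : 2 ≤ x := by rw [hx]; exact Nat.le_floor (by exact_mod_cast hexpD)
  have hxle : (x : ℝ) ≤ Real.exp D := Nat.floor_le (Real.exp_pos D).le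
  have hlogx : Real.log x ≤ D := by
    rw [Real.log_le_iff_le_exp (by exact_mod_cast (by omega : 0 < x))]
    exact hxle
  have hlogx0 : 0 ≤ Real.log x := Real.log_nonneg (by exact_mod_cast (by omega : 1 ≤ x))
  have hxk : (x : ℝ) ^ k ≤ 3 * T := by
    calc (x : ℝ) ^ k ≤ Real.exp D ^ k := by gcongr
      _ = Real.exp L := by rw [← Real.exp_nat_mul, hD]; congr 1; field_simp
      _ = T := by rw [hL, Real.exp_log hT0]
      _ ≤ _ := by linarith
  have h1 := primePoly_moment (T := 3 * T) (B := 1) (by positivity) hx2 hxk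
    (fun n => bkc δ D (Real.log n)) (fun n => norm_bkc_le hδ0.le hD0 _)
  have hPP : ∀ t, PP T k t = primePoly (fun n => bkc δ D (Real.log n)) x t := fun t => rfl
  have hPc := primePoly_continuous (fun n => bkc δ D (Real.log n)) x
  -- integrability
  have hint : Integrable (fun t : ℝ => ‖primePoly (fun n => bkc δ D (Real.log n)) x t‖ ^ (2 * k) *
      fejerW (t / (3 * T))) := by
    have h2 : Integrable (fun t : ℝ => fejerW (t / (3 * T))) :=
      fejerW_integrable.comp_div (by positivity)
    have h3 : ∃ M : ℝ, ∀ t, ‖primePoly (fun n => bkc δ D (Real.log n)) x t‖ ≤ M := by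
      refine ⟨∑ p ∈ (Finset.Icc 1 x).filter Nat.Prime,
        ‖(Real.log p : ℂ) * bkc δ D (Real.log p) * (p : ℂ) ^ (-(1 / 2) : ℂ)‖, fun t => ?_⟩
      refine (norm_sum_le _ _).trans (Finset.sum_le_sum fun p hp => ?_)
      rw [norm_mul, Complex.norm_natCast_cpow_of_pos (Finset.mem_filter.mp hp).2.pos]
      simp
    obtain ⟨M, hM⟩ := h3
    refine (h2.const_mul (M ^ (2 * k))).mono' ?_ ?_
    · have h4 := fejerW_continuous
      exact Continuous.aestronglyMeasurable (by fun_prop)
    · refine Filter.Eventually.of_forall fun t => ?_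
      rw [norm_mul, norm_pow, norm_norm, Real.norm_of_nonneg (fejerW_nonneg _)]
      have := fejerW_nonneg (t / (3 * T))
      gcongr
      exact hM t
  have h5 : ∫ t in (T / 2)..(3 * T), ‖PP T k t‖ ^ (2 * k) ≤
      5 / 2 * Real.pi * (3 * T) * (k.factorial * (6 * 1 ^ 2 * Real.log x ^ 2) ^ k) := by
    refine le_trans ?_ h1
    rw [intervalIntegral.integral_of_le (by linarith)]
    calc ∫ t in Ioc (T / 2) (3 * T), ‖PP T k t‖ ^ (2 * k) ≤
        ∫ t in Ioc (T / 2) (3 * T), ‖primePoly (fun n => bkc δ D (Real.log n)) x t‖ ^ (2 * k) *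
          fejerW (t / (3 * T)) := by
          refine setIntegral_mono_on ?_ hint.integrableOn measurableSet_Ioc fun t ht => ?_
          · have h6 : Continuous (fun t => ‖PP T k t‖ ^ (2 * k)) := (PP_continuous T k).norm.pow _
            exact (h6.integrableOn_Icc (a := T / 2) (b := 3 * T)).mono_set Ioc_subset_Icc_self
          · have h7 : 1 ≤ fejerW (t / (3 * T)) := by
              apply fejerW_ge_one
              rw [abs_div, abs_of_pos (by positivity : 0 < 3 * T), div_le_one (by positivity),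
                abs_of_pos (by linarith [ht.1])]
              exact ht.2
            rw [hPP]
            exact le_mul_of_one_le_right (by positivity) h7
      _ ≤ _ := by
          refine setIntegral_le_integral hint (Filter.Eventually.of_forall fun t => ?_)
          have := fejerW_nonneg (t / (3 * T))
          positivity
  have h6 : ∫ t in (T / 2)..(3 * T), (‖PP T k t‖ / L) ^ (2 * k) =
      (1 / L ^ (2 * k)) * ∫ t in (T / 2)..(3 * T), ‖PP T k t‖ ^ (2 * k) := by
    rw [← intervalIntegral.integral_const_mul]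
    refine intervalIntegral.integral_congr fun t _ => ?_
    beta_reduce
    rw [div_pow]
    ring
  rw [h6]
  have h7 : (6 * 1 ^ 2 * Real.log x ^ 2) ^ k ≤ (6 * (L / k) ^ 2) ^ k := by
    gcongr
    linarith
  have h8 : (k.factorial : ℝ) ≤ (k : ℝ) ^ k := by exact_mod_cast Nat.factorial_le_pow k
  have hf0 : (0 : ℝ) < k.factorial := by exact_mod_cast Nat.factorial_pos k
  calc (1 / L ^ (2 * k)) * ∫ t in (T / 2)..(3 * T), ‖PP T k t‖ ^ (2 * k) ≤
      (1 / L ^ (2 * k)) * (5 / 2 * Real.pi * (3 * T) *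
        (k.factorial * (6 * (L / k) ^ 2) ^ k)) := by
        have := Real.pi_pos
        gcongr
        refine h5.trans ?_
        gcongr
    _ = (15 / 2 * Real.pi * T) * (6 ^ k * (k.factorial / ((k : ℝ) ^ k * (k : ℝ) ^ k))) := by
        rw [mul_pow, div_pow, div_pow, ← pow_mul, ← pow_mul]
        have e1 : L ^ (2 * k) ≠ 0 := by positivity
        have e2 : (k : ℝ) ^ (2 * k) = (k : ℝ) ^ k * (k : ℝ) ^ k := by
          rw [← pow_add]; congr 1; ring
        rw [e2]
        field_simp
        ring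
    _ ≤ _ := by
        have := Real.pi_pos
        gcongr
        rw [div_eq_mul_one_div (6 ^ k : ℝ)]
        apply mul_le_mul_of_nonneg_left _ (by positivity)
        rw [div_le_div_iff₀ (by positivity) hf0, one_mul]
        exact mul_le_mul h8 h8 hf0.le (by positivity)

/-- **Exponential moments** of the local count of zeros and of `Im ξ'/ξ` (RH). -/
theorem exp_moment (hRH : RiemannHypothesis) (a : ℝ) (ha : 0 < a) : ∃ C T0 : ℝ, 0 < C ∧
    ∀ T, T0 ≤ T → IntervalIntegrable (fun t => Real.exp (a * (Res.FM.W1 T t + |D1 T t|))) volume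
      (T / 2) (3 * T) ∧
    ∫ t in (T / 2)..(3 * T), Real.exp (a * (Res.FM.W1 T t + |D1 T t|)) ≤ C * T := by
  obtain ⟨C0, hC0, hXX⟩ := XX_le hRH
  set C := 256 * C0 with hC
  have hCpos : 0 < C := by positivity
  refine ⟨5 / 2 * Real.exp (a * (C * 4)) + (15 / 2 * Real.pi) * (Real.exp (a * C) *
    Real.exp (6 * Real.exp (a * C))), Real.exp 1024, by positivity, fun T hT => ?_⟩
  have hT0 : 0 < T := (Real.exp_pos _).trans_le hT
  set L := Real.log T with hL
  have hL1024 : 1024 ≤ L := by rw [hL, Real.le_log_iff_exp_le hT0]; exact hT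
  have hL0 : 0 < L := by linarith
  have hT4 : Real.exp 4 ≤ T := (Real.exp_le_exp.mpr (by norm_num)).trans hT
  have hXc := XX_continuous hRH (T := T) (by linarith)
  have hEc : Continuous (fun t => Real.exp (a * (Res.FM.W1 T t + |D1 T t|))) :=
    Real.continuous_exp.comp (hXc.const_mul a)
  refine ⟨hEc.intervalIntegrable _ _, ?_⟩
  set m := ⌊L / 256⌋₊ with hm
  have hm4 : 4 ≤ m := by
    rw [hm]
    apply Nat.le_floor
    push_cast
    rw [le_div_iff₀ (by norm_num)]
    linarith
  have hmL : (m : ℝ) ≤ L / 256 := Nat.floor_le (by positivity)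
  have hmL2 : L / 256 < m + 1 := Nat.lt_floor_add_one _
  have hkL : ∀ k : ℕ, k < m + 1 → 256 * (k : ℝ) ≤ L := by
    intro k hk
    have : (k : ℝ) ≤ m := by exact_mod_cast (by omega : k ≤ m)
    linarith
  have hpt : ∀ t ∈ Icc (T / 2) (3 * T), Real.exp (a * (Res.FM.W1 T t + |D1 T t|)) ≤
      Real.exp (a * (C * 4)) + ∑ k ∈ Finset.Ico 4 (m + 1),
        Real.exp (a * (C * (k + 1))) * (‖PP T k t‖ / L) ^ (2 * k) := by
    intro t ht
    obtain ⟨h1, h2⟩ := hXX T hT4 t ht.1 ht.2
    refine exp_le_sum (X := XX T t) ha (fun k => ‖PP T k t‖ / L) (fun k => by positivity) (m + 1)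
      (by omega) (fun k hk hkm hp => ?_) ?_
    · rw [div_le_one hL0] at hp
      have h3 := h2 k hk (hkL k hkm) hp
      have : C0 * k ≤ C * k := by
        rw [hC]
        have : (0:ℝ) ≤ k := by positivity
        nlinarith [mul_nonneg hC0.le this]
      linarith
    · refine h1.trans ?_
      rw [hC]
      push_cast
      have : L ≤ 256 * (m + 1) := by linarith
      calc C0 * L ≤ C0 * (256 * (m + 1)) := by gcongr
        _ = _ := by ring
  have hPc : ∀ k : ℕ, Continuous (fun t => Real.exp (a * (C * (k + 1))) *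
      (‖PP T k t‖ / L) ^ (2 * k)) := fun k =>
    (((PP_continuous T k).norm.div_const L).pow _).const_mul _
  have hRc : Continuous (fun t => Real.exp (a * (C * 4)) + ∑ k ∈ Finset.Ico 4 (m + 1),
        Real.exp (a * (C * (k + 1))) * (‖PP T k t‖ / L) ^ (2 * k)) :=
    continuous_const.add (continuous_finsetSum _ fun k _ => hPc k)
  have h3 := intervalIntegral.integral_mono_on (μ := volume) (a := T / 2) (b := 3 * T) (by linarith)
    (hEc.intervalIntegrable _ _) (hRc.intervalIntegrable _ _) hpt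
  refine h3.trans ?_
  have hSc : Continuous (fun t => ∑ k ∈ Finset.Ico 4 (m + 1),
        Real.exp (a * (C * (k + 1))) * (‖PP T k t‖ / L) ^ (2 * k)) :=
    continuous_finsetSum _ fun k _ => hPc k
  have hcc : IntervalIntegrable (fun _ : ℝ => Real.exp (a * (C * 4))) volume (T / 2) (3 * T) :=
    continuous_const.intervalIntegrable _ _
  rw [intervalIntegral.integral_add hcc (hSc.intervalIntegrable _ _),
    intervalIntegral.integral_const,
    intervalIntegral.integral_finsetSum fun k _ => (hPc k).intervalIntegrable _ _]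
  have h4 : ∀ k ∈ Finset.Ico 4 (m + 1), ∫ t in (T / 2)..(3 * T), Real.exp (a * (C * (k + 1))) *
      (‖PP T k t‖ / L) ^ (2 * k) ≤ (15 / 2 * Real.pi * T) * (Real.exp (a * C) *
        ((6 * Real.exp (a * C)) ^ k / k.factorial)) := by
    intro k hk
    rw [Finset.mem_Ico] at hk
    rw [intervalIntegral.integral_const_mul]
    have h5 := PP_moment hT4 hk.1 (hkL k hk.2)
    have e1 : Real.exp (a * (C * (k + 1))) = Real.exp (a * C) * Real.exp (a * C) ^ k := by
      rw [← Real.exp_nat_mul, ← Real.exp_add]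
      congr 1; ring
    rw [e1]
    calc _ ≤ Real.exp (a * C) * Real.exp (a * C) ^ k *
        ((15 / 2 * Real.pi * T) * (6 ^ k / (k.factorial : ℝ))) := by gcongr
      _ = _ := by rw [mul_pow]; ring
  have h6 := Finset.sum_le_sum h4
  have h7 : ∑ k ∈ Finset.Ico 4 (m + 1), (15 / 2 * Real.pi * T) * (Real.exp (a * C) *
        ((6 * Real.exp (a * C)) ^ k / k.factorial)) ≤ (15 / 2 * Real.pi * T) *
        (Real.exp (a * C) * Real.exp (6 * Real.exp (a * C))) := by
    rw [← Finset.mul_sum, ← Finset.mul_sum]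
    have h8 : ∑ k ∈ Finset.Ico 4 (m + 1), ((6 * Real.exp (a * C)) ^ k / (k.factorial : ℝ)) ≤
        Real.exp (6 * Real.exp (a * C)) := by
      refine le_trans ?_ (Real.sum_le_exp_of_nonneg (x := 6 * Real.exp (a * C)) (by positivity)
        (m + 1))
      refine Finset.sum_le_sum_of_subset_of_nonneg ?_ fun k _ _ => by positivity
      intro k hk
      rw [Finset.mem_Ico] at hk
      rw [Finset.mem_range]
      exact hk.2
    have := Real.pi_pos
    gcongr
  rw [smul_eq_mul]
  have e9 : (3 * T - T / 2) * Real.exp (a * (C * 4)) = 5 / 2 * Real.exp (a * (C * 4)) * T := by ring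
  rw [e9]
  calc _ ≤ 5 / 2 * Real.exp (a * (C * 4)) * T + (15 / 2 * Real.pi * T) *
        (Real.exp (a * C) * Real.exp (6 * Real.exp (a * C))) := by linarith
    _ = _ := by ring

end Pool.Agent.HalfGap
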