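import Pool.Agent.ZGap.Half.Defs

/-!
# The line integral of `Ω B ξ(s+iα)/ξ(s)` on `Re s = 2`
-/

namespace Pool.Agent.HalfGap

open Complex Pool.Agent.Hadamard MeasureTheory

open scoped ArithmeticFunction.Moebius

/-- the number of divisors -/
noncomputable def dv (n : ℕ) : ℝ := (n.divisors.card : ℝ)

lemma dv_nonneg (n : ℕ) : 0 ≤ dv n := by unfold dv; positivity

lemma norm_cpow_I (α : ℝ) {n : ℕ} (hn : n ≠ 0) : ‖(n : ℂ) ^ (-(α * I : ℂ))‖ = 1 := by
  have hn0 : (0:ℝ) < n := by exact_mod_cast Nat.pos_of_ne_zero hn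
  rw [← Complex.ofReal_natCast, Complex.norm_cpow_eq_rpow_re_of_pos hn0]
  simp

lemma norm_gco_le (α : ℝ) (n : ℕ) : ‖gco α n‖ ≤ dv n := by
  unfold gco dv
  refine (norm_sum_le _ _).trans ?_
  have h1 : (n.divisors.card : ℝ) = ∑ d ∈ n.divisorsAntidiagonal, (1:ℝ) := by
    rw [Finset.sum_const, nsmul_eq_mul, mul_one]
    congr 1
    rw [← Nat.map_div_right_divisors, Finset.card_map]
  rw [h1]
  refine Finset.sum_le_sum fun d hd => ?_
  have hd2 : d.2 ≠ 0 := by
    rw [Nat.mem_divisorsAntidiagonal] at hd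
    intro h
    rw [h, mul_zero] at hd
    exact hd.2 hd.1.symm
  rw [norm_mul, norm_cpow_I α hd2, mul_one]
  have h2 : |ArithmeticFunction.moebius d.1| ≤ 1 := ArithmeticFunction.abs_moebius_le_one
  rw [Complex.norm_intCast]
  exact_mod_cast h2

lemma gco_zero (α : ℝ) : gco α 0 = 0 := by simp [gco]

/-- The Dirichlet series of the quotient. -/
lemma hasSum_gco (α : ℝ) {s : ℂ} (hs : 1 < s.re) :
    HasSum (fun n : ℕ => gco α n * (n : ℂ) ^ (-s)) (riemannZeta (s + α * I) / riemannZeta s) := by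
  have h1 : LSeriesHasSum (fun n : ℕ => (n : ℂ) ^ (-(α * I : ℂ))) s (riemannZeta (s + α * I)) := by
    have h2 : LSeriesHasSum 1 (s + α * I) (riemannZeta (s + α * I)) :=
      LSeriesHasSum_one (by simpa using hs)
    unfold LSeriesHasSum at h2 ⊢
    have h3 : LSeries.term (fun n : ℕ => (n : ℂ) ^ (-(α * I : ℂ))) s =
        LSeries.term 1 (s + α * I) := by
      funext n
      rcases Nat.eq_zero_or_pos n with rfl | hn
      · simp
      · have hn0 : (n : ℂ) ≠ 0 := by exact_mod_cast hn.ne'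
        rw [LSeries.term_of_ne_zero hn.ne', LSeries.term_of_ne_zero hn.ne', Pi.one_apply,
          Complex.cpow_add _ _ hn0, Complex.cpow_neg]
        field_simp
    rw [h3]
    exact h2
  have h2 : LSeriesHasSum (fun n : ℕ => ((ArithmeticFunction.moebius n : ℤ) : ℂ)) s (riemannZeta s)⁻¹ := by
    have h3 := (ArithmeticFunction.LSeriesSummable_moebius_iff.mpr hs).LSeriesHasSum
    have h4 := LSeries_one_mul_Lseries_moebius hs
    rw [LSeries_one_eq_riemannZeta hs] at h4
    rw [← eq_inv_of_mul_eq_one_right h4]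
    exact h3
  have h3 := h2.convolution h1
  unfold LSeriesHasSum at h3
  rw [div_eq_inv_mul]
  have h4 : (fun n : ℕ => gco α n * (n : ℂ) ^ (-s)) =
      LSeries.term (LSeries.convolution (fun n : ℕ => ((ArithmeticFunction.moebius n : ℤ) : ℂ))
        (fun n : ℕ => (n : ℂ) ^ (-(α * I : ℂ)))) s := by
    funext n
    rcases Nat.eq_zero_or_pos n with rfl | hn
    · simp [gco_zero]
    · rw [LSeries.term_of_ne_zero hn.ne', LSeries.convolution_def, Complex.cpow_neg, div_eq_mul_inv]
      rfl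
  rw [h4]
  exact h3

lemma summable_dv : Summable (fun n : ℕ => dv n * ((n:ℝ) ^ (2:ℝ))⁻¹) := by
  have h1 : LSeriesSummable (1 : ℕ → ℂ) (2:ℂ) := LSeriesSummable_one_iff.mpr (by norm_num)
  have h2 := h1.convolution h1
  unfold LSeriesSummable at h2
  refine h2.norm.congr fun n => ?_
  rcases Nat.eq_zero_or_pos n with rfl | hn
  · simp [dv]
  · have hn0 : (0:ℝ) < n := by exact_mod_cast hn
    rw [LSeries.norm_term_eq, if_neg hn.ne', LSeries.convolution_def]
    simp only [Pi.one_apply, mul_one, Finset.sum_const, nsmul_eq_mul, Complex.norm_natCast]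
    rw [show (2:ℂ).re = 2 by norm_num, div_eq_mul_inv]
    congr 1
    unfold dv
    rw [← Nat.map_div_right_divisors, Finset.card_map]

/-- The constant `∑ d(n)/n²`. -/
noncomputable def Dd : ℝ := ∑' n : ℕ, dv n * ((n:ℝ) ^ (2:ℝ))⁻¹

lemma Dd_nonneg : 0 ≤ Dd := tsum_nonneg fun n => mul_nonneg (dv_nonneg n) (by positivity)

lemma continuous_Og_line (H t0 : ℝ) : Continuous (fun t : ℝ => Og H t0 (2 + t * I)) := by
  unfold Og
  fun_prop

lemma continuous_Gammaℝ_line (α : ℝ) : Continuous (fun t : ℝ => Gammaℝ (2 + t * I + α * I)) := by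
  have h1 : Continuous (fun t : ℝ => (Gammaℝ (2 + t * I + α * I))⁻¹) :=
    differentiable_Gammaℝ_inv.continuous.comp (by fun_prop)
  have h2 : Continuous (fun t : ℝ => ((Gammaℝ (2 + t * I + α * I))⁻¹)⁻¹) := by
    refine h1.inv₀ fun t => ?_
    exact inv_ne_zero (Gammaℝ_ne_zero_of_re_pos (by simp))
  simpa using h2

lemma continuous_gam_line (α : ℝ) : Continuous (fun t : ℝ => gam α (2 + t * I)) := by
  unfold gam
  have h1 := continuous_Gammaℝ_line α
  have h2 := continuous_Gammaℝ_line 0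
  simp only [Complex.ofReal_zero, zero_mul, add_zero] at h2
  refine Continuous.div (by fun_prop) (by fun_prop) fun t => ?_
  have h3 : (2 + t * I : ℂ) ≠ 0 := by
    intro h
    have := congrArg Complex.re h
    simp at this
  have h4 : (2 + t * I - 1 : ℂ) ≠ 0 := by
    intro h
    have := congrArg Complex.re h
    simp at this
    norm_num at this
  exact mul_ne_zero (mul_ne_zero h3 h4) (Gammaℝ_ne_zero_of_re_pos (by simp))

/-- The integral of one exponential. -/
noncomputable def Iexp (α H t0 U l : ℝ) : ℂ :=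
  ∫ t in (t0 - U)..(t0 + U), Og H t0 (2 + t * I) * gam α (2 + t * I) * Complex.exp (-l * (3 / 2 + t * I))

lemma natCast_cpow_eq {n : ℕ} (hn : n ≠ 0) (t : ℝ) :
    (n : ℂ) ^ (-(2 + t * I : ℂ)) = ((n:ℝ) ^ (-(1:ℝ) / 2) : ℝ) * Complex.exp (-(Real.log n : ℝ) * (3 / 2 + t * I)) := by
  have hn0 : (n : ℂ) ≠ 0 := by exact_mod_cast hn
  have hnr : (0:ℝ) < n := by exact_mod_cast Nat.pos_of_ne_zero hn
  rw [Complex.cpow_def_of_ne_zero hn0, Real.rpow_def_of_pos hnr, Complex.ofReal_exp, ← Complex.exp_add]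
  congr 1
  rw [← Complex.ofReal_natCast, ← Complex.ofReal_log hnr.le]
  push_cast
  ring

theorem hasSum_line (α H t0 U w : ℝ) :
    HasSum (fun n : ℕ => gco α n * ((n:ℝ) ^ (-(1:ℝ) / 2) : ℝ) * Iexp α H t0 U (w + Real.log n))
      (∫ t in (t0 - U)..(t0 + U), Og H t0 (2 + t * I) * Complex.exp (-w * (3 / 2 + t * I)) *
        fq α (2 + t * I)) := by
  set G : ℝ → ℂ := fun t => Og H t0 (2 + t * I) * gam α (2 + t * I) * Complex.exp (-w * (3 / 2 + t * I))
    with hG
  have hGc : Continuous G := by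
    refine ((continuous_Og_line H t0).mul (continuous_gam_line α)).mul ?_
    fun_prop
  have hterm : ∀ n : ℕ, gco α n * ((n:ℝ) ^ (-(1:ℝ) / 2) : ℝ) * Iexp α H t0 U (w + Real.log n) =
      ∫ t in (t0 - U)..(t0 + U), G t * (gco α n * (n : ℂ) ^ (-(2 + t * I : ℂ))) := by
    intro n
    rcases Nat.eq_zero_or_pos n with rfl | hn
    · simp [gco_zero]
    · unfold Iexp
      rw [← intervalIntegral.integral_const_mul]
      refine intervalIntegral.integral_congr fun t _ => ?_
      simp only [hG]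
      rw [natCast_cpow_eq hn.ne']
      have e1 : Complex.exp (-((w + Real.log n : ℝ) : ℂ) * (3 / 2 + t * I)) =
          Complex.exp (-w * (3 / 2 + t * I)) * Complex.exp (-(Real.log n : ℝ) * (3 / 2 + t * I)) := by
        rw [← Complex.exp_add]
        congr 1
        push_cast
        ring
      rw [e1]
      ring
  simp_rw [hterm]
  refine intervalIntegral.hasSum_integral_of_dominated_convergence
    (fun n t => ‖G t‖ * (dv n * ((n:ℝ) ^ (2:ℝ))⁻¹)) ?_ ?_ ?_ ?_ ?_
  · intro n
    refine (hGc.mul (continuous_const.mul ?_)).aestronglyMeasurable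
    rcases Nat.eq_zero_or_pos n with rfl | hn
    · have : (fun t : ℝ => ((0 : ℕ) : ℂ) ^ (-(2 + t * I : ℂ))) = fun _ => 0 := by
        funext t
        rw [Nat.cast_zero, Complex.zero_cpow]
        intro h
        have := congrArg Complex.re h
        simp at this
      rw [this]
      exact continuous_const
    · have hn0 : (n : ℂ) ≠ 0 := by exact_mod_cast hn.ne'
      exact Continuous.const_cpow (by fun_prop) (Or.inl hn0)
  · intro n
    refine Filter.Eventually.of_forall fun t _ => ?_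
    rw [norm_mul (G t), norm_mul (gco α n)]
    refine mul_le_mul_of_nonneg_left ?_ (norm_nonneg _)
    rcases Nat.eq_zero_or_pos n with rfl | hn
    · simp [gco_zero, dv]
    · have hn0 : (0:ℝ) < n := by exact_mod_cast hn
      refine mul_le_mul (norm_gco_le α n) (le_of_eq ?_) (norm_nonneg _) (dv_nonneg n)
      rw [← Complex.ofReal_natCast, Complex.norm_cpow_eq_rpow_re_of_pos hn0]
      rw [← Real.rpow_neg hn0.le]
      congr 1
      simp
  · refine Filter.Eventually.of_forall fun t _ => summable_dv.mul_left _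
  · simp_rw [tsum_mul_left]
    exact ((hGc.norm.mul continuous_const).intervalIntegrable _ _)
  · refine Filter.Eventually.of_forall fun t _ => ?_
    have hs : 1 < (2 + t * I : ℂ).re := by simp
    have h1 := (hasSum_gco α hs).mul_left (G t)
    have h2 : G t * (riemannZeta (2 + t * I + α * I) / riemannZeta (2 + t * I)) =
        Og H t0 (2 + t * I) * Complex.exp (-w * (3 / 2 + t * I)) * fq α (2 + t * I) := by
      rw [fq_eq hs]
      simp only [hG]
      ring
    rw [← h2]
    exact h1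

/-- The diagonal coefficient. -/
noncomputable def Mdiag {ι : Type*} (Q : Finset ι) (b : ι → ℂ) (w : ι → ℝ) (α : ℝ) : ℂ :=
  ∑ q ∈ Q, b q * ∑' n : ℕ, (if n ≠ 0 ∧ w q + Real.log n = 0 then
    gco α n * ((n:ℝ) ^ (-(1:ℝ) / 2) : ℝ) else 0)

theorem trace_core {ι : Type*} (Q : Finset ι) (b : ι → ℂ) (w : ι → ℝ) {α H U t0 T C0 dl : ℝ}
    (hC0 : 0 ≤ C0) (hT : 0 ≤ T) (hH : 0 ≤ H)
    (hw : ∀ q ∈ Q, ∀ n : ℕ, 1 ≤ n → w q + Real.log n = 0 ∨ dl ≤ |w q + Real.log n|)
    (hOff : ∀ l : ℝ, ‖Iexp α H t0 U l‖ ≤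
      C0 * Real.exp (-(3 * l / 2)) * (T * Real.exp (-(|l| * H)) + T * Real.exp (-(U ^ 2 / H ^ 2)))) :
    ‖(∫ t in (t0 - U)..(t0 + U), Og H t0 (2 + t * I) *
        (∑ q ∈ Q, b q * Complex.exp (-w q * ((2 + t * I) - 1 / 2))) * fq α (2 + t * I)) -
      Mdiag Q b w α * ∫ t in (t0 - U)..(t0 + U), Og H t0 (2 + t * I) * gam α (2 + t * I)‖ ≤
    (∑ q ∈ Q, ‖b q‖ * Real.exp (-(3 * w q / 2))) *
      (C0 * (T * Real.exp (-(dl * H)) + T * Real.exp (-(U ^ 2 / H ^ 2))) * Dd) := by
  classical
  set E := T * Real.exp (-(dl * H)) + T * Real.exp (-(U ^ 2 / H ^ 2)) with hE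
  have hE0 : 0 ≤ E := by positivity
  set J := ∫ t in (t0 - U)..(t0 + U), Og H t0 (2 + t * I) * gam α (2 + t * I) with hJ
  have hJ0 : Iexp α H t0 U 0 = J := by
    unfold Iexp
    rw [hJ]
    refine intervalIntegral.integral_congr fun t _ => ?_
    simp
  have hcfq : Continuous (fun t : ℝ => fq α (2 + t * I)) := by
    have h1 : (fun t : ℝ => fq α (2 + t * I)) = fun t : ℝ => gam α (2 + t * I) *
        (riemannZeta (2 + t * I + α * I) / riemannZeta (2 + t * I)) := by
      funext t
      exact fq_eq (by simp)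
    rw [h1]
    have hz : ∀ β : ℝ, Continuous (fun t : ℝ => riemannZeta (2 + t * I + β * I)) := by
      intro β
      rw [continuous_iff_continuousAt]
      intro t
      have h2 : (2 + t * I + β * I : ℂ) ≠ 1 := by
        intro h
        have := congrArg Complex.re h
        simp at this
      exact ContinuousAt.comp (f := fun t : ℝ => (2 + t * I + β * I : ℂ))
        (differentiableAt_riemannZeta h2).continuousAt (by fun_prop)
    have h0 := hz 0
    simp only [Complex.ofReal_zero, zero_mul, add_zero] at h0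
    refine (continuous_gam_line α).mul ((hz α).div h0 fun t => ?_)
    exact riemannZeta_ne_zero_of_one_le_re (by simp)
  -- expand over q
  have hsplit : (∫ t in (t0 - U)..(t0 + U), Og H t0 (2 + t * I) *
        (∑ q ∈ Q, b q * Complex.exp (-w q * ((2 + t * I) - 1 / 2))) * fq α (2 + t * I)) =
      ∑ q ∈ Q, b q * ∫ t in (t0 - U)..(t0 + U), Og H t0 (2 + t * I) *
        Complex.exp (-w q * (3 / 2 + t * I)) * fq α (2 + t * I) := by
    rw [Finset.sum_congr rfl fun q _ => (intervalIntegral.integral_const_mul _ _).symm]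
    rw [← intervalIntegral.integral_finsetSum]
    · refine intervalIntegral.integral_congr fun t _ => ?_
      rw [Finset.mul_sum, Finset.sum_mul]
      refine Finset.sum_congr rfl fun q _ => ?_
      have : ((2 + t * I : ℂ) - 1 / 2) = 3 / 2 + t * I := by ring
      rw [this]
      ring
    · intro q _
      refine (continuous_const.mul (((continuous_Og_line H t0).mul ?_).mul hcfq)).intervalIntegrable _ _
      fun_prop
  rw [hsplit, Mdiag, Finset.sum_mul, ← Finset.sum_sub_distrib, Finset.sum_mul]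
  refine (norm_sum_le _ _).trans (Finset.sum_le_sum fun q hq => ?_)
  -- one q
  have hs1 := hasSum_line α H t0 U (w q)
  set c : ℕ → ℂ := fun n => (if n ≠ 0 ∧ w q + Real.log n = 0 then
    gco α n * ((n:ℝ) ^ (-(1:ℝ) / 2) : ℝ) else 0) with hc
  have hterm : ∀ n : ℕ, ‖gco α n * ((n:ℝ) ^ (-(1:ℝ) / 2) : ℝ) * Iexp α H t0 U (w q + Real.log n) -
      c n * J‖ ≤ Real.exp (-(3 * w q / 2)) * C0 * E * (dv n * ((n:ℝ) ^ (2:ℝ))⁻¹) := by
    intro n
    rcases Nat.eq_zero_or_pos n with rfl | hn
    · simp [gco_zero, hc, dv]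
    · have hn0 : (0:ℝ) < n := by exact_mod_cast hn
      rcases hw q hq n hn with h | h
      · simp only [hc]
        rw [if_pos ⟨hn.ne', h⟩, h, hJ0, sub_self, norm_zero]
        have := dv_nonneg n
        positivity
      · by_cases hz : w q + Real.log n = 0
        · simp only [hc]
          rw [if_pos ⟨hn.ne', hz⟩, hz, hJ0, sub_self, norm_zero]
          have := dv_nonneg n
          positivity
        · simp only [hc]
          rw [if_neg (fun h => hz h.2), zero_mul, sub_zero, norm_mul, norm_mul,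
            Complex.norm_real, Real.norm_of_nonneg (by positivity)]
          have h1 := hOff (w q + Real.log n)
          have h2 : T * Real.exp (-(|w q + Real.log n| * H)) + T * Real.exp (-(U ^ 2 / H ^ 2)) ≤ E := by
            rw [hE]
            gcongr
          have h3 : Real.exp (-(3 * (w q + Real.log n) / 2)) =
              Real.exp (-(3 * w q / 2)) * (n:ℝ) ^ (-(3:ℝ) / 2) := by
            rw [Real.rpow_def_of_pos hn0, ← Real.exp_add]
            congr 1
            ring
          have h4 : (n:ℝ) ^ (-(1:ℝ) / 2) * (n:ℝ) ^ (-(3:ℝ) / 2) = ((n:ℝ) ^ (2:ℝ))⁻¹ := by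
            rw [← Real.rpow_add hn0, ← Real.rpow_neg hn0.le]
            norm_num
          calc ‖gco α n‖ * (n:ℝ) ^ (-(1:ℝ) / 2) * ‖Iexp α H t0 U (w q + Real.log n)‖
              ≤ dv n * (n:ℝ) ^ (-(1:ℝ) / 2) * (C0 * Real.exp (-(3 * (w q + Real.log n) / 2)) * E) := by
                refine mul_le_mul (mul_le_mul_of_nonneg_right (norm_gco_le α n) (by positivity))
                  (h1.trans ?_) (norm_nonneg _) (mul_nonneg (dv_nonneg n) (by positivity))
                exact mul_le_mul_of_nonneg_left h2 (by positivity)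
            _ = Real.exp (-(3 * w q / 2)) * C0 * E *
                (dv n * ((n:ℝ) ^ (-(1:ℝ) / 2) * (n:ℝ) ^ (-(3:ℝ) / 2))) := by rw [h3]; ring
            _ = _ := by rw [h4]
  have hcs : Summable c := by
    have h1 : Summable (fun n : ℕ => c n * J + (gco α n * ((n:ℝ) ^ (-(1:ℝ) / 2) : ℝ) *
        Iexp α H t0 U (w q + Real.log n) - c n * J)) := by
      refine hs1.summable.congr fun n => by ring
    -- c has finite support: at most one n
    refine summable_of_ne_finset_zero (s := Finset.range (⌈Real.exp (-w q)⌉₊ + 1)) fun n hn => ?_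
    rw [Finset.mem_range, not_lt] at hn
    simp only [hc]
    rw [if_neg]
    rintro ⟨h2, h3⟩
    have hn0 : (0:ℝ) < n := by exact_mod_cast Nat.pos_of_ne_zero h2
    have h4 : Real.log n = -w q := by linarith
    have h5 : (n:ℝ) = Real.exp (-w q) := by rw [← h4, Real.exp_log hn0]
    have h6 : (n:ℝ) ≤ ⌈Real.exp (-w q)⌉₊ := h5 ▸ Nat.le_ceil _
    have h7 : n ≤ ⌈Real.exp (-w q)⌉₊ := by exact_mod_cast h6
    omega
  have hs2 := hs1.sub (hcs.hasSum.mul_right J)
  have hb : ‖(∫ t in (t0 - U)..(t0 + U), Og H t0 (2 + t * I) *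
        Complex.exp (-w q * (3 / 2 + t * I)) * fq α (2 + t * I)) - (∑' n, c n) * J‖ ≤
      Real.exp (-(3 * w q / 2)) * C0 * E * Dd := by
    rw [← hs2.tsum_eq]
    refine (norm_tsum_le_tsum_norm ?_).trans ?_
    · exact Summable.of_nonneg_of_le (fun _ => norm_nonneg _) hterm (summable_dv.mul_left _)
    · unfold Dd
      rw [← tsum_mul_left]
      exact (Summable.of_nonneg_of_le (fun _ => norm_nonneg _) hterm (summable_dv.mul_left _)).tsum_le_tsum
        hterm (summable_dv.mul_left _)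
  calc ‖b q * (∫ t in (t0 - U)..(t0 + U), Og H t0 (2 + t * I) *
        Complex.exp (-w q * (3 / 2 + t * I)) * fq α (2 + t * I)) - b q * (∑' n, c n) * J‖
      = ‖b q‖ * ‖(∫ t in (t0 - U)..(t0 + U), Og H t0 (2 + t * I) *
        Complex.exp (-w q * (3 / 2 + t * I)) * fq α (2 + t * I)) - (∑' n, c n) * J‖ := by
        rw [← norm_mul]; congr 1; ring
    _ ≤ ‖b q‖ * (Real.exp (-(3 * w q / 2)) * C0 * E * Dd) :=
        mul_le_mul_of_nonneg_left hb (norm_nonneg _)
    _ = _ := by ring

end Pool.Agent.HalfGap
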