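import Pool.Agent.ZGap.Half.Strip
import Pool.Agent.ZGap.Half.Trace

/-!
# The core inequality
-/

namespace Pool.Agent.HalfGap

open Complex MeasureTheory Set Pool.Agent.Hadamard
open scoped ComplexConjugate Topology

/-- The exponential sum. -/
noncomputable def BS {ι : Type*} (Q : Finset ι) (b : ι → ℂ) (w : ι → ℝ) (s : ℂ) : ℂ :=
  ∑ q ∈ Q, b q * Complex.exp (-w q * (s - 1 / 2))

lemma BS_differentiable {ι : Type*} (Q : Finset ι) (b : ι → ℂ) (w : ι → ℝ) :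
    Differentiable ℂ (BS Q b w) := by
  unfold BS
  fun_prop

lemma norm_BS_le {ι : Type*} (Q : Finset ι) (b : ι → ℂ) (w : ι → ℝ) {s : ℂ}
    (hs : |s.re - 1 / 2| ≤ 2) :
    ‖BS Q b w s‖ ≤ ∑ q ∈ Q, ‖b q‖ * Real.exp (2 * |w q|) := by
  unfold BS
  refine (norm_sum_le _ _).trans (Finset.sum_le_sum fun q _ => ?_)
  rw [norm_mul, Complex.norm_exp]
  refine mul_le_mul_of_nonneg_left ?_ (norm_nonneg _)
  apply Real.exp_le_exp.mpr
  have h1 : (-(w q : ℂ) * (s - 1 / 2)).re = -(w q) * (s.re - 1 / 2) := by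
    simp
  rw [h1]
  calc -(w q) * (s.re - 1 / 2) ≤ |-(w q) * (s.re - 1 / 2)| := le_abs_self _
    _ = |w q| * |s.re - 1 / 2| := by rw [abs_mul, abs_neg]
    _ ≤ |w q| * 2 := mul_le_mul_of_nonneg_left hs (abs_nonneg _)
    _ = _ := mul_comm _ _

variable {H t0 α y U : ℝ}

lemma norm_FF_far {B : ℂ → ℂ} {SB K : ℝ} (hH : 1 ≤ H) (hU : 0 ≤ U) {s : ℂ}
    (h1 : |s.re - 1 / 2| ≤ 3 / 2) (h2 : U ≤ |s.im - t0|) (hB : ‖B s‖ ≤ SB)
    (hK : ‖fq α s‖ ≤ K) : ‖FF H t0 α B s‖ ≤ Real.exp 3 * SB * K * Real.exp (-(U ^ 2 / H ^ 2)) := by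
  have hSB : 0 ≤ SB := (norm_nonneg _).trans hB
  have hK0 : 0 ≤ K := (norm_nonneg _).trans hK
  have h3 : ‖Og H t0 s‖ ≤ Real.exp 3 * Real.exp (-(U ^ 2 / H ^ 2)) := by
    rw [norm_Og_s, ← Real.exp_add]
    apply Real.exp_le_exp.mpr
    have h4 : (s.re - 1 / 2) ^ 2 ≤ 3 := by
      have := abs_le.mp h1
      nlinarith [this.1, this.2]
    have h5 : U ^ 2 ≤ (s.im - t0) ^ 2 := by
      rw [← sq_abs (s.im - t0)]
      exact pow_le_pow_left₀ hU h2 2
    have hH2 : 1 ≤ H ^ 2 := one_le_pow₀ hH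
    rw [sub_div]
    have h6 : (s.re - 1 / 2) ^ 2 / H ^ 2 ≤ 3 := by
      rw [div_le_iff₀ (by positivity)]; nlinarith
    have h7 : U ^ 2 / H ^ 2 ≤ (s.im - t0) ^ 2 / H ^ 2 := by gcongr
    linarith
  unfold FF
  rw [norm_mul, norm_mul]
  calc _ ≤ Real.exp 3 * Real.exp (-(U ^ 2 / H ^ 2)) * SB * K := by gcongr
    _ = _ := by ring

/-- Continuity on vertical lines to the right. -/
lemma FF_line_integrable (hRH : RiemannHypothesis) {B : ℂ → ℂ} (hB : Differentiable ℂ B) {x : ℝ}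
    (hx : x ≠ 1 / 2) (a b : ℝ) :
    IntervalIntegrable (fun t : ℝ => FF H t0 α B (x + t * I)) volume a b :=
  (FF_vert_continuous hRH hB hx).intervalIntegrable _ _

/-- Shift from `Re s = 2` to `Re s = 1/2 + y`. -/
theorem shift (hRH : RiemannHypothesis) {B : ℂ → ℂ} (hB : Differentiable ℂ B) (hy : 0 < y)
    (hy1 : y ≤ 1) (hH : 1 ≤ H) (hU : 0 ≤ U) {SB K Cc h1 h2 : ℝ}
    (hBs : ∀ s : ℂ, |s.re - 1 / 2| ≤ 2 → ‖B s‖ ≤ SB)
    (ha : t0 - U - Cc ≤ h1) (ha' : h1 ≤ t0 - U) (hb : t0 + U ≤ h2) (hb' : h2 ≤ t0 + U + Cc)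
    (hK : ∀ s : ℂ, 1 / 2 + y ≤ s.re → s.re ≤ 2 → h1 ≤ s.im → s.im ≤ h2 → ‖fq α s‖ ≤ K) :
    ‖(∫ t : ℝ in (t0 - U)..(t0 + U), FF H t0 α B (2 + t * I)) -
      ∫ t : ℝ in h1..h2, FF H t0 α B ((1 / 2 + y : ℝ) + t * I)‖ ≤
      (4 + 2 * Cc) * (Real.exp 3 * SB * K * Real.exp (-(U ^ 2 / H ^ 2))) := by
  set F := FF H t0 α B with hF
  set E := Real.exp 3 * SB * K * Real.exp (-(U ^ 2 / H ^ 2)) with hE
  have hSB : 0 ≤ SB := (norm_nonneg _).trans (hBs (1 / 2) (by simp))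
  have hfar : ∀ s : ℂ, 1 / 2 + y ≤ s.re → s.re ≤ 2 → h1 ≤ s.im → s.im ≤ h2 → U ≤ |s.im - t0| →
      ‖F s‖ ≤ E := by
    intro s h3 h4 h5 h6 h7
    have h8 : |s.re - 1 / 2| ≤ 3 / 2 := by rw [abs_le]; constructor <;> linarith
    exact norm_FF_far hH hU h8 h7 (hBs s (h8.trans (by norm_num))) (hK s h3 h4 h5 h6)
  have hE0 : 0 ≤ E := by
    refine (norm_nonneg _).trans (hfar (2 + (t0 + U) * I) ?_ ?_ ?_ ?_ ?_)
    · simp; linarith
    · simp
    · simp; linarith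
    · simpa using hb
    · simp [abs_of_nonneg hU]
  -- the rectangle
  have h0 : rInt F (1 / 2 + y) 2 (t0 - U) (t0 + U) = 0 := by
    refine rInt_zero (by linarith) (by linarith) fun s hs => FF_differentiableAt hB fun h => ?_
    have h3 := ((xiF_zero_iff hRH).mp h).1
    linarith [hs.1]
  unfold rInt at h0
  set A := ∫ x : ℝ in (1 / 2 + y)..2, F (x + (t0 - U : ℝ) * I) with hA
  set A' := ∫ x : ℝ in (1 / 2 + y)..2, F (x + (t0 + U : ℝ) * I) with hA'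
  set V2 := ∫ t : ℝ in (t0 - U)..(t0 + U), F ((2 : ℝ) + t * I) with hV2
  set V1 := ∫ t : ℝ in (t0 - U)..(t0 + U), F ((1 / 2 + y : ℝ) + t * I) with hV1
  have hV2' : (∫ t : ℝ in (t0 - U)..(t0 + U), F (2 + t * I)) = V2 := by
    rw [hV2]
    refine intervalIntegral.integral_congr fun t _ => ?_
    simp
  have e1 : I * (V2 - V1) = A' - A := by linear_combination h0
  have n1 : ‖V2 - V1‖ ≤ 4 * E := by
    have e2 : ‖V2 - V1‖ = ‖A' - A‖ := by rw [← e1, norm_mul, norm_I, one_mul]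
    have hAb : ‖A‖ ≤ E * |2 - (1 / 2 + y)| := by
      refine intervalIntegral.norm_integral_le_of_norm_le_const fun x hx => ?_
      rw [uIoc_of_le (by linarith)] at hx
      refine hfar _ ?_ ?_ ?_ ?_ ?_
      · simpa using hx.1.le
      · simpa using hx.2
      · simpa using ha'
      · simp; linarith
      · simp [abs_of_nonneg hU]
    have hAb' : ‖A'‖ ≤ E * |2 - (1 / 2 + y)| := by
      refine intervalIntegral.norm_integral_le_of_norm_le_const fun x hx => ?_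
      rw [uIoc_of_le (by linarith)] at hx
      refine hfar _ ?_ ?_ ?_ ?_ ?_
      · simpa using hx.1.le
      · simpa using hx.2
      · simp; linarith
      · simpa using hb
      · simp [abs_of_nonneg hU]
    rw [abs_of_nonneg (by linarith)] at hAb hAb'
    rw [e2]
    refine (norm_sub_le _ _).trans ?_
    nlinarith
  -- the two end pieces
  have hi := fun a b => FF_line_integrable (H := H) (t0 := t0) (α := α) hRH hB
    (x := 1 / 2 + y) (by linarith) a b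
  set P1 := ∫ t : ℝ in h1..(t0 - U), F ((1 / 2 + y : ℝ) + t * I) with hP1
  set P2 := ∫ t : ℝ in (t0 + U)..h2, F ((1 / 2 + y : ℝ) + t * I) with hP2
  have e3 : (∫ t : ℝ in h1..h2, F ((1 / 2 + y : ℝ) + t * I)) = P1 + V1 + P2 := by
    rw [hP1, hV1, hP2, intervalIntegral.integral_add_adjacent_intervals (hi _ _) (hi _ _),
      intervalIntegral.integral_add_adjacent_intervals (hi _ _) (hi _ _)]
  have n2 : ‖P1‖ ≤ Cc * E := by
    have : ‖P1‖ ≤ E * |t0 - U - h1| := by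
      refine intervalIntegral.norm_integral_le_of_norm_le_const fun t ht => ?_
      rw [uIoc_of_le ha'] at ht
      refine hfar _ ?_ ?_ ?_ ?_ ?_
      · simp
      · simp; linarith
      · simpa using ht.1.le
      · simp; linarith [ht.2]
      · simp only [add_im, ofReal_im, mul_im, ofReal_re, I_im, mul_one, I_re, mul_zero,
          add_zero, zero_add]
        rw [abs_of_nonpos (by linarith [ht.2])]
        linarith [ht.2]
    rw [abs_of_nonneg (by linarith)] at this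
    nlinarith
  have n3 : ‖P2‖ ≤ Cc * E := by
    have : ‖P2‖ ≤ E * |h2 - (t0 + U)| := by
      refine intervalIntegral.norm_integral_le_of_norm_le_const fun t ht => ?_
      rw [uIoc_of_le hb] at ht
      refine hfar _ ?_ ?_ ?_ ?_ ?_
      · simp
      · simp; linarith
      · simp; linarith [ht.1]
      · simpa using ht.2
      · simp only [add_im, ofReal_im, mul_im, ofReal_re, I_im, mul_one, I_re, mul_zero,
          add_zero, zero_add]
        rw [abs_of_nonneg (by linarith [ht.1])]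
        linarith [ht.1]
    rw [abs_of_nonneg (by linarith)] at this
    nlinarith
  rw [hV2', e3]
  have e4 : V2 - (P1 + V1 + P2) = (V2 - V1) - P1 - P2 := by ring
  rw [e4]
  calc _ ≤ ‖V2 - V1‖ + ‖P1‖ + ‖P2‖ := by
        refine (norm_sub_le _ _).trans ?_
        gcongr
        exact norm_sub_le _ _
    _ ≤ 4 * E + Cc * E + Cc * E := by gcongr
    _ = _ := by ring

/-- **The core inequality.** -/
theorem core (hRH : RiemannHypothesis) {ι : Type*} (Q : Finset ι) (b : ι → ℂ) (w : ι → ℝ)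
    (hα : 0 < α) (hy : 0 < y) (hy1 : y ≤ 1) (hH : 1 ≤ H) (hU : 0 ≤ U)
    (hBc : ∀ s, BS Q b w (1 - conj s) = conj (BS Q b w s))
    (hBp : ∀ t : ℝ, 0 ≤ (BS Q b w (1 / 2 + t * I)).re) {SB K Cc h1 h2 : ℝ}
    (hSB : ∑ q ∈ Q, ‖b q‖ * Real.exp (2 * |w q|) ≤ SB)
    (ha : t0 - U - Cc ≤ h1) (ha' : h1 ≤ t0 - U) (hb : t0 + U ≤ h2) (hb' : h2 ≤ t0 + U + Cc)
    (hK : ∀ s : ℂ, 1 / 2 + y ≤ s.re → s.re ≤ 2 → h1 ≤ s.im → s.im ≤ h2 → ‖fq α s‖ ≤ K)
    (hK1 : ∀ x : ℝ, 1 / 2 - y ≤ x → x ≤ 1 / 2 + y → ‖fq α (x + h1 * I)‖ ≤ K)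
    (hK2 : ∀ x : ℝ, 1 / 2 - y ≤ x → x ≤ 1 / 2 + y → ‖fq α (x + h2 * I)‖ ≤ K)
    (hc1 : ∀ v, Xr v = 0 → α / 2 ≤ |v - h1|) (hc2 : ∀ v, Xr v = 0 → α / 2 ≤ |v - h2|)
    {G : ℝ → ℝ} (hG0 : ∀ t, 0 ≤ G t) (hGi : IntegrableOn G (Ioc h1 h2))
    (hG : ∀ t ∈ Icc h1 h2, ∀ s : ℂ, |s.re - 1 / 2| ≤ y → |s.im - t| ≤ α →
      (s.re = 1 / 2 + y ∨ s.re = 1 / 2 - y ∨ ∀ v, Xr v = 0 → α / 2 ≤ |v - s.im|) →
      ‖FF H t0 α (BS Q b w) s‖ ≤ G t)
    {T C0 dl : ℝ} (hC0 : 0 ≤ C0) (hT : 0 ≤ T)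
    (hw : ∀ q ∈ Q, ∀ n : ℕ, 1 ≤ n → w q + Real.log n = 0 ∨ dl ≤ |w q + Real.log n|)
    (hOff : ∀ l : ℝ, ‖Iexp α H t0 U l‖ ≤
      C0 * Real.exp (-(3 * l / 2)) * (T * Real.exp (-(|l| * H)) + T * Real.exp (-(U ^ 2 / H ^ 2)))) :
    -((1 + 2 * y / α) * ∫ t in Ioc h1 h2 ∩ EE α, G t) -
      (6 + 2 * Cc) * (Real.exp 3 * SB * K * Real.exp (-(U ^ 2 / H ^ 2))) -
      SB * (C0 * (T * Real.exp (-(dl * H)) + T * Real.exp (-(U ^ 2 / H ^ 2))) * Dd) ≤
    (Mdiag Q b w α * ∫ t in (t0 - U)..(t0 + U), Og H t0 (2 + t * I) * gam α (2 + t * I)).im := by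
  set B := BS Q b w with hB
  have hBd : Differentiable ℂ B := BS_differentiable Q b w
  have hBs : ∀ s : ℂ, |s.re - 1 / 2| ≤ 2 → ‖B s‖ ≤ SB := fun s hs => (norm_BS_le Q b w hs).trans hSB
  set E := Real.exp 3 * SB * K * Real.exp (-(U ^ 2 / H ^ 2)) with hE
  have hstrip := strip (H := H) (t0 := t0) hRH hα hy (by linarith : h1 ≤ h2) hBd hBc hBp hc1 hc2 hG0
    hGi hG
  have hshift := shift (H := H) (t0 := t0) (α := α) hRH hBd hy hy1 hH hU hBs ha ha' hb hb' hK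
  have htrace := trace_core Q b w (α := α) (H := H) (U := U) (t0 := t0) hC0 hT (by linarith) hw hOff
  -- horizontal ends
  have hor1 : ‖hor (FF H t0 α B) y h1‖ ≤ 2 * y * E := by
    refine norm_hor_le hy fun x hx => ?_
    have h3 : |(x + h1 * I : ℂ).re - 1 / 2| ≤ 3 / 2 := by
      simp only [add_re, ofReal_re, mul_re, I_re, mul_zero, ofReal_im, I_im, mul_one, sub_self,
        add_zero]
      rw [abs_le]
      constructor <;> linarith [hx.1, hx.2]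
    refine norm_FF_far hH hU h3 ?_ (hBs _ (h3.trans (by norm_num))) (hK1 x hx.1 hx.2)
    simp only [add_im, ofReal_im, mul_im, ofReal_re, I_im, mul_one, I_re, mul_zero,
      add_zero, zero_add]
    rw [abs_of_nonpos (by linarith)]
    linarith
  have hor2 : ‖hor (FF H t0 α B) y h2‖ ≤ 2 * y * E := by
    refine norm_hor_le hy fun x hx => ?_
    have h3 : |(x + h2 * I : ℂ).re - 1 / 2| ≤ 3 / 2 := by
      simp only [add_re, ofReal_re, mul_re, I_re, mul_zero, ofReal_im, I_im, mul_one, sub_self,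
        add_zero]
      rw [abs_le]
      constructor <;> linarith [hx.1, hx.2]
    refine norm_FF_far hH hU h3 ?_ (hBs _ (h3.trans (by norm_num))) (hK2 x hx.1 hx.2)
    simp only [add_im, ofReal_im, mul_im, ofReal_re, I_im, mul_one, I_re, mul_zero,
      add_zero, zero_add]
    rw [abs_of_nonneg (by linarith)]
    linarith
  have hE0 : 0 ≤ E := by
    have := norm_nonneg (hor (FF H t0 α B) y h1)
    nlinarith
  -- the sum in the trace bound
  have hsum : ∑ q ∈ Q, ‖b q‖ * Real.exp (-(3 * w q / 2)) ≤ SB := by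
    refine le_trans (Finset.sum_le_sum fun q _ => ?_) hSB
    refine mul_le_mul_of_nonneg_left (Real.exp_le_exp.mpr ?_) (norm_nonneg _)
    have h3 := neg_abs_le (w q)
    have h4 := abs_nonneg (w q)
    linarith
  have hR0 : 0 ≤ C0 * (T * Real.exp (-(dl * H)) + T * Real.exp (-(U ^ 2 / H ^ 2))) * Dd := by
    have := Dd_nonneg
    positivity
  have htrace' := htrace.trans (mul_le_mul_of_nonneg_right hsum hR0)
  set R := SB * (C0 * (T * Real.exp (-(dl * H)) + T * Real.exp (-(U ^ 2 / H ^ 2))) * Dd) with hR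
  set A0 := ∫ t in (t0 - U)..(t0 + U), Og H t0 (2 + t * I) *
        (∑ q ∈ Q, b q * Complex.exp (-w q * ((2 + t * I) - 1 / 2))) * fq α (2 + t * I) with hA0
  have hA0' : A0 = ∫ t : ℝ in (t0 - U)..(t0 + U), FF H t0 α B (2 + t * I) := rfl
  set A2 := ∫ t : ℝ in h1..h2, FF H t0 α B ((1 / 2 + y : ℝ) + t * I) with hA2
  set MJ := Mdiag Q b w α * ∫ t in (t0 - U)..(t0 + U), Og H t0 (2 + t * I) * gam α (2 + t * I)
    with hMJ
  rw [← hA0'] at hshift
  have i1 : |A0.im - A2.im| ≤ (4 + 2 * Cc) * E := by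
    rw [← sub_im]; exact (abs_im_le_norm _).trans hshift
  have i2 : |A0.im - MJ.im| ≤ R := by
    rw [← sub_im]; exact (abs_im_le_norm _).trans htrace'
  have i3 := (abs_le.mp i1).1
  have i4 := (abs_le.mp i2).2
  have i5 : (‖hor (FF H t0 α B) y h1‖ + ‖hor (FF H t0 α B) y h2‖) / 2 ≤ 2 * E := by
    have : 2 * y * E ≤ 2 * E := by nlinarith
    linarith
  nlinarith

end Pool.Agent.HalfGap
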