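import Pool.Agent.ZGap.Half.LineOne
import Pool.Agent.ZGap.Half.Core
import Pool.Agent.ZGap.Half.Box

/-!
# Facts on the two families used in the assembly
-/

namespace Pool.Agent.HalfGap

open MeasureTheory Finset Pool.Agent.ZGap.Res Filter Topology Complex
open scoped ComplexConjugate ArithmeticFunction.Moebius

/-- **The main term for the square of the resonator.** -/
theorem MJ_two {τ θ η1 η2 : ℝ} (hτ1 : 1 / 2 < τ) (hτ2 : τ < 1) (hθ : 0 < θ) (hθ' : θ < 1 / 2)
    (h3 : 1 < τ * (1 + 2 * θ)) (h1 : 1 / 2 < η1) (h12 : η1 < η2) (h2 : η2 < 1) :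
    ∃ c : ℝ, 0 < c ∧ ∃ e : ℝ, 0 < e ∧ ∀ R : ResData, R.r = -1 →
      R.th = θ → R.ep ≤ e → ∀ δ : ℝ, δ ≤ e → LinProf R 1 0 δ →
      ∃ T0 : ℝ, ∀ T : ℝ, T0 ≤ T → ∀ t0 : ℝ, T ≤ t0 → t0 ≤ 2 * T →
      (M2 R T (2 * Real.pi * τ / Real.log T) * ∫ t in (t0 - T ^ η2)..(t0 + T ^ η2),
        Og (T ^ η1) t0 (2 + t * I) * gam (2 * Real.pi * τ / Real.log T) (2 + t * I)).im ≤
        -c * T ^ η1 := by
  have hpi := Real.pi_pos
  have hτ : 0 < τ := by linarith
  obtain ⟨c, hc, e, he, g1⟩ := main_sign2 hτ1 hτ2 hθ hθ' h3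
  have hA : 0 < 2 * Real.pi * τ := by positivity
  obtain ⟨C, T1, hC, k1⟩ := gam_int hA h1 h12 h2
  have hsp : 0 < Real.sqrt Real.pi := Real.sqrt_pos.mpr hpi
  refine ⟨c * Real.sqrt Real.pi / 2, by positivity, e, he, fun R hr hth hep δ hδe hlin => ?_⟩
  obtain ⟨T2, hT2, k2⟩ := g1 R hr hth hep δ hδe hlin
  have ev3 : ∀ᶠ T : ℝ in atTop, 2 * (C / Real.log T) ≤ c * Real.sqrt Real.pi / 2 := by
    have := (Real.tendsto_log_atTop.const_div_atTop C).const_mul 2
    rw [mul_zero] at this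
    exact this.eventually (ge_mem_nhds (by positivity))
  obtain ⟨T3, hT3⟩ := eventually_atTop.mp ev3
  refine ⟨max T1 (max T2 T3), fun T hT t0 ht1 ht2 => ?_⟩
  have hTT1 : T1 ≤ T := (le_max_left _ _).trans hT
  have hTT2 : T2 ≤ T := ((le_max_left _ _).trans (le_max_right _ _)).trans hT
  have hTT3 : T3 ≤ T := ((le_max_right _ _).trans (le_max_right _ _)).trans hT
  have hTe : Real.exp 3 ≤ T := hT2.trans hTT2
  have h1T : 1 < T := lt_of_lt_of_le (Real.one_lt_exp_iff.mpr (by norm_num)) hTe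
  have hT0 : 0 < T := by linarith
  have hL : 0 < Real.log T := Real.log_pos h1T
  have a3 := hT3 T hTT3
  obtain ⟨b1, b2'⟩ := k2 T hTT2
  set α := 2 * Real.pi * τ / Real.log T with hα
  have hα0 : 0 ≤ α := by positivity
  have key := k1 T α t0 hTT1 hα0 le_rfl ht1 ht2
  set J := ∫ t in (t0 - T ^ η2)..(t0 + T ^ η2), Og (T ^ η1) t0 (2 + t * I) * gam α (2 + t * I) with hJ
  set M := M2 R T α with hM
  set m := mom R T 0 with hm
  have hm1 : 1 ≤ m := one_le_mom h1T 0
  have hmm : 1 ≤ m ^ 2 := one_le_pow₀ hm1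
  set P := ((Real.sqrt Real.pi * T ^ η1 : ℝ) : ℂ) *
        Complex.exp ((α / 2 * Real.log (T / (2 * Real.pi)) : ℝ) * I) with hP
  have hH0 : 0 < T ^ η1 := Real.rpow_pos_of_pos hT0 _
  have hmain : (M * P).im ≤ -c * m ^ 2 * (Real.sqrt Real.pi * T ^ η1) := by
    have h5 := b2' T (by linarith) (by linarith)
    have e1 : M * P = ((Real.sqrt Real.pi * T ^ η1 : ℝ) : ℂ) *
        (Complex.exp ((psi τ T T : ℝ) * I) * M) := by
      rw [hP]
      unfold psi
      ring
    rw [e1, Complex.im_ofReal_mul]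
    have h6 : 0 ≤ Real.sqrt Real.pi * T ^ η1 := by positivity
    calc _ ≤ (Real.sqrt Real.pi * T ^ η1) * (-c * m ^ 2) := mul_le_mul_of_nonneg_left h5 h6
      _ = _ := by ring
  have herr : ‖M * J - M * P‖ ≤ c * Real.sqrt Real.pi / 2 * m ^ 2 * T ^ η1 := by
    rw [← mul_sub, norm_mul]
    calc _ ≤ (2 * m ^ 2) * (C / Real.log T * T ^ η1) := by
          apply mul_le_mul b1 key (norm_nonneg _) (by positivity)
      _ = (2 * (C / Real.log T)) * m ^ 2 * T ^ η1 := by ring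
      _ ≤ _ := by gcongr
  have h12' : (M * J).im - (M * P).im ≤ c * Real.sqrt Real.pi / 2 * m ^ 2 * T ^ η1 := by
    rw [← Complex.sub_im]
    exact (le_abs_self _).trans ((Complex.abs_im_le_norm _).trans herr)
  have h13 : (M * J).im ≤ -(c * Real.sqrt Real.pi / 2 * m ^ 2 * T ^ η1) := by
    linarith only [h12', hmain]
  refine h13.trans ?_
  have h14 : 0 ≤ c * Real.sqrt Real.pi / 2 * T ^ η1 := by positivity
  linarith only [mul_le_mul_of_nonneg_left hmm h14]

/-- **The main term for the Möbius polynomial.** -/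
theorem MJ_one {τ η1 η2 : ℝ} (hτ1 : 1 / 2 < τ) (hτ2 : τ < 1)
    (h1 : 1 / 2 < η1) (h12 : η1 < η2) (h2 : η2 < 1) :
    ∃ c : ℝ, 0 < c ∧ ∃ T0 : ℝ, ∀ T : ℝ, T0 ≤ T → ∀ t0 : ℝ, T ≤ t0 → t0 ≤ 2 * T →
      (Ms (2 * Real.pi * τ / Real.log T) ⌊T ^ (1 / (2 * τ))⌋₊ *
        ∫ t in (t0 - T ^ η2)..(t0 + T ^ η2),
        Og (T ^ η1) t0 (2 + t * I) * gam (2 * Real.pi * τ / Real.log T) (2 + t * I)).im ≤
        -c * Real.log T * T ^ η1 := by
  have hpi := Real.pi_pos
  have hτ : 0 < τ := by linarith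
  obtain ⟨c, hc, T2, k2⟩ := main_sign hτ1 hτ2
  have hA : 0 < 2 * Real.pi * τ := by positivity
  obtain ⟨C, T1, hC, k1⟩ := gam_int hA h1 h12 h2
  have hsp : 0 < Real.sqrt Real.pi := Real.sqrt_pos.mpr hpi
  refine ⟨c * Real.sqrt Real.pi / 2, by positivity, ?_⟩
  have ev3 : ∀ᶠ T : ℝ in atTop, 2 * (C / Real.log T) ≤ c * Real.sqrt Real.pi / 2 := by
    have := (Real.tendsto_log_atTop.const_div_atTop C).const_mul 2
    rw [mul_zero] at this
    exact this.eventually (ge_mem_nhds (by positivity))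
  obtain ⟨T3, hT3⟩ := eventually_atTop.mp ev3
  refine ⟨max T1 (max T2 (max T3 (Real.exp 3))), fun T hT t0 ht1 ht2 => ?_⟩
  have hTT1 : T1 ≤ T := (le_max_left _ _).trans hT
  have hTT2 : T2 ≤ T := ((le_max_left _ _).trans (le_max_right _ _)).trans hT
  have hTT3 : T3 ≤ T := (((le_max_left _ _).trans (le_max_right _ _)).trans (le_max_right _ _)).trans hT
  have hTe : Real.exp 3 ≤ T := (((le_max_right _ _).trans (le_max_right _ _)).trans (le_max_right _ _)).trans hT
  have h1T : 1 < T := lt_of_lt_of_le (Real.one_lt_exp_iff.mpr (by norm_num)) hTe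
  have hT0 : 0 < T := by linarith
  have hL3 : 3 ≤ Real.log T := by rw [Real.le_log_iff_exp_le hT0]; exact hTe
  have hL : 0 < Real.log T := by linarith
  have a3 := hT3 T hTT3
  have b1 := k2 T hTT2
  set κ := 1 / (2 * τ) with hκ
  have hκ0 : 0 < κ := by positivity
  have hκ1 : κ < 1 := by rw [hκ, div_lt_one (by positivity)]; linarith
  set α := 2 * Real.pi * τ / Real.log T with hα
  set X := ⌊T ^ κ⌋₊ with hX
  have hα0 : 0 ≤ α := by positivity
  have hTκ : 1 ≤ T ^ κ := Real.one_le_rpow h1T.le hκ0.le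
  have hXle : (X:ℝ) ≤ T ^ κ := Nat.floor_le (by linarith)
  have hX1 : 1 ≤ X := Nat.le_floor (by exact_mod_cast hTκ)
  have hX1r : (1:ℝ) ≤ X := by exact_mod_cast hX1
  have key := k1 T α t0 hTT1 hα0 le_rfl ht1 ht2
  set J := ∫ t in (t0 - T ^ η2)..(t0 + T ^ η2), Og (T ^ η1) t0 (2 + t * I) * gam α (2 + t * I) with hJ
  set M := Ms α X with hM
  set P := ((Real.sqrt Real.pi * T ^ η1 : ℝ) : ℂ) *
        Complex.exp ((α / 2 * Real.log (T / (2 * Real.pi)) : ℝ) * I) with hP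
  have hH0 : 0 < T ^ η1 := Real.rpow_pos_of_pos hT0 _
  have hMn : ‖M‖ ≤ 2 * Real.log T := by
    refine (norm_Ms_le α X).trans ?_
    have h5 : Real.log X ≤ Real.log T := by
      apply Real.log_le_log (by linarith)
      refine hXle.trans ?_
      calc T ^ κ ≤ T ^ (1:ℝ) := Real.rpow_le_rpow_of_exponent_le h1T.le hκ1.le
        _ = T := Real.rpow_one T
    linarith
  have hmain : (M * P).im ≤ -c * Real.log T * (Real.sqrt Real.pi * T ^ η1) := by
    have e1 : M * P = ((Real.sqrt Real.pi * T ^ η1 : ℝ) : ℂ) *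
        (Complex.exp ((α / 2 * Real.log (T / (2 * Real.pi)) : ℝ) * I) * M) := by
      rw [hP]
      ring
    rw [e1, Complex.im_ofReal_mul]
    have h6 : 0 ≤ Real.sqrt Real.pi * T ^ η1 := by positivity
    calc _ ≤ (Real.sqrt Real.pi * T ^ η1) * (-c * Real.log T) := mul_le_mul_of_nonneg_left b1 h6
      _ = _ := by ring
  have herr : ‖M * J - M * P‖ ≤ c * Real.sqrt Real.pi / 2 * Real.log T * T ^ η1 := by
    rw [← mul_sub, norm_mul]
    calc _ ≤ (2 * Real.log T) * (C / Real.log T * T ^ η1) := by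
          apply mul_le_mul hMn key (norm_nonneg _) (by positivity)
      _ = (2 * (C / Real.log T)) * Real.log T * T ^ η1 := by ring
      _ ≤ _ := by gcongr
  have h12' : (M * J).im - (M * P).im ≤ c * Real.sqrt Real.pi / 2 * Real.log T * T ^ η1 := by
    rw [← Complex.sub_im]
    exact (le_abs_self _).trans ((Complex.abs_im_le_norm _).trans herr)
  linarith only [h12', hmain]

/-- Reflection for the square of the resonator. -/
lemma BS2_conj (R : ResData) (T α : ℝ) (s : ℂ) :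
    BS (Q2 R T) (b2 R T α) w2 (1 - conj s) = conj (BS (Q2 R T) (b2 R T α) w2 s) := by
  unfold BS
  rw [map_sum]
  have hmem : ∀ q ∈ Q2 R T, (q.1.swap, q.2.swap) ∈ Q2 R T := by
    intro q hq
    unfold Q2 at hq ⊢
    rw [mem_filter, mem_product] at hq ⊢
    refine ⟨⟨swap_mem_QQ hq.1.1, swap_mem_QQ hq.1.2⟩, ?_, ?_⟩
    · rw [al_swap]; exact hq.2.1
    · rw [al_swap]; exact hq.2.2
  refine sum_bij' (fun q _ => (q.1.swap, q.2.swap)) (fun q _ => (q.1.swap, q.2.swap)) hmem hmem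
    (fun q _ => by simp) (fun q _ => by simp) fun q _ => ?_
  have hw : w2 (q.1.swap, q.2.swap) = -w2 q := by
    unfold w2
    rw [fr_swap, fr_swap]
    ring
  have hb : b2 R T α (q.1.swap, q.2.swap) = conj (b2 R T α q) := by
    unfold b2
    rw [hw, al_swap, al_swap, map_mul, Complex.conj_ofReal, ← Complex.exp_conj, map_mul,
      Complex.conj_ofReal, Complex.conj_I]
    push_cast
    congr 2
    ring
  rw [hw, hb, map_mul, ← Complex.exp_conj, Complex.conj_conj]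
  congr 1
  rw [map_mul, map_neg, Complex.conj_ofReal, map_sub]
  congr 1
  have : conj (1 / 2 : ℂ) = 1 / 2 := by
    have h5 : (1 / 2 : ℂ) = ((1 / 2 : ℝ) : ℂ) := by push_cast; ring
    rw [h5, Complex.conj_ofReal]
  rw [this]
  push_cast
  ring

/-- Reflection for the Möbius polynomial. -/
lemma BSV_conj (α : ℝ) (X : ℕ) (s : ℂ) :
    BS (QV X) (bV α) wV (1 - conj s) = conj (BS (QV X) (bV α) wV s) := by
  unfold BS
  rw [map_sum]
  have hmem : ∀ q ∈ QV X, q.swap ∈ QV X := by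
    intro q hq
    unfold QV at hq ⊢
    rw [mem_product] at hq ⊢
    exact ⟨hq.2, hq.1⟩
  refine sum_bij' (fun q _ => q.swap) (fun q _ => q.swap) hmem hmem
    (fun q _ => by simp) (fun q _ => by simp) fun q _ => ?_
  have hw : wV q.swap = -wV q := by
    unfold wV
    simp
  have hb : bV α q.swap = conj (bV α q) := by
    unfold bV
    rw [map_mul, map_mul, map_mul, Complex.conj_ofReal, ← Complex.exp_conj, map_mul,
      Complex.conj_ofReal, Complex.conj_I]
    simp only [Prod.fst_swap, Prod.snd_swap, map_intCast]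
    rw [mul_comm (q.2:ℝ) (q.1:ℝ)]
    have e1 : ((α * (Real.log q.1 - Real.log q.2) : ℝ) : ℂ) * I =
        ((α * (Real.log q.2 - Real.log q.1) : ℝ) : ℂ) * -I := by
      push_cast
      ring
    rw [e1]
    ring
  rw [hw, hb, map_mul, ← Complex.exp_conj, Complex.conj_conj]
  congr 1
  rw [map_mul, map_neg, Complex.conj_ofReal, map_sub]
  congr 1
  have : conj (1 / 2 : ℂ) = 1 / 2 := by
    have h5 : (1 / 2 : ℂ) = ((1 / 2 : ℝ) : ℂ) := by push_cast; ring
    rw [h5, Complex.conj_ofReal]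
  rw [this]
  push_cast
  ring

/-- The square of the entire resonator. -/
lemma BS2_eq_sq (R : ResData) (T α : ℝ) (s : ℂ) :
    BS (Q2 R T) (b2 R T α) w2 s = AmpC R T (-(I * (s - 1 / 2)) + α) ^ 2 := by
  have e1 : BS (Q2 R T) (b2 R T α) w2 s =
      ∑ q ∈ QQ T ×ˢ QQ T, b2 R T α q * Complex.exp (-w2 q * (s - 1 / 2)) := by
    unfold BS Q2
    rw [sum_filter]
    refine sum_congr rfl fun q _ => ?_
    split_ifs with h
    · rfl
    · rw [not_and_or, not_not, not_not] at h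
      unfold b2
      rcases h with h | h <;> rw [h] <;> simp
  have e2 : ∀ q : Finset ℕ × Finset ℕ, -(I * (-(I * (s - 1 / 2)) + α) * (fr q : ℂ)) =
      -(fr q : ℂ) * (s - 1 / 2) - α * fr q * I := by
    intro q
    linear_combination (s - 1 / 2) * (fr q : ℂ) * Complex.I_mul_I
  rw [e1, sum_product, sq]
  unfold AmpC
  rw [sum_mul_sum]
  refine sum_congr rfl fun q _ => sum_congr rfl fun q' _ => ?_
  unfold b2 w2
  rw [e2, e2, mul_assoc, ← Complex.exp_add, mul_mul_mul_comm, ← Complex.exp_add]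
  push_cast
  congr 2
  ring

lemma BS2_line (R : ResData) (T α t : ℝ) :
    BS (Q2 R T) (b2 R T α) w2 (1 / 2 + t * I) = ((‖Amp R T (t + α)‖ ^ 2 : ℝ) : ℂ) := by
  rw [← Amp_sq]
  exact B2_eq R T α t

lemma BSV_line (α t : ℝ) (X : ℕ) : ∃ x : ℝ, 0 ≤ x ∧ BS (QV X) (bV α) wV (1 / 2 + t * I) = (x : ℂ) := by
  refine ⟨_, ?_, BV_eq α t X⟩
  positivity

lemma BS2_re_nonneg (R : ResData) (T α t : ℝ) : 0 ≤ (BS (Q2 R T) (b2 R T α) w2 (1 / 2 + t * I)).re := by
  rw [BS2_line, Complex.ofReal_re]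
  positivity

lemma BSV_re_nonneg (α t : ℝ) (X : ℕ) : 0 ≤ (BS (QV X) (bV α) wV (1 / 2 + t * I)).re := by
  obtain ⟨x, hx, h⟩ := BSV_line α t X
  rw [h, Complex.ofReal_re]
  exact hx

/-- The coefficient sum for the square of the resonator. -/
lemma sum_b2_exp_le {R : ResData} {T : ℝ} (hT : Real.exp 3 ≤ T) (hF : ∀ x, 0 ≤ x → R.F x ≤ 1) (α : ℝ) :
    ∑ q ∈ Q2 R T, ‖b2 R T α q‖ * Real.exp (2 * |w2 q|) ≤ T ^ 4 * E1 R ^ 2 := by
  have h1T : 1 < T := lt_of_lt_of_le (Real.one_lt_exp_iff.mpr (by norm_num)) hT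
  have hT0 : 0 < T := by linarith
  have hL : 0 < Real.log T := Real.log_pos h1T
  have hth := R.th_lt
  have e1 : ∀ q ∈ Q2 R T, ‖b2 R T α q‖ * Real.exp (2 * |w2 q|) ≤
      T ^ 2 * (|al R T q.1| * |al R T q.2|) := by
    intro q hq
    unfold Q2 at hq
    rw [mem_filter, mem_product] at hq
    have f1 := abs_fr_le h1T hq.2.1
    have f2 := abs_fr_le h1T hq.2.2
    unfold b2
    rw [norm_mul, Complex.norm_exp_ofReal_mul_I, mul_one, Complex.norm_real, Real.norm_eq_abs,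
      abs_mul, mul_comm]
    apply mul_le_mul_of_nonneg_right _ (by positivity)
    have h5 : T ^ 2 = Real.exp (2 * Real.log T) := by
      rw [mul_comm, Real.exp_mul, Real.exp_log hT0]
      norm_num
    rw [h5]
    apply Real.exp_le_exp.mpr
    have h6 : |w2 q| ≤ |fr q.1| + |fr q.2| := abs_add_le _ _
    have h7 : R.th * Real.log T ≤ 1 / 2 * Real.log T := by gcongr
    linarith
  refine (sum_le_sum e1).trans ?_
  rw [← mul_sum]
  have e2 : ∑ q ∈ QQ T, |al R T q| ≤ T * E1 R := by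
    calc ∑ q ∈ QQ T, |al R T q| ≤ ∑ q ∈ (PP T).powerset ×ˢ (PP T).powerset, |al R T q| := by
          unfold QQ
          exact sum_le_sum_of_subset_of_nonneg (filter_subset _ _) fun _ _ _ => abs_nonneg _
      _ = (∑ S ∈ (PP T).powerset, |aa R T S|) ^ 2 := by
          rw [sq, sum_mul_sum, sum_product]
          refine sum_congr rfl fun S _ => sum_congr rfl fun S' _ => ?_
          unfold al
          rw [abs_mul]
      _ ≤ T * E0 R T := sum_abs_aa_sq_le h1T hF
      _ ≤ T * E1 R := mul_le_mul_of_nonneg_left (E0_le_E1 hT) hT0.le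
  have e3 : ∑ q ∈ Q2 R T, |al R T q.1| * |al R T q.2| ≤ (T * E1 R) ^ 2 := by
    calc _ ≤ ∑ q ∈ QQ T ×ˢ QQ T, |al R T q.1| * |al R T q.2| := by
          unfold Q2
          exact sum_le_sum_of_subset_of_nonneg (filter_subset _ _) fun _ _ _ => by positivity
      _ = (∑ q ∈ QQ T, |al R T q|) ^ 2 := by
          rw [sq, sum_mul_sum, sum_product]
      _ ≤ (T * E1 R) ^ 2 := by
          apply pow_le_pow_left₀ (sum_nonneg fun _ _ => abs_nonneg _) e2
  calc _ ≤ T ^ 2 * (T * E1 R) ^ 2 := mul_le_mul_of_nonneg_left e3 (by positivity)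
    _ = _ := by ring

/-- The coefficient sum for the Möbius polynomial. -/
lemma sum_bV_exp_le (α : ℝ) (X : ℕ) :
    ∑ q ∈ QV X, ‖bV α q‖ * Real.exp (2 * |wV q|) ≤ (X:ℝ) ^ 4 := by
  have h1 : ∀ q ∈ QV X, ‖bV α q‖ * Real.exp (2 * |wV q|) ≤ (X:ℝ) ^ 2 := by
    intro q hq
    have hb := norm_bV_le α hq
    unfold QV at hq
    rw [mem_product, mem_Icc, mem_Icc] at hq
    obtain ⟨⟨hm1, hmX⟩, hn1, hnX⟩ := hq
    have hm : (1:ℝ) ≤ q.1 := by exact_mod_cast hm1
    have hn : (1:ℝ) ≤ q.2 := by exact_mod_cast hn1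
    have hX1 : (q.1:ℝ) ≤ X := by exact_mod_cast hmX
    have hX2 : (q.2:ℝ) ≤ X := by exact_mod_cast hnX
    have hX0 : (0:ℝ) < X := by linarith
    have h2 : Real.exp (2 * |wV q|) ≤ (X:ℝ) ^ 2 := by
      have h3 : Real.exp (2 * Real.log X) = (X:ℝ) ^ 2 := by
        rw [mul_comm, Real.exp_mul, Real.exp_log hX0]
        norm_num
      rw [← h3]
      apply Real.exp_le_exp.mpr
      have h4 : |wV q| ≤ Real.log X := by
        unfold wV
        have a1 := Real.log_nonneg hm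
        have a2 := Real.log_nonneg hn
        have a3 := Real.log_le_log (by linarith) hX1
        have a4 := Real.log_le_log (by linarith) hX2
        rw [abs_le]
        constructor <;> linarith
      linarith
    calc _ ≤ 1 * (X:ℝ) ^ 2 := mul_le_mul hb h2 (Real.exp_pos _).le zero_le_one
      _ = _ := one_mul _
  refine (sum_le_sum h1).trans ?_
  unfold QV
  rw [sum_const, card_product, Nat.card_Icc, Nat.add_sub_cancel, nsmul_eq_mul]
  push_cast
  apply le_of_eq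
  ring

end Pool.Agent.HalfGap
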