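import Pool.Agent.ZGap.Half.Defs
import Pool.Agent.Lib.Hadamard.RvM
import Pool.Agent.ZGap.Res.D1
import Pool.Agent.ZGap.Half.D1Def
import Pool.Agent.ZetaGaps.RvM2

/-!
# The quotient `ξ(s + iα) / ξ(s)` near the critical line
-/

namespace Pool.Agent.HalfGap

open Complex Pool.Agent.Hadamard MeasureTheory Set
open scoped ComplexConjugate

lemma Gammaℝ_conj' (s : ℂ) : Gammaℝ (conj s) = conj (Gammaℝ s) := by
  rw [Gammaℝ_def, Gammaℝ_def, map_mul]
  have h1 : (Real.pi : ℂ).arg ≠ Real.pi := by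
    rw [Complex.arg_ofReal_of_nonneg Real.pi_pos.le]
    exact Real.pi_pos.ne
  have h22 : conj (2 : ℂ) = 2 := Complex.conj_ofNat 2
  have h2 : conj (-s / 2) = -conj s / 2 := by
    rw [map_div₀, map_neg, h22]
  have h3 : conj (s / 2) = conj s / 2 := by
    rw [map_div₀, h22]
  have h4 := Complex.cpow_conj (Real.pi : ℂ) (-s / 2) h1
  rw [h2, Complex.conj_ofReal] at h4
  rw [h4, ← Complex.Gamma_conj, h3]

lemma xiF_conj' (s : ℂ) : xiF (conj s) = conj (xiF s) := by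
  have key : ∀ s : ℂ, 0 < s.re → s ≠ 1 → xiF (conj s) = conj (xiF s) := by
    intro s hs hs1
    have h1 : 0 < (conj s).re := by simpa using hs
    have h2 : conj s ≠ 1 := by
      intro h
      apply hs1
      rw [← Complex.conj_conj s, h, map_one]
    rw [xiF_eq_zeta hs hs1, xiF_eq_zeta h1 h2, Gammaℝ_conj', riemannZeta_conj]
    simp only [map_mul, map_sub, map_one]
  rcases eq_or_ne s 1 with rfl | h1
  · rw [map_one, xiF_one, map_one]
  rcases eq_or_ne s 0 with rfl | h0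
  · rw [map_zero, xiF_zero, map_one]
  rcases lt_or_ge 0 s.re with hs | hs
  · exact key s hs h1
  · have h2 := key (1 - s) (by simp; linarith) (by
      intro h; apply h0; linear_combination -h)
    rw [xiF_one_sub, map_sub, map_one, xiF_one_sub] at h2
    exact h2

/-- The reflection in the critical line. -/
lemma fq_refl (α : ℝ) (s : ℂ) : fq α (1 - conj s) = conj (fq α s) := by
  unfold fq
  have h1 : (1 - conj s + α * I : ℂ) = 1 - conj (s + α * I) := by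
    rw [map_add, map_mul, conj_ofReal, conj_I]; ring
  rw [h1, xiF_one_sub, xiF_one_sub, xiF_conj', xiF_conj', map_div₀]

/-- Derivative of `log ‖f‖`. -/
lemma hasDerivAt_log_norm {f : ℝ → ℂ} {f' : ℂ} {x : ℝ} (h : HasDerivAt f f' x) (h0 : f x ≠ 0) :
    HasDerivAt (fun y => Real.log ‖f y‖) ((f' / f x).re) x := by
  have h1 := h.norm_sq
  have hp : ‖f x‖ ^ 2 ≠ 0 := by positivity
  have h2 := (h1.log hp).div_const 2
  have h3 : (fun y => Real.log ‖f y‖) = fun y => Real.log (‖f y‖ ^ 2) / 2 := by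
    funext y
    rw [Real.log_pow]; push_cast; ring
  rw [h3]
  refine h2.congr_deriv ?_
  rw [Complex.inner, Complex.div_re, ← Complex.normSq_eq_norm_sq]
  have hq : Complex.normSq (f x) ≠ 0 := by
    rw [Complex.normSq_eq_norm_sq]; exact hp
  simp only [Complex.mul_re, Complex.conj_re, Complex.conj_im]
  field_simp
  ring

/-- The constant of the distance comparison. -/
noncomputable def Kc (A c : ℝ) : ℝ := 1 / c ^ 2 + (1 + A / c) ^ 2

lemma Kc_nonneg (A c : ℝ) : 0 ≤ Kc A c := by unfold Kc; positivity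

lemma inv_sq_le {L t A c : ℝ} (hL : 0 < L) (hA : 0 ≤ A) (hc : 0 < c) {w ρ : ℂ}
    (hρ : ρ.re = 1 / 2) (h1 : ‖w - (1 / 2 + t * I)‖ ≤ A / L) (h2 : c / L ≤ ‖w - ρ‖) :
    1 / ‖w - ρ‖ ^ 2 ≤ Kc A c * L ^ 2 * (1 / (1 + (L * (t - ρ.im)) ^ 2)) := by
  have hcL : 0 < c / L := by positivity
  have hd : 0 < ‖w - ρ‖ := hcL.trans_le h2
  set d := ‖w - ρ‖ with hdd
  have h3 : |t - ρ.im| ≤ d + A / L := by
    have e1 : (1 / 2 + t * I : ℂ) - ρ = ((t - ρ.im : ℝ) : ℂ) * I := by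
      apply Complex.ext <;> simp [hρ]
    have e2 : ‖(1 / 2 + t * I : ℂ) - ρ‖ = |t - ρ.im| := by
      rw [e1, norm_mul, norm_I, mul_one, Complex.norm_real, Real.norm_eq_abs]
    rw [← e2]
    have e3 : (1 / 2 + t * I : ℂ) - ρ = (w - ρ) - (w - (1 / 2 + t * I)) := by ring
    rw [e3]
    calc ‖(w - ρ) - (w - (1 / 2 + t * I))‖ ≤ ‖w - ρ‖ + ‖w - (1 / 2 + t * I)‖ := norm_sub_le _ _
      _ ≤ d + A / L := by rw [hdd]; gcongr
  have h4 : A / L ≤ A / c * d := by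
    have : A / L = A / c * (c / L) := by field_simp
    rw [this]
    gcongr
  have h5 : |t - ρ.im| ≤ (1 + A / c) * d := by linarith
  have h6 : (t - ρ.im) ^ 2 ≤ ((1 + A / c) * d) ^ 2 := by
    rw [← sq_abs]
    gcongr
  have h7 : 1 ≤ L ^ 2 * d ^ 2 / c ^ 2 := by
    rw [le_div_iff₀ (by positivity), one_mul, ← mul_pow]
    have : c ≤ L * d := by
      rw [div_le_iff₀ hL] at h2; linarith
    gcongr
  rw [mul_one_div, div_le_div_iff₀ (by positivity) (by positivity), one_mul]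
  have h8 : (L * (t - ρ.im)) ^ 2 ≤ L ^ 2 * ((1 + A / c) * d) ^ 2 := by
    rw [mul_pow]; gcongr
  have h9 : Kc A c * L ^ 2 * d ^ 2 = L ^ 2 * d ^ 2 / c ^ 2 + L ^ 2 * ((1 + A / c) * d) ^ 2 := by
    unfold Kc
    field_simp
  rw [h9]
  linarith

lemma term_le {L t A c : ℝ} (hL : 0 < L) (hA : 0 ≤ A) (hc : 0 < c) {w w' ρ : ℂ}
    (hρ : ρ.re = 1 / 2) (h1 : ‖w - (1 / 2 + t * I)‖ ≤ A / L) (h2 : c / L ≤ ‖w - ρ‖)
    (h1' : ‖w' - (1 / 2 + t * I)‖ ≤ A / L) (h2' : c / L ≤ ‖w' - ρ‖) :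
    1 / (‖w - ρ‖ * ‖w' - ρ‖) ≤ Kc A c * L ^ 2 * (1 / (1 + (L * (t - ρ.im)) ^ 2)) := by
  have a1 := inv_sq_le hL hA hc hρ h1 h2
  have a2 := inv_sq_le hL hA hc hρ h1' h2'
  have hcL : 0 < c / L := by positivity
  have hd : 0 < ‖w - ρ‖ := hcL.trans_le h2
  have hd' : 0 < ‖w' - ρ‖ := hcL.trans_le h2'
  have h3 : 1 / (‖w - ρ‖ * ‖w' - ρ‖) ≤ (1 / ‖w - ρ‖ ^ 2 + 1 / ‖w' - ρ‖ ^ 2) / 2 := by
    have : 0 ≤ (1 / ‖w - ρ‖ - 1 / ‖w' - ρ‖) ^ 2 := sq_nonneg _
    have e : (1 / ‖w - ρ‖ - 1 / ‖w' - ρ‖) ^ 2 =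
      1 / ‖w - ρ‖ ^ 2 + 1 / ‖w' - ρ‖ ^ 2 - 2 * (1 / (‖w - ρ‖ * ‖w' - ρ‖)) := by
      field_simp
      ring
    linarith
  linarith

lemma sub_inv_le {L t A c : ℝ} (hL : 0 < L) (hA : 0 ≤ A) (hc : 0 < c) {w w' ρ : ℂ}
    (hρ : ρ.re = 1 / 2) (h1 : ‖w - (1 / 2 + t * I)‖ ≤ A / L) (h2 : c / L ≤ ‖w - ρ‖)
    (h1' : ‖w' - (1 / 2 + t * I)‖ ≤ A / L) (h2' : c / L ≤ ‖w' - ρ‖) :
    ‖1 / (w - ρ) - 1 / (w' - ρ)‖ ≤
      ‖w' - w‖ * (Kc A c * L ^ 2 * (1 / (1 + (L * (t - ρ.im)) ^ 2))) := by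
  have hcL : 0 < c / L := by positivity
  have hd : 0 < ‖w - ρ‖ := hcL.trans_le h2
  have hd' : 0 < ‖w' - ρ‖ := hcL.trans_le h2'
  have e1 : 1 / (w - ρ) - 1 / (w' - ρ) = (w' - w) * (1 / ((w - ρ) * (w' - ρ))) := by
    have := norm_pos_iff.mp hd
    have := norm_pos_iff.mp hd'
    field_simp
    ring
  rw [e1, norm_mul, norm_div, norm_one, norm_mul]
  gcongr
  exact term_le hL hA hc hρ h1 h2 h1' h2'

/-- Under RH there are no zeros to the right of the critical line. -/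
lemma notMem_ntz (hRH : RiemannHypothesis) {s : ℂ} (hs : 1 / 2 < s.re) : s ∉ ntz := fun h => by
  have := Pool.Agent.ZetaGaps.re_eq_half hRH h
  linarith

lemma norm_sub_ge_re {s ρ : ℂ} (hρ : ρ.re = 1 / 2) {c : ℝ} (hs : 1 / 2 + c ≤ s.re) :
    c ≤ ‖s - ρ‖ := by
  have h1 := Complex.abs_re_le_norm (s - ρ)
  have h2 : (s - ρ).re = s.re - 1 / 2 := by rw [sub_re, hρ]
  rw [h2] at h1
  have := le_abs_self (s.re - 1 / 2)
  linarith

lemma xiF_ne {s : ℂ} (h : s ∉ ntz) : xiF s ≠ 0 := fun h' => h (xiF_eq_zero_iff.mp h')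

lemma continuousAt_logDeriv_xiF {s : ℂ} (h : s ∉ ntz) : ContinuousAt (logDeriv xiF) s :=
  continuousAt_logDeriv (xiF_differentiable.analyticAt s) (xiF_ne h)

/-- Derivative of `log ‖g (h x)‖`. -/
lemma hasDerivAt_log_norm_comp {g : ℂ → ℂ} {h : ℝ → ℂ} {h' : ℂ} {x : ℝ}
    (hg : DifferentiableAt ℂ g (h x)) (hh : HasDerivAt h h' x) (h0 : g (h x) ≠ 0) :
    HasDerivAt (fun y => Real.log ‖g (h y)‖) ((h' * logDeriv g (h x)).re) x := by
  have h1 : HasDerivAt (fun y => g (h y)) (deriv g (h x) * h') x := hg.hasDerivAt.comp x hh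
  refine (hasDerivAt_log_norm h1 h0).congr_deriv ?_
  rw [logDeriv_apply]
  congr 1
  ring

lemma hasDerivAt_log_norm_sub {h : ℝ → ℂ} {h' : ℂ} {x : ℝ} (ρ : ℂ)
    (hh : HasDerivAt h h' x) (h0 : h x - ρ ≠ 0) :
    HasDerivAt (fun y => Real.log ‖h y - ρ‖) ((h' * (1 / (h x - ρ))).re) x := by
  have h1 : HasDerivAt (fun y => h y - ρ) h' x := hh.sub_const ρ
  refine (hasDerivAt_log_norm h1 h0).congr_deriv ?_
  congr 1
  ring

/-- The termwise logarithm. -/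
noncomputable def ellr (α : ℝ) (s z0 ρ : ℂ) : ℝ :=
  (Real.log ‖s + α * I - ρ‖ - Real.log ‖s - ρ‖) -
    (Real.log ‖z0 + α * I - ρ‖ - Real.log ‖z0 - ρ‖)

/-- **Product formula** in logarithmic form. -/
theorem hasSum_log_ratio (hRH : RiemannHypothesis) {α : ℝ} {s z0 : ℂ}
    (hs : 1 / 2 < s.re) (hz : 1 / 2 < z0.re) :
    HasSum (fun ρ : ntz => (mult ρ : ℝ) * ellr α s z0 ρ)
      (Real.log ‖fq α s‖ - Real.log ‖fq α z0‖) := by
  have hcount : Countable ntz := Pool.Agent.ZetaGaps.countable_ntz.to_subtype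
  obtain ⟨c, hc, hcs, hcz⟩ : ∃ c : ℝ, 0 < c ∧ 1 / 2 + c ≤ s.re ∧ 1 / 2 + c ≤ z0.re :=
    ⟨min (s.re - 1 / 2) (z0.re - 1 / 2), by
      apply lt_min <;> linarith, by
      have := min_le_left (s.re - 1 / 2) (z0.re - 1 / 2); linarith, by
      have := min_le_right (s.re - 1 / 2) (z0.re - 1 / 2); linarith⟩
  set u : ℝ → ℂ := fun x => z0 + x * (s - z0) with hu
  have hu0 : u 0 = z0 := by simp [hu]
  have hu1 : u 1 = s := by simp [hu]
  have hure : ∀ x ∈ Icc (0:ℝ) 1, 1 / 2 + c ≤ (u x).re := by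
    intro x hx
    have e : (u x).re = (1 - x) * z0.re + x * s.re := by
      simp [hu]; ring
    rw [e]
    nlinarith [hx.1, hx.2]
  have hure' : ∀ x ∈ Icc (0:ℝ) 1, 1 / 2 + c ≤ (u x + α * I).re := by
    intro x hx
    have := hure x hx
    simpa using this
  have hud : ∀ x, HasDerivAt u (s - z0) x := by
    intro x
    have h1 := ((hasDerivAt_id x).ofReal_comp.mul_const (s - z0)).const_add z0
    refine h1.congr_deriv ?_
    simp
  have hud' : ∀ x, HasDerivAt (fun x => u x + α * I) (s - z0) x := fun x =>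
    (hud x).add_const _
  have hcu : Continuous u := continuous_iff_continuousAt.mpr fun x => (hud x).continuousAt
  have hN : ∀ x ∈ Icc (0:ℝ) 1, u x ∉ ntz := fun x hx =>
    notMem_ntz hRH (by linarith [hure x hx])
  have hN' : ∀ x ∈ Icc (0:ℝ) 1, u x + α * I ∉ ntz := fun x hx =>
    notMem_ntz hRH (by linarith [hure' x hx])
  have hsub : ∀ x ∈ Icc (0:ℝ) 1, ∀ ρ : ntz, u x - ρ ≠ 0 := fun x hx ρ h => by
    apply hN x hx
    rw [sub_eq_zero.mp h]; exact ρ.2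
  have hsub' : ∀ x ∈ Icc (0:ℝ) 1, ∀ ρ : ntz, u x + α * I - ρ ≠ 0 := fun x hx ρ h => by
    apply hN' x hx
    rw [sub_eq_zero.mp h]; exact ρ.2
  -- the two derivatives
  set G : ℝ → ℝ := fun x =>
    ((s - z0) * (logDeriv xiF (u x + α * I) - logDeriv xiF (u x))).re with hG
  set g : ntz → ℝ → ℝ := fun ρ x =>
    (mult ρ : ℝ) * ((s - z0) * (1 / (u x + α * I - ρ) - 1 / (u x - ρ))).re with hg
  have hI01 : uIcc (0:ℝ) 1 = Icc 0 1 := uIcc_of_le zero_le_one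
  have hGc : ContinuousOn G (Icc 0 1) := by
    intro x hx
    apply ContinuousAt.continuousWithinAt
    have h1 : ContinuousAt (fun x => logDeriv xiF (u x + α * I)) x :=
      ContinuousAt.comp (f := fun x => u x + α * I) (continuousAt_logDeriv_xiF (hN' x hx))
        (hud' x).continuousAt
    have h2 : ContinuousAt (fun x => logDeriv xiF (u x)) x :=
      ContinuousAt.comp (continuousAt_logDeriv_xiF (hN x hx)) (hud x).continuousAt
    exact Complex.continuous_re.continuousAt.comp (continuousAt_const.mul (h1.sub h2))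
  have hgc : ∀ ρ, ContinuousOn (g ρ) (Icc 0 1) := by
    intro ρ x hx
    apply ContinuousAt.continuousWithinAt
    have h1 : ContinuousAt (fun x => 1 / (u x + α * I - (ρ:ℂ))) x :=
      continuousAt_const.div ((hud' x).continuousAt.sub continuousAt_const) (hsub' x hx ρ)
    have h2 : ContinuousAt (fun x => 1 / (u x - (ρ:ℂ))) x :=
      continuousAt_const.div ((hud x).continuousAt.sub continuousAt_const) (hsub x hx ρ)
    exact continuousAt_const.mul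
      (Complex.continuous_re.continuousAt.comp (continuousAt_const.mul (h1.sub h2)))
  have hGint : ∫ x in (0:ℝ)..1, G x = Real.log ‖fq α s‖ - Real.log ‖fq α z0‖ := by
    have hF : ∀ x ∈ uIcc (0:ℝ) 1, HasDerivAt
        (fun x => Real.log ‖xiF (u x + α * I)‖ - Real.log ‖xiF (u x)‖) (G x) x := by
      intro x hx
      rw [hI01] at hx
      have h1 := hasDerivAt_log_norm_comp (g := xiF) (xiF_differentiable _) (hud' x)
        (xiF_ne (hN' x hx))
      have h2 := hasDerivAt_log_norm_comp (g := xiF) (xiF_differentiable _) (hud x)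
        (xiF_ne (hN x hx))
      refine (h1.sub h2).congr_deriv ?_
      rw [hG]
      simp only
      rw [mul_sub, sub_re]
    rw [intervalIntegral.integral_eq_sub_of_hasDerivAt hF
      ((hGc.mono (by rw [hI01])).intervalIntegrable)]
    simp only [hu0, hu1, fq, norm_div]
    rw [Real.log_div, Real.log_div]
    · rw [norm_ne_zero_iff]; rw [← hu0]; exact xiF_ne (hN' 0 (by simp))
    · rw [norm_ne_zero_iff]; rw [← hu0]; exact xiF_ne (hN 0 (by simp))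
    · rw [norm_ne_zero_iff]; rw [← hu1]; exact xiF_ne (hN' 1 (by simp))
    · rw [norm_ne_zero_iff]; rw [← hu1]; exact xiF_ne (hN 1 (by simp))
  have hgint : ∀ ρ : ntz, ∫ x in (0:ℝ)..1, g ρ x = (mult ρ : ℝ) * ellr α s z0 ρ := by
    intro ρ
    have hF : ∀ x ∈ uIcc (0:ℝ) 1, HasDerivAt
        (fun x => (mult ρ : ℝ) * (Real.log ‖u x + α * I - ρ‖ - Real.log ‖u x - ρ‖)) (g ρ x) x := by
      intro x hx
      rw [hI01] at hx
      have h1 := hasDerivAt_log_norm_sub (ρ:ℂ) (hud' x) (hsub' x hx ρ)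
      have h2 := hasDerivAt_log_norm_sub (ρ:ℂ) (hud x) (hsub x hx ρ)
      refine ((h1.sub h2).const_mul (mult ρ : ℝ)).congr_deriv ?_
      rw [hg]
      simp only
      rw [← sub_re, ← mul_sub]
    rw [intervalIntegral.integral_eq_sub_of_hasDerivAt hF
      (((hgc ρ).mono (by rw [hI01])).intervalIntegrable)]
    simp only [hu0, hu1, ellr]
    ring
  -- dominated convergence
  set A : ℝ := ‖s‖ + ‖z0‖ + |α| + 1 with hA
  have hA0 : 0 ≤ A := by positivity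
  have hun : ∀ x ∈ Icc (0:ℝ) 1, ‖u x‖ ≤ ‖s‖ + ‖z0‖ := by
    intro x hx
    have e : u x = ((1 - x : ℝ) : ℂ) * z0 + (x : ℂ) * s := by
      simp only [hu]; push_cast; ring
    rw [e]
    calc ‖((1 - x : ℝ) : ℂ) * z0 + (x : ℂ) * s‖ ≤ ‖((1 - x : ℝ) : ℂ) * z0‖ + ‖(x : ℂ) * s‖ :=
          norm_add_le _ _
      _ = (1 - x) * ‖z0‖ + x * ‖s‖ := by
          rw [norm_mul, norm_mul, Complex.norm_real, Complex.norm_real, Real.norm_of_nonneg hx.1,
            Real.norm_of_nonneg (by linarith [hx.2])]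
      _ ≤ 1 * ‖z0‖ + 1 * ‖s‖ := by
          gcongr
          · linarith [hx.1]
          · exact hx.2
      _ = _ := by ring
  have hαI : ‖(α * I : ℂ)‖ = |α| := by
    rw [norm_mul, norm_I, mul_one, Complex.norm_real, Real.norm_eq_abs]
  have hdist : ∀ x ∈ Icc (0:ℝ) 1, ‖u x - (1 / 2 + ((0:ℝ):ℂ) * I)‖ ≤ A / 1 := by
    intro x hx
    have h1 := hun x hx
    have h2 : ‖(1 / 2 + ((0:ℝ):ℂ) * I : ℂ)‖ ≤ 1 := by norm_num
    calc _ ≤ ‖u x‖ + ‖(1 / 2 + ((0:ℝ):ℂ) * I : ℂ)‖ := norm_sub_le _ _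
      _ ≤ A / 1 := by rw [div_one, hA]; linarith [abs_nonneg α]
  have hdist' : ∀ x ∈ Icc (0:ℝ) 1, ‖u x + α * I - (1 / 2 + ((0:ℝ):ℂ) * I)‖ ≤ A / 1 := by
    intro x hx
    have h1 := hun x hx
    have h2 : ‖(1 / 2 + ((0:ℝ):ℂ) * I : ℂ)‖ ≤ 1 := by norm_num
    calc _ ≤ ‖u x + α * I‖ + ‖(1 / 2 + ((0:ℝ):ℂ) * I : ℂ)‖ := norm_sub_le _ _
      _ ≤ (‖u x‖ + ‖(α * I : ℂ)‖) + ‖(1 / 2 + ((0:ℝ):ℂ) * I : ℂ)‖ := by
          gcongr; exact norm_add_le _ _
      _ ≤ A / 1 := by rw [div_one, hA, hαI]; linarith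
  have hb : ∀ ρ : ntz, ∀ x ∈ Icc (0:ℝ) 1, |g ρ x| ≤ (‖s - z0‖ * (|α| * Kc A c)) *
      ((mult ρ : ℝ) / (1 + (0 - (ρ:ℂ).im) ^ 2)) := by
    intro ρ x hx
    have hρ := Pool.Agent.ZetaGaps.re_eq_half hRH ρ.2
    have h1 := sub_inv_le (L := 1) (t := 0) one_pos hA0 hc hρ (hdist' x hx)
      (by rw [div_one]; exact norm_sub_ge_re hρ (hure' x hx)) (hdist x hx)
      (by rw [div_one]; exact norm_sub_ge_re hρ (hure x hx))
    have h2 : ‖u x - (u x + α * I)‖ = |α| := by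
      rw [show u x - (u x + α * I) = -(α * I) by ring, norm_neg, hαI]
    rw [h2] at h1
    simp only [hg]
    rw [abs_mul, abs_of_nonneg (by positivity : (0:ℝ) ≤ (mult ρ : ℝ))]
    have h3 := Complex.abs_re_le_norm ((s - z0) * (1 / (u x + α * I - ρ) - 1 / (u x - ρ)))
    rw [norm_mul] at h3
    calc (mult ρ : ℝ) * |((s - z0) * (1 / (u x + α * I - ρ) - 1 / (u x - ρ))).re|
        ≤ (mult ρ : ℝ) * (‖s - z0‖ *
            (|α| * (Kc A c * 1 ^ 2 * (1 / (1 + (1 * (0 - (ρ:ℂ).im)) ^ 2))))) := by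
          gcongr
          exact h3.trans (by gcongr)
      _ = _ := by
          rw [one_mul]; ring
  have hsum := (summable_weight 0).mul_left (‖s - z0‖ * (|α| * Kc A c))
  have hIoc : ∀ x, x ∈ uIoc (0:ℝ) 1 → x ∈ Icc (0:ℝ) 1 := by
    intro x hx
    rw [uIoc_of_le zero_le_one] at hx
    exact ⟨hx.1.le, hx.2⟩
  have hfin := intervalIntegral.hasSum_integral_of_dominated_convergence (μ := volume)
    (a := 0) (b := 1) (F := g) (f := G)
    (fun ρ _ => (‖s - z0‖ * (|α| * Kc A c)) * ((mult ρ : ℝ) / (1 + (0 - (ρ:ℂ).im) ^ 2)))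
    (fun ρ => ((hgc ρ).mono hIoc).aestronglyMeasurable measurableSet_uIoc)
    (fun ρ => Filter.Eventually.of_forall fun x hx => by
      rw [Real.norm_eq_abs]; exact hb ρ x (hIoc x hx))
    (Filter.Eventually.of_forall fun x _ => hsum)
    intervalIntegrable_const
    (Filter.Eventually.of_forall fun x hx => by
      have h1 := hasSum_complex_zeros (hN' x (hIoc x hx)) (hN x (hIoc x hx))
      have h2 := (Complex.hasSum_iff _ _).mp (h1.mul_left (s - z0)) |>.1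
      have h3 : (fun ρ : ntz => ((s - z0) * ((mult ρ : ℂ) *
          (1 / (u x + α * I - ρ) - 1 / (u x - ρ)))).re) = fun ρ => g ρ x := by
        funext ρ
        simp only [hg]
        rw [show (s - z0) * ((mult ρ : ℂ) * (1 / (u x + α * I - ρ) - 1 / (u x - ρ))) =
          (((mult ρ : ℕ) : ℝ) : ℂ) * ((s - z0) * (1 / (u x + α * I - ρ) - 1 / (u x - ρ))) by
            push_cast; ring, Complex.re_ofReal_mul]
      rw [h3] at h2
      exact h2)
  rw [hGint] at hfin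
  simp only [hgint] at hfin
  exact hfin

/-- Difference of two values of `ξ'/ξ` near `1/2 + it`. -/
lemma norm_logDeriv_sub_le (hRH : RiemannHypothesis) {T t A c : ℝ} (hT : 1 ≤ Real.log T)
    (hA : 0 ≤ A) (hc : 0 < c) {w w' : ℂ}
    (h1 : ‖w - (1 / 2 + t * I)‖ ≤ A / Real.log T) (h2 : ∀ ρ ∈ ntz, c / Real.log T ≤ ‖w - ρ‖)
    (h1' : ‖w' - (1 / 2 + t * I)‖ ≤ A / Real.log T)
    (h2' : ∀ ρ ∈ ntz, c / Real.log T ≤ ‖w' - ρ‖) :
    ‖logDeriv xiF w - logDeriv xiF w'‖ ≤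
      ‖w' - w‖ * (Kc A c * Real.log T ^ 2 * Pool.Agent.ZGap.Res.FM.W1 T t) := by
  have hL : 0 < Real.log T := by linarith
  have hcL : 0 < c / Real.log T := by positivity
  have hn : ∀ {w : ℂ}, (∀ ρ ∈ ntz, c / Real.log T ≤ ‖w - ρ‖) → w ∉ ntz := fun {w} h hw => by
    have := h w hw
    rw [sub_self, norm_zero] at this
    linarith
  have hs := (Pool.Agent.ZGap.Res.FM.W1_summable hRH hT t).hasSum.mul_left
    (‖w' - w‖ * (Kc A c * Real.log T ^ 2))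
  have hs2 : ‖w' - w‖ * (Kc A c * Real.log T ^ 2 * Pool.Agent.ZGap.Res.FM.W1 T t) =
      ‖w' - w‖ * (Kc A c * Real.log T ^ 2) *
        ∑' ρ : ntz, (mult ρ : ℝ) * (1 / (1 + (Real.log T * (t - (ρ : ℂ).im)) ^ 2)) := by
    unfold Pool.Agent.ZGap.Res.FM.W1
    ring
  rw [hs2]
  refine (hasSum_complex_zeros (hn h2) (hn h2')).norm_le_of_bounded hs fun ρ => ?_
  have h3 := sub_inv_le hL hA hc (Pool.Agent.ZetaGaps.re_eq_half hRH ρ.2) h1 (h2 ρ ρ.2) h1'
    (h2' ρ ρ.2)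
  rw [norm_mul, Complex.norm_natCast]
  calc (mult ρ : ℝ) * ‖1 / (w - ρ) - 1 / (w' - ρ)‖
      ≤ (mult ρ : ℝ) * (‖w' - w‖ *
        (Kc A c * Real.log T ^ 2 * (1 / (1 + (Real.log T * (t - (ρ : ℂ).im)) ^ 2)))) := by
        gcongr
    _ = _ := by ring

/-- The termwise logarithm is small. -/
lemma ellr_le {α : ℝ} (hα : 0 ≤ α) {s z0 ρ : ℂ} (h1 : s - ρ ≠ 0) (h2 : z0 - ρ ≠ 0)
    (h3 : s + α * I - ρ ≠ 0) (h4 : z0 + α * I - ρ ≠ 0) :
    ellr α s z0 ρ ≤ α * ‖z0 - s‖ * (1 / (‖s - ρ‖ * ‖z0 + α * I - ρ‖)) := by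
  have p1 := norm_pos_iff.mpr h1
  have p2 := norm_pos_iff.mpr h2
  have p3 := norm_pos_iff.mpr h3
  have p4 := norm_pos_iff.mpr h4
  have e1 : ellr α s z0 ρ =
      Real.log ((‖s + α * I - ρ‖ * ‖z0 - ρ‖) / (‖s - ρ‖ * ‖z0 + α * I - ρ‖)) := by
    unfold ellr
    rw [Real.log_div (by positivity) (by positivity), Real.log_mul p3.ne' p2.ne',
      Real.log_mul p1.ne' p4.ne']
    ring
  have e2 : ‖s + α * I - ρ‖ * ‖z0 - ρ‖ ≤ ‖s - ρ‖ * ‖z0 + α * I - ρ‖ + α * ‖z0 - s‖ := by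
    have e3 : (s + α * I - ρ) * (z0 - ρ) = (s - ρ) * (z0 + α * I - ρ) + α * I * (z0 - s) := by
      ring
    have hαI : ‖(α * I : ℂ)‖ = α := by
      rw [norm_mul, norm_I, mul_one, Complex.norm_real, Real.norm_of_nonneg hα]
    calc ‖s + α * I - ρ‖ * ‖z0 - ρ‖ = ‖(s - ρ) * (z0 + α * I - ρ) + α * I * (z0 - s)‖ := by
          rw [← e3, norm_mul]
      _ ≤ ‖(s - ρ) * (z0 + α * I - ρ)‖ + ‖α * I * (z0 - s)‖ := norm_add_le _ _
      _ = _ := by rw [norm_mul, norm_mul, hαI]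
  rw [e1]
  have hpos : 0 < (‖s + α * I - ρ‖ * ‖z0 - ρ‖) / (‖s - ρ‖ * ‖z0 + α * I - ρ‖) := by positivity
  have h5 := Real.log_le_sub_one_of_pos hpos
  have h6 : (‖s + α * I - ρ‖ * ‖z0 - ρ‖) / (‖s - ρ‖ * ‖z0 + α * I - ρ‖) ≤
      1 + α * ‖z0 - s‖ * (1 / (‖s - ρ‖ * ‖z0 + α * I - ρ‖)) := by
    rw [div_le_iff₀ (by positivity)]
    have : (1 + α * ‖z0 - s‖ * (1 / (‖s - ρ‖ * ‖z0 + α * I - ρ‖))) *
        (‖s - ρ‖ * ‖z0 + α * I - ρ‖) = ‖s - ρ‖ * ‖z0 + α * I - ρ‖ + α * ‖z0 - s‖ := by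
      field_simp
    rw [this]
    exact e2
  linarith

/-- Right of the critical line: comparison with the reference point. -/
lemma log_fq_sub_le (hRH : RiemannHypothesis) {T t A c α : ℝ} (hT : 1 ≤ Real.log T)
    (hA : 0 ≤ A) (hc : 0 < c) (hα : 0 ≤ α) {s z0 : ℂ} (hs : 1 / 2 < s.re) (hz : 1 / 2 < z0.re)
    (h1 : ‖s - (1 / 2 + t * I)‖ ≤ A / Real.log T) (h2 : ∀ ρ ∈ ntz, c / Real.log T ≤ ‖s - ρ‖)
    (h1' : ‖z0 + α * I - (1 / 2 + t * I)‖ ≤ A / Real.log T)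
    (h2' : ∀ ρ ∈ ntz, c / Real.log T ≤ ‖z0 + α * I - ρ‖) :
    Real.log ‖fq α s‖ - Real.log ‖fq α z0‖ ≤
      α * ‖z0 - s‖ * (Kc A c * Real.log T ^ 2 * Pool.Agent.ZGap.Res.FM.W1 T t) := by
  have hL : 0 < Real.log T := by linarith
  have hs1 := (Pool.Agent.ZGap.Res.FM.W1_summable hRH hT t).hasSum.mul_left
    (α * ‖z0 - s‖ * (Kc A c * Real.log T ^ 2))
  have hs2 : α * ‖z0 - s‖ * (Kc A c * Real.log T ^ 2 * Pool.Agent.ZGap.Res.FM.W1 T t) =
      α * ‖z0 - s‖ * (Kc A c * Real.log T ^ 2) *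
        ∑' ρ : ntz, (mult ρ : ℝ) * (1 / (1 + (Real.log T * (t - (ρ : ℂ).im)) ^ 2)) := by
    unfold Pool.Agent.ZGap.Res.FM.W1
    ring
  rw [hs2]
  have hne : ∀ {w : ℂ}, 1 / 2 < w.re → ∀ ρ : ntz, w - ρ ≠ 0 := fun {w} hw ρ h => by
    apply notMem_ntz hRH hw
    rw [sub_eq_zero.mp h]; exact ρ.2
  refine hasSum_le (fun ρ => ?_) (hasSum_log_ratio hRH hs hz) hs1
  have h3 := ellr_le hα (hne hs ρ) (hne hz ρ) (hne (w := s + α * I) (by simpa using hs) ρ)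
    (hne (w := z0 + α * I) (by simpa using hz) ρ)
  have h4 := term_le hL hA hc (Pool.Agent.ZetaGaps.re_eq_half hRH ρ.2) h1 (h2 ρ ρ.2) h1'
    (h2' ρ ρ.2)
  calc (mult ρ : ℝ) * ellr α s z0 ρ
      ≤ (mult ρ : ℝ) * (α * ‖z0 - s‖ * (1 / (‖s - ρ‖ * ‖z0 + α * I - ρ‖))) := by gcongr
    _ ≤ (mult ρ : ℝ) * (α * ‖z0 - s‖ *
        (Kc A c * Real.log T ^ 2 * (1 / (1 + (Real.log T * (t - (ρ : ℂ).im)) ^ 2)))) := by
        gcongr
    _ = _ := by ring

/-- Vertical motion: `log ‖ξ(z + iα)‖ - log ‖ξ(z)‖`. -/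
lemma log_fq_le_of_logDeriv {α B : ℝ} (hα : 0 ≤ α) {z : ℂ}
    (h0 : ∀ y ∈ Icc 0 α, z + y * I ∉ ntz)
    (h : ∀ y ∈ Icc 0 α, |(logDeriv xiF (z + y * I)).im| ≤ B) :
    Real.log ‖fq α z‖ ≤ B * α := by
  have hd : ∀ y : ℝ, HasDerivAt (fun y : ℝ => z + y * I) I y := by
    intro y
    have h1 := ((hasDerivAt_id y).ofReal_comp.mul_const I).const_add z
    refine h1.congr_deriv ?_
    simp
  have h1 : ∀ y ∈ Icc 0 α, HasDerivWithinAt (fun y : ℝ => Real.log ‖xiF (z + y * I)‖)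
      ((I * logDeriv xiF (z + y * I)).re) (Icc 0 α) y := fun y hy =>
    (hasDerivAt_log_norm_comp (g := xiF) (xiF_differentiable _) (hd y)
      (xiF_ne (h0 y hy))).hasDerivWithinAt
  have h2 := Convex.norm_image_sub_le_of_norm_hasDerivWithin_le h1 (fun y hy => by
    rw [Real.norm_eq_abs, Complex.I_mul_re, abs_neg]
    exact h y hy) (convex_Icc 0 α) (left_mem_Icc.mpr hα) (right_mem_Icc.mpr hα)
  have h3 : Real.log ‖fq α z‖ = Real.log ‖xiF (z + α * I)‖ - Real.log ‖xiF z‖ := by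
    unfold fq
    rw [norm_div, Real.log_div]
    · exact norm_ne_zero_iff.mpr (xiF_ne (h0 α (right_mem_Icc.mpr hα)))
    · have := h0 0 (left_mem_Icc.mpr hα)
      rw [ofReal_zero, zero_mul, add_zero] at this
      exact norm_ne_zero_iff.mpr (xiF_ne this)
  rw [h3]
  simp only [ofReal_zero, zero_mul, add_zero, sub_zero] at h2
  rw [Real.norm_eq_abs, Real.norm_of_nonneg hα] at h2
  exact (le_abs_self _).trans h2

/-- The reference point. -/
lemma log_fq_ref (hRH : RiemannHypothesis) {A : ℝ} (hA : 0 ≤ A) {T t α : ℝ}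
    (hT : 1 ≤ Real.log T) (hα : 0 ≤ α) (hαA : α ≤ A / Real.log T) :
    Real.log ‖fq α (((1 / 2 + 1 / Real.log T : ℝ) : ℂ) + t * I)‖ ≤
      A * |D1 T t| + A ^ 2 * Kc (A + 1) 1 * Pool.Agent.ZGap.Res.FM.W1 T t := by
  have hL : 0 < Real.log T := by linarith
  set L := Real.log T with hLdef
  set z0 : ℂ := ((1 / 2 + 1 / L : ℝ) : ℂ) + t * I with hz0
  have hW := Pool.Agent.ZGap.Res.FM.W1_nonneg T t
  have hL1 : 0 < 1 / L := by positivity
  have hre : ∀ y : ℝ, (z0 + y * I).re = 1 / 2 + 1 / L := by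
    intro y
    rw [hz0]
    simp only [add_re, ofReal_re, mul_re, I_re, mul_zero, ofReal_im, I_im, mul_one, sub_self,
      add_zero]
  have hnear : ∀ y ∈ Icc 0 α, ‖z0 + y * I - (1 / 2 + t * I)‖ ≤ (A + 1) / L := by
    intro y hy
    have e : z0 + y * I - (1 / 2 + t * I) = ((1 / L : ℝ) : ℂ) + ((y : ℝ) : ℂ) * I := by
      rw [hz0]; push_cast; ring
    rw [e]
    calc ‖((1 / L : ℝ) : ℂ) + ((y : ℝ) : ℂ) * I‖ ≤ ‖((1 / L : ℝ) : ℂ)‖ + ‖((y : ℝ) : ℂ) * I‖ :=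
          norm_add_le _ _
      _ = 1 / L + y := by
          rw [norm_mul, norm_I, mul_one, Complex.norm_real, Complex.norm_real,
            Real.norm_of_nonneg hL1.le, Real.norm_of_nonneg hy.1]
      _ ≤ 1 / L + A / L := by gcongr; exact hy.2.trans hαA
      _ = (A + 1) / L := by ring
  have hfar : ∀ y : ℝ, ∀ ρ ∈ ntz, 1 / L ≤ ‖z0 + y * I - ρ‖ := fun y ρ hρ =>
    norm_sub_ge_re (Pool.Agent.ZetaGaps.re_eq_half hRH hρ) (by rw [hre])
  have hmem : ∀ y : ℝ, z0 + y * I ∉ ntz := fun y =>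
    notMem_ntz hRH (by rw [hre]; linarith)
  have h00 : z0 = z0 + ((0:ℝ) : ℂ) * I := by simp
  have hb : ∀ y ∈ Icc 0 α, |(logDeriv xiF (z0 + y * I)).im| ≤
      L * |D1 T t| + A / L * (Kc (A + 1) 1 * L ^ 2 * Pool.Agent.ZGap.Res.FM.W1 T t) := by
    intro y hy
    have h1 := norm_logDeriv_sub_le hRH hT (by linarith : 0 ≤ A + 1) one_pos (hnear y hy)
      (hfar y) (hnear 0 ⟨le_rfl, hα⟩) (hfar 0)
    rw [← h00] at h1
    have h2 : ‖z0 - (z0 + y * I)‖ = y := by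
      rw [show z0 - (z0 + y * I) = -(y * I) by ring, norm_neg, norm_mul, norm_I, mul_one,
        Complex.norm_real, Real.norm_of_nonneg hy.1]
    rw [h2] at h1
    have h3 : (logDeriv xiF z0).im = L * D1 T t := by
      unfold D1
      rw [← hLdef, ← hz0]
      field_simp
    have h4 := Complex.abs_im_le_norm (logDeriv xiF (z0 + y * I) - logDeriv xiF z0)
    rw [sub_im] at h4
    have h5 : |(logDeriv xiF (z0 + y * I)).im| ≤ |(logDeriv xiF z0).im| +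
        |(logDeriv xiF (z0 + y * I)).im - (logDeriv xiF z0).im| := by
      have := abs_add_le (logDeriv xiF z0).im
        ((logDeriv xiF (z0 + y * I)).im - (logDeriv xiF z0).im)
      rwa [add_sub_cancel] at this
    rw [h3, abs_mul, abs_of_pos hL] at h5
    rw [h3] at h4
    have h6 : y * (Kc (A + 1) 1 * L ^ 2 * Pool.Agent.ZGap.Res.FM.W1 T t) ≤
        A / L * (Kc (A + 1) 1 * L ^ 2 * Pool.Agent.ZGap.Res.FM.W1 T t) := by
      have hk := Kc_nonneg (A + 1) 1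
      have : y ≤ A / L := hy.2.trans hαA
      gcongr
    linarith
  have h7 := log_fq_le_of_logDeriv hα (fun y _ => hmem y) hb
  have hk := Kc_nonneg (A + 1) 1
  calc Real.log ‖fq α z0‖ ≤ (L * |D1 T t| +
        A / L * (Kc (A + 1) 1 * L ^ 2 * Pool.Agent.ZGap.Res.FM.W1 T t)) * α := h7
    _ ≤ (L * |D1 T t| +
        A / L * (Kc (A + 1) 1 * L ^ 2 * Pool.Agent.ZGap.Res.FM.W1 T t)) * (A / L) := by
        gcongr
    _ = _ := by field_simp

/-- The constant of the bound `fq_le_exp`. -/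
noncomputable def Kq (A c : ℝ) : ℝ :=
  A + A ^ 2 * Kc (A + 1) 1 + A * (A + 1) * Kc (2 * A + 1) (min c 1)

lemma Kq_nonneg {A : ℝ} (hA : 0 ≤ A) (c : ℝ) : 0 ≤ Kq A c := by
  have h1 := Kc_nonneg (A + 1) 1
  have h2 := Kc_nonneg (2 * A + 1) (min c 1)
  unfold Kq
  positivity

/-- Right half. -/
lemma fq_le_right (hRH : RiemannHypothesis) {A c : ℝ} (hA : 0 ≤ A) (hc : 0 < c) {T t α : ℝ}
    (hT : 1 ≤ Real.log T) (hα : 0 ≤ α) (hαA : α ≤ A / Real.log T) {s : ℂ}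
    (hs : 1 / 2 < s.re) (h1 : ‖s - (1 / 2 + t * I)‖ ≤ A / Real.log T)
    (h2 : ∀ ρ ∈ ntz, c / Real.log T ≤ ‖s - ρ‖) :
    ‖fq α s‖ ≤ Real.exp (Kq A c * (Pool.Agent.ZGap.Res.FM.W1 T t + |D1 T t|)) := by
  have hL : 0 < Real.log T := by linarith
  have href := log_fq_ref hRH hA (t := t) hT hα hαA
  set L := Real.log T with hLdef
  set z0 : ℂ := ((1 / 2 + 1 / L : ℝ) : ℂ) + t * I with hz0
  have hL1 : 0 < 1 / L := by positivity
  have hW := Pool.Agent.ZGap.Res.FM.W1_nonneg T t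
  have hz0re : z0.re = 1 / 2 + 1 / L := by
    rw [hz0]
    simp only [add_re, ofReal_re, mul_re, I_re, mul_zero, ofReal_im, I_im, mul_one, sub_self,
      add_zero]
  have hcm : 0 < min c 1 := lt_min hc one_pos
  have hz0n : ‖z0 - (1 / 2 + t * I)‖ = 1 / L := by
    have e : z0 - (1 / 2 + t * I) = ((1 / L : ℝ) : ℂ) := by rw [hz0]; push_cast; ring
    rw [e, Complex.norm_real, Real.norm_of_nonneg hL1.le]
  have hαI : ‖(α * I : ℂ)‖ = α := by
    rw [norm_mul, norm_I, mul_one, Complex.norm_real, Real.norm_of_nonneg hα]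
  have hz0s : ‖z0 - s‖ ≤ (A + 1) / L := by
    calc ‖z0 - s‖ = ‖(z0 - (1 / 2 + t * I)) - (s - (1 / 2 + t * I))‖ := by ring_nf
      _ ≤ ‖z0 - (1 / 2 + t * I)‖ + ‖s - (1 / 2 + t * I)‖ := norm_sub_le _ _
      _ ≤ 1 / L + A / L := by rw [hz0n]; gcongr
      _ = (A + 1) / L := by ring
  have hsub := log_fq_sub_le hRH (t := t) (A := 2 * A + 1) (c := min c 1) (s := s) (z0 := z0)
    hT (by linarith) hcm hα hs
    (by rw [hz0re]; linarith) (h1.trans (by gcongr; linarith))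
    (fun ρ hρ => le_trans (by gcongr; exact min_le_left _ _) (h2 ρ hρ))
    (by
      calc ‖z0 + α * I - (1 / 2 + t * I)‖ = ‖(z0 - (1 / 2 + t * I)) + α * I‖ := by ring_nf
        _ ≤ ‖z0 - (1 / 2 + t * I)‖ + ‖(α * I : ℂ)‖ := norm_add_le _ _
        _ ≤ 1 / L + A / L := by rw [hz0n, hαI]; gcongr
        _ = (A + 1) / L := by ring
        _ ≤ (2 * A + 1) / L := by gcongr; linarith)
    (fun ρ hρ => by
      have h3 : min c 1 / L ≤ 1 / L := by gcongr; exact min_le_right _ _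
      refine h3.trans (norm_sub_ge_re (Pool.Agent.ZetaGaps.re_eq_half hRH hρ) ?_)
      simp only [add_re, hz0re, mul_re, ofReal_re, I_re, mul_zero, ofReal_im, I_im, mul_one,
        sub_self, add_zero, le_refl])
  have hk1 := Kc_nonneg (A + 1) 1
  have hk2 := Kc_nonneg (2 * A + 1) (min c 1)
  have h5 : α * ‖z0 - s‖ * (Kc (2 * A + 1) (min c 1) * L ^ 2 *
      Pool.Agent.ZGap.Res.FM.W1 T t) ≤
      A * (A + 1) * Kc (2 * A + 1) (min c 1) * Pool.Agent.ZGap.Res.FM.W1 T t := by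
    calc α * ‖z0 - s‖ * (Kc (2 * A + 1) (min c 1) * L ^ 2 * Pool.Agent.ZGap.Res.FM.W1 T t)
        ≤ (A / L) * ((A + 1) / L) * (Kc (2 * A + 1) (min c 1) * L ^ 2 *
          Pool.Agent.ZGap.Res.FM.W1 T t) := by gcongr
      _ = _ := by field_simp
  have hne : fq α s ≠ 0 := by
    unfold fq
    exact div_ne_zero (xiF_ne (notMem_ntz hRH (by simpa using hs))) (xiF_ne (notMem_ntz hRH hs))
  have hpos : 0 < ‖fq α s‖ := norm_pos_iff.mpr hne
  rw [← Real.log_le_iff_le_exp hpos]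
  have h6 : Kq A c * (Pool.Agent.ZGap.Res.FM.W1 T t + |D1 T t|) =
      (A * |D1 T t| + A ^ 2 * Kc (A + 1) 1 * Pool.Agent.ZGap.Res.FM.W1 T t) +
      A * (A + 1) * Kc (2 * A + 1) (min c 1) * Pool.Agent.ZGap.Res.FM.W1 T t +
      (A * Pool.Agent.ZGap.Res.FM.W1 T t + A ^ 2 * Kc (A + 1) 1 * |D1 T t| +
        A * (A + 1) * Kc (2 * A + 1) (min c 1) * |D1 T t|) := by
    unfold Kq; ring
  have h7 : 0 ≤ A * Pool.Agent.ZGap.Res.FM.W1 T t + A ^ 2 * Kc (A + 1) 1 * |D1 T t| +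
        A * (A + 1) * Kc (2 * A + 1) (min c 1) * |D1 T t| := by positivity
  rw [h6]
  linarith

lemma fq_continuousAt {α : ℝ} {s : ℂ} (hs : s ∉ ntz) : ContinuousAt (fq α) s := by
  unfold fq
  have h1 : Continuous xiF := xiF_differentiable.continuous
  exact (h1.comp (by fun_prop : Continuous fun s : ℂ => s + α * I)).continuousAt.div
    h1.continuousAt (xiF_ne hs)

/-- Right half, closed. -/
lemma fq_le_closed (hRH : RiemannHypothesis) {A c : ℝ} (hA : 0 ≤ A) (hc : 0 < c) {T t α : ℝ}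
    (hT : 1 ≤ Real.log T) (hα : 0 ≤ α) (hαA : α ≤ A / Real.log T) {s : ℂ}
    (hs : 1 / 2 ≤ s.re) (h1 : ‖s - (1 / 2 + t * I)‖ ≤ A / Real.log T)
    (h2 : ∀ ρ ∈ ntz, c / Real.log T ≤ ‖s - ρ‖) :
    ‖fq α s‖ ≤ Real.exp (Kq (A + 1) c * (Pool.Agent.ZGap.Res.FM.W1 T t + |D1 T t|)) := by
  have hL : 0 < Real.log T := by linarith
  have hcL : 0 < c / Real.log T := by positivity
  have hn : s ∉ ntz := fun h => by
    have := h2 s h
    rw [sub_self, norm_zero] at this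
    linarith
  have hcont : Filter.Tendsto (fun ε : ℝ => ‖fq α (s + ε)‖) (nhdsWithin 0 (Ioi 0))
      (nhds ‖fq α s‖) := by
    have h3 : ContinuousAt (fun ε : ℝ => ‖fq α (s + ε)‖) 0 := by
      have h4 : ContinuousAt (fun ε : ℝ => s + (ε : ℂ)) 0 := by fun_prop
      have h5 : ContinuousAt (fq α) ((fun ε : ℝ => s + (ε : ℂ)) 0) := by
        simpa using fq_continuousAt hn
      exact (ContinuousAt.comp (f := fun ε : ℝ => s + (ε : ℂ)) h5 h4).norm
    have h6 := h3.tendsto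
    simp only [ofReal_zero, add_zero] at h6
    exact h6.mono_left nhdsWithin_le_nhds
  refine le_of_tendsto hcont ?_
  have hmem : Ioo (0:ℝ) (1 / Real.log T) ∈ nhdsWithin (0:ℝ) (Ioi 0) :=
    Ioo_mem_nhdsGT (by positivity)
  filter_upwards [hmem] with ε hε
  have hεr : ‖(ε : ℂ)‖ = ε := by rw [Complex.norm_real, Real.norm_of_nonneg hε.1.le]
  apply fq_le_right hRH (by linarith : 0 ≤ A + 1) hc hT hα
    (hαA.trans (by gcongr; linarith)) (by simp; linarith [hε.1])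
  · calc ‖s + ε - (1 / 2 + t * I)‖ = ‖(s - (1 / 2 + t * I)) + ε‖ := by ring_nf
      _ ≤ ‖s - (1 / 2 + t * I)‖ + ‖(ε : ℂ)‖ := norm_add_le _ _
      _ ≤ A / Real.log T + 1 / Real.log T := by rw [hεr]; gcongr; exact hε.2.le
      _ = (A + 1) / Real.log T := by ring
  · intro ρ hρ
    refine (h2 ρ hρ).trans ?_
    have hρh := Pool.Agent.ZetaGaps.re_eq_half hRH hρ
    have h3 : ‖s - ρ‖ ^ 2 ≤ ‖s + ε - ρ‖ ^ 2 := by
      rw [← Complex.normSq_eq_norm_sq, ← Complex.normSq_eq_norm_sq, Complex.normSq_apply,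
        Complex.normSq_apply]
      simp only [sub_re, sub_im, add_re, add_im, ofReal_re, ofReal_im, add_zero, hρh]
      nlinarith [hε.1]
    exact le_of_sq_le_sq h3 (norm_nonneg _)

/-- **P3**: the quotient `ξ(s + iα)/ξ(s)` near the critical line, at a distance from the zeros. -/
theorem fq_le_exp (hRH : RiemannHypothesis) {A c : ℝ} (hA : 0 ≤ A) (hc : 0 < c) :
    ∃ C : ℝ, 0 < C ∧ ∀ T : ℝ, 1 ≤ Real.log T → ∀ t α : ℝ, 0 ≤ α → α ≤ A / Real.log T →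
      ∀ s : ℂ, ‖s - (1 / 2 + t * I)‖ ≤ A / Real.log T →
        (∀ ρ ∈ ntz, c / Real.log T ≤ ‖s - ρ‖) →
        ‖fq α s‖ ≤ Real.exp (C * (Pool.Agent.ZGap.Res.FM.W1 T t + |D1 T t|)) := by
  refine ⟨Kq (A + 1) c + 1, by have := Kq_nonneg (by linarith : 0 ≤ A + 1) c; linarith,
    fun T hT t α hα hαA s h1 h2 => ?_⟩
  have hW := Pool.Agent.ZGap.Res.FM.W1_nonneg T t
  have hle : Real.exp (Kq (A + 1) c * (Pool.Agent.ZGap.Res.FM.W1 T t + |D1 T t|)) ≤
      Real.exp ((Kq (A + 1) c + 1) * (Pool.Agent.ZGap.Res.FM.W1 T t + |D1 T t|)) := by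
    rw [Real.exp_le_exp]
    have : 0 ≤ Pool.Agent.ZGap.Res.FM.W1 T t + |D1 T t| := by positivity
    nlinarith
  refine le_trans ?_ hle
  rcases le_total (1 / 2) s.re with hs | hs
  · exact fq_le_closed hRH hA hc hT hα hαA hs h1 h2
  · have e1 : ‖fq α s‖ = ‖fq α (1 - conj s)‖ := by rw [fq_refl, Complex.norm_conj]
    rw [e1]
    have h22 : conj (2 : ℂ) = 2 := Complex.conj_ofNat 2
    apply fq_le_closed hRH hA hc hT hα hαA
    · simp; linarith
    · have e2 : 1 - conj s - (1 / 2 + t * I) = -conj (s - (1 / 2 + t * I)) := by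
        simp only [map_sub, map_add, map_mul, map_div₀, map_one, conj_ofReal, conj_I, h22]
        ring
      rw [e2, norm_neg, Complex.norm_conj]
      exact h1
    · intro ρ hρ
      have hρh := Pool.Agent.ZetaGaps.re_eq_half hRH hρ
      have e3 : 1 - conj s - ρ = -conj (s - ρ) := by
        have e4 : ρ = 1 - conj ρ := by
          apply Complex.ext
          · simp [hρh]; norm_num
          · simp
        rw [map_sub]
        linear_combination (-1 : ℂ) * e4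
      rw [e3, norm_neg, Complex.norm_conj]
      exact h2 ρ hρ

end Pool.Agent.HalfGap
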