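import Pool.Agent.ZGap.Half.Wrap
import Pool.Agent.ZGap.Half.Fin2
import Pool.Agent.ZGap.Half.Ratio
import Pool.Agent.ZGap.Half.ExpMom

/-!
# The pointwise bound of the integrand on the boxes
-/

namespace Pool.Agent.HalfGap

open Complex MeasureTheory Set Pool.Agent.Hadamard Filter Pool.Agent.ZGap.Res
open scoped ComplexConjugate Topology

lemma FF_box (hRH : RiemannHypothesis) {τ : ℝ} (hτ : 1 / 2 < τ) (hτ1 : τ < 1) :
    ∃ C : ℝ, 0 < C ∧ ∀ T : ℝ, 7 ≤ Real.log T → ∀ (R : ResData) (E : ℝ → ℝ),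
      (∀ (t : ℝ) (z : ℂ), ‖z - t‖ ≤ (4 * Real.pi + 1) / Real.log T → ‖AmpC R T z‖ ≤ E t) →
      ∀ H t0 : ℝ, 1 ≤ H → ∀ (t : ℝ) (s : ℂ), |s.re - 1 / 2| ≤ 1 / Real.log T →
        |s.im - t| ≤ 2 * Real.pi * τ / Real.log T →
        (s.re = 1 / 2 + 1 / Real.log T ∨ s.re = 1 / 2 - 1 / Real.log T ∨
          ∀ v, Xr v = 0 → Real.pi * τ / Real.log T ≤ |v - s.im|) →
        ‖FF H t0 (2 * Real.pi * τ / Real.log T)
          (BS (Q2 R T) (b2 R T (2 * Real.pi * τ / Real.log T)) w2) s‖ ≤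
          Real.exp 2 * Real.exp (-(t - t0) ^ 2 / (2 * H ^ 2)) *
            (E t ^ 2 * Real.exp (C * XX T t)) := by
  have hpi := Real.pi_pos
  have hpi3 := Real.pi_gt_three
  obtain ⟨C, hC, hfq⟩ := fq_le_exp hRH (A := 2 * Real.pi + 1) (c := 1) (by positivity) one_pos
  refine ⟨C, hC, fun T hL7 R E hE H t0 hH t s hs1 hs2 hs3 => ?_⟩
  set L := Real.log T with hL
  have hLpos : 0 < L := by linarith
  set α := 2 * Real.pi * τ / L with hα
  have hα0 : 0 < α := by positivity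
  have hpi4 := Real.pi_lt_four
  have hα1 : α ≤ 2 * Real.pi / L := by
    rw [hα]
    apply div_le_div_of_nonneg_right _ hLpos.le
    nlinarith
  unfold FF
  rw [norm_mul, norm_mul]
  -- the weight
  have h1 : ‖Og H t0 s‖ ≤ Real.exp 2 * Real.exp (-(t - t0) ^ 2 / (2 * H ^ 2)) := by
    rw [norm_Og_s, ← Real.exp_add]
    apply Real.exp_le_exp.mpr
    have hH2 : 1 ≤ H ^ 2 := one_le_pow₀ hH
    have a1 : (s.re - 1 / 2) ^ 2 ≤ (1 / 2) ^ 2 := by
      rw [← sq_abs]
      have : 1 / L ≤ 1 / 2 := by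
        rw [div_le_div_iff₀ hLpos (by norm_num)]; linarith
      have h5 : |s.re - 1 / 2| ≤ 1 / 2 := hs1.trans this
      exact pow_le_pow_left₀ (abs_nonneg _) h5 2
    have a2 : (s.im - t) ^ 2 ≤ (8 / 7) ^ 2 := by
      rw [← sq_abs]
      have h6 : |s.im - t| ≤ 8 / 7 := by
        refine hs2.trans (hα1.trans ?_)
        rw [div_le_iff₀ hLpos]
        nlinarith
      exact pow_le_pow_left₀ (abs_nonneg _) h6 2
    have a3 : (s.re - 1 / 2) ^ 2 - (s.im - t0) ^ 2 ≤ 2 - (t - t0) ^ 2 / 2 := by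
      nlinarith [sq_nonneg ((s.im - t0) + (s.im - t))]
    have hH0 : 0 < H ^ 2 := by positivity
    calc ((s.re - 1 / 2) ^ 2 - (s.im - t0) ^ 2) / H ^ 2 ≤ (2 - (t - t0) ^ 2 / 2) / H ^ 2 :=
          div_le_div_of_nonneg_right a3 hH0.le
      _ = 2 / H ^ 2 + -(t - t0) ^ 2 / (2 * H ^ 2) := by field_simp; ring
      _ ≤ 2 + -(t - t0) ^ 2 / (2 * H ^ 2) := by
          gcongr
          rw [div_le_iff₀ hH0]; linarith
  have h2 : ‖BS (Q2 R T) (b2 R T α) w2 s‖ ≤ E t ^ 2 := by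
    rw [BS2_eq_sq, norm_pow]
    apply pow_le_pow_left₀ (norm_nonneg _)
    apply hE
    have e1 : -(I * (s - 1 / 2)) + (α : ℂ) - t = ((s.im - t + α : ℝ) : ℂ) - ((s.re - 1 / 2 : ℝ) : ℂ) * I := by
      apply Complex.ext
      · simp; ring
      · simp
    rw [e1]
    refine (norm_sub_le _ _).trans ?_
    rw [norm_mul, norm_I, mul_one, norm_real, norm_real, Real.norm_eq_abs, Real.norm_eq_abs]
    have h5 : |s.im - t + α| ≤ α + α := (abs_add_le _ _).trans (by rw [abs_of_pos hα0]; linarith)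
    calc |s.im - t + α| + |s.re - 1 / 2| ≤ (α + α) + 1 / L := add_le_add h5 hs1
      _ ≤ (2 * Real.pi / L + 2 * Real.pi / L) + 1 / L := by gcongr
      _ = (4 * Real.pi + 1) / L := by ring
  have h3 : ‖fq α s‖ ≤ Real.exp (C * XX T t) := by
    unfold XX
    refine hfq T (by linarith) t α hα0.le (hα1.trans ?_) s ?_ ?_
    · apply div_le_div_of_nonneg_right _ hLpos.le; linarith
    · have e1 : s - (1 / 2 + t * I) = ((s.re - 1 / 2 : ℝ) : ℂ) + ((s.im - t : ℝ) : ℂ) * I := by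
        apply Complex.ext <;> simp
      rw [e1]
      refine (norm_add_le _ _).trans ?_
      rw [norm_mul, norm_I, mul_one, norm_real, norm_real, Real.norm_eq_abs, Real.norm_eq_abs]
      calc |s.re - 1 / 2| + |s.im - t| ≤ 1 / L + 2 * Real.pi / L := add_le_add hs1 (hs2.trans hα1)
        _ = (2 * Real.pi + 1) / L := by ring
    · intro ρ hρ
      obtain ⟨b1, b2⟩ := (xiF_zero_iff hRH).mp (xiF_eq_zero_iff.mpr hρ)
      have c1 := abs_re_le_norm (s - ρ)
      have c2 := abs_im_le_norm (s - ρ)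
      rw [sub_re, b1] at c1
      rw [sub_im] at c2
      rcases hs3 with h | h | h
      · rw [h] at c1
        refine le_trans ?_ c1
        rw [add_sub_cancel_left]
        exact le_abs_self _
      · rw [h] at c1
        refine le_trans ?_ c1
        rw [sub_sub_cancel_left, abs_neg]
        exact le_abs_self _
      · have := h _ b2
        rw [abs_sub_comm] at this
        refine le_trans ?_ (this.trans c2)
        apply div_le_div_of_nonneg_right _ hLpos.le
        nlinarith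
  calc ‖Og H t0 s‖ * ‖BS (Q2 R T) (b2 R T α) w2 s‖ * ‖fq α s‖
      ≤ (Real.exp 2 * Real.exp (-(t - t0) ^ 2 / (2 * H ^ 2))) * E t ^ 2 * Real.exp (C * XX T t) := by
        apply mul_le_mul (mul_le_mul h1 h2 (norm_nonneg _) (by positivity)) h3 (norm_nonneg _)
          (by positivity)
    _ = _ := by ring

end Pool.Agent.HalfGap
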