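import Pool.Agent.ZGap.Half.Defs
import Pool.Agent.Lib.Hadamard.Digamma

/-!
# The archimedean factor of `ξ(s + iα) / ξ(s)`
-/

namespace Pool.Agent.HalfGap.GB

open Complex MeasureTheory Set Filter Topology Pool.Agent.Hadamard

/-- The factor `s (s - 1) Γ_ℝ(s)`. -/
noncomputable def GF (s : ℂ) : ℂ := s * (s - 1) * Gammaℝ s

lemma gam_eq (α : ℝ) (s : ℂ) : gam α s = GF (s + α * I) / GF s := rfl

lemma Gammaℝ_ne_zero_im {s : ℂ} (hs : 0 < s.im) : Gammaℝ s ≠ 0 := by
  intro h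
  rw [Gammaℝ_eq_zero_iff] at h
  obtain ⟨n, rfl⟩ := h
  simp at hs

lemma Gammaℝ_differentiableAt_im {s : ℂ} (hs : 0 < s.im) : DifferentiableAt ℂ Gammaℝ s := by
  have h1 : DifferentiableAt ℂ (fun s => (Gammaℝ s)⁻¹) s := differentiable_Gammaℝ_inv s
  have h2 := h1.inv (inv_ne_zero (Gammaℝ_ne_zero_im hs))
  have h3 : (fun s => ((Gammaℝ s)⁻¹)⁻¹) = Gammaℝ := by funext z; simp
  rw [← h3]; exact h2

lemma ne_zero_im {s : ℂ} (hs : 0 < s.im) : s ≠ 0 := by rintro rfl; simp at hs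

lemma sub_one_ne_zero_im {s : ℂ} (hs : 0 < s.im) : s - 1 ≠ 0 := by
  intro h
  have : (s - 1).im = 0 := by rw [h]; simp
  simp at this
  linarith

lemma GF_ne_zero {s : ℂ} (hs : 0 < s.im) : GF s ≠ 0 :=
  mul_ne_zero (mul_ne_zero (ne_zero_im hs) (sub_one_ne_zero_im hs)) (Gammaℝ_ne_zero_im hs)

lemma GF_differentiableAt {s : ℂ} (hs : 0 < s.im) : DifferentiableAt ℂ GF s := by
  unfold GF
  exact (by fun_prop : DifferentiableAt ℂ (fun s : ℂ => s * (s - 1)) s).mul
    (Gammaℝ_differentiableAt_im hs)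

lemma add_im_pos {α : ℝ} (hα : 0 ≤ α) {s : ℂ} (hs : 0 < s.im) : 0 < (s + α * I).im := by
  simp; linarith

lemma gam_differentiableAt {α : ℝ} (hα : 0 ≤ α) {s : ℂ} (hs : 0 < s.im) :
    DifferentiableAt ℂ (gam α) s := by
  have h1 : DifferentiableAt ℂ (fun s => GF (s + α * I)) s := by
    have := (GF_differentiableAt (add_im_pos hα hs)).comp s
      (by fun_prop : DifferentiableAt ℂ (fun s : ℂ => s + α * I) s)
    exact this
  exact h1.div (GF_differentiableAt hs) (GF_ne_zero hs)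

/-- The archimedean factor is holomorphic in the upper half-plane. -/
theorem gam_differentiableOn {α : ℝ} (hα : 0 ≤ α) : DifferentiableOn ℂ (gam α) {s | 0 < s.im} :=
  fun _ hs => (gam_differentiableAt hα hs).differentiableWithinAt

/-- The logarithmic derivative of `GF`. -/
noncomputable def Psi (s : ℂ) : ℂ := logDeriv GF s

lemma analyticOnNhd_GF : AnalyticOnNhd ℂ GF {s | 0 < s.im} := by
  have ho : IsOpen {s : ℂ | 0 < s.im} := isOpen_lt continuous_const continuous_im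
  exact DifferentiableOn.analyticOnNhd
    (fun s hs => (GF_differentiableAt hs).differentiableWithinAt) ho

lemma continuousOn_Psi : ContinuousOn Psi {s | 0 < s.im} := by
  intro s hs
  have h1 : ContinuousAt (deriv GF) s := (analyticOnNhd_GF s hs).deriv.continuousAt
  have h2 : ContinuousAt GF s := (GF_differentiableAt hs).continuousAt
  have : ContinuousAt (fun s => deriv GF s / GF s) s := h1.div h2 (GF_ne_zero hs)
  exact this.continuousWithinAt

lemma Psi_eq {s : ℂ} (hs : 0 < s.im) (hs0 : 0 < s.re) :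
    Psi s = 1 / s + 1 / (s - 1) - (Real.log Real.pi : ℂ) / 2 +
      logDeriv Complex.Gamma (s / 2) / 2 := by
  have h0 := ne_zero_im hs
  have h1 := sub_one_ne_zero_im hs
  have hG := Gammaℝ_ne_zero_im hs
  have d1 : DifferentiableAt ℂ (fun s : ℂ => s * (s - 1)) s := by fun_prop
  have d2 := Gammaℝ_differentiableAt_im hs
  have hdef : GF = fun s => s * (s - 1) * Gammaℝ s := rfl
  unfold Psi
  rw [hdef, logDeriv_mul (f := fun s => s * (s - 1)) s (mul_ne_zero h0 h1) hG d1 d2,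
    logDeriv_mul (f := fun s : ℂ => s) (g := fun s : ℂ => s - 1) s h0 h1 (by fun_prop)
      (by fun_prop), logDeriv_Gammaℝ hs0]
  have e1 : logDeriv (fun s : ℂ => s) s = 1 / s := by
    rw [logDeriv_apply]; simp
  have e2 : logDeriv (fun s : ℂ => s - 1) s = 1 / (s - 1) := by
    rw [logDeriv_apply]; simp
  rw [e1, e2]
  ring

/-- Exponential representation of `gam`. -/
lemma gam_eq_exp {s : ℂ} (hs : 0 < s.im) {α : ℝ} (hα : 0 ≤ α) :
    gam α s = cexp (∫ u in (0:ℝ)..α, I * Psi (s + u * I)) := by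
  set ψ : ℝ → ℂ := fun u => I * Psi (s + u * I) with hψ
  have hcont : ContinuousOn ψ (Set.Ioi (-s.im)) := by
    refine continuousOn_const.mul ?_
    refine continuousOn_Psi.comp (by fun_prop) ?_
    intro u hu
    simp only [Set.mem_Ioi] at hu
    simp
    linarith
  have hint : ∀ u : ℝ, 0 ≤ u → IntervalIntegrable ψ volume 0 u := by
    intro u hu
    refine (hcont.mono ?_).intervalIntegrable
    intro x hx
    rw [Set.uIcc_of_le hu] at hx
    simp only [Set.mem_Ioi]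
    linarith [hx.1]
  -- derivative of the quotient
  have hder : ∀ u ∈ Set.Icc 0 α, HasDerivWithinAt
      (fun u : ℝ => gam u s * cexp (-∫ x in (0:ℝ)..u, ψ x)) 0 (Set.Icc 0 α) u := by
    intro u hu
    have hu0 : 0 ≤ u := hu.1
    have him : 0 < (s + u * I).im := add_im_pos hu0 hs
    have h1 : HasDerivAt (fun u : ℝ => GF (s + u * I)) (deriv GF (s + u * I) * I) u := by
      have hin : HasDerivAt (fun u : ℝ => s + (u:ℂ) * I) I u := by
        simpa using ((Complex.ofRealCLM.hasDerivAt (x := u)).mul_const I).const_add s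
      exact (GF_differentiableAt him).hasDerivAt.comp u hin
    have h2 : HasDerivAt (fun u : ℝ => gam u s) (deriv GF (s + u * I) * I / GF s) u := by
      exact h1.div_const _
    have h3 : HasDerivAt (fun u : ℝ => ∫ x in (0:ℝ)..u, ψ x) (ψ u) u := by
      have hmem : Set.Ioi (-s.im) ∈ 𝓝 u := Ioi_mem_nhds (by linarith)
      refine intervalIntegral.integral_hasDerivAt_right (hint u hu0) ?_
        (hcont.continuousAt hmem)
      exact hcont.stronglyMeasurableAtFilter isOpen_Ioi u (mem_of_mem_nhds hmem)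
    have h4 : HasDerivAt (fun u : ℝ => cexp (-∫ x in (0:ℝ)..u, ψ x))
        (cexp (-∫ x in (0:ℝ)..u, ψ x) * (-ψ u)) u := h3.neg.cexp
    have h5 := (h2.mul h4).hasDerivWithinAt (s := Set.Icc 0 α)
    refine h5.congr_deriv ?_
    simp only [hψ, Psi, logDeriv_apply, gam_eq]
    have hne := GF_ne_zero him
    have hne' := GF_ne_zero hs
    field_simp
    ring
  have hconst := constant_of_has_deriv_right_zero
    (f := fun u : ℝ => gam u s * cexp (-∫ x in (0:ℝ)..u, ψ x)) (a := 0) (b := α)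
    (fun u hu => (hder u hu).continuousWithinAt)
    (fun u hu => ((hder u (Ico_subset_Icc_self hu)).mono_of_mem_nhdsWithin
      (Icc_mem_nhdsGE_of_mem hu)))
  have h6 := hconst α (Set.right_mem_Icc.mpr hα)
  have h7 : gam 0 s = 1 := by
    rw [gam_eq]; simp [GF_ne_zero hs]
  simp only [h7, intervalIntegral.integral_same, neg_zero, Complex.exp_zero, mul_one] at h6
  rw [Complex.exp_neg] at h6
  have h8 := Complex.exp_ne_zero (∫ x in (0:ℝ)..α, ψ x)
  rwa [mul_inv_eq_one₀ h8] at h6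

lemma intervalIntegrable_Psi {s : ℂ} (hs : 0 < s.im) {α : ℝ} (hα : 0 ≤ α) :
    IntervalIntegrable (fun u : ℝ => I * Psi (s + u * I)) volume 0 α := by
  refine ContinuousOn.intervalIntegrable ?_
  refine continuousOn_const.mul ?_
  refine continuousOn_Psi.comp (by fun_prop) ?_
  intro u hu
  rw [Set.uIcc_of_le hα] at hu
  exact add_im_pos hu.1 hs

/-- The imaginary part of `Psi` is bounded in a quarter plane. -/
lemma abs_im_Psi_le {s : ℂ} (hs : 1 ≤ s.im) (hs0 : 0 < s.re) : |(Psi s).im| ≤ 10 := by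
  rw [Psi_eq (by linarith) hs0]
  have h1 : ‖1 / s‖ ≤ 1 := by
    rw [norm_div, norm_one]
    have : 1 ≤ ‖s‖ := hs.trans ((le_abs_self _).trans (abs_im_le_norm s))
    exact div_le_one_of_le₀ this (norm_nonneg _)
  have h2 : ‖1 / (s - 1)‖ ≤ 1 := by
    rw [norm_div, norm_one]
    have h := abs_im_le_norm (s - 1)
    have : (s - 1).im = s.im := by simp
    rw [this] at h
    exact div_le_one_of_le₀ (hs.trans ((le_abs_self _).trans h)) (norm_nonneg _)
  have hre : 0 < (s / 2).re := by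
    have : (s / 2).re = s.re / 2 := by simp
    rw [this]; positivity
  have him : (s / 2).im = s.im / 2 := by simp
  have h3 := norm_digamma_sub_log_le hre
  have hn : 1 / 2 ≤ ‖s / 2‖ := by
    have h := (le_abs_self _).trans (abs_im_le_norm (s / 2))
    rw [him] at h; linarith
  have h4 : 2 / ‖s / 2‖ ^ 2 + 2 / ‖s / 2‖ ≤ 12 := by
    have hp : 0 < ‖s / 2‖ := by linarith
    have e1 : 2 / ‖s / 2‖ ^ 2 ≤ 8 := by
      rw [div_le_iff₀ (by positivity)]; nlinarith
    have e2 : 2 / ‖s / 2‖ ≤ 4 := by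
      rw [div_le_iff₀ hp]; linarith
    linarith
  have h5 := (abs_im_le_norm _).trans (h3.trans h4)
  rw [sub_im, Complex.log_im] at h5
  have h6 := Complex.neg_pi_lt_arg (s / 2)
  have h7 := Complex.arg_le_pi (s / 2)
  have h8 := Real.pi_lt_d2
  have h9 := (abs_im_le_norm _).trans h1
  have h10 := (abs_im_le_norm _).trans h2
  have e3 : (1 / s + 1 / (s - 1) - (Real.log Real.pi : ℂ) / 2 +
      logDeriv Complex.Gamma (s / 2) / 2).im = (1 / s).im + (1 / (s - 1)).im +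
      (logDeriv Complex.Gamma (s / 2)).im / 2 := by
    have e4 : ((Real.log Real.pi : ℂ) / 2).im = 0 := by
      have : ((Real.log Real.pi : ℂ) / 2) = ((Real.log Real.pi / 2 : ℝ) : ℂ) := by push_cast; ring
      rw [this, ofReal_im]
    have e5 : (logDeriv Complex.Gamma (s / 2) / 2).im = (logDeriv Complex.Gamma (s / 2)).im / 2 := by
      simp
    rw [add_im, sub_im, add_im, e4, e5]; ring
  rw [e3]
  rw [abs_le] at *
  constructor <;> linarith [h5.1, h5.2, h9.1, h9.2, h10.1, h10.2]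

lemma norm_gam_right {s : ℂ} (hs : 1 ≤ s.im) (hs0 : 0 < s.re) {α : ℝ} (hα : 0 ≤ α) :
    Real.exp (-(10 * α)) ≤ ‖gam α s‖ ∧ ‖gam α s‖ ≤ Real.exp (10 * α) := by
  have hs' : 0 < s.im := by linarith
  rw [gam_eq_exp hs' hα, Complex.norm_exp]
  have hint := intervalIntegrable_Psi hs' hα
  have h1 : (∫ u in (0:ℝ)..α, I * Psi (s + u * I)).re =
      ∫ u in (0:ℝ)..α, (I * Psi (s + u * I)).re := by
    have := (Complex.reCLM.intervalIntegral_comp_comm hint)
    simpa using this.symm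
  have h2 : ‖∫ u in (0:ℝ)..α, (I * Psi (s + u * I)).re‖ ≤ 10 * |α - 0| := by
    refine intervalIntegral.norm_integral_le_of_norm_le_const (fun u hu => ?_)
    rw [Set.uIoc_of_le hα] at hu
    have h3 : (I * Psi (s + u * I)).re = -(Psi (s + u * I)).im := by simp
    rw [h3, norm_neg, Real.norm_eq_abs]
    refine abs_im_Psi_le ?_ ?_
    · simp; linarith [hu.1]
    · simpa using hs0
  rw [sub_zero, abs_of_nonneg hα] at h2
  rw [h1]
  have h4 := abs_le.mp h2
  constructor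
  · exact Real.exp_le_exp.mpr h4.1
  · exact Real.exp_le_exp.mpr h4.2

lemma norm_Gammaℝ_conj (s : ℂ) : ‖Gammaℝ ((starRingEnd ℂ) s)‖ = ‖Gammaℝ s‖ := by
  rw [Gammaℝ_def, Gammaℝ_def, norm_mul, norm_mul]
  congr 1
  · have e : (-(starRingEnd ℂ) s / 2).re = (-s / 2).re := by simp
    rw [Complex.norm_cpow_eq_rpow_re_of_pos Real.pi_pos,
      Complex.norm_cpow_eq_rpow_re_of_pos Real.pi_pos, e]
  · have : (starRingEnd ℂ) s / 2 = (starRingEnd ℂ) (s / 2) := by
      rw [map_div₀, Complex.conj_ofNat]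
    rw [this, Complex.Gamma_conj, Complex.norm_conj]

lemma norm_ratio_le {z : ℂ} (hz : 1 ≤ ‖z‖) {α : ℝ} (hα : 0 ≤ α) :
    ‖z + α * I‖ / ‖z‖ ≤ 1 + α := by
  rw [div_le_iff₀ (by linarith)]
  calc ‖z + α * I‖ ≤ ‖z‖ + ‖(α:ℂ) * I‖ := norm_add_le _ _
    _ = ‖z‖ + α := by simp [abs_of_nonneg hα]
    _ ≤ (1 + α) * ‖z‖ := by nlinarith

lemma norm_cos_upper (w : ℂ) (y : ℝ) (hy : w.im = -y) (hy0 : 0 ≤ y) :
    ‖Complex.cos w‖ ≤ Real.exp y := by
  have h1 : Complex.cos w = (cexp (w * I) + cexp (-w * I)) / 2 := rfl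
  rw [h1, norm_div]
  have e1 : ‖cexp (w * I)‖ = Real.exp y := by
    rw [Complex.norm_exp]; congr 1; simp [hy]
  have e2 : ‖cexp (-w * I)‖ = Real.exp (-y) := by
    rw [Complex.norm_exp]; congr 1; simp [hy]
  have h2 : ‖cexp (w * I) + cexp (-w * I)‖ ≤ Real.exp y + Real.exp (-y) := by
    refine (norm_add_le _ _).trans ?_
    rw [e1, e2]
  have h3 : Real.exp (-y) ≤ Real.exp y := Real.exp_le_exp.mpr (by linarith)
  have h4 : ‖(2:ℂ)‖ = 2 := by simp
  rw [h4, div_le_iff₀ (by norm_num)]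
  linarith

lemma norm_cos_lower (w : ℂ) (y : ℝ) (hy : w.im = -y) (hy0 : 1 ≤ y) :
    Real.exp y / 4 ≤ ‖Complex.cos w‖ := by
  have h1 : Complex.cos w = (cexp (w * I) + cexp (-w * I)) / 2 := rfl
  rw [h1, norm_div]
  have e1 : ‖cexp (w * I)‖ = Real.exp y := by
    rw [Complex.norm_exp]; congr 1; simp [hy]
  have e2 : ‖cexp (-w * I)‖ = Real.exp (-y) := by
    rw [Complex.norm_exp]; congr 1; simp [hy]
  have h2 : Real.exp y - Real.exp (-y) ≤ ‖cexp (w * I) + cexp (-w * I)‖ := by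
    have := norm_sub_le (cexp (w * I) + cexp (-w * I)) (cexp (-w * I))
    rw [add_sub_cancel_right, e1, e2] at this
    linarith
  have h3 : Real.exp (-y) ≤ 1 / 2 := by
    have h5 : Real.exp (-y) ≤ Real.exp (-1) := Real.exp_le_exp.mpr (by linarith)
    have h6 : Real.exp (-1) ≤ 1 / 2 := by
      have := Real.exp_neg_one_lt_d9
      linarith
    linarith
  have h7 : 1 ≤ Real.exp y := Real.one_le_exp (by linarith)
  have h4 : ‖(2:ℂ)‖ = 2 := by simp
  rw [h4, le_div_iff₀ (by norm_num)]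
  linarith

lemma Gammaℝ_reflect {s : ℂ} :
    Gammaℝ s * Gammaℝ (2 - s) = (Complex.cos (Real.pi * (1 - s) / 2))⁻¹ := by
  have := Gammaℝ_one_sub_mul_Gammaℝ_one_add (1 - s)
  rw [← this]
  congr 2 <;> ring

/-- The left half-plane. -/
lemma norm_gam_left {s : ℂ} (hs : 1 ≤ s.im) (hs0 : s.re ≤ 0) {α : ℝ} (hα : 0 ≤ α) :
    ‖gam α s‖ ≤ 4 * ((1 + α) ^ 4 * Real.exp (10 * α)) := by
  set v : ℂ := 2 - (starRingEnd ℂ) s with hv
  have hvre : 0 < v.re := by simp [hv]; linarith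
  have hvim : v.im = s.im := by simp [hv]
  have hvr := (norm_gam_right (s := v) (by rw [hvim]; exact hs) hvre hα).1
  have hs' : 0 < s.im := by linarith
  have hv' : 0 < v.im := by rw [hvim]; exact hs'
  have hsα := add_im_pos hα hs'
  have hvα := add_im_pos hα hv'
  have hr1 := Gammaℝ_reflect (s := s)
  have hr2 := Gammaℝ_reflect (s := s + α * I)
  have hG1 := Gammaℝ_ne_zero_im hs'
  have hG2 := Gammaℝ_ne_zero_im hsα
  have hG3 := Gammaℝ_ne_zero_im hv'
  have hG4 := Gammaℝ_ne_zero_im hvα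
  have n1 : ‖Gammaℝ (2 - s)‖ = ‖Gammaℝ v‖ := by
    rw [← norm_Gammaℝ_conj]; congr 2; rw [hv, map_sub, Complex.conj_ofNat]
  have n2 : ‖Gammaℝ (2 - (s + α * I))‖ = ‖Gammaℝ (v + α * I)‖ := by
    rw [← norm_Gammaℝ_conj]; congr 2
    rw [hv, map_sub, map_add, map_mul, Complex.conj_ofNat, Complex.conj_I, Complex.conj_ofReal]
    ring
  have hr1' := congrArg norm hr1
  have hr2' := congrArg norm hr2
  rw [norm_mul, norm_inv, n1] at hr1'
  rw [norm_mul, norm_inv, n2] at hr2'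
  have hpi : 3 < Real.pi := Real.pi_gt_three
  have hc1 : ‖Complex.cos (Real.pi * (1 - s) / 2)‖ ≤ Real.exp (Real.pi * s.im / 2) := by
    refine norm_cos_upper _ _ ?_ (by positivity)
    have : (Real.pi * (1 - s) / 2 : ℂ) = ((Real.pi / 2 : ℝ) : ℂ) * (1 - s) := by push_cast; ring
    rw [this, im_ofReal_mul]
    simp
    ring
  have hc2 : Real.exp (Real.pi * (s.im + α) / 2) / 4 ≤
      ‖Complex.cos (Real.pi * (1 - (s + α * I)) / 2)‖ := by
    refine norm_cos_lower _ _ ?_ (by nlinarith)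
    have : (Real.pi * (1 - (s + α * I)) / 2 : ℂ) = ((Real.pi / 2 : ℝ) : ℂ) * (1 - (s + α * I)) := by
      push_cast; ring
    rw [this, im_ofReal_mul]
    simp
    ring
  set c1 := ‖Complex.cos (Real.pi * (1 - s) / 2)‖
  set c2 := ‖Complex.cos (Real.pi * (1 - (s + α * I)) / 2)‖
  have hexp : Real.exp (Real.pi * s.im / 2) ≤ Real.exp (Real.pi * (s.im + α) / 2) :=
    Real.exp_le_exp.mpr (by nlinarith)
  have hc2pos : 0 < c2 := lt_of_lt_of_le (by positivity) hc2
  have hc12 : c1 ≤ 4 * c2 := by linarith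
  have hc1pos : 0 < c1 := by
    by_contra hcon
    have h0 : c1 = 0 := le_antisymm (not_lt.mp hcon) (norm_nonneg _)
    rw [h0, inv_zero] at hr1'
    exact (mul_ne_zero (norm_ne_zero_iff.mpr hG1) (norm_ne_zero_iff.mpr hG3)) hr1'
  -- ratios
  have n0 : ∀ z : ℂ, 1 ≤ z.im → 1 ≤ ‖z‖ := fun z hz =>
    hz.trans ((le_abs_self _).trans (abs_im_le_norm z))
  have q1 := norm_ratio_le (n0 s hs) hα
  have q2 := norm_ratio_le (n0 (s - 1) (by simpa using hs)) hα
  have q3 := norm_ratio_le (n0 v (by rw [hvim]; exact hs)) hα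
  have q4 := norm_ratio_le (n0 (v - 1) (by simpa [hvim] using hs)) hα
  have p1 : 0 < ‖s‖ := by linarith [n0 s hs]
  have p2 : 0 < ‖s - 1‖ := by linarith [n0 (s - 1) (by simpa using hs)]
  have p3 : 0 < ‖v‖ := by linarith [n0 v (by rw [hvim]; exact hs)]
  have p4 : 0 < ‖v - 1‖ := by linarith [n0 (v - 1) (by simpa [hvim] using hs)]
  have g1 : 0 < ‖Gammaℝ s‖ := norm_pos_iff.mpr hG1
  have g2 : 0 < ‖Gammaℝ (s + α * I)‖ := norm_pos_iff.mpr hG2
  have g3 : 0 < ‖Gammaℝ v‖ := norm_pos_iff.mpr hG3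
  have g4 : 0 < ‖Gammaℝ (v + α * I)‖ := norm_pos_iff.mpr hG4
  have es : ‖gam α s‖ = (‖s + α * I‖ / ‖s‖) * (‖s - 1 + α * I‖ / ‖s - 1‖) *
      (‖Gammaℝ (s + α * I)‖ / ‖Gammaℝ s‖) := by
    rw [gam, norm_div, norm_mul, norm_mul, norm_mul, norm_mul,
      show s + α * I - 1 = s - 1 + α * I by ring]
    field_simp
  have ev : ‖gam α v‖ = (‖v + α * I‖ / ‖v‖) * (‖v - 1 + α * I‖ / ‖v - 1‖) *
      (‖Gammaℝ (v + α * I)‖ / ‖Gammaℝ v‖) := by
    rw [gam, norm_div, norm_mul, norm_mul, norm_mul, norm_mul,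
      show v + α * I - 1 = v - 1 + α * I by ring]
    field_simp
  have hα1 : 0 < 1 + α := by linarith
  have hA : ‖Gammaℝ v‖ / ‖Gammaℝ (v + α * I)‖ ≤ (1 + α) ^ 2 * Real.exp (10 * α) := by
    rw [ev] at hvr
    have h1 : (‖v + α * I‖ / ‖v‖) * (‖v - 1 + α * I‖ / ‖v - 1‖) ≤ (1 + α) * (1 + α) :=
      mul_le_mul q3 q4 (by positivity) hα1.le
    have h2 : Real.exp (-(10 * α)) ≤ (1 + α) * (1 + α) *
        (‖Gammaℝ (v + α * I)‖ / ‖Gammaℝ v‖) :=
      hvr.trans (mul_le_mul_of_nonneg_right h1 (by positivity))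
    rw [div_le_iff₀ g4]
    have h3 : Real.exp (-(10 * α)) * ‖Gammaℝ v‖ ≤ (1 + α) * (1 + α) * ‖Gammaℝ (v + α * I)‖ := by
      calc Real.exp (-(10 * α)) * ‖Gammaℝ v‖ ≤ (1 + α) * (1 + α) *
        (‖Gammaℝ (v + α * I)‖ / ‖Gammaℝ v‖) * ‖Gammaℝ v‖ :=
            mul_le_mul_of_nonneg_right h2 g3.le
        _ = _ := by field_simp
    calc ‖Gammaℝ v‖ = Real.exp (10 * α) * (Real.exp (-(10 * α)) * ‖Gammaℝ v‖) := by
          rw [← mul_assoc, ← Real.exp_add]; simp
      _ ≤ Real.exp (10 * α) * ((1 + α) * (1 + α) * ‖Gammaℝ (v + α * I)‖) :=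
          mul_le_mul_of_nonneg_left h3 (Real.exp_pos _).le
      _ = _ := by ring
  have hB : ‖Gammaℝ (s + α * I)‖ / ‖Gammaℝ s‖ =
      (‖Gammaℝ v‖ / ‖Gammaℝ (v + α * I)‖) * (c1 / c2) := by
    have e1 : ‖Gammaℝ s‖ = c1⁻¹ / ‖Gammaℝ v‖ := by
      rw [eq_div_iff g3.ne']; exact hr1'
    have e2 : ‖Gammaℝ (s + α * I)‖ = c2⁻¹ / ‖Gammaℝ (v + α * I)‖ := by
      rw [eq_div_iff g4.ne']; exact hr2'
    rw [e1, e2]
    field_simp
  have hC : c1 / c2 ≤ 4 := by rw [div_le_iff₀ hc2pos]; linarith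
  rw [es, hB]
  calc (‖s + α * I‖ / ‖s‖) * (‖s - 1 + α * I‖ / ‖s - 1‖) *
      ((‖Gammaℝ v‖ / ‖Gammaℝ (v + α * I)‖) * (c1 / c2))
      ≤ ((1 + α) * (1 + α)) * (((1 + α) ^ 2 * Real.exp (10 * α)) * 4) := by
        refine mul_le_mul (mul_le_mul q1 q2 (by positivity) hα1.le)
          (mul_le_mul hA hC (by positivity) (by positivity)) (by positivity) (by positivity)
    _ = _ := by ring

/-- **H2 (b).** Uniform bound of the archimedean factor. -/
theorem gam_bound {α : ℝ} (hα : 0 ≤ α) {s : ℂ} (hs : 1 ≤ s.im) :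
    ‖gam α s‖ ≤ 4 * Real.exp (14 * α) := by
  have h1 : (1 + α) ^ 4 ≤ Real.exp (4 * α) := by
    have h2 : 1 + α ≤ Real.exp α := by
      have := Real.add_one_le_exp α
      linarith
    calc (1 + α) ^ 4 ≤ (Real.exp α) ^ 4 := by gcongr
      _ = Real.exp (4 * α) := by rw [← Real.exp_nat_mul]; norm_num
  have h3 : Real.exp (14 * α) = Real.exp (4 * α) * Real.exp (10 * α) := by
    rw [← Real.exp_add]; congr 1; ring
  rcases le_or_gt s.re 0 with h | h
  · refine (norm_gam_left hs h hα).trans ?_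
    rw [h3]
    gcongr
  · refine (norm_gam_right hs h hα).2.trans ?_
    have h4 : Real.exp (10 * α) ≤ Real.exp (14 * α) := Real.exp_le_exp.mpr (by linarith)
    have h5 := Real.exp_pos (14 * α)
    linarith

/-- Asymptotics of `Psi` on the line `Re s = 2`. -/
lemma norm_Psi_two {y : ℝ} (hy : 1 ≤ y) :
    ‖Psi (2 + y * I) - (((Real.log (y / (2 * Real.pi)) / 2 : ℝ) : ℂ) +
      ((Real.pi / 4 : ℝ) : ℂ) * I)‖ ≤ 12 / y := by
  have hy0 : 0 < y := by linarith
  set s : ℂ := 2 + y * I with hs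
  have hre : s.re = 2 := by simp [hs]
  have him : s.im = y := by simp [hs]
  rw [Psi_eq (by rw [him]; exact hy0) (by rw [hre]; norm_num)]
  have hsn : y ≤ ‖s‖ := by
    have := (le_abs_self _).trans (abs_im_le_norm s)
    rwa [him] at this
  have hsn1 : y ≤ ‖s - 1‖ := by
    have := (le_abs_self _).trans (abs_im_le_norm (s - 1))
    simpa [him] using this
  have h1 : ‖1 / s‖ ≤ 1 / y := by
    rw [norm_div, norm_one]; exact one_div_le_one_div_of_le hy0 hsn
  have h2 : ‖1 / (s - 1)‖ ≤ 1 / y := by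
    rw [norm_div, norm_one]; exact one_div_le_one_div_of_le hy0 hsn1
  have hzre : 0 < (s / 2).re := by
    have : (s / 2).re = s.re / 2 := by simp
    rw [this, hre]; norm_num
  have h3 := norm_digamma_sub_log_le hzre
  have hz : y / 2 ≤ ‖s / 2‖ := by
    rw [norm_div]; simp; linarith
  have h4 : 2 / ‖s / 2‖ ^ 2 + 2 / ‖s / 2‖ ≤ 12 / y := by
    have hp : 0 < ‖s / 2‖ := by linarith [half_pos hy0]
    have e1 : 2 / ‖s / 2‖ ^ 2 ≤ 8 / y := by
      rw [div_le_div_iff₀ (by positivity) hy0]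
      nlinarith [mul_le_mul hz hz (by linarith) hp.le]
    have e2 : 2 / ‖s / 2‖ ≤ 4 / y := by
      rw [div_le_div_iff₀ hp hy0]; linarith
    have e3 : 8 / y + 4 / y = 12 / y := by ring
    linarith
  -- logarithm
  have hlog : ‖Complex.log (s / 2) - ((Real.log (y / 2) : ℂ) + ((Real.pi / 2 : ℝ) : ℂ) * I)‖ ≤
      2 / y := by
    have hder : ∀ x ∈ Icc (0:ℝ) 1, HasDerivWithinAt
        (fun x : ℝ => Complex.log ((((y / 2 : ℝ) : ℂ) * I) + x)) (1 / ((((y / 2 : ℝ) : ℂ) * I) + x))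
        (Icc (0:ℝ) 1) x := by
      intro x hx
      have hslit : (((y / 2 : ℝ) : ℂ) * I) + x ∈ slitPlane := by
        refine Or.inr ?_
        simp [hy0.ne']
      have h1 : HasDerivAt (fun x : ℝ => (((y / 2 : ℝ) : ℂ) * I) + (x:ℂ)) 1 x := by
        simpa using (Complex.ofRealCLM.hasDerivAt (x := x)).const_add (((y / 2 : ℝ) : ℂ) * I)
      exact (h1.clog_real hslit).hasDerivWithinAt
    have hbound : ∀ x ∈ Ico (0:ℝ) 1, ‖1 / ((((y / 2 : ℝ) : ℂ) * I) + (x:ℂ))‖ ≤ 2 / y := by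
      intro x hx
      rw [norm_div, norm_one]
      have h5 : y / 2 ≤ ‖(((y / 2 : ℝ) : ℂ) * I) + (x:ℂ)‖ := by
        have := (le_abs_self _).trans (abs_im_le_norm ((((y / 2 : ℝ) : ℂ) * I) + (x:ℂ)))
        simpa using this
      calc 1 / ‖(((y / 2 : ℝ) : ℂ) * I) + (x:ℂ)‖ ≤ 1 / (y / 2) :=
            one_div_le_one_div_of_le (by positivity) h5
        _ = 2 / y := by field_simp
    have h6 := norm_image_sub_le_of_norm_deriv_le_segment_01' hder hbound
    have h7 : Complex.log (((y / 2 : ℝ) : ℂ) * I) =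
        (Real.log (y / 2) : ℂ) + ((Real.pi / 2 : ℝ) : ℂ) * I := by
      rw [Complex.log_ofReal_mul (by positivity) I_ne_zero, Complex.log_I]
      push_cast; ring
    have h8 : (((y / 2 : ℝ) : ℂ) * I) + ((1:ℝ):ℂ) = s / 2 := by
      rw [hs]; push_cast; ring
    simp only [Complex.ofReal_zero, add_zero] at h6
    rw [h8, h7] at h6
    exact h6
  have hsplit : 1 / s + 1 / (s - 1) - (Real.log Real.pi : ℂ) / 2 +
      logDeriv Complex.Gamma (s / 2) / 2 - (((Real.log (y / (2 * Real.pi)) / 2 : ℝ) : ℂ) +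
      ((Real.pi / 4 : ℝ) : ℂ) * I) = 1 / s + 1 / (s - 1) +
      (logDeriv Complex.Gamma (s / 2) - Complex.log (s / 2)) / 2 +
      (Complex.log (s / 2) - ((Real.log (y / 2) : ℂ) + ((Real.pi / 2 : ℝ) : ℂ) * I)) / 2 := by
    have e1 : Real.log (y / (2 * Real.pi)) = Real.log (y / 2) - Real.log Real.pi := by
      rw [← Real.log_div (by positivity) Real.pi_ne_zero]; congr 1; field_simp
    rw [e1]; push_cast; ring
  rw [hsplit]
  calc _ ≤ ‖1 / s‖ + ‖1 / (s - 1)‖ + ‖(logDeriv Complex.Gamma (s / 2) - Complex.log (s / 2)) / 2‖ +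
      ‖(Complex.log (s / 2) - ((Real.log (y / 2) : ℂ) + ((Real.pi / 2 : ℝ) : ℂ) * I)) / 2‖ :=
        (norm_add_le _ _).trans (add_le_add_left ((norm_add_le _ _).trans
          (add_le_add_left (norm_add_le _ _) _)) _)
    _ ≤ 1 / y + 1 / y + (12 / y) / 2 + (2 / y) / 2 := by
        have e2 : ‖(2:ℂ)‖ = 2 := by simp
        have e3 := h3.trans h4
        have e4 : ‖(logDeriv Complex.Gamma (s / 2) - Complex.log (s / 2)) / 2‖ ≤ (12 / y) / 2 := by
          rw [norm_div, e2]; gcongr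
        have e5 : ‖(Complex.log (s / 2) - ((Real.log (y / 2) : ℂ) +
            ((Real.pi / 2 : ℝ) : ℂ) * I)) / 2‖ ≤ (2 / y) / 2 := by
          rw [norm_div, e2]; gcongr
        linarith
    _ ≤ 12 / y := by
        have : 0 < 1 / y := by positivity
        have e : 1 / y + 1 / y + (12 / y) / 2 + (2 / y) / 2 = 9 * (1 / y) := by ring
        have e' : 12 / y = 12 * (1 / y) := by ring
        rw [e, e']; linarith

/-- **H2 (c).** The archimedean factor on the line `Re s = 2`. -/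
theorem gam_two : ∃ C : ℝ, 0 < C ∧ ∀ α : ℝ, 0 ≤ α → α ≤ 1 → ∀ t : ℝ, 1 ≤ t →
    ‖gam α (2 + t * I) - cexp (((α / 2 * Real.log (t / (2 * Real.pi)) : ℝ) : ℂ) * I -
      ((Real.pi * α / 4 : ℝ) : ℂ))‖ ≤ C * α / t := by
  refine ⟨13 * Real.exp 13, by positivity, fun α hα hα1 t ht => ?_⟩
  have ht0 : 0 < t := by linarith
  have him : (2 + (t:ℂ) * I).im = t := by simp
  have hs' : 0 < (2 + (t:ℂ) * I).im := by rw [him]; exact ht0
  rw [gam_eq_exp hs' hα]
  set z0 : ℂ := ((α / 2 * Real.log (t / (2 * Real.pi)) : ℝ) : ℂ) * I -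
      ((Real.pi * α / 4 : ℝ) : ℂ) with hz0
  set e : ℂ := (∫ u in (0:ℝ)..α, I * Psi (2 + t * I + u * I)) - z0 with he
  have hz0' : z0 = ∫ u in (0:ℝ)..α, I * (((Real.log (t / (2 * Real.pi)) / 2 : ℝ) : ℂ) +
      ((Real.pi / 4 : ℝ) : ℂ) * I) := by
    rw [intervalIntegral.integral_const, hz0, sub_zero, Complex.real_smul]
    push_cast
    ring_nf
    simp
    ring
  have hen : ‖e‖ ≤ 13 / t * |α - 0| := by
    rw [he, hz0', ← intervalIntegral.integral_sub (intervalIntegrable_Psi hs' hα)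
      intervalIntegrable_const]
    refine intervalIntegral.norm_integral_le_of_norm_le_const (fun u hu => ?_)
    rw [Set.uIoc_of_le hα] at hu
    have hu0 : 0 < u := hu.1
    rw [← mul_sub, norm_mul, Complex.norm_I, one_mul]
    have hy : 1 ≤ t + u := by linarith
    have h1 := norm_Psi_two hy
    have h2 : (2 + (t:ℂ) * I + u * I) = 2 + ((t + u : ℝ) : ℂ) * I := by push_cast; ring
    rw [h2]
    have h3 : ‖(((Real.log ((t + u) / (2 * Real.pi)) / 2 : ℝ) : ℂ) + ((Real.pi / 4 : ℝ) : ℂ) * I) -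
        (((Real.log (t / (2 * Real.pi)) / 2 : ℝ) : ℂ) + ((Real.pi / 4 : ℝ) : ℂ) * I)‖ ≤ 1 / t := by
      rw [add_sub_add_right_eq_sub, ← Complex.ofReal_sub, Complex.norm_real, Real.norm_eq_abs]
      have h4 : Real.log ((t + u) / (2 * Real.pi)) / 2 - Real.log (t / (2 * Real.pi)) / 2 =
          Real.log (1 + u / t) / 2 := by
        rw [← sub_div, ← Real.log_div (by positivity) (by positivity)]
        congr 2
        field_simp
      rw [h4]
      have h5 : 0 ≤ Real.log (1 + u / t) := Real.log_nonneg (by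
        have : 0 ≤ u / t := by positivity
        linarith)
      have h6 : Real.log (1 + u / t) ≤ u / t := by
        have := Real.log_le_sub_one_of_pos (show 0 < 1 + u / t by positivity)
        linarith
      rw [abs_of_nonneg (by positivity)]
      have h7 : u / t ≤ 1 / t := by
        apply div_le_div_of_nonneg_right _ ht0.le
        linarith [hu.2]
      have h8 : 0 ≤ 1 / t := by positivity
      linarith
    have h9 : 12 / (t + u) ≤ 12 / t := div_le_div_of_nonneg_left (by norm_num) ht0 (by linarith)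
    calc _ = ‖(Psi (2 + ((t + u : ℝ) : ℂ) * I) -
          (((Real.log ((t + u) / (2 * Real.pi)) / 2 : ℝ) : ℂ) + ((Real.pi / 4 : ℝ) : ℂ) * I)) +
          ((((Real.log ((t + u) / (2 * Real.pi)) / 2 : ℝ) : ℂ) + ((Real.pi / 4 : ℝ) : ℂ) * I) -
          (((Real.log (t / (2 * Real.pi)) / 2 : ℝ) : ℂ) + ((Real.pi / 4 : ℝ) : ℂ) * I))‖ := by
            congr 1; ring
      _ ≤ 12 / t + 1 / t := (norm_add_le _ _).trans (add_le_add (h1.trans h9) h3)
      _ = 13 / t := by ring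
  rw [sub_zero, abs_of_nonneg hα] at hen
  have hsum : (∫ u in (0:ℝ)..α, I * Psi (2 + t * I + u * I)) = z0 + e := by rw [he]; ring
  rw [hsum, Complex.exp_add, ← mul_sub_one, norm_mul]
  have hz0n : ‖cexp z0‖ ≤ 1 := by
    rw [Complex.norm_exp]
    have : z0.re = -(Real.pi * α / 4) := by
      rw [hz0, sub_re, ofReal_re, re_ofReal_mul, I_re]; ring
    rw [this]
    exact Real.exp_le_one_iff.mpr (by have := Real.pi_pos; have : 0 ≤ Real.pi * α / 4 := by positivity
                                      linarith)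
  have h10 : ‖cexp e - 1‖ ≤ ‖e‖ * Real.exp ‖e‖ := by
    have := Complex.norm_exp_sub_sum_le_norm_mul_exp e 1
    simpa using this
  have h11 : ‖e‖ ≤ 13 := by
    refine hen.trans ?_
    rw [div_mul_eq_mul_div, div_le_iff₀ ht0]
    nlinarith
  calc ‖cexp z0‖ * ‖cexp e - 1‖ ≤ 1 * (‖e‖ * Real.exp ‖e‖) :=
        mul_le_mul hz0n h10 (norm_nonneg _) (by norm_num)
    _ ≤ 1 * ((13 / t * α) * Real.exp 13) := by
        gcongr
    _ = 13 * Real.exp 13 * α / t := by ring

end Pool.Agent.HalfGap.GB
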