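import Pool.Agent.ZGap.Half.Ratio

/-!
# Crude bounds for `ξ(s + iα) / ξ(s)` and good cuts
-/

namespace Pool.Agent.HalfGap

open Complex Pool.Agent.Hadamard MeasureTheory Set
open scoped ComplexConjugate

/-- Crude bound of `ξ'/ξ` to the right of the critical line. -/
theorem norm_logDeriv_xiF_le (hRH : RiemannHypothesis) : ∃ C : ℝ, 0 < C ∧ ∀ L : ℝ, 1 ≤ L →
    ∀ w : ℂ, 1 / 2 + 1 / L ≤ w.re → w.re ≤ 2 →
      ‖logDeriv xiF w‖ ≤ C * L * Real.log (|w.im| + 2) := by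
  obtain ⟨C0, hC0, h0⟩ := tsum_weight_le
  obtain ⟨C1, hC1, h1⟩ := Rt_le
  obtain ⟨C2, hC2, h2⟩ := im_logDeriv_xiF_bound
  refine ⟨2 * C0 + C1 + 2 * C2, by positivity, fun L hL w hw1 hw2 => ?_⟩
  have hL0 : 0 < L := by linarith
  have hL1 : 0 < 1 / L := by positivity
  set t := w.im with ht
  have hw : w ∉ ntz := notMem_ntz hRH (by linarith)
  have hpt : pt t ∉ ntz := notMem_ntz hRH (by rw [pt_re]; norm_num)
  have hlog := one_half_le_log t
  have hww : ‖pt t - w‖ ≤ 3 / 2 := by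
    have e : pt t - w = ((2 - w.re : ℝ) : ℂ) := by
      apply Complex.ext
      · simp
      · simp [ht]
    rw [e, Complex.norm_real, Real.norm_of_nonneg (by linarith)]
    linarith
  have hterm : ∀ ρ : ntz, ‖(mult ρ : ℂ) * (1 / (w - ρ) - 1 / (pt t - ρ))‖ ≤
      (3 / 2 * L) * ((mult ρ : ℝ) / (1 + (t - (ρ:ℂ).im) ^ 2)) := by
    intro ρ
    have hρ := Pool.Agent.ZetaGaps.re_eq_half hRH ρ.2
    set g := (ρ : ℂ).im with hg
    have hd : ‖w - ρ‖ ^ 2 = (w.re - 1 / 2) ^ 2 + (t - g) ^ 2 := by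
      rw [← Complex.normSq_eq_norm_sq, Complex.normSq_apply, sub_re, sub_im, hρ]
      ring
    have hd' : ‖pt t - ρ‖ ^ 2 = (3 / 2) ^ 2 + (t - g) ^ 2 := by
      rw [← Complex.normSq_eq_norm_sq, Complex.normSq_apply, sub_re, sub_im, hρ, pt_re, pt_im]
      ring
    have h3 : 1 + (t - g) ^ 2 ≤ L ^ 2 * ‖w - ρ‖ ^ 2 := by
      rw [hd]
      have e1 : 1 ≤ L * (w.re - 1 / 2) := by
        have : 1 / L ≤ w.re - 1 / 2 := by linarith
        rw [div_le_iff₀ hL0] at this
        linarith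
      have e2 : (t - g) ^ 2 ≤ L ^ 2 * (t - g) ^ 2 := by
        have : 1 ≤ L ^ 2 := by nlinarith
        nlinarith [sq_nonneg (t - g)]
      nlinarith
    have h4 : 1 + (t - g) ^ 2 ≤ ‖pt t - ρ‖ ^ 2 := by rw [hd']; linarith
    have h5 : 1 + (t - g) ^ 2 ≤ L * (‖w - ρ‖ * ‖pt t - ρ‖) := by
      have hp : 0 ≤ 1 + (t - g) ^ 2 := by positivity
      have h6 : (1 + (t - g) ^ 2) ^ 2 ≤ (L * (‖w - ρ‖ * ‖pt t - ρ‖)) ^ 2 := by
        calc (1 + (t - g) ^ 2) ^ 2 = (1 + (t - g) ^ 2) * (1 + (t - g) ^ 2) := by ring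
          _ ≤ (L ^ 2 * ‖w - ρ‖ ^ 2) * ‖pt t - ρ‖ ^ 2 := by gcongr
          _ = _ := by ring
      exact le_of_sq_le_sq h6 (by positivity)
    have hpos : 0 < ‖w - ρ‖ * ‖pt t - ρ‖ := by
      have : 0 < L * (‖w - ρ‖ * ‖pt t - ρ‖) := lt_of_lt_of_le (by positivity) h5
      exact (pos_iff_pos_of_mul_pos this).mp hL0
    have hn1 : w - ρ ≠ 0 := by
      intro h; rw [h, norm_zero, zero_mul] at hpos; exact lt_irrefl _ hpos
    have hn2 : pt t - ρ ≠ 0 := by
      intro h; rw [h, norm_zero, mul_zero] at hpos; exact lt_irrefl _ hpos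
    have e1 : 1 / (w - ρ) - 1 / (pt t - ρ) =
        (pt t - w) * (1 / ((w - ρ) * (pt t - ρ))) := by
      field_simp
      ring
    rw [e1, norm_mul, norm_mul, norm_div, norm_one, norm_mul, Complex.norm_natCast]
    have h7 : 1 / (‖w - ρ‖ * ‖pt t - ρ‖) ≤ L / (1 + (t - g) ^ 2) := by
      rw [div_le_div_iff₀ hpos (by positivity), one_mul]
      exact h5
    calc (mult ρ : ℝ) * (‖pt t - w‖ * (1 / (‖w - ρ‖ * ‖pt t - ρ‖)))
        ≤ (mult ρ : ℝ) * (3 / 2 * (L / (1 + (t - g) ^ 2))) := by gcongr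
      _ = _ := by ring
  have hs := (summable_weight t).hasSum.mul_left (3 / 2 * L)
  have h8 := (hasSum_complex_zeros hw hpt).norm_le_of_bounded hs hterm
  have h9 : ‖logDeriv xiF (pt t)‖ ≤ (C1 + 2 * C2) * Real.log (|t| + 2) := by
    have e1 : 0 ≤ (logDeriv xiF (pt t)).re := (hasSum_Rt t).nonneg fun ρ => by
      have hρ := Pool.Agent.ZetaGaps.re_eq_half hRH ρ.2
      rw [hρ]
      positivity
    have e2 : (logDeriv xiF (pt t)).re ≤ C1 * Real.log (|t| + 2) := h1 t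
    have e3 := Complex.norm_le_abs_re_add_abs_im (logDeriv xiF (pt t))
    rw [abs_of_nonneg e1] at e3
    have e4 := h2 t
    nlinarith
  have h10 : ‖logDeriv xiF w‖ ≤ ‖logDeriv xiF w - logDeriv xiF (pt t)‖ +
      ‖logDeriv xiF (pt t)‖ := by
    have := norm_add_le (logDeriv xiF w - logDeriv xiF (pt t)) (logDeriv xiF (pt t))
    rwa [sub_add_cancel] at this
  have h11 : 3 / 2 * L * ∑' ρ : ntz, (mult ρ : ℝ) / (1 + (t - (ρ:ℂ).im) ^ 2) ≤
      3 / 2 * L * (C0 * Real.log (|t| + 2)) := by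
    have := h0 t
    gcongr
  have h12 : (C1 + 2 * C2) * Real.log (|t| + 2) ≤ L * ((C1 + 2 * C2) * Real.log (|t| + 2)) := by
    have : 0 ≤ (C1 + 2 * C2) * Real.log (|t| + 2) := by positivity
    nlinarith
  have h13 : 0 ≤ L * (C0 * Real.log (|t| + 2)) := by positivity
  calc ‖logDeriv xiF w‖ ≤ 3 / 2 * L * (C0 * Real.log (|t| + 2)) +
        L * ((C1 + 2 * C2) * Real.log (|t| + 2)) := by linarith
    _ ≤ 2 * (L * (C0 * Real.log (|t| + 2))) + L * ((C1 + 2 * C2) * Real.log (|t| + 2)) := by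
        linarith
    _ = _ := by ring

/-- Crude bound of the local count. -/
lemma W1_le_log (hRH : RiemannHypothesis) : ∃ C : ℝ, 0 < C ∧ ∀ T : ℝ, 1 ≤ Real.log T →
    ∀ t : ℝ, Pool.Agent.ZGap.Res.FM.W1 T t ≤ C * Real.log (|t| + 2) := by
  obtain ⟨C0, hC0, h0⟩ := tsum_weight_le
  refine ⟨C0, hC0, fun T hT t => ?_⟩
  refine le_trans ?_ (h0 t)
  refine (Pool.Agent.ZGap.Res.FM.W1_summable hRH hT t).tsum_le_tsum (fun ρ => ?_)
    (summable_weight t)
  rw [mul_one_div]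
  have h1 : 1 ≤ Real.log T ^ 2 := by nlinarith
  have h2 : (t - (ρ : ℂ).im) ^ 2 ≤ (Real.log T * (t - (ρ : ℂ).im)) ^ 2 := by
    rw [mul_pow]
    nlinarith [sq_nonneg (t - (ρ : ℂ).im)]
  gcongr

/-- Crude bound of `D1`. -/
lemma D1_le_log (hRH : RiemannHypothesis) : ∃ C : ℝ, 0 < C ∧ ∀ T : ℝ, 1 ≤ Real.log T →
    ∀ t : ℝ, |D1 T t| ≤ C * Real.log (|t| + 2) := by
  obtain ⟨C, hC, h⟩ := norm_logDeriv_xiF_le hRH
  refine ⟨C, hC, fun T hT t => ?_⟩
  have hL : 0 < Real.log T := by linarith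
  have hinv : 1 / Real.log T ≤ 1 := by rw [div_le_one hL]; exact hT
  have hre : ((((1 / 2 + 1 / Real.log T : ℝ) : ℂ) + t * I)).re = 1 / 2 + 1 / Real.log T := by
    simp only [add_re, ofReal_re, mul_re, I_re, mul_zero, ofReal_im, I_im, mul_one, sub_self,
      add_zero]
  have him : ((((1 / 2 + 1 / Real.log T : ℝ) : ℂ) + t * I)).im = t := by
    simp only [add_im, ofReal_im, mul_im, ofReal_re, I_im, mul_one, I_re, mul_zero, add_zero,
      zero_add]
  have h1 := h (Real.log T) hT (((1 / 2 + 1 / Real.log T : ℝ) : ℂ) + t * I) (by rw [hre])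
    (by rw [hre]; linarith)
  rw [him] at h1
  unfold D1
  rw [abs_div, abs_of_pos hL, div_le_iff₀ hL]
  refine (Complex.abs_im_le_norm _).trans (h1.trans_eq ?_)
  ring

/-- Logarithms at height comparable to `T`. -/
lemma log_height_le {A T t : ℝ} (hA : 0 ≤ A) (hT : A + 10 ≤ T) (ht : |t| ≤ 8 * T + A) :
    Real.log (|t| + 2) ≤ 2 * Real.log T := by
  have h1 : |t| + 2 ≤ T ^ 2 := by nlinarith
  calc Real.log (|t| + 2) ≤ Real.log (T ^ 2) :=
        Real.log_le_log (by positivity) h1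
    _ = 2 * Real.log T := by rw [Real.log_pow]; push_cast; ring

lemma one_le_log_of {T : ℝ} (hT : 10 ≤ T) : 1 ≤ Real.log T := by
  rw [← Real.log_exp 1]
  apply Real.log_le_log (Real.exp_pos 1)
  have := Real.exp_one_lt_d9
  linarith

/-- **H5 (i)**: polynomial bound to the right of the critical line. -/
theorem fq_le_rpow_right (hRH : RiemannHypothesis) {A : ℝ} (hA : 0 ≤ A) :
    ∃ C T0 : ℝ, 0 < C ∧ 10 ≤ T0 ∧ ∀ T : ℝ, T0 ≤ T → ∀ α : ℝ, 0 ≤ α → α ≤ A / Real.log T →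
      ∀ s : ℂ, 1 / 2 + 1 / Real.log T ≤ s.re → s.re ≤ 2 → T / 8 ≤ s.im → s.im ≤ 8 * T →
        ‖fq α s‖ ≤ T ^ C := by
  obtain ⟨C, hC, h⟩ := norm_logDeriv_xiF_le hRH
  refine ⟨2 * C * A + 1, A + 10, by positivity, by linarith,
    fun T hT α hα hαA s hs1 hs2 him1 him2 => ?_⟩
  have hT10 : 10 ≤ T := by linarith
  have hL1 := one_le_log_of hT10
  have hL : 0 < Real.log T := by linarith
  have hL1' : 0 < 1 / Real.log T := by positivity
  have hT0 : 0 < T := by linarith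
  have hαA' : α ≤ A := hαA.trans (by rw [div_le_iff₀ hL]; nlinarith)
  have hre : ∀ y : ℝ, (s + y * I).re = s.re := by intro y; simp
  have him : ∀ y : ℝ, (s + y * I).im = s.im + y := by intro y; simp
  have hb : ∀ y ∈ Icc 0 α, |(logDeriv xiF (s + y * I)).im| ≤ 2 * C * Real.log T ^ 2 := by
    intro y hy
    have h1 := h (Real.log T) hL1 (s + y * I) (by rw [hre]; exact hs1) (by rw [hre]; exact hs2)
    have h2 : Real.log (|(s + y * I).im| + 2) ≤ 2 * Real.log T := by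
      apply log_height_le hA (by linarith)
      rw [him, abs_of_nonneg (by linarith [hy.1])]
      linarith [hy.2]
    calc |(logDeriv xiF (s + y * I)).im| ≤ ‖logDeriv xiF (s + y * I)‖ := Complex.abs_im_le_norm _
      _ ≤ C * Real.log T * Real.log (|(s + y * I).im| + 2) := h1
      _ ≤ C * Real.log T * (2 * Real.log T) := by gcongr
      _ = _ := by ring
  have h3 := log_fq_le_of_logDeriv hα (z := s)
    (fun y _ => notMem_ntz hRH (by rw [hre]; linarith)) hb
  have hne : fq α s ≠ 0 := by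
    unfold fq
    exact div_ne_zero (xiF_ne (notMem_ntz hRH (by rw [hre]; linarith)))
      (xiF_ne (notMem_ntz hRH (by linarith)))
  have hpos : 0 < ‖fq α s‖ := norm_pos_iff.mpr hne
  rw [← Real.log_le_log_iff hpos (by positivity), Real.log_rpow hT0]
  calc Real.log ‖fq α s‖ ≤ 2 * C * Real.log T ^ 2 * α := h3
    _ ≤ 2 * C * Real.log T ^ 2 * (A / Real.log T) := by gcongr
    _ = 2 * C * A * Real.log T := by field_simp
    _ ≤ (2 * C * A + 1) * Real.log T := by nlinarith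

/-- **H5 (iii)**: polynomial bound in the strip, away from the zeros. -/
theorem fq_le_rpow_strip (hRH : RiemannHypothesis) {A c : ℝ} (hA : 0 ≤ A) (hc : 0 < c) :
    ∃ C T0 : ℝ, 0 < C ∧ 10 ≤ T0 ∧ ∀ T : ℝ, T0 ≤ T → ∀ α : ℝ, 0 ≤ α → α ≤ A / Real.log T →
      ∀ s : ℂ, |s.re - 1 / 2| ≤ 1 / Real.log T → T / 8 ≤ s.im → s.im ≤ 8 * T →
        (∀ ρ ∈ ntz, c / Real.log T ≤ ‖s - ρ‖) → ‖fq α s‖ ≤ T ^ C := by
  obtain ⟨C, hC, h⟩ := fq_le_exp hRH (by linarith : 0 ≤ A + 1) hc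
  obtain ⟨C1, hC1, h1⟩ := W1_le_log hRH
  obtain ⟨C2, hC2, h2⟩ := D1_le_log hRH
  refine ⟨C * (2 * C1 + 2 * C2), 10, by positivity, le_rfl,
    fun T hT α hα hαA s hs him1 him2 hd => ?_⟩
  have hL1 := one_le_log_of hT
  have hL : 0 < Real.log T := by linarith
  have hT0 : 0 < T := by linarith
  have hdist : ‖s - (1 / 2 + (s.im : ℂ) * I)‖ = |s.re - 1 / 2| := by
    have e : s - (1 / 2 + (s.im : ℂ) * I) = ((s.re - 1 / 2 : ℝ) : ℂ) := by
      apply Complex.ext <;> simp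
    rw [e, Complex.norm_real, Real.norm_eq_abs]
  have h3 := h T hL1 s.im α hα (hαA.trans (by gcongr; linarith)) s
    (by
      rw [hdist]
      refine hs.trans ?_
      gcongr
      linarith) hd
  have h4 : Real.log (|s.im| + 2) ≤ 2 * Real.log T := by
    apply log_height_le le_rfl (by linarith)
    rw [abs_of_nonneg (by linarith)]
    linarith
  have h5 := h1 T hL1 s.im
  have h6 := h2 T hL1 s.im
  have h7 : Pool.Agent.ZGap.Res.FM.W1 T s.im + |D1 T s.im| ≤
      (2 * C1 + 2 * C2) * Real.log T := by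
    have e1 : C1 * Real.log (|s.im| + 2) ≤ C1 * (2 * Real.log T) := by gcongr
    have e2 : C2 * Real.log (|s.im| + 2) ≤ C2 * (2 * Real.log T) := by gcongr
    linarith
  calc ‖fq α s‖ ≤ Real.exp (C * (Pool.Agent.ZGap.Res.FM.W1 T s.im + |D1 T s.im|)) := h3
    _ ≤ Real.exp (C * ((2 * C1 + 2 * C2) * Real.log T)) := by gcongr
    _ = T ^ (C * (2 * C1 + 2 * C2)) := by
        rw [Real.rpow_def_of_pos hT0]; congr 1; ring

/-- Number of zeros in a window. -/
lemma window_count_sharp : ∃ K : ℝ, 0 < K ∧ ∀ a b : ℝ, 2 ≤ a → a ≤ b → ∀ S : Finset ntz,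
    (∀ ρ ∈ S, a < (ρ:ℂ).im ∧ (ρ:ℂ).im ≤ b) →
      (S.card : ℝ) ≤ (b - a) / (2 * Real.pi) * Real.log b + K * Real.log b := by
  obtain ⟨C, hC, h⟩ := riemann_von_mangoldt
  refine ⟨2 * C, by positivity, fun a b ha hab S hS => ?_⟩
  have ha0 : 0 < a := by linarith
  have hb0 : 0 < b := by linarith
  have h1 := h a ha
  have h2 := h b (ha.trans hab)
  have hpi := Real.pi_pos
  -- the count
  have h3 : (S.card : ℝ) ≤ zc b - zc a := by
    have hsum : zc b - zc a = ∑' ρ : ntz, ((mult ρ : ℝ) * ind b (ρ:ℂ).im -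
        (mult ρ : ℝ) * ind a (ρ:ℂ).im) := ((summable_ind b).tsum_sub (summable_ind a)).symm
    have hnn : ∀ ρ : ntz, 0 ≤ (mult ρ : ℝ) * ind b (ρ:ℂ).im - (mult ρ : ℝ) * ind a (ρ:ℂ).im := by
      intro ρ
      rw [← mul_sub]
      apply mul_nonneg (Nat.cast_nonneg _)
      unfold ind
      split_ifs with c1 c2 c2
      · norm_num
      · norm_num
      · exact absurd ⟨c2.1, c2.2.trans hab⟩ c1
      · norm_num
    rw [hsum]
    have h4 := ((summable_ind b).sub (summable_ind a)).sum_le_tsum S (fun ρ _ => hnn ρ)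
    refine le_trans ?_ h4
    have h5 : (S.card : ℝ) = ∑ ρ ∈ S, (1 : ℝ) := by simp
    rw [h5]
    refine Finset.sum_le_sum fun ρ hρ => ?_
    have h6 := hS ρ hρ
    have h7 : ind b (ρ:ℂ).im = 1 := by
      unfold ind
      rw [if_pos ⟨by linarith, h6.2⟩]
    have h8 : ind a (ρ:ℂ).im = 0 := by
      unfold ind
      rw [if_neg]
      rintro ⟨_, h9⟩
      linarith
    rw [h7, h8, mul_one, mul_zero, sub_zero]
    exact_mod_cast mult_pos ρ.2
  -- the main term
  have e0 : ∀ x : ℝ, 0 < x → Real.log (x / (2 * Real.pi * Real.exp 1)) =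
      Real.log x - Real.log (2 * Real.pi) - 1 := by
    intro x hx
    rw [Real.log_div hx.ne' (by positivity), Real.log_mul (by positivity) (by positivity),
      Real.log_exp]
    ring
  rw [e0 a ha0] at h1
  rw [e0 b hb0] at h2
  have hlogab : a * (Real.log b - Real.log a) ≤ b - a := by
    have := Real.log_le_sub_one_of_pos (show 0 < b / a by positivity)
    rw [Real.log_div hb0.ne' ha0.ne'] at this
    calc a * (Real.log b - Real.log a) ≤ a * (b / a - 1) := by gcongr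
      _ = b - a := by field_simp
  have hlogle : Real.log a ≤ Real.log b := Real.log_le_log ha0 hab
  have hlog2pi : 0 ≤ Real.log (2 * Real.pi) := Real.log_nonneg (by linarith [Real.pi_gt_three])
  have hM : b / (2 * Real.pi) * (Real.log b - Real.log (2 * Real.pi) - 1) -
      a / (2 * Real.pi) * (Real.log a - Real.log (2 * Real.pi) - 1) ≤
      (b - a) / (2 * Real.pi) * Real.log b := by
    have e1 : b / (2 * Real.pi) * (Real.log b - Real.log (2 * Real.pi) - 1) -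
      a / (2 * Real.pi) * (Real.log a - Real.log (2 * Real.pi) - 1) =
      ((b - a) * Real.log b + a * (Real.log b - Real.log a) -
        (b - a) * Real.log (2 * Real.pi) - (b - a)) / (2 * Real.pi) := by
      field_simp
      ring
    rw [e1, div_mul_eq_mul_div]
    gcongr
    have : 0 ≤ (b - a) * Real.log (2 * Real.pi) := mul_nonneg (by linarith) hlog2pi
    linarith
  rw [abs_le] at h1 h2
  have h10 : C * Real.log a ≤ C * Real.log b := by gcongr
  linarith [h1.1, h2.2]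

lemma cut_arith {C P τ : ℝ} (hτ1 : τ < 1) (h7 : 0 < P)
    (h5 : C ≤ (C + 1 + P) * ((1 + τ) / 2)) (h6 : C * (1 - τ) = 2 * (2 + P)) : False := by
  have h8 : (1 + P) * ((1 + τ) / 2) ≤ (1 + P) * 1 := by
    apply mul_le_mul_of_nonneg_left <;> linarith
  have h9 : (C + 1 + P) * ((1 + τ) / 2) = C - C * (1 - τ) / 2 + (1 + P) * ((1 + τ) / 2) := by ring
  linarith

lemma cut_arith2 {τ L : ℝ} (hτ0 : 0 < τ) (hτ1 : τ < 1) (hL : 0 < L) (h6 : 4 / (1 - τ) ≤ L) :
    τ * (1 + 2 / L) ≤ (1 + τ) / 2 := by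
  have hτ : 0 < 1 - τ := by linarith
  have h5 : 2 / L ≤ (1 - τ) / 2 := by
    rw [div_le_div_iff₀ hL (by norm_num)]
    rw [div_le_iff₀ hτ] at h6
    linarith
  have h7 : 0 < 2 / L := by positivity
  nlinarith

/-- **H5 (ii)**: good cuts. -/
theorem exists_good_cut {τ : ℝ} (hτ0 : 0 < τ) (hτ1 : τ < 1) :
    ∃ C T0 : ℝ, 0 < C ∧ 10 ≤ T0 ∧ ∀ T : ℝ, T0 ≤ T → ∀ x : ℝ, T / 8 ≤ x → x ≤ 6 * T →
      ∃ h ∈ Icc x (x + C), ∀ ρ ∈ ntz, Real.pi * τ / Real.log T ≤ |ρ.im - h| := by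
  obtain ⟨K, hK, hcount⟩ := window_count_sharp
  have hpi := Real.pi_pos
  have hpi3 := Real.pi_gt_three
  have hpi4 := Real.pi_lt_d2
  set C : ℝ := 2 * (2 + 2 * Real.pi * K) / (1 - τ) with hCdef
  have hτ : 0 < 1 - τ := by linarith
  have hC : 0 < C := by positivity
  set L0 : ℝ := 4 / (1 - τ) + 7 + C with hL0
  refine ⟨C, Real.exp L0, hC, ?_, fun T hT x hx1 hx2 => ?_⟩
  · have h1 : L0 + 1 ≤ Real.exp L0 := Real.add_one_le_exp L0
    have h2 : 4 ≤ 4 / (1 - τ) := by rw [le_div_iff₀ hτ]; nlinarith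
    linarith
  have hTpos : 0 < T := (Real.exp_pos _).trans_le hT
  have hL : L0 ≤ Real.log T := by
    rw [← Real.log_exp L0]
    exact Real.log_le_log (Real.exp_pos _) hT
  have h4τ : 0 < 4 / (1 - τ) := by positivity
  have hL7 : 7 ≤ Real.log T := by linarith
  have hLpos : 0 < Real.log T := by linarith
  have hTC : C + 8 ≤ T := by
    have h1 : L0 + 1 ≤ Real.exp L0 := Real.add_one_le_exp L0
    linarith
  have hT20 : 20 ≤ T := by
    have h1 : Real.exp 7 ≤ T := by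
      have : Real.exp 7 ≤ Real.exp L0 := by rw [Real.exp_le_exp]; linarith
      linarith
    have h2 : (20:ℝ) ≤ Real.exp 7 := by
      have h3 : Real.exp 7 = Real.exp 1 ^ 7 := by rw [← Real.exp_nat_mul]; norm_num
      have h4 := Real.exp_one_gt_d9
      have h5 : (2:ℝ) ^ 7 ≤ Real.exp 1 ^ 7 := by
        gcongr
        linarith
      rw [h3]
      linarith
    linarith
  set r : ℝ := Real.pi * τ / Real.log T with hr
  have hr0 : 0 < r := by positivity
  have hr1 : 2 * r ≤ 1 := by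
    rw [hr, mul_div_assoc', div_le_one hLpos]
    nlinarith
  by_contra hcon
  push Not at hcon
  -- the finite set of zeros near the window
  have hfin := Pool.Agent.ZetaGaps.finite_ntz_im (x + C + r)
  have hfin' : {ρ : ntz | |(ρ:ℂ).im| ≤ x + C + r}.Finite := by
    refine Set.Finite.of_injOn (f := fun ρ : ntz => (ρ : ℂ)) (t := {ρ : ℂ | ρ ∈ ntz ∧ |ρ.im| ≤ x + C + r})
      (fun ρ hρ => ⟨ρ.2, hρ⟩) (fun a _ b _ hab => Subtype.ext hab) hfin
  classical
  set S : Finset ntz := hfin'.toFinset.filter (fun ρ => x - r < (ρ:ℂ).im ∧ (ρ:ℂ).im ≤ x + C + r)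
    with hS
  have hx0 : 0 < x := by linarith
  have hcover : Icc x (x + C) ⊆ ⋃ ρ ∈ S, Ioo ((ρ:ℂ).im - r) ((ρ:ℂ).im + r) := by
    intro h hh
    obtain ⟨ρ, hρ, hlt⟩ := hcon h hh
    rw [abs_lt] at hlt
    simp only [mem_iUnion]
    refine ⟨⟨ρ, hρ⟩, ?_, ?_⟩
    · rw [hS, Finset.mem_filter, Set.Finite.mem_toFinset]
      have e1 : x - r < ρ.im := by linarith [hlt.1, hh.1]
      have e2 : ρ.im ≤ x + C + r := by linarith [hlt.2, hh.2]
      refine ⟨?_, e1, e2⟩
      change |ρ.im| ≤ x + C + r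
      rw [abs_le]
      exact ⟨by linarith, e2⟩
    · simp only [mem_Ioo]
      constructor <;> linarith [hlt.1, hlt.2]
  have hvol : ENNReal.ofReal C ≤ ENNReal.ofReal (S.card * (2 * r)) := by
    calc ENNReal.ofReal C = volume (Icc x (x + C)) := by
          rw [Real.volume_Icc]; congr 1; ring
      _ ≤ volume (⋃ ρ ∈ S, Ioo ((ρ:ℂ).im - r) ((ρ:ℂ).im + r)) := measure_mono hcover
      _ ≤ ∑ ρ ∈ S, volume (Ioo ((ρ:ℂ).im - r) ((ρ:ℂ).im + r)) := measure_biUnion_finset_le _ _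
      _ = ∑ ρ ∈ S, ENNReal.ofReal (2 * r) := by
          refine Finset.sum_congr rfl fun ρ _ => ?_
          rw [Real.volume_Ioo]; congr 1; ring
      _ = ENNReal.ofReal (S.card * (2 * r)) := by
          rw [Finset.sum_const, nsmul_eq_mul, ENNReal.ofReal_mul (Nat.cast_nonneg _),
            ENNReal.ofReal_natCast]
  have hCle : C ≤ S.card * (2 * r) := by
    rwa [ENNReal.ofReal_le_ofReal_iff (by positivity)] at hvol
  have hcard := hcount (x - r) (x + C + r) (by linarith) (by linarith) S (fun ρ hρ => by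
    rw [hS, Finset.mem_filter] at hρ
    exact hρ.2)
  have hlogb : Real.log (x + C + r) ≤ Real.log T + 2 := by
    have h1 : x + C + r ≤ 7 * T := by linarith
    calc Real.log (x + C + r) ≤ Real.log (7 * T) := Real.log_le_log (by linarith) h1
      _ = Real.log 7 + Real.log T := Real.log_mul (by norm_num) hTpos.ne'
      _ ≤ Real.log T + 2 := by
          have h2 : Real.log 7 ≤ 2 := by
            rw [Real.log_le_iff_le_exp (by norm_num)]
            have h3 : Real.exp 2 = Real.exp 1 ^ 2 := by rw [← Real.exp_nat_mul]; norm_num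
            have h4 := Real.exp_one_gt_d9
            rw [h3]
            nlinarith
          linarith
  have hlogb0 : 0 ≤ Real.log (x + C + r) := Real.log_nonneg (by linarith)
  -- the final computation
  have h1 : (S.card : ℝ) ≤ ((C + 1) / (2 * Real.pi) + K) * (Real.log T + 2) := by
    calc (S.card : ℝ) ≤ (x + C + r - (x - r)) / (2 * Real.pi) * Real.log (x + C + r) +
          K * Real.log (x + C + r) := hcard
      _ = ((C + 2 * r) / (2 * Real.pi) + K) * Real.log (x + C + r) := by ring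
      _ ≤ ((C + 1) / (2 * Real.pi) + K) * (Real.log T + 2) := by gcongr
  have h2 : C ≤ ((C + 1) / (2 * Real.pi) + K) * (Real.log T + 2) * (2 * r) :=
    hCle.trans (by gcongr)
  have h3 : ((C + 1) / (2 * Real.pi) + K) * (Real.log T + 2) * (2 * r) =
      (C + 1 + 2 * Real.pi * K) * (τ * (1 + 2 / Real.log T)) := by
    rw [hr]
    field_simp
  rw [h3] at h2
  have h4 : τ * (1 + 2 / Real.log T) ≤ (1 + τ) / 2 :=
    cut_arith2 hτ0 hτ1 hLpos (by linarith)
  have h5 : C ≤ (C + 1 + 2 * Real.pi * K) * ((1 + τ) / 2) := h2.trans (by gcongr)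
  have h6 : C * (1 - τ) = 2 * (2 + 2 * Real.pi * K) := by
    rw [hCdef]; field_simp
  have h7 : 0 < 2 * Real.pi * K := by positivity
  exact cut_arith hτ1 h7 h5 h6

end Pool.Agent.HalfGap
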