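import Mathlib

/-!
# Integrals over the boundary of a rectangle: one simple pole
-/

namespace Pool.Agent.HalfGap

open Complex MeasureTheory Set

/-- The boundary integral over the rectangle `[a,b] × [c,d]`. -/
noncomputable def rInt (f : ℂ → ℂ) (a b c d : ℝ) : ℂ :=
  (∫ x : ℝ in a..b, f (x + c * I)) - (∫ x : ℝ in a..b, f (x + d * I)) +
    I * (∫ y : ℝ in c..d, f (b + y * I)) - I * (∫ y : ℝ in c..d, f (a + y * I))

/-- The closed rectangle. -/
def rect (a b c d : ℝ) : Set ℂ := {z | a ≤ z.re ∧ z.re ≤ b ∧ c ≤ z.im ∧ z.im ≤ d}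

lemma rect_eq {a b c d : ℝ} (hab : a ≤ b) (hcd : c ≤ d) :
    rect a b c d = (uIcc a b) ×ℂ (uIcc c d) := by
  ext z
  rw [uIcc_of_le hab, uIcc_of_le hcd, mem_reProdIm, mem_Icc, mem_Icc]
  simp only [rect, mem_ofPred_eq]
  tauto

lemma rInt_zero_off {f : ℂ → ℂ} {a b c d : ℝ} (hab : a ≤ b) (hcd : c ≤ d) {s : Set ℂ}
    (hs : s.Countable) (hc : ContinuousOn f (rect a b c d))
    (hd : ∀ z ∈ rect a b c d \ s, DifferentiableAt ℂ f z) : rInt f a b c d = 0 := by
  have h := integral_boundary_rect_eq_zero_of_differentiable_on_off_countable f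
    (a + c * I) (b + d * I) s hs (by
      rw [rect_eq hab hcd] at hc; simpa using hc) (by
      intro x hx
      apply hd
      refine ⟨?_, hx.2⟩
      have h1 := hx.1
      rw [mem_reProdIm] at h1
      simp only [add_re, ofReal_re, mul_re, I_re, mul_zero, ofReal_im, I_im, mul_one, sub_self,
        add_zero, add_im, mul_im, zero_add, min_eq_left hab, max_eq_right hab,
        min_eq_left hcd, max_eq_right hcd, mem_Ioo] at h1
      exact ⟨h1.1.1.le, h1.1.2.le, h1.2.1.le, h1.2.2.le⟩)
  unfold rInt
  simpa using h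

lemma rInt_zero {f : ℂ → ℂ} {a b c d : ℝ} (hab : a ≤ b) (hcd : c ≤ d)
    (hd : ∀ z ∈ rect a b c d, DifferentiableAt ℂ f z) : rInt f a b c d = 0 :=
  rInt_zero_off hab hcd (s := ∅) countable_empty
    (fun z hz => (hd z hz).continuousAt.continuousWithinAt) (fun z hz => hd z hz.1)

/-- Horizontal splitting. -/
lemma rInt_split {f : ℂ → ℂ} {a b c d e : ℝ}
    (h1 : IntervalIntegrable (fun y : ℝ => f (b + y * I)) volume c d)
    (h2 : IntervalIntegrable (fun y : ℝ => f (b + y * I)) volume d e)
    (h3 : IntervalIntegrable (fun y : ℝ => f (a + y * I)) volume c d)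
    (h4 : IntervalIntegrable (fun y : ℝ => f (a + y * I)) volume d e) :
    rInt f a b c e = rInt f a b c d + rInt f a b d e := by
  unfold rInt
  rw [← intervalIntegral.integral_add_adjacent_intervals h1 h2,
    ← intervalIntegral.integral_add_adjacent_intervals h3 h4]
  ring

lemma rInt_add {f g : ℂ → ℂ} {a b c d : ℝ}
    (h1 : IntervalIntegrable (fun x : ℝ => f (x + c * I)) volume a b)
    (h2 : IntervalIntegrable (fun x : ℝ => f (x + d * I)) volume a b)
    (h3 : IntervalIntegrable (fun y : ℝ => f (b + y * I)) volume c d)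
    (h4 : IntervalIntegrable (fun y : ℝ => f (a + y * I)) volume c d)
    (k1 : IntervalIntegrable (fun x : ℝ => g (x + c * I)) volume a b)
    (k2 : IntervalIntegrable (fun x : ℝ => g (x + d * I)) volume a b)
    (k3 : IntervalIntegrable (fun y : ℝ => g (b + y * I)) volume c d)
    (k4 : IntervalIntegrable (fun y : ℝ => g (a + y * I)) volume c d) :
    rInt (fun z => f z + g z) a b c d = rInt f a b c d + rInt g a b c d := by
  unfold rInt
  rw [intervalIntegral.integral_add h1 k1, intervalIntegral.integral_add h2 k2,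
    intervalIntegral.integral_add h3 k3, intervalIntegral.integral_add h4 k4]
  ring

lemma rInt_const_mul (k : ℂ) (f : ℂ → ℂ) (a b c d : ℝ) :
    rInt (fun z => k * f z) a b c d = k * rInt f a b c d := by
  unfold rInt
  rw [intervalIntegral.integral_const_mul, intervalIntegral.integral_const_mul,
    intervalIntegral.integral_const_mul, intervalIntegral.integral_const_mul]
  ring

/-- A primitive on a horizontal segment. -/
lemma hseg {F F' : ℂ → ℂ} {a b c : ℝ} (hab : a ≤ b)
    (h : ∀ x ∈ Icc a b, HasDerivAt F (F' (x + c * I)) ((x : ℂ) + c * I))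
    (hc : ContinuousOn (fun x : ℝ => F' (x + c * I)) (Icc a b)) :
    ∫ x : ℝ in a..b, F' (x + c * I) = F (b + c * I) - F (a + c * I) := by
  have := intervalIntegral.integral_eq_sub_of_hasDerivAt (a := a) (b := b)
    (f := fun x : ℝ => F (x + c * I)) (f' := fun x : ℝ => F' (x + c * I)) ?_ ?_
  · exact this
  · intro x hx
    rw [uIcc_of_le hab] at hx
    have h1 := h x hx
    have h2 : HasDerivAt (fun x : ℝ => (x : ℂ) + c * I) 1 x :=
      (Complex.ofRealCLM.hasDerivAt).add_const _
    have h3 := HasDerivAt.comp_of_eq x h1 h2 rfl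
    rw [mul_one] at h3
    exact h3
  · apply ContinuousOn.intervalIntegrable
    rwa [uIcc_of_le hab]

/-- A primitive on a vertical segment. -/
lemma vseg {F F' : ℂ → ℂ} {a c d : ℝ} (hcd : c ≤ d)
    (h : ∀ y ∈ Icc c d, HasDerivAt F (F' (a + y * I)) ((a : ℂ) + y * I))
    (hc : ContinuousOn (fun y : ℝ => F' (a + y * I)) (Icc c d)) :
    I * ∫ y : ℝ in c..d, F' (a + y * I) = F (a + d * I) - F (a + c * I) := by
  rw [← intervalIntegral.integral_const_mul]
  have := intervalIntegral.integral_eq_sub_of_hasDerivAt (a := c) (b := d)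
    (f := fun y : ℝ => F (a + y * I)) (f' := fun y : ℝ => I * F' (a + y * I)) ?_ ?_
  · exact this
  · intro y hy
    rw [uIcc_of_le hcd] at hy
    have h1 := h y hy
    have h2 : HasDerivAt (fun y : ℝ => (a : ℂ) + y * I) I y := by
      have h3 : HasDerivAt (fun y : ℝ => (y : ℂ) * I) (1 * I) y :=
        (Complex.ofRealCLM.hasDerivAt (x := y)).mul_const I
      simpa using h3.const_add (a : ℂ)
    have h4 := h1.comp_of_eq y h2 rfl
    rw [mul_comm] at h4
    exact h4
  · apply ContinuousOn.intervalIntegrable
    rw [uIcc_of_le hcd]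
    exact continuousOn_const.mul hc

lemma log_neg_sub {z : ℂ} (h : 0 < z.im) : log z - log (-z) = Real.pi * I := by
  apply Complex.ext
  · simp [log_re]
  · simp only [sub_im, log_im, mul_im, ofReal_re, I_im, mul_one, ofReal_im, I_re, mul_zero,
      add_zero]
    rw [arg_neg_eq_arg_sub_pi_of_im_pos h]
    ring

lemma log_neg_sub' {z : ℂ} (h : z.im < 0) : log z - log (-z) = -(Real.pi * I) := by
  have h2 : 0 < (-z).im := by simpa using h
  have := log_neg_sub h2
  rw [neg_neg] at this
  linear_combination -this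

/-- The boundary integral of `1/(z - p)`. -/
theorem rInt_inv {a b c d : ℝ} {p : ℂ} (ha : a < p.re) (hb : p.re < b) (hc : c < p.im)
    (hd : p.im < d) : rInt (fun z => 1 / (z - p)) a b c d = 2 * Real.pi * I := by
  have hab : a ≤ b := by linarith
  have hcd : c ≤ d := by linarith
  have dlog : ∀ z : ℂ, z - p ∈ slitPlane → HasDerivAt (fun z => log (z - p)) (1 / (z - p)) z := by
    intro z hz
    have h1 : HasDerivAt (fun z : ℂ => z - p) 1 z := (hasDerivAt_id z).sub_const p
    exact h1.clog hz
  have dlog' : ∀ z : ℂ, -(z - p) ∈ slitPlane →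
      HasDerivAt (fun z => log (-(z - p))) (1 / (z - p)) z := by
    intro z hz
    have h1 : HasDerivAt (fun z : ℂ => -(z - p)) (-1) z := ((hasDerivAt_id z).sub_const p).neg
    have h2 := h1.clog hz
    convert h2 using 1
    rw [neg_div_neg_eq]
  have hcont : ∀ {s : Set ℝ} {g : ℝ → ℂ}, Continuous g → (∀ x ∈ s, g x - p ≠ 0) →
      ContinuousOn (fun x => 1 / (g x - p)) s := by
    intro s g hg hne
    exact ContinuousOn.div continuousOn_const (by fun_prop) hne
  have e1 : ∫ x : ℝ in a..b, (1 / (((x : ℂ) + c * I) - p)) =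
      log (b + c * I - p) - log (a + c * I - p) := by
    refine hseg (F := fun z => log (z - p)) (F' := fun z => 1 / (z - p)) hab ?_ ?_
    · intro x _
      apply dlog
      rw [mem_slitPlane_iff]
      right
      simp
      linarith
    · refine hcont (by fun_prop) fun x _ h0 => ?_
      have : (((x : ℂ) + c * I) - p).im = 0 := by rw [h0]; simp
      simp at this
      linarith
  have e2 : ∫ x : ℝ in a..b, (1 / (((x : ℂ) + d * I) - p)) =
      log (b + d * I - p) - log (a + d * I - p) := by
    refine hseg (F := fun z => log (z - p)) (F' := fun z => 1 / (z - p)) hab ?_ ?_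
    · intro x _
      apply dlog
      rw [mem_slitPlane_iff]
      right
      simp
      linarith
    · refine hcont (by fun_prop) fun x _ h0 => ?_
      have : (((x : ℂ) + d * I) - p).im = 0 := by rw [h0]; simp
      simp at this
      linarith
  have e3 : I * ∫ y : ℝ in c..d, (1 / (((b : ℂ) + y * I) - p)) =
      log (b + d * I - p) - log (b + c * I - p) := by
    refine vseg (F := fun z => log (z - p)) (F' := fun z => 1 / (z - p)) hcd ?_ ?_
    · intro y _
      apply dlog
      rw [mem_slitPlane_iff]
      left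
      simp
      linarith
    · refine hcont (by fun_prop) fun x _ h0 => ?_
      have : (((b : ℂ) + x * I) - p).re = 0 := by rw [h0]; simp
      simp at this
      linarith
  have e4 : I * ∫ y : ℝ in c..d, (1 / (((a : ℂ) + y * I) - p)) =
      log (-(a + d * I - p)) - log (-(a + c * I - p)) := by
    refine vseg (F := fun z => log (-(z - p))) (F' := fun z => 1 / (z - p)) hcd ?_ ?_
    · intro y _
      apply dlog'
      rw [mem_slitPlane_iff]
      left
      simp
      linarith
    · refine hcont (by fun_prop) fun x _ h0 => ?_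
      have : (((a : ℂ) + x * I) - p).re = 0 := by rw [h0]; simp
      simp at this
      linarith
  have e5 := log_neg_sub (z := a + d * I - p) (by simp; linarith)
  have e6 := log_neg_sub' (z := a + c * I - p) (by simp; linarith)
  unfold rInt
  rw [e1, e2, e3, e4]
  linear_combination e5 - e6

/-- The open rectangle. -/
lemma rect_mem_nhds {a b c d : ℝ} {p : ℂ} (ha : a < p.re) (hb : p.re < b) (hc : c < p.im)
    (hd : p.im < d) : rect a b c d ∈ nhds p := by
  have h : IsOpen {z : ℂ | a < z.re ∧ z.re < b ∧ c < z.im ∧ z.im < d} := by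
    refine (isOpen_lt continuous_const continuous_re).inter
      ((isOpen_lt continuous_re continuous_const).inter
      ((isOpen_lt continuous_const continuous_im).inter
      (isOpen_lt continuous_im continuous_const)))
  refine Filter.mem_of_superset (h.mem_nhds ⟨ha, hb, hc, hd⟩) fun z hz => ?_
  exact ⟨hz.1.le, hz.2.1.le, hz.2.2.1.le, hz.2.2.2.le⟩

/-- Points of the horizontal and vertical sides. -/
lemma hmem {a b c d x y : ℝ} (hx : x ∈ Icc a b) (hy : y ∈ Icc c d) :
    (x : ℂ) + y * I ∈ rect a b c d := by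
  refine ⟨?_, ?_, ?_, ?_⟩ <;> simp [hx.1, hx.2, hy.1, hy.2]

/-- Integrability on the four sides. -/
lemma sides_integrable {f : ℂ → ℂ} {a b c d : ℝ} (hab : a ≤ b) (hcd : c ≤ d)
    (hf : ∀ z ∈ rect a b c d, (z.re = a ∨ z.re = b ∨ z.im = c ∨ z.im = d) → ContinuousAt f z) :
    IntervalIntegrable (fun x : ℝ => f (x + c * I)) volume a b ∧
    IntervalIntegrable (fun x : ℝ => f (x + d * I)) volume a b ∧
    IntervalIntegrable (fun y : ℝ => f (b + y * I)) volume c d ∧
    IntervalIntegrable (fun y : ℝ => f (a + y * I)) volume c d := by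
  refine ⟨?_, ?_, ?_, ?_⟩
  · apply ContinuousOn.intervalIntegrable
    rw [uIcc_of_le hab]
    intro x hx
    have h := hf (x + c * I) (hmem hx ⟨le_rfl, hcd⟩) (by right; right; left; simp)
    exact (ContinuousAt.comp (f := fun x : ℝ => (x : ℂ) + c * I) (g := f) h
      (by fun_prop)).continuousWithinAt
  · apply ContinuousOn.intervalIntegrable
    rw [uIcc_of_le hab]
    intro x hx
    have h := hf (x + d * I) (hmem hx ⟨hcd, le_rfl⟩) (by right; right; right; simp)
    exact (ContinuousAt.comp (f := fun x : ℝ => (x : ℂ) + d * I) (g := f) h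
      (by fun_prop)).continuousWithinAt
  · apply ContinuousOn.intervalIntegrable
    rw [uIcc_of_le hcd]
    intro y hy
    have h := hf (b + y * I) (hmem ⟨hab, le_rfl⟩ hy) (by right; left; simp)
    exact (ContinuousAt.comp (f := fun y : ℝ => (b : ℂ) + y * I) (g := f) h
      (by fun_prop)).continuousWithinAt
  · apply ContinuousOn.intervalIntegrable
    rw [uIcc_of_le hcd]
    intro y hy
    have h := hf (a + y * I) (hmem ⟨le_rfl, hab⟩ hy) (by left; simp)
    exact (ContinuousAt.comp (f := fun y : ℝ => (a : ℂ) + y * I) (g := f) h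
      (by fun_prop)).continuousWithinAt

/-- **Cauchy integral formula** on a rectangle. -/
theorem rInt_cauchy {f : ℂ → ℂ} {a b c d : ℝ} {p : ℂ} (ha : a < p.re) (hb : p.re < b)
    (hc : c < p.im) (hd : p.im < d) (hf : ∀ z ∈ rect a b c d, DifferentiableAt ℂ f z) :
    rInt (fun z => f z / (z - p)) a b c d = 2 * Real.pi * I * f p := by
  have hab : a ≤ b := by linarith
  have hcd : c ≤ d := by linarith
  have hp : p ∈ rect a b c d := ⟨ha.le, hb.le, hc.le, hd.le⟩
  have hnhds := rect_mem_nhds ha hb hc hd
  have hg0 : rInt (dslope f p) a b c d = 0 := by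
    refine rInt_zero_off hab hcd (s := {p}) (countable_singleton p) ?_ ?_
    · rw [continuousOn_dslope hnhds]
      exact ⟨fun z hz => (hf z hz).continuousAt.continuousWithinAt, hf p hp⟩
    · intro z hz
      have hne : z ≠ p := hz.2
      rw [differentiableAt_dslope_of_ne hne]
      exact hf z hz.1
  -- on the boundary the function is the sum of two functions
  have hne : ∀ z : ℂ, (z.re = a ∨ z.re = b ∨ z.im = c ∨ z.im = d) → z ≠ p := by
    rintro z h rfl
    rcases h with h | h | h | h <;> linarith
  have hc1 : ∀ z ∈ rect a b c d, (z.re = a ∨ z.re = b ∨ z.im = c ∨ z.im = d) →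
      ContinuousAt (dslope f p) z := by
    intro z hz h
    rw [continuousAt_dslope_of_ne (hne z h)]
    exact (hf z hz).continuousAt
  have hc2 : ∀ z ∈ rect a b c d, (z.re = a ∨ z.re = b ∨ z.im = c ∨ z.im = d) →
      ContinuousAt (fun z => f p * (1 / (z - p))) z := by
    intro z hz h
    have h1 : z - p ≠ 0 := sub_ne_zero.mpr (hne z h)
    exact continuousAt_const.mul (continuousAt_const.div (by fun_prop) h1)
  obtain ⟨i1, i2, i3, i4⟩ := sides_integrable hab hcd hc1
  obtain ⟨j1, j2, j3, j4⟩ := sides_integrable hab hcd hc2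
  have hsum := rInt_add (f := dslope f p) (g := fun z => f p * (1 / (z - p))) i1 i2 i3 i4
    j1 j2 j3 j4
  rw [hg0, rInt_const_mul, rInt_inv ha hb hc hd, zero_add] at hsum
  have hEq : ∀ z : ℂ, z ≠ p → f z / (z - p) = dslope f p z + f p * (1 / (z - p)) := by
    intro z hz
    have h1 : z - p ≠ 0 := sub_ne_zero.mpr hz
    rw [dslope_of_ne _ hz, slope_def_field]
    field_simp
    ring
  have hcongr : rInt (fun z => f z / (z - p)) a b c d =
      rInt (fun z => dslope f p z + f p * (1 / (z - p))) a b c d := by
    unfold rInt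
    congr 1
    · congr 1
      · congr 1
        · refine intervalIntegral.integral_congr fun x _ => ?_
          exact hEq _ (hne _ (by right; right; left; simp))
        · refine intervalIntegral.integral_congr fun x _ => ?_
          exact hEq _ (hne _ (by right; right; right; simp))
      · congr 1
        refine intervalIntegral.integral_congr fun x _ => ?_
        exact hEq _ (hne _ (by right; left; simp))
    · congr 1
      refine intervalIntegral.integral_congr fun x _ => ?_
      exact hEq _ (hne _ (by left; simp))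
  rw [hcongr, hsum]
  ring

/-- **One simple zero of the denominator.** -/
theorem rInt_simple {N D : ℂ → ℂ} {a b c d : ℝ} {p : ℂ} (ha : a < p.re) (hb : p.re < b)
    (hc : c < p.im) (hd : p.im < d) (hN : ∀ z ∈ rect a b c d, DifferentiableAt ℂ N z)
    (hD : ∀ z ∈ rect a b c d, DifferentiableAt ℂ D z) (hp : D p = 0) (hp' : deriv D p ≠ 0)
    (hD0 : ∀ z ∈ rect a b c d, z ≠ p → D z ≠ 0)
    (hDo : ∃ U ∈ nhds p, ∀ z ∈ U, DifferentiableAt ℂ D z) :
    rInt (fun z => N z / D z) a b c d = 2 * Real.pi * I * (N p / deriv D p) := by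
  have hE : ∀ z, D z = (z - p) * dslope D p z := by
    intro z
    have := sub_smul_dslope D p z
    rw [hp, sub_zero, smul_eq_mul] at this
    exact this.symm
  have hEd : ∀ z ∈ rect a b c d, DifferentiableAt ℂ (dslope D p) z := by
    intro z hz
    rcases eq_or_ne z p with rfl | hne
    · obtain ⟨U, hU, hUd⟩ := hDo
      have h1 : DifferentiableOn ℂ D U := fun w hw => (hUd w hw).differentiableWithinAt
      exact ((Complex.differentiableOn_dslope hU).mpr h1).differentiableAt hU
    · rw [differentiableAt_dslope_of_ne hne]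
      exact hD z hz
  have hE0 : ∀ z ∈ rect a b c d, dslope D p z ≠ 0 := by
    intro z hz
    rcases eq_or_ne z p with rfl | hne
    · rw [dslope_same]; exact hp'
    · intro h0
      apply hD0 z hz hne
      rw [hE z, h0, mul_zero]
  have h1 := rInt_cauchy (f := fun z => N z / dslope D p z) ha hb hc hd
    (fun z hz => (hN z hz).div (hEd z hz) (hE0 z hz))
  simp only [dslope_same] at h1
  rw [← h1]
  congr 1
  funext z
  rw [hE z, div_div, mul_comm (dslope D p z)]

end Pool.Agent.HalfGap
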