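import Mathlib

/-!
# Averaging the Gaussian weight over its centre
-/

namespace Pool.Agent.HalfGap

open MeasureTheory Set

lemma gauss_total (t : ℝ) {H : ℝ} (hH : 0 < H) :
    Integrable (fun t0 : ℝ => Real.exp (-(t - t0) ^ 2 / (2 * H ^ 2))) ∧
    ∫ t0 : ℝ, Real.exp (-(t - t0) ^ 2 / (2 * H ^ 2)) = Real.sqrt (2 * Real.pi) * H := by
  have hb : 0 < 1 / (2 * H ^ 2) := by positivity
  have e : (fun t0 : ℝ => Real.exp (-(t - t0) ^ 2 / (2 * H ^ 2))) =
      fun t0 => (fun x => Real.exp (-(1 / (2 * H ^ 2)) * x ^ 2)) (t - t0) := by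
    funext t0
    simp only
    congr 1
    ring
  rw [e]
  constructor
  · exact (integrable_exp_neg_mul_sq hb).comp_sub_left t
  · rw [integral_sub_left_eq_self (fun x => Real.exp (-(1 / (2 * H ^ 2)) * x ^ 2)) volume t,
      integral_gaussian]
    have : Real.pi / (1 / (2 * H ^ 2)) = (2 * Real.pi) * H ^ 2 := by field_simp
    rw [this, Real.sqrt_mul (by positivity), Real.sqrt_sq hH.le]

theorem fub {S : Set ℝ} {a b : ℝ} (hS : MeasurableSet S) (hSb : S ⊆ Icc a b) {g : ℝ → ℝ}
    (hg : Continuous g) (hg0 : ∀ t, 0 ≤ g t) {H c T : ℝ} (hT : 0 ≤ T) (hH : 0 < H)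
    (h : ∀ t0, T ≤ t0 → t0 ≤ 2 * T →
      c ≤ ∫ t in S, Real.exp (-(t - t0) ^ 2 / (2 * H ^ 2)) * g t) :
    c * T ≤ Real.sqrt (2 * Real.pi) * H * ∫ t in S, g t := by
  set K : ℝ → ℝ → ℝ := fun t0 t => Real.exp (-(t - t0) ^ 2 / (2 * H ^ 2)) * g t with hK
  have hKc : Continuous (Function.uncurry K) := by
    simp only [hK, Function.uncurry_def]
    have : Continuous fun p : ℝ × ℝ => g p.2 := hg.comp continuous_snd
    fun_prop
  have hint : Integrable (Function.uncurry K)
      ((volume.restrict (Icc T (2 * T))).prod (volume.restrict S)) := by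
    rw [Measure.prod_restrict, ← Measure.volume_eq_prod]
    have h1 : IntegrableOn (Function.uncurry K) (Icc T (2 * T) ×ˢ Icc a b) :=
      hKc.continuousOn.integrableOn_compact (isCompact_Icc.prod isCompact_Icc)
    exact h1.mono_set (prod_mono le_rfl hSb)
  have h2 : ∫ t0 in Icc T (2 * T), c ≤ ∫ t0 in Icc T (2 * T), ∫ t in S, K t0 t := by
    apply setIntegral_mono_on
    · exact integrableOn_const (by simp)
    · exact hint.integral_prod_left
    · exact measurableSet_Icc
    · intro t0 ht0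
      exact h t0 ht0.1 ht0.2
  have h3 : ∫ t0 in Icc T (2 * T), c = c * T := by
    rw [setIntegral_const, Measure.real, Real.volume_Icc, ENNReal.toReal_ofReal (by linarith),
      smul_eq_mul]
    ring
  rw [h3, integral_integral_swap hint] at h2
  refine h2.trans ?_
  rw [← integral_const_mul]
  have hgS : IntegrableOn g S := (hg.continuousOn.integrableOn_compact isCompact_Icc).mono_set hSb
  apply setIntegral_mono_on hint.integral_prod_right (hgS.const_mul _) hS
  intro t _
  simp only [hK, Function.uncurry]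
  rw [integral_mul_const]
  apply mul_le_mul_of_nonneg_right _ (hg0 t)
  obtain ⟨i1, i2⟩ := gauss_total t hH
  rw [← i2]
  exact setIntegral_le_integral i1 (Filter.Eventually.of_forall fun t0 => (Real.exp_pos _).le)

end Pool.Agent.HalfGap
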