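import Pool.Agent.ZGap.Half.Strip

/-!
# Measurability of the exceptional set and the Hölder step
-/

namespace Pool.Agent.HalfGap

open MeasureTheory Set Pool.Agent.Hadamard

lemma countable_zeros : {w : ℝ | Xr w = 0}.Countable := by
  have h : {w : ℝ | Xr w = 0} ⊆ ⋃ n : ℕ, {w : ℝ | w ∈ Ioo (-(n:ℝ)) n ∧ Xr w = 0} := by
    intro w hw
    obtain ⟨n, hn⟩ := exists_nat_gt |w|
    rw [mem_iUnion]
    exact ⟨n, ⟨abs_lt.mp hn, hw⟩⟩
  exact (countable_iUnion (fun n => (zeros_finite _ _).countable)).mono h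

lemma measurableSet_EE (α : ℝ) : MeasurableSet (EE α) := by
  have h : EE α = ⋃ z ∈ {z : ℝ | Xr z = 0 ∧ badz α z}, Icc (z - α / 2) (z + α / 2) := by
    ext t
    simp only [EE, mem_ofPred_eq, mem_iUnion, mem_Icc, exists_prop]
    constructor
    · rintro ⟨z, h1, h2, h3⟩
      have := abs_le.mp h3
      exact ⟨z, ⟨h1, h2⟩, by linarith, by linarith⟩
    · rintro ⟨z, ⟨h1, h2⟩, h3, h4⟩
      exact ⟨z, h1, h2, by rw [abs_le]; constructor <;> linarith⟩
  rw [h]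
  refine MeasurableSet.biUnion (countable_zeros.mono (fun z hz => hz.1)) (fun z _ => measurableSet_Icc)

/-- Cauchy–Schwarz -/
lemma cs_sq {μ : Measure ℝ} {f g : ℝ → ℝ} (hfm : AEStronglyMeasurable f μ) (hgm : AEStronglyMeasurable g μ)
    (hf : Integrable (fun t => f t ^ 2) μ) (hg : Integrable (fun t => g t ^ 2) μ) :
    (∫ t, f t * g t ∂μ) ^ 2 ≤ (∫ t, f t ^ 2 ∂μ) * ∫ t, g t ^ 2 ∂μ := by
  have hfg : Integrable (fun t => f t * g t) μ := by
    refine (hf.add hg).mono (hfm.mul hgm) (Filter.Eventually.of_forall (fun t => ?_))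
    simp only [Pi.add_apply]
    rw [Real.norm_eq_abs, Real.norm_eq_abs, abs_of_nonneg (by positivity : 0 ≤ f t ^ 2 + g t ^ 2), abs_le]
    constructor <;> nlinarith [sq_nonneg (f t + g t), sq_nonneg (f t - g t), sq_nonneg (f t), sq_nonneg (g t)]
  have key : ∀ x : ℝ, 0 ≤ (∫ t, f t ^ 2 ∂μ) * (x * x) + (-2 * ∫ t, f t * g t ∂μ) * x + ∫ t, g t ^ 2 ∂μ := by
    intro x
    have h1 : 0 ≤ ∫ t, (x * f t - g t) ^ 2 ∂μ := integral_nonneg (fun t => sq_nonneg _)
    have h2 : ∀ t, (x * f t - g t) ^ 2 = (x * x) * f t ^ 2 + (-2 * x) * (f t * g t) + g t ^ 2 := by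
      intro t; ring
    simp_rw [h2] at h1
    have i1 : Integrable (fun t => (x * x) * f t ^ 2 + (-2 * x) * (f t * g t)) μ :=
      (hf.const_mul _).add (hfg.const_mul _)
    rw [integral_add i1 hg,
      integral_add (hf.const_mul _) (hfg.const_mul _), integral_const_mul, integral_const_mul] at h1
    linarith
  have h3 := discrim_le_zero key
  rw [discrim] at h3
  nlinarith

/-- The Hölder step. -/
lemma holder_E4 {a b : ℝ} {E : Set ℝ} (hE : MeasurableSet E) (hEs : E ⊆ Icc a b) {f g : ℝ → ℝ}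
    (hfm : AEStronglyMeasurable f (volume.restrict (Icc a b)))
    (hgm : AEStronglyMeasurable g (volume.restrict (Icc a b)))
    (hf : IntegrableOn (fun t => f t ^ 2) (Icc a b)) (hg : IntegrableOn (fun t => g t ^ 4) (Icc a b)) :
    (∫ t in E, f t * g t) ^ 4 ≤ volume.real E * (∫ t in Icc a b, f t ^ 2) ^ 2 * ∫ t in Icc a b, g t ^ 4 := by
  have hμ : volume.restrict E ≤ volume.restrict (Icc a b) := Measure.restrict_mono hEs le_rfl
  have hfm' := hfm.mono_measure hμ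
  have hgm' := hgm.mono_measure hμ
  have hEfin : volume E ≠ ⊤ := ne_top_of_le_ne_top (by simp) (measure_mono hEs)
  have hf' : IntegrableOn (fun t => f t ^ 2) E := hf.mono_set hEs
  have hg' : IntegrableOn (fun t => g t ^ 4) E := hg.mono_set hEs
  have hone : IntegrableOn (fun _ : ℝ => (1:ℝ)) E := integrableOn_const hEfin
  have hg2 : IntegrableOn (fun t => g t ^ 2) E := by
    refine Integrable.mono (hone.add hg') (hgm'.pow 2) (Filter.Eventually.of_forall (fun t => ?_))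
    simp only [Pi.add_apply]
    rw [Real.norm_eq_abs, Real.norm_eq_abs, abs_of_nonneg (by positivity : 0 ≤ g t ^ 2),
      abs_of_nonneg (by positivity : 0 ≤ 1 + g t ^ 4)]
    nlinarith [sq_nonneg (g t ^ 2 - 1), sq_nonneg (g t ^ 2)]
  have s1 := cs_sq hfm' hgm' hf' hg2
  have hg22 : IntegrableOn (fun t => (g t ^ 2) ^ 2) E := by
    refine hg'.congr_fun (fun t _ => ?_) hE
    ring
  have s2 := cs_sq (f := fun _ => (1:ℝ)) (g := fun t => g t ^ 2) aestronglyMeasurable_const (hgm'.pow 2)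
    (by simp only [one_pow]; exact hone) hg22
  have e1 : ∫ t in E, (1:ℝ) * g t ^ 2 = ∫ t in E, g t ^ 2 := by simp
  have e2 : ∫ t in E, (1:ℝ) ^ 2 = volume.real E := by simp
  have e3 : ∫ t in E, (g t ^ 2) ^ 2 = ∫ t in E, g t ^ 4 := by
    congr 1; ext t; ring
  rw [e1, e2, e3] at s2
  have m1 : ∫ t in E, f t ^ 2 ≤ ∫ t in Icc a b, f t ^ 2 :=
    setIntegral_mono_set hf (Filter.Eventually.of_forall (fun t => sq_nonneg _)) hEs.eventuallyLE
  have m2 : ∫ t in E, g t ^ 4 ≤ ∫ t in Icc a b, g t ^ 4 :=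
    setIntegral_mono_set hg (Filter.Eventually.of_forall (fun t => by positivity)) hEs.eventuallyLE
  have n1 : 0 ≤ ∫ t in E, f t ^ 2 := integral_nonneg (fun t => sq_nonneg _)
  have n2 : 0 ≤ ∫ t in E, g t ^ 2 := integral_nonneg (fun t => sq_nonneg _)
  have n3 : 0 ≤ volume.real E := measureReal_nonneg
  have n4 : 0 ≤ ∫ t in E, g t ^ 4 := integral_nonneg (fun t => by positivity)
  calc (∫ t in E, f t * g t) ^ 4 = ((∫ t in E, f t * g t) ^ 2) ^ 2 := by ring
    _ ≤ ((∫ t in E, f t ^ 2) * ∫ t in E, g t ^ 2) ^ 2 := by gcongr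
    _ = (∫ t in E, f t ^ 2) ^ 2 * (∫ t in E, g t ^ 2) ^ 2 := by ring
    _ ≤ (∫ t in E, f t ^ 2) ^ 2 * (volume.real E * ∫ t in E, g t ^ 4) := by gcongr
    _ ≤ (∫ t in Icc a b, f t ^ 2) ^ 2 * (volume.real E * ∫ t in Icc a b, g t ^ 4) := by gcongr
    _ = _ := by ring

/-- The Hölder step with real exponents. -/
lemma holder_E {a b : ℝ} {E : Set ℝ} (hE : MeasurableSet E) (hEs : E ⊆ Icc a b) {f g : ℝ → ℝ}
    (hfm : AEStronglyMeasurable f (volume.restrict (Icc a b)))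
    (hgm : AEStronglyMeasurable g (volume.restrict (Icc a b)))
    (hf : IntegrableOn (fun t => f t ^ 2) (Icc a b)) (hg : IntegrableOn (fun t => g t ^ 4) (Icc a b)) :
    ∫ t in E, f t * g t ≤ volume.real E ^ (1/4 : ℝ) * (∫ t in Icc a b, f t ^ 2) ^ (1/2 : ℝ) *
      (∫ t in Icc a b, g t ^ 4) ^ (1/4 : ℝ) := by
  have h := holder_E4 hE hEs hfm hgm hf hg
  set x := ∫ t in E, f t * g t with hx
  have n1 : 0 ≤ ∫ t in Icc a b, f t ^ 2 := integral_nonneg (fun t => sq_nonneg _)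
  have n3 : 0 ≤ volume.real E := measureReal_nonneg
  have n4 : 0 ≤ ∫ t in Icc a b, g t ^ 4 := integral_nonneg (fun t => by positivity)
  set V := volume.real E
  set F := ∫ t in Icc a b, f t ^ 2
  set G := ∫ t in Icc a b, g t ^ 4
  have hy0 : 0 ≤ V ^ (1/4 : ℝ) * F ^ (1/2 : ℝ) * G ^ (1/4 : ℝ) := by positivity
  have hy : (V ^ (1/4 : ℝ) * F ^ (1/2 : ℝ) * G ^ (1/4 : ℝ)) ^ 4 = V * F ^ 2 * G := by
    have h4 : ∀ z : ℝ, 0 ≤ z → (z ^ (1/4 : ℝ)) ^ 4 = z := by
      intro z hz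
      rw [← Real.rpow_natCast, ← Real.rpow_mul hz]; norm_num
    have h2 : ∀ z : ℝ, 0 ≤ z → (z ^ (1/2 : ℝ)) ^ 4 = z ^ 2 := by
      intro z hz
      rw [← Real.rpow_natCast, ← Real.rpow_mul hz, ← Real.rpow_natCast]; norm_num
    rw [mul_pow, mul_pow, h4 V n3, h4 G n4, h2 F n1]
  rw [← hy] at h
  by_contra hcon
  push Not at hcon
  have := pow_lt_pow_left₀ hcon hy0 (by norm_num : (4:ℕ) ≠ 0)
  linarith

end Pool.Agent.HalfGap
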