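import Pool.Agent.ZGap.Half.FFBox
import Pool.Agent.ZGap.Half.FubG
import Pool.Agent.ZGap.Half.Holder
import Pool.Agent.ZGap.Res.Crowd

/-!
# The exceptional set has positive proportion
-/

namespace Pool.Agent.HalfGap

open Complex MeasureTheory Set Pool.Agent.Hadamard Filter Pool.Agent.ZGap.Res
open scoped ComplexConjugate Topology

theorem prop_EE (hRH : RiemannHypothesis) {τ : ℝ} (hτ : 1 / 2 < τ) (hτ1 : τ < 1) :
    ∃ κ0 : ℝ, 0 < κ0 ∧ ∃ T0 : ℝ, ∀ T : ℝ, T0 ≤ T →
      κ0 * T ≤ volume.real (EE (2 * Real.pi * τ / Real.log T) ∩ Icc (3 * T / 4) (5 * T / 2)) := by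
  have hpi := Real.pi_pos
  have hτ0 : 0 < τ := by linarith
  set θ := 1 / (4 * τ) with hθ
  have hθ0 : 0 < θ := by positivity
  have hθτ : τ * θ = 1 / 4 := by rw [hθ]; field_simp
  have hθh : θ < 1 / 2 := by
    rw [hθ, div_lt_div_iff₀ (by positivity) (by norm_num)]; linarith
  have hθq : 1 / 4 < θ := by
    rw [hθ, div_lt_div_iff₀ (by norm_num) (by positivity)]; linarith
  set η1 := (1 + 2 * θ) / 2 with hη1
  set η2 := (1 + η1) / 2 with hη2
  have hη1h : 1 / 2 < η1 := by rw [hη1]; linarith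
  have hκη : 2 * θ < η1 := by rw [hη1]; linarith
  have hη11 : η1 < 1 := by rw [hη1]; linarith
  have hη12 : η1 < η2 := by rw [hη2]; linarith
  have hη21 : η2 < 1 := by rw [hη2]; linarith
  have h3 : 1 < τ * (1 + 2 * θ) := by linarith only [show τ * (1 + 2 * θ) = τ + 2 * (τ * θ) by ring, hθτ, hτ]
  obtain ⟨c, hc, e, he, hMJ⟩ := MJ_two hτ hτ1 hθ0 hθh h3 hη1h hη12 hη21
  obtain ⟨R, hth, hep, hr, hlin⟩ := exists_linProf (th := θ) (ep := min e (θ / 4))
    (δ := min e (1 / 2)) (a := 1) (b := 0) (-1) (lt_min he (by positivity))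
    (by have := min_le_right e (θ / 4); linarith) hθh zero_le_one le_rfl (by norm_num)
    (lt_min he (by norm_num)) (min_le_right _ _)
  obtain ⟨T1, hM⟩ := hMJ R hr hth (by rw [hep]; exact min_le_left _ _) _ (min_le_left _ _) hlin
  obtain ⟨T2, hW⟩ := wrap hRH (τ := τ) (κ := 2 * θ) (η1 := η1) (η2 := η2) (A := 5)
    (by linarith) hτ1 hκη (by linarith) hη12 hη21
  obtain ⟨K, T3, hK, hT3, hbox⟩ := box_moment hRH R (4 * Real.pi + 1)
  obtain ⟨C, hC, hFF⟩ := FF_box hRH hτ hτ1
  obtain ⟨C4, T4, hC4, hexp⟩ := exp_moment hRH (4 * C) (by positivity)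
  -- the constants
  set c5 := c / (4 * Real.exp 2 * Real.sqrt (2 * Real.pi)) with hc5
  have hsq : 0 < Real.sqrt (2 * Real.pi) := Real.sqrt_pos.mpr (by positivity)
  have hc5pos : 0 < c5 := by positivity
  refine ⟨c5 ^ 4 / (K ^ 2 * C4), by positivity, ?_⟩
  have e5 : ∀ᶠ T : ℝ in atTop, 8 * T ^ η2 ≤ T := by
    have h1 : Tendsto (fun T : ℝ => T ^ (1 - η2)) atTop atTop := tendsto_rpow_atTop (by linarith)
    filter_upwards [h1.eventually_ge_atTop 8, eventually_gt_atTop 0] with T hT hT0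
    have h2 : T ^ (1 - η2) * T ^ η2 = T := by
      rw [← Real.rpow_add hT0]; simp
    have h3 : 0 < T ^ η2 := Real.rpow_pos_of_pos hT0 _
    exact (mul_le_mul_of_nonneg_right hT h3.le).trans_eq h2
  have e6 : ∀ᶠ T : ℝ in atTop, 7 ≤ Real.log T := Real.tendsto_log_atTop.eventually_ge_atTop 7
  have e8 : ∀ᶠ T : ℝ in atTop, 2 / c ≤ T ^ η1 :=
    (tendsto_rpow_atTop (by linarith : 0 < η1)).eventually_ge_atTop _
  have e7 := ((e5.and e6).and (e8.and (eventually_ge_atTop (E1 R ^ 2)))).and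
    (((eventually_ge_atTop T1).and (eventually_ge_atTop T2)).and
      ((eventually_ge_atTop T3).and (eventually_ge_atTop T4)))
  obtain ⟨T0, hT0⟩ := eventually_atTop.mp e7
  refine ⟨max T0 (Real.exp 3), fun T hT => ?_⟩
  obtain ⟨⟨⟨s5, s6⟩, s8, s9⟩, ⟨s1, s2⟩, s3, s4⟩ := hT0 T ((le_max_left _ _).trans hT)
  have hTe : Real.exp 3 ≤ T := (le_max_right _ _).trans hT
  have h1T : 1 < T := lt_of_lt_of_le (Real.one_lt_exp_iff.mpr (by norm_num)) hTe
  have hTpos : 0 < T := by linarith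
  set L := Real.log T with hL
  have hLpos : 0 < L := by linarith
  set α := 2 * Real.pi * τ / L with hα
  set S := EE α ∩ Icc (3 * T / 4) (5 * T / 2) with hS
  have hSm : MeasurableSet S := (measurableSet_EE α).inter measurableSet_Icc
  have hSb : S ⊆ Icc (3 * T / 4) (5 * T / 2) := inter_subset_right
  obtain ⟨E, hEc, hE0, hEb, hE4⟩ := hbox T s3
  set g : ℝ → ℝ := fun t => E t ^ 2 * Real.exp (C * XX T t) with hg
  have hXc : Continuous (XX T) := XX_continuous hRH (by linarith)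
  have hgc : Continuous g := (hEc.pow 2).mul (Real.continuous_exp.comp (hXc.const_mul C))
  have hg0 : ∀ t, 0 ≤ g t := fun t => by simp only [hg]; positivity
  have hH1 : 1 ≤ T ^ η1 := Real.one_le_rpow h1T.le (by linarith)
  have hHpos : 0 < T ^ η1 := by linarith
  -- the inequality for each centre
  have hcen : ∀ t0, T ≤ t0 → t0 ≤ 2 * T → c / (4 * Real.exp 2) * T ^ η1 ≤
      ∫ t in S, Real.exp (-(t - t0) ^ 2 / (2 * (T ^ η1) ^ 2)) * g t := by
    intro t0 ht0 ht0'
    set G : ℝ → ℝ := fun t => Real.exp 2 * Real.exp (-(t - t0) ^ 2 / (2 * (T ^ η1) ^ 2)) * g t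
      with hG
    have hGc : Continuous G := by
      simp only [hG]
      exact (by fun_prop : Continuous fun t : ℝ =>
        Real.exp 2 * Real.exp (-(t - t0) ^ 2 / (2 * (T ^ η1) ^ 2))).mul hgc
    have hG0 : ∀ t, 0 ≤ G t := fun t => mul_nonneg (by positivity) (hg0 t)
    have key := hW T s2 t0 ht0 ht0' (Q2 R T) (b2 R T α) w2 (fun s => BS2_conj R T α s)
      (fun t => BS2_re_nonneg R T α t)
      (by
        refine (sum_b2_exp_le hTe (fun x hx => hlin.F_le_one hx) α).trans ?_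
        have : T ^ (5:ℝ) = T ^ 4 * T := by
          rw [show (5:ℝ) = ((5:ℕ):ℝ) by norm_num, Real.rpow_natCast]; ring
        rw [this]
        exact mul_le_mul_of_nonneg_left s9 (by positivity))
      (fun q hq n hn => by
        have := w2_sep h1T hq hn
        rwa [hth] at this)
      G hG0 hGc.integrableOn_Icc
      (fun t _ s h1 h2 h3 => hFF T s6 R E hEb (T ^ η1) t0 hH1 t s h1 h2 h3)
    have key2 := hM T s1 t0 ht0 ht0'
    have hmono : ∫ t in Icc (t0 - 2 * T ^ η2) (t0 + 2 * T ^ η2) ∩ EE α, G t ≤ ∫ t in S, G t := by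
      apply setIntegral_mono_set
      · exact (hGc.integrableOn_Icc (a := 3 * T / 4) (b := 5 * T / 2)).mono_set hSb
      · exact Filter.Eventually.of_forall fun t => hG0 t
      · apply LE.le.eventuallyLE
        rintro t ⟨ht1, ht2⟩
        refine ⟨ht2, ?_, ?_⟩
        · linarith [ht1.1]
        · linarith [ht1.2]
    have hGi : ∫ t in S, G t = Real.exp 2 *
        ∫ t in S, Real.exp (-(t - t0) ^ 2 / (2 * (T ^ η1) ^ 2)) * g t := by
      rw [← integral_const_mul]
      congr 1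
      funext t
      simp only [hG]
      ring
    have hkk : -(2 * ∫ t in Icc (t0 - 2 * T ^ η2) (t0 + 2 * T ^ η2) ∩ EE α, G t) - 1 ≤
        -c * T ^ η1 := key.trans key2
    have h8 : 2 ≤ c * T ^ η1 := by
      rw [div_le_iff₀ hc] at s8
      linarith
    rw [hGi] at hmono
    have hexp2 : 0 < Real.exp 2 := Real.exp_pos _
    have h9 : c * T ^ η1 / 4 ≤ Real.exp 2 *
        ∫ t in S, Real.exp (-(t - t0) ^ 2 / (2 * (T ^ η1) ^ 2)) * g t := by linarith
    rw [div_mul_eq_mul_div, div_le_iff₀ (by positivity)]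
    linarith
  have hfub := fub hSm hSb hgc hg0 hTpos.le hHpos hcen
  have h10 : c5 * T ≤ ∫ t in S, g t := by
    have h11 : c / (4 * Real.exp 2) * T ≤ Real.sqrt (2 * Real.pi) * ∫ t in S, g t := by
      have h12 : (c / (4 * Real.exp 2) * T) * T ^ η1 ≤
          (Real.sqrt (2 * Real.pi) * ∫ t in S, g t) * T ^ η1 := by
        calc _ = c / (4 * Real.exp 2) * T ^ η1 * T := by ring
          _ ≤ _ := hfub
          _ = _ := by ring
      exact le_of_mul_le_mul_right h12 hHpos
    have h13 : c5 * T = (c / (4 * Real.exp 2) * T) / Real.sqrt (2 * Real.pi) := by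
      rw [hc5]
      field_simp
    rw [h13, div_le_iff₀ hsq]
    linarith
  -- Hölder
  have hSb' : S ⊆ Icc (T / 2) (3 * T) := hSb.trans (by
    apply Icc_subset_Icc <;> linarith)
  have hf2c : Continuous fun t => Real.exp (C * XX T t) := Real.continuous_exp.comp (hXc.const_mul C)
  have j1 : Continuous fun t => (E t ^ 2) ^ 2 := (hEc.pow 2).pow 2
  have j2 : Continuous fun t => Real.exp (C * XX T t) ^ 4 := hf2c.pow 4
  have j3 : IntegrableOn (fun t => (E t ^ 2) ^ 2) (Icc (T / 2) (3 * T)) := j1.integrableOn_Icc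
  have j4 : IntegrableOn (fun t => Real.exp (C * XX T t) ^ 4) (Icc (T / 2) (3 * T)) :=
    j2.integrableOn_Icc
  have hho := holder_E4 (a := T / 2) (b := 3 * T) hSm hSb' (f := fun t => E t ^ 2)
    (g := fun t => Real.exp (C * XX T t)) (hEc.pow 2).aestronglyMeasurable
    hf2c.aestronglyMeasurable j3 j4
  have i1 : ∫ t in Icc (T / 2) (3 * T), (E t ^ 2) ^ 2 ≤ K * T := by
    rw [integral_Icc_eq_integral_Ioc, ← intervalIntegral.integral_of_le (by linarith)]
    refine le_of_eq_of_le ?_ hE4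
    congr 1
    funext t
    ring
  have i2 : ∫ t in Icc (T / 2) (3 * T), Real.exp (C * XX T t) ^ 4 ≤ C4 * T := by
    rw [integral_Icc_eq_integral_Ioc, ← intervalIntegral.integral_of_le (by linarith)]
    refine le_of_eq_of_le ?_ (hexp T s4).2
    congr 1
    funext t
    rw [← Real.exp_nat_mul]
    congr 1
    unfold XX
    push_cast
    ring
  have i10 : 0 ≤ ∫ t in Icc (T / 2) (3 * T), (E t ^ 2) ^ 2 :=
    integral_nonneg fun t => by positivity
  have i20 : 0 ≤ ∫ t in Icc (T / 2) (3 * T), Real.exp (C * XX T t) ^ 4 :=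
    integral_nonneg fun t => by positivity
  have hV : 0 ≤ volume.real S := measureReal_nonneg
  have h14 : (c5 * T) ^ 4 ≤ volume.real S * (K * T) ^ 2 * (C4 * T) := by
    calc (c5 * T) ^ 4 ≤ (∫ t in S, g t) ^ 4 := pow_le_pow_left₀ (by positivity) h10 4
      _ ≤ _ := hho
      _ ≤ volume.real S * (K * T) ^ 2 * (C4 * T) := by
          apply mul_le_mul _ i2 i20 (by positivity)
          apply mul_le_mul_of_nonneg_left _ hV
          exact pow_le_pow_left₀ i10 i1 2
  have h15 : c5 ^ 4 * T ≤ volume.real S * (K ^ 2 * C4) := by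
    have h16 : (c5 ^ 4 * T) * T ^ 3 ≤ (volume.real S * (K ^ 2 * C4)) * T ^ 3 := by
      calc _ = (c5 * T) ^ 4 := by ring
        _ ≤ _ := h14
        _ = _ := by ring
    exact le_of_mul_le_mul_right h16 (by positivity)
  rw [div_mul_eq_mul_div, div_le_iff₀ (by positivity)]
  exact h15

end Pool.Agent.HalfGap
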