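import Pool.Agent.ZGap.Half.Defs
import Pool.Agent.Lib.Hadamard.Digamma

/-!
# Bounds for the archimedean factor
-/

open Complex Set MeasureTheory Filter
open scoped Topology

namespace Pool.Agent.HalfGap

open Pool.Agent.Hadamard

lemma differentiableAt_Gamma_of_re_pos {z : ℂ} (hz : 0 < z.re) : DifferentiableAt ℂ Complex.Gamma z := by
  apply Complex.differentiableAt_Gamma
  intro m hm
  rw [hm] at hz
  simp at hz
  linarith [Nat.cast_nonneg (α := ℝ) m]

/-! ### Vertical shifts of the Gamma function -/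

lemma differentiableOn_Gamma_right : DifferentiableOn ℂ Complex.Gamma {z : ℂ | 0 < z.re} := by
  intro z hz
  exact (differentiableAt_Gamma_of_re_pos hz).differentiableWithinAt

lemma isOpen_right : IsOpen {z : ℂ | 0 < z.re} := isOpen_lt continuous_const Complex.continuous_re

lemma continuousOn_digamma : ContinuousOn (logDeriv Complex.Gamma) {z : ℂ | 0 < z.re} := by
  have h1 : DifferentiableOn ℂ (deriv Complex.Gamma) {z : ℂ | 0 < z.re} :=
    differentiableOn_Gamma_right.deriv isOpen_right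
  refine h1.continuousOn.div differentiableOn_Gamma_right.continuousOn ?_
  intro z hz
  exact Complex.Gamma_ne_zero_of_re_pos hz

lemma continuous_digamma_line {z : ℂ} (hz : 0 < z.re) :
    Continuous (fun v : ℝ => logDeriv Complex.Gamma (z + v * I)) := by
  refine continuousOn_digamma.comp_continuous (by fun_prop) (fun v => ?_)
  simpa using hz

lemma Gamma_shift {z : ℂ} (hz : 0 < z.re) (β : ℝ) :
    Complex.Gamma (z + β * I) =
      Complex.Gamma z * exp (I * ∫ v in (0:ℝ)..β, logDeriv Complex.Gamma (z + v * I)) := by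
  have hc := continuous_digamma_line hz
  have hprim : ∀ v : ℝ, HasDerivAt (fun v : ℝ => ∫ w in (0:ℝ)..v, logDeriv Complex.Gamma (z + w * I))
      (logDeriv Complex.Gamma (z + v * I)) v := fun v =>
    intervalIntegral.integral_hasDerivAt_right (hc.intervalIntegrable _ _)
      (hc.stronglyMeasurableAtFilter _ _) hc.continuousAt
  have hG : ∀ v : ℝ, HasDerivAt (fun v : ℝ => Complex.Gamma (z + v * I))
      (deriv Complex.Gamma (z + v * I) * I) v := by
    intro v
    have hre : 0 < (z + v * I).re := by simpa using hz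
    have h1 : HasDerivAt Complex.Gamma (deriv Complex.Gamma (z + v * I)) (z + v * I) :=
      (differentiableAt_Gamma_of_re_pos hre).hasDerivAt
    have h2 : HasDerivAt (fun v : ℝ => z + v * I) I v := by
      have := ((Complex.ofRealCLM.hasDerivAt (x := v)).mul_const I).const_add z
      simpa using this
    exact h1.comp v h2
  have key : ∀ v : ℝ, HasDerivAt (fun v : ℝ => Complex.Gamma (z + v * I) *
      exp (-(I * ∫ w in (0:ℝ)..v, logDeriv Complex.Gamma (z + w * I)))) 0 v := by
    intro v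
    have hre : 0 < (z + v * I).re := by simpa using hz
    have h1 := (hG v).mul (((hprim v).const_mul I).neg.cexp)
    refine h1.congr_deriv ?_
    have h3 : deriv Complex.Gamma (z + v * I) = logDeriv Complex.Gamma (z + v * I) * Complex.Gamma (z + v * I) := by
      rw [logDeriv_apply, div_mul_cancel₀ _ (Complex.Gamma_ne_zero_of_re_pos hre)]
    rw [h3]
    simp only [Pi.neg_apply]
    ring
  have hconst := is_const_of_deriv_eq_zero (f := fun v : ℝ => Complex.Gamma (z + v * I) *
      exp (-(I * ∫ w in (0:ℝ)..v, logDeriv Complex.Gamma (z + w * I))))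
      (fun v => (key v).differentiableAt) (fun v => (key v).deriv) β 0
  simp only [ofReal_zero, zero_mul, add_zero, intervalIntegral.integral_same, mul_zero, neg_zero,
    exp_zero, mul_one] at hconst
  rw [← hconst, mul_assoc, ← exp_add]
  simp

lemma abs_im_digamma_le {z : ℂ} (hz : 0 < z.re) (h1 : 1 ≤ ‖z‖) : |(logDeriv Complex.Gamma z).im| ≤ 6 := by
  have h2 := norm_digamma_sub_log_le hz
  have h3 : |(logDeriv Complex.Gamma z - log z).im| ≤ 4 := by
    refine (Complex.abs_im_le_norm _).trans (h2.trans ?_)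
    have h4 : 2 / ‖z‖ ^ 2 ≤ 2 := by
      rw [div_le_iff₀ (by positivity)]; nlinarith
    have h5 : 2 / ‖z‖ ≤ 2 := by
      rw [div_le_iff₀ (by positivity)]; nlinarith
    linarith
  rw [sub_im, log_im] at h3
  have h4 : |arg z| ≤ Real.pi / 2 := Complex.abs_arg_le_pi_div_two_iff.mpr hz.le
  have h5 := Real.pi_lt_d2
  have h6 := abs_le.mp h3
  have h7 := abs_le.mp h4
  rw [abs_le]
  constructor <;> linarith

lemma norm_Gamma_shift {z : ℂ} (hz : 0 < z.re) {β : ℝ} (hβ : 0 ≤ β)
    (h1 : ∀ v ∈ Icc 0 β, 1 ≤ ‖z + (v:ℝ) * I‖) :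
    ‖Complex.Gamma (z + β * I)‖ ≤ Real.exp (6 * β) * ‖Complex.Gamma z‖ := by
  rw [Gamma_shift hz, norm_mul, norm_exp, mul_comm]
  have hc := continuous_digamma_line hz
  gcongr
  have h2 : (I * ∫ v in (0:ℝ)..β, logDeriv Complex.Gamma (z + v * I)).re
      = - (∫ v in (0:ℝ)..β, logDeriv Complex.Gamma (z + v * I)).im := by simp
  rw [h2]
  have h3 : (∫ v in (0:ℝ)..β, logDeriv Complex.Gamma (z + v * I)).im
      = ∫ v in (0:ℝ)..β, (logDeriv Complex.Gamma (z + v * I)).im := by
    have := Complex.imCLM.intervalIntegral_comp_comm (hc.intervalIntegrable 0 β (μ := volume))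
    simpa using this.symm
  rw [h3]
  have h4 := intervalIntegral.norm_integral_le_of_norm_le_const (a := 0) (b := β)
    (f := fun v : ℝ => (logDeriv Complex.Gamma (z + v * I)).im) (C := 6) (fun v hv => by
      rw [uIoc_of_le hβ] at hv
      have hre : 0 < (z + v * I).re := by simpa using hz
      exact abs_im_digamma_le hre (h1 v ⟨hv.1.le, hv.2⟩))
  rw [sub_zero, abs_of_nonneg hβ] at h4
  exact (neg_le_abs _).trans h4

lemma norm_sin_sq (z : ℂ) : ‖Complex.sin z‖ ^ 2 = Real.sin z.re ^ 2 + Real.sinh z.im ^ 2 := by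
  rw [Complex.sq_norm, Complex.sin_eq, Complex.normSq_apply]
  have e1 : (Complex.sin z.re * Complex.cosh z.im + Complex.cos z.re * Complex.sinh z.im * I).re
      = Real.sin z.re * Real.cosh z.im := by
    rw [← Complex.ofReal_sin, ← Complex.ofReal_cos, ← Complex.ofReal_cosh, ← Complex.ofReal_sinh]
    simp only [add_re, mul_re, ofReal_re, ofReal_im, I_re, I_im, mul_im]
    ring
  have e2 : (Complex.sin z.re * Complex.cosh z.im + Complex.cos z.re * Complex.sinh z.im * I).im
      = Real.cos z.re * Real.sinh z.im := by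
    rw [← Complex.ofReal_sin, ← Complex.ofReal_cos, ← Complex.ofReal_cosh, ← Complex.ofReal_sinh]
    simp only [add_im, mul_re, ofReal_re, ofReal_im, I_re, I_im, mul_im]
    ring
  rw [e1, e2]
  have h1 := Real.cosh_sq z.im
  have h2 := Real.sin_sq_add_cos_sq z.re
  nlinarith

lemma norm_sin_mono {z w : ℂ} (hre : z.re = w.re) (h0 : 0 ≤ z.im) (him : z.im ≤ w.im) :
    ‖Complex.sin z‖ ≤ ‖Complex.sin w‖ := by
  have h1 := norm_sin_sq z
  have h2 := norm_sin_sq w
  rw [← hre] at h2
  have h3 : Real.sinh z.im ≤ Real.sinh w.im := Real.sinh_le_sinh.mpr him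
  have h4 : 0 ≤ Real.sinh z.im := Real.sinh_nonneg_iff.mpr h0
  have h5 : ‖Complex.sin z‖ ^ 2 ≤ ‖Complex.sin w‖ ^ 2 := by rw [h1, h2]; gcongr
  exact le_of_sq_le_sq h5 (norm_nonneg _)

lemma sin_ne_zero_of_im {z : ℂ} (h : 0 < z.im) : Complex.sin z ≠ 0 := by
  intro h0
  have h1 := norm_sin_sq z
  rw [h0, norm_zero] at h1
  have h2 : 0 < Real.sinh z.im := Real.sinh_pos_iff.mpr h
  nlinarith [sq_nonneg (Real.sin z.re)]

lemma Gamma_ne_zero_of_im {z : ℂ} (h : z.im ≠ 0) : Complex.Gamma z ≠ 0 := by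
  apply Complex.Gamma_ne_zero
  intro m hm
  apply h
  rw [hm]
  simp

lemma norm_Gamma_ratio {z : ℂ} (him : 1 ≤ z.im) {β : ℝ} (hβ : 0 ≤ β) :
    ‖Complex.Gamma (z + β * I)‖ ≤ Real.exp (6 * β) * ‖Complex.Gamma z‖ := by
  rcases lt_or_ge 0 z.re with hz | hz
  · refine norm_Gamma_shift hz hβ (fun v hv => ?_)
    have h1 : |(z + (v:ℝ) * I).im| ≤ ‖z + (v:ℝ) * I‖ := Complex.abs_im_le_norm _
    have h2 : (z + (v:ℝ) * I).im = z.im + v := by simp
    rw [h2] at h1
    exact (by linarith [hv.1] : 1 ≤ z.im + v).trans ((le_abs_self _).trans h1)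
  · set w : ℂ := 1 - z - β * I with hw
    have hwre : 0 < w.re := by
      rw [hw]; simp; linarith
    have h1 : ‖Complex.Gamma (w + β * I)‖ ≤ Real.exp (6 * β) * ‖Complex.Gamma w‖ := by
      refine norm_Gamma_shift hwre hβ (fun v hv => ?_)
      have h1 : |(w + (v:ℝ) * I).im| ≤ ‖w + (v:ℝ) * I‖ := Complex.abs_im_le_norm _
      have h2 : (w + (v:ℝ) * I).im = -(z.im + β - v) := by rw [hw]; simp; ring
      rw [h2, abs_neg] at h1
      exact (by linarith [hv.2] : 1 ≤ z.im + β - v).trans ((le_abs_self _).trans h1)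
    have hwz : w + β * I = 1 - z := by rw [hw]; ring
    rw [hwz] at h1
    have g1 := Complex.Gamma_mul_Gamma_one_sub z
    have g2 := Complex.Gamma_mul_Gamma_one_sub (z + β * I)
    have hw2 : 1 - (z + β * I) = w := by rw [hw]; ring
    rw [hw2] at g2
    have hpi := Real.pi_pos
    have him1 : ((Real.pi : ℂ) * z).im = Real.pi * z.im := by simp
    have him2 : ((Real.pi : ℂ) * (z + β * I)).im = Real.pi * (z.im + β) := by simp
    have s1 : Complex.sin (Real.pi * z) ≠ 0 := sin_ne_zero_of_im (by rw [him1]; positivity)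
    have s2 : Complex.sin (Real.pi * (z + β * I)) ≠ 0 := sin_ne_zero_of_im (by rw [him2]; positivity)
    have s3 : ‖Complex.sin (Real.pi * z)‖ ≤ ‖Complex.sin (Real.pi * (z + β * I))‖ := by
      apply norm_sin_mono
      · simp
      · rw [him1]; positivity
      · rw [him1, him2]; gcongr; linarith
    have n1 : ‖Complex.Gamma z‖ * ‖Complex.Gamma (1 - z)‖ * ‖Complex.sin (Real.pi * z)‖ = Real.pi := by
      rw [← norm_mul, ← norm_mul, g1, div_mul_cancel₀ _ s1]
      simp [abs_of_pos hpi]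
    have n2 : ‖Complex.Gamma (z + β * I)‖ * ‖Complex.Gamma w‖ * ‖Complex.sin (Real.pi * (z + β * I))‖
        = Real.pi := by
      rw [← norm_mul, ← norm_mul, g2, div_mul_cancel₀ _ s2]
      simp [abs_of_pos hpi]
    have p1 : 0 < ‖Complex.Gamma w‖ := norm_pos_iff.mpr (Complex.Gamma_ne_zero_of_re_pos hwre)
    have p2 : 0 < ‖Complex.sin (Real.pi * z)‖ := norm_pos_iff.mpr s1
    have p3 : 0 < ‖Complex.Gamma z‖ := norm_pos_iff.mpr (Gamma_ne_zero_of_im (by linarith))
    -- compare
    have c1 : ‖Complex.Gamma (z + β * I)‖ * (‖Complex.Gamma w‖ * ‖Complex.sin (Real.pi * z)‖) ≤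
        (Real.exp (6 * β) * ‖Complex.Gamma z‖) * (‖Complex.Gamma w‖ * ‖Complex.sin (Real.pi * z)‖) := by
      calc ‖Complex.Gamma (z + β * I)‖ * (‖Complex.Gamma w‖ * ‖Complex.sin (Real.pi * z)‖)
          ≤ ‖Complex.Gamma (z + β * I)‖ * (‖Complex.Gamma w‖ * ‖Complex.sin (Real.pi * (z + β * I))‖) := by
            gcongr
        _ = ‖Complex.Gamma (z + β * I)‖ * ‖Complex.Gamma w‖ * ‖Complex.sin (Real.pi * (z + β * I))‖ := by ring
        _ = Real.pi := n2
        _ = ‖Complex.Gamma z‖ * ‖Complex.Gamma (1 - z)‖ * ‖Complex.sin (Real.pi * z)‖ := n1.symm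
        _ ≤ ‖Complex.Gamma z‖ * (Real.exp (6 * β) * ‖Complex.Gamma w‖) * ‖Complex.sin (Real.pi * z)‖ := by
            gcongr
        _ = _ := by ring
    exact le_of_mul_le_mul_right c1 (by positivity)

/-! ### The archimedean factor -/

lemma gam_eq {α : ℝ} {s : ℂ} (hs : 0 < s.im) :
    gam α s = ((s + α * I) * (s + α * I - 1)) / (s * (s - 1)) * exp (-(((α / 2 : ℝ) * Real.log Real.pi : ℝ) * I)) *
      (Complex.Gamma (s / 2 + (α / 2 : ℝ) * I) / Complex.Gamma (s / 2)) := by
  have hpi : (Real.pi : ℂ) ≠ 0 := by exact_mod_cast Real.pi_ne_zero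
  have e1 : (s + α * I) / 2 = s / 2 + (α / 2 : ℝ) * I := by push_cast; ring
  unfold gam
  rw [Complex.Gammaℝ_def, Complex.Gammaℝ_def, e1]
  have h1 : (Real.pi : ℂ) ^ (-(s + α * I) / 2) = (Real.pi : ℂ) ^ (-s / 2) *
      exp (-(((α / 2 : ℝ) * Real.log Real.pi : ℝ) * I)) := by
    have e2 : -(s + α * I) / 2 = -s / 2 + -((α / 2 : ℝ) * I) := by push_cast; ring
    rw [e2, Complex.cpow_add _ _ hpi]
    congr 1
    rw [Complex.cpow_def_of_ne_zero hpi, ← Complex.ofReal_log Real.pi_pos.le]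
    congr 1
    push_cast
    ring
  rw [h1]
  have h2 : (Real.pi : ℂ) ^ (-s / 2) ≠ 0 := by
    rw [Complex.cpow_def_of_ne_zero hpi]; exact exp_ne_zero _
  have him : (s / 2).im = s.im / 2 := by
    have : s / 2 = s * ((1/2 : ℝ) : ℂ) := by push_cast; ring
    rw [this, Complex.mul_im]; simp; ring
  have h3 : Complex.Gamma (s / 2) ≠ 0 := Gamma_ne_zero_of_im (by rw [him]; positivity)
  have h4 : s ≠ 0 := by rintro rfl; simp at hs
  have h5 : s - 1 ≠ 0 := by
    intro h
    have : s = 1 := by linear_combination h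
    rw [this] at hs; simp at hs
  field_simp

/-- (a) -/
lemma differentiableOn_gam {α : ℝ} (hα : 0 ≤ α) : DifferentiableOn ℂ (gam α) {s | 0 < s.im} := by
  intro s hs
  have hs' : 0 < s.im := hs
  have d : ∀ w : ℂ, 0 < w.im → DifferentiableAt ℂ Gammaℝ w := by
    intro w hw
    have h1 : DifferentiableAt ℂ (fun s : ℂ => (Real.pi : ℂ) ^ (-s / 2) * Complex.Gamma (s / 2)) w := by
      refine DifferentiableAt.mul ?_ ?_
      · have hpi : (Real.pi : ℂ) ≠ 0 := by exact_mod_cast Real.pi_ne_zero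
        exact DifferentiableAt.const_cpow (by fun_prop) (Or.inl hpi)
      · have h2 : DifferentiableAt ℂ Complex.Gamma (w / 2) := by
          apply Complex.differentiableAt_Gamma
          intro m hm
          have : w = -(2 * m : ℂ) := by linear_combination 2 * hm
          rw [this] at hw
          simp at hw
        exact h2.comp w (by fun_prop)
    exact h1
  have hne : ∀ w : ℂ, 0 < w.im → Gammaℝ w ≠ 0 := by
    intro w hw
    rw [Complex.Gammaℝ_def]
    refine mul_ne_zero ?_ ?_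
    · have hpi : (Real.pi : ℂ) ≠ 0 := by exact_mod_cast Real.pi_ne_zero
      rw [Complex.cpow_def_of_ne_zero hpi]; exact exp_ne_zero _
    · apply Complex.Gamma_ne_zero
      intro m hm
      have : w = -(2 * m : ℂ) := by linear_combination 2 * hm
      rw [this] at hw
      simp at hw
  have h4 : s ≠ 0 := by rintro rfl; simp at hs'
  have h5 : s - 1 ≠ 0 := by
    intro h
    have : s = 1 := by linear_combination h
    rw [this] at hs'; simp at hs'
  have him : 0 < (s + α * I).im := by simp; linarith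
  have dsh : DifferentiableAt ℂ (fun s : ℂ => s + α * I) s := by fun_prop
  have d1 : DifferentiableAt ℂ (fun s : ℂ => Gammaℝ (s + α * I)) s :=
    DifferentiableAt.comp (g := Gammaℝ) (f := fun s : ℂ => s + α * I) s (d _ him) dsh
  have d2 : DifferentiableAt ℂ (fun s : ℂ => (s + α * I) * (s + α * I - 1) * Gammaℝ (s + α * I)) s :=
    (by fun_prop : DifferentiableAt ℂ (fun s : ℂ => (s + α * I) * (s + α * I - 1)) s).mul d1
  have d3 : DifferentiableAt ℂ (fun s : ℂ => s * (s - 1) * Gammaℝ s) s :=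
    (by fun_prop : DifferentiableAt ℂ (fun s : ℂ => s * (s - 1)) s).mul (d s hs')
  exact (d2.div d3 (mul_ne_zero (mul_ne_zero h4 h5) (hne s hs'))).differentiableWithinAt

lemma norm_poly_sub_one {α : ℝ} {s : ℂ} (hs : 1 ≤ s.im) (hα : 0 ≤ α) :
    ‖((s + α * I) * (s + α * I - 1)) / (s * (s - 1)) - 1‖ ≤ (2 * α + α ^ 2) / s.im := by
  have h4 : s ≠ 0 := by rintro rfl; simp at hs; linarith
  have h5 : s - 1 ≠ 0 := by
    intro h
    have : s = 1 := by linear_combination h
    rw [this] at hs; simp at hs; linarith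
  have n1 : s.im ≤ ‖s‖ := (le_abs_self _).trans (Complex.abs_im_le_norm s)
  have n2 : s.im ≤ ‖s - 1‖ := by
    have := Complex.abs_im_le_norm (s - 1)
    simp only [sub_im, one_im, sub_zero] at this
    exact (le_abs_self _).trans this
  have hsp : 0 < s.im := by linarith
  have e1 : ((s + α * I) * (s + α * I - 1)) / (s * (s - 1)) - 1
      = (α * I) / s + (α * I) / (s - 1) + (α * I) / s * ((α * I) / (s - 1)) := by
    field_simp
    ring
  rw [e1]
  have b1 : ‖(α * I : ℂ) / s‖ ≤ α / s.im := by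
    rw [norm_div, norm_mul, norm_I, mul_one, norm_real, Real.norm_eq_abs, abs_of_nonneg hα]
    gcongr
  have b2 : ‖(α * I : ℂ) / (s - 1)‖ ≤ α / s.im := by
    rw [norm_div, norm_mul, norm_I, mul_one, norm_real, Real.norm_eq_abs, abs_of_nonneg hα]
    gcongr
  calc ‖(α * I : ℂ) / s + (α * I) / (s - 1) + (α * I) / s * ((α * I) / (s - 1))‖
      ≤ ‖(α * I : ℂ) / s‖ + ‖(α * I : ℂ) / (s - 1)‖ + ‖(α * I : ℂ) / s‖ * ‖(α * I : ℂ) / (s - 1)‖ := by
        refine (norm_add_le _ _).trans ?_
        rw [norm_mul]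
        gcongr
        exact norm_add_le _ _
    _ ≤ α / s.im + α / s.im + (α / s.im) * (α / s.im) := by gcongr
    _ ≤ α / s.im + α / s.im + (α / s.im) * (α / 1) := by gcongr
    _ = (2 * α + α ^ 2) / s.im := by field_simp; ring

lemma im_half (s : ℂ) : (s / 2).im = s.im / 2 := by
  have : s / 2 = s * ((1/2 : ℝ) : ℂ) := by push_cast; ring
  rw [this, Complex.mul_im]; simp; ring

/-- (b), in a uniform form -/
lemma norm_gam_le' {α : ℝ} {s : ℂ} (hs : 2 ≤ s.im) (hα : 0 ≤ α) :
    ‖gam α s‖ ≤ (1 + (2 * α + α ^ 2)) * Real.exp (3 * α) := by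
  rw [gam_eq (by linarith), norm_mul, norm_mul]
  have h1 : ‖((s + α * I) * (s + α * I - 1)) / (s * (s - 1))‖ ≤ 1 + (2 * α + α ^ 2) := by
    have h2 := norm_poly_sub_one (α := α) (s := s) (by linarith) hα
    have h3 : (2 * α + α ^ 2) / s.im ≤ 2 * α + α ^ 2 := by
      apply div_le_self (by positivity) (by linarith)
    have h4 := norm_sub_norm_le (((s + α * I) * (s + α * I - 1)) / (s * (s - 1))) 1
    rw [norm_one] at h4
    linarith
  have h2 : ‖exp (-(((α / 2 : ℝ) * Real.log Real.pi : ℝ) * I))‖ = 1 := by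
    rw [norm_exp]; simp
  have h3 : ‖Complex.Gamma (s / 2 + (α / 2 : ℝ) * I) / Complex.Gamma (s / 2)‖ ≤ Real.exp (3 * α) := by
    have h4 := norm_Gamma_ratio (z := s / 2) (by rw [im_half]; linarith) (β := α / 2) (by positivity)
    have h5 : 0 < ‖Complex.Gamma (s / 2)‖ :=
      norm_pos_iff.mpr (Gamma_ne_zero_of_im (by rw [im_half]; linarith))
    rw [norm_div, div_le_iff₀ h5]
    refine h4.trans (le_of_eq ?_)
    congr 2
    ring
  rw [h2, mul_one]
  gcongr

/-- (b) -/
lemma norm_gam_le (A : ℝ) (hA : 0 < A) : ∃ C T0 : ℝ, 0 < C ∧ 0 < T0 ∧ ∀ T, T0 ≤ T → ∀ α : ℝ, 0 ≤ α →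
    α ≤ A / Real.log T → ∀ s : ℂ, T / 8 ≤ s.im → ‖gam α s‖ ≤ C := by
  refine ⟨(1 + (2 * A + A ^ 2)) * Real.exp (3 * A), 16, by positivity, by norm_num, ?_⟩
  intro T hT α hα hαA s hs
  have hlog : 1 ≤ Real.log T := by
    rw [Real.le_log_iff_exp_le (by linarith)]
    have := Real.exp_one_lt_d9
    linarith
  have hαA' : α ≤ A := hαA.trans (div_le_self hA.le hlog)
  refine (norm_gam_le' (by linarith) hα).trans ?_
  gcongr

lemma norm_log_sub_log {y : ℝ} (hy : 0 < y) {w : ℂ} (hw : y ≤ w.im) :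
    ‖log w - log (y * I)‖ ≤ 1 / y * ‖w - y * I‖ := by
  have hconv : Convex ℝ {w : ℂ | y ≤ w.im} := by
    have : {w : ℂ | y ≤ w.im} = Complex.imLm ⁻¹' (Ici y) := rfl
    rw [this]
    exact (convex_Ici y).linear_preimage _
  refine hconv.norm_image_sub_le_of_norm_hasDerivWithin_le (f := log) (f' := fun w => w⁻¹) (C := 1 / y) ?_ ?_ ?_ ?_
  · intro x hx
    have hx' : y ≤ x.im := hx
    refine (Complex.hasDerivAt_log ?_).hasDerivWithinAt
    rw [Complex.mem_slitPlane_iff]
    right; linarith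
  · intro x hx
    have hx' : y ≤ x.im := hx
    rw [norm_inv, ← one_div]
    have : y ≤ ‖x‖ := hx'.trans ((le_abs_self _).trans (Complex.abs_im_le_norm x))
    gcongr
  · change y ≤ ((y:ℂ) * I).im
    simp
  · exact hw

lemma log_mul_I {y : ℝ} (hy : 0 < y) : log ((y:ℂ) * I) = (Real.log y : ℂ) + (Real.pi / 2 : ℝ) * I := by
  have h1 : log ((y:ℂ) * I) = Real.log y + log I := by
    exact Complex.log_ofReal_mul hy I_ne_zero
  rw [h1, Complex.log_I]
  push_cast
  ring

/-- (c), uniform form -/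
lemma norm_gam_sub' {α : ℝ} (hα : 0 ≤ α) {t : ℝ} (ht : 2 ≤ t) (hE : α * (10 + α) ≤ t) :
    ‖gam α (2 + t * I) - exp (((-(Real.pi * α / 4) : ℝ) : ℂ) + ((α / 2) * Real.log (t / (2 * Real.pi)) : ℝ) * I)‖
      ≤ ((2 * α + α ^ 2) * 3 + 2 * (α * (10 + α))) / t := by
  set s : ℂ := 2 + t * I with hs
  have him : s.im = t := by simp [hs]
  have hre : s.re = 2 := by simp [hs]
  set β : ℝ := α / 2 with hβ
  have hβ0 : 0 ≤ β := by positivity
  have hz : s / 2 = 1 + (t / 2 : ℝ) * I := by rw [hs]; push_cast; ring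
  have hzre : 0 < (s / 2).re := by rw [hz]; simp
  set J : ℂ := ∫ v in (0:ℝ)..β, logDeriv Complex.Gamma (s / 2 + v * I) with hJ
  have hcd := continuous_digamma_line hzre
  have ht0 : 0 < t := by linarith
  -- the integral
  have hJ1 : ‖J - (β : ℂ) * log ((t / 2 : ℝ) * I)‖ ≤ (10 + 2 * β) / t * β := by
    have e1 : (β : ℂ) * log ((t / 2 : ℝ) * I) = ∫ v in (0:ℝ)..β, log ((t / 2 : ℝ) * I) := by
      rw [intervalIntegral.integral_const]; simp
    rw [hJ, e1, ← intervalIntegral.integral_sub (hcd.intervalIntegrable _ _) intervalIntegrable_const]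
    have h4 := intervalIntegral.norm_integral_le_of_norm_le_const (a := 0) (b := β)
      (f := fun v : ℝ => logDeriv Complex.Gamma (s / 2 + v * I) - log ((t / 2 : ℝ) * I)) (C := (10 + 2 * β) / t)
      (fun v hv => by
        rw [uIoc_of_le hβ0] at hv
        set w : ℂ := s / 2 + v * I with hw
        have hwre : 0 < w.re := by rw [hw]; simpa using hzre
        have hwim : w.im = t / 2 + v := by rw [hw, hz]; simp
        have hwn : t / 2 ≤ ‖w‖ := by
          have := (le_abs_self _).trans (Complex.abs_im_le_norm w)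
          rw [hwim] at this
          linarith [hv.1]
        have hwpos : 0 < ‖w‖ := by linarith
        have h1 := norm_digamma_sub_log_le hwre
        have h2 : 2 / ‖w‖ ^ 2 + 2 / ‖w‖ ≤ 8 / t := by
          have h3 : 2 / ‖w‖ ^ 2 ≤ 2 / ‖w‖ := by
            have : ‖w‖ ≤ ‖w‖ ^ 2 := by nlinarith
            gcongr
          have h4 : 2 / ‖w‖ ≤ 4 / t := by
            rw [div_le_div_iff₀ hwpos ht0]; linarith
          have h5 : 8 / t = 4 / t + 4 / t := by ring
          linarith
        have h3 := norm_log_sub_log (y := t / 2) (by positivity) (w := w) (by rw [hwim]; linarith [hv.1])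
        have h5 : ‖w - (t / 2 : ℝ) * I‖ ≤ 1 + β := by
          have : w - (t / 2 : ℝ) * I = 1 + v * I := by rw [hw, hz]; ring
          rw [this]
          refine (norm_add_le _ _).trans ?_
          rw [norm_one, norm_mul, norm_I, mul_one, norm_real, Real.norm_eq_abs, abs_of_pos hv.1]
          linarith [hv.2]
        have h6 : ‖log w - log ((t / 2 : ℝ) * I)‖ ≤ (2 + 2 * β) / t := by
          refine h3.trans ?_
          calc 1 / (t / 2) * ‖w - (t / 2 : ℝ) * I‖ ≤ 1 / (t / 2) * (1 + β) := by gcongr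
            _ = (2 + 2 * β) / t := by field_simp
        have h7 : logDeriv Complex.Gamma w - log ((t / 2 : ℝ) * I) =
            (logDeriv Complex.Gamma w - log w) + (log w - log ((t / 2 : ℝ) * I)) := by ring
        rw [h7]
        refine (norm_add_le _ _).trans ?_
        have h8 : (10 + 2 * β) / t = 8 / t + (2 + 2 * β) / t := by ring
        rw [h8]
        exact add_le_add (h1.trans h2) h6)
    rw [sub_zero, abs_of_nonneg hβ0] at h4
    exact h4
  set E1 : ℂ := I * (J - (β : ℂ) * log ((t / 2 : ℝ) * I)) with hE1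
  have hE1n : ‖E1‖ ≤ α * (10 + α) / (2 * t) := by
    rw [hE1, norm_mul, norm_I, one_mul]
    refine hJ1.trans (le_of_eq ?_)
    rw [hβ]; field_simp
  have hE1one : ‖E1‖ ≤ 1 := by
    refine hE1n.trans ?_
    rw [div_le_one (by positivity)]
    linarith
  set P : ℂ := ((s + α * I) * (s + α * I - 1)) / (s * (s - 1)) with hP
  have hP1 : ‖P - 1‖ ≤ (2 * α + α ^ 2) / t := by
    have := norm_poly_sub_one (α := α) (s := s) (by rw [him]; linarith) hα
    rwa [him] at this
  set X : ℂ := ((-(Real.pi * α / 4) : ℝ) : ℂ) + ((α / 2) * Real.log (t / (2 * Real.pi)) : ℝ) * I with hX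
  have hgam : gam α s = exp X * (P * exp E1) := by
    rw [gam_eq (by rw [him]; linarith), Gamma_shift hzre, mul_div_cancel_left₀ _
      (Complex.Gamma_ne_zero_of_re_pos hzre)]
    have e2 : exp X * (P * exp E1) = P * (exp (X + E1)) := by rw [exp_add X E1]; ring
    rw [e2, ← hJ, mul_assoc, ← exp_add]
    congr 2
    rw [hE1, hX, log_mul_I (by positivity)]
    have hl : Real.log (t / (2 * Real.pi)) = Real.log (t / 2) - Real.log Real.pi := by
      rw [← Real.log_div (by positivity) (by positivity)]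
      congr 1
      field_simp
    rw [hl, hβ]
    push_cast
    ring_nf
    rw [I_sq]
    ring
  rw [hgam]
  have e3 : exp X * (P * exp E1) - exp X = exp X * ((P - 1) * exp E1 + (exp E1 - 1)) := by ring
  rw [e3, norm_mul]
  have hXn : ‖exp X‖ ≤ 1 := by
    rw [norm_exp, Real.exp_le_one_iff, hX]
    have : 0 ≤ Real.pi * α / 4 := by positivity
    simp
    linarith
  have h9 : ‖exp E1‖ ≤ 3 := by
    rw [norm_exp]
    have h1 : E1.re ≤ 1 := (Complex.re_le_norm E1).trans hE1one
    have h2 : Real.exp E1.re ≤ Real.exp 1 := Real.exp_le_exp.mpr h1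
    have := Real.exp_one_lt_d9
    linarith
  have h10 : ‖exp E1 - 1‖ ≤ 2 * ‖E1‖ := Complex.norm_exp_sub_one_le hE1one
  have hP0 : 0 ≤ (2 * α + α ^ 2) / t := by positivity
  calc ‖exp X‖ * ‖(P - 1) * exp E1 + (exp E1 - 1)‖ ≤ 1 * ((2 * α + α ^ 2) / t * 3 + 2 * (α * (10 + α) / (2 * t))) := by
        refine mul_le_mul hXn ?_ (norm_nonneg _) zero_le_one
        refine (norm_add_le _ _).trans ?_
        rw [norm_mul]
        gcongr
        exact h10.trans (by gcongr)
    _ ≤ ((2 * α + α ^ 2) * 3 + 2 * (α * (10 + α))) / t := by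
        rw [one_mul, div_mul_eq_mul_div, add_div]
        gcongr
        have h11 : 2 * (α * (10 + α) / (2 * t)) = (α * (10 + α)) / t := by field_simp
        rw [h11]
        have h12 : 0 ≤ α * (10 + α) := by positivity
        have h13 : α * (10 + α) ≤ 2 * (α * (10 + α)) := by linarith
        exact div_le_div_of_nonneg_right h13 ht0.le

/-- (c) -/
lemma norm_gam_sub (A : ℝ) (hA : 0 < A) : ∃ C T0 : ℝ, 0 < C ∧ 0 < T0 ∧ ∀ T, T0 ≤ T → ∀ α : ℝ, 0 ≤ α →
    α ≤ A / Real.log T → ∀ t : ℝ, T / 8 ≤ t →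
    ‖gam α (2 + t * I) - exp (((-(Real.pi * α / 4) : ℝ) : ℂ) + ((α / 2) * Real.log (t / (2 * Real.pi)) : ℝ) * I)‖
      ≤ C / T := by
  refine ⟨8 * ((2 * A + A ^ 2) * 3 + 2 * (A * (10 + A))), 16 + 8 * (A * (10 + A)), by positivity, by positivity, ?_⟩
  intro T hT α hα hαA t ht
  have hAA : 0 < A * (10 + A) := by positivity
  have hT0 : 0 < T := by linarith
  have hlog : 1 ≤ Real.log T := by
    rw [Real.le_log_iff_exp_le (by linarith)]
    have := Real.exp_one_lt_d9
    linarith
  have hαA' : α ≤ A := hαA.trans (div_le_self hA.le hlog)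
  have h1 : α * (10 + α) ≤ A * (10 + A) := by gcongr
  refine (norm_gam_sub' hα (t := t) (by linarith) (by linarith)).trans ?_
  have ht0 : 0 < t := by linarith
  rw [div_le_div_iff₀ ht0 hT0]
  have h2 : ((2 * α + α ^ 2) * 3 + 2 * (α * (10 + α))) ≤ ((2 * A + A ^ 2) * 3 + 2 * (A * (10 + A))) := by gcongr
  have h3 : T ≤ 8 * t := by linarith
  calc ((2 * α + α ^ 2) * 3 + 2 * (α * (10 + α))) * T ≤ ((2 * A + A ^ 2) * 3 + 2 * (A * (10 + A))) * (8 * t) := by
        gcongr
    _ = _ := by ring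

end Pool.Agent.HalfGap
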