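import Pool.Agent.ZGap.Half.ExpMom1
import Pool.Agent.SqFull.RHBound
import Pool.Agent.ZGap.Res.D1

/-!
# Selberg's inequality for `ξ'/ξ` near the critical line, under RH
-/

namespace Pool.Agent.HalfGap

open MeasureTheory Set Pool.Agent.Hadamard Pool.Agent.ZGap Pool.Agent.DirPoly Complex

/-- The point `1/2 + δ + it`. -/
noncomputable def ss (δ t : ℝ) : ℂ := ((1 / 2 + δ : ℝ) : ℂ) + t * I

@[simp] lemma ss_re (δ t : ℝ) : (ss δ t).re = 1 / 2 + δ := by simp [ss]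

@[simp] lemma ss_im (δ t : ℝ) : (ss δ t).im = t := by simp [ss]

lemma ss_add (δ h t : ℝ) : ss δ t + h = ss (δ + h) t := by
  unfold ss; push_cast; ring

lemma ss_notMem (hRH : RiemannHypothesis) {δ : ℝ} (hδ : 0 < δ) (t : ℝ) : ss δ t ∉ ntz := by
  intro h
  have := re_half hRH ⟨_, h⟩
  simp at this
  linarith

lemma ss_sub (hRH : RiemannHypothesis) (δ t : ℝ) (ρ : ntz) :
    ss δ t - (ρ : ℂ) = (δ : ℂ) + ((t - (ρ : ℂ).im : ℝ) : ℂ) * I := by
  have h := re_half hRH ρ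
  apply Complex.ext
  · simp [h]
  · simp

lemma sq_norm_ss (δ x : ℝ) : ‖(δ : ℂ) + (x : ℂ) * I‖ ^ 2 = δ ^ 2 + x ^ 2 := by
  rw [Complex.sq_norm, Complex.normSq_apply]
  simp
  ring

lemma re_one_div_ss (δ x : ℝ) : (1 / ((δ : ℂ) + (x : ℂ) * I)).re = δ / (δ ^ 2 + x ^ 2) := by
  rw [one_div, Complex.inv_re, ← Complex.sq_norm, sq_norm_ss]
  simp

/-- The Poisson sum over the zeros. -/
theorem hasSum_re_ss (hRH : RiemannHypothesis) {δ : ℝ} (hδ : 0 < δ) (t : ℝ) :
    HasSum (fun ρ : ntz => (mult ρ : ℝ) * (δ / (δ ^ 2 + (t - (ρ : ℂ).im) ^ 2)))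
      (logDeriv xiF (ss δ t)).re := by
  have hw : ss 1 t ∉ ntz := ss_notMem hRH one_pos t
  have h1 := hasSum_complex_zeros (ss_notMem hRH hδ t) hw
  have h2 := (Complex.hasSum_iff _ _).mp h1 |>.1
  have h3 := hasSum_re_zeros_xi (s := ss 1 t) (by simp)
  have h4 := h2.add h3
  have e1 : (logDeriv xiF (ss δ t) - logDeriv xiF (ss 1 t)).re + (logDeriv xiF (ss 1 t)).re =
      (logDeriv xiF (ss δ t)).re := by
    rw [Complex.sub_re]; ring
  rw [e1] at h4
  convert h4 using 1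
  funext ρ
  have e2 : ((mult ρ : ℂ) * (1 / (ss δ t - ρ) - 1 / (ss 1 t - ρ))).re =
      (mult ρ : ℝ) * ((1 / (ss δ t - ρ)).re - (1 / (ss 1 t - ρ)).re) := by
    rw [← Complex.ofReal_natCast, Complex.re_ofReal_mul, Complex.sub_re]
  rw [e2, ss_sub hRH δ, re_one_div_ss]
  ring

lemma norm_xi_le (hRH : RiemannHypothesis) : ∃ C : ℝ, 0 < C ∧ ∀ s : ℂ, 1 ≤ s.re → s.re ≤ 3 →
    ‖logDeriv xiF s‖ ≤ C * Real.log (|s.im| + 2) := by
  obtain ⟨C, hC, h1⟩ := SqFull.norm_QQ_le hRH (η := 1 / 2) (by norm_num) (by norm_num)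
  refine ⟨C + 54, by positivity, fun s hs hs3 => ?_⟩
  have h2 := h1 s (by linarith) hs3
  have h3 := SqFull.norm_digamma_half_le (s := s) (by linarith) hs3
  have hL : (1:ℝ) / 2 ≤ Real.log (|s.im| + 2) := one_half_le_log s.im
  have e : logDeriv xiF s = SqFull.QQ s + 1 / s - (Real.log Real.pi : ℂ) / 2 +
      logDeriv Complex.Gamma (s / 2) / 2 := by
    rw [SqFull.QQ]; ring
  have n1 : ‖1 / s‖ ≤ 1 := by
    rw [norm_div, norm_one]
    have hge : (1:ℝ) ≤ ‖s‖ := hs.trans (re_le_norm s)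
    rw [div_le_one (by linarith)]; exact hge
  have n2 : ‖(Real.log Real.pi : ℂ) / 2‖ ≤ 1 := by
    rw [norm_div, Complex.norm_real, Complex.norm_ofNat, Real.norm_eq_abs,
      abs_of_nonneg (Real.log_nonneg (by linarith [Real.pi_gt_three]))]
    have h5 : Real.log Real.pi ≤ Real.log 4 :=
      Real.log_le_log Real.pi_pos Real.pi_lt_four.le
    have h6 : Real.log 4 = 2 * Real.log 2 := by
      rw [show (4:ℝ) = 2 ^ 2 by norm_num, Real.log_pow]; norm_num
    have := Real.log_two_lt_d9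
    linarith
  have n3 : ‖logDeriv Complex.Gamma (s / 2) / 2‖ ≤ 50 * Real.log (|s.im| + 2) := by
    rw [norm_div, Complex.norm_ofNat]; linarith
  rw [e]
  have q1 := norm_add_le (SqFull.QQ s + 1 / s - (Real.log Real.pi : ℂ) / 2)
    (logDeriv Complex.Gamma (s / 2) / 2)
  have q2 := norm_sub_le (SqFull.QQ s + 1 / s) ((Real.log Real.pi : ℂ) / 2)
  have q3 := norm_add_le (SqFull.QQ s) (1 / s)
  linarith

/-- **Selberg's inequality** (RH): `ξ'/ξ(1/2+δ+it)` is bounded by a short Dirichlet polynomial. -/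
theorem xi_bound (hRH : RiemannHypothesis) : ∃ C : ℝ, 0 < C ∧ ∀ (δ D t : ℝ) (x : ℕ), 0 < δ →
    δ ≤ 1 / 4 → 1 ≤ D → 64 ≤ D * δ → Real.exp D ≤ x + 1 → 1 ≤ t →
    ‖logDeriv xiF (ss δ t)‖ ≤ 2 * ‖vmPoly (fun n => bkc δ D (Real.log n)) x t‖ +
      C * Real.log (t + 2) + C * (1 / δ) ^ 6 * Real.exp D / t := by
  obtain ⟨C, hC, hxi⟩ := norm_xi_le hRH
  refine ⟨14 * C + 12800, by positivity, fun δ D t x hδ hδ1 hD hDδ hx ht => ?_⟩
  have hD0 : 0 < D := by linarith
  obtain ⟨S, hS, hSb⟩ := (bkc_adm hδ hδ1 hD).explicit hRH hx ht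
  have hh : ∀ h : ℝ, 0 ≤ h → ss (δ + h) t ∉ ntz := fun h hh => ss_notMem hRH (by linarith) t
  have a1 := hasSum_complex_zeros (ss_notMem hRH hδ t) (hh (1 / 2) (by norm_num))
  have a2 := hasSum_complex_zeros (hh (1 / 2) (by norm_num)) (hh 1 (by norm_num))
  have a3 := hasSum_complex_zeros (hh 1 (by norm_num)) (hh (3 / 2) (by norm_num))
  have a4 := (a1.add (a2.mul_left (-2))).add a3
  have hre := hasSum_re_ss hRH hδ t
  set G := logDeriv xiF (ss δ t) with hG
  set G1 := logDeriv xiF (ss (δ + 1 / 2) t) with hG1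
  set G2 := logDeriv xiF (ss (δ + 1) t) with hG2
  set G3 := logDeriv xiF (ss (δ + 3 / 2) t) with hG3
  have a5 := hS.sub a4
  -- termwise bound
  have hb : ∀ ρ : ntz, ‖(mult ρ : ℂ) * OneSided.ff (bkc δ D) (t - (ρ : ℂ).im) -
      ((mult ρ : ℂ) * (1 / (ss δ t - ρ) - 1 / (ss (δ + 1 / 2) t - ρ)) +
        -2 * ((mult ρ : ℂ) * (1 / (ss (δ + 1 / 2) t - ρ) - 1 / (ss (δ + 1) t - ρ))) +
        (mult ρ : ℂ) * (1 / (ss (δ + 1) t - ρ) - 1 / (ss (δ + 3 / 2) t - ρ)))‖ ≤
      32 / (D * δ) * ((mult ρ : ℝ) * (δ / (δ ^ 2 + (t - (ρ : ℂ).im) ^ 2))) := by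
    intro ρ
    rw [ff_bkc hD0]
    set z : ℂ := (δ : ℂ) + ((t - (ρ : ℂ).im : ℝ) : ℂ) * I with hz
    have z0 : ss δ t - ρ = z := ss_sub hRH δ t ρ
    have z1 : ss (δ + 1 / 2) t - ρ = z + 1 / 2 := by
      rw [ss_sub hRH, hz]; push_cast; ring
    have z2 : ss (δ + 1) t - ρ = z + 1 := by
      rw [ss_sub hRH, hz]; push_cast; ring
    have z3 : ss (δ + 3 / 2) t - ρ = z + 3 / 2 := by
      rw [ss_sub hRH, hz]; push_cast; ring
    have zre : z.re = δ := by simp [hz]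
    have hk := norm_K4_sub_le hD (z := z) (by rw [zre]; exact hδ) (by rw [zre]; exact hDδ)
    rw [z0, z1, z2, z3]
    have e : (mult ρ : ℂ) * K4 D z - ((mult ρ : ℂ) * (1 / z - 1 / (z + 1 / 2)) +
        -2 * ((mult ρ : ℂ) * (1 / (z + 1 / 2) - 1 / (z + 1))) +
        (mult ρ : ℂ) * (1 / (z + 1) - 1 / (z + 3 / 2))) =
        (mult ρ : ℂ) * (K4 D z - (1 / z - 3 * (1 / (z + 1 / 2)) + 3 * (1 / (z + 1)) -
          1 / (z + 3 / 2))) := by ring
    rw [e, norm_mul, Complex.norm_natCast]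
    rw [hz, sq_norm_ss, ← hz] at hk
    calc (mult ρ : ℝ) * ‖K4 D z - (1 / z - 3 * (1 / (z + 1 / 2)) + 3 * (1 / (z + 1)) -
          1 / (z + 3 / 2))‖ ≤ (mult ρ : ℝ) * (32 / (D * (δ ^ 2 + (t - (ρ : ℂ).im) ^ 2))) := by
          gcongr
      _ = _ := by
          field_simp
  have a6 := tsum_of_norm_bounded (hre.mul_left (32 / (D * δ))) hb
  rw [a5.tsum_eq] at a6
  have h32 : 32 / (D * δ) * G.re ≤ 1 / 2 * ‖G‖ := by
    have h1 : 32 / (D * δ) ≤ 1 / 2 := by
      rw [div_le_div_iff₀ (by positivity) (by norm_num)]; linarith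
    have h2 : 0 ≤ 32 / (D * δ) := by positivity
    calc 32 / (D * δ) * G.re ≤ 32 / (D * δ) * ‖G‖ := by
          gcongr; exact re_le_norm G
      _ ≤ _ := by gcongr
  have him : ∀ δ' : ℝ, |(ss δ' t).im| = t := fun δ' => by
    rw [ss_im, abs_of_pos (by linarith)]
  have b1 := hxi (ss (δ + 1 / 2) t) (by simp; linarith) (by simp; linarith)
  have b2 := hxi (ss (δ + 1) t) (by simp; linarith) (by simp; linarith)
  have b3 := hxi (ss (δ + 3 / 2) t) (by simp; linarith) (by simp; linarith)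
  rw [him, ← hG1] at b1
  rw [him, ← hG2] at b2
  rw [him, ← hG3] at b3
  have e7 : G = (S + vmPoly (fun n => bkc δ D (Real.log n)) x t) -
      vmPoly (fun n => bkc δ D (Real.log n)) x t -
      (S - (G - G1 + -2 * (G1 - G2) + (G2 - G3))) + 3 * G1 - 3 * G2 + G3 := by ring
  have h8 : ‖G‖ ≤ 32 * (200 * (1 / δ) ^ 6 * Real.exp D) / t +
      ‖vmPoly (fun n => bkc δ D (Real.log n)) x t‖ + 1 / 2 * ‖G‖ + 7 * (C * Real.log (t + 2)) := by
    have q1 := norm_add_le ((S + vmPoly (fun n => bkc δ D (Real.log n)) x t) -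
      vmPoly (fun n => bkc δ D (Real.log n)) x t -
      (S - (G - G1 + -2 * (G1 - G2) + (G2 - G3))) + 3 * G1 - 3 * G2) G3
    rw [← e7] at q1
    have q2 := norm_sub_le ((S + vmPoly (fun n => bkc δ D (Real.log n)) x t) -
      vmPoly (fun n => bkc δ D (Real.log n)) x t -
      (S - (G - G1 + -2 * (G1 - G2) + (G2 - G3))) + 3 * G1) (3 * G2)
    have q3 := norm_add_le ((S + vmPoly (fun n => bkc δ D (Real.log n)) x t) -
      vmPoly (fun n => bkc δ D (Real.log n)) x t -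
      (S - (G - G1 + -2 * (G1 - G2) + (G2 - G3)))) (3 * G1)
    have q4 := norm_sub_le ((S + vmPoly (fun n => bkc δ D (Real.log n)) x t) -
      vmPoly (fun n => bkc δ D (Real.log n)) x t)
      (S - (G - G1 + -2 * (G1 - G2) + (G2 - G3)))
    have q5 := norm_sub_le (S + vmPoly (fun n => bkc δ D (Real.log n)) x t)
      (vmPoly (fun n => bkc δ D (Real.log n)) x t)
    rw [norm_mul, Complex.norm_ofNat] at q2 q3
    linarith
  have hlog : 0 ≤ Real.log (t + 2) := Real.log_nonneg (by linarith)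
  have e9 : (14 * C + 12800) * (1 / δ) ^ 6 * Real.exp D / t =
      14 * C * ((1 / δ) ^ 6 * Real.exp D / t) + 12800 * ((1 / δ) ^ 6 * Real.exp D / t) := by ring
  have e10 : 32 * (200 * (1 / δ) ^ 6 * Real.exp D) / t =
      6400 * ((1 / δ) ^ 6 * Real.exp D / t) := by ring
  have hp : 0 ≤ (1 / δ) ^ 6 * Real.exp D / t := by positivity
  rw [e9]
  rw [e10] at h8
  have : 0 ≤ 14 * C * ((1 / δ) ^ 6 * Real.exp D / t) := by positivity
  have : 0 ≤ 12800 * Real.log (t + 2) := by positivity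
  linarith

/-- Comparison of the local quantities at two scales. -/
theorem local_le (hRH : RiemannHypothesis) {T : ℝ} (hT : 1 ≤ Real.log T) {y : ℝ} (hy : 1 ≤ y)
    (t : ℝ) :
    Res.FM.W1 T t + |(logDeriv xiF (ss (1 / Real.log T) t)).im / Real.log T| ≤
      (1 + 2 * y) * ‖logDeriv xiF (ss (y / Real.log T) t)‖ / Real.log T := by
  set L := Real.log T with hL
  have hL0 : 0 < L := by linarith
  have hy0 : 0 < y := by linarith
  set G := logDeriv xiF (ss (y / L) t) with hG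
  set G1 := logDeriv xiF (ss (1 / L) t) with hG1
  have h1 := hasSum_re_ss hRH (δ := 1 / L) (by positivity) t
  have h2 := hasSum_re_ss hRH (δ := y / L) (by positivity) t
  rw [← hG1] at h1
  rw [← hG] at h2
  -- W1 ≤ y Re G / L
  have hW : Res.FM.W1 T t ≤ y * G.re / L := by
    have h3 := (Res.FM.W1_summable hRH (T := T) hT t).hasSum
    have h4 := h2.mul_left (y / L)
    have h5 : (∑' ρ : ntz, (mult ρ : ℝ) * (1 / (1 + (Real.log T * (t - (ρ : ℂ).im)) ^ 2))) ≤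
        y / L * G.re := by
      refine hasSum_le (fun ρ => ?_) h3 h4
      rw [← hL]
      have e : y / L * ((mult ρ : ℝ) * (y / L / ((y / L) ^ 2 + (t - (ρ : ℂ).im) ^ 2))) =
          (mult ρ : ℝ) * (y ^ 2 / (y ^ 2 + (L * (t - (ρ : ℂ).im)) ^ 2)) := by
        field_simp
      rw [e]
      apply mul_le_mul_of_nonneg_left _ (by positivity)
      rw [div_le_div_iff₀ (by positivity) (by positivity)]
      have : 1 ≤ y ^ 2 := one_le_pow₀ hy
      nlinarith [sq_nonneg (L * (t - (ρ : ℂ).im))]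
    calc Res.FM.W1 T t ≤ y / L * G.re := h5
      _ = _ := by ring
  -- |G1 - G| ≤ y Re G
  have hdiff : ‖G1 - G‖ ≤ y * G.re := by
    have h3 := hasSum_complex_zeros (ss_notMem hRH (δ := 1 / L) (by positivity) t)
      (ss_notMem hRH (δ := y / L) (by positivity) t)
    have h4 := h2.mul_left y
    have h5 := tsum_of_norm_bounded (f := fun ρ : ntz => (mult ρ : ℂ) *
      (1 / (ss (1 / L) t - ρ) - 1 / (ss (y / L) t - ρ))) h4 (fun ρ => by
      rw [norm_mul, Complex.norm_natCast, ss_sub hRH, ss_sub hRH]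
      set x := t - (ρ : ℂ).im with hx
      set p : ℂ := ((1 / L : ℝ) : ℂ) + (x : ℂ) * I with hp
      set q : ℂ := ((y / L : ℝ) : ℂ) + (x : ℂ) * I with hq
      have n1 : ‖p‖ ^ 2 = (1 / L) ^ 2 + x ^ 2 := sq_norm_ss _ _
      have n2 : ‖q‖ ^ 2 = (y / L) ^ 2 + x ^ 2 := sq_norm_ss _ _
      have hp0 : 0 < ‖p‖ := by
        by_contra h
        have : ‖p‖ = 0 := le_antisymm (not_lt.mp h) (norm_nonneg _)
        rw [this] at n1
        have : 0 < (1 / L) ^ 2 := by positivity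
        nlinarith [sq_nonneg x]
      have hq0 : 0 < ‖q‖ := by
        by_contra h
        have : ‖q‖ = 0 := le_antisymm (not_lt.mp h) (norm_nonneg _)
        rw [this] at n2
        have : 0 < (y / L) ^ 2 := by positivity
        nlinarith [sq_nonneg x]
      have hqp : ‖q‖ ≤ y * ‖p‖ := by
        apply le_of_sq_le_sq ?_ (by positivity) |> fun h => h
        rw [mul_pow, n1, n2, div_pow, div_pow, one_pow, mul_add]
        have : 1 ≤ y ^ 2 := one_le_pow₀ hy
        have h6 : y ^ 2 * (1 / L ^ 2) = y ^ 2 / L ^ 2 := by ring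
        rw [h6]
        nlinarith [sq_nonneg x]
      have e1 : 1 / p - 1 / q = (q - p) / (p * q) := by
        have := norm_pos_iff.mp hp0
        have := norm_pos_iff.mp hq0
        field_simp
      have e2 : ‖q - p‖ = (y - 1) / L := by
        have : q - p = (((y - 1) / L : ℝ) : ℂ) := by
          rw [hp, hq]; push_cast; ring
        rw [this, Complex.norm_real, Real.norm_of_nonneg (by
          apply div_nonneg <;> linarith)]
      rw [e1, norm_div, norm_mul, e2, ← n2]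
      have e3 : y * ((mult ρ : ℝ) * (y / L / ‖q‖ ^ 2)) = (mult ρ : ℝ) * (y * (y / L / ‖q‖ ^ 2)) := by
        ring
      rw [e3]
      gcongr
      rw [div_le_iff₀ (by positivity)]
      have e4 : y * (y / L / ‖q‖ ^ 2) * (‖p‖ * ‖q‖) = y / L * (y * ‖p‖) / ‖q‖ := by
        field_simp
      rw [e4, le_div_iff₀ hq0]
      have : (y - 1) / L ≤ y / L := by gcongr; linarith
      calc (y - 1) / L * ‖q‖ ≤ y / L * (y * ‖p‖) := by gcongr
        _ = _ := rfl)
    rw [h3.tsum_eq] at h5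
    exact h5
  have hG0 : G.re ≤ ‖G‖ := re_le_norm G
  have hI : |G1.im| ≤ ‖G‖ + y * ‖G‖ := by
    have h6 : G1.im = (G1 - G).im + G.im := by simp
    rw [h6]
    have h7 := abs_add_le (G1 - G).im G.im
    have h8 := abs_im_le_norm (G1 - G)
    have h9 := abs_im_le_norm G
    have h10 : y * G.re ≤ y * ‖G‖ := by gcongr
    linarith
  rw [abs_div, abs_of_pos hL0]
  have h11 : y * G.re / L ≤ y * ‖G‖ / L := by gcongr
  have h12 : |G1.im| / L ≤ (‖G‖ + y * ‖G‖) / L := by gcongr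
  calc _ ≤ y * ‖G‖ / L + (‖G‖ + y * ‖G‖) / L := by linarith
    _ = _ := by ring

end Pool.Agent.HalfGap
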