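import Pool.Agent.ZGap.Half.Sqf
import Pool.Agent.ZGap.Half.Trace

/-!
# The diagonal term for the Möbius polynomial and its sign
-/

namespace Pool.Agent.HalfGap

open Complex Finset
open scoped ArithmeticFunction.Moebius ArithmeticFunction.zeta

/-- the index pairs of `|V|²` -/
def QV (X : ℕ) : Finset (ℕ × ℕ) := Icc 1 X ×ˢ Icc 1 X

/-- the coefficients of `|V|²`, `V(s) = ∑_{n ≤ X} μ(n) n^{-s-iα}` -/
noncomputable def bV (α : ℝ) (p : ℕ × ℕ) : ℂ :=
  ((μ p.1 : ℤ) : ℂ) * ((μ p.2 : ℤ) : ℂ) * ((((p.1 : ℝ) * p.2) ^ (-(1:ℝ) / 2) : ℝ) : ℂ) *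
    Complex.exp ((α * (Real.log p.2 - Real.log p.1) : ℝ) * I)

/-- the frequencies of `|V|²` -/
noncomputable def wV (p : ℕ × ℕ) : ℝ := Real.log p.1 - Real.log p.2

lemma wV_sep {X : ℕ} {p : ℕ × ℕ} (hp : p ∈ QV X) {k : ℕ} (hk : 1 ≤ k) :
    wV p + Real.log k = 0 ∨ 1 / ((X:ℝ) + 1) ≤ |wV p + Real.log k| := by
  obtain ⟨m, n⟩ := p
  unfold QV at hp
  rw [mem_product, mem_Icc, mem_Icc] at hp
  obtain ⟨⟨hm1, hmX⟩, hn1, hnX⟩ := hp
  simp only at hm1 hmX hn1 hnX
  unfold wV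
  simp only
  have hm : (0:ℝ) < m := by exact_mod_cast hm1
  have hn : (0:ℝ) < n := by exact_mod_cast hn1
  have hkr : (0:ℝ) < k := by exact_mod_cast hk
  have hnXr : (n:ℝ) ≤ X := by exact_mod_cast hnX
  have e1 : Real.log m - Real.log n + Real.log k = Real.log ((m * k : ℕ) : ℝ) - Real.log n := by
    push_cast
    rw [Real.log_mul hm.ne' hkr.ne']; ring
  rw [e1]
  rcases Nat.lt_trichotomy (m * k) n with h | h | h
  · right
    have hmk : (0:ℝ) < ((m * k : ℕ) : ℝ) := by push_cast; positivity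
    have h1 : ((m * k : ℕ) : ℝ) ≤ n - 1 := by
      have : ((m * k + 1 : ℕ) : ℝ) ≤ n := by exact_mod_cast h
      push_cast at this ⊢; linarith
    have h2 : Real.log (((m * k : ℕ) : ℝ) / n) ≤ ((m * k : ℕ) : ℝ) / n - 1 :=
      Real.log_le_sub_one_of_pos (by positivity)
    rw [Real.log_div hmk.ne' hn.ne'] at h2
    have h3 : ((m * k : ℕ) : ℝ) / n - 1 ≤ -(1 / n) := by
      rw [div_sub_one hn.ne', ← neg_div, div_le_div_iff_of_pos_right hn]
      linarith
    have h4 : 1 / ((X:ℝ) + 1) ≤ 1 / n := one_div_le_one_div_of_le hn (by linarith)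
    rw [abs_of_nonpos (by have : (0:ℝ) < 1 / n := by positivity
                          linarith)]
    linarith
  · left
    rw [h, sub_self]
  · right
    have hmk : (0:ℝ) < ((m * k : ℕ) : ℝ) := by push_cast; positivity
    have h1 : (n:ℝ) + 1 ≤ ((m * k : ℕ) : ℝ) := by exact_mod_cast h
    have h2 := Real.one_sub_inv_le_log_of_pos (show (0:ℝ) < ((m * k : ℕ) : ℝ) / n by positivity)
    rw [Real.log_div hmk.ne' hn.ne', inv_div] at h2
    have h3 : 1 / ((n:ℝ) + 1) ≤ 1 - n / ((m * k : ℕ) : ℝ) := by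
      have h5 : (n:ℝ) / ((m * k : ℕ) : ℝ) ≤ n / (n + 1) :=
        div_le_div_of_nonneg_left hn.le (by linarith) h1
      have h6 : (n:ℝ) / (n + 1) = 1 - 1 / (n + 1) := by field_simp; ring
      linarith
    have h4 : 1 / ((X:ℝ) + 1) ≤ 1 / ((n:ℝ) + 1) := one_div_le_one_div_of_le (by linarith) (by linarith)
    exact (h4.trans (h3.trans h2)).trans (le_abs_self _)

/-- on the critical line the family is `|V|²` -/
lemma BV_eq (α t : ℝ) (X : ℕ) :
    ∑ p ∈ QV X, bV α p * Complex.exp (-wV p * ((1 / 2 + t * I) - 1 / 2)) =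
      ((‖∑ m ∈ Icc 1 X, ((μ m : ℤ) : ℂ) * (((m:ℝ) ^ (-(1:ℝ) / 2) : ℝ) : ℂ) *
        Complex.exp ((-((t + α) * Real.log m) : ℝ) * I)‖ ^ 2 : ℝ) : ℂ) := by
  set f : ℕ → ℂ := fun m => ((μ m : ℤ) : ℂ) * (((m:ℝ) ^ (-(1:ℝ) / 2) : ℝ) : ℂ) *
        Complex.exp ((-((t + α) * Real.log m) : ℝ) * I) with hf
  have h1 : ((‖∑ m ∈ Icc 1 X, f m‖ ^ 2 : ℝ) : ℂ) = (∑ m ∈ Icc 1 X, f m) *
      (starRingEnd ℂ) (∑ m ∈ Icc 1 X, f m) := by
    rw [Complex.mul_conj, Complex.normSq_eq_norm_sq]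
  rw [h1, map_sum, Finset.sum_mul_sum, QV, Finset.sum_product]
  refine Finset.sum_congr rfl fun m hm => Finset.sum_congr rfl fun n hn => ?_
  simp only [hf, bV, wV]
  rw [map_mul, map_mul, ← Complex.exp_conj, map_mul, Complex.conj_ofReal, Complex.conj_ofReal,
    Complex.conj_I, map_intCast, Real.mul_rpow (by positivity) (by positivity)]
  have h2 : Complex.exp ((α * (Real.log n - Real.log m) : ℝ) * I) *
      Complex.exp (-((Real.log m - Real.log n : ℝ) : ℂ) * ((1 / 2 + t * I) - 1 / 2)) =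
      Complex.exp ((-((t + α) * Real.log m) : ℝ) * I) *
      Complex.exp ((-((t + α) * Real.log n) : ℝ) * -I) := by
    rw [← Complex.exp_add, ← Complex.exp_add]
    congr 1
    push_cast
    ring
  calc _ = ((μ m : ℤ) : ℂ) * ((μ n : ℤ) : ℂ) * (((m:ℝ) ^ (-(1:ℝ) / 2) * (n:ℝ) ^ (-(1:ℝ) / 2) : ℝ) : ℂ) *
      (Complex.exp ((α * (Real.log n - Real.log m) : ℝ) * I) *
      Complex.exp (-((Real.log m - Real.log n : ℝ) : ℂ) * ((1 / 2 + t * I) - 1 / 2))) := by ring
    _ = _ := by rw [h2]; push_cast; ring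

/-- twisted Möbius function -/
noncomputable def tmu (α : ℝ) : ArithmeticFunction ℂ :=
  ⟨fun n => ((μ n : ℤ) : ℂ) * Complex.exp ((α * Real.log n : ℝ) * I), by simp⟩

lemma tmu_apply (α : ℝ) (n : ℕ) : tmu α n = ((μ n : ℤ) : ℂ) * Complex.exp ((α * Real.log n : ℝ) * I) := rfl

lemma tw_gco (α : ℝ) {k : ℕ} (hk : k ≠ 0) :
    Complex.exp ((α * Real.log k : ℝ) * I) * gco α k = (tmu α * (ζ : ArithmeticFunction ℂ)) k := by
  rw [ArithmeticFunction.mul_apply, gco, Finset.mul_sum]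
  refine Finset.sum_congr rfl fun d hd => ?_
  rw [Nat.mem_divisorsAntidiagonal] at hd
  have hd1 : d.1 ≠ 0 := by intro h; rw [h, zero_mul] at hd; exact hd.2 hd.1.symm
  have hd2 : d.2 ≠ 0 := by intro h; rw [h, mul_zero] at hd; exact hd.2 hd.1.symm
  have hr1 : (0:ℝ) < d.1 := by exact_mod_cast Nat.pos_of_ne_zero hd1
  have hr2 : (0:ℝ) < d.2 := by exact_mod_cast Nat.pos_of_ne_zero hd2
  rw [ArithmeticFunction.natCoe_apply, ArithmeticFunction.zeta_apply, if_neg hd2, tmu_apply, Nat.cast_one,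
    mul_one, ← hd.1, Nat.cast_mul, Real.log_mul hr1.ne' hr2.ne',
    Complex.cpow_def_of_ne_zero (by exact_mod_cast hd2), ← Complex.ofReal_natCast,
    ← Complex.ofReal_log hr2.le]
  have : Complex.exp ((α * (Real.log d.1 + Real.log d.2) : ℝ) * I) *
      Complex.exp ((Real.log d.2 : ℂ) * -(α * I)) = Complex.exp ((α * Real.log d.1 : ℝ) * I) := by
    rw [← Complex.exp_add]
    congr 1
    push_cast
    ring
  calc Complex.exp ((α * (Real.log d.1 + Real.log d.2) : ℝ) * I) * (((μ d.1 : ℤ) : ℂ) *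
      Complex.exp ((Real.log d.2 : ℂ) * -(α * I))) = ((μ d.1 : ℤ) : ℂ) *
      (Complex.exp ((α * (Real.log d.1 + Real.log d.2) : ℝ) * I) *
      Complex.exp ((Real.log d.2 : ℂ) * -(α * I))) := by ring
    _ = _ := by rw [this]

lemma conv_tmu (α : ℝ) (n : ℕ) :
    ∑ d ∈ n.divisorsAntidiagonal, ((μ d.1 : ℤ) : ℂ) *
      (tmu α * (ζ : ArithmeticFunction ℂ)) d.2 = tmu α n := by
  have h1 : (μ : ArithmeticFunction ℂ) * (tmu α * (ζ : ArithmeticFunction ℂ)) = tmu α := by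
    rw [mul_comm (tmu α), ← mul_assoc, ArithmeticFunction.coe_moebius_mul_coe_zeta, one_mul]
  have h2 := congrArg (fun f : ArithmeticFunction ℂ => f n) h1
  simp only [ArithmeticFunction.mul_apply (f := (μ : ArithmeticFunction ℂ)),
    ArithmeticFunction.intCoe_apply] at h2
  exact h2

theorem Mdiag_eq (α : ℝ) (X : ℕ) : Mdiag (QV X) (bV α) wV α = Ms α X := by
  classical
  unfold Mdiag QV
  -- the inner sum
  have hin : ∀ m ∈ Icc 1 X, ∀ n ∈ Icc 1 X, (∑' k : ℕ, (if k ≠ 0 ∧ wV (m, n) + Real.log k = 0 then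
      gco α k * ((k:ℝ) ^ (-(1:ℝ) / 2) : ℝ) else 0)) =
      if m ∣ n then gco α (n / m) * ((((n / m : ℕ) : ℝ) ^ (-(1:ℝ) / 2) : ℝ) : ℂ) else 0 := by
    intro m hm n hn
    rw [mem_Icc] at hm hn
    have hmr : (0:ℝ) < m := by exact_mod_cast hm.1
    have hnr : (0:ℝ) < n := by exact_mod_cast hn.1
    have hiff : ∀ k : ℕ, k ≠ 0 → (wV (m, n) + Real.log k = 0 ↔ m * k = n) := by
      intro k hk
      have hkr : (0:ℝ) < k := by exact_mod_cast Nat.pos_of_ne_zero hk
      unfold wV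
      simp only
      have e1 : Real.log m - Real.log n + Real.log k = Real.log ((m * k : ℕ) : ℝ) - Real.log n := by
        push_cast
        rw [Real.log_mul hmr.ne' hkr.ne']; ring
      rw [e1, sub_eq_zero]
      constructor
      · intro h
        have := Real.log_injOn_pos (show ((m * k : ℕ) : ℝ) ∈ Set.Ioi 0 by
          rw [Set.mem_Ioi]; push_cast; positivity) (show (n:ℝ) ∈ Set.Ioi 0 from hnr) h
        exact_mod_cast this
      · intro h
        rw [h]
    split_ifs with hdvd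
    · obtain ⟨k0, rfl⟩ := hdvd
      have hk0 : k0 ≠ 0 := by rintro rfl; simp at hn
      rw [Nat.mul_div_cancel_left k0 hm.1]
      rw [tsum_eq_single k0]
      · rw [if_pos ⟨hk0, (hiff k0 hk0).mpr rfl⟩]
      · intro k hk
        rw [if_neg]
        rintro ⟨h1, h2⟩
        have := (hiff k h1).mp h2
        exact hk (Nat.eq_of_mul_eq_mul_left hm.1 this)
    · have h0 : (fun k : ℕ => (if k ≠ 0 ∧ wV (m, n) + Real.log k = 0 then
          gco α k * (((k:ℝ) ^ (-(1:ℝ) / 2) : ℝ) : ℂ) else 0)) = fun _ => 0 := by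
        funext k
        rw [if_neg]
        rintro ⟨h1, h2⟩
        exact hdvd ⟨k, ((hiff k h1).mp h2).symm⟩
      rw [h0, tsum_zero]
  rw [Finset.sum_product_right]
  unfold Ms
  refine Finset.sum_congr rfl fun n hn => ?_
  have hn' := mem_Icc.mp hn
  have hn0 : n ≠ 0 := by omega
  have hnr : (0:ℝ) < n := by exact_mod_cast hn'.1
  calc ∑ m ∈ Icc 1 X, bV α (m, n) * ∑' k : ℕ, (if k ≠ 0 ∧ wV (m, n) + Real.log k = 0 then
      gco α k * ((k:ℝ) ^ (-(1:ℝ) / 2) : ℝ) else 0)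
      = ∑ m ∈ Icc 1 X, (if m ∣ n then bV α (m, n) *
        (gco α (n / m) * ((((n / m : ℕ) : ℝ) ^ (-(1:ℝ) / 2) : ℝ) : ℂ)) else 0) := by
        refine Finset.sum_congr rfl fun m hm => ?_
        rw [hin m hm n hn]
        split_ifs <;> simp
    _ = ∑ m ∈ n.divisors, bV α (m, n) *
        (gco α (n / m) * ((((n / m : ℕ) : ℝ) ^ (-(1:ℝ) / 2) : ℝ) : ℂ)) := by
        rw [← Finset.sum_filter]
        refine Finset.sum_congr ?_ fun _ _ => rfl
        ext m
        rw [mem_filter, mem_Icc, Nat.mem_divisors]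
        constructor
        · rintro ⟨_, h⟩; exact ⟨h, hn0⟩
        · rintro ⟨h, _⟩
          exact ⟨⟨Nat.pos_of_dvd_of_pos h hn'.1, (Nat.le_of_dvd hn'.1 h).trans hn'.2⟩, h⟩
    _ = ∑ d ∈ n.divisorsAntidiagonal, bV α (d.1, n) *
        (gco α d.2 * ((((d.2 : ℕ) : ℝ) ^ (-(1:ℝ) / 2) : ℝ) : ℂ)) := by
        rw [Nat.sum_divisorsAntidiagonal (f := fun x y => bV α (x, n) *
          (gco α y * ((((y : ℕ) : ℝ) ^ (-(1:ℝ) / 2) : ℝ) : ℂ)))]
    _ = ((μ n : ℤ) : ℂ) * ((1 / (n:ℝ) : ℝ) : ℂ) * ∑ d ∈ n.divisorsAntidiagonal,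
        ((μ d.1 : ℤ) : ℂ) * (tmu α * (ζ : ArithmeticFunction ℂ)) d.2 := by
        rw [Finset.mul_sum]
        refine Finset.sum_congr rfl fun d hd => ?_
        rw [Nat.mem_divisorsAntidiagonal] at hd
        have hd1 : d.1 ≠ 0 := by intro h; rw [h, zero_mul] at hd; exact hd.2 hd.1.symm
        have hd2 : d.2 ≠ 0 := by intro h; rw [h, mul_zero] at hd; exact hd.2 hd.1.symm
        have hr1 : (0:ℝ) < d.1 := by exact_mod_cast Nat.pos_of_ne_zero hd1
        have hr2 : (0:ℝ) < d.2 := by exact_mod_cast Nat.pos_of_ne_zero hd2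
        rw [← tw_gco α hd2]
        unfold bV
        simp only
        have h1 : Real.log n - Real.log d.1 = Real.log d.2 := by
          rw [← hd.1, Nat.cast_mul, Real.log_mul hr1.ne' hr2.ne']; ring
        rw [h1]
        have h2 : ((d.1 : ℝ) * n) ^ (-(1:ℝ) / 2) * ((d.2 : ℝ) ^ (-(1:ℝ) / 2)) = 1 / (n:ℝ) := by
          rw [← Real.mul_rpow (by positivity) (by positivity)]
          have h3 : (d.1 : ℝ) * n * d.2 = (n:ℝ) ^ (2:ℝ) := by
            rw [Real.rpow_two, ← hd.1]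
            push_cast
            ring
          rw [h3, ← Real.rpow_mul hnr.le]
          norm_num
          rw [Real.rpow_neg_one]
        rw [← h2]
        push_cast
        ring
    _ = ((μ n : ℤ) : ℂ) ^ 2 * (n : ℂ) ^ (-1 + α * I : ℂ) := by
        rw [conv_tmu, tmu_apply, cpow_eq_exp hn'.1]
        push_cast
        ring

/-- The main term is negative. -/
theorem main_sign {τ : ℝ} (h1 : 1 / 2 < τ) (h2 : τ < 1) :
    ∃ c : ℝ, 0 < c ∧ ∃ T0 : ℝ, ∀ T : ℝ, T0 ≤ T →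
      (Complex.exp ((2 * Real.pi * τ / Real.log T / 2 * Real.log (T / (2 * Real.pi)) : ℝ) * I) *
        Ms (2 * Real.pi * τ / Real.log T) ⌊T ^ (1 / (2 * τ))⌋₊).im ≤ -c * Real.log T := by
  have hτ0 : 0 < τ := by linarith
  set κ : ℝ := 1 / (2 * τ) with hκ
  have hκ0 : 0 < κ := by positivity
  have hκ1 : κ < 1 := by rw [hκ, div_lt_one (by positivity)]; linarith
  have hpi := Real.pi_pos
  have hcos : Real.cos (Real.pi * τ) < 0 := by
    apply Real.cos_neg_of_pi_div_two_lt_of_lt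
    · linarith only [mul_lt_mul_of_pos_left h1 hpi]
    · linarith only [mul_lt_mul_of_pos_left h2 hpi, hpi]
  set K : ℝ := 2 * Real.pi * (2 + (2 + 4 * Real.pi) * Z1) + (2 + 4 * Real.pi) * Z1 + 1 with hK
  have hZ := Z1_nonneg
  have hK0 : 0 ≤ K := by positivity
  set c1 : ℝ := -(6 / (Real.pi ^ 3 * τ) * Real.cos (Real.pi * τ)) with hc1
  have hc10 : 0 < c1 := by
    rw [hc1]
    have : 0 < 6 / (Real.pi ^ 3 * τ) := by positivity
    exact neg_pos.mpr (mul_neg_of_pos_of_neg this hcos)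
  refine ⟨c1 / 2, by positivity, ?_⟩
  have ev : ∀ᶠ T : ℝ in Filter.atTop, max (2 * Real.pi) (2 * K / c1) ≤ Real.log T :=
    Real.tendsto_log_atTop.eventually_ge_atTop _
  have ev2 : ∀ᶠ T : ℝ in Filter.atTop, (2:ℝ) ≤ T ^ κ :=
    (tendsto_rpow_atTop hκ0).eventually_ge_atTop _
  have ev3 := (ev.and ev2).and (Filter.eventually_ge_atTop (2 : ℝ))
  rw [Filter.eventually_atTop] at ev3
  obtain ⟨T0, hT0⟩ := ev3
  refine ⟨T0, fun T hT => ?_⟩
  obtain ⟨⟨hlog, hTκ⟩, hT2⟩ := hT0 T hT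
  set l := Real.log T with hl
  have hl1 : 2 * Real.pi ≤ l := (le_max_left _ _).trans hlog
  have hl2 : 2 * K / c1 ≤ l := (le_max_right _ _).trans hlog
  have hl0 : 0 < l := by linarith
  have hTpos : (0:ℝ) < T := by linarith
  set α : ℝ := 2 * Real.pi * τ / l with hα
  have hα0 : 0 < α := by positivity
  have hα1 : α ≤ 1 := by
    rw [hα, div_le_one hl0]
    exact (mul_le_of_le_one_right (by positivity) h2.le).trans hl1
  have hαl : α * l = 2 * Real.pi * τ := by rw [hα]; field_simp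
  set X := ⌊T ^ κ⌋₊ with hX
  have hX1 : 1 ≤ X := Nat.le_floor (by push_cast; linarith)
  have hXr : (1:ℝ) ≤ X := by exact_mod_cast hX1
  have hXle : (X:ℝ) ≤ T ^ κ := Nat.floor_le (by positivity)
  have hXge : T ^ κ ≤ 2 * X := by
    have := (Nat.lt_floor_add_one (T ^ κ)).le
    rw [← hX] at this
    linarith
  have hlogTκ : Real.log (T ^ κ) = κ * l := Real.log_rpow hTpos κ
  have hlogX : Real.log X ≤ l := by
    have := Real.log_le_log (by linarith) hXle
    rw [hlogTκ] at this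
    exact this.trans (mul_le_of_le_one_left hl0.le hκ1.le)
  have hlogX0 : 0 ≤ Real.log X := Real.log_nonneg hXr
  have hαX : α * Real.log X ≤ 2 * Real.pi := by
    calc α * Real.log X ≤ α * l := by gcongr
      _ = 2 * Real.pi * τ := hαl
      _ ≤ 2 * Real.pi := mul_le_of_le_one_right (by positivity) h2.le
  -- pieces
  have hMs := Ms_asymp hα0 hα1 hX1
  have hMs' : ‖Ms α X - ((6 / Real.pi ^ 2 : ℝ) : ℂ) * Lf α X‖ ≤ (2 + 4 * Real.pi) * Z1 := by
    refine hMs.trans (mul_le_mul_of_nonneg_right ?_ hZ)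
    linarith only [hαX, hpi]
  have h6 : (6:ℝ) / Real.pi ^ 2 ≤ 1 := by
    rw [div_le_one (by positivity)]
    have := Real.pi_gt_three
    nlinarith only [this, hpi]
  have hLX := norm_Lf_le hα0 hXr
  have hMsn : ‖Ms α X‖ ≤ l + (2 + 4 * Real.pi) * Z1 := by
    calc ‖Ms α X‖ = ‖(Ms α X - ((6 / Real.pi ^ 2 : ℝ) : ℂ) * Lf α X) + ((6 / Real.pi ^ 2 : ℝ) : ℂ) * Lf α X‖ := by
          congr 1; ring
      _ ≤ (2 + 4 * Real.pi) * Z1 + l := by
          refine (norm_add_le _ _).trans (add_le_add hMs' ?_)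
          rw [norm_mul, Complex.norm_real, Real.norm_of_nonneg (by positivity)]
          calc (6:ℝ) / Real.pi ^ 2 * ‖Lf α X‖ ≤ 1 * l := by
                apply mul_le_mul h6 (hLX.trans hlogX) (norm_nonneg _) (by norm_num)
            _ = l := one_mul _
      _ = _ := by ring
  -- first replacement
  have hr1 : ‖Complex.exp ((α / 2 * Real.log (T / (2 * Real.pi)) : ℝ) * I) -
      Complex.exp ((Real.pi * τ : ℝ) * I)‖ ≤ α := by
    refine (norm_exp_sub_exp_le _ _).trans ?_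
    rw [Real.log_div hTpos.ne' (by positivity), ← hl]
    have h3 : α / 2 * (l - Real.log (2 * Real.pi)) - Real.pi * τ = -(α / 2 * Real.log (2 * Real.pi)) := by
      have : α / 2 * l = Real.pi * τ := by linarith
      linarith [mul_sub (α / 2) l (Real.log (2 * Real.pi))]
    rw [h3, abs_neg]
    have h4 : Real.log (2 * Real.pi) ≤ 2 := by
      have h5 : 2 * Real.pi ≤ Real.exp 2 := by
        have h6 := Real.pi_lt_d2
        have h7 : (2.7182818283:ℝ) < Real.exp 1 := Real.exp_one_gt_d9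
        have h8 : Real.exp 2 = Real.exp 1 * Real.exp 1 := by rw [← Real.exp_add]; norm_num
        rw [h8]
        nlinarith only [h6, h7]
      have := Real.log_le_log (by positivity) h5
      rwa [Real.log_exp] at this
    have h5 : 0 ≤ Real.log (2 * Real.pi) := Real.log_nonneg (by have := Real.pi_gt_three; linarith)
    rw [abs_of_nonneg (by positivity)]
    linarith only [mul_le_mul_of_nonneg_left h4 (by positivity : 0 ≤ α / 2)]
  have hLκ : Lf α (T ^ κ) = 2 * I / α := by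
    unfold Lf
    rw [hlogTκ]
    have h3 : (α * ((κ * l : ℝ) : ℂ) * I : ℂ) = Real.pi * I := by
      have : α * (κ * l) = Real.pi := by
        calc α * (κ * l) = κ * (α * l) := by ring
          _ = Real.pi := by rw [hαl, hκ]; field_simp
      rw [← this]
      push_cast
      ring
    rw [h3, Complex.exp_pi_mul_I]
    have hαc : (α : ℂ) ≠ 0 := by exact_mod_cast hα0.ne'
    field_simp
    rw [Complex.I_sq]
    ring
  have hr2 : ‖Lf α X - Lf α (T ^ κ)‖ ≤ 1 := by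
    rw [norm_sub_rev]
    refine (Lf_sub_le hα0 (by linarith) hXle).trans ?_
    have := Real.log_le_log (by linarith) hXge
    rw [Real.log_mul (by norm_num) (by positivity)] at this
    have h4 := Real.log_two_lt_d9
    linarith
  -- the main term
  set E1 := Complex.exp ((α / 2 * Real.log (T / (2 * Real.pi)) : ℝ) * I) with hE1
  set E2 := Complex.exp ((Real.pi * τ : ℝ) * I) with hE2
  have hE2n : ‖E2‖ = 1 := Complex.norm_exp_ofReal_mul_I _
  have hmain : (E2 * (((6 / Real.pi ^ 2 : ℝ) : ℂ) * (2 * I / α))).im = -c1 * l := by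
    have h3 : E2 * (((6 / Real.pi ^ 2 : ℝ) : ℂ) * (2 * I / α)) =
        ((12 / (Real.pi ^ 2 * α) : ℝ) : ℂ) * (E2 * I) := by
      push_cast
      have hαc : (α : ℂ) ≠ 0 := by exact_mod_cast hα0.ne'
      have hpc : (Real.pi : ℂ) ≠ 0 := by exact_mod_cast hpi.ne'
      field_simp
      ring
    have h4 : (E2 * I).im = Real.cos (Real.pi * τ) := by
      rw [Complex.mul_I_im, hE2, Complex.exp_ofReal_mul_I_re]
    rw [h3, Complex.im_ofReal_mul, h4, hc1, hα]
    field_simp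
    ring
  have hdiff : ‖E1 * Ms α X - E2 * (((6 / Real.pi ^ 2 : ℝ) : ℂ) * (2 * I / α))‖ ≤ K := by
    have h3 : E1 * Ms α X - E2 * (((6 / Real.pi ^ 2 : ℝ) : ℂ) * (2 * I / α)) =
        (E1 - E2) * Ms α X + E2 * (Ms α X - ((6 / Real.pi ^ 2 : ℝ) : ℂ) * Lf α X) +
        E2 * (((6 / Real.pi ^ 2 : ℝ) : ℂ) * (Lf α X - Lf α (T ^ κ))) := by
      rw [hLκ]; ring
    rw [h3]
    have t1 : ‖(E1 - E2) * Ms α X‖ ≤ 2 * Real.pi * (2 + (2 + 4 * Real.pi) * Z1) := by
      rw [norm_mul]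
      calc ‖E1 - E2‖ * ‖Ms α X‖ ≤ α * (l + (2 + 4 * Real.pi) * Z1) :=
            mul_le_mul hr1 hMsn (norm_nonneg _) hα0.le
        _ = α * l + α * ((2 + 4 * Real.pi) * Z1) := by ring
        _ ≤ 2 * Real.pi + 1 * ((2 + 4 * Real.pi) * Z1) := by
            refine add_le_add ?_ ?_
            · rw [hαl]; exact mul_le_of_le_one_right (by positivity) h2.le
            · gcongr
        _ ≤ _ := by
            have h5 : 0 ≤ (2 + 4 * Real.pi) * Z1 := by positivity
            have := Real.pi_gt_three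
            nlinarith only [mul_nonneg h5 (by linarith only [this] : 0 ≤ 2 * Real.pi - 1), this]
    have t2 : ‖E2 * (Ms α X - ((6 / Real.pi ^ 2 : ℝ) : ℂ) * Lf α X)‖ ≤ (2 + 4 * Real.pi) * Z1 := by
      rw [norm_mul, hE2n, one_mul]; exact hMs'
    have t3 : ‖E2 * (((6 / Real.pi ^ 2 : ℝ) : ℂ) * (Lf α X - Lf α (T ^ κ)))‖ ≤ 1 := by
      rw [norm_mul, hE2n, one_mul, norm_mul, Complex.norm_real, Real.norm_of_nonneg (by positivity)]
      calc (6:ℝ) / Real.pi ^ 2 * ‖Lf α X - Lf α (T ^ κ)‖ ≤ 1 * 1 :=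
            mul_le_mul h6 hr2 (norm_nonneg _) (by norm_num)
        _ = 1 := one_mul _
    calc _ ≤ ‖(E1 - E2) * Ms α X‖ + ‖E2 * (Ms α X - ((6 / Real.pi ^ 2 : ℝ) : ℂ) * Lf α X)‖ +
        ‖E2 * (((6 / Real.pi ^ 2 : ℝ) : ℂ) * (Lf α X - Lf α (T ^ κ)))‖ := norm_add₃_le
      _ ≤ K := by rw [hK]; linarith
  have him : (E1 * Ms α X).im ≤ -c1 * l + K := by
    have h3 : (E1 * Ms α X).im = (E2 * (((6 / Real.pi ^ 2 : ℝ) : ℂ) * (2 * I / α))).im +
        (E1 * Ms α X - E2 * (((6 / Real.pi ^ 2 : ℝ) : ℂ) * (2 * I / α))).im := by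
      rw [Complex.sub_im]; ring
    rw [h3, hmain]
    have := (Complex.abs_im_le_norm (E1 * Ms α X - E2 * (((6 / Real.pi ^ 2 : ℝ) : ℂ) * (2 * I / α)))).trans hdiff
    have := (abs_le.mp this).2
    linarith
  refine him.trans ?_
  have h3 : 2 * K ≤ l * c1 := by rwa [div_le_iff₀ hc10] at hl2
  linarith only [h3]

end Pool.Agent.HalfGap
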