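import Pool.Agent.ZGap.Half.GamB

/-!
# Off-diagonal terms: contour shift against the Gaussian weight
-/

namespace Pool.Agent.HalfGap

open Complex MeasureTheory Set Filter Topology Pool.Agent.Hadamard GB

lemma Og_differentiable (H t0 : ℝ) : Differentiable ℂ (Og H t0) := by
  unfold Og
  fun_prop

/-- The absolute value of the Gaussian weight. -/
lemma norm_Og (H t0 x y : ℝ) :
    ‖Og H t0 (x + y * I)‖ = Real.exp (((x - 1 / 2) ^ 2 - (y - t0) ^ 2) / H ^ 2) := by
  unfold Og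
  rw [Complex.norm_exp]
  congr 1
  have h1 : (((x:ℂ) + y * I - 1 / 2) - t0 * I) ^ 2 / (H : ℂ) ^ 2 =
      (((1 / H ^ 2 : ℝ)) : ℂ) * ((((x - 1 / 2 : ℝ) : ℂ) + ((y - t0 : ℝ) : ℂ) * I) ^ 2) := by
    push_cast; ring
  have h2 : ((((x - 1 / 2 : ℝ) : ℂ) + ((y - t0 : ℝ) : ℂ) * I) ^ 2).re =
      (x - 1 / 2) ^ 2 - (y - t0) ^ 2 := by
    rw [sq (((x - 1 / 2 : ℝ) : ℂ) + ((y - t0 : ℝ) : ℂ) * I), mul_re]
    simp only [add_re, add_im, ofReal_re, ofReal_im, mul_re, mul_im, I_re, I_im]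
    ring
  rw [h1, re_ofReal_mul, h2]
  ring

lemma norm_Og_le {H t0 x y : ℝ} (hH : 1 ≤ H) (hx : |x - 2| ≤ H) :
    ‖Og H t0 (x + y * I)‖ ≤ Real.exp 7 * Real.exp (-((y - t0) ^ 2 / H ^ 2)) := by
  rw [norm_Og, ← Real.exp_add]
  refine Real.exp_le_exp.mpr ?_
  have hH0 : 0 < H ^ 2 := by positivity
  have h1 : (x - 1 / 2) ^ 2 ≤ 7 * H ^ 2 := by
    rw [abs_le] at hx
    have h2 : |x - 1 / 2| ≤ 5 / 2 * H := by
      rw [abs_le]; constructor <;> linarith [hx.1, hx.2]
    have h3 := sq_le_sq' (by linarith [abs_nonneg (x - 1 / 2)] : -(5 / 2 * H) ≤ |x - 1 / 2|) h2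
    rw [sq_abs] at h3
    nlinarith
  have h4 : (x - 1 / 2) ^ 2 / H ^ 2 ≤ 7 := by rw [div_le_iff₀ hH0]; exact h1
  rw [sub_div]
  linarith

/-- **H3.** Off-diagonal terms are tiny. -/
theorem off_bound {α : ℝ} (hα : 0 ≤ α) {H t0 U : ℝ} (hH : 1 ≤ H) (hU : 0 ≤ U)
    (h1 : 1 ≤ t0 - U) (lam : ℝ) :
    ‖∫ t in (t0 - U)..(t0 + U), Og H t0 (2 + t * I) * gam α (2 + t * I) *
      cexp (-(lam : ℂ) * (3 / 2 + t * I))‖ ≤
      4 * Real.exp (14 * α) * Real.exp 7 * Real.exp (-(3 * lam / 2)) *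
        (2 * U * Real.exp (-(|lam| * H)) + 2 * H * Real.exp (-(U ^ 2 / H ^ 2))) := by
  set f : ℂ → ℂ := fun s => Og H t0 s * gam α s * cexp (-(lam : ℂ) * (s - 1 / 2)) with hf
  obtain ⟨ε, hε, hεl⟩ : ∃ ε : ℝ, |ε| = 1 ∧ ε * lam = |lam| := by
    rcases le_or_gt 0 lam with h | h
    · exact ⟨1, by simp, by rw [one_mul, abs_of_nonneg h]⟩
    · exact ⟨-1, by simp, by rw [abs_of_neg h]; ring⟩
  set K : ℝ := 4 * Real.exp (14 * α) * Real.exp 7 * Real.exp (-(3 * lam / 2)) with hK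
  have hKpos : 0 < K := by positivity
  -- pointwise bound
  have hpt : ∀ x y : ℝ, 1 ≤ y → |x - 2| ≤ H → ‖f (x + y * I)‖ ≤
      K * Real.exp (-((y - t0) ^ 2 / H ^ 2)) * Real.exp (-(lam * (x - 2))) := by
    intro x y hy hx
    have e1 := norm_Og_le (t0 := t0) (y := y) hH hx
    have e2 : ‖gam α (x + y * I)‖ ≤ 4 * Real.exp (14 * α) := gam_bound hα (by simpa using hy)
    have e3 : ‖cexp (-(lam : ℂ) * (x + y * I - 1 / 2))‖ =
        Real.exp (-(3 * lam / 2)) * Real.exp (-(lam * (x - 2))) := by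
      rw [Complex.norm_exp, ← Real.exp_add]
      congr 1
      have : -(lam : ℂ) * (x + y * I - 1 / 2) = ((-lam : ℝ) : ℂ) * (((x - 1 / 2 : ℝ) : ℂ) + y * I) := by
        push_cast; ring
      rw [this, re_ofReal_mul]
      simp
      ring
    rw [hf]
    simp only [norm_mul]
    rw [e3]
    calc ‖Og H t0 (x + y * I)‖ * ‖gam α (x + y * I)‖ *
        (Real.exp (-(3 * lam / 2)) * Real.exp (-(lam * (x - 2))))
        ≤ (Real.exp 7 * Real.exp (-((y - t0) ^ 2 / H ^ 2))) * (4 * Real.exp (14 * α)) *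
        (Real.exp (-(3 * lam / 2)) * Real.exp (-(lam * (x - 2)))) := by gcongr
      _ = _ := by rw [hK]; ring
  -- Cauchy
  have hdiff : DifferentiableOn ℂ f
      (Set.uIcc (2:ℝ) (2 + ε * H) ×ℂ Set.uIcc (t0 - U) (t0 + U)) := by
    intro s hs
    rw [mem_reProdIm] at hs
    have him : 0 < s.im := by
      have := hs.2
      rw [Set.uIcc_of_le (by linarith)] at this
      linarith [this.1]
    refine DifferentiableAt.differentiableWithinAt ?_
    exact ((Og_differentiable H t0 s).mul (gam_differentiableAt hα him)).mul (by fun_prop)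
  have hcau := Complex.integral_boundary_rect_eq_zero_of_differentiableOn f
    (2 + ((t0 - U : ℝ) : ℂ) * I) (((2 + ε * H : ℝ) : ℂ) + ((t0 + U : ℝ) : ℂ) * I)
    (by simpa using hdiff)
  simp only [add_re, re_ofNat, mul_re, ofReal_re, I_re, mul_zero, ofReal_im, I_im, mul_one,
    sub_self, add_zero, add_im, im_ofNat, mul_im, zero_add, smul_eq_mul] at hcau
  set J1 := ∫ x in (2:ℝ)..(2 + ε * H), f (x + ((t0 - U : ℝ) : ℂ) * I) with hJ1
  set J2 := ∫ x in (2:ℝ)..(2 + ε * H), f (x + ((t0 + U : ℝ) : ℂ) * I) with hJ2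
  set J3 := ∫ y in (t0 - U)..(t0 + U), f (((2 + ε * H : ℝ) : ℂ) + y * I) with hJ3
  set J4 := ∫ y in (t0 - U)..(t0 + U), f (((2:ℝ) : ℂ) + y * I) with hJ4
  have hεH : |ε * H| = H := by rw [abs_mul, hε, one_mul, abs_of_nonneg (by linarith)]
  have hseg : ∀ x ∈ Set.uIoc (2:ℝ) (2 + ε * H), |x - 2| ≤ H ∧ 0 ≤ lam * (x - 2) := by
    intro x hx
    rcases le_or_gt 0 lam with h | h
    · have hε1 : 0 ≤ ε * H ∨ lam = 0 := by
        rcases h.eq_or_lt with h' | h'
        · exact Or.inr h'.symm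
        · left
          rw [abs_of_nonneg h] at hεl
          have : ε = 1 := by
            have := mul_right_cancel₀ h'.ne' (hεl.trans (one_mul lam).symm)
            exact this
          rw [this]; linarith
      rcases hε1 with h2 | h2
      · rw [Set.uIoc_of_le (by linarith)] at hx
        have h3 : ε * H = H := (abs_of_nonneg h2).symm.trans hεH
        rw [h3] at hx
        refine ⟨by rw [abs_le]; constructor <;> linarith [hx.1, hx.2], ?_⟩
        exact mul_nonneg h (by linarith [hx.1])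
      · refine ⟨?_, by rw [h2]; simp⟩
        have h3 := abs_le.mp hεH.le
        rcases Set.mem_uIoc.mp hx with h4 | h4
        · rw [abs_le]; constructor <;> linarith [h4.1, h4.2]
        · rw [abs_le]; constructor <;> linarith [h4.1, h4.2]
    · have hε1 : ε = -1 := by
        rw [abs_of_neg h] at hεl
        have : ε * lam = (-1) * lam := by rw [hεl]; ring
        exact mul_right_cancel₀ h.ne this
      rw [hε1] at hx
      rw [Set.uIoc_of_ge (by linarith)] at hx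
      refine ⟨by rw [abs_le]; constructor <;> linarith [hx.1, hx.2], ?_⟩
      nlinarith [hx.2]
  have hb1 : ‖J1‖ ≤ K * Real.exp (-(U ^ 2 / H ^ 2)) * |2 + ε * H - 2| := by
    refine intervalIntegral.norm_integral_le_of_norm_le_const (fun x hx => ?_)
    obtain ⟨h2, h3⟩ := hseg x hx
    refine (hpt x (t0 - U) h1 h2).trans ?_
    have e : (t0 - U - t0) ^ 2 = U ^ 2 := by ring
    rw [e]
    have : Real.exp (-(lam * (x - 2))) ≤ 1 := Real.exp_le_one_iff.mpr (by linarith)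
    exact mul_le_of_le_one_right (by positivity) this
  have hb2 : ‖J2‖ ≤ K * Real.exp (-(U ^ 2 / H ^ 2)) * |2 + ε * H - 2| := by
    refine intervalIntegral.norm_integral_le_of_norm_le_const (fun x hx => ?_)
    obtain ⟨h2, h3⟩ := hseg x hx
    refine (hpt x (t0 + U) (by linarith) h2).trans ?_
    have e : (t0 + U - t0) ^ 2 = U ^ 2 := by ring
    rw [e]
    have : Real.exp (-(lam * (x - 2))) ≤ 1 := Real.exp_le_one_iff.mpr (by linarith)
    exact mul_le_of_le_one_right (by positivity) this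
  have hb3 : ‖J3‖ ≤ K * Real.exp (-(|lam| * H)) * |t0 + U - (t0 - U)| := by
    refine intervalIntegral.norm_integral_le_of_norm_le_const (fun y hy => ?_)
    rw [Set.uIoc_of_le (by linarith)] at hy
    have h2 : |2 + ε * H - 2| ≤ H := by rw [add_sub_cancel_left, hεH]
    refine (hpt (2 + ε * H) y (by linarith [hy.1]) h2).trans ?_
    have e : lam * (2 + ε * H - 2) = |lam| * H := by rw [← hεl]; ring
    rw [e]
    have h3 : Real.exp (-((y - t0) ^ 2 / H ^ 2)) ≤ 1 :=
      Real.exp_le_one_iff.mpr (by have : 0 ≤ (y - t0) ^ 2 / H ^ 2 := by positivity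
                                  linarith)
    calc K * Real.exp (-((y - t0) ^ 2 / H ^ 2)) * Real.exp (-(|lam| * H))
        ≤ K * 1 * Real.exp (-(|lam| * H)) := by gcongr
      _ = _ := by ring
  rw [add_sub_cancel_left, hεH] at hb1 hb2
  have e4 : |t0 + U - (t0 - U)| = 2 * U := by
    rw [show t0 + U - (t0 - U) = 2 * U by ring, abs_of_nonneg (by linarith)]
  rw [e4] at hb3
  have hJ4eq : (∫ t in (t0 - U)..(t0 + U), Og H t0 (2 + t * I) * gam α (2 + t * I) *
      cexp (-(lam : ℂ) * (3 / 2 + t * I))) = J4 := by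
    rw [hJ4]
    refine intervalIntegral.integral_congr fun t _ => ?_
    simp only [hf, ofReal_ofNat]
    congr 3
    ring
  have hmain : I * J4 = J1 - J2 + I * J3 := by linear_combination -hcau
  have hJ4n : ‖J4‖ = ‖J1 - J2 + I * J3‖ := by
    rw [← hmain, norm_mul, Complex.norm_I, one_mul]
  rw [hJ4eq, hJ4n]
  calc ‖J1 - J2 + I * J3‖ ≤ ‖J1‖ + ‖J2‖ + ‖J3‖ := by
        refine (norm_add_le _ _).trans ?_
        rw [norm_mul, Complex.norm_I, one_mul]
        exact add_le_add_left (norm_sub_le _ _) _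
    _ ≤ _ := by nlinarith [hb1, hb2, hb3]

/-- **H3**, in the normalisation of the project. -/
theorem off_bound' (A : ℝ) (hA : 0 < A) : ∃ C T0 : ℝ, 0 < C ∧ ∀ T α t0 H U : ℝ, T0 ≤ T →
    0 ≤ α → α ≤ A / Real.log T → T / 2 ≤ t0 → t0 ≤ 4 * T → 1 ≤ H → H ≤ T / 8 → H ≤ U →
    U ≤ T / 8 → ∀ lam : ℝ,
    ‖∫ t in (t0 - U)..(t0 + U), Og H t0 (2 + t * I) * gam α (2 + t * I) *
      cexp (-(lam : ℂ) * (3 / 2 + t * I))‖ ≤
      C * Real.exp (-(3 * lam / 2)) *
        (T * Real.exp (-(|lam| * H)) + T * Real.exp (-(U ^ 2 / H ^ 2))) := by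
  refine ⟨4 * Real.exp (14 * A) * Real.exp 7, max 8 (Real.exp 1), by positivity,
    fun T α t0 H U hT hα hα1 ht0 _ hH hHT hHU hU lam => ?_⟩
  have hT8 : 8 ≤ T := (le_max_left _ _).trans hT
  have hTe : Real.exp 1 ≤ T := (le_max_right _ _).trans hT
  have hlog : 1 ≤ Real.log T := by
    rw [Real.le_log_iff_exp_le (by linarith)]; exact hTe
  have hαA : α ≤ A := hα1.trans (div_le_self hA.le hlog)
  have hU0 : 0 ≤ U := by linarith
  refine (off_bound hα hH hU0 (by linarith) lam).trans ?_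
  have h1 : Real.exp (14 * α) ≤ Real.exp (14 * A) := Real.exp_le_exp.mpr (by linarith)
  have h2 : 2 * U ≤ T := by linarith
  have h3 : 2 * H ≤ T := by linarith
  gcongr

end Pool.Agent.HalfGap
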