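import Pool.Agent.ZGap.Half.Strip
import Pool.Agent.ZetaGaps.Basic

/-!
# The bad set and crowded windows
-/

namespace Pool.Agent.HalfGap

open Complex MeasureTheory Set Pool.Agent.Hadamard Pool.Agent.ZetaGaps
open scoped ComplexConjugate Topology ENNReal

lemma mem_ntz_of_Xr {z : ℝ} (h : Xr z = 0) : (1 / 2 + z * I : ℂ) ∈ ntz := by
  rw [← xiF_eq_zero_iff, xiF_half, h]; simp

lemma two_le_mult {z : ℝ} (h : Xr z = 0) (hd : deriv Xr z = 0) :
    2 ≤ mult (1 / 2 + z * I : ℂ) := by
  have hm := mem_ntz_of_Xr h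
  rw [← mult_eq hm]
  have hft := order_ne_top xiF_differentiable (w := 0) (by rw [xiF_zero]; exact one_ne_zero)
    (1 / 2 + z * I)
  have han : AnalyticAt ℂ xiF (1 / 2 + z * I) := xiF_differentiable.analyticAt _
  have h1 : ((2 : ℕ) : ℕ∞) ≤ analyticOrderAt xiF (1 / 2 + z * I) := by
    rw [natCast_le_analyticOrderAt_iff_iteratedDeriv_eq_zero han]
    intro i hi
    interval_cases i
    · rw [iteratedDeriv_zero, xiF_half, h]; simp
    · rw [iteratedDeriv_one, deriv_xiF_half, hd]; simp
  rw [← Nat.cast_analyticOrderNatAt hft] at h1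
  exact_mod_cast h1

/-- Two zeros in a window. -/
lemma count_of_two {z w a b : ℝ} (hz : Xr z = 0) (hw : Xr w = 0)
    (hor : z ≠ w ∨ deriv Xr z = 0) (ha : 0 ≤ a) (h1 : a < z) (h2 : z ≤ b) (h3 : a < w)
    (h4 : w ≤ b) : zeroCount a + 2 ≤ zeroCount b := by
  classical
  rw [zeroCount_sub (h1.le.trans h2)]
  have hmem : ∀ v : ℝ, Xr v = 0 → a < v → v ≤ b → (1 / 2 + v * I : ℂ) ∈
      (finite_zerosUpTo b).toFinset.filter (fun ρ => a < ρ.im) := by
    intro v hv hav hvb
    rw [Finset.mem_filter, Set.Finite.mem_toFinset, mem_zerosUpTo]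
    have him : (1 / 2 + v * I : ℂ).im = v := by simp
    rw [him]
    exact ⟨⟨mem_ntz_of_Xr hv, by linarith, hvb⟩, hav⟩
  have hz' := hmem z hz h1 h2
  have hw' := hmem w hw h3 h4
  have key : 2 ≤ ∑ ρ ∈ (finite_zerosUpTo b).toFinset.filter (fun ρ => a < ρ.im), mult ρ := by
    by_cases hzw : z = w
    · have hd : deriv Xr z = 0 := by
        rcases hor with h | h
        · exact absurd hzw h
        · exact h
      calc 2 ≤ mult (1 / 2 + z * I : ℂ) := two_le_mult hz hd
        _ ≤ _ := Finset.single_le_sum (f := mult) (fun _ _ => Nat.zero_le _) hz'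
    · have hne : (1 / 2 + z * I : ℂ) ≠ 1 / 2 + w * I := by
        intro h
        have := congrArg Complex.im h
        simp at this
        exact hzw this
      have hsub : ({(1 / 2 + z * I : ℂ), 1 / 2 + w * I} : Finset ℂ) ⊆
          (finite_zerosUpTo b).toFinset.filter (fun ρ => a < ρ.im) := by
        intro ρ hρ
        rw [Finset.mem_insert, Finset.mem_singleton] at hρ
        rcases hρ with h | h <;> rw [h] <;> assumption
      have h5 := Finset.sum_le_sum_of_subset (f := mult) hsub
      rw [Finset.sum_pair hne] at h5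
      have h6 := mult_pos (mem_ntz_of_Xr hz)
      have h7 := mult_pos (mem_ntz_of_Xr hw)
      omega
  omega

/-- Around a point of `EE α` there is an interval of crowded windows. -/
lemma exists_window {α β t : ℝ} (hα : 0 < α) (hαβ : α < β) (ht : t ∈ EE α) (ht0 : 2 * β ≤ t) :
    ∃ m M : ℝ, M - m ≤ α ∧ t - α / 2 - α ≤ m ∧ M ≤ t + α / 2 + α ∧ m ≤ M ∧
      (t - α / 2 ≤ M ∧ m ≤ t + α / 2) ∧
      ∀ u ∈ Ioo (M - β / 2) (m + β / 2),
        zeroCount (u - β / 2) + 2 ≤ zeroCount (u + β / 2) := by
  obtain ⟨z, hz, hbz, htz⟩ := ht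
  have htz' := abs_le.mp htz
  have hex : ∃ w, Xr w = 0 ∧ (z ≠ w ∨ deriv Xr z = 0) ∧ |w - z| < α := by
    rcases hbz with h | ⟨w, hw, hne, hlt⟩
    · exact ⟨z, hz, Or.inr h, by simpa using hα⟩
    · exact ⟨w, hw, Or.inl (Ne.symm hne), hlt⟩
  obtain ⟨w, hw, hor, hlt⟩ := hex
  have hlt' := abs_lt.mp hlt
  refine ⟨min z w, max z w, ?_, ?_, ?_, min_le_max, ⟨?_, ?_⟩, ?_⟩
  · rcases le_total z w with h | h
    · rw [min_eq_left h, max_eq_right h]; linarith
    · rw [min_eq_right h, max_eq_left h]; linarith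
  · rcases le_total z w with h | h
    · rw [min_eq_left h]; linarith
    · rw [min_eq_right h]; linarith
  · rcases le_total z w with h | h
    · rw [max_eq_right h]; linarith
    · rw [max_eq_left h]; linarith
  · have := le_max_left z w; linarith
  · have := min_le_left z w; linarith
  · intro u hu
    have e1 := le_max_left z w
    have e2 := le_max_right z w
    have e3 := min_le_left z w
    have e4 := min_le_right z w
    have e5 : z - α ≤ min z w := by
      rw [le_min_iff]; constructor <;> linarith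
    exact count_of_two hz hw hor (by linarith [hu.1]) (by linarith [hu.2]) (by linarith [hu.1])
      (by linarith [hu.2]) (by linarith [hu.1])

/-- Tonelli for the local measure. -/
lemma lintegral_local (S : Set ℝ) (hS : MeasurableSet S) (r : ℝ) :
    ∫⁻ t : ℝ, volume (S ∩ Icc (t - r) (t + r)) = ENNReal.ofReal (2 * r) * volume S := by
  have h1 : ∀ t : ℝ, volume (S ∩ Icc (t - r) (t + r)) =
      ∫⁻ u : ℝ, S.indicator 1 u * ({p : ℝ × ℝ | |p.2 - p.1| ≤ r}.indicator 1 (t, u)) := by
    intro t
    rw [← lintegral_indicator_one (hS.inter measurableSet_Icc)]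
    refine lintegral_congr fun u => ?_
    rw [inter_indicator_one]
    simp only [Pi.mul_apply]
    congr 1
    by_cases h : |u - t| ≤ r
    · have h' := abs_le.mp h
      rw [indicator_of_mem, indicator_of_mem]
      · rfl
      · exact h
      · exact ⟨by linarith, by linarith⟩
    · rw [indicator_of_notMem, indicator_of_notMem]
      · exact h
      · intro hu
        exact h (abs_le.mpr ⟨by linarith [hu.1], by linarith [hu.2]⟩)
  simp_rw [h1]
  have hmeas : MeasurableSet {p : ℝ × ℝ | |p.2 - p.1| ≤ r} :=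
    (isClosed_le (by fun_prop) continuous_const).measurableSet
  rw [lintegral_lintegral_swap]
  · have h2 : ∀ u : ℝ, ∫⁻ t : ℝ, S.indicator 1 u *
        ({p : ℝ × ℝ | |p.2 - p.1| ≤ r}.indicator 1 (t, u)) =
        ENNReal.ofReal (2 * r) * S.indicator 1 u := by
      intro u
      have h3 : Measurable fun t : ℝ =>
          ({p : ℝ × ℝ | |p.2 - p.1| ≤ r}.indicator (1 : ℝ × ℝ → ℝ≥0∞) (t, u)) :=
        (measurable_one.indicator hmeas).comp (by fun_prop)
      rw [lintegral_const_mul _ h3, mul_comm]
      congr 1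
      have h4 : (fun t : ℝ => ({p : ℝ × ℝ | |p.2 - p.1| ≤ r}.indicator (1 : ℝ × ℝ → ℝ≥0∞) (t, u))) =
          (Icc (u - r) (u + r)).indicator 1 := by
        funext t
        by_cases h : |u - t| ≤ r
        · have h' := abs_le.mp h
          rw [indicator_of_mem, indicator_of_mem]
          · rfl
          · exact ⟨by linarith, by linarith⟩
          · exact h
        · rw [indicator_of_notMem, indicator_of_notMem]
          · intro hu
            exact h (abs_le.mpr ⟨by linarith [hu.2], by linarith [hu.1]⟩)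
          · exact h
      rw [h4, lintegral_indicator_one measurableSet_Icc, Real.volume_Icc]
      congr 1
      ring
    simp_rw [h2]
    rw [lintegral_const_mul _ (measurable_one.indicator hS), lintegral_indicator_one hS]
  · refine (Measurable.mul ?_ ?_).aemeasurable
    · exact (measurable_one.indicator hS).comp measurable_snd
    · exact measurable_one.indicator hmeas

/-- **The bad set is controlled by the crowded windows.** -/
theorem EE_le_crowd {α β a b : ℝ} (hα : 0 < α) (hαβ : α < β) (ha : 4 * β ≤ a)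
    (hS : MeasurableSet {u : ℝ | u ∈ Icc (a - 2 * β) (b + 2 * β) ∧
      zeroCount (u - β / 2) + 2 ≤ zeroCount (u + β / 2)}) :
    volume.real (EE α ∩ Icc a b) ≤ 4 * β / (β - α) *
      volume.real {u : ℝ | u ∈ Icc (a - 2 * β) (b + 2 * β) ∧
        zeroCount (u - β / 2) + 2 ≤ zeroCount (u + β / 2)} := by
  set S := {u : ℝ | u ∈ Icc (a - 2 * β) (b + 2 * β) ∧
      zeroCount (u - β / 2) + 2 ≤ zeroCount (u + β / 2)} with hSdef
  have hd : 0 < β - α := by linarith
  have hSfin : volume S ≠ ⊤ := by
    refine ne_top_of_le_ne_top ?_ (measure_mono (fun u hu => hu.1 :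
      S ⊆ Icc (a - 2 * β) (b + 2 * β)))
    rw [Real.volume_Icc]; exact ENNReal.ofReal_ne_top
  have hsub : EE α ∩ Icc a b ⊆ {t | ENNReal.ofReal (β - α) ≤
      volume (S ∩ Icc (t - 2 * β) (t + 2 * β))} := by
    rintro t ⟨ht, ht1, ht2⟩
    obtain ⟨m, M, h1, h2, h3, h4, ⟨h5, h6⟩, h7⟩ := exists_window hα hαβ ht (by linarith)
    rw [mem_ofPred_eq]
    have h8 : Ioo (M - β / 2) (m + β / 2) ⊆ S ∩ Icc (t - 2 * β) (t + 2 * β) := by
      intro u hu
      refine ⟨⟨⟨?_, ?_⟩, h7 u hu⟩, ?_, ?_⟩ <;> linarith [hu.1, hu.2]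
    refine le_trans ?_ (measure_mono h8)
    rw [Real.volume_Ioo]
    apply ENNReal.ofReal_le_ofReal
    linarith
  have hmarkov : ENNReal.ofReal (β - α) * volume (EE α ∩ Icc a b) ≤
      ENNReal.ofReal (2 * (2 * β)) * volume S := by
    rw [← lintegral_local S hS]
    refine le_trans (mul_le_mul_right (measure_mono hsub) _) ?_
    refine mul_meas_ge_le_lintegral₀ ?_ _
    -- measurability
    have : (fun t : ℝ => volume (S ∩ Icc (t - 2 * β) (t + 2 * β))) =
        fun t : ℝ => ∫⁻ u : ℝ, S.indicator 1 u *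
          ({p : ℝ × ℝ | |p.2 - p.1| ≤ 2 * β}.indicator 1 (t, u)) := by
      funext t
      rw [← lintegral_indicator_one (hS.inter measurableSet_Icc)]
      refine lintegral_congr fun u => ?_
      rw [inter_indicator_one]
      simp only [Pi.mul_apply]
      congr 1
      by_cases h : |u - t| ≤ 2 * β
      · have h' := abs_le.mp h
        rw [indicator_of_mem, indicator_of_mem]
        · rfl
        · exact h
        · exact ⟨by linarith, by linarith⟩
      · rw [indicator_of_notMem, indicator_of_notMem]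
        · exact h
        · intro hu
          exact h (abs_le.mpr ⟨by linarith [hu.1], by linarith [hu.2]⟩)
    rw [this]
    have hmeas : MeasurableSet {p : ℝ × ℝ | |p.2 - p.1| ≤ 2 * β} :=
      (isClosed_le (by fun_prop) continuous_const).measurableSet
    refine Measurable.aemeasurable ?_
    refine Measurable.lintegral_prod_right' (f := fun p : ℝ × ℝ => S.indicator 1 p.2 *
      ({p : ℝ × ℝ | |p.2 - p.1| ≤ 2 * β}.indicator 1 p)) ?_
    exact ((measurable_one.indicator hS).comp measurable_snd).mul (measurable_one.indicator hmeas)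
  have hEfin : volume (EE α ∩ Icc a b) ≠ ⊤ := by
    refine ne_top_of_le_ne_top ?_ (measure_mono (inter_subset_right : EE α ∩ Icc a b ⊆ Icc a b))
    rw [Real.volume_Icc]; exact ENNReal.ofReal_ne_top
  have h9 := ENNReal.toReal_mono (ENNReal.mul_ne_top ENNReal.ofReal_ne_top hSfin) hmarkov
  rw [ENNReal.toReal_mul, ENNReal.toReal_mul, ENNReal.toReal_ofReal hd.le,
    ENNReal.toReal_ofReal (by linarith)] at h9
  have e1 : volume.real (EE α ∩ Icc a b) = (volume (EE α ∩ Icc a b)).toReal := rfl
  have e2 : volume.real S = (volume S).toReal := rfl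
  rw [e1, e2, div_mul_eq_mul_div, le_div_iff₀ hd]
  linarith

end Pool.Agent.HalfGap
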