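import Pool.Agent.ZGap.Half.Prop
import Pool.Agent.ZGap.Half.Cover

/-!
# A positive proportion of the normalised gaps is below `1/2 + ε` (RH)
-/

namespace Pool.Agent.HalfGap

open Complex MeasureTheory Set Pool.Agent.Hadamard Filter Pool.Agent.ZGap.Res Pool.Agent.ZetaGaps
open scoped ComplexConjugate Topology

theorem small_gaps_of_lt (hRH : RiemannHypothesis) {τ c d : ℝ} (hτ : 1 / 2 < τ) (hτ1 : τ < 1)
    (hτc : τ < c) (hcd : c < d) : ∃ κ : ℝ, 0 < κ ∧ ∃ N0 : ℕ, ∀ N : ℕ, N0 ≤ N →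
      κ * N ≤ ({n ∈ Finset.Icc 1 N | gap n < d}.card : ℝ) := by
  have hpi := Real.pi_pos
  have hc : 0 < c := by linarith
  obtain ⟨κ0, hκ0, T0, hp⟩ := prop_EE hRH hτ hτ1
  have e1 : ∀ᶠ T : ℝ in atTop, 1 ≤ Real.log T := Real.tendsto_log_atTop.eventually_ge_atTop 1
  obtain ⟨T1, hT1⟩ := eventually_atTop.mp e1
  have hd : 0 < c - τ := by linarith
  refine count_of_crowd hRH (c := c) (d := d) (c0 := κ0 / (4 * c / (c - τ)))
    (T0 := max (max T0 T1) (32 * Real.pi * c)) hc hcd (by positivity) fun T hT => ?_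
  have hTT0 : T0 ≤ T := ((le_max_left _ _).trans (le_max_left _ _)).trans hT
  have hTT1 : T1 ≤ T := ((le_max_right _ _).trans (le_max_left _ _)).trans hT
  have hTc : 32 * Real.pi * c ≤ T := (le_max_right _ _).trans hT
  have hL : 1 ≤ Real.log T := hT1 T hTT1
  have hTpos : 0 < T := lt_of_lt_of_le (by positivity) hTc
  set L := Real.log T with hLdef
  have hLpos : 0 < L := by linarith
  set α := 2 * Real.pi * τ / L with hα
  set β := 2 * Real.pi * c / L with hβ
  have hα0 : 0 < α := by positivity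
  have hαβ : α < β := by
    rw [hα, hβ]
    apply div_lt_div_of_pos_right _ hLpos
    have : 0 < 2 * Real.pi := by positivity
    nlinarith
  have hβ2 : β / 2 = Real.pi * c / L := by rw [hβ]; ring
  have hβle : β ≤ 2 * Real.pi * c := by
    rw [hβ]
    exact div_le_self (by positivity) hL
  have hβpos : 0 < β := hα0.trans hαβ
  have hmeas : ∀ a b : ℝ, MeasurableSet {u : ℝ | u ∈ Icc a b ∧
      zeroCount (u - β / 2) + 2 ≤ zeroCount (u + β / 2)} := fun a b =>
    measurableSet_Icc.inter (measurableSet_crowd (β / 2))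
  have h1 := EE_le_crowd (a := 3 * T / 4) (b := 5 * T / 2) hα0 hαβ (by linarith) (hmeas _ _)
  have h2 := hp T hTT0
  have h3 : volume.real {u : ℝ | u ∈ Icc (3 * T / 4 - 2 * β) (5 * T / 2 + 2 * β) ∧
        zeroCount (u - β / 2) + 2 ≤ zeroCount (u + β / 2)} ≤
      volume.real {t : ℝ | t ∈ Set.Icc (T / 2) (3 * T) ∧
        zeroCount (t - Real.pi * c / L) + 2 ≤ zeroCount (t + Real.pi * c / L)} := by
    apply measureReal_mono
    · rintro u ⟨hu, hu2⟩
      refine ⟨⟨?_, ?_⟩, ?_⟩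
      · linarith [hu.1]
      · linarith [hu.2]
      · rw [← hβ2]; exact hu2
    · refine ne_top_of_le_ne_top ?_ (measure_mono (fun u hu => hu.1 :
        {t : ℝ | t ∈ Set.Icc (T / 2) (3 * T) ∧
        zeroCount (t - Real.pi * c / L) + 2 ≤ zeroCount (t + Real.pi * c / L)} ⊆
          Icc (T / 2) (3 * T)))
      rw [Real.volume_Icc]; exact ENNReal.ofReal_ne_top
  have h4 : 4 * β / (β - α) = 4 * c / (c - τ) := by
    have : β - α = 2 * Real.pi / L * (c - τ) := by rw [hβ, hα]; ring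
    rw [this, hβ]
    have hd' : c - τ ≠ 0 := hd.ne'
    field_simp
  rw [h4] at h1
  rw [div_mul_eq_mul_div, div_le_iff₀ (by positivity)]
  calc κ0 * T ≤ _ := h2
    _ ≤ _ := h1
    _ ≤ 4 * c / (c - τ) * volume.real {t : ℝ | t ∈ Set.Icc (T / 2) (3 * T) ∧
        zeroCount (t - Real.pi * c / L) + 2 ≤ zeroCount (t + Real.pi * c / L)} :=
        mul_le_mul_of_nonneg_left h3 (by positivity)
    _ = _ := by ring

/-- **Positive proportion of gaps below `1/2 + ε`** (RH). -/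
theorem small_gaps_half (hRH : RiemannHypothesis) {ε : ℝ} (hε : 0 < ε) :
    ∃ κ : ℝ, 0 < κ ∧ ∃ N0 : ℕ, ∀ N : ℕ, N0 ≤ N →
      κ * N ≤ ({n ∈ Finset.Icc 1 N | gap n < 1 / 2 + ε}.card : ℝ) := by
  have hm : 0 < min ε 1 := lt_min hε one_pos
  have hm1 : min ε 1 ≤ 1 := min_le_right _ _
  obtain ⟨κ, hκ, N0, h⟩ := small_gaps_of_lt hRH (τ := 1 / 2 + min ε 1 / 4)
    (c := 1 / 2 + min ε 1 / 2) (d := 1 / 2 + min ε 1) (by linarith) (by linarith) (by linarith)
    (by linarith)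
  refine ⟨κ, hκ, N0, fun N hN => (h N hN).trans ?_⟩
  rw [Nat.cast_le]
  apply Finset.card_le_card
  intro n hn
  rw [Finset.mem_filter] at hn ⊢
  exact ⟨hn.1, hn.2.trans_le (by have := min_le_left ε 1; linarith)⟩

end Pool.Agent.HalfGap
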