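import Pool.Agent.ZGap.Half.Two

/-!
# The diagonal coefficient of the square of the resonator
-/

namespace Pool.Agent.HalfGap

open Complex Finset Pool.Agent.ZGap.Res
open scoped ArithmeticFunction.Moebius ArithmeticFunction.zeta

variable {R : ResData} {T : ℝ}

lemma tmu_mult (α : ℝ) : (tmu α).IsMultiplicative := by
  rw [ArithmeticFunction.IsMultiplicative.iff_ne_zero]
  refine ⟨by simp [tmu_apply], fun {m n} hm hn hmn => ?_⟩
  have hmr : (m:ℝ) ≠ 0 := by exact_mod_cast hm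
  have hnr : (n:ℝ) ≠ 0 := by exact_mod_cast hn
  rw [tmu_apply, tmu_apply, tmu_apply, ArithmeticFunction.isMultiplicative_moebius.map_mul_of_coprime hmn]
  push_cast
  rw [Real.log_mul hmr hnr]
  push_cast
  rw [mul_add, add_mul, Complex.exp_add]
  ring

lemma tmu_prime (α : ℝ) {p : ℕ} (hp : p.Prime) : tmu α p = -zp α p := by
  rw [tmu_apply, ArithmeticFunction.moebius_apply_prime hp]
  unfold zp
  push_cast
  ring

/-- The convolution `μ(d) d^{iα}` with one is a product over the primes. -/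
lemma tmu_zeta (α : ℝ) {n : ℕ} (hn : n ≠ 0) :
    (tmu α * (ζ : ArithmeticFunction ℂ)) n = ∏ p ∈ n.primeFactors, (1 - zp α p) := by
  classical
  rw [ArithmeticFunction.coe_mul_zeta_apply]
  have e1 : ∑ d ∈ n.divisors, tmu α d = ∑ d ∈ n.divisors with Squarefree d, tmu α d := by
    rw [sum_filter]
    refine sum_congr rfl fun d _ => ?_
    split_ifs with h
    · rfl
    · rw [tmu_apply, ArithmeticFunction.moebius_eq_zero_of_not_squarefree h]
      simp
  rw [e1, Nat.sum_divisors_filter_squarefree hn]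
  have e2 : (UniqueFactorizationMonoid.normalizedFactors n).toFinset = n.primeFactors := by
    rw [Nat.factors_eq]
    rfl
  rw [e2]
  have e3 : ∏ p ∈ n.primeFactors, (1 - zp α p) = ∏ p ∈ n.primeFactors, (1 + -zp α p) :=
    prod_congr rfl fun _ _ => by ring
  rw [e3, prod_one_add]
  refine sum_congr rfl fun U hU => ?_
  rw [mem_powerset] at hU
  have h1 := (tmu_mult α).map_prod_of_subset_primeFactors n U hU
  have e4 : U.val.prod = ∏ p ∈ U, p := by
    rw [Finset.prod_eq_multiset_prod, Multiset.map_id']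
  rw [e4, h1]
  exact prod_congr rfl fun p hp => tmu_prime α (Nat.prime_of_mem_primeFactors (hU hp))

/-- The product `∏ (1 - p^{iα})`. -/
noncomputable def Gp (α : ℝ) (U : Finset ℕ) : ℂ := ∏ p ∈ U, (1 - zp α p)

/-- The product `∏ p^{-1/2}`. -/
noncomputable def rs (U : Finset ℕ) : ℝ := ∏ p ∈ U, (Real.sqrt p)⁻¹

lemma rs_nonneg (U : Finset ℕ) : 0 ≤ rs U := prod_nonneg fun _ _ => by positivity

lemma rs_eq (U : Finset ℕ) : rs U = ((pr U : ℕ) : ℝ) ^ (-(1:ℝ) / 2) := by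
  unfold rs pr
  push_cast
  rw [← Real.finsetProd_rpow _ _ (fun p _ => Nat.cast_nonneg p)]
  refine prod_congr rfl fun p _ => ?_
  rw [Real.sqrt_eq_rpow, ← Real.rpow_neg (Nat.cast_nonneg p)]
  congr 1
  norm_num

lemma primeFactors_pr {S : Finset ℕ} (hS : S ⊆ PP T) : (pr S).primeFactors = S :=
  Nat.primeFactors_prod (s := S) (fun p hp => (mem_PP.mp (hS hp)).1)

lemma mem_of_dvd_pr {S : Finset ℕ} (hS : S ⊆ PP T) {p : ℕ} (hp : p.Prime) (h : p ∣ pr S) : p ∈ S := by
  rw [← primeFactors_pr hS, Nat.mem_primeFactors]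
  exact ⟨hp, h, (pr_pos hS).ne'⟩

lemma pr_sdiff {S S' : Finset ℕ} (h : S ⊆ S') : pr S' = pr S * pr (S' \ S) := by
  classical
  unfold pr
  rw [mul_comm]
  exact (prod_sdiff h).symm

lemma inner_tsum (α : ℝ) {q : (Finset ℕ × Finset ℕ) × (Finset ℕ × Finset ℕ)} (h1 : q.1 ∈ QQ T)
    (h2 : q.2 ∈ QQ T) :
    Complex.exp ((-(α * w2 q) : ℝ) * I) * ∑' n : ℕ, (if n ≠ 0 ∧ w2 q + Real.log n = 0 then
      gco α n * ((n:ℝ) ^ (-(1:ℝ) / 2) : ℝ) else 0) =
    if q.1.1 ⊆ q.2.2 ∧ q.2.1 ⊆ q.1.2 then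
      Gp α ((q.1.2 \ q.2.1) ∪ (q.2.2 \ q.1.1)) * ((rs (q.1.2 \ q.2.1) * rs (q.2.2 \ q.1.1) : ℝ) : ℂ)
    else 0 := by
  classical
  obtain ⟨a1, a2, a3⟩ := mem_QQ.mp h1
  obtain ⟨b1, b2, b3⟩ := mem_QQ.mp h2
  by_cases hc : q.1.1 ⊆ q.2.2 ∧ q.2.1 ⊆ q.1.2
  · rw [if_pos hc]
    have c1 : q.1.2 \ q.2.1 ⊆ PP T := sdiff_subset.trans a2
    have c2 : q.2.2 \ q.1.1 ⊆ PP T := sdiff_subset.trans b2
    set n0 := pr (q.1.2 \ q.2.1) * pr (q.2.2 \ q.1.1) with hn0
    have hn0pos : n0 ≠ 0 := (Nat.mul_pos (pr_pos c1) (pr_pos c2)).ne'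
    have e1 : pr q.1.1 * pr q.2.1 * n0 = pr q.1.2 * pr q.2.2 := by
      rw [pr_sdiff hc.1, pr_sdiff hc.2, hn0]; ring
    have hw : w2 q + Real.log n0 = 0 := (w2_add_log h1 h2 hn0pos).mpr e1
    rw [tsum_eq_single n0]
    · rw [if_pos ⟨hn0pos, hw⟩]
      have e2 : w2 q = -Real.log n0 := by linarith
      have e3 : -(α * w2 q) = α * Real.log n0 := by rw [e2]; ring
      rw [e3, ← mul_assoc, tw_gco α hn0pos, tmu_zeta α hn0pos]
      congr 1
      · unfold Gp
        rw [hn0, Nat.primeFactors_mul (pr_pos c1).ne' (pr_pos c2).ne', primeFactors_pr c1,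
          primeFactors_pr c2]
      · rw [rs_eq, rs_eq, hn0]
        push_cast
        rw [Real.mul_rpow (by positivity) (by positivity)]
        push_cast
        rfl
    · intro n hn
      rw [if_neg]
      rintro ⟨h3, h4⟩
      rw [w2_add_log h1 h2 h3, ← e1] at h4
      have h5 : 0 < pr q.1.1 * pr q.2.1 := Nat.mul_pos (pr_pos a1) (pr_pos b1)
      exact hn (Nat.eq_of_mul_eq_mul_left h5 h4)
  · rw [if_neg hc]
    have h0 : ∀ n : ℕ, (if n ≠ 0 ∧ w2 q + Real.log n = 0 then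
      gco α n * (((n:ℝ) ^ (-(1:ℝ) / 2) : ℝ) : ℂ) else 0) = 0 := by
      intro n
      rw [if_neg]
      rintro ⟨h3, h4⟩
      rw [w2_add_log h1 h2 h3] at h4
      apply hc
      constructor
      · intro p hp
        have hpp := (mem_PP.mp (a1 hp)).1
        have hd : p ∣ pr q.1.2 * pr q.2.2 := by
          rw [← h4, mul_assoc]
          exact Dvd.dvd.mul_right (dvd_prod_of_mem _ hp) _
        rcases (Nat.Prime.dvd_mul hpp).mp hd with h5 | h5
        · exact absurd (mem_of_dvd_pr a2 hpp h5) (disjoint_left.mp a3 hp)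
        · exact mem_of_dvd_pr b2 hpp h5
      · intro p hp
        have hpp := (mem_PP.mp (b1 hp)).1
        have hd : p ∣ pr q.1.2 * pr q.2.2 := by
          rw [← h4, mul_comm (pr q.1.1), mul_assoc]
          exact Dvd.dvd.mul_right (dvd_prod_of_mem _ hp) _
        rcases (Nat.Prime.dvd_mul hpp).mp hd with h5 | h5
        · exact mem_of_dvd_pr a2 hpp h5
        · exact absurd (mem_of_dvd_pr b2 hpp h5) (disjoint_left.mp b3 hp)
    rw [tsum_congr h0, tsum_zero, mul_zero]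

/-- The diagonal coefficient. -/
noncomputable def M2 (R : ResData) (T α : ℝ) : ℂ := Mdiag (Q2 R T) (b2 R T α) w2 α

/-- The one-sided sum. -/
noncomputable def SS (R : ResData) (T α : ℝ) : ℂ :=
  ∑ H ∈ (PP T).powerset, ∑ N ∈ (PP T).powerset, (if Disjoint H N then
    ((aa R T H * aa R T (H ∪ N) * rs N : ℝ) : ℂ) * Gp α N else 0)

/-- The quadruple sum. -/
theorem M2_eq (R : ResData) (T α : ℝ) :
    M2 R T α = ∑ H ∈ (PP T).powerset, ∑ N ∈ (PP T).powerset, ∑ K ∈ (PP T).powerset,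
      ∑ M ∈ (PP T).powerset, (if Disjoint H N ∧ Disjoint K M ∧ Disjoint H (K ∪ M) ∧ Disjoint K (H ∪ N) then
        (((aa R T H * aa R T (H ∪ N) * rs N) * (aa R T K * aa R T (K ∪ M) * rs M) : ℝ) : ℂ) *
          Gp α (M ∪ N) else 0) := by
  classical
  set pw := (PP T).powerset with hpw
  have e1 : M2 R T α = ∑ q ∈ QQ T ×ˢ QQ T, (((al R T q.1 * al R T q.2 : ℝ) : ℂ) *
      if q.1.1 ⊆ q.2.2 ∧ q.2.1 ⊆ q.1.2 then
      Gp α ((q.1.2 \ q.2.1) ∪ (q.2.2 \ q.1.1)) * ((rs (q.1.2 \ q.2.1) * rs (q.2.2 \ q.1.1) : ℝ) : ℂ)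
      else 0) := by
    unfold M2 Mdiag Q2
    rw [sum_filter]
    refine sum_congr rfl fun q hq => ?_
    rw [mem_product] at hq
    rw [← inner_tsum α hq.1 hq.2, ← mul_assoc]
    split_ifs with h
    · rfl
    · rw [not_and_or, not_not, not_not] at h
      rcases h with h | h <;> rw [h] <;> simp
  have e2 : M2 R T α = ∑ H ∈ pw, ∑ S1 ∈ pw, ∑ K ∈ pw, ∑ S2 ∈ pw,
      (if K ⊆ S1 then (if H ⊆ S2 then (if Disjoint H S1 ∧ Disjoint K S2 then
        (((aa R T H * aa R T S2 * rs (S2 \ H)) * (aa R T K * aa R T S1 * rs (S1 \ K)) : ℝ) : ℂ) *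
          Gp α ((S1 \ K) ∪ (S2 \ H)) else 0) else 0) else 0) := by
    rw [e1]
    unfold QQ
    rw [sum_product, sum_filter, sum_product]
    refine sum_congr rfl fun H _ => sum_congr rfl fun S1 _ => ?_
    split_ifs with h
    · rw [sum_filter, sum_product]
      refine sum_congr rfl fun K _ => sum_congr rfl fun S2 _ => ?_
      simp only at h ⊢
      by_cases g1 : Disjoint K S2
      · rw [if_pos g1]
        by_cases g2 : H ⊆ S2
        · by_cases g3 : K ⊆ S1
          · rw [if_pos ⟨g2, g3⟩, if_pos g3, if_pos g2, if_pos ⟨h, g1⟩]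
            unfold al
            simp only
            push_cast
            ring
          · rw [if_neg (fun h' => g3 h'.2), if_neg g3, mul_zero]
        · rw [if_neg (fun h' => g2 h'.1), if_neg g2, mul_zero, ite_self]
      · rw [if_neg g1]
        split_ifs with h5 h6 h7
        · exact absurd h7.2 g1
        · rfl
        · rfl
        · rfl
    · symm
      refine sum_eq_zero fun K _ => sum_eq_zero fun S2 _ => ?_
      split_ifs with h5 h6 h7
      · exact absurd h7.1 h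
      · rfl
      · rfl
      · rfl
  rw [e2]
  refine sum_congr rfl fun H hH => ?_
  rw [hpw, mem_powerset] at hH
  -- move the sum over K outside
  rw [sum_comm]
  symm
  rw [sum_comm]
  refine sum_congr rfl fun K hK => ?_
  rw [hpw, mem_powerset] at hK
  -- sums over supersets
  have e3 : ∀ S1 ∈ pw, ∑ S2 ∈ pw,
      (if K ⊆ S1 then (if H ⊆ S2 then (if Disjoint H S1 ∧ Disjoint K S2 then
        (((aa R T H * aa R T S2 * rs (S2 \ H)) * (aa R T K * aa R T S1 * rs (S1 \ K)) : ℝ) : ℂ) *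
          Gp α ((S1 \ K) ∪ (S2 \ H)) else 0) else 0) else 0) =
      if K ⊆ S1 then ∑ N ∈ pw, (if Disjoint H N then (if Disjoint H S1 ∧ Disjoint K (H ∪ N) then
        (((aa R T H * aa R T (H ∪ N) * rs N) * (aa R T K * aa R T S1 * rs (S1 \ K)) : ℝ) : ℂ) *
          Gp α ((S1 \ K) ∪ N) else 0) else 0) else 0 := by
    intro S1 _
    by_cases g : K ⊆ S1
    · simp only [if_pos g]
      rw [hpw, sum_superset hH (fun S2 => (if Disjoint H S1 ∧ Disjoint K S2 then
        (((aa R T H * aa R T S2 * rs (S2 \ H)) * (aa R T K * aa R T S1 * rs (S1 \ K)) : ℝ) : ℂ) *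
          Gp α ((S1 \ K) ∪ (S2 \ H)) else 0))]
      refine sum_congr rfl fun N _ => ?_
      by_cases g2 : Disjoint H N
      · rw [if_pos g2, if_pos g2, union_sdiff_left, sdiff_eq_self_of_disjoint g2.symm]
      · rw [if_neg g2, if_neg g2]
    · simp only [if_neg g, sum_const_zero]
  rw [sum_congr rfl e3, hpw, sum_superset hK (fun S1 => ∑ N ∈ (PP T).powerset, (if Disjoint H N then
    (if Disjoint H S1 ∧ Disjoint K (H ∪ N) then
        (((aa R T H * aa R T (H ∪ N) * rs N) * (aa R T K * aa R T S1 * rs (S1 \ K)) : ℝ) : ℂ) *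
          Gp α ((S1 \ K) ∪ N) else 0) else 0)), sum_comm]
  refine sum_congr rfl fun M _ => ?_
  by_cases g2 : Disjoint K M
  · rw [if_pos g2]
    refine sum_congr rfl fun N _ => ?_
    rw [union_sdiff_left, sdiff_eq_self_of_disjoint g2.symm]
    by_cases g3 : Disjoint H N
    · rw [if_pos g3]
      by_cases g4 : Disjoint H (K ∪ M) ∧ Disjoint K (H ∪ N)
      · rw [if_pos g4, if_pos ⟨g3, g2, g4.1, g4.2⟩]
      · rw [if_neg g4, if_neg (fun h => g4 ⟨h.2.2.1, h.2.2.2⟩)]
    · rw [if_neg g3, if_neg (fun h => g3 h.1)]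
  · rw [if_neg g2]
    exact sum_eq_zero fun N _ => if_neg (fun h => g2 h.2.1)

end Pool.Agent.HalfGap
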