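import Mathlib

/-!
# A reproducing kernel for band-limited functions, valid in a complex disc
-/

open scoped ContDiff FourierTransform SchwartzMap

namespace Pool.Agent.HalfGap

open MeasureTheory Real Set

/-- The Fourier-Laplace transform. -/
noncomputable def FL (g : ℝ → ℂ) (ζ : ℂ) : ℂ := ∫ x : ℝ, g x * Complex.exp (Complex.I * ζ * x)

lemma hasCompactSupport_of_zero {g : ℝ → ℂ} {ρ : ℝ} (hs : ∀ x, ρ < |x| → g x = 0) :
    HasCompactSupport g := by
  refine HasCompactSupport.intro (isCompact_Icc (a := -ρ) (b := ρ)) fun x hx => ?_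
  apply hs
  by_contra hcon
  exact hx (abs_le.mp (not_lt.mp hcon))

lemma norm_exp_I_mul (ζ : ℂ) (x : ℝ) :
    ‖Complex.exp (Complex.I * ζ * x)‖ = Real.exp (-(ζ.im * x)) := by
  rw [Complex.norm_exp]
  congr 1
  simp

lemma integrable_FL {g h : ℝ → ℂ} (hg : Continuous g) (hh : Continuous h) {ρ : ℝ}
    (hs : ∀ x, ρ < |x| → g x = 0) : Integrable fun x : ℝ => g x * h x := by
  apply Continuous.integrable_of_hasCompactSupport (hg.mul hh)
  exact (hasCompactSupport_of_zero hs).mul_right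

lemma norm_FL_le {g : ℝ → ℂ} (hg : Continuous g) {ρ : ℝ} (hs : ∀ x, ρ < |x| → g x = 0) (ζ : ℂ) :
    ‖FL g ζ‖ ≤ (∫ x, ‖g x‖) * Real.exp (ρ * |ζ.im|) := by
  have hi : Integrable fun x => ‖g x‖ :=
    (hg.integrable_of_hasCompactSupport (hasCompactSupport_of_zero hs)).norm
  unfold FL
  rw [← integral_mul_const]
  refine norm_integral_le_of_norm_le (hi.mul_const _) (Filter.Eventually.of_forall fun x => ?_)
  rw [norm_mul, norm_exp_I_mul]
  by_cases hx : ρ < |x|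
  · rw [hs x hx]; simp
  · have hx' := not_lt.mp hx
    have h1 : -(ζ.im * x) ≤ ρ * |ζ.im| := by
      calc -(ζ.im * x) ≤ |ζ.im * x| := neg_le_abs _
        _ = |x| * |ζ.im| := by rw [abs_mul, mul_comm]
        _ ≤ ρ * |ζ.im| := by gcongr
    gcongr

lemma FL_deriv {g : ℝ → ℂ} (hg : ContDiff ℝ ∞ g) {ρ : ℝ} (hs : ∀ x, ρ < |x| → g x = 0)
    (hs' : ∀ x, ρ < |x| → deriv g x = 0) (ζ : ℂ) :
    Complex.I * ζ * FL g ζ = - FL (deriv g) ζ := by
  have hg' : Continuous (deriv g) := hg.continuous_deriv (by simp)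
  have hd : ∀ x : ℝ, HasDerivAt (fun x : ℝ => Complex.exp (Complex.I * ζ * x))
      (Complex.exp (Complex.I * ζ * x) * (Complex.I * ζ)) x := by
    intro x
    have h1 : HasDerivAt (fun x : ℝ => Complex.I * ζ * (x : ℂ)) (Complex.I * ζ) x := by
      simpa using (Complex.ofRealCLM.hasDerivAt (x := x)).const_mul (Complex.I * ζ)
    exact h1.cexp
  have hgd : ∀ x, HasDerivAt g (deriv g x) x := fun x =>
    ((hg.differentiable (by simp)) x).hasDerivAt
  have hc : Continuous fun x : ℝ => Complex.exp (Complex.I * ζ * x) := by fun_prop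
  have h := integral_mul_deriv_eq_deriv_mul_of_integrable (fun x _ => hgd x) (fun x _ => hd x)
    (integrable_FL hg.continuous (by fun_prop) hs)
    (integrable_FL hg' hc hs') (integrable_FL hg.continuous hc hs)
  unfold FL
  rw [← h, ← integral_const_mul]
  refine integral_congr_ae (Filter.Eventually.of_forall fun x => ?_)
  simp only
  ring

lemma deriv_zero_of_zero {g : ℝ → ℂ} {ρ : ℝ} (hs : ∀ x, ρ < |x| → g x = 0) :
    ∀ x, ρ < |x| → deriv g x = 0 := by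
  intro x hx
  have hev : g =ᶠ[nhds x] fun _ => 0 := by
    filter_upwards [(isOpen_lt continuous_const continuous_abs).mem_nhds hx] with y hy
    exact hs y hy
  rw [hev.deriv_eq]
  simp

lemma FL_decay (N : ℕ) : ∀ {g : ℝ → ℂ} {ρ : ℝ}, ContDiff ℝ ∞ g → (∀ x, ρ < |x| → g x = 0) →
    ∃ C : ℝ, 0 ≤ C ∧ ∀ ζ : ℂ, ‖ζ‖ ^ N * ‖FL g ζ‖ ≤ C * Real.exp (ρ * |ζ.im|) := by
  induction N with
  | zero =>
    intro g ρ hg hs
    refine ⟨∫ x, ‖g x‖, integral_nonneg fun _ => norm_nonneg _, fun ζ => ?_⟩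
    rw [pow_zero, one_mul]
    exact norm_FL_le hg.continuous hs ζ
  | succ N ih =>
    intro g ρ hg hs
    have hs' := deriv_zero_of_zero hs
    have hg' : ContDiff ℝ ∞ (deriv g) := by
      have := (contDiff_infty_iff_deriv.mp hg).2
      exact this
    obtain ⟨C, hC, h⟩ := ih hg' hs'
    refine ⟨C, hC, fun ζ => ?_⟩
    have h1 := FL_deriv hg hs hs' ζ
    have h2 : ‖ζ‖ * ‖FL g ζ‖ = ‖FL (deriv g) ζ‖ := by
      have := congrArg norm h1
      rw [norm_mul, norm_mul, Complex.norm_I, one_mul, norm_neg] at this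
      exact this
    calc ‖ζ‖ ^ (N + 1) * ‖FL g ζ‖ = ‖ζ‖ ^ N * (‖ζ‖ * ‖FL g ζ‖) := by ring
      _ ≤ _ := by rw [h2]; exact h ζ

/-- The bump. -/
noncomputable def bmp : ContDiffBump (0 : ℝ) := ⟨1, 2, one_pos, one_lt_two⟩

lemma bmp_one {x : ℝ} (hx : |x| ≤ 1) : bmp x = 1 := by
  apply bmp.one_of_mem_closedBall
  rw [mem_closedBall_zero_iff, Real.norm_eq_abs]
  exact hx

lemma bmp_zero {x : ℝ} (hx : 2 < |x|) : bmp x = 0 := by
  apply bmp.zero_of_le_dist
  rw [dist_zero_right, Real.norm_eq_abs]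
  exact hx.le

/-- The kernel. -/
noncomputable def kk (w : ℂ) (u : ℝ) : ℂ := FL (fun x => ((bmp x : ℝ) : ℂ)) (2 * π * (u - w))

lemma bmp_contDiff : ContDiff ℝ ∞ fun x => ((bmp x : ℝ) : ℂ) :=
  Complex.ofRealCLM.contDiff.comp bmp.contDiff

lemma kk_decay (A : ℝ) (N : ℕ) : ∃ C : ℝ, 0 ≤ C ∧ ∀ w : ℂ, ‖w‖ ≤ A → ∀ u : ℝ,
    ‖kk w u‖ ≤ C * ((1 + |u|) ^ N)⁻¹ := by
  have hs : ∀ x, (2:ℝ) < |x| → (fun x => ((bmp x : ℝ) : ℂ)) x = 0 := fun x hx => by
    simp only [bmp_zero hx, Complex.ofReal_zero]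
  obtain ⟨C0, hC0, h0⟩ := FL_decay 0 bmp_contDiff hs
  obtain ⟨C1, hC1, h1⟩ := FL_decay N bmp_contDiff hs
  rcases le_or_gt 0 A with hA | hA
  · refine ⟨2 ^ N * ((1 + A) ^ N * C0 + C1) * Real.exp (4 * π * A), by positivity,
      fun w hw u => ?_⟩
    set ζ : ℂ := 2 * π * (u - w) with hζ
    have him : |ζ.im| ≤ 2 * π * A := by
      have h2 : ζ.im = -(2 * π * w.im) := by
        rw [hζ]
        simp
      rw [h2, abs_neg, abs_mul, abs_of_pos (by positivity : 0 < 2 * π)]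
      gcongr
      exact (Complex.abs_im_le_norm w).trans hw
    have hexp : Real.exp (2 * |ζ.im|) ≤ Real.exp (4 * π * A) := by
      apply Real.exp_le_exp.mpr
      linarith
    have hn : ‖(u : ℂ) - w‖ ≤ ‖ζ‖ := by
      rw [hζ, norm_mul]
      have h3 : ‖(2 * π : ℂ)‖ = 2 * π := by
        rw [norm_mul, Complex.norm_real, Real.norm_of_nonneg Real.pi_pos.le]
        simp
      rw [h3]
      have := Real.pi_gt_three
      have := norm_nonneg ((u : ℂ) - w)
      nlinarith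
    have hu : 1 + |u| ≤ (1 + A) + ‖ζ‖ := by
      have h4 : |u| ≤ ‖(u : ℂ) - w‖ + ‖w‖ := by
        calc |u| = ‖((u : ℂ) - w) + w‖ := by rw [sub_add_cancel, Complex.norm_real, Real.norm_eq_abs]
          _ ≤ _ := norm_add_le _ _
      linarith
    have hp : (1 + |u|) ^ N ≤ 2 ^ N * ((1 + A) ^ N + ‖ζ‖ ^ N) := by
      calc (1 + |u|) ^ N ≤ ((1 + A) + ‖ζ‖) ^ N := by gcongr
        _ ≤ 2 ^ (N - 1) * ((1 + A) ^ N + ‖ζ‖ ^ N) :=
            add_pow_le (by linarith) (norm_nonneg _) N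
        _ ≤ _ := by
            gcongr
            · norm_num
            · omega
    rw [← div_eq_mul_inv, le_div_iff₀ (by positivity)]
    have e0 : ‖kk w u‖ ≤ C0 * Real.exp (4 * π * A) := by
      have := h0 ζ
      rw [pow_zero, one_mul] at this
      calc ‖kk w u‖ ≤ C0 * Real.exp (2 * |ζ.im|) := this
        _ ≤ _ := by gcongr
    have e1 : ‖ζ‖ ^ N * ‖kk w u‖ ≤ C1 * Real.exp (4 * π * A) := by
      calc ‖ζ‖ ^ N * ‖kk w u‖ ≤ C1 * Real.exp (2 * |ζ.im|) := h1 ζ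
        _ ≤ _ := by gcongr
    calc ‖kk w u‖ * (1 + |u|) ^ N ≤ ‖kk w u‖ * (2 ^ N * ((1 + A) ^ N + ‖ζ‖ ^ N)) := by gcongr
      _ = 2 ^ N * ((1 + A) ^ N * ‖kk w u‖ + ‖ζ‖ ^ N * ‖kk w u‖) := by ring
      _ ≤ 2 ^ N * ((1 + A) ^ N * (C0 * Real.exp (4 * π * A)) + C1 * Real.exp (4 * π * A)) := by
          gcongr
      _ = _ := by ring
  · exact ⟨0, le_refl _, fun w hw => absurd (norm_nonneg w) (by linarith)⟩

lemma exists_schwartz (w : ℂ) : ∃ g : 𝓢(ℝ, ℂ),
    (∀ x : ℝ, g x = ((bmp x : ℝ) : ℂ) * Complex.exp (-(2 * π * w * x) * Complex.I)) ∧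
    kk w = 𝓕⁻ (g : ℝ → ℂ) := by
  set g0 : ℝ → ℂ := fun x => ((bmp x : ℝ) : ℂ) * Complex.exp (-(2 * π * w * x) * Complex.I) with hg0
  have hs : ∀ x, (2:ℝ) < |x| → g0 x = 0 := fun x hx => by
    simp only [hg0, bmp_zero hx, Complex.ofReal_zero, zero_mul]
  have hsm : ContDiff ℝ ∞ g0 := by
    refine bmp_contDiff.mul ?_
    refine ContDiff.cexp ?_
    have h1 : ContDiff ℝ ∞ (fun x : ℝ => (x : ℂ)) := Complex.ofRealCLM.contDiff
    exact ((contDiff_const.mul h1).neg).mul contDiff_const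
  have hcs : HasCompactSupport g0 := hasCompactSupport_of_zero hs
  refine ⟨hcs.toSchwartzMap hsm, fun _ => rfl, ?_⟩
  have hgg : (hcs.toSchwartzMap hsm : ℝ → ℂ) = g0 := rfl
  funext u
  rw [Real.fourierInv_eq']
  unfold kk FL
  refine integral_congr_ae (Filter.Eventually.of_forall fun v => ?_)
  simp only [smul_eq_mul, hgg, hg0]
  rw [mul_left_comm (Complex.exp _) ((bmp v : ℝ) : ℂ), ← Complex.exp_add]
  congr 2
  simp only [RCLike.inner_apply, conj_trivial]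
  push_cast
  ring

/-- The reproducing property. -/
lemma kk_rep (w : ℂ) {x : ℝ} (hx : |x| ≤ 1) :
    ∫ u : ℝ, kk w u * Complex.exp (((-(2 * π * u * x) : ℝ) : ℂ) * Complex.I) =
      Complex.exp (-(2 * π * w * x) * Complex.I) := by
  obtain ⟨g, hg, hinv⟩ := exists_schwartz w
  have h := congrFun (g.continuous.fourier_fourierInv_eq g.integrable
    (𝓕 g : 𝓢(ℝ, ℂ)).integrable) x
  rw [Real.fourier_eq', ← hinv, hg x, bmp_one hx, Complex.ofReal_one, one_mul] at h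
  rw [← h]
  refine integral_congr_ae (Filter.Eventually.of_forall fun u => ?_)
  simp only [smul_eq_mul]
  rw [mul_comm]
  congr 3
  simp only [RCLike.inner_apply, conj_trivial]
  push_cast
  ring

lemma kk_continuous (w : ℂ) : Continuous (kk w) := by
  obtain ⟨g, hg, hinv⟩ := exists_schwartz w
  rw [hinv, ← SchwartzMap.fourierInv_coe]
  exact (𝓕⁻ g : 𝓢(ℝ, ℂ)).continuous

end Pool.Agent.HalfGap
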