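import Pool.Agent.ZGap.Half.SLim

/-!
# Equidistribution of the normalised logarithm, and the limit of the one-sided sum
-/

namespace Pool.Agent.HalfGap

open MeasureTheory Finset Pool.Agent.ZGap.Res Filter Topology Complex

variable {R : ResData} {T : ℝ}

lemma rho_one (j : ℕ) : rho 1 j = 1 / ((j:ℝ) + 1) := by
  induction j with
  | zero => simp [rho]
  | succ j ih =>
    rw [rho_succ, ih]
    push_cast
    field_simp
    ring

/-- Polynomial test functions. -/
lemma br_poly (P : Polynomial ℝ) (hr : R.r ^ 2 = 1) {η : ℝ} (hη : 0 < η) :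
    ∃ T0 : ℝ, Real.exp 3 ≤ T0 ∧ ∀ T : ℝ, T0 ≤ T →
      |br R T (fun u => tp 0 u * P.eval (1 - u)) - (∫ x in (0:ℝ)..1, P.eval x) * mom R T 0| ≤
        (∑ j ∈ range (P.natDegree + 1), |P.coeff j| * j) * (1 / R.th * (2 * R.ep + η)) * mom R T 0 := by
  have hth := th_pos R
  have hep := R.ep_pos
  have h1 : ∀ j ∈ range (P.natDegree + 1), ∀ᶠ T : ℝ in atTop,
      |mom R T j - rho (R.r ^ 2) j * mom R T 0| ≤ j * (R.r ^ 2 / R.th * (2 * R.ep + η)) * mom R T 0 := by
    intro j _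
    obtain ⟨T0, _, h⟩ := mom_ratio R j hη
    filter_upwards [eventually_ge_atTop T0] with T hT
    exact h T hT
  have h2 := (eventually_all_finset _).mpr h1
  obtain ⟨T0, hT0⟩ := eventually_atTop.mp h2
  refine ⟨max T0 (Real.exp 3), le_max_right _ _, fun T hT => ?_⟩
  have h3 := hT0 T ((le_max_left _ _).trans hT)
  have hTe : Real.exp 3 ≤ T := (le_max_right _ _).trans hT
  have h1T : 1 < T := lt_of_lt_of_le (Real.one_lt_exp_iff.mpr (by norm_num)) hTe
  have e1 : br R T (fun u => tp 0 u * P.eval (1 - u)) =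
      ∑ j ∈ range (P.natDegree + 1), P.coeff j * mom R T j := by
    have e2 : (fun u => tp 0 u * P.eval (1 - u)) =
        fun u => ∑ j ∈ range (P.natDegree + 1), P.coeff j * tp j u := by
      funext u
      rw [Polynomial.eval_eq_sum_range, mul_sum]
      refine sum_congr rfl fun j _ => ?_
      unfold tp
      split_ifs
      · ring
      · ring
    rw [e2, br_sum (range (P.natDegree + 1)) (fun j u => P.coeff j * tp j u)]
    refine sum_congr rfl fun j _ => ?_
    rw [br_mul]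
    rfl
  have e3 : ∫ x in (0:ℝ)..1, P.eval x = ∑ j ∈ range (P.natDegree + 1), P.coeff j * (1 / ((j:ℝ) + 1)) := by
    have e4 : (fun x : ℝ => P.eval x) = fun x => ∑ j ∈ range (P.natDegree + 1), P.coeff j * x ^ j := by
      funext x
      rw [Polynomial.eval_eq_sum_range]
    rw [e4, intervalIntegral.integral_finsetSum]
    · refine sum_congr rfl fun j _ => ?_
      rw [intervalIntegral.integral_const_mul, integral_pow]
      simp
    · intro j _
      exact Continuous.intervalIntegrable (by fun_prop) _ _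
  rw [e1, e3, sum_mul, ← sum_sub_distrib, sum_mul, sum_mul]
  refine (abs_sum_le_sum_abs _ _).trans (sum_le_sum fun j hj => ?_)
  have h4 := h3 j hj
  rw [hr, rho_one] at h4
  have e5 : P.coeff j * mom R T j - P.coeff j * (1 / ((j:ℝ) + 1)) * mom R T 0 =
      P.coeff j * (mom R T j - 1 / ((j:ℝ) + 1) * mom R T 0) := by ring
  rw [e5, abs_mul]
  calc |P.coeff j| * |mom R T j - 1 / ((j:ℝ) + 1) * mom R T 0|
      ≤ |P.coeff j| * (j * (1 / R.th * (2 * R.ep + η)) * mom R T 0) := by gcongr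
    _ = _ := by ring

/-- Continuous test functions. -/
theorem br_lim {G : ℝ → ℝ} (hG : Continuous G) {θ ε0 : ℝ} (hθ : 0 < θ) (hε : 0 < ε0) :
    ∃ e : ℝ, 0 < e ∧ ∀ R : ResData, R.r ^ 2 = 1 → R.th = θ → R.ep ≤ e →
      ∃ T0 : ℝ, Real.exp 3 ≤ T0 ∧ ∀ T : ℝ, T0 ≤ T →
        |br R T (fun u => tp 0 u * G (1 - u)) - (∫ x in (0:ℝ)..1, G x) * mom R T 0| ≤
          ε0 * mom R T 0 := by
  obtain ⟨P, hP⟩ := exists_polynomial_near_of_continuousOn 0 1 G hG.continuousOn (ε0 / 4) (by positivity)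
  set C := ∑ j ∈ range (P.natDegree + 1), |P.coeff j| * (j:ℝ) with hC
  have hC0 : 0 ≤ C := sum_nonneg fun j _ => by positivity
  obtain ⟨e, he, he'⟩ : ∃ e : ℝ, 0 < e ∧ C * (1 / θ * (3 * e)) ≤ ε0 / 4 := by
    refine ⟨ε0 * θ / (12 * (C + 1)), by positivity, ?_⟩
    have : C * (1 / θ * (3 * (ε0 * θ / (12 * (C + 1))))) = ε0 / 4 * (C / (C + 1)) := by
      field_simp
      ring
    rw [this]
    have h5 : C / (C + 1) ≤ 1 := by rw [div_le_one (by positivity)]; linarith
    nlinarith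
  refine ⟨e, he, fun R hr hth hep => ?_⟩
  obtain ⟨T0, hT0, h1⟩ := br_poly (R := R) P hr he
  refine ⟨T0, hT0, fun T hT => ?_⟩
  have hTe : Real.exp 3 ≤ T := hT0.trans hT
  have h1T : 1 < T := lt_of_lt_of_le (Real.one_lt_exp_iff.mpr (by norm_num)) hTe
  have h2 := h1 T hT
  have hm := mom_nonneg (R := R) h1T 0
  rw [← hC] at h2
  have h3 : C * (1 / R.th * (2 * R.ep + e)) ≤ ε0 / 4 := by
    rw [hth]
    refine le_trans ?_ he'
    gcongr
    linarith
  have h4 : |br R T (fun u => tp 0 u * G (1 - u)) - br R T (fun u => tp 0 u * P.eval (1 - u))| ≤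
      ε0 / 4 * mom R T 0 := by
    rw [← br_sub]
    unfold mom
    rw [← br_mul]
    refine abs_br_le h1T fun u hu => ?_
    rw [tp_zero]
    split_ifs with h
    · have := hP (1 - u) ⟨by linarith, by linarith⟩
      rw [one_mul, one_mul, mul_one, abs_sub_comm]
      exact this.le
    · simp
  have h5 : |(∫ x in (0:ℝ)..1, P.eval x) - ∫ x in (0:ℝ)..1, G x| ≤ ε0 / 4 := by
    rw [← intervalIntegral.integral_sub (P.continuous.intervalIntegrable _ _)
      (hG.intervalIntegrable _ _)]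
    calc |∫ x in (0:ℝ)..1, (P.eval x - G x)| ≤ ∫ x in (0:ℝ)..1, |P.eval x - G x| :=
          intervalIntegral.abs_integral_le_integral_abs zero_le_one
      _ ≤ ∫ x in (0:ℝ)..1, ε0 / 4 := by
          apply intervalIntegral.integral_mono_on zero_le_one
          · exact ((P.continuous.sub hG).abs).intervalIntegrable _ _
          · simp
          · intro x hx
            exact (hP x hx).le
      _ = ε0 / 4 := by simp
  have h6 : |(∫ x in (0:ℝ)..1, P.eval x) * mom R T 0 - (∫ x in (0:ℝ)..1, G x) * mom R T 0| ≤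
      ε0 / 4 * mom R T 0 := by
    rw [← sub_mul, abs_mul, abs_of_nonneg hm]
    gcongr
  have h7 : C * (1 / R.th * (2 * R.ep + e)) * mom R T 0 ≤ ε0 / 4 * mom R T 0 := by gcongr
  rw [abs_le] at *
  constructor <;> linarith [h2.1, h2.2, h4.1, h4.2, h6.1, h6.2, mul_nonneg hε.le hm]

/-- The limit of the normalised one-sided sum. -/
noncomputable def lam (φ : ℝ) : ℂ :=
  Complex.exp ((φ / 2 : ℝ) * I) * ((Real.sin (φ / 2) / (φ / 2) : ℝ) : ℂ)

lemma norm_lam_le (φ : ℝ) : ‖lam φ‖ ≤ 1 := by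
  unfold lam
  rw [norm_mul, Complex.norm_exp_ofReal_mul_I, one_mul, Complex.norm_real, Real.norm_eq_abs, abs_div]
  apply div_le_one_of_le₀ _ (abs_nonneg _)
  exact Real.abs_sin_le_abs

lemma lam_eq {φ : ℝ} (hφ : φ ≠ 0) : lam φ = Complex.exp ((φ : ℝ) * I) *
    (((∫ x in (0:ℝ)..1, Real.cos (φ * x) : ℝ) : ℂ) - ((∫ x in (0:ℝ)..1, Real.sin (φ * x) : ℝ) : ℂ) * I) := by
  have e1 : ∫ x in (0:ℝ)..1, Real.cos (φ * x) = Real.sin φ / φ := by
    rw [intervalIntegral.integral_comp_mul_left _ hφ]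
    simp
    ring
  have e2 : ∫ x in (0:ℝ)..1, Real.sin (φ * x) = (1 - Real.cos φ) / φ := by
    rw [intervalIntegral.integral_comp_mul_left _ hφ]
    simp
    ring
  rw [e1, e2]
  unfold lam
  have hs : Real.sin φ = 2 * Real.sin (φ / 2) * Real.cos (φ / 2) := by
    rw [← Real.sin_two_mul]; congr 1; ring
  have hc : 1 - Real.cos φ = 2 * Real.sin (φ / 2) * Real.sin (φ / 2) := by
    have := Real.cos_two_mul (φ / 2)
    have h2 := Real.sin_sq_add_cos_sq (φ / 2)
    have h3 : 2 * (φ / 2) = φ := by ring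
    rw [h3] at this
    nlinarith
  rw [hs, hc]
  have e3 : ((φ : ℝ) : ℂ) * I = ((φ / 2 : ℝ) : ℂ) * I + ((φ / 2 : ℝ) : ℂ) * I := by
    push_cast; ring
  rw [e3, Complex.exp_add, mul_assoc]
  congr 1
  have hφc : (φ : ℂ) ≠ 0 := by exact_mod_cast hφ
  have e4 : Complex.exp (((φ / 2 : ℝ) : ℂ) * I) = ((Real.cos (φ / 2) : ℝ) : ℂ) + ((Real.sin (φ / 2) : ℝ) : ℂ) * I := by
    rw [Complex.exp_mul_I, ← Complex.ofReal_cos, ← Complex.ofReal_sin]
  rw [e4]
  set s := Real.sin (φ / 2)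
  set c := Real.cos (φ / 2)
  have hsc : ((c:ℂ) + s * I) * ((c:ℂ) - s * I) = 1 := by
    have h2 := Real.sin_sq_add_cos_sq (φ / 2)
    have h5 : (c:ℂ) ^ 2 + (s:ℂ) ^ 2 = 1 := by
      have : c ^ 2 + s ^ 2 = 1 := by linarith
      exact_mod_cast this
    have h6 : ((c:ℂ) + s * I) * ((c:ℂ) - s * I) = (c:ℂ) ^ 2 - (s:ℂ) ^ 2 * (I * I) := by ring
    rw [h6, Complex.I_mul_I]
    linear_combination h5
  push_cast
  field_simp
  linear_combination (-(s:ℂ)) * hsc

/-- The limit of the ideal sum. -/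
theorem S0_lim {A θ ε0 : ℝ} (hA : 0 < A) (hθ : 0 < θ) (hε : 0 < ε0) :
    ∃ e : ℝ, 0 < e ∧ ∀ R : ResData, R.r ^ 2 = 1 → R.th = θ → R.ep ≤ e →
      ∃ T0 : ℝ, Real.exp 3 ≤ T0 ∧ ∀ T : ℝ, T0 ≤ T →
        ‖S0 R T (A / Real.log T) - lam (A * θ) * mom R T 0‖ ≤ ε0 * mom R T 0 := by
  set φ := A * θ with hφ
  have hφ0 : 0 < φ := by positivity
  obtain ⟨e1, he1, h1⟩ := br_lim (G := fun x => Real.cos (φ * x)) (by fun_prop) hθ (half_pos hε)
  obtain ⟨e2, he2, h2⟩ := br_lim (G := fun x => Real.sin (φ * x)) (by fun_prop) hθ (half_pos hε)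
  refine ⟨min e1 e2, lt_min he1 he2, fun R hr hth hep => ?_⟩
  obtain ⟨T1, hT1, g1⟩ := h1 R hr hth (hep.trans (min_le_left _ _))
  obtain ⟨T2, hT2, g2⟩ := h2 R hr hth (hep.trans (min_le_right _ _))
  refine ⟨max T1 T2, hT1.trans (le_max_left _ _), fun T hT => ?_⟩
  have k1 := g1 T ((le_max_left _ _).trans hT)
  have k2 := g2 T ((le_max_right _ _).trans hT)
  have hTe : Real.exp 3 ≤ T := hT1.trans ((le_max_left _ _).trans hT)
  have h1T : 1 < T := lt_of_lt_of_le (Real.one_lt_exp_iff.mpr (by norm_num)) hTe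
  have hL : 0 < Real.log T := Real.log_pos h1T
  have hRth := th_pos R
  set C := br R T (fun u => tp 0 u * Real.cos (φ * (1 - u))) with hC
  set D := br R T (fun u => tp 0 u * Real.sin (φ * (1 - u))) with hD
  set m := mom R T 0 with hm
  have e3 : S0 R T (A / Real.log T) = Complex.exp ((φ : ℝ) * I) * ((C : ℂ) - (D : ℂ) * I) := by
    rw [hC, hD]
    unfold S0 br
    push_cast
    rw [sum_mul, ← sum_sub_distrib, mul_sum]
    refine sum_congr rfl fun U _ => ?_
    have e4 : ∏ p ∈ U, zp (A / Real.log T) p = Complex.exp ((φ * uu R T U : ℝ) * I) := by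
      unfold zp
      rw [← Complex.exp_sum]
      congr 1
      rw [← sum_mul]
      congr 1
      rw [← Complex.ofReal_sum]
      congr 1
      rw [← mul_sum]
      unfold uu ell
      rw [hφ, hth]
      field_simp
    rw [e4]
    have e5 : Complex.exp ((φ * uu R T U : ℝ) * I) = Complex.exp ((φ : ℝ) * I) *
        (Complex.cos (φ * (1 - uu R T U)) - Complex.sin (φ * (1 - uu R T U)) * I) := by
      have e6 : Complex.cos (φ * (1 - uu R T U)) - Complex.sin (φ * (1 - uu R T U)) * I =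
          Complex.exp (-(φ * (1 - uu R T U)) * I) := by
        rw [Complex.exp_mul_I, Complex.cos_neg, Complex.sin_neg]
        ring
      rw [e6, ← Complex.exp_add]
      congr 1
      push_cast
      ring
    rw [e5]
    ring
  rw [e3, lam_eq hφ0.ne']
  have e7 : Complex.exp ((φ : ℝ) * I) * ((C : ℂ) - (D : ℂ) * I) - Complex.exp ((φ : ℝ) * I) *
      (((∫ x in (0:ℝ)..1, Real.cos (φ * x) : ℝ) : ℂ) - ((∫ x in (0:ℝ)..1, Real.sin (φ * x) : ℝ) : ℂ) * I) *
        (m : ℂ) = Complex.exp ((φ : ℝ) * I) *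
      (((C - (∫ x in (0:ℝ)..1, Real.cos (φ * x)) * m : ℝ) : ℂ) -
        ((D - (∫ x in (0:ℝ)..1, Real.sin (φ * x)) * m : ℝ) : ℂ) * I) := by
    push_cast
    ring
  rw [e7, norm_mul, Complex.norm_exp_ofReal_mul_I, one_mul]
  refine (norm_sub_le _ _).trans ?_
  rw [norm_mul, Complex.norm_I, mul_one, Complex.norm_real, Complex.norm_real, Real.norm_eq_abs,
    Real.norm_eq_abs]
  linarith

end Pool.Agent.HalfGap
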