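import Pool.Agent.Lib.Hadamard.Xi
import Pool.Agent.Lib.Hadamard.Conj

/-!
# Definitions for the residue identity of `ξ(s + iα) / ξ(s)`
-/

namespace Pool.Agent.HalfGap

open Complex Pool.Agent.Hadamard

/-- The quotient `ξ(s + iα) / ξ(s)`. -/
noncomputable def fq (α : ℝ) (s : ℂ) : ℂ := xiF (s + α * I) / xiF s

/-- The archimedean factor of `fq`. -/
noncomputable def gam (α : ℝ) (s : ℂ) : ℂ :=
  ((s + α * I) * (s + α * I - 1) * Gammaℝ (s + α * I)) / (s * (s - 1) * Gammaℝ s)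

/-- The Gaussian weight of width `H` centred at height `t0`. -/
noncomputable def Og (H t0 : ℝ) (s : ℂ) : ℂ :=
  Complex.exp (((s - 1 / 2) - t0 * I) ^ 2 / (H : ℂ) ^ 2)

/-- The coefficients of `ζ(s + iα) / ζ(s)`. -/
noncomputable def gco (α : ℝ) (n : ℕ) : ℂ :=
  ∑ d ∈ n.divisorsAntidiagonal, (ArithmeticFunction.moebius d.1 : ℂ) * (d.2 : ℂ) ^ (-(α * I : ℂ))

lemma fq_eq {α : ℝ} {s : ℂ} (hs : 1 < s.re) :
    fq α s = gam α s * (riemannZeta (s + α * I) / riemannZeta s) := by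
  have h0 : 0 < s.re := by linarith
  have e1 : (s + α * I).re = s.re := by simp
  have hs1 : s ≠ 1 := by rintro rfl; simp at hs
  have hs1' : s + α * I ≠ 1 := by
    intro h; rw [h] at e1; simp at e1; linarith
  have hs0 : s ≠ 0 := by rintro rfl; simp at h0
  unfold fq gam
  rw [xiF_eq_zeta h0 hs1, xiF_eq_zeta (by rw [e1]; exact h0) hs1']
  have hG := Gammaℝ_ne_zero_of_re_pos h0
  have hz := riemannZeta_ne_zero_of_one_le_re hs.le
  have hs1'' : s - 1 ≠ 0 := sub_ne_zero.mpr hs1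
  field_simp

end Pool.Agent.HalfGap
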