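import Pool.Agent.ZGap.Half.Gam

/-!
# The integral of the Gaussian weight against the archimedean factor
-/

open Complex Set MeasureTheory Filter
open scoped Topology

namespace Pool.Agent.HalfGap

open Pool.Agent.Hadamard

lemma Og_two (H t0 t : ℝ) : Og H t0 (2 + t * I) =
    ((Real.exp (-(t - t0) ^ 2 / H ^ 2) : ℝ) : ℂ) * exp (((9 / 4 : ℝ) + (3 * (t - t0) : ℝ) * I) / (H : ℂ) ^ 2) := by
  unfold Og
  rw [ofReal_exp, ← exp_add]
  congr 1
  push_cast
  have h : ((2 + (t:ℂ) * I - 1 / 2) - t0 * I) ^ 2 = -((t:ℂ) - t0) ^ 2 + (9 / 4 + 3 * ((t:ℂ) - t0) * I) := by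
    have : (I:ℂ) ^ 2 = -1 := I_sq
    linear_combination (((t:ℂ) - t0) ^ 2) * this
  rw [h]
  ring

lemma eventually_log_le {r : ℝ} (hr : 0 < r) (K : ℝ) (hK : 0 < K) : ∀ᶠ T : ℝ in atTop, K * Real.log T ≤ T ^ r := by
  have h1 := (isLittleO_log_rpow_atTop hr).def (c := 1 / K) (by positivity)
  filter_upwards [h1, eventually_ge_atTop 1] with T hT hT1
  rw [Real.norm_eq_abs, Real.norm_eq_abs, abs_of_nonneg (Real.log_nonneg hT1),
    abs_of_nonneg (Real.rpow_nonneg (by linarith) _)] at hT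
  calc K * Real.log T ≤ K * (1 / K * T ^ r) := by gcongr
    _ = T ^ r := by field_simp

lemma gauss_full {H : ℝ} (hH : 0 < H) (t0 : ℝ) :
    ∫ t : ℝ, Real.exp (-(t - t0) ^ 2 / H ^ 2) = Real.sqrt Real.pi * H := by
  have h1 : ∫ t : ℝ, Real.exp (-(t - t0) ^ 2 / H ^ 2) = ∫ t : ℝ, Real.exp (-t ^ 2 / H ^ 2) :=
    integral_sub_right_eq_self (fun t => Real.exp (-t ^ 2 / H ^ 2)) t0
  rw [h1]
  have h2 : (fun t : ℝ => Real.exp (-t ^ 2 / H ^ 2)) = fun t => Real.exp (-(1 / H ^ 2) * t ^ 2) := by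
    ext t; congr 1; ring
  rw [h2, integral_gaussian]
  rw [show Real.pi / (1 / H ^ 2) = Real.pi * H ^ 2 by field_simp, Real.sqrt_mul Real.pi_pos.le,
    Real.sqrt_sq hH.le]

lemma integrable_gauss {H : ℝ} (hH : 0 < H) (t0 : ℝ) :
    Integrable (fun t : ℝ => Real.exp (-(t - t0) ^ 2 / H ^ 2)) := by
  have h2 : Integrable (fun t : ℝ => Real.exp (-(1 / H ^ 2) * t ^ 2)) :=
    integrable_exp_neg_mul_sq (by positivity)
  have h3 := h2.comp_sub_right t0
  refine h3.congr (Eventually.of_forall (fun t => ?_))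
  simp only
  congr 1; ring

lemma gauss_tail {H U : ℝ} (hH : 0 < H) (hU : 0 < U) (t0 : ℝ) :
    |(∫ t in (t0 - U)..(t0 + U), Real.exp (-(t - t0) ^ 2 / H ^ 2)) - Real.sqrt Real.pi * H|
      ≤ Real.exp (-U ^ 2 / (2 * H ^ 2)) * (Real.sqrt Real.pi * (Real.sqrt 2 * H)) := by
  have hint := integrable_gauss hH t0
  have hH2 : 0 < Real.sqrt 2 * H := by positivity
  have hint2 := integrable_gauss hH2 t0
  have hab : t0 - U ≤ t0 + U := by linarith
  rw [intervalIntegral.integral_of_le hab, ← gauss_full hH t0]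
  have h1 := integral_add_compl (measurableSet_Ioc (a := t0 - U) (b := t0 + U)) hint
  rw [← h1]
  have h2 : (∫ t in Ioc (t0 - U) (t0 + U), Real.exp (-(t - t0) ^ 2 / H ^ 2)) -
      ((∫ t in Ioc (t0 - U) (t0 + U), Real.exp (-(t - t0) ^ 2 / H ^ 2)) +
        ∫ t in (Ioc (t0 - U) (t0 + U))ᶜ, Real.exp (-(t - t0) ^ 2 / H ^ 2))
      = -∫ t in (Ioc (t0 - U) (t0 + U))ᶜ, Real.exp (-(t - t0) ^ 2 / H ^ 2) := by ring
  rw [h2, abs_neg, abs_of_nonneg (integral_nonneg (fun t => (Real.exp_pos _).le)), ← gauss_full hH2 t0,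
    ← integral_const_mul]
  refine le_trans ?_ (setIntegral_le_integral (s := (Ioc (t0 - U) (t0 + U))ᶜ) (hint2.const_mul _)
    (Eventually.of_forall (fun t => by positivity)))
  refine setIntegral_mono_on hint.integrableOn (hint2.const_mul _).integrableOn
    measurableSet_Ioc.compl (fun t ht => ?_)
  rw [← Real.exp_add, Real.exp_le_exp]
  have h3 : U ^ 2 ≤ (t - t0) ^ 2 := by
    rw [mem_compl_iff, mem_Ioc, not_and_or, not_lt, not_le] at ht
    rcases ht with h | h
    · nlinarith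
    · nlinarith
  have h4 : (Real.sqrt 2 * H) ^ 2 = 2 * H ^ 2 := by
    rw [mul_pow, Real.sq_sqrt (by norm_num)]
  rw [h4]
  have hH2' : 0 < 2 * H ^ 2 := by positivity
  have h5 : -(t - t0) ^ 2 / H ^ 2 = (-(t - t0) ^ 2 - (t - t0) ^ 2) / (2 * H ^ 2) := by field_simp; ring
  rw [h5, ← add_div]
  gcongr
  linarith

theorem gam_int {A η1 η2 : ℝ} (hA : 0 < A) (h1 : 1 / 2 < η1) (h12 : η1 < η2) (h2 : η2 < 1) :
    ∃ C T0 : ℝ, 0 < C ∧ ∀ T α t0 : ℝ, T0 ≤ T → 0 ≤ α → α ≤ A / Real.log T → T ≤ t0 → t0 ≤ 2 * T →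
    ‖(∫ t in (t0 - T ^ η2)..(t0 + T ^ η2), Og (T ^ η1) t0 (2 + t * I) * gam α (2 + t * I)) -
      ((Real.sqrt Real.pi * T ^ η1 : ℝ) : ℂ) *
        Complex.exp ((α / 2 * Real.log (T / (2 * Real.pi)) : ℝ) * I)‖ ≤ C / Real.log T * T ^ η1 := by
  obtain ⟨C0, T1, hC0, hT1, hgam⟩ := norm_gam_sub A hA
  have hev := ((eventually_log_le (r := 2 * η1 - η2) (by linarith) 12 (by norm_num)).and
    (eventually_log_le (r := 2 * (η2 - η1)) (by linarith) 12 (by norm_num))).and
    (eventually_log_le (r := 1 - η2) (by linarith) 12 (by norm_num))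
  obtain ⟨T2, hT2⟩ := eventually_atTop.mp hev
  set C1 : ℝ := C0 + A + A with hC1
  refine ⟨(3 * C1 + 1) * Real.sqrt Real.pi + Real.sqrt Real.pi * Real.sqrt 2, max (max T1 T2) 8, by positivity, ?_⟩
  intro T α t0 hT hα hαA hTt ht2
  have hTT1 : T1 ≤ T := (le_max_left _ _).trans ((le_max_left _ _).trans hT)
  have hTT2 : T2 ≤ T := (le_max_right _ _).trans ((le_max_left _ _).trans hT)
  have hT8 : 8 ≤ T := (le_max_right _ _).trans hT
  have hT0 : 0 < T := by linarith
  obtain ⟨⟨e1, e2⟩, e3⟩ := hT2 T hTT2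
  set L := Real.log T with hL
  have hL1 : 1 ≤ L := by
    rw [hL, Real.le_log_iff_exp_le hT0]
    have := Real.exp_one_lt_d9
    linarith
  have hL0 : 0 < L := by linarith
  set H := T ^ η1 with hH
  set U := T ^ η2 with hU
  have hH0 : 0 < H := Real.rpow_pos_of_pos hT0 _
  have hU0 : 0 < U := Real.rpow_pos_of_pos hT0 _
  have hU1 : 1 ≤ U := Real.one_le_rpow (by linarith) (by linarith)
  have hH1 : 1 ≤ H := Real.one_le_rpow (by linarith) (by linarith)
  -- U ≤ T/2
  have hUT : U ≤ T / 2 := by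
    have h3 : U * T ^ (1 - η2) = T := by
      rw [hU, ← Real.rpow_add hT0]; simp
    have h4 : 2 ≤ T ^ (1 - η2) := by linarith
    nlinarith
  -- (9/4+3U)/H^2 ≤ 1/(2L)
  have hsmall : (9 / 4 + 3 * U) / H ^ 2 ≤ 1 / (2 * L) := by
    have h3 : H ^ 2 = U * T ^ (2 * η1 - η2) := by
      rw [hH, hU, ← Real.rpow_add hT0, ← Real.rpow_natCast, ← Real.rpow_mul hT0.le]
      congr 1; push_cast; ring
    rw [h3, div_le_div_iff₀ (by positivity) (by positivity)]
    have h4 : 9 / 4 + 3 * U ≤ 6 * U := by linarith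
    calc (9 / 4 + 3 * U) * (2 * L) ≤ (6 * U) * (2 * L) := by gcongr
      _ = U * (12 * L) := by ring
      _ ≤ U * T ^ (2 * η1 - η2) := by gcongr
      _ = _ := by ring
  -- tail
  have htail : Real.exp (-U ^ 2 / (2 * H ^ 2)) ≤ 1 / L := by
    have h3 : U ^ 2 = H ^ 2 * T ^ (2 * (η2 - η1)) := by
      rw [hH, hU, ← Real.rpow_natCast, ← Real.rpow_natCast, ← Real.rpow_mul hT0.le, ← Real.rpow_mul hT0.le,
        ← Real.rpow_add hT0]
      congr 1; push_cast; ring
    have h4 : -U ^ 2 / (2 * H ^ 2) = -(T ^ (2 * (η2 - η1)) / 2) := by rw [h3]; field_simp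
    rw [h4, Real.exp_neg, ← one_div]
    have h5 : L ≤ Real.exp (T ^ (2 * (η2 - η1)) / 2) := by
      have := Real.add_one_le_exp (T ^ (2 * (η2 - η1)) / 2)
      linarith
    gcongr
  set φ : ℝ := α / 2 * Real.log (T / (2 * Real.pi)) with hφ
  have hαL : α ≤ A / L := hαA
  have hpi := Real.pi_pos
  -- the archimedean factor is almost constant
  have hg : ∀ t ∈ Ioc (t0 - U) (t0 + U), ‖gam α (2 + t * I) - exp ((φ : ℝ) * I)‖ ≤ C1 / L := by
    intro t ht
    have htlo : T / 2 ≤ t := by linarith [ht.1]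
    have hthi : t ≤ 5 / 2 * T := by linarith [ht.2]
    have ht0 : 0 < t := by linarith
    have h3 := hgam T hTT1 α hα hαA t (by linarith)
    set x : ℝ := α / 2 * Real.log (t / (2 * Real.pi)) with hx
    set y : ℝ := -(Real.pi * α / 4) with hy
    have h4 : ‖exp ((y : ℂ) + (x : ℝ) * I) - exp ((φ : ℝ) * I)‖ ≤ |y| + |x - φ| := by
      have e4 : exp ((y : ℂ) + (x : ℝ) * I) - exp ((φ : ℝ) * I)
          = (exp (y : ℂ) - 1) * exp ((x : ℝ) * I) + (exp ((x : ℝ) * I) - exp ((φ : ℝ) * I)) := by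
        rw [exp_add]; ring
      rw [e4]
      refine (norm_add_le _ _).trans (add_le_add ?_ ?_)
      · rw [norm_mul, norm_exp_ofReal_mul_I, mul_one]
        rw [← ofReal_exp, ← ofReal_one, ← ofReal_sub, norm_real, Real.norm_eq_abs]
        have hy0 : y ≤ 0 := by
          have : 0 ≤ Real.pi * α / 4 := by positivity
          linarith
        have h5 : Real.exp y ≤ 1 := Real.exp_le_one_iff.mpr hy0
        have h6 := Real.add_one_le_exp y
        rw [abs_of_nonpos (by linarith), abs_of_nonpos hy0]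
        linarith
      · have e5 : exp ((x : ℝ) * I) - exp ((φ : ℝ) * I) = exp ((φ : ℝ) * I) * (exp (I * ((x - φ : ℝ) : ℂ)) - 1) := by
          rw [mul_sub, ← exp_add, mul_one]
          congr 2
          push_cast; ring
        rw [e5, norm_mul, norm_exp_ofReal_mul_I, one_mul]
        exact Real.norm_exp_I_mul_ofReal_sub_one_le
    have h5 : |y| ≤ A / L := by
      rw [hy, abs_neg, abs_of_nonneg (by positivity)]
      have : Real.pi * α / 4 ≤ α := by nlinarith [Real.pi_lt_four]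
      linarith
    have h6 : |x - φ| ≤ A / L := by
      have e6 : x - φ = α / 2 * Real.log (t / T) := by
        rw [hx, hφ, ← mul_sub, ← Real.log_div (by positivity) (by positivity)]
        congr 2
        field_simp
      rw [e6, abs_mul, abs_of_nonneg (by positivity)]
      have h7 : |Real.log (t / T)| ≤ 2 := by
        rw [abs_le]
        have hq0 : 0 < t / T := by positivity
        have hq1 : 1 / 2 ≤ t / T := by rw [le_div_iff₀ hT0]; linarith
        have hq2 : t / T ≤ 5 / 2 := by rw [div_le_iff₀ hT0]; linarith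
        constructor
        · have h8 := Real.one_sub_inv_le_log_of_pos hq0
          have h9 : (t / T)⁻¹ ≤ 2 := by
            rw [inv_le_comm₀ hq0 (by norm_num)]; linarith
          linarith
        · have h8 := Real.log_le_sub_one_of_pos hq0
          linarith
      calc α / 2 * |Real.log (t / T)| ≤ α / 2 * 2 := by gcongr
        _ = α := by ring
        _ ≤ A / L := hαL
    have h7 : C0 / T ≤ C0 / L := by
      have : L ≤ T := by
        have := Real.log_le_sub_one_of_pos hT0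
        linarith
      gcongr
    have h8 : gam α (2 + t * I) - exp ((φ : ℝ) * I) = (gam α (2 + t * I) - exp ((y : ℂ) + (x : ℝ) * I))
        + (exp ((y : ℂ) + (x : ℝ) * I) - exp ((φ : ℝ) * I)) := by ring
    rw [h8]
    refine (norm_add_le _ _).trans ?_
    have h9 : C1 / L = C0 / L + (A / L + A / L) := by rw [hC1]; ring
    rw [h9]
    refine add_le_add (h3.trans h7) (h4.trans (add_le_add h5 h6))
  -- the weight
  have hOg : ∀ t ∈ Ioc (t0 - U) (t0 + U), ‖Og H t0 (2 + t * I) - ((Real.exp (-(t - t0) ^ 2 / H ^ 2) : ℝ) : ℂ)‖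
      ≤ Real.exp (-(t - t0) ^ 2 / H ^ 2) * (1 / L) := by
    intro t ht
    rw [Og_two]
    set E := Real.exp (-(t - t0) ^ 2 / H ^ 2) with hE
    have hE0 : 0 < E := Real.exp_pos _
    set z : ℂ := ((9 / 4 : ℝ) + (3 * (t - t0) : ℝ) * I) / (H : ℂ) ^ 2 with hz
    have h3 : ‖z‖ ≤ 1 / (2 * L) := by
      refine le_trans ?_ hsmall
      rw [hz, norm_div, norm_pow, norm_real, Real.norm_eq_abs, abs_of_pos hH0]
      gcongr
      refine (norm_add_le _ _).trans ?_
      rw [norm_mul, norm_I, mul_one, norm_real, norm_real, Real.norm_eq_abs, Real.norm_eq_abs]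
      have h4 : |3 * (t - t0)| ≤ 3 * U := by
        rw [abs_le]; constructor <;> linarith [ht.1, ht.2]
      rw [abs_of_pos (by norm_num : (0:ℝ) < 9 / 4)]
      linarith
    have h4 : 1 / (2 * L) ≤ 1 := by
      rw [div_le_one (by positivity)]; linarith
    have h5 := Complex.norm_exp_sub_one_le (h3.trans h4)
    have h6 : (E : ℂ) * exp z - (E : ℂ) = (E : ℂ) * (exp z - 1) := by ring
    rw [h6, norm_mul, norm_real, Real.norm_eq_abs, abs_of_pos hE0]
    gcongr
    calc ‖exp z - 1‖ ≤ 2 * ‖z‖ := h5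
      _ ≤ 2 * (1 / (2 * L)) := by gcongr
      _ = 1 / L := by field_simp
  have hOgn : ∀ t ∈ Ioc (t0 - U) (t0 + U), ‖Og H t0 (2 + t * I)‖ ≤ 3 * Real.exp (-(t - t0) ^ 2 / H ^ 2) := by
    intro t ht
    have h3 := hOg t ht
    set E := Real.exp (-(t - t0) ^ 2 / H ^ 2) with hE
    have hE0 : 0 < E := Real.exp_pos _
    have h4 := norm_sub_norm_le (Og H t0 (2 + t * I)) (E : ℂ)
    rw [norm_real, Real.norm_eq_abs, abs_of_pos hE0] at h4
    have h5 : E * (1 / L) ≤ E * 1 := by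
      have : 1 / L ≤ 1 := by rw [div_le_one hL0]; exact hL1
      gcongr
    linarith
  -- pointwise bound of the difference
  have hpt : ∀ t ∈ Ioc (t0 - U) (t0 + U), ‖Og H t0 (2 + t * I) * gam α (2 + t * I) -
      ((Real.exp (-(t - t0) ^ 2 / H ^ 2) : ℝ) : ℂ) * exp ((φ : ℝ) * I)‖ ≤
      (3 * C1 + 1) / L * Real.exp (-(t - t0) ^ 2 / H ^ 2) := by
    intro t ht
    set E := Real.exp (-(t - t0) ^ 2 / H ^ 2) with hE
    have hE0 : 0 < E := Real.exp_pos _
    have e4 : Og H t0 (2 + t * I) * gam α (2 + t * I) - (E : ℂ) * exp ((φ : ℝ) * I)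
        = Og H t0 (2 + t * I) * (gam α (2 + t * I) - exp ((φ : ℝ) * I))
          + (Og H t0 (2 + t * I) - (E : ℂ)) * exp ((φ : ℝ) * I) := by ring
    rw [e4]
    refine (norm_add_le _ _).trans ?_
    rw [norm_mul, norm_mul, norm_exp_ofReal_mul_I, mul_one]
    have h3 := hg t ht
    have h4 := hOg t ht
    have h5 := hOgn t ht
    calc ‖Og H t0 (2 + t * I)‖ * ‖gam α (2 + t * I) - exp ((φ : ℝ) * I)‖ + ‖Og H t0 (2 + t * I) - (E : ℂ)‖
        ≤ (3 * E) * (C1 / L) + E * (1 / L) := by gcongr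
      _ = (3 * C1 + 1) / L * E := by ring
  have hab : t0 - U ≤ t0 + U := by linarith
  -- integrability
  have hcont1 : ContinuousOn (fun t : ℝ => Og H t0 (2 + t * I) * gam α (2 + t * I)) (uIcc (t0 - U) (t0 + U)) := by
    refine ContinuousOn.mul ?_ ?_
    · apply Continuous.continuousOn
      unfold Og
      fun_prop
    · have h3 := (differentiableOn_gam hα).continuousOn
      refine h3.comp (by fun_prop) (fun t ht => ?_)
      rw [uIcc_of_le hab] at ht
      change 0 < (2 + (t:ℂ) * I).im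
      simp
      linarith [ht.1]
  have hcont2 : Continuous (fun t : ℝ => ((Real.exp (-(t - t0) ^ 2 / H ^ 2) : ℝ) : ℂ) * exp ((φ : ℝ) * I)) := by
    fun_prop
  have hsub : (∫ t in (t0 - U)..(t0 + U), Og H t0 (2 + t * I) * gam α (2 + t * I)) -
      ((Real.sqrt Real.pi * H : ℝ) : ℂ) * exp ((φ : ℝ) * I)
      = (∫ t in (t0 - U)..(t0 + U), (Og H t0 (2 + t * I) * gam α (2 + t * I) -
          ((Real.exp (-(t - t0) ^ 2 / H ^ 2) : ℝ) : ℂ) * exp ((φ : ℝ) * I)))
        + (((∫ t in (t0 - U)..(t0 + U), Real.exp (-(t - t0) ^ 2 / H ^ 2)) - Real.sqrt Real.pi * H : ℝ) : ℂ)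
          * exp ((φ : ℝ) * I) := by
    rw [intervalIntegral.integral_sub hcont1.intervalIntegrable (hcont2.intervalIntegrable _ _),
      intervalIntegral.integral_mul_const, intervalIntegral.integral_ofReal]
    push_cast
    ring
  rw [hsub]
  refine (norm_add_le _ _).trans ?_
  have b1 : ‖∫ t in (t0 - U)..(t0 + U), (Og H t0 (2 + t * I) * gam α (2 + t * I) -
          ((Real.exp (-(t - t0) ^ 2 / H ^ 2) : ℝ) : ℂ) * exp ((φ : ℝ) * I))‖ ≤
      (3 * C1 + 1) / L * (Real.sqrt Real.pi * H) := by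
    rw [intervalIntegral.integral_of_le hab]
    have h3 : ‖∫ t in Ioc (t0 - U) (t0 + U), (Og H t0 (2 + t * I) * gam α (2 + t * I) -
          ((Real.exp (-(t - t0) ^ 2 / H ^ 2) : ℝ) : ℂ) * exp ((φ : ℝ) * I))‖ ≤
        ∫ t in Ioc (t0 - U) (t0 + U), (3 * C1 + 1) / L * Real.exp (-(t - t0) ^ 2 / H ^ 2) := by
      refine norm_integral_le_of_norm_le ((integrable_gauss hH0 t0).const_mul _).integrableOn ?_
      exact (ae_restrict_iff' measurableSet_Ioc).mpr (Eventually.of_forall hpt)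
    refine h3.trans ?_
    rw [integral_const_mul]
    have hC1pos : 0 ≤ (3 * C1 + 1) / L := by positivity
    refine mul_le_mul_of_nonneg_left ?_ hC1pos
    rw [← gauss_full hH0 t0]
    exact setIntegral_le_integral (integrable_gauss hH0 t0) (Eventually.of_forall (fun t => (Real.exp_pos _).le))
  have b2 : ‖(((∫ t in (t0 - U)..(t0 + U), Real.exp (-(t - t0) ^ 2 / H ^ 2)) - Real.sqrt Real.pi * H : ℝ) : ℂ)
          * exp ((φ : ℝ) * I)‖ ≤ 1 / L * (Real.sqrt Real.pi * (Real.sqrt 2 * H)) := by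
    rw [norm_mul, norm_exp_ofReal_mul_I, mul_one, norm_real, Real.norm_eq_abs]
    refine (gauss_tail hH0 hU0 t0).trans ?_
    gcongr
  refine (add_le_add b1 b2).trans (le_of_eq ?_)
  ring

end Pool.Agent.HalfGap
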