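import Pool.Agent.ZGap.Half.Core
import Pool.Agent.ZGap.Half.Main
import Pool.Agent.ZGap.Half.Off
import Pool.Agent.ZGap.Half.GamInt

/-!
# Existence of close pairs of zeros
-/

namespace Pool.Agent.HalfGap

open Complex MeasureTheory Set Pool.Agent.Hadamard Filter
open scoped ComplexConjugate Topology

/-- A power times a stretched exponential. -/
lemma ev_small (A : ℝ) {c k ε : ℝ} (hc : 0 < c) (hk : 0 < k) (hε : 0 < ε) :
    ∀ᶠ T : ℝ in atTop, T ^ A * Real.exp (-(k * T ^ c)) ≤ ε := by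
  have h1 := (tendsto_rpow_mul_exp_neg_mul_atTop_nhds_zero (A / c) k hk).comp
    (tendsto_rpow_atTop hc)
  have h2 := h1.eventually (ge_mem_nhds hε)
  filter_upwards [h2, eventually_gt_atTop 0] with T hT hT0
  simp only [Function.comp_apply] at hT
  rw [← Real.rpow_mul hT0.le, mul_div_cancel₀ _ hc.ne'] at hT
  rwa [neg_mul] at hT

lemma bV_swap (α : ℝ) (m n : ℕ) : bV α (n, m) = conj (bV α (m, n)) := by
  unfold bV
  simp only
  rw [map_mul, map_mul, map_mul, conj_ofReal, ← Complex.exp_conj, map_mul, conj_ofReal, conj_I]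
  have e1 : conj (((ArithmeticFunction.moebius m : ℤ) : ℂ)) = ((ArithmeticFunction.moebius m : ℤ) : ℂ) := by
    rw [map_intCast]
  have e2 : conj (((ArithmeticFunction.moebius n : ℤ) : ℂ)) = ((ArithmeticFunction.moebius n : ℤ) : ℂ) := by
    rw [map_intCast]
  rw [e1, e2, mul_comm (n : ℝ) (m : ℝ)]
  have e3 : ((α * (Real.log m - Real.log n) : ℝ) : ℂ) * I =
      ((α * (Real.log n - Real.log m) : ℝ) : ℂ) * -I := by
    push_cast; ring
  rw [e3]
  ring

/-- The symmetry of the family `|V|²`. -/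
lemma BV_symm (α : ℝ) (X : ℕ) (s : ℂ) :
    BS (QV X) (bV α) wV (1 - conj s) = conj (BS (QV X) (bV α) wV s) := by
  unfold BS
  rw [map_sum]
  unfold QV
  rw [Finset.sum_product, Finset.sum_product, Finset.sum_comm]
  refine Finset.sum_congr rfl fun n _ => Finset.sum_congr rfl fun m _ => ?_
  rw [map_mul, bV_swap, ← Complex.exp_conj]
  have e1 : (-(wV (m, n) : ℂ) * (1 - conj s - 1 / 2)) = conj (-(wV (n, m) : ℂ) * (s - 1 / 2)) := by
    rw [map_mul, map_neg, map_sub, conj_ofReal, map_div₀, map_one, map_ofNat]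
    unfold wV
    push_cast
    ring
  rw [e1]

lemma norm_bV_le (α : ℝ) {m n : ℕ} (hm : 1 ≤ m) (hn : 1 ≤ n) : ‖bV α (m, n)‖ ≤ 1 := by
  unfold bV
  simp only
  have h1 : ∀ k : ℕ, ‖(((ArithmeticFunction.moebius k : ℤ) : ℂ))‖ ≤ 1 := norm_moebius_le
  have hm' : (1:ℝ) ≤ m := by exact_mod_cast hm
  have hn' : (1:ℝ) ≤ n := by exact_mod_cast hn
  rw [norm_mul, norm_mul, norm_mul, Complex.norm_exp_ofReal_mul_I, mul_one, Complex.norm_real,
    Real.norm_of_nonneg (by positivity)]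
  have h2 : ((m:ℝ) * n) ^ (-(1:ℝ) / 2) ≤ 1 := by
    apply Real.rpow_le_one_of_one_le_of_nonpos
    · nlinarith
    · norm_num
  have h3 := mul_le_mul (mul_le_mul (h1 m) (h1 n) (norm_nonneg _) zero_le_one) h2 (by positivity)
    (by norm_num)
  simpa using h3

lemma sum_bV_le (α : ℝ) {X : ℕ} (hX : 1 ≤ X) :
    ∑ p ∈ QV X, ‖bV α p‖ * Real.exp (2 * |wV p|) ≤ (X:ℝ) ^ 4 := by
  have hX' : (1:ℝ) ≤ X := by exact_mod_cast hX
  have h1 : ∀ p ∈ QV X, ‖bV α p‖ * Real.exp (2 * |wV p|) ≤ (X:ℝ) ^ 2 := by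
    rintro ⟨m, n⟩ hp
    unfold QV at hp
    rw [Finset.mem_product, Finset.mem_Icc, Finset.mem_Icc] at hp
    obtain ⟨⟨hm1, hmX⟩, hn1, hnX⟩ := hp
    simp only at hm1 hmX hn1 hnX
    have h2 := norm_bV_le α hm1 hn1
    have hm0 : (0:ℝ) < m := by exact_mod_cast hm1
    have hn0 : (0:ℝ) < n := by exact_mod_cast hn1
    have hlX : 0 ≤ Real.log X := Real.log_nonneg hX'
    have l1 : 0 ≤ Real.log m := Real.log_nonneg (by exact_mod_cast hm1)
    have l2 : 0 ≤ Real.log n := Real.log_nonneg (by exact_mod_cast hn1)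
    have l3 : Real.log m ≤ Real.log X := Real.log_le_log hm0 (by exact_mod_cast hmX)
    have l4 : Real.log n ≤ Real.log X := Real.log_le_log hn0 (by exact_mod_cast hnX)
    have h3 : |wV (m, n)| ≤ Real.log X := by
      unfold wV
      rw [abs_le]
      constructor <;> simp only <;> linarith
    have h4 : Real.exp (2 * |wV (m, n)|) ≤ (X:ℝ) ^ 2 := by
      calc _ ≤ Real.exp (2 * Real.log X) := Real.exp_le_exp.mpr (by linarith)
        _ = (X:ℝ) ^ 2 := by
          rw [two_mul, Real.exp_add, Real.exp_log (by linarith), sq]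
    calc _ ≤ 1 * (X:ℝ) ^ 2 := by gcongr
      _ = _ := one_mul _
  refine (Finset.sum_le_card_nsmul _ _ _ h1).trans (le_of_eq ?_)
  unfold QV
  rw [Finset.card_product, Nat.card_Icc, nsmul_eq_mul, Nat.add_sub_cancel]
  push_cast
  ring

lemma norm_Ms_le (α : ℝ) (X : ℕ) : ‖Ms α X‖ ≤ 1 + Real.log X := by
  unfold Ms
  refine (norm_sum_le _ _).trans ?_
  have h1 : (harmonic X : ℝ) ≤ 1 + Real.log X := harmonic_le_one_add_log X
  refine le_trans ?_ h1
  rw [harmonic_eq_sum_Icc]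
  push_cast
  refine Finset.sum_le_sum fun k hk => ?_
  have hk1 : 1 ≤ k := (Finset.mem_Icc.mp hk).1
  have hk0 : (0:ℝ) < k := by exact_mod_cast hk1
  have h2 : ‖(k : ℂ) ^ (-1 + α * I : ℂ)‖ = (k:ℝ)⁻¹ := by
    rw [← Complex.ofReal_natCast, Complex.norm_cpow_eq_rpow_re_of_pos hk0]
    simp [Real.rpow_neg_one]
  rw [norm_mul, h2, norm_pow]
  have h3 := pow_le_one₀ (n := 2) (norm_nonneg _) (norm_moebius_le k)
  calc _ ≤ 1 * (k:ℝ)⁻¹ := by gcongr
    _ = _ := one_mul _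

end Pool.Agent.HalfGap
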