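import Pool.Agent.ZGap.Half.Cover
import Pool.Agent.ZetaGaps.Void

/-!
# Small gaps in short intervals
-/

namespace Pool.Agent.HalfGap

open Complex MeasureTheory Set Pool.Agent.Hadamard Filter Pool.Agent.ZetaGaps
open scoped Topology

/-- From a point of `EE α` to two consecutive ordinates at distance less than `β`. -/
lemma exists_ordinate_of_EE {α β t : ℝ} (hα : 0 < α) (hαβ : α < β) (ht : t ∈ EE α)
    (ht0 : 2 * β ≤ t) : ∃ n : ℕ, 1 ≤ n ∧ t - 2 * β < ordinate n ∧
      ordinate (n + 1) < t + 2 * β ∧ ordinate (n + 1) - ordinate n < β := by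
  obtain ⟨m, M, h1, h2, h3, h4, -, h6⟩ := exists_window hα hαβ ht ht0
  have h7 := h6 ((m + M) / 2) ⟨by linarith, by linarith⟩
  set u := (m + M) / 2 with hu
  have h8 : ordinate (zeroCount (u - β / 2) + 1 + 1) ≤ u + β / 2 := by
    rw [← le_zeroCount_iff (zeroCount_unbounded _) (by omega)]
    omega
  have h9 : u - β / 2 < ordinate (zeroCount (u - β / 2) + 1) := by
    by_contra hcon
    push Not at hcon
    rw [← le_zeroCount_iff (zeroCount_unbounded _) (by omega)] at hcon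
    omega
  refine ⟨zeroCount (u - β / 2) + 1, by omega, ?_, ?_, ?_⟩
  · linarith
  · linarith
  · linarith

/-- Small gaps in all short intervals, from the existence of points of `EE`. -/
theorem exists_gap_of_EE
    (hE : ∀ τ : ℝ, 1 / 2 < τ → τ < 1 → ∃ η : ℝ, η < 1 ∧ ∃ T0 : ℝ, ∀ T : ℝ, T0 ≤ T →
      ∀ t0 : ℝ, T ≤ t0 → t0 ≤ 2 * T →
        ∃ t ∈ EE (2 * Real.pi * τ / Real.log T), |t - t0| ≤ T ^ η)
    {ε : ℝ} (hε : 0 < ε) :
    ∃ η : ℝ, η < 1 ∧ ∃ T0 : ℝ, ∀ T : ℝ, T0 ≤ T → ∃ n : ℕ, 1 ≤ n ∧ T ≤ ordinate n ∧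
      ordinate (n + 1) ≤ T + T ^ η ∧ gap n < 1 / 2 + ε := by
  have hpi := Real.pi_pos
  have hpi4 := Real.pi_lt_four
  set m := min ε 1 with hm
  have hm0 : 0 < m := lt_min hε one_pos
  have hm1 : m ≤ 1 := min_le_right _ _
  have hmε : m ≤ ε := min_le_left _ _
  obtain ⟨η0, hη0, T1, h⟩ := hE (1 / 2 + m / 4) (by linarith) (by linarith)
  set η1 : ℝ := max η0 (1 / 2) with hη1
  have hη1a : η0 ≤ η1 := le_max_left _ _
  have hη1b : 1 / 2 ≤ η1 := le_max_right _ _
  have hη1c : η1 < 1 := max_lt hη0 (by norm_num)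
  set η : ℝ := (1 + η1) / 2 with hη
  have hηa : η1 < η := by rw [hη]; linarith
  have hηb : η < 1 := by rw [hη]; linarith
  refine ⟨η, hηb, ?_⟩
  have ev1 : ∀ᶠ T : ℝ in atTop, 8 / m ≤ Real.log T :=
    Real.tendsto_log_atTop.eventually_ge_atTop _
  have ev2 : ∀ᶠ T : ℝ in atTop, 3 ≤ T ^ (1 - η1) :=
    (tendsto_rpow_atTop (by linarith)).eventually_ge_atTop _
  have ev3 : ∀ᶠ T : ℝ in atTop, 8 ≤ T ^ (η - η1) :=
    (tendsto_rpow_atTop (by linarith)).eventually_ge_atTop _
  have ev4 : ∀ᶠ T : ℝ in atTop, 16 ≤ T ^ η1 :=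
    (tendsto_rpow_atTop (by linarith)).eventually_ge_atTop _
  obtain ⟨T0, hT0⟩ := eventually_atTop.1
    (ev1.and (ev2.and (ev3.and (ev4.and (eventually_ge_atTop (max T1 1))))))
  refine ⟨T0, fun T hT => ?_⟩
  obtain ⟨h1, h2, h3, h4, h5⟩ := hT0 T hT
  have hT1 : T1 ≤ T := (le_max_left _ _).trans h5
  have hTone : 1 ≤ T := (le_max_right _ _).trans h5
  have hTpos : 0 < T := by linarith
  have hL8 : 8 ≤ Real.log T := by
    refine le_trans ?_ h1
    rw [le_div_iff₀ hm0]; linarith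
  set L := Real.log T with hL
  have hLpos : 0 < L := by linarith
  set β : ℝ := 2 * Real.pi * (1 / 2 + m / 2) / L with hβ
  have hαβ : 2 * Real.pi * (1 / 2 + m / 4) / L < β := by
    rw [hβ]
    apply div_lt_div_of_pos_right _ hLpos
    have : 0 < 2 * Real.pi := by positivity
    nlinarith
  have hα0 : 0 < 2 * Real.pi * (1 / 2 + m / 4) / L := by positivity
  have hβ8 : β ≤ 8 := by
    rw [hβ, div_le_iff₀ hLpos]
    nlinarith
  have e1 : T ^ η1 * 3 ≤ T := by
    have e2 : T = T ^ η1 * T ^ (1 - η1) := by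
      rw [← Real.rpow_add hTpos]
      conv_lhs => rw [← Real.rpow_one T]
      congr 1; ring
    have e3 : 0 < T ^ η1 := by positivity
    calc T ^ η1 * 3 ≤ T ^ η1 * T ^ (1 - η1) := by gcongr
      _ = T := e2.symm
  have e2 : T ^ η1 * 8 ≤ T ^ η := by
    have e2 : T ^ η = T ^ η1 * T ^ (η - η1) := by
      rw [← Real.rpow_add hTpos]
      congr 1; ring
    rw [e2]
    have e3 : 0 < T ^ η1 := by positivity
    gcongr
  have e3 : T ^ η ≤ T := by
    conv_rhs => rw [← Real.rpow_one T]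
    exact Real.rpow_le_rpow_of_exponent_le hTone hηb.le
  have e4 : T ^ η0 ≤ T ^ η1 := Real.rpow_le_rpow_of_exponent_le hTone hη1a
  obtain ⟨t, htE, ht⟩ := h T hT1 (T + 3 * T ^ η1) (by linarith) (by linarith)
  have ht' := abs_le.mp ht
  obtain ⟨n, hn1, hn2, hn3, hn4⟩ := exists_ordinate_of_EE hα0 hαβ htE (by linarith)
  have h6 : T ≤ ordinate n := by linarith
  have h7 : ordinate (n + 1) ≤ T + T ^ η := by linarith
  refine ⟨n, hn1, h6, h7, ?_⟩
  refine (gap_le hn1).trans_lt ?_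
  have h8 : Real.log (ordinate (n + 1)) ≤ L + 1 := by
    have h9 : ordinate (n + 1) ≤ 2 * T := by linarith
    have h10 : 0 < ordinate (n + 1) := by
      have := ordinate_mono (zeroCount_unbounded (n + 1)) hn1 (by omega : n ≤ n + 1)
      linarith
    calc Real.log (ordinate (n + 1)) ≤ Real.log (2 * T) := Real.log_le_log h10 h9
      _ = Real.log 2 + L := Real.log_mul (by norm_num) hTpos.ne'
      _ ≤ L + 1 := by linarith [Real.log_two_lt_d9]
  have h9 : (ordinate (n + 1) - ordinate n) * (Real.log (ordinate (n + 1)) + 1) ≤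
      β * (L + 2) := by
    have h10 : 0 ≤ ordinate (n + 1) - ordinate n := by
      have := ordinate_mono (zeroCount_unbounded (n + 1)) hn1 (by omega : n ≤ n + 1)
      linarith
    have h11 : 0 ≤ Real.log (ordinate (n + 1)) + 1 := by
      have : 0 ≤ Real.log (ordinate (n + 1)) := Real.log_nonneg (by linarith)
      linarith
    calc (ordinate (n + 1) - ordinate n) * (Real.log (ordinate (n + 1)) + 1)
        ≤ β * (Real.log (ordinate (n + 1)) + 1) := by gcongr
      _ ≤ β * (L + 2) := by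
          apply mul_le_mul_of_nonneg_left _ (hα0.trans hαβ).le
          linarith
  calc (ordinate (n + 1) - ordinate n) * (Real.log (ordinate (n + 1)) + 1) / (2 * Real.pi)
      ≤ β * (L + 2) / (2 * Real.pi) := by gcongr
    _ = (1 / 2 + m / 2) * (1 + 2 / L) := by rw [hβ]; field_simp
    _ < 1 / 2 + ε := by
        have h12 : 2 / L ≤ m / 4 := by
          rw [div_le_div_iff₀ hLpos (by norm_num)]
          rw [div_le_iff₀ hm0] at h1
          linarith
        have h13 : 0 < 2 / L := by positivity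
        nlinarith

end Pool.Agent.HalfGap
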