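import Pool.Agent.ZGap.NonLattice.A

/-!
# An explicit one-sided kernel

The kernel `B(ξ) = exp(-δ ξ) (1 - exp(-ξ/2))^3 (1 - ξ/D)^3` on `[0, D]`; its transforms are
explicit.
-/

namespace Pool.Agent.HalfGap

open MeasureTheory Set Pool.Agent.Hadamard Pool.Agent.ZGap

/-- The kernel. -/
noncomputable def bk (δ D ξ : ℝ) : ℝ :=
  Real.exp (-(δ * ξ)) * (max 0 (1 - Real.exp (-(ξ / 2)))) ^ 3 * (max 0 (1 - ξ / D)) ^ 3

/-- The kernel, complex valued. -/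
noncomputable def bkc (δ D : ℝ) (ξ : ℝ) : ℂ := ((bk δ D ξ : ℝ) : ℂ)

lemma bk_continuous (δ D : ℝ) : Continuous (bk δ D) := by
  unfold bk
  fun_prop

lemma bkc_continuous (δ D : ℝ) : Continuous (bkc δ D) :=
  Complex.continuous_ofReal.comp (bk_continuous δ D)

lemma bk_nonneg (δ D ξ : ℝ) : 0 ≤ bk δ D ξ := by
  unfold bk
  positivity

lemma bk_neg {δ D ξ : ℝ} (h : ξ ≤ 0) : bk δ D ξ = 0 := by
  have h1 : 1 - Real.exp (-(ξ / 2)) ≤ 0 := by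
    have := Real.one_le_exp (x := -(ξ / 2)) (by linarith)
    linarith
  unfold bk
  rw [max_eq_left h1]
  ring

lemma bk_big {δ D ξ : ℝ} (hD : 0 < D) (h : D ≤ ξ) : bk δ D ξ = 0 := by
  have h1 : 1 - ξ / D ≤ 0 := by
    have : 1 ≤ ξ / D := by rw [le_div_iff₀ hD]; linarith
    linarith
  unfold bk
  rw [max_eq_left h1]
  ring

lemma bk_le_one {δ D ξ : ℝ} (hδ : 0 ≤ δ) (hD : 0 < D) : bk δ D ξ ≤ 1 := by
  rcases le_total ξ 0 with h | h
  · rw [bk_neg h]; norm_num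
  · have h1 : Real.exp (-(δ * ξ)) ≤ 1 := by
      rw [Real.exp_le_one_iff]
      have := mul_nonneg hδ h
      linarith
    have h2 : max 0 (1 - Real.exp (-(ξ / 2))) ≤ 1 := by
      rw [max_le_iff]
      have := Real.exp_pos (-(ξ / 2))
      constructor <;> linarith
    have h3 : max 0 (1 - ξ / D) ≤ 1 := by
      rw [max_le_iff]
      have : 0 ≤ ξ / D := by positivity
      constructor <;> linarith
    unfold bk
    have h4 : (max 0 (1 - Real.exp (-(ξ / 2)))) ^ 3 ≤ 1 := pow_le_one₀ (le_max_left _ _) h2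
    have h5 : (max 0 (1 - ξ / D)) ^ 3 ≤ 1 := pow_le_one₀ (le_max_left _ _) h3
    have h6 : 0 ≤ (max 0 (1 - Real.exp (-(ξ / 2)))) ^ 3 := by positivity
    have h7 : 0 ≤ (max 0 (1 - ξ / D)) ^ 3 := by positivity
    have h8 := Real.exp_pos (-(δ * ξ))
    calc Real.exp (-(δ * ξ)) * max 0 (1 - Real.exp (-(ξ / 2))) ^ 3 * max 0 (1 - ξ / D) ^ 3
        ≤ 1 * 1 * 1 := by gcongr
      _ = 1 := by norm_num

lemma norm_bkc_le {δ D : ℝ} (hδ : 0 ≤ δ) (hD : 0 < D) (ξ : ℝ) : ‖bkc δ D ξ‖ ≤ 1 := by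
  rw [bkc, Complex.norm_real, Real.norm_of_nonneg (bk_nonneg _ _ _)]
  exact bk_le_one hδ hD

/-- The truncated Laplace transform of the cubic weight. -/
noncomputable def KK (D : ℝ) (z : ℂ) : ℂ :=
  ∫ ξ in (0:ℝ)..D, Complex.exp (-(z * ξ)) * (1 - (ξ : ℂ) / D) ^ 3

lemma KK_eq {D : ℝ} (hD : 0 < D) {z : ℂ} (hz : z ≠ 0) :
    KK D z = 1 / z - 3 / (D * z ^ 2) + 6 / (D ^ 2 * z ^ 3) - 6 / (D ^ 3 * z ^ 4) +
      6 * Complex.exp (-(z * D)) / (D ^ 3 * z ^ 4) := by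
  have hD0 : (D : ℂ) ≠ 0 := by exact_mod_cast hD.ne'
  set F : ℝ → ℂ := fun ξ => -Complex.exp (-(z * ξ)) * ((1 - (ξ : ℂ) / D) ^ 3 / z -
    3 * (1 - (ξ : ℂ) / D) ^ 2 / (D * z ^ 2) + 6 * (1 - (ξ : ℂ) / D) / (D ^ 2 * z ^ 3) -
    6 / (D ^ 3 * z ^ 4)) with hF
  have hd : ∀ ξ : ℝ, HasDerivAt F (Complex.exp (-(z * ξ)) * (1 - (ξ : ℂ) / D) ^ 3) ξ := by
    intro ξ
    have h1 : HasDerivAt (fun ξ : ℝ => (ξ : ℂ)) 1 ξ := (hasDerivAt_id ξ).ofReal_comp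
    have h2 : HasDerivAt (fun ξ : ℝ => -(z * (ξ : ℂ))) (-(z * 1)) ξ := (h1.const_mul z).neg
    have h3 := h2.cexp.neg
    have h4 : HasDerivAt (fun ξ : ℝ => 1 - (ξ : ℂ) / D) (-(1 / D)) ξ := (h1.div_const _).const_sub 1
    have h43 : HasDerivAt (fun ξ : ℝ => (1 - (ξ : ℂ) / D) ^ 3)
        (3 * (1 - (ξ : ℂ) / D) ^ 2 * -(1 / D)) ξ := by
      refine (h4.pow 3).congr_deriv ?_
      norm_num
    have h42 : HasDerivAt (fun ξ : ℝ => (1 - (ξ : ℂ) / D) ^ 2)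
        (2 * (1 - (ξ : ℂ) / D) * -(1 / D)) ξ := by
      refine (h4.pow 2).congr_deriv ?_
      norm_num
    have h3' : HasDerivAt (fun ξ : ℝ => -Complex.exp (-(z * ξ)))
        (z * Complex.exp (-(z * ξ))) ξ := by
      refine h3.congr_deriv ?_
      ring
    have h5 : HasDerivAt (fun ξ : ℝ => (1 - (ξ : ℂ) / D) ^ 3 / z -
        3 * (1 - (ξ : ℂ) / D) ^ 2 / (D * z ^ 2) + 6 * (1 - (ξ : ℂ) / D) / (D ^ 2 * z ^ 3) -
        6 / (D ^ 3 * z ^ 4)) (3 * (1 - (ξ : ℂ) / D) ^ 2 * -(1 / D) / z -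
        3 * (2 * (1 - (ξ : ℂ) / D) * -(1 / D)) / (D * z ^ 2) + 6 * -(1 / D) / (D ^ 2 * z ^ 3)) ξ :=
      (((h43.div_const z).sub ((h42.const_mul 3).div_const (D * z ^ 2))).add
      ((h4.const_mul 6).div_const (D ^ 2 * z ^ 3))).sub_const (6 / ((D : ℂ) ^ 3 * z ^ 4))
    refine (h3'.mul h5).congr_deriv ?_
    field_simp
    ring
  have hint : IntervalIntegrable (fun ξ : ℝ => Complex.exp (-(z * ξ)) * (1 - (ξ : ℂ) / D) ^ 3)
      volume 0 D := by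
    apply Continuous.intervalIntegrable
    fun_prop
  rw [KK, intervalIntegral.integral_eq_sub_of_hasDerivAt (fun ξ _ => hd ξ) hint]
  simp only [hF, Complex.ofReal_zero, mul_zero, neg_zero, Complex.exp_zero, zero_div, sub_zero]
  field_simp
  ring

/-- The transform of the kernel. -/
noncomputable def K4 (D : ℝ) (z : ℂ) : ℂ :=
  KK D z - 3 * KK D (z + 1 / 2) + 3 * KK D (z + 1) - KK D (z + 3 / 2)

lemma bkc_transform {δ D : ℝ} (hD : 0 < D) (w : ℂ) :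
    ∫ ξ : ℝ, bkc δ D ξ * Complex.exp (-(w * ξ)) = K4 D (δ + w) := by
  have h1 : ∫ ξ : ℝ, bkc δ D ξ * Complex.exp (-(w * ξ)) =
      ∫ ξ in (0:ℝ)..D, bkc δ D ξ * Complex.exp (-(w * ξ)) := by
    rw [intervalIntegral.integral_of_le hD.le]
    symm
    apply setIntegral_eq_integral_of_forall_compl_eq_zero
    intro ξ hξ
    rw [mem_Ioc, not_and_or, not_lt, not_le] at hξ
    rcases hξ with h | h
    · rw [bkc, bk_neg h]; simp
    · rw [bkc, bk_big hD h.le]; simp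
  have hc : ∀ v : ℂ, IntervalIntegrable (fun ξ : ℝ => Complex.exp (-(v * ξ)) *
      (1 - (ξ : ℂ) / D) ^ 3) volume 0 D := fun v => Continuous.intervalIntegrable (by fun_prop) _ _
  rw [h1, K4, KK, KK, KK, KK, ← intervalIntegral.integral_const_mul,
    ← intervalIntegral.integral_const_mul, ← intervalIntegral.integral_sub (hc _)
      ((hc _).const_mul _), ← intervalIntegral.integral_add ((hc _).sub ((hc _).const_mul _))
      ((hc _).const_mul _), ← intervalIntegral.integral_sub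
      (((hc _).sub ((hc _).const_mul _)).add ((hc _).const_mul _)) (hc _)]
  refine intervalIntegral.integral_congr fun ξ hξ => ?_
  rw [uIcc_of_le hD.le, mem_Icc] at hξ
  have h2 : max 0 (1 - Real.exp (-(ξ / 2))) = 1 - Real.exp (-(ξ / 2)) := by
    apply max_eq_right
    have : Real.exp (-(ξ / 2)) ≤ 1 := by rw [Real.exp_le_one_iff]; linarith [hξ.1]
    linarith
  have h3 : max 0 (1 - ξ / D) = 1 - ξ / D := by
    apply max_eq_right
    have : ξ / D ≤ 1 := by rw [div_le_one hD]; exact hξ.2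
    linarith
  simp only [bkc, bk, h2, h3]
  push_cast
  have e0 : Complex.exp (-((δ : ℂ) * ξ)) * Complex.exp (-(w * ξ)) =
      Complex.exp (-((δ + w) * ξ)) := by
    rw [← Complex.exp_add]; congr 1; ring
  have e1 : Complex.exp (-((δ + w + 1 / 2) * ξ)) =
      Complex.exp (-((δ + w) * ξ)) * Complex.exp (-((ξ : ℂ) / 2)) := by
    rw [← Complex.exp_add]; congr 1; ring
  have e2 : Complex.exp (-((δ + w + 1) * ξ)) =
      Complex.exp (-((δ + w) * ξ)) * Complex.exp (-((ξ : ℂ) / 2)) ^ 2 := by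
    rw [← Complex.exp_nat_mul, ← Complex.exp_add]; congr 1; push_cast; ring
  have e3 : Complex.exp (-((δ + w + 3 / 2) * ξ)) =
      Complex.exp (-((δ + w) * ξ)) * Complex.exp (-((ξ : ℂ) / 2)) ^ 3 := by
    rw [← Complex.exp_nat_mul, ← Complex.exp_add]; congr 1; push_cast; ring
  rw [e1, e2, e3, ← e0]
  ring

lemma ff_bkc {δ D : ℝ} (hD : 0 < D) (x : ℝ) :
    OneSided.ff (bkc δ D) x = K4 D (δ + x * Complex.I) := by
  rw [← bkc_transform hD, OneSided.ff]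
  refine integral_congr_ae (Filter.Eventually.of_forall fun ξ => ?_)
  simp only
  congr 2
  push_cast; ring

lemma hh_bkc {δ D : ℝ} (hD : 0 < D) (u : ℝ) :
    OneSided.hh (bkc δ D) u = K4 D (δ + (-1 + u * Complex.I)) := by
  rw [← bkc_transform hD, OneSided.hh]
  refine integral_congr_ae (Filter.Eventually.of_forall fun ξ => ?_)
  simp only
  congr 2
  push_cast; ring

lemma inv_diff {z w : ℂ} (hz : z ≠ 0) (hw : w ≠ 0) :
    1 / z - 1 / w = (w - z) * ((1 / z) * (1 / w)) := by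
  field_simp

/-- Third differences of inverse powers. -/
lemma third_diff {a b c d : ℂ} (hab : a - b = 1 / 2 * (a * b)) (hbc : b - c = 1 / 2 * (b * c))
    (hcd : c - d = 1 / 2 * (c * d)) (hac : a - c = a * c) (hbd : b - d = b * d)
    (had : a - d = 3 / 2 * (a * d)) :
    a - 3 * b + 3 * c - d = 3 / 4 * (a * b * c * d) ∧
    a ^ 2 - 3 * b ^ 2 + 3 * c ^ 2 - d ^ 2 = 3 / 4 * (a * b * c * d) * (a + b + c + d) ∧
    a ^ 3 - 3 * b ^ 3 + 3 * c ^ 3 - d ^ 3 = 3 / 4 * (a * b * c * d) *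
      (a ^ 2 + b ^ 2 + c ^ 2 + d ^ 2 + a * b + a * c + a * d + b * c + b * d + c * d) := by
  refine ⟨?_, ?_, ?_⟩
  · linear_combination hab - 2 * hbc + hcd + (b / 2) * hac - (c / 2) * hbd + (b * c / 2) * had
  · linear_combination (a + b) * hab - 2 * (b + c) * hbc + (c + d) * hcd +
      (b / 2) * (a + b + c) * hac - (c / 2) * (b + c + d) * hbd +
      (b * c / 2) * (a + b + c + d) * had
  · linear_combination (a ^ 2 + a * b + b ^ 2) * hab - 2 * (b ^ 2 + b * c + c ^ 2) * hbc +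
      (c ^ 2 + c * d + d ^ 2) * hcd +
      (b / 2) * (a ^ 2 + b ^ 2 + c ^ 2 + a * b + b * c + c * a) * hac -
      (c / 2) * (b ^ 2 + c ^ 2 + d ^ 2 + b * c + c * d + d * b) * hbd +
      (b * c / 2) * (a ^ 2 + b ^ 2 + c ^ 2 + d ^ 2 + a * b + a * c + a * d + b * c + b * d +
        c * d) * had

/-- Explicit form of `K4`. -/
lemma K4_eq {D : ℝ} (hD : 0 < D) {z : ℂ} (h0 : z ≠ 0) (h1 : z + 1 / 2 ≠ 0) (h2 : z + 1 ≠ 0)
    (h3 : z + 3 / 2 ≠ 0) :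
    K4 D z = 3 / 4 * ((1 / z) * (1 / (z + 1 / 2)) * (1 / (z + 1)) * (1 / (z + 3 / 2))) *
      (1 - 3 / D * (1 / z + 1 / (z + 1 / 2) + 1 / (z + 1) + 1 / (z + 3 / 2)) +
        6 / D ^ 2 * ((1 / z) ^ 2 + (1 / (z + 1 / 2)) ^ 2 + (1 / (z + 1)) ^ 2 +
          (1 / (z + 3 / 2)) ^ 2 + (1 / z) * (1 / (z + 1 / 2)) + (1 / z) * (1 / (z + 1)) +
          (1 / z) * (1 / (z + 3 / 2)) + (1 / (z + 1 / 2)) * (1 / (z + 1)) +
          (1 / (z + 1 / 2)) * (1 / (z + 3 / 2)) + (1 / (z + 1)) * (1 / (z + 3 / 2)))) -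
      6 / D ^ 3 * ((1 / z) ^ 4 - 3 * (1 / (z + 1 / 2)) ^ 4 + 3 * (1 / (z + 1)) ^ 4 -
        (1 / (z + 3 / 2)) ^ 4) +
      6 / D ^ 3 * (Complex.exp (-(z * D)) * (1 / z) ^ 4 -
        3 * (Complex.exp (-((z + 1 / 2) * D)) * (1 / (z + 1 / 2)) ^ 4) +
        3 * (Complex.exp (-((z + 1) * D)) * (1 / (z + 1)) ^ 4) -
        Complex.exp (-((z + 3 / 2) * D)) * (1 / (z + 3 / 2)) ^ 4) := by
  have hD0 : (D : ℂ) ≠ 0 := by exact_mod_cast hD.ne'
  have key : ∀ w : ℂ, w ≠ 0 → KK D w = 1 / w - 3 / D * (1 / w) ^ 2 + 6 / D ^ 2 * (1 / w) ^ 3 -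
      6 / D ^ 3 * (1 / w) ^ 4 + 6 / D ^ 3 * (Complex.exp (-(w * D)) * (1 / w) ^ 4) := by
    intro w hw
    rw [KK_eq hD hw]
    field_simp
  have t := third_diff (a := 1 / z) (b := 1 / (z + 1 / 2)) (c := 1 / (z + 1))
    (d := 1 / (z + 3 / 2)) (by rw [inv_diff h0 h1]; ring) (by rw [inv_diff h1 h2]; ring)
    (by rw [inv_diff h2 h3]; ring) (by rw [inv_diff h0 h2]; ring)
    (by rw [inv_diff h1 h3]; ring) (by rw [inv_diff h0 h3]; ring)
  obtain ⟨t1, t2, t3⟩ := t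
  rw [K4, key z h0, key _ h1, key _ h2, key _ h3]
  linear_combination t1 - 3 / D * t2 + 6 / D ^ 2 * t3

/-- Size of `K4`. -/
lemma norm_K4_le {D κ K : ℝ} (hD : 1 ≤ D) (hK : 1 ≤ K) (hκK : κ ≤ K) {z : ℂ} (hz : -1 ≤ z.re)
    (h0 : z ≠ 0) (h1 : z + 1 / 2 ≠ 0) (h2 : z + 1 ≠ 0) (h3 : z + 3 / 2 ≠ 0)
    (ha : ‖1 / z‖ ≤ κ) (hb : ‖1 / (z + 1 / 2)‖ ≤ κ) (hc : ‖1 / (z + 1)‖ ≤ κ)
    (hd : ‖1 / (z + 3 / 2)‖ ≤ κ) :
    ‖K4 D z‖ ≤ 200 * K ^ 2 * Real.exp D * κ ^ 4 := by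
  have hD0 : 0 < D := by linarith
  have hκ : 0 ≤ κ := (norm_nonneg _).trans ha
  rw [K4_eq hD0 h0 h1 h2 h3]
  have hexp : ∀ j : ℝ, 0 ≤ j → ‖Complex.exp (-((z + j) * D))‖ ≤ Real.exp D := by
    intro j hj
    rw [Complex.norm_exp]
    apply Real.exp_le_exp.mpr
    have : (-((z + (j : ℂ)) * D)).re = -((z.re + j) * D) := by simp
    rw [this]
    nlinarith
  have ea : ‖Complex.exp (-(z * D))‖ ≤ Real.exp D := by
    have := hexp 0 le_rfl
    simpa using this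
  have eb : ‖Complex.exp (-((z + 1 / 2) * D))‖ ≤ Real.exp D := by
    have := hexp (1 / 2) (by norm_num)
    push_cast at this
    exact this
  have ec : ‖Complex.exp (-((z + 1) * D))‖ ≤ Real.exp D := by
    have := hexp 1 (by norm_num)
    push_cast at this
    exact this
  have ed : ‖Complex.exp (-((z + 3 / 2) * D))‖ ≤ Real.exp D := by
    have := hexp (3 / 2) (by norm_num)
    push_cast at this
    exact this
  set a := 1 / z
  set b := 1 / (z + 1 / 2)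
  set c := 1 / (z + 1)
  set d := 1 / (z + 3 / 2)
  have hE : 1 ≤ Real.exp D := Real.one_le_exp hD0.le
  have hDn : ‖(D : ℂ)‖ = D := by rw [Complex.norm_real, Real.norm_of_nonneg hD0.le]
  have c1 : ‖(3 / D : ℂ)‖ ≤ 3 := by
    rw [norm_div, hDn]
    simp only [Complex.norm_ofNat]
    rw [div_le_iff₀ hD0]; linarith
  have c2 : ‖(6 / D ^ 2 : ℂ)‖ ≤ 6 := by
    rw [norm_div, norm_pow, hDn]
    simp only [Complex.norm_ofNat]
    rw [div_le_iff₀ (by positivity)]; nlinarith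
  have c3 : ‖(6 / D ^ 3 : ℂ)‖ ≤ 6 := by
    rw [norm_div, norm_pow, hDn]
    simp only [Complex.norm_ofNat]
    rw [div_le_iff₀ (by positivity)]
    have : 1 ≤ D ^ 3 := one_le_pow₀ hD
    nlinarith
  have m4 : ‖a * b * c * d‖ ≤ κ ^ 4 := by
    rw [norm_mul, norm_mul, norm_mul]
    calc _ ≤ κ * κ * κ * κ := by gcongr
      _ = κ ^ 4 := by ring
  have s1 : ‖a + b + c + d‖ ≤ 4 * κ := by
    have := norm_add_le (a + b + c) d
    have := norm_add_le (a + b) c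
    have := norm_add_le a b
    linarith
  have pr : ∀ x y : ℂ, ‖x‖ ≤ κ → ‖y‖ ≤ κ → ‖x * y‖ ≤ κ ^ 2 := by
    intro x y hx hy
    rw [norm_mul, sq]
    gcongr
  have s2 : ‖a ^ 2 + b ^ 2 + c ^ 2 + d ^ 2 + a * b + a * c + a * d + b * c + b * d + c * d‖ ≤
      10 * κ ^ 2 := by
    have q1 := norm_add_le (a ^ 2 + b ^ 2 + c ^ 2 + d ^ 2 + a * b + a * c + a * d + b * c + b * d) (c * d)
    have q2 := norm_add_le (a ^ 2 + b ^ 2 + c ^ 2 + d ^ 2 + a * b + a * c + a * d + b * c) (b * d)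
    have q3 := norm_add_le (a ^ 2 + b ^ 2 + c ^ 2 + d ^ 2 + a * b + a * c + a * d) (b * c)
    have q4 := norm_add_le (a ^ 2 + b ^ 2 + c ^ 2 + d ^ 2 + a * b + a * c) (a * d)
    have q5 := norm_add_le (a ^ 2 + b ^ 2 + c ^ 2 + d ^ 2 + a * b) (a * c)
    have q6 := norm_add_le (a ^ 2 + b ^ 2 + c ^ 2 + d ^ 2) (a * b)
    have q7 := norm_add_le (a ^ 2 + b ^ 2 + c ^ 2) (d ^ 2)
    have q8 := norm_add_le (a ^ 2 + b ^ 2) (c ^ 2)
    have q9 := norm_add_le (a ^ 2) (b ^ 2)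
    have r1 := pr c d hc hd
    have r2 := pr b d hb hd
    have r3 := pr b c hb hc
    have r4 := pr a d ha hd
    have r5 := pr a c ha hc
    have r6 := pr a b ha hb
    have r7 := pr d d hd hd
    have r8 := pr c c hc hc
    have r9 := pr b b hb hb
    have r10 := pr a a ha ha
    rw [← sq] at r7 r8 r9 r10
    linarith
  have p4 : ∀ x : ℂ, ‖x‖ ≤ κ → ‖x ^ 4‖ ≤ κ ^ 4 := by
    intro x hx
    rw [norm_pow]
    gcongr
  have n4 : ∀ p q r s : ℂ, ‖p - 3 * q + 3 * r - s‖ ≤ ‖p‖ + 3 * ‖q‖ + 3 * ‖r‖ + ‖s‖ := by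
    intro p q r s
    have q1 := norm_sub_le (p - 3 * q + 3 * r) s
    have q2 := norm_add_le (p - 3 * q) (3 * r)
    have q3 := norm_sub_le p (3 * q)
    rw [norm_mul, Complex.norm_ofNat] at q2 q3
    linarith
  have s3 : ‖a ^ 4 - 3 * b ^ 4 + 3 * c ^ 4 - d ^ 4‖ ≤ 8 * κ ^ 4 := by
    refine (n4 _ _ _ _).trans ?_
    linarith [p4 a ha, p4 b hb, p4 c hc, p4 d hd]
  have pe : ∀ e x : ℂ, ‖e‖ ≤ Real.exp D → ‖x‖ ≤ κ → ‖e * x ^ 4‖ ≤ Real.exp D * κ ^ 4 := by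
    intro e x he hx
    rw [norm_mul, norm_pow]
    gcongr
  have s4 : ‖Complex.exp (-(z * D)) * a ^ 4 - 3 * (Complex.exp (-((z + 1 / 2) * D)) * b ^ 4) +
        3 * (Complex.exp (-((z + 1) * D)) * c ^ 4) -
        Complex.exp (-((z + 3 / 2) * D)) * d ^ 4‖ ≤ 8 * (Real.exp D * κ ^ 4) := by
    refine (n4 _ _ _ _).trans ?_
    linarith [pe _ a ea ha, pe _ b eb hb, pe _ c ec hc, pe _ d ed hd]
  have A1 : ‖3 / 4 * (a * b * c * d) * (1 - 3 / D * (a + b + c + d) + 6 / D ^ 2 *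
      (a ^ 2 + b ^ 2 + c ^ 2 + d ^ 2 + a * b + a * c + a * d + b * c + b * d + c * d))‖ ≤
      κ ^ 4 * (1 + 12 * κ + 60 * κ ^ 2) := by
    rw [norm_mul, norm_mul]
    have h34 : ‖(3 / 4 : ℂ)‖ ≤ 1 := by
      rw [norm_div]; simp only [Complex.norm_ofNat]; norm_num
    have hin : ‖1 - 3 / D * (a + b + c + d) + 6 / D ^ 2 *
      (a ^ 2 + b ^ 2 + c ^ 2 + d ^ 2 + a * b + a * c + a * d + b * c + b * d + c * d)‖ ≤
      1 + 12 * κ + 60 * κ ^ 2 := by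
      refine (norm_add_le _ _).trans ?_
      have q1 := norm_sub_le (1 : ℂ) (3 / D * (a + b + c + d))
      rw [norm_one, norm_mul] at q1
      have q2 : ‖(3 / D : ℂ)‖ * ‖a + b + c + d‖ ≤ 3 * (4 * κ) := by gcongr
      have q3 : ‖(6 / D ^ 2 : ℂ) * (a ^ 2 + b ^ 2 + c ^ 2 + d ^ 2 + a * b + a * c + a * d +
        b * c + b * d + c * d)‖ ≤ 6 * (10 * κ ^ 2) := by
        rw [norm_mul]; gcongr
      linarith
    calc _ ≤ 1 * κ ^ 4 * (1 + 12 * κ + 60 * κ ^ 2) := by gcongr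
      _ = _ := by ring
  have A2 : ‖(6 / D ^ 3 : ℂ) * (a ^ 4 - 3 * b ^ 4 + 3 * c ^ 4 - d ^ 4)‖ ≤ 6 * (8 * κ ^ 4) := by
    rw [norm_mul]; gcongr
  have A3 : ‖(6 / D ^ 3 : ℂ) * (Complex.exp (-(z * D)) * a ^ 4 -
      3 * (Complex.exp (-((z + 1 / 2) * D)) * b ^ 4) +
        3 * (Complex.exp (-((z + 1) * D)) * c ^ 4) -
        Complex.exp (-((z + 3 / 2) * D)) * d ^ 4)‖ ≤ 6 * (8 * (Real.exp D * κ ^ 4)) := by
    rw [norm_mul]; gcongr
  refine (norm_add_le _ _).trans ?_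
  refine (add_le_add_left (norm_sub_le _ _) _).trans ?_
  have hK2 : 1 ≤ K ^ 2 := one_le_pow₀ hK
  have hκ2 : κ ^ 2 ≤ K ^ 2 := by gcongr
  have hκ1 : κ ≤ K ^ 2 := by nlinarith
  have hκ4 : 0 ≤ κ ^ 4 := by positivity
  have B1 : κ ^ 4 * (1 + 12 * κ + 60 * κ ^ 2) ≤ κ ^ 4 * (73 * K ^ 2) := by
    apply mul_le_mul_of_nonneg_left _ hκ4
    linarith
  have B2 : K ^ 2 ≤ K ^ 2 * Real.exp D := le_mul_of_one_le_right (by positivity) hE
  have B3 : Real.exp D ≤ K ^ 2 * Real.exp D := le_mul_of_one_le_left (by positivity) hK2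
  have B4 : κ ^ 4 * (73 * K ^ 2) ≤ κ ^ 4 * (73 * (K ^ 2 * Real.exp D)) := by gcongr
  have B5 : 6 * (8 * κ ^ 4) ≤ κ ^ 4 * (48 * (K ^ 2 * Real.exp D)) := by
    have : κ ^ 4 * (48 * 1) ≤ κ ^ 4 * (48 * (K ^ 2 * Real.exp D)) := by
      gcongr
      nlinarith
    linarith
  have B6 : 6 * (8 * (Real.exp D * κ ^ 4)) ≤ κ ^ 4 * (48 * (K ^ 2 * Real.exp D)) := by
    have : κ ^ 4 * (48 * Real.exp D) ≤ κ ^ 4 * (48 * (K ^ 2 * Real.exp D)) := by gcongr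
    linarith
  have B7 : 0 ≤ κ ^ 4 * (K ^ 2 * Real.exp D) := by positivity
  calc _ ≤ κ ^ 4 * (73 * (K ^ 2 * Real.exp D)) + κ ^ 4 * (48 * (K ^ 2 * Real.exp D)) +
        κ ^ 4 * (48 * (K ^ 2 * Real.exp D)) := by linarith
    _ ≤ _ := by linarith

lemma norm_ge_of_re {δ : ℝ} (hδ : 0 < δ) (hδ1 : δ ≤ 1) {z : ℂ} {u : ℝ} (h1 : δ ^ 2 ≤ z.re ^ 2)
    (h2 : z.im = u) : z ≠ 0 ∧ ‖1 / z‖ ≤ 1 / δ * (1 / Real.sqrt (1 + u ^ 2)) := by
  have h3 : δ ^ 2 * (1 + u ^ 2) ≤ ‖z‖ ^ 2 := by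
    rw [Complex.sq_norm, Complex.normSq_apply, h2]
    have : δ ^ 2 ≤ 1 := pow_le_one₀ hδ.le hδ1
    nlinarith [sq_nonneg u]
  have hs : 0 < Real.sqrt (1 + u ^ 2) := Real.sqrt_pos.mpr (by positivity)
  have h4 : δ * Real.sqrt (1 + u ^ 2) ≤ ‖z‖ := by
    apply le_of_sq_le_sq ?_ (norm_nonneg _) |> fun h => h
    rw [mul_pow, Real.sq_sqrt (by positivity)]
    exact h3
  have h5 : 0 < ‖z‖ := lt_of_lt_of_le (by positivity) h4
  refine ⟨norm_pos_iff.mp h5, ?_⟩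
  rw [norm_div, norm_one, one_div_mul_one_div]
  exact one_div_le_one_div_of_le (by positivity) h4

/-- The kernel is admissible. -/
theorem bkc_adm {δ D : ℝ} (hδ : 0 < δ) (hδ1 : δ ≤ 1 / 4) (hD : 1 ≤ D) :
    OneSided.Adm (bkc δ D) D (200 * (1 / δ) ^ 6 * Real.exp D) where
  cont := bkc_continuous δ D
  neg := fun ξ h => by rw [bkc, bk_neg h]; simp
  big := fun ξ h => by rw [bkc, bk_big (by linarith) h]; simp
  bound := fun u => by
    rw [hh_bkc (by linarith)]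
    set z : ℂ := (δ : ℂ) + (-1 + u * Complex.I) with hz
    have hre : z.re = δ - 1 := by simp [hz]; ring
    have him : z.im = u := by simp [hz]
    have r1 : (z + 1 / 2).re = δ - 1 / 2 := by rw [Complex.add_re, hre]; norm_num; ring
    have i1 : (z + 1 / 2).im = u := by rw [Complex.add_im, him]; norm_num
    have r2 : (z + 1).re = δ := by rw [Complex.add_re, hre]; norm_num
    have i2 : (z + 1).im = u := by rw [Complex.add_im, him]; norm_num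
    have r3 : (z + 3 / 2).re = δ + 1 / 2 := by rw [Complex.add_re, hre]; norm_num; ring
    have i3 : (z + 3 / 2).im = u := by rw [Complex.add_im, him]; norm_num
    obtain ⟨h0, ha⟩ := norm_ge_of_re hδ (by linarith) (by rw [hre]; nlinarith) him
    obtain ⟨h1, hb⟩ := norm_ge_of_re hδ (by linarith) (by rw [r1]; nlinarith) i1
    obtain ⟨h2, hc⟩ := norm_ge_of_re hδ (by linarith) (by rw [r2]) i2
    obtain ⟨h3, hd⟩ := norm_ge_of_re hδ (by linarith) (by rw [r3]; nlinarith) i3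
    have hs1 : 1 ≤ Real.sqrt (1 + u ^ 2) := by
      rw [Real.one_le_sqrt]
      nlinarith [sq_nonneg u]
    have hδi : 1 ≤ 1 / δ := by rw [le_div_iff₀ hδ]; linarith
    have h := norm_K4_le (K := 1 / δ) hD hδi (by
      calc 1 / δ * (1 / Real.sqrt (1 + u ^ 2)) ≤ 1 / δ * 1 := by
            gcongr
            rw [div_le_one (by positivity)]; exact hs1
        _ = 1 / δ := mul_one _) (by rw [hre]; linarith) h0 h1 h2 h3 ha hb hc hd
    refine h.trans (le_of_eq ?_)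
    have e : (1 / Real.sqrt (1 + u ^ 2)) ^ 4 = 1 / (1 + u ^ 2) ^ 2 := by
      have : Real.sqrt (1 + u ^ 2) ^ 4 = (1 + u ^ 2) ^ 2 := by
        calc Real.sqrt (1 + u ^ 2) ^ 4 = (Real.sqrt (1 + u ^ 2) ^ 2) ^ 2 := by ring
          _ = _ := by rw [Real.sq_sqrt (by positivity)]
      rw [div_pow, this, one_pow]
    rw [mul_pow, e]
    ring

/-- Approximation of the Cauchy kernel. -/
lemma norm_KK_sub_le {D : ℝ} (hD : 1 ≤ D) {w : ℂ} (hre : 0 ≤ w.re) (hw : 64 ≤ D * ‖w‖) :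
    ‖KK D w - 1 / w‖ ≤ 4 / (D * ‖w‖ ^ 2) := by
  have hD0 : 0 < D := by linarith
  have hw0 : 0 < ‖w‖ := by
    by_contra h
    have : ‖w‖ = 0 := le_antisymm (not_lt.mp h) (norm_nonneg _)
    rw [this] at hw
    norm_num at hw
  have hwn : w ≠ 0 := norm_pos_iff.mp hw0
  have hDn : ‖(D : ℂ)‖ = D := by rw [Complex.norm_real, Real.norm_of_nonneg hD0.le]
  have hexp : ‖Complex.exp (-(w * D))‖ ≤ 1 := by
    rw [Complex.norm_exp, Real.exp_le_one_iff]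
    have : (-(w * (D:ℂ))).re = -(w.re * D) := by simp
    rw [this]
    nlinarith
  rw [KK_eq hD0 hwn]
  set r := ‖w‖ with hr
  have e : 1 / w - 3 / (D * w ^ 2) + 6 / (D ^ 2 * w ^ 3) - 6 / (D ^ 3 * w ^ 4) +
      6 * Complex.exp (-(w * D)) / (D ^ 3 * w ^ 4) - 1 / w =
      6 / (D ^ 2 * w ^ 3) - 3 / (D * w ^ 2) - 6 / (D ^ 3 * w ^ 4) +
      6 * Complex.exp (-(w * D)) / (D ^ 3 * w ^ 4) := by ring
  rw [e]
  have n1 : ‖(6 / (D ^ 2 * w ^ 3) : ℂ)‖ = 6 / (D ^ 2 * r ^ 3) := by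
    rw [norm_div, norm_mul, norm_pow, norm_pow, hDn, Complex.norm_ofNat]
  have n2 : ‖(3 / (D * w ^ 2) : ℂ)‖ = 3 / (D * r ^ 2) := by
    rw [norm_div, norm_mul, norm_pow, hDn, Complex.norm_ofNat]
  have n3 : ‖(6 / (D ^ 3 * w ^ 4) : ℂ)‖ = 6 / (D ^ 3 * r ^ 4) := by
    rw [norm_div, norm_mul, norm_pow, norm_pow, hDn, Complex.norm_ofNat]
  have n4 : ‖(6 * Complex.exp (-(w * D)) / (D ^ 3 * w ^ 4) : ℂ)‖ ≤ 6 / (D ^ 3 * r ^ 4) := by
    rw [norm_div, norm_mul, norm_mul, norm_pow, norm_pow, hDn, Complex.norm_ofNat]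
    apply div_le_div_of_nonneg_right _ (by positivity)
    linarith
  have b1 : 6 / (D ^ 2 * r ^ 3) ≤ (6 / 64) / (D * r ^ 2) := by
    rw [div_le_div_iff₀ (by positivity) (by positivity)]
    have : (6:ℝ) / 64 * (D ^ 2 * r ^ 3) = 6 / 64 * (D * r) * (D * r ^ 2) := by ring
    rw [this]
    have h2 : 0 < D * r ^ 2 := by positivity
    nlinarith
  have b2 : 6 / (D ^ 3 * r ^ 4) ≤ (6 / 64) / (D * r ^ 2) := by
    rw [div_le_div_iff₀ (by positivity) (by positivity)]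
    have : (6:ℝ) / 64 * (D ^ 3 * r ^ 4) = 6 / 64 * (D * r) * ((D * r) * (D * r ^ 2)) := by ring
    rw [this]
    have h2 : 0 < D * r ^ 2 := by positivity
    have h3 : D * r ^ 2 ≤ (D * r) * (D * r ^ 2) := by nlinarith
    nlinarith
  have q1 := norm_add_le (6 / (D ^ 2 * w ^ 3) - 3 / (D * w ^ 2) - 6 / (D ^ 3 * w ^ 4) : ℂ)
    (6 * Complex.exp (-(w * D)) / (D ^ 3 * w ^ 4))
  have q2 := norm_sub_le (6 / (D ^ 2 * w ^ 3) - 3 / (D * w ^ 2) : ℂ) (6 / (D ^ 3 * w ^ 4))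
  have q3 := norm_sub_le (6 / (D ^ 2 * w ^ 3) : ℂ) (3 / (D * w ^ 2))
  rw [n1, n2] at q3
  rw [n3] at q2
  have e4 : 4 / (D * r ^ 2) = 3 / (D * r ^ 2) + 1 / (D * r ^ 2) := by ring
  have e5 : (6 / 64) / (D * r ^ 2) = (6 / 64) * (1 / (D * r ^ 2)) := by ring
  rw [e5] at b1 b2
  have hp : 0 < 1 / (D * r ^ 2) := by positivity
  rw [e4]
  linarith

/-- The main approximation. -/
lemma norm_K4_sub_le {D : ℝ} (hD : 1 ≤ D) {z : ℂ} (hre : 0 < z.re) (hz : 64 ≤ D * z.re) :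
    ‖K4 D z - (1 / z - 3 * (1 / (z + 1 / 2)) + 3 * (1 / (z + 1)) - 1 / (z + 3 / 2))‖ ≤
      32 / (D * ‖z‖ ^ 2) := by
  have hD0 : 0 < D := by linarith
  have hz0 : 0 < ‖z‖ := by
    have := Complex.re_le_norm z
    linarith
  have hshift : ∀ j : ℝ, 0 ≤ j → ‖KK D (z + j) - 1 / (z + j)‖ ≤ 4 / (D * ‖z‖ ^ 2) := by
    intro j hj
    have e1 : (z + (j : ℂ)).re = z.re + j := by simp
    have e2 : (z + (j : ℂ)).im = z.im := by simp
    have h1 : ‖z‖ ≤ ‖z + (j : ℂ)‖ := by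
      apply le_of_sq_le_sq ?_ (norm_nonneg _) |> fun h => h
      rw [Complex.sq_norm, Complex.sq_norm, Complex.normSq_apply, Complex.normSq_apply, e1, e2]
      nlinarith
    have h2 := Complex.re_le_norm (z + (j : ℂ))
    rw [e1] at h2
    have h3 := norm_KK_sub_le hD (w := z + j) (by rw [e1]; linarith) (by nlinarith)
    refine h3.trans ?_
    gcongr
  have k0 := hshift 0 le_rfl
  have k1 := hshift (1 / 2) (by norm_num)
  have k2 := hshift 1 (by norm_num)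
  have k3 := hshift (3 / 2) (by norm_num)
  push_cast at k0 k1 k2 k3
  rw [add_zero] at k0
  have e : K4 D z - (1 / z - 3 * (1 / (z + 1 / 2)) + 3 * (1 / (z + 1)) - 1 / (z + 3 / 2)) =
      (KK D z - 1 / z) - 3 * (KK D (z + 1 / 2) - 1 / (z + 1 / 2)) +
        3 * (KK D (z + 1) - 1 / (z + 1)) - (KK D (z + 3 / 2) - 1 / (z + 3 / 2)) := by
    rw [K4]; ring
  rw [e]
  have q1 := norm_sub_le ((KK D z - 1 / z) - 3 * (KK D (z + 1 / 2) - 1 / (z + 1 / 2)) +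
        3 * (KK D (z + 1) - 1 / (z + 1))) (KK D (z + 3 / 2) - 1 / (z + 3 / 2))
  have q2 := norm_add_le ((KK D z - 1 / z) - 3 * (KK D (z + 1 / 2) - 1 / (z + 1 / 2)))
        (3 * (KK D (z + 1) - 1 / (z + 1)))
  have q3 := norm_sub_le (KK D z - 1 / z) (3 * (KK D (z + 1 / 2) - 1 / (z + 1 / 2)))
  rw [norm_mul, Complex.norm_ofNat] at q2 q3
  have e4 : 32 / (D * ‖z‖ ^ 2) = 8 * (4 / (D * ‖z‖ ^ 2)) := by ring
  rw [e4]
  linarith

end Pool.Agent.HalfGap
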