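import Pool.Agent.ZGap.Half.Holder
import Pool.Agent.ZGap.Half.ExpMom

/-!
# The Fubini step and the final Hölder step
-/

namespace Pool.Agent.HalfGap

open MeasureTheory Set Pool.Agent.Hadamard Pool.Agent.ZGap

/-- the Gaussian of width `H` has integral `√(2π) H` -/
lemma integral_gauss {H : ℝ} (hH : 0 < H) (t : ℝ) :
    ∫ t0 : ℝ, Real.exp (-(t - t0) ^ 2 / (2 * H ^ 2)) = Real.sqrt (2 * Real.pi) * H := by
  have h1 : (fun t0 : ℝ => Real.exp (-(t - t0) ^ 2 / (2 * H ^ 2))) =
      fun t0 : ℝ => (fun x : ℝ => Real.exp (-(1 / (2 * H ^ 2)) * x ^ 2)) (t - t0) := by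
    funext t0
    simp only
    congr 1
    ring
  rw [h1, integral_sub_left_eq_self (fun x : ℝ => Real.exp (-(1 / (2 * H ^ 2)) * x ^ 2)) volume t,
    integral_gaussian]
  rw [show Real.pi / (1 / (2 * H ^ 2)) = (2 * Real.pi) * H ^ 2 by field_simp,
    Real.sqrt_mul (by positivity), Real.sqrt_sq hH.le]

lemma integrable_gauss {H : ℝ} (hH : 0 < H) (t : ℝ) :
    Integrable (fun t0 : ℝ => Real.exp (-(t - t0) ^ 2 / (2 * H ^ 2))) := by
  have h1 : (fun t0 : ℝ => Real.exp (-(t - t0) ^ 2 / (2 * H ^ 2))) =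
      fun t0 : ℝ => (fun x : ℝ => Real.exp (-(1 / (2 * H ^ 2)) * x ^ 2)) (t - t0) := by
    funext t0
    simp only
    congr 1
    ring
  rw [h1]
  exact (integrable_exp_neg_mul_sq (by positivity)).comp_sub_left t

/-- The Fubini step: a lower bound for all centres gives a lower bound for the integral. -/
theorem fubini_E {T H c2 : ℝ} {E : Set ℝ} {g : ℝ → ℝ} (hT : 0 ≤ T) (hH : 0 < H)
    (hg0 : ∀ t, 0 ≤ g t) (hg : IntegrableOn g E)
    (h : ∀ t0, T ≤ t0 → t0 ≤ 2 * T →
      c2 ≤ ∫ t in E, 3 * Real.exp (-(t - t0) ^ 2 / (2 * H ^ 2)) * g t) :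
    c2 * T ≤ 3 * Real.sqrt (2 * Real.pi) * H * ∫ t in E, g t := by
  set I : Set ℝ := Icc T (2 * T) with hI
  have hIm : MeasurableSet I := measurableSet_Icc
  set F : ℝ → ℝ → ℝ := fun t0 t => 3 * Real.exp (-(t - t0) ^ 2 / (2 * H ^ 2)) * g t with hF
  have hbd : ∀ t0 t : ℝ, Real.exp (-(t - t0) ^ 2 / (2 * H ^ 2)) ≤ 1 := by
    intro t0 t
    rw [Real.exp_le_one_iff]
    exact div_nonpos_of_nonpos_of_nonneg (by nlinarith [sq_nonneg (t - t0)]) (by positivity)
  have : IsFiniteMeasure (volume.restrict I) := by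
    rw [hI]; infer_instance
  have hint : Integrable (Function.uncurry F) ((volume.restrict I).prod (volume.restrict E)) := by
    have h1 : Integrable (fun p : ℝ × ℝ => (3 : ℝ) * g p.2)
        ((volume.restrict I).prod (volume.restrict E)) :=
      Integrable.mul_prod (f := fun _ : ℝ => (3:ℝ)) (g := g) (integrable_const _) hg
    refine h1.mono ?_ (Filter.Eventually.of_forall fun p => ?_)
    · have h2 : AEStronglyMeasurable (fun p : ℝ × ℝ => g p.2)
          ((volume.restrict I).prod (volume.restrict E)) := hg.aestronglyMeasurable.comp_snd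
      have h3 : Continuous (fun p : ℝ × ℝ => 3 * Real.exp (-(p.2 - p.1) ^ 2 / (2 * H ^ 2))) := by
        fun_prop
      exact h3.aestronglyMeasurable.mul h2
    · simp only [Function.uncurry, hF]
      rw [Real.norm_of_nonneg (by have := hg0 p.2; positivity),
        Real.norm_of_nonneg (by have := hg0 p.2; positivity)]
      have := hbd p.1 p.2
      have := hg0 p.2
      gcongr
      nlinarith
  have hswap := integral_integral_swap hint
  have hl : c2 * T ≤ ∫ t0 in I, ∫ t in E, F t0 t := by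
    have e : ∫ _ in I, c2 = c2 * T := by
      rw [setIntegral_const, hI, smul_eq_mul, Real.volume_real_Icc_of_le (by linarith)]
      ring
    rw [← e]
    refine setIntegral_mono_on (integrableOn_const (by rw [hI]; simp)) hint.integral_prod_left hIm
      (fun t0 ht0 => ?_)
    exact h t0 ht0.1 ht0.2
  refine hl.trans (hswap.le.trans ?_)
  rw [← integral_const_mul]
  refine integral_mono hint.integral_prod_right (hg.const_mul _) (fun t => ?_)
  simp only [hF]
  rw [integral_mul_const, integral_const_mul]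
  have h4 : ∫ t0 in I, Real.exp (-(t - t0) ^ 2 / (2 * H ^ 2)) ≤ Real.sqrt (2 * Real.pi) * H := by
    rw [← integral_gauss hH t]
    exact setIntegral_le_integral (integrable_gauss hH t)
      (Filter.Eventually.of_forall fun _ => (Real.exp_pos _).le)
  have := hg0 t
  calc (3 * ∫ t0 in I, Real.exp (-(t - t0) ^ 2 / (2 * H ^ 2))) * g t
      ≤ (3 * (Real.sqrt (2 * Real.pi) * H)) * g t := by gcongr
    _ = _ := by ring

lemma expXX_continuous (hRH : RiemannHypothesis) {T : ℝ} (hT : 1 ≤ Real.log T) (C : ℝ) :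
    Continuous (fun t => Real.exp (C * (Res.FM.W1 T t + |D1 T t|))) :=
  Real.continuous_exp.comp ((XX_continuous hRH hT).const_mul C)

/-- integrability of `G² e^{C X}` -/
theorem integrableOn_G_exp (hRH : RiemannHypothesis) {T : ℝ} (hT : 1 ≤ Real.log T) (C : ℝ)
    {a b : ℝ} {G : ℝ → ℝ} (hGm : AEStronglyMeasurable G (volume.restrict (Icc a b)))
    (hG : IntegrableOn (fun t => G t ^ 4) (Icc a b)) :
    IntegrableOn (fun t => G t ^ 2 * Real.exp (C * (Res.FM.W1 T t + |D1 T t|))) (Icc a b) := by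
  have hc := expXX_continuous hRH hT C
  have h2 : IntegrableOn (fun t => Real.exp (C * (Res.FM.W1 T t + |D1 T t|)) ^ 2) (Icc a b) :=
    (hc.pow 2).continuousOn.integrableOn_compact isCompact_Icc
  refine Integrable.mono (hG.add h2) ((hGm.pow 2).mul hc.aestronglyMeasurable)
    (Filter.Eventually.of_forall (fun t => ?_))
  simp only [Pi.add_apply]
  set e := Real.exp (C * (Res.FM.W1 T t + |D1 T t|)) with he
  have he0 : 0 < e := Real.exp_pos _
  rw [Real.norm_of_nonneg (by positivity), Real.norm_of_nonneg (by positivity)]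
  nlinarith [sq_nonneg (G t ^ 2 - e), sq_nonneg (G t ^ 2), sq_nonneg e]

/-- The final Hölder step: over a small set the integral of `G² e^{C X}` is small. -/
theorem holder_G_exp (hRH : RiemannHypothesis) (C : ℝ) (hC : 0 < C) : ∃ C1 T0 : ℝ, 0 < C1 ∧
    ∀ T, T0 ≤ T → ∀ (E : Set ℝ), MeasurableSet E → E ⊆ Icc (T / 2) (3 * T) → ∀ G : ℝ → ℝ,
      AEStronglyMeasurable G (volume.restrict (Icc (T / 2) (3 * T))) →
      IntegrableOn (fun t => G t ^ 4) (Icc (T / 2) (3 * T)) →
      IntegrableOn (fun t => G t ^ 2 * Real.exp (C * (Res.FM.W1 T t + |D1 T t|)))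
        (Icc (T / 2) (3 * T)) ∧
      ∫ t in E, G t ^ 2 * Real.exp (C * (Res.FM.W1 T t + |D1 T t|)) ≤
        volume.real E ^ (1/4 : ℝ) * (∫ t in Icc (T / 2) (3 * T), G t ^ 4) ^ (1/2 : ℝ) *
          (C1 * T) ^ (1/4 : ℝ) := by
  obtain ⟨C1, T1, hC1, hm⟩ := exp_moment hRH (4 * C) (by positivity)
  refine ⟨C1, max T1 (Real.exp 1), hC1, fun T hT E hE hEs G hGm hG => ?_⟩
  have hT1 : T1 ≤ T := (le_max_left _ _).trans hT
  have hTe : Real.exp 1 ≤ T := (le_max_right _ _).trans hT
  have hT0 : 0 < T := (Real.exp_pos _).trans_le hTe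
  have hlog : 1 ≤ Real.log T := by rw [Real.le_log_iff_exp_le hT0]; exact hTe
  obtain ⟨_, hm2⟩ := hm T hT1
  have hc := expXX_continuous hRH hlog C
  refine ⟨integrableOn_G_exp hRH hlog C hGm hG, ?_⟩
  have hf : IntegrableOn (fun t => (G t ^ 2) ^ 2) (Icc (T / 2) (3 * T)) := by
    refine hG.congr_fun (fun t _ => ?_) measurableSet_Icc
    ring
  have hg : IntegrableOn (fun t => Real.exp (C * (Res.FM.W1 T t + |D1 T t|)) ^ 4)
      (Icc (T / 2) (3 * T)) := (hc.pow 4).continuousOn.integrableOn_compact isCompact_Icc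
  have key := holder_E hE hEs (f := fun t => G t ^ 2)
    (g := fun t => Real.exp (C * (Res.FM.W1 T t + |D1 T t|))) (hGm.pow 2)
    hc.aestronglyMeasurable hf hg
  have e1 : ∫ t in Icc (T / 2) (3 * T), (G t ^ 2) ^ 2 = ∫ t in Icc (T / 2) (3 * T), G t ^ 4 := by
    congr 1; ext t; ring
  have e2 : ∫ t in Icc (T / 2) (3 * T), Real.exp (C * (Res.FM.W1 T t + |D1 T t|)) ^ 4 ≤ C1 * T := by
    refine le_trans (le_of_eq ?_) hm2
    rw [intervalIntegral.integral_of_le (by linarith), ← integral_Icc_eq_integral_Ioc]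
    congr 1
    funext t
    rw [← Real.exp_nat_mul]
    congr 1
    push_cast
    ring
  rw [e1] at key
  refine key.trans ?_
  have n0 : 0 ≤ ∫ t in Icc (T / 2) (3 * T), Real.exp (C * (Res.FM.W1 T t + |D1 T t|)) ^ 4 :=
    integral_nonneg fun t => by positivity
  have n3 : 0 ≤ volume.real E := measureReal_nonneg
  have n4 : 0 ≤ ∫ t in Icc (T / 2) (3 * T), G t ^ 4 := integral_nonneg (fun t => by positivity)
  have := Real.rpow_le_rpow n0 e2 (by norm_num : (0:ℝ) ≤ 1/4)
  gcongr

end Pool.Agent.HalfGap
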