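import Pool.Agent.ZGap.Half.Quad

/-!
# Weighted sums with general weights: the boundary layer and comparison with the zeroth moment
-/

namespace Pool.Agent.HalfGap

open MeasureTheory Finset Pool.Agent.ZGap.Res Filter Topology

variable {R : ResData} {T : ℝ}

/-- The weighted sum with general weights. -/
noncomputable def bv (R : ResData) (T : ℝ) (v : ℕ → ℝ) (G : ℝ → ℝ) : ℝ :=
  ∑ U ∈ (PP T).powerset, G (uu R T U) * ∏ p ∈ U, v p

lemma bv_nonneg (hT : 1 < T) {v : ℕ → ℝ} (hv : ∀ p ∈ PP T, 0 ≤ v p) {G : ℝ → ℝ}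
    (hG : ∀ u, 0 ≤ u → 0 ≤ G u) : 0 ≤ bv R T v G := by
  refine sum_nonneg fun U hU => ?_
  rw [mem_powerset] at hU
  exact mul_nonneg (hG _ (uu_nonneg hT U)) (prod_nonneg fun p hp => hv p (hU hp))

/-- Exchange of summation. -/
lemma swap_sum (v w : ℕ → ℝ) (T : ℝ) (hT : 1 < T) (G : ℝ → ℝ) :
    ∑ U ∈ (PP T).powerset, G (uu R T U) * ∑ q ∈ U, w q * ∏ p ∈ U.erase q, v p =
      ∑ N ∈ (PP T).powerset, (∏ p ∈ N, v p) * ∑ q ∈ PP T \ N, w q * G (uu R T N + xi T q / R.th) := by
  classical
  have e1 : ∀ U ∈ (PP T).powerset, G (uu R T U) * ∑ q ∈ U, w q * ∏ p ∈ U.erase q, v p =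
      ∑ q ∈ PP T, (if {q} ⊆ U then w q * (G (uu R T U) * ∏ p ∈ U.erase q, v p) else 0) := by
    intro U hU
    rw [mem_powerset] at hU
    rw [mul_sum, ← sum_filter]
    have e2 : (PP T).filter (fun q => {q} ⊆ U) = U := by
      ext q
      rw [mem_filter, singleton_subset_iff]
      exact ⟨fun h => h.2, fun h => ⟨hU h, h⟩⟩
    rw [e2]
    exact sum_congr rfl fun q _ => by ring
  rw [sum_congr rfl e1, sum_comm]
  have e3 : ∀ q ∈ PP T, ∑ U ∈ (PP T).powerset,
      (if {q} ⊆ U then w q * (G (uu R T U) * ∏ p ∈ U.erase q, v p) else 0) =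
      ∑ N ∈ (PP T).powerset, (if q ∈ PP T \ N then
        (∏ p ∈ N, v p) * (w q * G (uu R T N + xi T q / R.th)) else 0) := by
    intro q hq
    rw [sum_superset (singleton_subset_iff.mpr hq) (fun U => w q * (G (uu R T U) * ∏ p ∈ U.erase q, v p))]
    refine sum_congr rfl fun N _ => ?_
    by_cases h : q ∈ N
    · rw [if_neg (fun h' => disjoint_singleton_left.mp h' h), if_neg]
      rw [Finset.mem_sdiff]
      exact fun h' => h'.2 h
    · have h2 : q ∈ PP T \ N := Finset.mem_sdiff.mpr ⟨hq, h⟩
      have h3 : {q} ∪ N = insert q N := rfl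
      rw [if_pos (disjoint_singleton_left.mpr h), if_pos h2, h3, erase_insert h, uu_insert hT h]
      ring
  rw [sum_congr rfl e3, sum_comm]
  refine sum_congr rfl fun N _ => ?_
  rw [mul_sum, ← sum_filter]
  have e4 : (PP T).filter (fun q => q ∈ PP T \ N) = PP T \ N := by
    ext q
    rw [mem_filter, Finset.mem_sdiff]
    tauto
  rw [e4]

/-- Small primes have small weight. -/
lemma small_wt {ep : ℝ} (hep : 0 < ep) (hep1 : ep ≤ 1 / 2) : ∃ T0 : ℝ, Real.exp 3 ≤ T0 ∧ ∀ T : ℝ, T0 ≤ T →
    ∑ p ∈ PP T, (if xi T p ≤ 2 * ep then wt T p else 0) ≤ 5 * ep := by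
  refine ⟨max (Real.exp 3) (Real.exp (2 / ep)), le_max_left _ _, fun T hT => ?_⟩
  have hTe : Real.exp 3 ≤ T := (le_max_left _ _).trans hT
  have hTe2 : Real.exp (2 / ep) ≤ T := (le_max_right _ _).trans hT
  have h1T : 1 < T := lt_of_lt_of_le (Real.one_lt_exp_iff.mpr (by norm_num)) hTe
  have hT0 : 0 < T := by linarith
  have hL : 0 < Real.log T := Real.log_pos h1T
  have hL2 : 2 / ep ≤ Real.log T := by
    rw [Real.le_log_iff_exp_le hT0]; exact hTe2
  set Y := T ^ (2 * ep) with hY
  have hY1 : 1 ≤ Y := Real.one_le_rpow h1T.le (by positivity)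
  have hN : 1 ≤ ⌊Y⌋₊ := Nat.le_floor (by exact_mod_cast hY1)
  have h1 := Pool.Agent.DirPoly.sum_log_div_le hN
  have hlogN : Real.log ⌊Y⌋₊ ≤ 2 * ep * Real.log T := by
    rw [← Real.log_rpow hT0]
    apply Real.log_le_log (by exact_mod_cast (by omega : 0 < ⌊Y⌋₊))
    exact Nat.floor_le (by linarith)
  have hl4 : Real.log 4 ≤ 1.4 := by
    have : Real.log 4 = 2 * Real.log 2 := by
      rw [show (4 : ℝ) = 2 ^ 2 by norm_num, Real.log_pow]; norm_num
    have := Real.log_two_lt_d9
    linarith
  have e1 : ∑ p ∈ PP T, (if xi T p ≤ 2 * ep then wt T p else 0) ≤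
      (∑ p ∈ (Icc 1 ⌊Y⌋₊).filter Nat.Prime, Real.log p / p) / Real.log T := by
    rw [← sum_filter, sum_div]
    have hsub : (PP T).filter (fun p => xi T p ≤ 2 * ep) ⊆ (Icc 1 ⌊Y⌋₊).filter Nat.Prime := by
      intro p hp
      rw [mem_filter] at hp ⊢
      have hpp := (mem_PP.mp hp.1).1
      refine ⟨mem_Icc.mpr ⟨hpp.one_lt.le, ?_⟩, hpp⟩
      apply Nat.le_floor
      have h2 := hp.2
      unfold xi at h2
      rw [div_le_iff₀ hL] at h2
      have hp0 : (0:ℝ) < p := by exact_mod_cast hpp.pos
      rw [hY, Real.rpow_def_of_pos hT0, ← Real.log_le_iff_le_exp hp0]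
      linarith
    calc ∑ p ∈ (PP T).filter (fun p => xi T p ≤ 2 * ep), wt T p
        ≤ ∑ p ∈ (Icc 1 ⌊Y⌋₊).filter Nat.Prime, wt T p :=
          sum_le_sum_of_subset_of_nonneg hsub fun p _ _ => wt_nonneg h1T p
      _ = _ := by
          refine sum_congr rfl fun p _ => ?_
          unfold wt
          rw [div_div]
  refine e1.trans ?_
  rw [div_le_iff₀ hL]
  have h3 : 2 ≤ ep * Real.log T := by
    rw [div_le_iff₀ hep] at hL2
    linarith
  have h4 : 0 ≤ Real.log ⌊Y⌋₊ := Real.log_natCast_nonneg _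
  calc _ ≤ Real.log 4 * (1 + Real.log ⌊Y⌋₊) := h1
    _ ≤ 1.4 * (1 + 2 * ep * Real.log T) := by
        apply mul_le_mul hl4 (by linarith) _ (by norm_num)
        linarith
    _ ≤ 5 * ep * Real.log T := by nlinarith

/-- The boundary layer is thin, for general weights. -/
theorem layer_v (R : ResData) {δ η : ℝ} (hδ : 0 ≤ δ) (hδ' : δ ≤ 1 / 2) (hη : 0 < η) :
    ∃ T0 : ℝ, Real.exp 3 ≤ T0 ∧ ∀ T : ℝ, T0 ≤ T → ∀ v : ℕ → ℝ,
      (∀ p ∈ PP T, 0 ≤ v p) → (∀ p ∈ PP T, v p ≤ 3 * R.f (xi T p) / p) →
      bv R T v (ly δ) ≤ 6 / R.th * (R.th * δ + η) * bv R T v (tp 0) := by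
  obtain ⟨K, hK, hlip⟩ := f_lip R
  have hth := th_pos R
  have hth2 := R.th_lt
  obtain ⟨T0, hT0, h1⟩ := sharp_sum R K 1 (η / 2) hK zero_le_one (half_pos hη)
  refine ⟨T0, hT0, fun T hT v hv0 hv => ?_⟩
  have hTe : Real.exp 3 ≤ T := hT0.trans hT
  have h1T : 1 < T := lt_of_lt_of_le (Real.one_lt_exp_iff.mpr (by norm_num)) hTe
  have hL : 0 < Real.log T := Real.log_pos h1T
  have hf2 : ∀ x, |R.f x| ≤ 1 := abs_f_le R
  have key : ∀ V ⊆ PP T, uu R T V < 1 →
      ∑ p ∈ PP T \ V, wt T p * (R.f (xi T p) * ly δ (uu R T V + xi T p / R.th)) ≤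
        R.th * δ + η := by
    intro V hV hu
    set u := uu R T V with hu'
    have hu0 : 0 ≤ u := uu_nonneg h1T V
    set β1 := R.th * (1 - u) with hβ1
    set β2 := max 0 (R.th * (1 - δ - u)) with hβ2
    have b1 : 0 ≤ β1 := by apply mul_nonneg hth.le; linarith
    have b1' : β1 ≤ 1 := by nlinarith
    have b2 : 0 ≤ β2 := le_max_left _ _
    have b21 : β2 ≤ β1 := max_le b1 (by nlinarith)
    have m1 := h1 T hT R.f (fun x hx => f_off R hx)
      hlip hf2 V hV hu.le β1 b1 b1'
    have m2 := h1 T hT R.f (fun x hx => f_off R hx)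
      hlip hf2 V hV hu.le β2 b2 (b21.trans b1')
    have e1 : ∑ p ∈ PP T \ V, wt T p * (R.f (xi T p) * ly δ (u + xi T p / R.th)) =
        ∑ p ∈ PP T \ V, wt T p * (if xi T p < β1 then R.f (xi T p) else 0) -
        ∑ p ∈ PP T \ V, wt T p * (if xi T p < β2 then R.f (xi T p) else 0) := by
      rw [← sum_sub_distrib]
      refine sum_congr rfl fun p _ => ?_
      have hx := xi_nonneg h1T p
      have hiff1 : u + xi T p / R.th < 1 ↔ xi T p < β1 := by
        rw [hβ1]
        constructor
        · intro h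
          have : xi T p / R.th < 1 - u := by linarith
          rw [div_lt_iff₀ hth] at this
          linarith
        · intro h
          have : xi T p / R.th < 1 - u := by
            rw [div_lt_iff₀ hth]; linarith
          linarith
      have hiff2 : 1 - δ ≤ u + xi T p / R.th ↔ β2 ≤ xi T p := by
        rw [hβ2, max_le_iff]
        constructor
        · intro h
          refine ⟨hx, ?_⟩
          have : 1 - δ - u ≤ xi T p / R.th := by linarith
          rw [le_div_iff₀ hth] at this
          linarith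
        · rintro ⟨_, h⟩
          have : 1 - δ - u ≤ xi T p / R.th := by
            rw [le_div_iff₀ hth]; linarith
          linarith
      unfold ly
      by_cases c1 : xi T p < β1
      · by_cases c2 : β2 ≤ xi T p
        · rw [if_pos ⟨hiff2.mpr c2, hiff1.mpr c1⟩, if_pos c1, if_neg (not_lt.mpr c2)]; ring
        · rw [if_neg (fun h => c2 (hiff2.mp h.1)), if_pos c1, if_pos (not_le.mp c2)]; ring
      · have c2 : ¬ xi T p < β2 := fun h => c1 (h.trans_le b21)
        rw [if_neg (fun h => c1 (hiff1.mp h.2)), if_neg c1, if_neg c2]; ring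
    have hfc : Continuous R.f := continuous_f R
    have e2 : (∫ x in (0:ℝ)..β1, R.f x) - ∫ x in (0:ℝ)..β2, R.f x ≤ R.th * δ := by
      rw [intervalIntegral.integral_interval_sub_left (hfc.intervalIntegrable _ _)
        (hfc.intervalIntegrable _ _)]
      calc ∫ x in β2..β1, R.f x ≤ ∫ x in β2..β1, (1:ℝ) :=
            intervalIntegral.integral_mono_on b21 (hfc.intervalIntegrable _ _)
              (by simp) (fun x _ => R.f_le x)
        _ = β1 - β2 := by simp
        _ ≤ R.th * δ := by
            have := le_max_right 0 (R.th * (1 - δ - u))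
            rw [← hβ2] at this
            rw [hβ1]
            nlinarith
    rw [e1]
    rw [abs_le] at m1 m2
    linarith [m1.1, m1.2, m2.1, m2.2]
  -- the adjoint identity
  have adj := swap_sum (R := R) v (fun q => v q * (xi T q / R.th)) T h1T (ly δ)
  have e1 : (1 / 2) * bv R T v (ly δ) ≤
      ∑ U ∈ (PP T).powerset, ly δ (uu R T U) *
        ∑ q ∈ U, (v q * (xi T q / R.th)) * ∏ p ∈ U.erase q, v p := by
    unfold bv
    rw [mul_sum]
    refine sum_le_sum fun U hU => ?_
    rw [mem_powerset] at hU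
    have h3 : 0 ≤ ∏ p ∈ U, v p := prod_nonneg fun p hp => hv0 p (hU hp)
    have e5 : ∑ q ∈ U, (v q * (xi T q / R.th)) * ∏ p ∈ U.erase q, v p =
        uu R T U * ∏ p ∈ U, v p := by
      rw [uu_eq_sum h1T, sum_mul]
      refine sum_congr rfl fun q hq => ?_
      rw [← mul_prod_erase U v hq]
      ring
    rw [e5]
    unfold ly
    split_ifs with h
    · have : 1 / 2 ≤ uu R T U := by linarith [h.1]
      nlinarith
    · simp
  rw [adj] at e1
  have e2 : ∑ N ∈ (PP T).powerset, (∏ p ∈ N, v p) * ∑ q ∈ PP T \ N, v q * (xi T q / R.th) *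
        ly δ (uu R T N + xi T q / R.th) ≤
      3 / R.th * (R.th * δ + η) * bv R T v (tp 0) := by
    unfold bv
    rw [mul_sum]
    refine sum_le_sum fun V hV => ?_
    rw [mem_powerset] at hV
    have h3 : 0 ≤ ∏ p ∈ V, v p := prod_nonneg fun p hp => hv0 p (hV hp)
    rw [tp_zero]
    by_cases hu : uu R T V < 1
    · rw [if_pos hu, one_mul]
      have h5 := key V hV hu
      have h6 : ∑ q ∈ PP T \ V, v q * (xi T q / R.th) * ly δ (uu R T V + xi T q / R.th) ≤
          3 / R.th * (R.th * δ + η) := by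
        calc _ ≤ ∑ q ∈ PP T \ V, 3 / R.th * (wt T q * (R.f (xi T q) *
              ly δ (uu R T V + xi T q / R.th))) := by
              refine sum_le_sum fun q hq => ?_
              rw [Finset.mem_sdiff] at hq
              have g1 := hv q hq.1
              have g2 := xi_nonneg h1T q
              have g3 := ly_nonneg δ (uu R T V + xi T q / R.th)
              have g4 : v q * (xi T q / R.th) ≤ 3 / R.th * (wt T q * R.f (xi T q)) := by
                calc v q * (xi T q / R.th) ≤ 3 * R.f (xi T q) / q * (xi T q / R.th) := by gcongr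
                  _ = 3 / R.th * (wt T q * R.f (xi T q)) := by
                      unfold wt
                      have hq0 : (0:ℝ) < q := by exact_mod_cast (mem_PP.mp hq.1).1.pos
                      have e9 : xi T q = Real.log q / Real.log T := rfl
                      generalize R.f (xi T q) = g
                      rw [e9]
                      field_simp
              calc _ ≤ (3 / R.th * (wt T q * R.f (xi T q))) * ly δ (uu R T V + xi T q / R.th) := by
                    gcongr
                _ = _ := by ring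
          _ = 3 / R.th * ∑ q ∈ PP T \ V, wt T q * (R.f (xi T q) *
              ly δ (uu R T V + xi T q / R.th)) := by rw [mul_sum]
          _ ≤ _ := by gcongr
      calc _ ≤ (∏ p ∈ V, v p) * (3 / R.th * (R.th * δ + η)) := by gcongr
        _ = _ := by ring
    · rw [if_neg hu, zero_mul, mul_zero]
      have h5 : ∀ q ∈ PP T \ V, v q * (xi T q / R.th) * ly δ (uu R T V + xi T q / R.th) = 0 := by
        intro p _
        have hx := div_nonneg (xi_nonneg h1T p) hth.le
        have : ly δ (uu R T V + xi T p / R.th) = 0 := by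
          unfold ly
          rw [if_neg]
          intro h
          exact hu (by linarith [h.2])
        rw [this]
        ring
      rw [sum_eq_zero h5, mul_zero]
  have e6 : (6:ℝ) / R.th * (R.th * δ + η) * bv R T v (tp 0) =
      2 * (3 / R.th * (R.th * δ + η) * bv R T v (tp 0)) := by ring
  rw [e6]
  linarith

/-- Telescoping. -/
lemma prod_sub_prod_le {U : Finset ℕ} {v v' : ℕ → ℝ} (h0 : ∀ p ∈ U, 0 ≤ v' p)
    (h1 : ∀ p ∈ U, v' p ≤ v p) :
    ∏ p ∈ U, v p - ∏ p ∈ U, v' p ≤ ∑ q ∈ U, (v q - v' q) * ∏ p ∈ U.erase q, v p := by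
  classical
  induction U using Finset.induction_on with
  | empty => simp
  | insert a U ha ih =>
    have ih' := ih (fun p hp => h0 p (mem_insert_of_mem hp)) (fun p hp => h1 p (mem_insert_of_mem hp))
    rw [prod_insert ha, prod_insert ha, sum_insert ha, erase_insert ha]
    have g0 := h0 a (mem_insert_self a U)
    have g1 := h1 a (mem_insert_self a U)
    have hPv : ∀ W ⊆ U, 0 ≤ ∏ p ∈ W, v p := fun W hW => prod_nonneg fun p hp =>
      (h0 p (mem_insert_of_mem (hW hp))).trans (h1 p (mem_insert_of_mem (hW hp)))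
    have e1 : ∑ q ∈ U, (v q - v' q) * ∏ p ∈ (insert a U).erase q, v p =
        v a * ∑ q ∈ U, (v q - v' q) * ∏ p ∈ U.erase q, v p := by
      rw [mul_sum]
      refine sum_congr rfl fun q hq => ?_
      have hqa : a ≠ q := fun h => ha (h ▸ hq)
      rw [erase_insert_of_ne hqa, prod_insert (fun h => ha (mem_of_mem_erase h))]
      ring
    rw [e1]
    have h2 : 0 ≤ ∑ q ∈ U, (v q - v' q) * ∏ p ∈ U.erase q, v p :=
      sum_nonneg fun q hq => mul_nonneg (sub_nonneg.mpr (h1 q (mem_insert_of_mem hq)))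
        (hPv _ (erase_subset _ _))
    have h3 : v a * ∏ p ∈ U, v p - v' a * ∏ p ∈ U, v' p =
        (v a - v' a) * ∏ p ∈ U, v p + v' a * (∏ p ∈ U, v p - ∏ p ∈ U, v' p) := by ring
    rw [h3]
    have h4 : v' a * (∏ p ∈ U, v p - ∏ p ∈ U, v' p) ≤
        v a * ∑ q ∈ U, (v q - v' q) * ∏ p ∈ U.erase q, v p := by
      calc _ ≤ v' a * ∑ q ∈ U, (v q - v' q) * ∏ p ∈ U.erase q, v p :=
            mul_le_mul_of_nonneg_left ih' g0
        _ ≤ _ := mul_le_mul_of_nonneg_right g1 h2
    linarith

/-- Changing the weights. -/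
lemma bv_sub_le (hT : 1 < T) {v v' : ℕ → ℝ} (h0 : ∀ p ∈ PP T, 0 ≤ v' p)
    (h1 : ∀ p ∈ PP T, v' p ≤ v p) {S : ℝ}
    (hS : ∑ q ∈ PP T, (if xi T q < R.th then v q - v' q else 0) ≤ S) :
    bv R T v (tp 0) - bv R T v' (tp 0) ≤ S * bv R T v (tp 0) := by
  classical
  have hth := th_pos R
  have hv0 : ∀ p ∈ PP T, 0 ≤ v p := fun p hp => (h0 p hp).trans (h1 p hp)
  calc bv R T v (tp 0) - bv R T v' (tp 0)
      = ∑ U ∈ (PP T).powerset, tp 0 (uu R T U) * (∏ p ∈ U, v p - ∏ p ∈ U, v' p) := by
        unfold bv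
        rw [← sum_sub_distrib]
        exact sum_congr rfl fun _ _ => by ring
    _ ≤ ∑ U ∈ (PP T).powerset, tp 0 (uu R T U) * ∑ q ∈ U, (v q - v' q) * ∏ p ∈ U.erase q, v p := by
        refine sum_le_sum fun U hU => ?_
        rw [mem_powerset] at hU
        exact mul_le_mul_of_nonneg_left (prod_sub_prod_le (fun p hp => h0 p (hU hp))
          (fun p hp => h1 p (hU hp))) (tp_nonneg 0 _)
    _ = ∑ N ∈ (PP T).powerset, (∏ p ∈ N, v p) * ∑ q ∈ PP T \ N, (v q - v' q) *
          tp 0 (uu R T N + xi T q / R.th) :=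
        swap_sum v (fun q => v q - v' q) T hT (tp 0)
    _ ≤ ∑ N ∈ (PP T).powerset, (∏ p ∈ N, v p) * (tp 0 (uu R T N) * S) := by
        refine sum_le_sum fun N hN => ?_
        rw [mem_powerset] at hN
        apply mul_le_mul_of_nonneg_left _ (prod_nonneg fun p hp => hv0 p (hN hp))
        calc ∑ q ∈ PP T \ N, (v q - v' q) * tp 0 (uu R T N + xi T q / R.th)
            ≤ ∑ q ∈ PP T \ N, tp 0 (uu R T N) * (if xi T q < R.th then v q - v' q else 0) := by
              refine sum_le_sum fun q hq => ?_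
              rw [Finset.mem_sdiff] at hq
              have g1 : 0 ≤ v q - v' q := sub_nonneg.mpr (h1 q hq.1)
              have g2 := div_nonneg (xi_nonneg hT q) hth.le
              have g3 := uu_nonneg (R := R) hT N
              rw [tp_zero, tp_zero]
              by_cases c1 : uu R T N + xi T q / R.th < 1
              · have c2 : uu R T N < 1 := by linarith
                have c3 : xi T q < R.th := by
                  have : xi T q / R.th < 1 := by linarith
                  rwa [div_lt_one hth] at this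
                rw [if_pos c1, if_pos c2, if_pos c3]
                linarith
              · rw [if_neg c1, mul_zero]
                refine mul_nonneg ?_ ?_
                · split_ifs <;> norm_num
                · split_ifs
                  · exact g1
                  · exact le_rfl
          _ ≤ ∑ q ∈ PP T, tp 0 (uu R T N) * (if xi T q < R.th then v q - v' q else 0) := by
              apply sum_le_sum_of_subset_of_nonneg sdiff_subset
              intro q hq _
              refine mul_nonneg (tp_nonneg 0 _) ?_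
              split_ifs
              · exact sub_nonneg.mpr (h1 q hq)
              · exact le_rfl
          _ = tp 0 (uu R T N) * ∑ q ∈ PP T, (if xi T q < R.th then v q - v' q else 0) := by
              rw [mul_sum]
          _ ≤ tp 0 (uu R T N) * S := mul_le_mul_of_nonneg_left hS (tp_nonneg 0 _)
    _ = S * bv R T v (tp 0) := by
        unfold bv
        rw [mul_sum]
        exact sum_congr rfl fun _ _ => by ring

end Pool.Agent.HalfGap
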