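import Pool.Agent.ZGap.Half.LineTwo

/-!
# The line integral for the Möbius polynomial
-/

namespace Pool.Agent.HalfGap

open MeasureTheory Finset Pool.Agent.ZGap.Res Filter Topology Complex
open scoped ArithmeticFunction.Moebius

lemma norm_Ms_le (α : ℝ) (X : ℕ) : ‖Ms α X‖ ≤ 1 + Real.log X := by
  have h1 : ‖Ms α X‖ ≤ ∑ k ∈ Icc 1 X, (1:ℝ) / k := by
    unfold Ms
    refine (norm_sum_le _ _).trans (sum_le_sum fun k hk => ?_)
    rw [mem_Icc] at hk
    have hk0 : (0:ℝ) < k := by exact_mod_cast hk.1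
    rw [norm_mul, norm_pow, Complex.norm_intCast]
    have h2 : ‖(k : ℂ) ^ (-1 + α * I : ℂ)‖ = 1 / k := by
      rw [← Complex.ofReal_natCast, Complex.norm_cpow_eq_rpow_re_of_pos hk0]
      simp [Real.rpow_neg_one]
    rw [h2]
    have h3 : |((μ k : ℤ) : ℝ)| ≤ 1 := by exact_mod_cast ArithmeticFunction.abs_moebius_le_one
    have h4 : |((μ k : ℤ) : ℝ)| ^ 2 ≤ 1 := pow_le_one₀ (abs_nonneg _) h3
    have h5 : 0 ≤ (1:ℝ) / k := by positivity
    exact mul_le_of_le_one_left h5 h4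
  refine h1.trans ?_
  have h2 := harmonic_le_one_add_log X
  rw [harmonic_eq_sum_Icc] at h2
  push_cast at h2
  simpa [one_div] using h2

lemma norm_bV_le (α : ℝ) {p : ℕ × ℕ} {X : ℕ} (hp : p ∈ QV X) : ‖bV α p‖ ≤ 1 := by
  unfold QV at hp
  rw [mem_product, mem_Icc, mem_Icc] at hp
  obtain ⟨⟨hm1, _⟩, hn1, _⟩ := hp
  have hm : (1:ℝ) ≤ p.1 := by exact_mod_cast hm1
  have hn : (1:ℝ) ≤ p.2 := by exact_mod_cast hn1
  unfold bV
  rw [norm_mul, norm_mul, norm_mul, Complex.norm_intCast, Complex.norm_intCast,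
    Complex.norm_exp_ofReal_mul_I, Complex.norm_real, Real.norm_eq_abs]
  have h1 : |((μ p.1 : ℤ) : ℝ)| ≤ 1 := by exact_mod_cast ArithmeticFunction.abs_moebius_le_one
  have h2 : |((μ p.2 : ℤ) : ℝ)| ≤ 1 := by exact_mod_cast ArithmeticFunction.abs_moebius_le_one
  have h3 : |((p.1 : ℝ) * p.2) ^ (-(1:ℝ) / 2)| ≤ 1 := by
    rw [abs_of_nonneg (Real.rpow_nonneg (by positivity) _)]
    apply Real.rpow_le_one_of_one_le_of_nonpos (one_le_mul_of_one_le_of_one_le hm hn)
    norm_num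
  rw [mul_one]
  calc _ ≤ (1:ℝ) * 1 * 1 := by gcongr
    _ = 1 := by norm_num

lemma exp_wV_le {p : ℕ × ℕ} {X : ℕ} (hp : p ∈ QV X) : Real.exp (-(3 * wV p / 2)) ≤ (X:ℝ) ^ 2 := by
  unfold QV at hp
  rw [mem_product, mem_Icc, mem_Icc] at hp
  obtain ⟨⟨hm1, _⟩, hn1, hnX⟩ := hp
  have hm : (1:ℝ) ≤ p.1 := by exact_mod_cast hm1
  have hn : (1:ℝ) ≤ p.2 := by exact_mod_cast hn1
  have hX : (p.2:ℝ) ≤ X := by exact_mod_cast hnX
  have hX0 : (0:ℝ) < X := by linarith
  have h1 : Real.exp (2 * Real.log X) = (X:ℝ) ^ 2 := by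
    rw [mul_comm, Real.exp_mul, Real.exp_log hX0]
    norm_num
  rw [← h1]
  apply Real.exp_le_exp.mpr
  unfold wV
  have h2 := Real.log_nonneg hm
  have h3 := Real.log_nonneg hn
  have h4 := Real.log_le_log (by linarith) hX
  linarith

/-- **The line integral for the Möbius polynomial.** -/
theorem line_one {τ η1 η2 : ℝ} (hτ1 : 1 / 2 < τ) (hτ2 : τ < 1)
    (h1 : 1 / 2 < η1) (hη : 1 / (2 * τ) < η1) (h12 : η1 < η2) (h2 : η2 < 1) :
    ∃ c : ℝ, 0 < c ∧ ∃ T0 : ℝ, ∀ T : ℝ, T0 ≤ T → ∀ t0 : ℝ, T ≤ t0 → t0 ≤ 2 * T →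
      (∫ t in (t0 - T ^ η2)..(t0 + T ^ η2), Og (T ^ η1) t0 (2 + t * I) *
        (∑ q ∈ QV ⌊T ^ (1 / (2 * τ))⌋₊, bV (2 * Real.pi * τ / Real.log T) q *
          Complex.exp (-wV q * ((2 + t * I) - 1 / 2))) *
          fq (2 * Real.pi * τ / Real.log T) (2 + t * I)).im ≤ -c * T ^ η1 * Real.log T := by
  have hpi := Real.pi_pos
  have hτ : 0 < τ := by linarith
  obtain ⟨c, hc, T2, k2⟩ := main_sign hτ1 hτ2
  have hA : 0 < 2 * Real.pi * τ := by positivity
  obtain ⟨C, T1, hC, k1⟩ := line_core hA h1 h12 h2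
  have hsp : 0 < Real.sqrt Real.pi := Real.sqrt_pos.mpr hpi
  set κ := 1 / (2 * τ) with hκ
  have hκ0 : 0 < κ := by positivity
  have hκ1 : κ < 1 := by rw [hκ, div_lt_one (by positivity)]; linarith
  refine ⟨c * Real.sqrt Real.pi / 2, by positivity, ?_⟩
  have ev1 := ev_small C 5 (η1 - κ) (by linarith) (k := 1 / 2)
    (ε := c * Real.sqrt Real.pi / 16) (by norm_num) (by positivity)
  have ev2 := ev_small C 5 (2 * (η2 - η1)) (by linarith) (k := 1)
    (ε := c * Real.sqrt Real.pi / 16) one_pos (by positivity)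
  have ev3 : ∀ᶠ T : ℝ in atTop, 2 * (C / Real.log T) ≤ c * Real.sqrt Real.pi / 4 := by
    have := (Real.tendsto_log_atTop.const_div_atTop C).const_mul 2
    rw [mul_zero] at this
    exact this.eventually (ge_mem_nhds (by positivity))
  obtain ⟨T3, hT3⟩ := eventually_atTop.mp (ev1.and (ev2.and ev3))
  refine ⟨max T1 (max T2 (max T3 (Real.exp 3))), fun T hT t0 ht1 ht2 => ?_⟩
  have hTT1 : T1 ≤ T := (le_max_left _ _).trans hT
  have hTT2 : T2 ≤ T := ((le_max_left _ _).trans (le_max_right _ _)).trans hT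
  have hTT3 : T3 ≤ T := (((le_max_left _ _).trans (le_max_right _ _)).trans (le_max_right _ _)).trans hT
  have hTe : Real.exp 3 ≤ T := (((le_max_right _ _).trans (le_max_right _ _)).trans (le_max_right _ _)).trans hT
  have h1T : 1 < T := lt_of_lt_of_le (Real.one_lt_exp_iff.mpr (by norm_num)) hTe
  have hT0 : 0 < T := by linarith
  have hL3 : 3 ≤ Real.log T := by rw [Real.le_log_iff_exp_le hT0]; exact hTe
  have hL : 0 < Real.log T := by linarith
  obtain ⟨a1, a2, a3⟩ := hT3 T hTT3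
  have b1 := k2 T hTT2
  set α := 2 * Real.pi * τ / Real.log T with hα
  set X := ⌊T ^ κ⌋₊ with hX
  have hα0 : 0 ≤ α := by positivity
  have hTκ : 1 ≤ T ^ κ := Real.one_le_rpow h1T.le hκ0.le
  have hXle : (X:ℝ) ≤ T ^ κ := Nat.floor_le (by linarith)
  have hX1 : 1 ≤ X := Nat.le_floor (by exact_mod_cast hTκ)
  have hX1r : (1:ℝ) ≤ X := by exact_mod_cast hX1
  have key := k1 T α t0 hTT1 hα0 le_rfl ht1 ht2 _ (QV X) (bV α) wV (1 / ((X:ℝ) + 1))
    (fun q hq n hn => wV_sep hq hn)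
  rw [Mdiag_eq] at key
  set K := ∫ t in (t0 - T ^ η2)..(t0 + T ^ η2), Og (T ^ η1) t0 (2 + t * I) *
        (∑ q ∈ QV X, bV α q * Complex.exp (-wV q * ((2 + t * I) - 1 / 2))) *
          fq α (2 + t * I) with hK
  set M := Ms α X with hM
  set P := ((Real.sqrt Real.pi * T ^ η1 : ℝ) : ℂ) *
        Complex.exp ((α / 2 * Real.log (T / (2 * Real.pi)) : ℝ) * I) with hP
  have hH1 : 1 ≤ T ^ η1 := Real.one_le_rpow h1T.le (by linarith)
  have hMn : ‖M‖ ≤ 2 * Real.log T := by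
    refine (norm_Ms_le α X).trans ?_
    have h5 : Real.log X ≤ Real.log T := by
      apply Real.log_le_log (by linarith)
      refine hXle.trans ?_
      calc T ^ κ ≤ T ^ (1:ℝ) := Real.rpow_le_rpow_of_exponent_le h1T.le hκ1.le
        _ = T := Real.rpow_one T
    linarith
  -- the main term
  have hmain : (M * P).im ≤ -c * Real.log T * (Real.sqrt Real.pi * T ^ η1) := by
    have e1 : M * P = ((Real.sqrt Real.pi * T ^ η1 : ℝ) : ℂ) *
        (Complex.exp ((α / 2 * Real.log (T / (2 * Real.pi)) : ℝ) * I) * M) := by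
      rw [hP]
      ring
    rw [e1, Complex.im_ofReal_mul]
    have h6 : 0 ≤ Real.sqrt Real.pi * T ^ η1 := by positivity
    calc _ ≤ (Real.sqrt Real.pi * T ^ η1) * (-c * Real.log T) := mul_le_mul_of_nonneg_left b1 h6
      _ = _ := by ring
  -- the errors
  have herr : ‖K - M * P‖ ≤ c * Real.sqrt Real.pi / 2 * Real.log T * T ^ η1 := by
    refine key.trans ?_
    have s1 : ∑ q ∈ QV X, ‖bV α q‖ * Real.exp (-(3 * wV q / 2)) ≤ T ^ 4 := by
      calc _ ≤ ∑ q ∈ QV X, (X:ℝ) ^ 2 := by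
            refine sum_le_sum fun q hq => ?_
            calc _ ≤ 1 * (X:ℝ) ^ 2 := mul_le_mul (norm_bV_le α hq) (exp_wV_le hq)
                  (Real.exp_pos _).le zero_le_one
              _ = _ := one_mul _
        _ = (X:ℝ) ^ 4 := by
            unfold QV
            rw [sum_const, card_product, Nat.card_Icc, Nat.add_sub_cancel, nsmul_eq_mul]
            push_cast
            ring
        _ ≤ T ^ 4 := by
            have : (X:ℝ) ≤ T := hXle.trans (by
              calc T ^ κ ≤ T ^ (1:ℝ) := Real.rpow_le_rpow_of_exponent_le h1T.le hκ1.le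
                _ = T := Real.rpow_one T)
            gcongr
    have e2 : 1 / 2 * T ^ (η1 - κ) ≤ 1 / ((X:ℝ) + 1) * T ^ η1 := by
      rw [Real.rpow_sub hT0]
      have h5 : 0 < T ^ κ := Real.rpow_pos_of_pos hT0 _
      have h6 : 0 < T ^ η1 := Real.rpow_pos_of_pos hT0 _
      have h7 : (X:ℝ) + 1 ≤ 2 * T ^ κ := by linarith
      calc 1 / 2 * (T ^ η1 / T ^ κ) = 1 / (2 * T ^ κ) * T ^ η1 := by field_simp
        _ ≤ 1 / ((X:ℝ) + 1) * T ^ η1 := by gcongr
    have h7 : (∑ q ∈ QV X, ‖bV α q‖ * Real.exp (-(3 * wV q / 2))) *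
        (C * T * (Real.exp (-(1 / ((X:ℝ) + 1) * T ^ η1)) + Real.exp (-(T ^ (2 * (η2 - η1)))))) ≤
        c * Real.sqrt Real.pi / 8 := by
      calc _ ≤ T ^ 4 *
          (C * T * (Real.exp (-(1 / 2 * T ^ (η1 - κ))) + Real.exp (-(T ^ (2 * (η2 - η1)))))) := by
            apply mul_le_mul s1 _ (by positivity) (by positivity)
            have : Real.exp (-(1 / ((X:ℝ) + 1) * T ^ η1)) ≤ Real.exp (-(1 / 2 * T ^ (η1 - κ))) :=
              Real.exp_le_exp.mpr (by linarith)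
            gcongr
        _ = C * T ^ (5:ℝ) * Real.exp (-(1 / 2 * T ^ (η1 - κ))) +
            C * T ^ (5:ℝ) * Real.exp (-(1 * T ^ (2 * (η2 - η1)))) := by
            have e3 : T ^ (5:ℝ) = T ^ 5 := by
              rw [← Real.rpow_natCast]; norm_num
            rw [e3, one_mul]
            ring
        _ ≤ c * Real.sqrt Real.pi / 16 + c * Real.sqrt Real.pi / 16 := add_le_add a1 a2
        _ = _ := by ring
    have h8 : ‖M‖ * (C / Real.log T * T ^ η1) ≤ c * Real.sqrt Real.pi / 4 * Real.log T * T ^ η1 := by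
      calc _ ≤ (2 * Real.log T) * (C / Real.log T * T ^ η1) :=
            mul_le_mul_of_nonneg_right hMn (by positivity)
        _ = (2 * (C / Real.log T)) * Real.log T * T ^ η1 := by ring
        _ ≤ _ := by gcongr
    have h9 : c * Real.sqrt Real.pi / 8 ≤ c * Real.sqrt Real.pi / 4 * Real.log T * T ^ η1 := by
      have h10 : 1 ≤ Real.log T * T ^ η1 := one_le_mul_of_one_le_of_one_le (by linarith) hH1
      have h11 : 0 ≤ c * Real.sqrt Real.pi / 4 := by positivity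
      calc _ ≤ c * Real.sqrt Real.pi / 4 * 1 := by linarith
        _ ≤ c * Real.sqrt Real.pi / 4 * (Real.log T * T ^ η1) := mul_le_mul_of_nonneg_left h10 h11
        _ = _ := by ring
    calc _ ≤ c * Real.sqrt Real.pi / 8 + c * Real.sqrt Real.pi / 4 * Real.log T * T ^ η1 := add_le_add h7 h8
      _ ≤ c * Real.sqrt Real.pi / 4 * Real.log T * T ^ η1 + c * Real.sqrt Real.pi / 4 * Real.log T * T ^ η1 := by
          linarith
      _ = _ := by ring
  have h12' : K.im - (M * P).im ≤ c * Real.sqrt Real.pi / 2 * Real.log T * T ^ η1 := by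
    rw [← Complex.sub_im]
    exact (le_abs_self _).trans ((Complex.abs_im_le_norm _).trans herr)
  linarith only [h12', hmain]

end Pool.Agent.HalfGap
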