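import Pool.Agent.ZGap.Half.Sign2
import Pool.Agent.ZGap.Half.Off
import Pool.Agent.ZGap.Half.GamInt

/-!
# The line integral on `Re s = 2` for the square of the resonator and for the Möbius polynomial
-/

namespace Pool.Agent.HalfGap

open MeasureTheory Finset Pool.Agent.ZGap.Res Filter Topology Complex

/-- Powers times exponentials of negative powers tend to zero. -/
lemma ev_small (C a b : ℝ) (hb : 0 < b) {k ε : ℝ} (hk : 0 < k) (hε : 0 < ε) :
    ∀ᶠ T : ℝ in atTop, C * T ^ a * Real.exp (-(k * T ^ b)) ≤ ε := by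
  have h1 : Tendsto (fun T : ℝ => T ^ b) atTop atTop := tendsto_rpow_atTop hb
  have h2 : Tendsto (fun x : ℝ => x ^ (a / b) * Real.exp (-k * x)) atTop (𝓝 0) :=
    tendsto_rpow_mul_exp_neg_mul_atTop_nhds_zero (a / b) k hk
  have h3 := (h2.comp h1).const_mul C
  rw [mul_zero] at h3
  have h4 : Tendsto (fun T : ℝ => C * T ^ a * Real.exp (-(k * T ^ b))) atTop (𝓝 0) := by
    refine h3.congr' ?_
    filter_upwards [eventually_gt_atTop 0] with T hT
    simp only [Function.comp]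
    rw [← Real.rpow_mul hT.le, mul_div_cancel₀ a hb.ne']
    have : -k * T ^ b = -(k * T ^ b) := by ring
    rw [this]
    ring
  exact h4.eventually (ge_mem_nhds hε)

/-- The general assembly. -/
lemma line_core {A η1 η2 : ℝ} (hA : 0 < A) (h1 : 1 / 2 < η1) (h12 : η1 < η2) (h2 : η2 < 1) :
    ∃ C T0 : ℝ, 0 < C ∧ ∀ T α t0 : ℝ, T0 ≤ T → 0 ≤ α → α ≤ A / Real.log T → T ≤ t0 → t0 ≤ 2 * T →
      ∀ (ι : Type) (Q : Finset ι) (b : ι → ℂ) (w : ι → ℝ) (dl : ℝ),
      (∀ q ∈ Q, ∀ n : ℕ, 1 ≤ n → w q + Real.log n = 0 ∨ dl ≤ |w q + Real.log n|) →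
      ‖(∫ t in (t0 - T ^ η2)..(t0 + T ^ η2), Og (T ^ η1) t0 (2 + t * I) *
        (∑ q ∈ Q, b q * Complex.exp (-w q * ((2 + t * I) - 1 / 2))) * fq α (2 + t * I)) -
        Mdiag Q b w α * (((Real.sqrt Real.pi * T ^ η1 : ℝ) : ℂ) *
        Complex.exp ((α / 2 * Real.log (T / (2 * Real.pi)) : ℝ) * I))‖ ≤
      (∑ q ∈ Q, ‖b q‖ * Real.exp (-(3 * w q / 2))) *
        (C * T * (Real.exp (-(dl * T ^ η1)) + Real.exp (-(T ^ (2 * (η2 - η1)))))) +
      ‖Mdiag Q b w α‖ * (C / Real.log T * T ^ η1) := by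
  obtain ⟨C1, T1, hC1, k1⟩ := off_bound' A hA
  obtain ⟨C2, T2, hC2, k2⟩ := gam_int hA h1 h12 h2
  have ev : ∀ᶠ T : ℝ in atTop, T ^ η2 ≤ T / 8 := by
    have h3 : Tendsto (fun T : ℝ => T ^ (1 - η2)) atTop atTop := tendsto_rpow_atTop (by linarith)
    filter_upwards [h3.eventually_ge_atTop 8, eventually_gt_atTop 0] with T hT hT0
    have h4 : T ^ η2 * T ^ (1 - η2) = T := by
      rw [← Real.rpow_add hT0]; simp
    have h5 : 0 < T ^ η2 := Real.rpow_pos_of_pos hT0 _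
    rw [le_div_iff₀ (by norm_num)]
    calc T ^ η2 * 8 ≤ T ^ η2 * T ^ (1 - η2) := by gcongr
      _ = T := h4
  obtain ⟨T3, hT3⟩ := eventually_atTop.mp ev
  refine ⟨max C2 (C1 * Dd + 1), max (max T1 T2) (max T3 (Real.exp 1)), lt_of_lt_of_le hC2 (le_max_left _ _),
    fun T α t0 hT hα hα' ht1 ht2 ι Q b w dl hw => ?_⟩
  have hTT1 : T1 ≤ T := ((le_max_left _ _).trans (le_max_left _ _)).trans hT
  have hTT2 : T2 ≤ T := ((le_max_right _ _).trans (le_max_left _ _)).trans hT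
  have hTT3 : T3 ≤ T := ((le_max_left _ _).trans (le_max_right _ _)).trans hT
  have hTe : Real.exp 1 ≤ T := ((le_max_right _ _).trans (le_max_right _ _)).trans hT
  have h1T : 1 < T := lt_of_lt_of_le (Real.one_lt_exp_iff.mpr (by norm_num)) hTe
  have hT0 : 0 < T := by linarith
  have hL : 0 < Real.log T := Real.log_pos h1T
  have hU8 := hT3 T hTT3
  have hHU : T ^ η1 ≤ T ^ η2 := Real.rpow_le_rpow_of_exponent_le h1T.le h12.le
  have hH1 : 1 ≤ T ^ η1 := Real.one_le_rpow h1T.le (by linarith)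
  have hOff : ∀ l : ℝ, ‖Iexp α (T ^ η1) t0 (T ^ η2) l‖ ≤
      C1 * Real.exp (-(3 * l / 2)) * (T * Real.exp (-(|l| * T ^ η1)) +
        T * Real.exp (-((T ^ η2) ^ 2 / (T ^ η1) ^ 2))) := fun l =>
    k1 T α t0 (T ^ η1) (T ^ η2) hTT1 hα hα' (by linarith) (by linarith) hH1
      (hHU.trans hU8) hHU hU8 l
  have htr := trace_core Q b w (α := α) (H := T ^ η1) (U := T ^ η2) (t0 := t0) (T := T) (C0 := C1)
    (dl := dl) hC1.le hT0.le (by linarith) hw hOff
  have hgi := k2 T α t0 hTT2 hα hα' ht1 ht2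
  have e1 : (T ^ η2) ^ 2 / (T ^ η1) ^ 2 = T ^ (2 * (η2 - η1)) := by
    rw [← div_pow, ← Real.rpow_sub hT0, ← Real.rpow_natCast, ← Real.rpow_mul hT0.le]
    congr 1
    push_cast
    ring
  rw [e1] at htr
  set J := ∫ t in (t0 - T ^ η2)..(t0 + T ^ η2), Og (T ^ η1) t0 (2 + t * I) * gam α (2 + t * I) with hJ
  set K := ∫ t in (t0 - T ^ η2)..(t0 + T ^ η2), Og (T ^ η1) t0 (2 + t * I) *
        (∑ q ∈ Q, b q * Complex.exp (-w q * ((2 + t * I) - 1 / 2))) * fq α (2 + t * I) with hK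
  set M := Mdiag Q b w α with hM
  set P := ((Real.sqrt Real.pi * T ^ η1 : ℝ) : ℂ) *
        Complex.exp ((α / 2 * Real.log (T / (2 * Real.pi)) : ℝ) * I) with hP
  have hS0 : 0 ≤ ∑ q ∈ Q, ‖b q‖ * Real.exp (-(3 * w q / 2)) := sum_nonneg fun _ _ => by positivity
  have hD := Dd_nonneg
  calc ‖K - M * P‖ = ‖(K - M * J) + M * (J - P)‖ := by congr 1; ring
    _ ≤ ‖K - M * J‖ + ‖M‖ * ‖J - P‖ := by
        refine (norm_add_le _ _).trans ?_
        rw [norm_mul]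
    _ ≤ (∑ q ∈ Q, ‖b q‖ * Real.exp (-(3 * w q / 2))) *
        (C1 * (T * Real.exp (-(dl * T ^ η1)) + T * Real.exp (-(T ^ (2 * (η2 - η1))))) * Dd) +
        ‖M‖ * (C2 / Real.log T * T ^ η1) := by
        apply add_le_add htr
        exact mul_le_mul_of_nonneg_left hgi (norm_nonneg _)
    _ ≤ _ := by
        apply add_le_add
        · apply mul_le_mul_of_nonneg_left _ hS0
          have e2 : C1 * (T * Real.exp (-(dl * T ^ η1)) + T * Real.exp (-(T ^ (2 * (η2 - η1))))) * Dd =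
              (C1 * Dd) * T * (Real.exp (-(dl * T ^ η1)) + Real.exp (-(T ^ (2 * (η2 - η1))))) := by ring
          rw [e2]
          have h5 : C1 * Dd ≤ max C2 (C1 * Dd + 1) := (by linarith : C1 * Dd ≤ C1 * Dd + 1).trans (le_max_right _ _)
          gcongr
        · apply mul_le_mul_of_nonneg_left _ (norm_nonneg _)
          have h5 : C2 ≤ max C2 (C1 * Dd + 1) := le_max_left _ _
          gcongr

/-- **The line integral for the square of the resonator.** -/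
theorem line_two {τ θ η1 η2 : ℝ} (hτ1 : 1 / 2 < τ) (hτ2 : τ < 1) (hθ : 0 < θ) (hθ' : θ < 1 / 2)
    (h3 : 1 < τ * (1 + 2 * θ)) (h1 : 1 / 2 < η1) (hη : 2 * θ < η1) (h12 : η1 < η2) (h2 : η2 < 1) :
    ∃ c : ℝ, 0 < c ∧ ∃ e : ℝ, 0 < e ∧ ∀ R : ResData, R.r = -1 →
      R.th = θ → R.ep ≤ e → ∀ δ : ℝ, δ ≤ e → LinProf R 1 0 δ →
      ∃ T0 : ℝ, ∀ T : ℝ, T0 ≤ T → ∀ t0 : ℝ, T ≤ t0 → t0 ≤ 2 * T →
      (∫ t in (t0 - T ^ η2)..(t0 + T ^ η2), Og (T ^ η1) t0 (2 + t * I) *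
        (∑ q ∈ Q2 R T, b2 R T (2 * Real.pi * τ / Real.log T) q *
          Complex.exp (-w2 q * ((2 + t * I) - 1 / 2))) *
          fq (2 * Real.pi * τ / Real.log T) (2 + t * I)).im ≤ -c * T ^ η1 * mom R T 0 ^ 2 := by
  have hpi := Real.pi_pos
  have hτ : 0 < τ := by linarith
  obtain ⟨c, hc, e, he, g1⟩ := main_sign2 hτ1 hτ2 hθ hθ' h3
  have hA : 0 < 2 * Real.pi * τ := by positivity
  obtain ⟨C, T1, hC, k1⟩ := line_core hA h1 h12 h2
  have hsp : 0 < Real.sqrt Real.pi := Real.sqrt_pos.mpr hpi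
  refine ⟨c * Real.sqrt Real.pi / 2, by positivity, e, he, fun R hr hth hep δ hδe hlin => ?_⟩
  obtain ⟨T2, hT2, k2⟩ := g1 R hr hth hep δ hδe hlin
  -- large T
  have ev1 := ev_small (C * E1 R ^ 2) (3 * θ + 3) (η1 - 2 * θ) (by linarith) (k := 1 / 2)
    (ε := c * Real.sqrt Real.pi / 8) (by norm_num) (by positivity)
  have ev2 := ev_small (C * E1 R ^ 2) (3 * θ + 3) (2 * (η2 - η1)) (by linarith) (k := 1)
    (ε := c * Real.sqrt Real.pi / 8) one_pos (by positivity)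
  have ev3 : ∀ᶠ T : ℝ in atTop, 2 * (C / Real.log T) ≤ c * Real.sqrt Real.pi / 4 := by
    have := (Real.tendsto_log_atTop.const_div_atTop C).const_mul 2
    rw [mul_zero] at this
    exact this.eventually (ge_mem_nhds (by positivity))
  obtain ⟨T3, hT3⟩ := eventually_atTop.mp (ev1.and (ev2.and ev3))
  refine ⟨max T1 (max T2 T3), fun T hT t0 ht1 ht2 => ?_⟩
  have hTT1 : T1 ≤ T := (le_max_left _ _).trans hT
  have hTT2 : T2 ≤ T := ((le_max_left _ _).trans (le_max_right _ _)).trans hT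
  have hTT3 : T3 ≤ T := ((le_max_right _ _).trans (le_max_right _ _)).trans hT
  have hTe : Real.exp 3 ≤ T := hT2.trans hTT2
  have h1T : 1 < T := lt_of_lt_of_le (Real.one_lt_exp_iff.mpr (by norm_num)) hTe
  have hT0 : 0 < T := by linarith
  have hL : 0 < Real.log T := Real.log_pos h1T
  obtain ⟨a1, a2, a3⟩ := hT3 T hTT3
  obtain ⟨b1, b2'⟩ := k2 T hTT2
  set α := 2 * Real.pi * τ / Real.log T with hα
  have hα0 : 0 ≤ α := by positivity
  have hF : ∀ x, 0 ≤ x → R.F x ≤ 1 := fun x hx => hlin.F_le_one hx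
  have key := k1 T α t0 hTT1 hα0 le_rfl ht1 ht2 _ (Q2 R T) (b2 R T α) w2 (T ^ (-(2 * R.th)) / 2)
    (fun q hq n hn => w2_sep h1T hq hn)
  rw [show Mdiag (Q2 R T) (b2 R T α) w2 α = M2 R T α from rfl] at key
  set K := ∫ t in (t0 - T ^ η2)..(t0 + T ^ η2), Og (T ^ η1) t0 (2 + t * I) *
        (∑ q ∈ Q2 R T, b2 R T α q * Complex.exp (-w2 q * ((2 + t * I) - 1 / 2))) *
          fq α (2 + t * I) with hK
  set M := M2 R T α with hM
  set m := mom R T 0 with hm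
  have hm1 : 1 ≤ m := one_le_mom h1T 0
  have hmm : 1 ≤ m ^ 2 := one_le_pow₀ hm1
  set P := ((Real.sqrt Real.pi * T ^ η1 : ℝ) : ℂ) *
        Complex.exp ((α / 2 * Real.log (T / (2 * Real.pi)) : ℝ) * I) with hP
  have hH1 : 1 ≤ T ^ η1 := Real.one_le_rpow h1T.le (by linarith)
  -- the main term
  have hmain : (M * P).im ≤ -c * m ^ 2 * (Real.sqrt Real.pi * T ^ η1) := by
    have h5 := b2' T (by linarith) (by linarith)
    have e1 : M * P = ((Real.sqrt Real.pi * T ^ η1 : ℝ) : ℂ) *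
        (Complex.exp ((psi τ T T : ℝ) * I) * M) := by
      rw [hP]
      unfold psi
      ring
    rw [e1, Complex.im_ofReal_mul]
    have h6 : 0 ≤ Real.sqrt Real.pi * T ^ η1 := by positivity
    calc _ ≤ (Real.sqrt Real.pi * T ^ η1) * (-c * m ^ 2) := mul_le_mul_of_nonneg_left h5 h6
      _ = _ := by ring
  -- the errors
  have herr : ‖K - M * P‖ ≤ c * Real.sqrt Real.pi / 2 * m ^ 2 * T ^ η1 := by
    refine key.trans ?_
    have s1 := sum_b2_le (R := R) hTe hF α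
    have e2 : T ^ (-(2 * R.th)) / 2 * T ^ η1 = 1 / 2 * T ^ (η1 - 2 * θ) := by
      rw [hth, show η1 - 2 * θ = -(2 * θ) + η1 by ring, Real.rpow_add hT0]
      ring
    have h7 : (∑ q ∈ Q2 R T, ‖b2 R T α q‖ * Real.exp (-(3 * w2 q / 2))) *
        (C * T * (Real.exp (-(T ^ (-(2 * R.th)) / 2 * T ^ η1)) + Real.exp (-(T ^ (2 * (η2 - η1)))))) ≤
        c * Real.sqrt Real.pi / 4 := by
      rw [e2]
      calc _ ≤ (T ^ (3 * R.th) * (T * E1 R) ^ 2) *
          (C * T * (Real.exp (-(1 / 2 * T ^ (η1 - 2 * θ))) + Real.exp (-(T ^ (2 * (η2 - η1)))))) :=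
            mul_le_mul_of_nonneg_right s1 (by positivity)
        _ = C * E1 R ^ 2 * T ^ (3 * θ + 3) * Real.exp (-(1 / 2 * T ^ (η1 - 2 * θ))) +
            C * E1 R ^ 2 * T ^ (3 * θ + 3) * Real.exp (-(1 * T ^ (2 * (η2 - η1)))) := by
            have e3 : T ^ (3 * θ + 3) = T ^ (3 * θ) * T ^ 3 := by
              rw [Real.rpow_add hT0]
              norm_num
            rw [e3, hth, one_mul]
            ring
        _ ≤ c * Real.sqrt Real.pi / 8 + c * Real.sqrt Real.pi / 8 := add_le_add a1 a2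
        _ = _ := by ring
    have h8 : ‖M‖ * (C / Real.log T * T ^ η1) ≤ c * Real.sqrt Real.pi / 4 * m ^ 2 * T ^ η1 := by
      calc _ ≤ (2 * m ^ 2) * (C / Real.log T * T ^ η1) := mul_le_mul_of_nonneg_right b1 (by positivity)
        _ = (2 * (C / Real.log T)) * m ^ 2 * T ^ η1 := by ring
        _ ≤ _ := by gcongr
    have h9 : c * Real.sqrt Real.pi / 4 ≤ c * Real.sqrt Real.pi / 4 * m ^ 2 * T ^ η1 := by
      have h10 : 1 ≤ m ^ 2 * T ^ η1 := one_le_mul_of_one_le_of_one_le hmm hH1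
      have h11 : 0 ≤ c * Real.sqrt Real.pi / 4 := by positivity
      calc _ = c * Real.sqrt Real.pi / 4 * 1 := (mul_one _).symm
        _ ≤ c * Real.sqrt Real.pi / 4 * (m ^ 2 * T ^ η1) := mul_le_mul_of_nonneg_left h10 h11
        _ = _ := by ring
    calc _ ≤ c * Real.sqrt Real.pi / 4 + c * Real.sqrt Real.pi / 4 * m ^ 2 * T ^ η1 := add_le_add h7 h8
      _ ≤ c * Real.sqrt Real.pi / 4 * m ^ 2 * T ^ η1 + c * Real.sqrt Real.pi / 4 * m ^ 2 * T ^ η1 := by
          linarith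
      _ = _ := by ring
  have h12' : K.im - (M * P).im ≤ c * Real.sqrt Real.pi / 2 * m ^ 2 * T ^ η1 := by
    rw [← Complex.sub_im]
    exact (le_abs_self _).trans ((Complex.abs_im_le_norm _).trans herr)
  linarith only [h12', hmain]

end Pool.Agent.HalfGap
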