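import Pool.Agent.ZGap.Half.NearDef

/-!
# The line integral of `Ω B ξ(s+iα)/ξ(s)` on `Re s = 2`, with the near frequencies kept
-/

namespace Pool.Agent.HalfGap

open Complex Pool.Agent.Hadamard MeasureTheory

open scoped ArithmeticFunction.Moebius

/-- The trace identity with the near frequencies kept. -/
theorem trace_core_near {ι : Type*} (Q : Finset ι) (b : ι → ℂ) (w : ι → ℝ) {α H U t0 T C0 dl : ℝ}
    (hC0 : 0 ≤ C0) (hT : 0 ≤ T) (hH : 0 ≤ H)
    (hOff : ∀ l : ℝ, ‖Iexp α H t0 U l‖ ≤
      C0 * Real.exp (-(3 * l / 2)) * (T * Real.exp (-(|l| * H)) + T * Real.exp (-(U ^ 2 / H ^ 2)))) :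
    ‖(∫ t in (t0 - U)..(t0 + U), Og H t0 (2 + t * I) *
        (∑ q ∈ Q, b q * Complex.exp (-w q * ((2 + t * I) - 1 / 2))) * fq α (2 + t * I)) -
      (Mdiag Q b w α * ∫ t in (t0 - U)..(t0 + U), Og H t0 (2 + t * I) * gam α (2 + t * I)) -
      Near Q b w α H t0 U dl‖ ≤
    (∑ q ∈ Q, ‖b q‖ * Real.exp (-(3 * w q / 2))) *
      (C0 * (T * Real.exp (-(dl * H)) + T * Real.exp (-(U ^ 2 / H ^ 2))) * Dd) := by
  classical
  set E := T * Real.exp (-(dl * H)) + T * Real.exp (-(U ^ 2 / H ^ 2)) with hE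
  have hE0 : 0 ≤ E := by positivity
  set J := ∫ t in (t0 - U)..(t0 + U), Og H t0 (2 + t * I) * gam α (2 + t * I) with hJ
  have hJ0 : Iexp α H t0 U 0 = J := by
    unfold Iexp
    rw [hJ]
    refine intervalIntegral.integral_congr fun t _ => ?_
    simp
  have hcfq : Continuous (fun t : ℝ => fq α (2 + t * I)) := by
    have h1 : (fun t : ℝ => fq α (2 + t * I)) = fun t : ℝ => gam α (2 + t * I) *
        (riemannZeta (2 + t * I + α * I) / riemannZeta (2 + t * I)) := by
      funext t
      exact fq_eq (by simp)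
    rw [h1]
    have hz : ∀ β : ℝ, Continuous (fun t : ℝ => riemannZeta (2 + t * I + β * I)) := by
      intro β
      rw [continuous_iff_continuousAt]
      intro t
      have h2 : (2 + t * I + β * I : ℂ) ≠ 1 := by
        intro h
        have := congrArg Complex.re h
        simp at this
      exact ContinuousAt.comp (f := fun t : ℝ => (2 + t * I + β * I : ℂ))
        (differentiableAt_riemannZeta h2).continuousAt (by fun_prop)
    have h0 := hz 0
    simp only [Complex.ofReal_zero, zero_mul, add_zero] at h0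
    refine (continuous_gam_line α).mul ((hz α).div h0 fun t => ?_)
    exact riemannZeta_ne_zero_of_one_le_re (by simp)
  -- expand over q
  have hsplit : (∫ t in (t0 - U)..(t0 + U), Og H t0 (2 + t * I) *
        (∑ q ∈ Q, b q * Complex.exp (-w q * ((2 + t * I) - 1 / 2))) * fq α (2 + t * I)) =
      ∑ q ∈ Q, b q * ∫ t in (t0 - U)..(t0 + U), Og H t0 (2 + t * I) *
        Complex.exp (-w q * (3 / 2 + t * I)) * fq α (2 + t * I) := by
    rw [Finset.sum_congr rfl fun q _ => (intervalIntegral.integral_const_mul _ _).symm]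
    rw [← intervalIntegral.integral_finsetSum]
    · refine intervalIntegral.integral_congr fun t _ => ?_
      rw [Finset.mul_sum, Finset.sum_mul]
      refine Finset.sum_congr rfl fun q _ => ?_
      have : ((2 + t * I : ℂ) - 1 / 2) = 3 / 2 + t * I := by ring
      rw [this]
      ring
    · intro q _
      refine (continuous_const.mul (((continuous_Og_line H t0).mul ?_).mul hcfq)).intervalIntegrable _ _
      fun_prop
  rw [hsplit, Mdiag, Near, Finset.sum_mul, ← Finset.sum_sub_distrib, ← Finset.sum_sub_distrib,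
    Finset.sum_mul]
  refine (norm_sum_le _ _).trans (Finset.sum_le_sum fun q hq => ?_)
  -- one q
  have hs1 := hasSum_line α H t0 U (w q)
  set c : ℕ → ℂ := fun n => (if n ≠ 0 ∧ w q + Real.log n = 0 then
    gco α n * ((n:ℝ) ^ (-(1:ℝ) / 2) : ℝ) else 0) with hc
  set e : ℕ → ℂ := fun n => (if n ∈ Nr (w q) dl then
    gco α n * ((n:ℝ) ^ (-(1:ℝ) / 2) : ℝ) * Iexp α H t0 U (w q + Real.log n) else 0) with he
  have hes : HasSum e (∑ n ∈ Nr (w q) dl, gco α n * ((n:ℝ) ^ (-(1:ℝ) / 2) : ℝ) *
      Iexp α H t0 U (w q + Real.log n)) := by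
    have h1 : ∑ n ∈ Nr (w q) dl, gco α n * ((n:ℝ) ^ (-(1:ℝ) / 2) : ℝ) *
        Iexp α H t0 U (w q + Real.log n) = ∑ n ∈ Nr (w q) dl, e n := by
      refine Finset.sum_congr rfl fun n hn => ?_
      simp only [he]
      rw [if_pos hn]
    rw [h1]
    exact hasSum_sum_of_ne_finset_zero fun n hn => by simp only [he]; rw [if_neg hn]
  have hterm : ∀ n : ℕ, ‖gco α n * ((n:ℝ) ^ (-(1:ℝ) / 2) : ℝ) * Iexp α H t0 U (w q + Real.log n) -
      c n * J - e n‖ ≤ Real.exp (-(3 * w q / 2)) * C0 * E * (dv n * ((n:ℝ) ^ (2:ℝ))⁻¹) := by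
    intro n
    rcases Nat.eq_zero_or_pos n with rfl | hn
    · simp [gco_zero, hc, dv, he]
    · have hn0 : (0:ℝ) < n := by exact_mod_cast hn
      rcases near_cases hn (w q) dl with h | h | h
      · simp only [hc, he]
        rw [if_pos ⟨hn.ne', h⟩, if_neg (not_mem_Nr_of_zero h), h, hJ0, sub_self, sub_zero, norm_zero]
        have := dv_nonneg n
        positivity
      · simp only [hc, he]
        have hz : w q + Real.log n ≠ 0 := (mem_Nr.mp h).2.1
        rw [if_neg (fun h => hz h.2), if_pos h, zero_mul, sub_zero, sub_self, norm_zero]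
        have := dv_nonneg n
        positivity
      · by_cases hz : w q + Real.log n = 0
        · simp only [hc, he]
          rw [if_pos ⟨hn.ne', hz⟩, if_neg (not_mem_Nr_of_zero hz), hz, hJ0, sub_self, sub_zero,
            norm_zero]
          have := dv_nonneg n
          positivity
        · simp only [hc, he]
          rw [if_neg (fun h => hz h.2), if_neg (fun h' => absurd (mem_Nr.mp h').2.2 (not_lt.mpr h)),
            zero_mul, sub_zero, sub_zero, norm_mul, norm_mul,
            Complex.norm_real, Real.norm_of_nonneg (by positivity)]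
          have h1 := hOff (w q + Real.log n)
          have h2 : T * Real.exp (-(|w q + Real.log n| * H)) + T * Real.exp (-(U ^ 2 / H ^ 2)) ≤ E := by
            rw [hE]
            gcongr
          have h3 : Real.exp (-(3 * (w q + Real.log n) / 2)) =
              Real.exp (-(3 * w q / 2)) * (n:ℝ) ^ (-(3:ℝ) / 2) := by
            rw [Real.rpow_def_of_pos hn0, ← Real.exp_add]
            congr 1
            ring
          have h4 : (n:ℝ) ^ (-(1:ℝ) / 2) * (n:ℝ) ^ (-(3:ℝ) / 2) = ((n:ℝ) ^ (2:ℝ))⁻¹ := by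
            rw [← Real.rpow_add hn0, ← Real.rpow_neg hn0.le]
            norm_num
          calc ‖gco α n‖ * (n:ℝ) ^ (-(1:ℝ) / 2) * ‖Iexp α H t0 U (w q + Real.log n)‖
              ≤ dv n * (n:ℝ) ^ (-(1:ℝ) / 2) * (C0 * Real.exp (-(3 * (w q + Real.log n) / 2)) * E) := by
                refine mul_le_mul (mul_le_mul_of_nonneg_right (norm_gco_le α n) (by positivity))
                  (h1.trans ?_) (norm_nonneg _) (mul_nonneg (dv_nonneg n) (by positivity))
                exact mul_le_mul_of_nonneg_left h2 (by positivity)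
            _ = Real.exp (-(3 * w q / 2)) * C0 * E *
                (dv n * ((n:ℝ) ^ (-(1:ℝ) / 2) * (n:ℝ) ^ (-(3:ℝ) / 2))) := by rw [h3]; ring
            _ = _ := by rw [h4]
  have hcs : Summable c := by
    have h1 : Summable (fun n : ℕ => c n * J + (gco α n * ((n:ℝ) ^ (-(1:ℝ) / 2) : ℝ) *
        Iexp α H t0 U (w q + Real.log n) - c n * J)) := by
      refine hs1.summable.congr fun n => by ring
    -- c has finite support: at most one n
    refine summable_of_ne_finset_zero (s := Finset.range (⌈Real.exp (-w q)⌉₊ + 1)) fun n hn => ?_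
    rw [Finset.mem_range, not_lt] at hn
    simp only [hc]
    rw [if_neg]
    rintro ⟨h2, h3⟩
    have hn0 : (0:ℝ) < n := by exact_mod_cast Nat.pos_of_ne_zero h2
    have h4 : Real.log n = -w q := by linarith
    have h5 : (n:ℝ) = Real.exp (-w q) := by rw [← h4, Real.exp_log hn0]
    have h6 : (n:ℝ) ≤ ⌈Real.exp (-w q)⌉₊ := h5 ▸ Nat.le_ceil _
    have h7 : n ≤ ⌈Real.exp (-w q)⌉₊ := by exact_mod_cast h6
    omega
  have hs2 := (hs1.sub (hcs.hasSum.mul_right J)).sub hes
  set Nq := ∑ n ∈ Nr (w q) dl, gco α n * ((n:ℝ) ^ (-(1:ℝ) / 2) : ℝ) *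
      Iexp α H t0 U (w q + Real.log n) with hNq
  have hb : ‖(∫ t in (t0 - U)..(t0 + U), Og H t0 (2 + t * I) *
        Complex.exp (-w q * (3 / 2 + t * I)) * fq α (2 + t * I)) - (∑' n, c n) * J - Nq‖ ≤
      Real.exp (-(3 * w q / 2)) * C0 * E * Dd := by
    rw [← hs2.tsum_eq]
    refine (norm_tsum_le_tsum_norm ?_).trans ?_
    · exact Summable.of_nonneg_of_le (fun _ => norm_nonneg _) hterm (summable_dv.mul_left _)
    · unfold Dd
      rw [← tsum_mul_left]
      exact (Summable.of_nonneg_of_le (fun _ => norm_nonneg _) hterm (summable_dv.mul_left _)).tsum_le_tsum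
        hterm (summable_dv.mul_left _)
  calc ‖b q * (∫ t in (t0 - U)..(t0 + U), Og H t0 (2 + t * I) *
        Complex.exp (-w q * (3 / 2 + t * I)) * fq α (2 + t * I)) - b q * (∑' n, c n) * J - b q * Nq‖
      = ‖b q‖ * ‖(∫ t in (t0 - U)..(t0 + U), Og H t0 (2 + t * I) *
        Complex.exp (-w q * (3 / 2 + t * I)) * fq α (2 + t * I)) - (∑' n, c n) * J - Nq‖ := by
        rw [← norm_mul]; congr 1; ring
    _ ≤ ‖b q‖ * (Real.exp (-(3 * w q / 2)) * C0 * E * Dd) :=
        mul_le_mul_of_nonneg_left hb (norm_nonneg _)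
    _ = _ := by ring

end Pool.Agent.HalfGap
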