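import Pool.Agent.ZGap.Half.Core
import Pool.Agent.ZGap.Half.NearTrace

/-!
# The core inequality, with the near frequencies kept
-/

namespace Pool.Agent.HalfGap

open Complex MeasureTheory Set Pool.Agent.Hadamard
open scoped ComplexConjugate Topology

variable {H t0 α y U : ℝ}

/-- **The core inequality**, with the near frequencies kept. -/
theorem core_near (hRH : RiemannHypothesis) {ι : Type*} (Q : Finset ι) (b : ι → ℂ) (w : ι → ℝ)
    (hα : 0 < α) (hy : 0 < y) (hy1 : y ≤ 1) (hH : 1 ≤ H) (hU : 0 ≤ U)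
    (hBc : ∀ s, BS Q b w (1 - conj s) = conj (BS Q b w s))
    (hBp : ∀ t : ℝ, 0 ≤ (BS Q b w (1 / 2 + t * I)).re) {SB K Cc h1 h2 : ℝ}
    (hSB : ∑ q ∈ Q, ‖b q‖ * Real.exp (2 * |w q|) ≤ SB)
    (ha : t0 - U - Cc ≤ h1) (ha' : h1 ≤ t0 - U) (hb : t0 + U ≤ h2) (hb' : h2 ≤ t0 + U + Cc)
    (hK : ∀ s : ℂ, 1 / 2 + y ≤ s.re → s.re ≤ 2 → h1 ≤ s.im → s.im ≤ h2 → ‖fq α s‖ ≤ K)
    (hK1 : ∀ x : ℝ, 1 / 2 - y ≤ x → x ≤ 1 / 2 + y → ‖fq α (x + h1 * I)‖ ≤ K)
    (hK2 : ∀ x : ℝ, 1 / 2 - y ≤ x → x ≤ 1 / 2 + y → ‖fq α (x + h2 * I)‖ ≤ K)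
    (hc1 : ∀ v, Xr v = 0 → α / 2 ≤ |v - h1|) (hc2 : ∀ v, Xr v = 0 → α / 2 ≤ |v - h2|)
    {G : ℝ → ℝ} (hG0 : ∀ t, 0 ≤ G t) (hGi : IntegrableOn G (Ioc h1 h2))
    (hG : ∀ t ∈ Icc h1 h2, ∀ s : ℂ, |s.re - 1 / 2| ≤ y → |s.im - t| ≤ α →
      (s.re = 1 / 2 + y ∨ s.re = 1 / 2 - y ∨ ∀ v, Xr v = 0 → α / 2 ≤ |v - s.im|) →
      ‖FF H t0 α (BS Q b w) s‖ ≤ G t)
    {T C0 dl : ℝ} (hC0 : 0 ≤ C0) (hT : 0 ≤ T)
    (hOff : ∀ l : ℝ, ‖Iexp α H t0 U l‖ ≤
      C0 * Real.exp (-(3 * l / 2)) * (T * Real.exp (-(|l| * H)) + T * Real.exp (-(U ^ 2 / H ^ 2)))) :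
    -((1 + 2 * y / α) * ∫ t in Ioc h1 h2 ∩ EE α, G t) -
      (6 + 2 * Cc) * (Real.exp 3 * SB * K * Real.exp (-(U ^ 2 / H ^ 2))) -
      SB * (C0 * (T * Real.exp (-(dl * H)) + T * Real.exp (-(U ^ 2 / H ^ 2))) * Dd) -
      ‖Near Q b w α H t0 U dl‖ ≤
    (Mdiag Q b w α * ∫ t in (t0 - U)..(t0 + U), Og H t0 (2 + t * I) * gam α (2 + t * I)).im := by
  set B := BS Q b w with hB
  have hBd : Differentiable ℂ B := BS_differentiable Q b w
  have hBs : ∀ s : ℂ, |s.re - 1 / 2| ≤ 2 → ‖B s‖ ≤ SB := fun s hs => (norm_BS_le Q b w hs).trans hSB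
  set E := Real.exp 3 * SB * K * Real.exp (-(U ^ 2 / H ^ 2)) with hE
  have hstrip := strip (H := H) (t0 := t0) hRH hα hy (by linarith : h1 ≤ h2) hBd hBc hBp hc1 hc2 hG0
    hGi hG
  have hshift := shift (H := H) (t0 := t0) (α := α) hRH hBd hy hy1 hH hU hBs ha ha' hb hb' hK
  have htrace := trace_core_near Q b w (α := α) (H := H) (U := U) (t0 := t0) (dl := dl) hC0 hT
    (by linarith) hOff
  -- horizontal ends
  have hor1 : ‖hor (FF H t0 α B) y h1‖ ≤ 2 * y * E := by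
    refine norm_hor_le hy fun x hx => ?_
    have h3 : |(x + h1 * I : ℂ).re - 1 / 2| ≤ 3 / 2 := by
      simp only [add_re, ofReal_re, mul_re, I_re, mul_zero, ofReal_im, I_im, mul_one, sub_self,
        add_zero]
      rw [abs_le]
      constructor <;> linarith [hx.1, hx.2]
    refine norm_FF_far hH hU h3 ?_ (hBs _ (h3.trans (by norm_num))) (hK1 x hx.1 hx.2)
    simp only [add_im, ofReal_im, mul_im, ofReal_re, I_im, mul_one, I_re, mul_zero,
      add_zero, zero_add]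
    rw [abs_of_nonpos (by linarith)]
    linarith
  have hor2 : ‖hor (FF H t0 α B) y h2‖ ≤ 2 * y * E := by
    refine norm_hor_le hy fun x hx => ?_
    have h3 : |(x + h2 * I : ℂ).re - 1 / 2| ≤ 3 / 2 := by
      simp only [add_re, ofReal_re, mul_re, I_re, mul_zero, ofReal_im, I_im, mul_one, sub_self,
        add_zero]
      rw [abs_le]
      constructor <;> linarith [hx.1, hx.2]
    refine norm_FF_far hH hU h3 ?_ (hBs _ (h3.trans (by norm_num))) (hK2 x hx.1 hx.2)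
    simp only [add_im, ofReal_im, mul_im, ofReal_re, I_im, mul_one, I_re, mul_zero,
      add_zero, zero_add]
    rw [abs_of_nonneg (by linarith)]
    linarith
  have hE0 : 0 ≤ E := by
    have := norm_nonneg (hor (FF H t0 α B) y h1)
    nlinarith
  -- the sum in the trace bound
  have hsum : ∑ q ∈ Q, ‖b q‖ * Real.exp (-(3 * w q / 2)) ≤ SB := by
    refine le_trans (Finset.sum_le_sum fun q _ => ?_) hSB
    refine mul_le_mul_of_nonneg_left (Real.exp_le_exp.mpr ?_) (norm_nonneg _)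
    have h3 := neg_abs_le (w q)
    have h4 := abs_nonneg (w q)
    linarith
  have hR0 : 0 ≤ C0 * (T * Real.exp (-(dl * H)) + T * Real.exp (-(U ^ 2 / H ^ 2))) * Dd := by
    have := Dd_nonneg
    positivity
  have htrace' := htrace.trans (mul_le_mul_of_nonneg_right hsum hR0)
  set R := SB * (C0 * (T * Real.exp (-(dl * H)) + T * Real.exp (-(U ^ 2 / H ^ 2))) * Dd) with hR
  set A0 := ∫ t in (t0 - U)..(t0 + U), Og H t0 (2 + t * I) *
        (∑ q ∈ Q, b q * Complex.exp (-w q * ((2 + t * I) - 1 / 2))) * fq α (2 + t * I) with hA0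
  have hA0' : A0 = ∫ t : ℝ in (t0 - U)..(t0 + U), FF H t0 α B (2 + t * I) := rfl
  set A2 := ∫ t : ℝ in h1..h2, FF H t0 α B ((1 / 2 + y : ℝ) + t * I) with hA2
  set MJ := Mdiag Q b w α * ∫ t in (t0 - U)..(t0 + U), Og H t0 (2 + t * I) * gam α (2 + t * I)
    with hMJ
  rw [← hA0'] at hshift
  have i1 : |A0.im - A2.im| ≤ (4 + 2 * Cc) * E := by
    rw [← sub_im]; exact (abs_im_le_norm _).trans hshift
  set NN := Near Q b w α H t0 U dl with hNN
  have i2 : |A0.im - MJ.im| ≤ R + ‖NN‖ := by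
    rw [← sub_im]
    refine (abs_im_le_norm _).trans ?_
    have i6 : A0 - MJ = (A0 - MJ - NN) + NN := by ring
    rw [i6]
    exact (norm_add_le _ _).trans (add_le_add_left htrace' _)
  have i3 := (abs_le.mp i1).1
  have i4 := (abs_le.mp i2).2
  have i5 : (‖hor (FF H t0 α B) y h1‖ + ‖hor (FF H t0 α B) y h2‖) / 2 ≤ 2 * E := by
    have : 2 * y * E ≤ 2 * E := by nlinarith
    linarith
  nlinarith

end Pool.Agent.HalfGap
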