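import Pool.Agent.ZGap.Half.Main
import Pool.Agent.ZGap.Half.Trace

/-!
# The near frequencies of the line integral
-/

namespace Pool.Agent.HalfGap

open Complex Pool.Agent.Hadamard MeasureTheory

/-- The `n` whose frequency is near, but not equal, to `-w`. -/
noncomputable def Nr (wq dl : ℝ) : Finset ℕ :=
  (Finset.range (⌈Real.exp (dl - wq)⌉₊ + 1)).filter
    (fun n => 1 ≤ n ∧ wq + Real.log n ≠ 0 ∧ |wq + Real.log n| < dl)

lemma mem_Nr {wq dl : ℝ} {n : ℕ} :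
    n ∈ Nr wq dl ↔ 1 ≤ n ∧ wq + Real.log n ≠ 0 ∧ |wq + Real.log n| < dl := by
  unfold Nr
  rw [Finset.mem_filter, Finset.mem_range]
  refine ⟨fun h => h.2, fun h => ⟨?_, h⟩⟩
  obtain ⟨h1, -, h3⟩ := h
  have hn0 : (0:ℝ) < n := by exact_mod_cast h1
  have h4 : Real.log n ≤ dl - wq := by linarith [(abs_lt.mp h3).2]
  have h5 : (n:ℝ) ≤ Real.exp (dl - wq) := (Real.log_le_iff_le_exp hn0).mp h4
  have h6 : (n:ℝ) ≤ ⌈Real.exp (dl - wq)⌉₊ := h5.trans (Nat.le_ceil _)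
  have h7 : n ≤ ⌈Real.exp (dl - wq)⌉₊ := by exact_mod_cast h6
  omega

lemma not_mem_Nr_of_zero {wq dl : ℝ} {n : ℕ} (h : wq + Real.log n = 0) : n ∉ Nr wq dl :=
  fun h' => (mem_Nr.mp h').2.1 h

lemma near_cases {n : ℕ} (hn : 1 ≤ n) (wq dl : ℝ) :
    wq + Real.log n = 0 ∨ n ∈ Nr wq dl ∨ dl ≤ |wq + Real.log n| := by
  by_cases h : wq + Real.log n = 0
  · exact Or.inl h
  · rcases lt_or_ge (|wq + Real.log n|) dl with h' | h'
    · exact Or.inr (Or.inl (mem_Nr.mpr ⟨hn, h, h'⟩))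
    · exact Or.inr (Or.inr h')

/-- The near part of the line integral. -/
noncomputable def Near {ι : Type*} (Q : Finset ι) (b : ι → ℂ) (w : ι → ℝ) (α H t0 U dl : ℝ) : ℂ :=
  ∑ q ∈ Q, b q * ∑ n ∈ Nr (w q) dl,
    gco α n * ((n:ℝ) ^ (-(1:ℝ) / 2) : ℝ) * Iexp α H t0 U (w q + Real.log n)

end Pool.Agent.HalfGap
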