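import Pool.Agent.ZGap.Half.Wrap
import Pool.Agent.ZGap.Half.NearCore

/-!
# The core inequality at height `T`, with the near frequencies kept
-/

namespace Pool.Agent.HalfGap

open Complex MeasureTheory Set Pool.Agent.Hadamard Filter
open scoped ComplexConjugate Topology

/-- The core inequality at height `T`, with the near frequencies kept. -/
theorem wrap_near (hRH : RiemannHypothesis) {τ κ η1 η2 A : ℝ} (hτ : 1 / 3 < τ) (hτ1 : τ < 1)
    (hκη : κ < η1) (hη1 : 0 < η1) (h12 : η1 < η2) (hη2 : η2 < 1) :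
    ∃ T0 : ℝ, ∀ T : ℝ, T0 ≤ T → ∀ t0 : ℝ, T ≤ t0 → t0 ≤ 2 * T →
      ∀ {ι : Type} (Q : Finset ι) (b : ι → ℂ) (w : ι → ℝ),
      (∀ s, BS Q b w (1 - conj s) = conj (BS Q b w s)) →
      (∀ t : ℝ, 0 ≤ (BS Q b w (1 / 2 + t * I)).re) →
      (∑ q ∈ Q, ‖b q‖ * Real.exp (2 * |w q|) ≤ T ^ A) →
      ∀ G : ℝ → ℝ, (∀ t, 0 ≤ G t) → IntegrableOn G (Icc (3 * T / 4) (5 * T / 2)) →
      (∀ t ∈ Icc (3 * T / 4) (5 * T / 2), ∀ s : ℂ, |s.re - 1 / 2| ≤ 1 / Real.log T →
        |s.im - t| ≤ 2 * Real.pi * τ / Real.log T →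
        (s.re = 1 / 2 + 1 / Real.log T ∨ s.re = 1 / 2 - 1 / Real.log T ∨
          ∀ v, Xr v = 0 → Real.pi * τ / Real.log T ≤ |v - s.im|) →
        ‖FF (T ^ η1) t0 (2 * Real.pi * τ / Real.log T) (BS Q b w) s‖ ≤ G t) →
      -(2 * ∫ t in Icc (t0 - 2 * T ^ η2) (t0 + 2 * T ^ η2) ∩ EE (2 * Real.pi * τ / Real.log T), G t)
        - 1 - ‖Near Q b w (2 * Real.pi * τ / Real.log T) (T ^ η1) t0 (T ^ η2) (T ^ (-κ) / 2)‖ ≤
      (Mdiag Q b w (2 * Real.pi * τ / Real.log T) * ∫ t in (t0 - T ^ η2)..(t0 + T ^ η2),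
        Og (T ^ η1) t0 (2 + t * I) * gam (2 * Real.pi * τ / Real.log T) (2 + t * I)).im := by
  have hpi := Real.pi_pos
  have hpi3 := Real.pi_gt_three
  obtain ⟨C1, T1, hC1, hT1, hfr⟩ := fq_le_rpow_right hRH (A := 2 * Real.pi) (by positivity)
  obtain ⟨C2, T2, hC2, hT2, hfs⟩ := fq_le_rpow_strip hRH (A := 2 * Real.pi) (c := Real.pi * τ)
    (by positivity) (by positivity)
  obtain ⟨C3, T3, hC3, hT3, hcut⟩ := exists_good_cut (τ := τ) (by linarith) hτ1
  obtain ⟨C0, T4, hC0, hoff⟩ := off_bound' (2 * Real.pi) (by positivity)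
  set K0 := max C1 C2 with hK0
  -- smallness
  have hd1 : 0 < 2 * (η2 - η1) := by linarith
  have hd2 : 0 < η1 - κ := by linarith
  set M1 := (6 + 2 * C3) * Real.exp 3 + 1 with hM1
  have hM1pos : 0 < M1 := by positivity
  set M2 := C0 * Dd + 1 with hM2
  have hM2pos : 0 < M2 := by have := Dd_nonneg; positivity
  have e1 := ev_small' (A + K0) (c := 2 * (η2 - η1)) (k := 1) (ε := 1 / (3 * M1)) hd1 one_pos
    (by positivity)
  have e2 := ev_small' (A + 1) (c := η1 - κ) (k := 1 / 2) (ε := 1 / (3 * M2)) hd2 (by norm_num)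
    (by positivity)
  have e3 := ev_small' (A + 1) (c := 2 * (η2 - η1)) (k := 1) (ε := 1 / (3 * M2)) hd1 one_pos
    (by positivity)
  have e4 := (tendsto_rpow_atTop (hη1.trans h12)).eventually_ge_atTop C3
  have e5 : ∀ᶠ T : ℝ in atTop, 8 * T ^ η2 ≤ T := by
    have h1 : Tendsto (fun T : ℝ => T ^ (1 - η2)) atTop atTop := tendsto_rpow_atTop (by linarith)
    filter_upwards [h1.eventually_ge_atTop 8, eventually_gt_atTop 0] with T hT hT0
    have h2 : T ^ (1 - η2) * T ^ η2 = T := by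
      rw [← Real.rpow_add hT0]; simp
    have h3 : 0 < T ^ η2 := Real.rpow_pos_of_pos hT0 _
    exact (mul_le_mul_of_nonneg_right hT h3.le).trans_eq h2
  have e6 : ∀ᶠ T : ℝ in atTop, 3 ≤ Real.log T := Real.tendsto_log_atTop.eventually_ge_atTop 3
  have e7 := (((e1.and e2).and (e3.and e4)).and (e5.and e6)).and
    (((eventually_ge_atTop T1).and (eventually_ge_atTop T2)).and
      ((eventually_ge_atTop T3).and (eventually_ge_atTop T4)))
  obtain ⟨T0, hT0⟩ := eventually_atTop.mp e7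
  refine ⟨max T0 1, fun T hT t0 ht0 ht0' ι Q b w hBc hBp hSB G hG0 hGi hG => ?_⟩
  obtain ⟨⟨⟨⟨s1, s2⟩, s3, s4⟩, s5, s6⟩, ⟨s7, s8⟩, s9, s10⟩ := hT0 T ((le_max_left _ _).trans hT)
  have hT1' : 1 ≤ T := (le_max_right _ _).trans hT
  have hTpos : 0 < T := by linarith
  set L := Real.log T with hL
  have hLpos : 0 < L := by linarith
  set H := T ^ η1 with hH
  set U := T ^ η2 with hU
  set α := 2 * Real.pi * τ / L with hα
  have hα0 : 0 < α := by positivity
  have hα2 : α / 2 = Real.pi * τ / L := by rw [hα]; ring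
  have hαA : α ≤ 2 * Real.pi / L := by
    rw [hα]
    apply div_le_div_of_nonneg_right _ hLpos.le
    exact mul_le_of_le_one_right (by positivity) hτ1.le
  have hH1 : 1 ≤ H := Real.one_le_rpow hT1' hη1.le
  have hHU : H ≤ U := Real.rpow_le_rpow_of_exponent_le hT1' h12.le
  have hUpos : 0 < U := by linarith
  have hU8 : U ≤ T / 8 := by linarith
  -- the cuts
  obtain ⟨h1, hh1, hc1⟩ := hcut T s9 (t0 - U - C3) (by linarith) (by linarith)
  obtain ⟨h2, hh2, hc2⟩ := hcut T s9 (t0 + U) (by linarith) (by linarith)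
  have hcz1 : ∀ v, Xr v = 0 → α / 2 ≤ |v - h1| := by
    intro v hv
    rw [hα2]
    have h3 : (1 / 2 + v * I : ℂ) ∈ ntz := by
      rw [← xiF_eq_zero_iff, xiF_half, hv]; simp
    have := hc1 _ h3
    simpa using this
  have hcz2 : ∀ v, Xr v = 0 → α / 2 ≤ |v - h2| := by
    intro v hv
    rw [hα2]
    have h3 : (1 / 2 + v * I : ℂ) ∈ ntz := by
      rw [← xiF_eq_zero_iff, xiF_half, hv]; simp
    have := hc2 _ h3
    simpa using this
  have hy1 : 1 / L ≤ 1 := by
    rw [div_le_one hLpos]; linarith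
  have hrange : Icc h1 h2 ⊆ Icc (3 * T / 4) (5 * T / 2) := by
    apply Icc_subset_Icc
    · linarith [hh1.1]
    · linarith [hh2.2]
  have hKle : ∀ {C x : ℝ}, C ≤ K0 → x ≤ T ^ C → x ≤ T ^ K0 := fun {C x} h h' =>
    h'.trans (Real.rpow_le_rpow_of_exponent_le hT1' h)
  have hcore := core_near (α := α) (y := 1 / L) (H := H) (U := U) (t0 := t0) hRH Q b w hα0
    (by positivity) hy1 hH1 hUpos.le hBc hBp (SB := T ^ A) (K := T ^ K0) (Cc := C3) (h1 := h1)
    (h2 := h2) hSB hh1.1 (by linarith [hh1.2]) hh2.1 hh2.2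
    (fun s h3 h4 h5 h6 => hKle (le_max_left _ _) (hfr T s7 α hα0.le hαA s h3 h4
      (by linarith [hh1.1]) (by linarith [hh2.2])))
    (fun x h3 h4 => hKle (le_max_right _ _) (hfs T s8 α hα0.le hαA _
      (by
        simp only [add_re, ofReal_re, mul_re, I_re, mul_zero, ofReal_im, I_im, mul_one, sub_self,
          add_zero]
        rw [abs_le]; constructor <;> linarith)
      (by simp; linarith [hh1.1]) (by simp; linarith [hh1.2])
      (fun ρ hρ => by
        refine (hc1 ρ hρ).trans ?_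
        have h5 := abs_im_le_norm ((x : ℂ) + h1 * I - ρ)
        have h6 : ((x : ℂ) + h1 * I - ρ).im = h1 - ρ.im := by simp
        rw [h6, abs_sub_comm] at h5
        exact h5)))
    (fun x h3 h4 => hKle (le_max_right _ _) (hfs T s8 α hα0.le hαA _
      (by
        simp only [add_re, ofReal_re, mul_re, I_re, mul_zero, ofReal_im, I_im, mul_one, sub_self,
          add_zero]
        rw [abs_le]; constructor <;> linarith)
      (by simp; linarith [hh2.1]) (by simp; linarith [hh2.2])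
      (fun ρ hρ => by
        refine (hc2 ρ hρ).trans ?_
        have h5 := abs_im_le_norm ((x : ℂ) + h2 * I - ρ)
        have h6 : ((x : ℂ) + h2 * I - ρ).im = h2 - ρ.im := by simp
        rw [h6, abs_sub_comm] at h5
        exact h5)))
    hcz1 hcz2 (G := G) hG0 (hGi.mono_set (Ioc_subset_Icc_self.trans hrange))
    (fun t ht s h3 h4 h5 => hG t (hrange ht) s h3 h4 (by
      rcases h5 with h5 | h5 | h5
      · exact Or.inl h5
      · exact Or.inr (Or.inl h5)
      · right; right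
        intro v hv
        rw [← hα2]
        exact h5 v hv))
    (T := T) (C0 := C0) (dl := T ^ (-κ) / 2) hC0.le hTpos.le
    (fun l => hoff T α t0 H U s10 hα0.le hαA (by linarith) (by linarith) hH1 (by linarith) hHU hU8 l)
  refine le_trans ?_ hcore
  -- error terms
  have hUH : U ^ 2 / H ^ 2 = 1 * T ^ (2 * (η2 - η1)) := by
    rw [hU, hH, ← Real.rpow_natCast, ← Real.rpow_natCast, ← Real.rpow_mul hTpos.le,
      ← Real.rpow_mul hTpos.le, ← Real.rpow_sub hTpos, one_mul]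
    congr 1
    push_cast; ring
  have hdH : T ^ (-κ) / 2 * H = 1 / 2 * T ^ (η1 - κ) := by
    have : T ^ (η1 - κ) = T ^ (-κ) * T ^ η1 := by
      rw [← Real.rpow_add hTpos]; congr 1; ring
    rw [this, hH]; ring
  have hTA : 0 < T ^ A := Real.rpow_pos_of_pos hTpos _
  have b1 : (6 + 2 * C3) * (Real.exp 3 * T ^ A * T ^ K0 * Real.exp (-(U ^ 2 / H ^ 2))) ≤ 1 / 3 := by
    rw [hUH]
    have h3 : T ^ A * T ^ K0 = T ^ (A + K0) := (Real.rpow_add hTpos _ _).symm
    calc _ = (6 + 2 * C3) * Real.exp 3 * (T ^ (A + K0) *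
          Real.exp (-(1 * T ^ (2 * (η2 - η1))))) := by rw [← h3]; ring
      _ ≤ M1 * (1 / (3 * M1)) := by
          apply mul_le_mul _ s1 (by positivity) hM1pos.le
          rw [hM1]; linarith
      _ = 1 / 3 := by field_simp
  have b2 : T ^ A * (C0 * (T * Real.exp (-(T ^ (-κ) / 2 * H)) +
      T * Real.exp (-(U ^ 2 / H ^ 2))) * Dd) ≤ 2 / 3 := by
    rw [hUH, hdH]
    have h3 : T ^ (A + 1) = T ^ A * T := by rw [Real.rpow_add hTpos, Real.rpow_one]
    rw [h3] at s2 s3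
    have hDd := Dd_nonneg
    calc _ = C0 * Dd * (T ^ A * T * Real.exp (-(1 / 2 * T ^ (η1 - κ))) +
          T ^ A * T * Real.exp (-(1 * T ^ (2 * (η2 - η1))))) := by ring
      _ ≤ M2 * (1 / (3 * M2) + 1 / (3 * M2)) := by
          apply mul_le_mul _ (add_le_add s2 s3) (by positivity) hM2pos.le
          rw [hM2]; linarith
      _ = 2 / 3 := by field_simp; norm_num
  have b3 : (1 + 2 * (1 / L) / α) ≤ 2 := by
    have h3 : 2 * (1 / L) / α = 1 / (Real.pi * τ) := by
      rw [hα]; field_simp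
    rw [h3]
    have h4 : 1 / (Real.pi * τ) ≤ 1 := by
      rw [div_le_one (by positivity)]; linarith only [hpi3, hτ, mul_pos (sub_pos.mpr hpi3) (sub_pos.mpr hτ)]
    linarith
  have hEEm : MeasurableSet (Ioc h1 h2) := measurableSet_Ioc
  have hsub : Ioc h1 h2 ⊆ Icc (t0 - 2 * U) (t0 + 2 * U) := by
    intro t ht
    constructor
    · linarith [ht.1, hh1.1]
    · linarith [ht.2, hh2.2]
  have hint : IntegrableOn G (Icc (t0 - 2 * U) (t0 + 2 * U) ∩ EE α) := by
    refine hGi.mono_set (inter_subset_left.trans ?_)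
    apply Icc_subset_Icc <;> linarith
  have b4 : ∫ t in Ioc h1 h2 ∩ EE α, G t ≤ ∫ t in Icc (t0 - 2 * U) (t0 + 2 * U) ∩ EE α, G t :=
    setIntegral_mono_set hint (Filter.Eventually.of_forall fun t => hG0 t)
      (inter_subset_inter_left _ hsub).eventuallyLE
  have b5 : 0 ≤ ∫ t in Ioc h1 h2 ∩ EE α, G t := integral_nonneg fun t => hG0 t
  have b6 := mul_le_mul b3 b4 b5 (by norm_num : (0:ℝ) ≤ 2)
  linarith only [b1, b2, b6]

end Pool.Agent.HalfGap
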