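import Pool.Agent.ZGap.Half.DiagTwo

/-!
# The diagonal coefficient is almost a square
-/

namespace Pool.Agent.HalfGap

open Complex Finset Pool.Agent.ZGap.Res

variable {R : ResData} {T : ℝ}

/-- The weight of a prime in the error terms. -/
noncomputable def yy (R : ResData) (T : ℝ) (p : ℕ) : ℝ := |cc R T p| * (2 * (Real.sqrt p)⁻¹)

lemma yy_nonneg (p : ℕ) : 0 ≤ yy R T p := by unfold yy; positivity

lemma yy_eq (hr : R.r = -1) (p : ℕ) : yy R T p = 2 * R.f (xi T p) / p := by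
  unfold yy cc xi
  rw [hr, abs_div, abs_mul, abs_neg, abs_one, one_mul, abs_of_nonneg (R.f_nonneg _),
    abs_of_nonneg (Real.sqrt_nonneg _)]
  rcases Nat.eq_zero_or_pos p with h | h
  · subst h; simp
  · have hp : (0:ℝ) < p := by exact_mod_cast h
    have h1 : Real.sqrt p * Real.sqrt p = p := Real.mul_self_sqrt hp.le
    have h2 : 0 < Real.sqrt p := Real.sqrt_pos.mpr hp
    generalize R.f (Real.log p / Real.log T) = g
    have h3 : (Real.sqrt p)⁻¹ * (Real.sqrt p)⁻¹ = (p:ℝ)⁻¹ := by rw [← mul_inv, h1]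
    calc g / Real.sqrt p * (2 * (Real.sqrt p)⁻¹) = 2 * g * ((Real.sqrt p)⁻¹ * (Real.sqrt p)⁻¹) := by
          rw [div_eq_mul_inv]; ring
      _ = 2 * g / p := by rw [h3]; rfl

lemma xy_le_wt (hr : R.r = -1) (hT : 1 < T) {p : ℕ} (hp : 0 < p) :
    cc R T p ^ 2 + yy R T p ≤ 3 / R.ep * wt T p := by
  have hp' : (0:ℝ) < p := by exact_mod_cast hp
  have hep := R.ep_pos
  have h1 := cc_sq_le_wt (R := R) hT hp
  rw [hr] at h1
  have h2 : yy R T p ≤ 2 / R.ep * wt T p := by
    rw [yy_eq hr]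
    by_cases h : R.f (xi T p) = 0
    · rw [h]
      have := wt_nonneg hT p
      have : 0 ≤ 2 / R.ep * wt T p := by positivity
      simpa using this
    · have h3 : R.ep < Real.log p / Real.log T := large_of_f_ne hT h
      have h4 := R.f_le (xi T p)
      calc 2 * R.f (xi T p) / p ≤ 2 * 1 / p := by gcongr
        _ = 2 / R.ep * (R.ep / p) := by field_simp
        _ ≤ 2 / R.ep * wt T p := by
            apply mul_le_mul_of_nonneg_left _ (by positivity)
            unfold wt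
            calc R.ep / p ≤ (Real.log p / Real.log T) / p := by gcongr
              _ = _ := by field_simp
  calc _ ≤ (-1) ^ 2 / R.ep * wt T p + 2 / R.ep * wt T p := add_le_add h1 h2
    _ = _ := by ring

lemma xy_le_pow (hr : R.r = -1) (hT : 1 < T) {p : ℕ} (hp : 0 < p) :
    cc R T p ^ 2 + yy R T p ≤ 3 * T ^ (-R.ep) := by
  have hp' : (0:ℝ) < p := by exact_mod_cast hp
  have hT0 : 0 < T := by linarith
  have h1 := cc_sq_le_pow (R := R) hT hp
  rw [hr] at h1
  have h2 : yy R T p ≤ 2 * T ^ (-R.ep) := by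
    rw [yy_eq hr]
    by_cases h : R.f (xi T p) = 0
    · rw [h]
      have := Real.rpow_pos_of_pos hT0 (-R.ep)
      simp
      positivity
    · have h3 := inv_le_of_large hT hp (large_of_f_ne hT h)
      have h4 := R.f_le (xi T p)
      calc 2 * R.f (xi T p) / p ≤ 2 * 1 / p := by gcongr
        _ = 2 * (1 / p) := by ring
        _ ≤ _ := by gcongr
  calc _ ≤ (-1) ^ 2 * T ^ (-R.ep) + 2 * T ^ (-R.ep) := add_le_add h1 h2
    _ = _ := by ring

lemma abs_pair_le (hT : 1 < T) (hF : ∀ x, 0 ≤ x → R.F x ≤ 1) {H N : Finset ℕ} (hd : Disjoint H N) :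
    |aa R T H * aa R T (H ∪ N) * rs N| * 2 ^ N.card ≤ (∏ p ∈ H, cc R T p ^ 2) * ∏ p ∈ N, yy R T p := by
  have h1 := abs_aa_le (R := R) hT hF H
  have h2 := abs_aa_le (R := R) hT hF (H ∪ N)
  rw [prod_union hd] at h2
  have e1 : (∏ p ∈ H, cc R T p ^ 2) * ∏ p ∈ N, yy R T p =
      ((∏ p ∈ H, |cc R T p|) * ((∏ p ∈ H, |cc R T p|) * ∏ p ∈ N, |cc R T p|) * rs N) * 2 ^ N.card := by
    have e2 : ∏ p ∈ H, cc R T p ^ 2 = (∏ p ∈ H, |cc R T p|) * ∏ p ∈ H, |cc R T p| := by
      rw [← prod_mul_distrib]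
      refine prod_congr rfl fun p _ => ?_
      rw [← sq, sq_abs]
    have e3 : ∏ p ∈ N, yy R T p = (∏ p ∈ N, |cc R T p|) * (2 ^ N.card * rs N) := by
      unfold yy rs
      rw [prod_mul_distrib, prod_mul_distrib, prod_const]
    rw [e2, e3]
    ring
  rw [e1]
  apply mul_le_mul_of_nonneg_right _ (by positivity)
  rw [abs_mul, abs_mul, abs_of_nonneg (rs_nonneg N)]
  apply mul_le_mul_of_nonneg_right _ (rs_nonneg N)
  exact mul_le_mul h1 h2 (abs_nonneg _) (prod_nonneg fun _ _ => abs_nonneg _)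

lemma norm_Gp_le (α : ℝ) (U : Finset ℕ) : ‖Gp α U‖ ≤ 2 ^ U.card := by
  unfold Gp
  rw [norm_prod]
  calc ∏ p ∈ U, ‖1 - zp α p‖ ≤ ∏ p ∈ U, (2:ℝ) :=
        prod_le_prod (fun _ _ => norm_nonneg _) fun p _ => norm_one_sub_zp_le α p
    _ = 2 ^ U.card := by rw [prod_const]

/-- **The diagonal coefficient is almost the square of the one-sided sum.** -/
theorem norm_M2_sub_le (hr : R.r = -1) (hT : Real.exp 3 ≤ T) (hF : ∀ x, 0 ≤ x → R.F x ≤ 1) (α : ℝ) :
    ‖M2 R T α - SS R T α ^ 2‖ ≤ 54 / R.ep * Real.exp (18 / R.ep) * T ^ (-R.ep) := by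
  classical
  have h1T : 1 < T := lt_of_lt_of_le (Real.one_lt_exp_iff.mpr (by norm_num)) hT
  have hT0 : 0 < T := by linarith
  have hep := R.ep_pos
  set pw := (PP T).powerset with hpw
  have e1 : SS R T α ^ 2 = ∑ H ∈ pw, ∑ N ∈ pw, ∑ K ∈ pw, ∑ M ∈ pw,
      (if Disjoint H N ∧ Disjoint K M then
        (((aa R T H * aa R T (H ∪ N) * rs N) * (aa R T K * aa R T (K ∪ M) * rs M) : ℝ) : ℂ) *
          (Gp α M * Gp α N) else 0) := by
    unfold SS
    rw [sq, sum_mul]
    refine sum_congr rfl fun H _ => ?_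
    rw [sum_mul]
    refine sum_congr rfl fun N _ => ?_
    rw [mul_sum]
    refine sum_congr rfl fun K _ => ?_
    rw [mul_sum]
    refine sum_congr rfl fun M _ => ?_
    by_cases g1 : Disjoint H N
    · by_cases g2 : Disjoint K M
      · rw [if_pos g1, if_pos g2, if_pos ⟨g1, g2⟩]
        push_cast
        ring
      · rw [if_neg g2, if_neg (fun h : Disjoint H N ∧ Disjoint K M => g2 h.2), mul_zero]
    · rw [if_neg g1, if_neg (fun h : Disjoint H N ∧ Disjoint K M => g1 h.1), zero_mul]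
  have key : ∀ H N K M : Finset ℕ,
      ‖(if Disjoint H N ∧ Disjoint K M ∧ Disjoint H (K ∪ M) ∧ Disjoint K (H ∪ N) then
        (((aa R T H * aa R T (H ∪ N) * rs N) * (aa R T K * aa R T (K ∪ M) * rs M) : ℝ) : ℂ) *
          Gp α (M ∪ N) else 0) - (if Disjoint H N ∧ Disjoint K M then
        (((aa R T H * aa R T (H ∪ N) * rs N) * (aa R T K * aa R T (K ∪ M) * rs M) : ℝ) : ℂ) *
          (Gp α M * Gp α N) else 0)‖ ≤
      2 * (if Disjoint H N ∧ Disjoint K M ∧ ¬ Disjoint (H ∪ N) (K ∪ M) then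
        ((∏ p ∈ H, cc R T p ^ 2) * ∏ p ∈ N, yy R T p) *
          ((∏ p ∈ K, cc R T p ^ 2) * ∏ p ∈ M, yy R T p) else 0) := by
    intro H N K M
    by_cases g1 : Disjoint H N ∧ Disjoint K M
    · by_cases g2 : Disjoint (H ∪ N) (K ∪ M)
      · rw [if_pos g1]
        have g3 : Disjoint H (K ∪ M) := g2.mono_left subset_union_left
        have g4 : Disjoint K (H ∪ N) := (g2.mono_right subset_union_left).symm
        have g5 : Disjoint M N := (g2.mono subset_union_right subset_union_right).symm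
        rw [if_pos ⟨g1.1, g1.2, g3, g4⟩, if_neg (fun h => h.2.2 g2)]
        have e3 : Gp α (M ∪ N) = Gp α M * Gp α N := by
          unfold Gp
          exact prod_union g5
        rw [e3, sub_self, norm_zero, mul_zero]
      · rw [if_pos g1, if_pos (⟨g1.1, g1.2, g2⟩ : Disjoint H N ∧ Disjoint K M ∧
          ¬ Disjoint (H ∪ N) (K ∪ M))]
        have p1 := abs_pair_le (R := R) h1T hF g1.1
        have p2 := abs_pair_le (R := R) h1T hF g1.2
        set u := aa R T H * aa R T (H ∪ N) * rs N with hu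
        set v := aa R T K * aa R T (K ∪ M) * rs M with hv
        set X := (∏ p ∈ H, cc R T p ^ 2) * ∏ p ∈ N, yy R T p with hX
        set Y := (∏ p ∈ K, cc R T p ^ 2) * ∏ p ∈ M, yy R T p with hY
        have q1 : (|u| * 2 ^ N.card) * (|v| * 2 ^ M.card) ≤ X * Y :=
          mul_le_mul p1 p2 (by positivity) (le_trans (by positivity) p1)
        have b1 : ‖(if Disjoint H N ∧ Disjoint K M ∧ Disjoint H (K ∪ M) ∧ Disjoint K (H ∪ N) then
            ((u * v : ℝ) : ℂ) * Gp α (M ∪ N) else 0)‖ ≤ X * Y := by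
          split_ifs
          · rw [norm_mul, Complex.norm_real, Real.norm_eq_abs, abs_mul]
            have c1 := norm_Gp_le α (M ∪ N)
            have c2 : (2:ℝ) ^ (M ∪ N).card ≤ 2 ^ M.card * 2 ^ N.card := by
              rw [← pow_add]
              exact pow_le_pow_right₀ (by norm_num) (card_union_le M N)
            calc |u| * |v| * ‖Gp α (M ∪ N)‖ ≤ |u| * |v| * (2 ^ M.card * 2 ^ N.card) :=
                  mul_le_mul_of_nonneg_left (c1.trans c2) (by positivity)
              _ = (|u| * 2 ^ N.card) * (|v| * 2 ^ M.card) := by ring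
              _ ≤ _ := q1
          · rw [norm_zero]
            exact le_trans (by positivity) q1
        have b2 : ‖((u * v : ℝ) : ℂ) * (Gp α M * Gp α N)‖ ≤ X * Y := by
          rw [norm_mul, norm_mul, Complex.norm_real, Real.norm_eq_abs, abs_mul]
          have c1 := norm_Gp_le α M
          have c2 := norm_Gp_le α N
          calc |u| * |v| * (‖Gp α M‖ * ‖Gp α N‖) ≤ |u| * |v| * (2 ^ M.card * 2 ^ N.card) := by
                apply mul_le_mul_of_nonneg_left _ (by positivity)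
                exact mul_le_mul c1 c2 (norm_nonneg _) (by positivity)
            _ = (|u| * 2 ^ N.card) * (|v| * 2 ^ M.card) := by ring
            _ ≤ _ := q1
        refine (norm_sub_le _ _).trans ?_
        linarith
    · rw [if_neg g1, if_neg (fun h => g1 ⟨h.1, h.2.1⟩), if_neg (fun h => g1 ⟨h.1, h.2.1⟩),
        sub_zero, norm_zero, mul_zero]
  have step : ‖M2 R T α - SS R T α ^ 2‖ ≤ 2 * ∑ H ∈ pw, ∑ N ∈ pw, ∑ K ∈ pw, ∑ M ∈ pw,
      (if Disjoint H N ∧ Disjoint K M ∧ ¬ Disjoint (H ∪ N) (K ∪ M) then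
        ((∏ p ∈ H, cc R T p ^ 2) * ∏ p ∈ N, yy R T p) *
          ((∏ p ∈ K, cc R T p ^ 2) * ∏ p ∈ M, yy R T p) else 0) := by
    rw [M2_eq, e1]
    simp only [← hpw, ← sum_sub_distrib, mul_sum]
    refine (norm_sum_le _ _).trans (sum_le_sum fun H _ => ?_)
    refine (norm_sum_le _ _).trans (sum_le_sum fun N _ => ?_)
    refine (norm_sum_le _ _).trans (sum_le_sum fun K _ => ?_)
    refine (norm_sum_le _ _).trans (sum_le_sum fun M _ => ?_)
    exact key H N K M
  refine step.trans ?_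
  have h2 := sum_nondisj_le (P := PP T) (x := fun p => cc R T p ^ 2) (y := yy R T)
    (fun p _ => sq_nonneg _) (fun p _ => yy_nonneg p)
  have hsum : ∑ p ∈ PP T, (cc R T p ^ 2 + yy R T p) ≤ 9 / R.ep := by
    calc _ ≤ ∑ p ∈ PP T, 3 / R.ep * wt T p :=
          sum_le_sum fun p hp => xy_le_wt hr h1T (mem_PP.mp hp).1.pos
      _ = 3 / R.ep * ∑ p ∈ PP T, wt T p := by rw [mul_sum]
      _ ≤ 3 / R.ep * 3 := mul_le_mul_of_nonneg_left (sum_wt_le hT) (by positivity)
      _ = _ := by ring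
  have hsum0 : 0 ≤ ∑ p ∈ PP T, (cc R T p ^ 2 + yy R T p) :=
    sum_nonneg fun p _ => add_nonneg (sq_nonneg _) (yy_nonneg p)
  have hsq : ∑ p ∈ PP T, (cc R T p ^ 2 + yy R T p) ^ 2 ≤ 3 * T ^ (-R.ep) * (9 / R.ep) := by
    calc _ ≤ ∑ p ∈ PP T, 3 * T ^ (-R.ep) * (cc R T p ^ 2 + yy R T p) := by
          refine sum_le_sum fun p hp => ?_
          rw [sq]
          exact mul_le_mul_of_nonneg_right (xy_le_pow hr h1T (mem_PP.mp hp).1.pos)
            (add_nonneg (sq_nonneg _) (yy_nonneg p))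
      _ = 3 * T ^ (-R.ep) * ∑ p ∈ PP T, (cc R T p ^ 2 + yy R T p) := by rw [mul_sum]
      _ ≤ _ := mul_le_mul_of_nonneg_left hsum (by positivity)
  have hexp : Real.exp (∑ p ∈ PP T, (cc R T p ^ 2 + yy R T p)) ^ 2 ≤ Real.exp (18 / R.ep) := by
    rw [← Real.exp_nat_mul]
    apply Real.exp_le_exp.mpr
    push_cast
    calc _ ≤ 2 * (9 / R.ep) := by gcongr
      _ = _ := by ring
  calc _ ≤ 2 * ((∑ p ∈ PP T, (cc R T p ^ 2 + yy R T p) ^ 2) *
        Real.exp (∑ p ∈ PP T, (cc R T p ^ 2 + yy R T p)) ^ 2) := by gcongr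
    _ ≤ 2 * ((3 * T ^ (-R.ep) * (9 / R.ep)) * Real.exp (18 / R.ep)) := by gcongr
    _ = _ := by ring

end Pool.Agent.HalfGap
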