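import Pool.Agent.ZGap.Half.Lay
import Pool.Agent.ZGap.Res.Profile

/-!
# The one-sided sum and its ideal version
-/

namespace Pool.Agent.HalfGap

open MeasureTheory Finset Pool.Agent.ZGap.Res Filter Topology Complex

variable {R : ResData} {T : ℝ}

/-- `(p^{iα} - 1) / p` -/
noncomputable def hh (α : ℝ) (p : ℕ) : ℂ := (zp α p - 1) / p

lemma norm_hh (α : ℝ) (p : ℕ) : ‖hh α p‖ = ‖1 - zp α p‖ / p := by
  unfold hh
  rw [norm_div, Complex.norm_natCast, norm_sub_rev]

lemma norm_one_sub_zp_le_log {α : ℝ} (hα : 0 ≤ α) (p : ℕ) : ‖1 - zp α p‖ ≤ α * Real.log p := by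
  unfold zp
  rw [norm_sub_rev]
  have h1 := Real.norm_exp_I_mul_ofReal_sub_one_le (x := α * Real.log p)
  rw [mul_comm] at h1
  refine h1.trans (le_of_eq ?_)
  rw [Real.norm_eq_abs, abs_of_nonneg (mul_nonneg hα (Real.log_natCast_nonneg p))]

/-- The majorising weights. -/
noncomputable def vv (R : ResData) (T α : ℝ) (p : ℕ) : ℝ := cc R T p ^ 2 + R.f (xi T p) * ‖hh α p‖

/-- The smaller weights. -/
noncomputable def vv' (R : ResData) (T α : ℝ) (p : ℕ) : ℝ := cc R T p ^ 2 + R.f (xi T p) ^ 2 * ‖hh α p‖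

lemma vv'_nonneg (α : ℝ) (p : ℕ) : 0 ≤ vv' R T α p := by unfold vv'; positivity

lemma vv'_le (α : ℝ) (p : ℕ) : vv' R T α p ≤ vv R T α p := by
  unfold vv' vv
  have h1 := R.f_nonneg (xi T p)
  have h2 := R.f_le (xi T p)
  have h3 : R.f (xi T p) ^ 2 ≤ R.f (xi T p) := by nlinarith
  have := mul_le_mul_of_nonneg_right h3 (norm_nonneg (hh α p))
  linarith

lemma vv_nonneg (α : ℝ) (p : ℕ) : 0 ≤ vv R T α p := (vv'_nonneg α p).trans (vv'_le α p)

lemma cc_sq' (hr : R.r = -1) (p : ℕ) : cc R T p ^ 2 = R.f (xi T p) ^ 2 / p := by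
  rw [cc_sq, hr]
  unfold xi
  ring

lemma vv_le (hr : R.r = -1) (α : ℝ) (p : ℕ) : vv R T α p ≤ 3 * R.f (xi T p) / p := by
  unfold vv
  rw [cc_sq' hr, norm_hh]
  have h1 := R.f_nonneg (xi T p)
  have h2 := R.f_le (xi T p)
  have h3 : R.f (xi T p) ^ 2 ≤ R.f (xi T p) := by nlinarith
  have h4 := norm_one_sub_zp_le α p
  calc R.f (xi T p) ^ 2 / p + R.f (xi T p) * (‖1 - zp α p‖ / p)
      ≤ R.f (xi T p) / p + R.f (xi T p) * (2 / p) := by gcongr
    _ = _ := by ring

lemma vv_le_exp (hr : R.r = -1) {α : ℝ} (hα : 0 ≤ α) {p : ℕ} (h1 : 2 * R.ep ≤ xi T p)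
    (h2 : xi T p ≤ R.th) : vv R T α p ≤ cc R T p ^ 2 * Real.exp (α * Real.log p) := by
  unfold vv
  rw [cc_sq' hr, norm_hh, R.f_mid _ h1 h2]
  have h3 := norm_one_sub_zp_le_log hα p
  have h4 := Real.add_one_le_exp (α * Real.log p)
  calc (1:ℝ) ^ 2 / p + 1 * (‖1 - zp α p‖ / p) = (1 + ‖1 - zp α p‖) / p := by ring
    _ ≤ Real.exp (α * Real.log p) / p := by gcongr; linarith
    _ = _ := by ring

/-- Comparison with the zeroth moment. -/
lemma bv_le_mom (hr : R.r = -1) (hT : 1 < T) {A : ℝ} (hA : 0 ≤ A) {S : ℝ}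
    (hS : ∑ p ∈ PP T, (if xi T p ≤ 2 * R.ep then vv R T (A / Real.log T) p else 0) ≤ S) :
    bv R T (vv R T (A / Real.log T)) (tp 0) ≤ Real.exp (A * R.th + S) * mom R T 0 := by
  classical
  have hL : 0 < Real.log T := Real.log_pos hT
  have hth := th_pos R
  set α := A / Real.log T with hα
  have hα0 : 0 ≤ α := div_nonneg hA hL.le
  set v := vv R T α with hv
  have hv0 : ∀ p, 0 ≤ v p := fun p => vv_nonneg α p
  set pred : ℕ → Prop := fun p => xi T p ≤ 2 * R.ep with hpred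
  set g : Finset ℕ → Finset ℕ → ℝ := fun H N => (if H ⊆ (PP T).filter pred then ∏ p ∈ H, v p else 0) *
    (mu R T N * tp 0 (uu R T N) * Real.exp (A * R.th)) with hg
  have hg0 : ∀ H N, 0 ≤ g H N := by
    intro H N
    simp only [hg]
    refine mul_nonneg ?_ ?_
    · split_ifs
      · exact prod_nonneg fun p _ => hv0 p
      · exact le_rfl
    · have := mu_nonneg (R := R) (T := T) N
      have := tp_nonneg 0 (uu R T N)
      positivity
  have step1 : ∀ U ∈ (PP T).powerset, tp 0 (uu R T U) * ∏ p ∈ U, v p ≤ ∑ N ∈ U.powerset, g (U \ N) N := by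
    intro U hU
    rw [mem_powerset] at hU
    by_cases hu : uu R T U < 1
    · set N := U.filter (fun p => ¬ pred p) with hN
      have hNU : N ⊆ U := filter_subset _ _
      have hUN : U \ N = U.filter pred := by
        rw [hN]
        ext p
        rw [Finset.mem_sdiff, mem_filter, mem_filter]
        tauto
      refine le_trans ?_ (single_le_sum (f := fun N => g (U \ N) N) (fun N _ => hg0 _ _)
        (mem_powerset.mpr hNU))
      simp only [hg]
      have c1 : U \ N ⊆ (PP T).filter pred := by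
        rw [hUN]
        exact filter_subset_filter _ hU
      rw [if_pos c1]
      have e1 : ∏ p ∈ U, v p = (∏ p ∈ U \ N, v p) * ∏ p ∈ N, v p := (prod_sdiff hNU).symm
      have huN : uu R T N ≤ uu R T U := by
        rw [uu_eq_sum hT, uu_eq_sum hT]
        exact sum_le_sum_of_subset_of_nonneg hNU fun p _ _ => div_nonneg (xi_nonneg hT p) hth.le
      have huN1 : uu R T N < 1 := lt_of_le_of_lt huN hu
      have e2 : ∏ p ∈ N, v p ≤ mu R T N * Real.exp (A * R.th) := by
        calc ∏ p ∈ N, v p ≤ ∏ p ∈ N, cc R T p ^ 2 * Real.exp (α * Real.log p) := by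
              refine prod_le_prod (fun p _ => hv0 p) fun p hp => ?_
              rw [hN, mem_filter] at hp
              apply vv_le_exp hr hα0 (not_le.mp hp.2).le
              have h5 : xi T p / R.th ≤ uu R T U := by
                rw [uu_eq_sum hT]
                exact single_le_sum (f := fun p => xi T p / R.th)
                  (fun q _ => div_nonneg (xi_nonneg hT q) hth.le) hp.1
              have h6 : xi T p / R.th < 1 := lt_of_le_of_lt h5 hu
              rw [div_lt_one hth] at h6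
              exact h6.le
          _ = mu R T N * Real.exp (α * ell N) := by
              rw [prod_mul_distrib, ← Real.exp_sum]
              unfold mu ell
              rw [mul_sum]
          _ ≤ _ := by
              apply mul_le_mul_of_nonneg_left _ (mu_nonneg N)
              apply Real.exp_le_exp.mpr
              have h7 : ell N ≤ R.th * Real.log T := by
                have h8 := huN1.le
                unfold uu at h8
                rwa [div_le_one (by positivity)] at h8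
              calc α * ell N ≤ α * (R.th * Real.log T) := by gcongr
                _ = A * R.th := by rw [hα]; field_simp
      rw [tp_zero, tp_zero, if_pos hu, if_pos huN1, one_mul, mul_one, e1]
      exact mul_le_mul_of_nonneg_left e2 (prod_nonneg fun p _ => hv0 p)
    · rw [tp_zero, if_neg hu, zero_mul]
      exact sum_nonneg fun N _ => hg0 _ _
  calc bv R T v (tp 0) ≤ ∑ U ∈ (PP T).powerset, ∑ N ∈ U.powerset, g (U \ N) N := sum_le_sum step1
    _ = ∑ H ∈ (PP T).powerset, ∑ N ∈ (PP T).powerset, (if Disjoint H N then g H N else 0) :=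
        (sum_disj_eq (PP T) g).symm
    _ ≤ ∑ H ∈ (PP T).powerset, ∑ N ∈ (PP T).powerset, g H N := by
        refine sum_le_sum fun H _ => sum_le_sum fun N _ => ?_
        split_ifs
        · exact le_rfl
        · exact hg0 H N
    _ = (∑ H ∈ (PP T).powerset, (if H ⊆ (PP T).filter pred then ∏ p ∈ H, v p else 0)) *
          ∑ N ∈ (PP T).powerset, mu R T N * tp 0 (uu R T N) * Real.exp (A * R.th) := by
        rw [sum_mul_sum]
    _ ≤ Real.exp S * (Real.exp (A * R.th) * mom R T 0) := by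
        apply mul_le_mul
        · have e3 : ∑ H ∈ (PP T).powerset, (if H ⊆ (PP T).filter pred then ∏ p ∈ H, v p else 0) =
              ∑ H ∈ ((PP T).filter pred).powerset, ∏ p ∈ H, v p := by
            rw [← sum_filter]
            congr 1
            ext H
            rw [mem_filter, mem_powerset, mem_powerset]
            exact ⟨fun h => h.2, fun h => ⟨h.trans (filter_subset _ _), h⟩⟩
          rw [e3]
          refine (sum_powerset_prod_le_exp fun p _ => hv0 p).trans ?_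
          apply Real.exp_le_exp.mpr
          rw [sum_filter]
          exact hS
        · apply le_of_eq
          unfold mom br
          rw [mul_sum]
          exact sum_congr rfl fun _ _ => by ring
        · refine sum_nonneg fun N _ => ?_
          have := mu_nonneg (R := R) (T := T) N
          have := tp_nonneg 0 (uu R T N)
          positivity
        · exact (Real.exp_pos _).le
    _ = _ := by rw [Real.exp_add]; ring

/-- The ideal one-sided sum. -/
noncomputable def S0 (R : ResData) (T α : ℝ) : ℂ :=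
  ∑ U ∈ (PP T).powerset, ((mu R T U * tp 0 (uu R T U) : ℝ) : ℂ) * ∏ p ∈ U, zp α p

lemma SS_eq (hr : R.r = -1) (α : ℝ) : SS R T α = ∑ U ∈ (PP T).powerset, ∑ N ∈ U.powerset,
    ((R.F (uu R T (U \ N)) * R.F (uu R T U) : ℝ) : ℂ) * (((∏ p ∈ U \ N, cc R T p ^ 2 : ℝ) : ℂ) *
      ∏ p ∈ N, ((R.f (xi T p) : ℝ) : ℂ) * hh α p) := by
  classical
  unfold SS
  rw [sum_disj_eq (PP T) (fun H N => ((aa R T H * aa R T (H ∪ N) * rs N : ℝ) : ℂ) * Gp α N)]
  refine sum_congr rfl fun U _ => sum_congr rfl fun N hN => ?_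
  rw [mem_powerset] at hN
  rw [sdiff_union_of_subset hN]
  have e1 : ∏ p ∈ U, cc R T p = (∏ p ∈ U \ N, cc R T p) * ∏ p ∈ N, cc R T p := (prod_sdiff hN).symm
  have e2 : ∏ p ∈ U \ N, cc R T p ^ 2 = (∏ p ∈ U \ N, cc R T p) * ∏ p ∈ U \ N, cc R T p := by
    rw [← prod_mul_distrib]
    exact prod_congr rfl fun _ _ => sq _
  have e3 : ∏ p ∈ N, ((R.f (xi T p) : ℝ) : ℂ) * hh α p =
      ((∏ p ∈ N, cc R T p : ℝ) : ℂ) * (((rs N : ℝ) : ℂ) * Gp α N) := by
    unfold rs Gp
    push_cast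
    rw [← prod_mul_distrib, ← prod_mul_distrib]
    refine prod_congr rfl fun p _ => ?_
    unfold cc hh xi
    rw [hr]
    rcases Nat.eq_zero_or_pos p with h | h
    · subst h; simp
    · have hp : (0:ℝ) < p := by exact_mod_cast h
      have h3 : ((Real.sqrt p : ℝ) : ℂ)⁻¹ * ((Real.sqrt p : ℝ) : ℂ)⁻¹ = (p:ℂ)⁻¹ := by
        rw [← mul_inv, ← Complex.ofReal_mul, Real.mul_self_sqrt hp.le]
        simp
      generalize R.f (Real.log p / Real.log T) = g
      push_cast
      calc (g:ℂ) * ((zp α p - 1) / p) = -1 * g * (1 - zp α p) * (p:ℂ)⁻¹ := by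
            rw [div_eq_mul_inv]; ring
        _ = _ := by
            rw [← h3, div_eq_mul_inv]
            ring
  have a1 : aa R T (U \ N) = R.F (uu R T (U \ N)) * ∏ p ∈ U \ N, cc R T p := rfl
  have a2 : aa R T U = R.F (uu R T U) * ∏ p ∈ U, cc R T p := rfl
  rw [e3, a1, a2, e1, e2]
  push_cast
  ring

lemma S0_eq (hr : R.r = -1) (α : ℝ) : S0 R T α = ∑ U ∈ (PP T).powerset, ∑ N ∈ U.powerset,
    ((tp 0 (uu R T U) : ℝ) : ℂ) * (((∏ p ∈ U \ N, cc R T p ^ 2 : ℝ) : ℂ) *
      ∏ p ∈ N, ((R.f (xi T p) ^ 2 : ℝ) : ℂ) * hh α p) := by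
  classical
  unfold S0
  refine sum_congr rfl fun U _ => ?_
  have e1 : ∑ N ∈ U.powerset, (((∏ p ∈ U \ N, cc R T p ^ 2 : ℝ) : ℂ) *
      ∏ p ∈ N, ((R.f (xi T p) ^ 2 : ℝ) : ℂ) * hh α p) =
      ∏ p ∈ U, (((cc R T p ^ 2 : ℝ) : ℂ) + ((R.f (xi T p) ^ 2 : ℝ) : ℂ) * hh α p) := by
    rw [← sum_sdiff_prod]
    refine sum_congr rfl fun N _ => ?_
    rw [Complex.ofReal_prod]
  rw [← mul_sum, e1]
  have e2 : ∀ p ∈ U, ((cc R T p ^ 2 : ℝ) : ℂ) + ((R.f (xi T p) ^ 2 : ℝ) : ℂ) * hh α p =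
      ((cc R T p ^ 2 : ℝ) : ℂ) * zp α p := by
    intro p _
    rw [cc_sq' hr]
    unfold hh
    push_cast
    ring
  rw [prod_congr rfl e2, prod_mul_distrib, ← Complex.ofReal_prod]
  unfold mu
  push_cast
  ring

lemma abs_FF_sub_le {δ : ℝ} (hlin : LinProf R 1 0 δ) {u u' : ℝ} (hu' : 0 ≤ u') (h : u' ≤ u) :
    |R.F u' * R.F u - tp 0 u| ≤ ly δ u := by
  have hu : 0 ≤ u := hu'.trans h
  rw [tp_zero]
  by_cases h1 : u < 1
  · rw [if_pos h1]
    by_cases h2 : 1 - δ ≤ u
    · rw [ly_eq h2 h1, abs_le]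
      have a1 := hlin.F_le_one hu
      have a2 := R.F_nonneg u
      have a3 := hlin.F_le_one hu'
      have a4 := R.F_nonneg u'
      constructor <;> nlinarith
    · have h3 := (not_le.mp h2).le
      rw [hlin.eq u hu h3, hlin.eq u' hu' (h.trans h3)]
      norm_num
      exact ly_nonneg _ _
  · rw [if_neg h1, R.F_one u (not_lt.mp h1)]
    simp
    exact ly_nonneg _ _

/-- The one-sided sum and its ideal version. -/
theorem norm_SS_sub_S0_le {δ : ℝ} (hr : R.r = -1) (hlin : LinProf R 1 0 δ) (hT : 1 < T) (α : ℝ) :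
    ‖SS R T α - S0 R T α‖ ≤ bv R T (vv R T α) (ly δ) +
      (bv R T (vv R T α) (tp 0) - bv R T (vv' R T α) (tp 0)) := by
  classical
  have hth := th_pos R
  have e1 : bv R T (vv R T α) (ly δ) +
      (bv R T (vv R T α) (tp 0) - bv R T (vv' R T α) (tp 0)) =
      ∑ U ∈ (PP T).powerset, ∑ N ∈ U.powerset,
        (ly δ (uu R T U) * ((∏ p ∈ U \ N, cc R T p ^ 2) * ∏ p ∈ N, R.f (xi T p) * ‖hh α p‖) +
        tp 0 (uu R T U) * ((∏ p ∈ U \ N, cc R T p ^ 2) * (∏ p ∈ N, R.f (xi T p) * ‖hh α p‖) -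
          (∏ p ∈ U \ N, cc R T p ^ 2) * ∏ p ∈ N, R.f (xi T p) ^ 2 * ‖hh α p‖)) := by
    unfold bv
    rw [← sum_sub_distrib, ← sum_add_distrib]
    refine sum_congr rfl fun U _ => ?_
    rw [sum_add_distrib, ← mul_sum, ← mul_sum, sum_sub_distrib, sum_sdiff_prod, sum_sdiff_prod]
    unfold vv vv'
    ring
  rw [e1, SS_eq hr, S0_eq hr, ← sum_sub_distrib]
  refine (norm_sum_le _ _).trans (sum_le_sum fun U _ => ?_)
  rw [← sum_sub_distrib]
  refine (norm_sum_le _ _).trans (sum_le_sum fun N hN => ?_)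
  rw [mem_powerset] at hN
  have hu0 : 0 ≤ uu R T (U \ N) := uu_nonneg hT _
  have huU : uu R T (U \ N) ≤ uu R T U := by
    rw [uu_eq_sum hT, uu_eq_sum hT]
    exact sum_le_sum_of_subset_of_nonneg sdiff_subset
      fun p _ _ => div_nonneg (xi_nonneg hT p) hth.le
  have hFF := abs_FF_sub_le hlin hu0 huU
  set P := ∏ p ∈ U \ N, cc R T p ^ 2 with hP
  have hP0 : 0 ≤ P := prod_nonneg fun _ _ => sq_nonneg _
  set X := ∏ p ∈ N, R.f (xi T p) with hX
  have hX0 : 0 ≤ X := prod_nonneg fun _ _ => R.f_nonneg _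
  have hX1 : X ≤ 1 := prod_le_one (fun _ _ => R.f_nonneg _) fun _ _ => R.f_le _
  set W := ∏ p ∈ N, hh α p with hW
  have f1 : ∏ p ∈ N, ((R.f (xi T p) : ℝ) : ℂ) * hh α p = (X : ℂ) * W := by
    rw [prod_mul_distrib, hX, Complex.ofReal_prod]
  have f2 : ∏ p ∈ N, ((R.f (xi T p) ^ 2 : ℝ) : ℂ) * hh α p = ((X ^ 2 : ℝ) : ℂ) * W := by
    rw [prod_mul_distrib, hX, ← prod_pow, Complex.ofReal_prod]
  have f3 : ∏ p ∈ N, R.f (xi T p) * ‖hh α p‖ = X * ‖W‖ := by
    rw [prod_mul_distrib, hW, norm_prod]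
  have f4 : ∏ p ∈ N, R.f (xi T p) ^ 2 * ‖hh α p‖ = X ^ 2 * ‖W‖ := by
    rw [prod_mul_distrib, hW, norm_prod, hX, ← prod_pow]
  rw [f1, f2, f3, f4]
  set a := R.F (uu R T (U \ N)) * R.F (uu R T U) with ha
  set b := tp 0 (uu R T U) with hb
  have hb0 : 0 ≤ b := tp_nonneg 0 _
  have e2 : (a : ℂ) * ((P : ℂ) * ((X : ℂ) * W)) - (b : ℂ) * ((P : ℂ) * (((X ^ 2 : ℝ) : ℂ) * W)) =
      (((a - b) * X + b * (X - X ^ 2)) * P : ℝ) * W := by
    push_cast
    ring
  rw [e2, norm_mul, Complex.norm_real, Real.norm_eq_abs, abs_mul, abs_of_nonneg hP0]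
  have h1 : |(a - b) * X + b * (X - X ^ 2)| ≤ ly δ (uu R T U) * X + b * (X - X ^ 2) := by
    refine (abs_add_le _ _).trans ?_
    rw [abs_mul, abs_of_nonneg hX0]
    have h2 : 0 ≤ b * (X - X ^ 2) := mul_nonneg hb0 (by nlinarith)
    rw [abs_of_nonneg h2]
    have := mul_le_mul_of_nonneg_right hFF hX0
    linarith
  calc |(a - b) * X + b * (X - X ^ 2)| * P * ‖W‖ ≤
        (ly δ (uu R T U) * X + b * (X - X ^ 2)) * P * ‖W‖ := by gcongr
    _ = _ := by ring

end Pool.Agent.HalfGap
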