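import Pool.Agent.ZGap.Half.Main

/-!
# The sign of the diagonal term for the Möbius polynomial of any length `T ^ κ`
-/

namespace Pool.Agent.HalfGap

open Complex Finset
open scoped ArithmeticFunction.Moebius ArithmeticFunction.zeta

/-- The main term is negative, for every length `T ^ κ` with `1 < τ (1 + κ)`. -/
theorem main_sign_gen {τ κ : ℝ} (hτ0 : 0 < τ) (h2 : τ < 1) (hκ0 : 0 < κ) (hκ1 : κ < 1)
    (h1 : 1 < τ * (1 + κ)) :
    ∃ c : ℝ, 0 < c ∧ ∃ T0 : ℝ, ∀ T : ℝ, T0 ≤ T →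
      (Complex.exp ((2 * Real.pi * τ / Real.log T / 2 * Real.log (T / (2 * Real.pi)) : ℝ) * I) *
        Ms (2 * Real.pi * τ / Real.log T) ⌊T ^ κ⌋₊).im ≤ -c * Real.log T := by
  have hpi := Real.pi_pos
  have hcos : Real.cos (Real.pi * τ) - Real.cos (Real.pi * τ * (1 + 2 * κ)) < 0 := by
    rw [Real.cos_sub_cos]
    have e1 : (Real.pi * τ + Real.pi * τ * (1 + 2 * κ)) / 2 = Real.pi * (τ * (1 + κ)) := by ring
    have e2 : (Real.pi * τ - Real.pi * τ * (1 + 2 * κ)) / 2 = -(Real.pi * (τ * κ)) := by ring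
    rw [e1, e2, Real.sin_neg]
    have hτκ : τ * κ < 1 := by nlinarith only [h2, hκ1, hτ0, hκ0]
    have hτκ0 : 0 < τ * κ := by positivity
    have hs1 : 0 < Real.sin (Real.pi * (τ * κ)) := by
      apply Real.sin_pos_of_pos_of_lt_pi
      · positivity
      · exact (mul_lt_iff_lt_one_right hpi).mpr hτκ
    have hs2 : Real.sin (Real.pi * (τ * (1 + κ))) < 0 := by
      have h3 : Real.sin (Real.pi * (τ * (1 + κ))) = -Real.sin (Real.pi * (τ * (1 + κ)) - Real.pi) := by
        rw [Real.sin_sub_pi]; ring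
      rw [h3, neg_lt_zero]
      apply Real.sin_pos_of_pos_of_lt_pi
      · have := mul_lt_mul_of_pos_left h1 hpi
        linarith only [this]
      · have h4 : τ * (1 + κ) < 2 := by nlinarith only [h2, hκ1, hτ0, hκ0]
        have := mul_lt_mul_of_pos_left h4 hpi
        linarith only [this]
    nlinarith only [mul_pos_of_neg_of_neg hs2 (neg_lt_zero.mpr hs1)]
  set K : ℝ := 2 * Real.pi * (2 + (2 + 4 * Real.pi) * Z1) + (2 + 4 * Real.pi) * Z1 + 1 with hK
  have hZ := Z1_nonneg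
  have hK0 : 0 ≤ K := by positivity
  set c1 : ℝ := -(3 / (Real.pi ^ 3 * τ) *
    (Real.cos (Real.pi * τ) - Real.cos (Real.pi * τ * (1 + 2 * κ)))) with hc1
  have hc10 : 0 < c1 := by
    rw [hc1]
    have : 0 < 3 / (Real.pi ^ 3 * τ) := by positivity
    exact neg_pos.mpr (mul_neg_of_pos_of_neg this hcos)
  refine ⟨c1 / 2, by positivity, ?_⟩
  have ev : ∀ᶠ T : ℝ in Filter.atTop, max (2 * Real.pi) (2 * K / c1) ≤ Real.log T :=
    Real.tendsto_log_atTop.eventually_ge_atTop _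
  have ev2 : ∀ᶠ T : ℝ in Filter.atTop, (2:ℝ) ≤ T ^ κ :=
    (tendsto_rpow_atTop hκ0).eventually_ge_atTop _
  have ev3 := (ev.and ev2).and (Filter.eventually_ge_atTop (2 : ℝ))
  rw [Filter.eventually_atTop] at ev3
  obtain ⟨T0, hT0⟩ := ev3
  refine ⟨T0, fun T hT => ?_⟩
  obtain ⟨⟨hlog, hTκ⟩, hT2⟩ := hT0 T hT
  set l := Real.log T with hl
  have hl1 : 2 * Real.pi ≤ l := (le_max_left _ _).trans hlog
  have hl2 : 2 * K / c1 ≤ l := (le_max_right _ _).trans hlog
  have hl0 : 0 < l := by linarith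
  have hTpos : (0:ℝ) < T := by linarith
  set α : ℝ := 2 * Real.pi * τ / l with hα
  have hα0 : 0 < α := by positivity
  have hα1 : α ≤ 1 := by
    rw [hα, div_le_one hl0]
    exact (mul_le_of_le_one_right (by positivity) h2.le).trans hl1
  have hαl : α * l = 2 * Real.pi * τ := by rw [hα]; field_simp
  set X := ⌊T ^ κ⌋₊ with hX
  have hX1 : 1 ≤ X := Nat.le_floor (by push_cast; linarith)
  have hXr : (1:ℝ) ≤ X := by exact_mod_cast hX1
  have hXle : (X:ℝ) ≤ T ^ κ := Nat.floor_le (by positivity)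
  have hXge : T ^ κ ≤ 2 * X := by
    have := (Nat.lt_floor_add_one (T ^ κ)).le
    rw [← hX] at this
    linarith
  have hlogTκ : Real.log (T ^ κ) = κ * l := Real.log_rpow hTpos κ
  have hlogX : Real.log X ≤ l := by
    have := Real.log_le_log (by linarith) hXle
    rw [hlogTκ] at this
    exact this.trans (mul_le_of_le_one_left hl0.le hκ1.le)
  have hlogX0 : 0 ≤ Real.log X := Real.log_nonneg hXr
  have hαX : α * Real.log X ≤ 2 * Real.pi := by
    calc α * Real.log X ≤ α * l := by gcongr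
      _ = 2 * Real.pi * τ := hαl
      _ ≤ 2 * Real.pi := mul_le_of_le_one_right (by positivity) h2.le
  -- pieces
  have hMs := Ms_asymp hα0 hα1 hX1
  have hMs' : ‖Ms α X - ((6 / Real.pi ^ 2 : ℝ) : ℂ) * Lf α X‖ ≤ (2 + 4 * Real.pi) * Z1 := by
    refine hMs.trans (mul_le_mul_of_nonneg_right ?_ hZ)
    linarith only [hαX, hpi]
  have h6 : (6:ℝ) / Real.pi ^ 2 ≤ 1 := by
    rw [div_le_one (by positivity)]
    have := Real.pi_gt_three
    nlinarith only [this, hpi]
  have hLX := norm_Lf_le hα0 hXr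
  have hMsn : ‖Ms α X‖ ≤ l + (2 + 4 * Real.pi) * Z1 := by
    calc ‖Ms α X‖ = ‖(Ms α X - ((6 / Real.pi ^ 2 : ℝ) : ℂ) * Lf α X) + ((6 / Real.pi ^ 2 : ℝ) : ℂ) * Lf α X‖ := by
          congr 1; ring
      _ ≤ (2 + 4 * Real.pi) * Z1 + l := by
          refine (norm_add_le _ _).trans (add_le_add hMs' ?_)
          rw [norm_mul, Complex.norm_real, Real.norm_of_nonneg (by positivity)]
          calc (6:ℝ) / Real.pi ^ 2 * ‖Lf α X‖ ≤ 1 * l := by
                apply mul_le_mul h6 (hLX.trans hlogX) (norm_nonneg _) (by norm_num)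
            _ = l := one_mul _
      _ = _ := by ring
  -- first replacement
  have hr1 : ‖Complex.exp ((α / 2 * Real.log (T / (2 * Real.pi)) : ℝ) * I) -
      Complex.exp ((Real.pi * τ : ℝ) * I)‖ ≤ α := by
    refine (norm_exp_sub_exp_le _ _).trans ?_
    rw [Real.log_div hTpos.ne' (by positivity), ← hl]
    have h3 : α / 2 * (l - Real.log (2 * Real.pi)) - Real.pi * τ = -(α / 2 * Real.log (2 * Real.pi)) := by
      have : α / 2 * l = Real.pi * τ := by linarith
      linarith [mul_sub (α / 2) l (Real.log (2 * Real.pi))]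
    rw [h3, abs_neg]
    have h4 : Real.log (2 * Real.pi) ≤ 2 := by
      have h5 : 2 * Real.pi ≤ Real.exp 2 := by
        have h6 := Real.pi_lt_d2
        have h7 : (2.7182818283:ℝ) < Real.exp 1 := Real.exp_one_gt_d9
        have h8 : Real.exp 2 = Real.exp 1 * Real.exp 1 := by rw [← Real.exp_add]; norm_num
        rw [h8]
        nlinarith only [h6, h7]
      have := Real.log_le_log (by positivity) h5
      rwa [Real.log_exp] at this
    have h5 : 0 ≤ Real.log (2 * Real.pi) := Real.log_nonneg (by have := Real.pi_gt_three; linarith)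
    rw [abs_of_nonneg (by positivity)]
    linarith only [mul_le_mul_of_nonneg_left h4 (by positivity : 0 ≤ α / 2)]
  set LK : ℂ := (Complex.exp ((2 * Real.pi * τ * κ : ℝ) * I) - 1) / (α * I) with hLK
  have hLκ : Lf α (T ^ κ) = LK := by
    unfold Lf
    rw [hlogTκ]
    have h3 : (α * ((κ * l : ℝ) : ℂ) * I : ℂ) = ((2 * Real.pi * τ * κ : ℝ) : ℂ) * I := by
      have : α * (κ * l) = 2 * Real.pi * τ * κ := by
        calc α * (κ * l) = κ * (α * l) := by ring
          _ = 2 * Real.pi * τ * κ := by rw [hαl]; ring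
      rw [← this]
      push_cast
      ring
    rw [h3]
  have hr2 : ‖Lf α X - Lf α (T ^ κ)‖ ≤ 1 := by
    rw [norm_sub_rev]
    refine (Lf_sub_le hα0 (by linarith) hXle).trans ?_
    have := Real.log_le_log (by linarith) hXge
    rw [Real.log_mul (by norm_num) (by positivity)] at this
    have h4 := Real.log_two_lt_d9
    linarith
  -- the main term
  set E1 := Complex.exp ((α / 2 * Real.log (T / (2 * Real.pi)) : ℝ) * I) with hE1
  set E2 := Complex.exp ((Real.pi * τ : ℝ) * I) with hE2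
  have hE2n : ‖E2‖ = 1 := Complex.norm_exp_ofReal_mul_I _
  have hmain : (E2 * (((6 / Real.pi ^ 2 : ℝ) : ℂ) * LK)).im = -c1 * l := by
    have h3 : E2 * (((6 / Real.pi ^ 2 : ℝ) : ℂ) * LK) =
        ((6 / (Real.pi ^ 2 * α) : ℝ) : ℂ) *
          ((E2 - Complex.exp ((Real.pi * τ * (1 + 2 * κ) : ℝ) * I)) * I) := by
      have e1 : Complex.exp ((Real.pi * τ * (1 + 2 * κ) : ℝ) * I) =
          E2 * Complex.exp ((2 * Real.pi * τ * κ : ℝ) * I) := by
        rw [hE2, ← Complex.exp_add]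
        congr 1
        push_cast
        ring
      rw [e1, hLK]
      have hαc : (α : ℂ) ≠ 0 := by exact_mod_cast hα0.ne'
      have hpc : (Real.pi : ℂ) ≠ 0 := by exact_mod_cast hpi.ne'
      push_cast
      rw [div_eq_mul_inv _ ((α : ℂ) * I), mul_inv, Complex.inv_I]
      field_simp
      ring
    have h4 : ((E2 - Complex.exp ((Real.pi * τ * (1 + 2 * κ) : ℝ) * I)) * I).im =
        Real.cos (Real.pi * τ) - Real.cos (Real.pi * τ * (1 + 2 * κ)) := by
      rw [Complex.mul_I_im, Complex.sub_re, hE2, Complex.exp_ofReal_mul_I_re,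
        Complex.exp_ofReal_mul_I_re]
    rw [h3, Complex.im_ofReal_mul, h4, hc1, hα]
    field_simp
    ring
  have hdiff : ‖E1 * Ms α X - E2 * (((6 / Real.pi ^ 2 : ℝ) : ℂ) * LK)‖ ≤ K := by
    have h3 : E1 * Ms α X - E2 * (((6 / Real.pi ^ 2 : ℝ) : ℂ) * LK) =
        (E1 - E2) * Ms α X + E2 * (Ms α X - ((6 / Real.pi ^ 2 : ℝ) : ℂ) * Lf α X) +
        E2 * (((6 / Real.pi ^ 2 : ℝ) : ℂ) * (Lf α X - Lf α (T ^ κ))) := by
      rw [hLκ]; ring
    rw [h3]
    have t1 : ‖(E1 - E2) * Ms α X‖ ≤ 2 * Real.pi * (2 + (2 + 4 * Real.pi) * Z1) := by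
      rw [norm_mul]
      calc ‖E1 - E2‖ * ‖Ms α X‖ ≤ α * (l + (2 + 4 * Real.pi) * Z1) :=
            mul_le_mul hr1 hMsn (norm_nonneg _) hα0.le
        _ = α * l + α * ((2 + 4 * Real.pi) * Z1) := by ring
        _ ≤ 2 * Real.pi + 1 * ((2 + 4 * Real.pi) * Z1) := by
            refine add_le_add ?_ ?_
            · rw [hαl]; exact mul_le_of_le_one_right (by positivity) h2.le
            · gcongr
        _ ≤ _ := by
            have h5 : 0 ≤ (2 + 4 * Real.pi) * Z1 := by positivity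
            have := Real.pi_gt_three
            nlinarith only [mul_nonneg h5 (by linarith only [this] : 0 ≤ 2 * Real.pi - 1), this]
    have t2 : ‖E2 * (Ms α X - ((6 / Real.pi ^ 2 : ℝ) : ℂ) * Lf α X)‖ ≤ (2 + 4 * Real.pi) * Z1 := by
      rw [norm_mul, hE2n, one_mul]; exact hMs'
    have t3 : ‖E2 * (((6 / Real.pi ^ 2 : ℝ) : ℂ) * (Lf α X - Lf α (T ^ κ)))‖ ≤ 1 := by
      rw [norm_mul, hE2n, one_mul, norm_mul, Complex.norm_real, Real.norm_of_nonneg (by positivity)]
      calc (6:ℝ) / Real.pi ^ 2 * ‖Lf α X - Lf α (T ^ κ)‖ ≤ 1 * 1 :=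
            mul_le_mul h6 hr2 (norm_nonneg _) (by norm_num)
        _ = 1 := one_mul _
    calc _ ≤ ‖(E1 - E2) * Ms α X‖ + ‖E2 * (Ms α X - ((6 / Real.pi ^ 2 : ℝ) : ℂ) * Lf α X)‖ +
        ‖E2 * (((6 / Real.pi ^ 2 : ℝ) : ℂ) * (Lf α X - Lf α (T ^ κ)))‖ := norm_add₃_le
      _ ≤ K := by rw [hK]; linarith
  have him : (E1 * Ms α X).im ≤ -c1 * l + K := by
    have h3 : (E1 * Ms α X).im = (E2 * (((6 / Real.pi ^ 2 : ℝ) : ℂ) * LK)).im +
        (E1 * Ms α X - E2 * (((6 / Real.pi ^ 2 : ℝ) : ℂ) * LK)).im := by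
      rw [Complex.sub_im]; ring
    rw [h3, hmain]
    have := (Complex.abs_im_le_norm (E1 * Ms α X - E2 * (((6 / Real.pi ^ 2 : ℝ) : ℂ) * LK))).trans hdiff
    have := (abs_le.mp this).2
    linarith
  refine him.trans ?_
  have h3 : 2 * K ≤ l * c1 := by rwa [div_le_iff₀ hc10] at hl2
  linarith only [h3]

end Pool.Agent.HalfGap
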