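import Pool.Agent.ZGap.Half.Fin2
import Pool.Agent.ZGap.Half.ShortMain
import Pool.Agent.ZGap.Half.ShortGam

/-!
# The main term for the Möbius polynomial in short intervals
-/

namespace Pool.Agent.HalfGap

open MeasureTheory Finset Pool.Agent.ZGap.Res Filter Topology Complex
open scoped ComplexConjugate ArithmeticFunction.Moebius

/-- **The main term for the Möbius polynomial**, general length. -/
theorem MJ_gen {τ κ η1 η2 : ℝ} (hτ : 0 < τ) (hτ2 : τ < 1) (hκ0 : 0 < κ) (hκ1 : κ < 1)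
    (hτ1 : 1 < τ * (1 + κ)) (h1 : 0 < η1) (h1' : η2 < 2 * η1) (h12 : η1 < η2) (h2 : η2 < 1) :
    ∃ c : ℝ, 0 < c ∧ ∃ T0 : ℝ, ∀ T : ℝ, T0 ≤ T → ∀ t0 : ℝ, T ≤ t0 → t0 ≤ 2 * T →
      (Ms (2 * Real.pi * τ / Real.log T) ⌊T ^ κ⌋₊ *
        ∫ t in (t0 - T ^ η2)..(t0 + T ^ η2),
        Og (T ^ η1) t0 (2 + t * I) * gam (2 * Real.pi * τ / Real.log T) (2 + t * I)).im ≤
        -c * Real.log T * T ^ η1 := by
  have hpi := Real.pi_pos
  obtain ⟨c, hc, T2, k2⟩ := main_sign_gen hτ hτ2 hκ0 hκ1 hτ1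
  have hA : 0 < 2 * Real.pi * τ := by positivity
  obtain ⟨C, T1, hC, k1⟩ := gam_int_gen hA h1 h1' h12 h2
  have hsp : 0 < Real.sqrt Real.pi := Real.sqrt_pos.mpr hpi
  refine ⟨c * Real.sqrt Real.pi / 2, by positivity, ?_⟩
  have ev3 : ∀ᶠ T : ℝ in atTop, 2 * (C / Real.log T) ≤ c * Real.sqrt Real.pi / 2 := by
    have := (Real.tendsto_log_atTop.const_div_atTop C).const_mul 2
    rw [mul_zero] at this
    exact this.eventually (ge_mem_nhds (by positivity))
  obtain ⟨T3, hT3⟩ := eventually_atTop.mp ev3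
  refine ⟨max T1 (max T2 (max T3 (Real.exp 3))), fun T hT t0 ht1 ht2 => ?_⟩
  have hTT1 : T1 ≤ T := (le_max_left _ _).trans hT
  have hTT2 : T2 ≤ T := ((le_max_left _ _).trans (le_max_right _ _)).trans hT
  have hTT3 : T3 ≤ T := (((le_max_left _ _).trans (le_max_right _ _)).trans (le_max_right _ _)).trans hT
  have hTe : Real.exp 3 ≤ T := (((le_max_right _ _).trans (le_max_right _ _)).trans (le_max_right _ _)).trans hT
  have h1T : 1 < T := lt_of_lt_of_le (Real.one_lt_exp_iff.mpr (by norm_num)) hTe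
  have hT0 : 0 < T := by linarith
  have hL3 : 3 ≤ Real.log T := by rw [Real.le_log_iff_exp_le hT0]; exact hTe
  have hL : 0 < Real.log T := by linarith
  have a3 := hT3 T hTT3
  have b1 := k2 T hTT2
  set α := 2 * Real.pi * τ / Real.log T with hα
  set X := ⌊T ^ κ⌋₊ with hX
  have hα0 : 0 ≤ α := by positivity
  have hTκ : 1 ≤ T ^ κ := Real.one_le_rpow h1T.le hκ0.le
  have hXle : (X:ℝ) ≤ T ^ κ := Nat.floor_le (by linarith)
  have hX1 : 1 ≤ X := Nat.le_floor (by exact_mod_cast hTκ)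
  have hX1r : (1:ℝ) ≤ X := by exact_mod_cast hX1
  have key := k1 T α t0 hTT1 hα0 le_rfl ht1 ht2
  set J := ∫ t in (t0 - T ^ η2)..(t0 + T ^ η2), Og (T ^ η1) t0 (2 + t * I) * gam α (2 + t * I) with hJ
  set M := Ms α X with hM
  set P := ((Real.sqrt Real.pi * T ^ η1 : ℝ) : ℂ) *
        Complex.exp ((α / 2 * Real.log (T / (2 * Real.pi)) : ℝ) * I) with hP
  have hH0 : 0 < T ^ η1 := Real.rpow_pos_of_pos hT0 _
  have hMn : ‖M‖ ≤ 2 * Real.log T := by
    refine (norm_Ms_le α X).trans ?_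
    have h5 : Real.log X ≤ Real.log T := by
      apply Real.log_le_log (by linarith)
      refine hXle.trans ?_
      calc T ^ κ ≤ T ^ (1:ℝ) := Real.rpow_le_rpow_of_exponent_le h1T.le hκ1.le
        _ = T := Real.rpow_one T
    linarith
  have hmain : (M * P).im ≤ -c * Real.log T * (Real.sqrt Real.pi * T ^ η1) := by
    have e1 : M * P = ((Real.sqrt Real.pi * T ^ η1 : ℝ) : ℂ) *
        (Complex.exp ((α / 2 * Real.log (T / (2 * Real.pi)) : ℝ) * I) * M) := by
      rw [hP]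
      ring
    rw [e1, Complex.im_ofReal_mul]
    have h6 : 0 ≤ Real.sqrt Real.pi * T ^ η1 := by positivity
    calc _ ≤ (Real.sqrt Real.pi * T ^ η1) * (-c * Real.log T) := mul_le_mul_of_nonneg_left b1 h6
      _ = _ := by ring
  have herr : ‖M * J - M * P‖ ≤ c * Real.sqrt Real.pi / 2 * Real.log T * T ^ η1 := by
    rw [← mul_sub, norm_mul]
    calc _ ≤ (2 * Real.log T) * (C / Real.log T * T ^ η1) := by
          apply mul_le_mul hMn key (norm_nonneg _) (by positivity)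
      _ = (2 * (C / Real.log T)) * Real.log T * T ^ η1 := by ring
      _ ≤ _ := by gcongr
  have h12' : (M * J).im - (M * P).im ≤ c * Real.sqrt Real.pi / 2 * Real.log T * T ^ η1 := by
    rw [← Complex.sub_im]
    exact (le_abs_self _).trans ((Complex.abs_im_le_norm _).trans herr)
  linarith only [h12', hmain]

end Pool.Agent.HalfGap
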