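import Pool.Agent.ZGap.Half.Wrap
import Pool.Agent.ZGap.Half.ShortMJ

/-!
# Close pairs of zeros in intervals of any power length
-/

namespace Pool.Agent.HalfGap

open Complex MeasureTheory Set Pool.Agent.Hadamard Filter
open scoped ComplexConjugate Topology

/-- Crude bound of the integrand near the critical line, away from the zeros. -/
lemma FF_crude_gen (hRH : RiemannHypothesis) {τ : ℝ} (hτ : 1 / 3 < τ) (hτ1 : τ < 1) :
    ∃ C T0 : ℝ, ∀ T : ℝ, T0 ≤ T → ∀ {ι : Type} (Q : Finset ι) (b : ι → ℂ) (w : ι → ℝ) (SB : ℝ),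
      ∑ q ∈ Q, ‖b q‖ * Real.exp (2 * |w q|) ≤ SB →
      ∀ H t0 : ℝ, 1 ≤ H → ∀ t ∈ Icc (3 * T / 4) (5 * T / 2), ∀ s : ℂ,
        |s.re - 1 / 2| ≤ 1 / Real.log T →
        |s.im - t| ≤ 2 * Real.pi * τ / Real.log T →
        (s.re = 1 / 2 + 1 / Real.log T ∨ s.re = 1 / 2 - 1 / Real.log T ∨
          ∀ v, Xr v = 0 → Real.pi * τ / Real.log T ≤ |v - s.im|) →
        ‖FF H t0 (2 * Real.pi * τ / Real.log T) (BS Q b w) s‖ ≤ Real.exp 1 * SB * T ^ C := by
  have hpi := Real.pi_pos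
  have hpi3 := Real.pi_gt_three
  have hpi4 := Real.pi_lt_four
  obtain ⟨C, T1, hC, hT1, hfs⟩ := fq_le_rpow_strip hRH (A := 2 * Real.pi) (c := 1)
    (by positivity) one_pos
  refine ⟨C, max T1 (max 100 (Real.exp 2)), fun T hT ι Q b w SB hSB H t0 hH t ht s hs1 hs2 hs3 => ?_⟩
  have hTT1 : T1 ≤ T := (le_max_left _ _).trans hT
  have hT100 : 100 ≤ T := ((le_max_left _ _).trans (le_max_right _ _)).trans hT
  have hTe : Real.exp 2 ≤ T := ((le_max_right _ _).trans (le_max_right _ _)).trans hT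
  have hTpos : 0 < T := by linarith
  set L := Real.log T with hL
  have hL2 : 2 ≤ L := by
    rw [hL, Real.le_log_iff_exp_le hTpos]; exact hTe
  have hLpos : 0 < L := by linarith
  set α := 2 * Real.pi * τ / L with hα
  have hα0 : 0 < α := by positivity
  have hα1 : α ≤ 2 * Real.pi / L := by
    rw [hα]
    apply div_le_div_of_nonneg_right _ hLpos.le
    nlinarith
  have hα4 : α ≤ 4 := by
    refine hα1.trans ?_
    rw [div_le_iff₀ hLpos]; nlinarith
  have hs1' : |s.re - 1 / 2| ≤ 1 / 2 := by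
    refine hs1.trans ?_
    rw [div_le_div_iff₀ hLpos (by norm_num)]; linarith
  have him := abs_le.mp (hs2.trans hα4)
  unfold FF
  rw [norm_mul, norm_mul]
  have h1 : ‖Og H t0 s‖ ≤ Real.exp 1 := by
    rw [norm_Og_s]
    apply Real.exp_le_exp.mpr
    have hH2 : 1 ≤ H ^ 2 := one_le_pow₀ hH
    have hH0 : 0 < H ^ 2 := by positivity
    have a1 : (s.re - 1 / 2) ^ 2 ≤ (1 / 2) ^ 2 := by
      rw [← sq_abs]
      exact pow_le_pow_left₀ (abs_nonneg _) hs1' 2
    rw [div_le_one hH0]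
    nlinarith [sq_nonneg (s.im - t0)]
  have h2 : ‖BS Q b w s‖ ≤ SB := (norm_BS_le Q b w (hs1'.trans (by norm_num))).trans hSB
  have hSB0 : 0 ≤ SB := (norm_nonneg _).trans h2
  have h3 : ‖fq α s‖ ≤ T ^ C := by
    refine hfs T hTT1 α hα0.le hα1 s hs1 ?_ ?_ ?_
    · linarith [ht.1, him.1]
    · linarith [ht.2, him.2]
    · intro ρ hρ
      obtain ⟨b1, b2⟩ := (xiF_zero_iff hRH).mp (xiF_eq_zero_iff.mpr hρ)
      have c1 := abs_re_le_norm (s - ρ)
      have c2 := abs_im_le_norm (s - ρ)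
      rw [sub_re, b1] at c1
      rw [sub_im] at c2
      rcases hs3 with h | h | h
      · rw [h] at c1
        refine le_trans ?_ c1
        rw [add_sub_cancel_left]
        exact le_abs_self _
      · rw [h] at c1
        refine le_trans ?_ c1
        rw [sub_sub_cancel_left, abs_neg]
        exact le_abs_self _
      · have := h _ b2
        rw [abs_sub_comm] at this
        refine le_trans ?_ (this.trans c2)
        apply div_le_div_of_nonneg_right _ hLpos.le
        nlinarith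
  calc ‖Og H t0 s‖ * ‖BS Q b w s‖ * ‖fq α s‖ ≤ Real.exp 1 * SB * T ^ C := by gcongr
    _ = _ := rfl

/-- **Close pairs in intervals of any power length** (RH): for `0 < a ≤ 1` and
`1 / (1 + a) < τ < 1` there is `η < a` such that every interval of length `2 T^η` around a point
of `[T, 2T]` meets the exceptional set. -/
theorem exist_EE_gen (hRH : RiemannHypothesis) {a τ : ℝ} (ha : 0 < a) (ha1 : a ≤ 1)
    (hτ : 1 / (1 + a) < τ) (hτ1 : τ < 1) :
    ∃ η : ℝ, 0 < η ∧ η < a ∧ ∃ T0 : ℝ, ∀ T : ℝ, T0 ≤ T → ∀ t0 : ℝ, T ≤ t0 → t0 ≤ 2 * T →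
      ∃ t ∈ EE (2 * Real.pi * τ / Real.log T), |t - t0| ≤ T ^ η := by
  have hpi := Real.pi_pos
  have h1a : 0 < 1 + a := by linarith
  have hhalf : 1 / 2 ≤ 1 / (1 + a) := one_div_le_one_div_of_le h1a (by linarith)
  have hτ0 : 0 < τ := by linarith
  have hτa : 1 < τ * (1 + a) := by rwa [div_lt_iff₀ h1a] at hτ
  set b := 1 / τ - 1 with hb
  have hτb : τ * (1 + b) = 1 := by rw [hb]; field_simp; ring
  have hb0 : 0 < b := by
    have : 1 < 1 / τ := by rw [lt_div_iff₀ hτ0]; linarith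
    rw [hb]; linarith
  have hba : b < a := by
    by_contra hcon
    push Not at hcon
    have : τ * (1 + a) ≤ τ * (1 + b) := by gcongr
    linarith
  set κ := (a + b) / 2 with hκ
  have hκ0 : 0 < κ := by rw [hκ]; linarith
  have hbκ : b < κ := by rw [hκ]; linarith
  have hκa : κ < a := by rw [hκ]; linarith
  have hκ1 : κ < 1 := by linarith
  have hτκ : 1 < τ * (1 + κ) := by
    have : τ * (1 + b) < τ * (1 + κ) := by gcongr
    linarith
  set η1 := (2 * κ + a) / 3 with hη1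
  set η2 := (κ + 2 * a) / 3 with hη2
  set η := (η2 + a) / 2 with hη
  have hη10 : 0 < η1 := by rw [hη1]; linarith
  have hκη : κ < η1 := by rw [hη1]; linarith
  have hη12 : η1 < η2 := by rw [hη1, hη2]; linarith
  have hη12' : η2 < 2 * η1 := by rw [hη1, hη2]; linarith
  have hη2a : η2 < a := by rw [hη2]; linarith
  have hη21 : η2 < 1 := by linarith
  have hη2η : η2 < η := by rw [hη]; linarith
  have hηa : η < a := by rw [hη]; linarith
  refine ⟨η, by linarith, hηa, ?_⟩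
  obtain ⟨c, hc, T1, hMJ⟩ := MJ_gen hτ0 hτ1 hκ0 hκ1 hτκ hη10 hη12' hη12 hη21
  obtain ⟨T2, hW⟩ := wrap hRH (τ := τ) (κ := κ) (η1 := η1) (η2 := η2) (A := 4)
    (by linarith) hτ1 hκη (by linarith) hη12 hη21
  obtain ⟨C, T3, hFF⟩ := FF_crude_gen hRH (τ := τ) (by linarith) hτ1
  have e1 : ∀ᶠ T : ℝ in atTop, 2 * T ^ η2 < T ^ η := by
    have h1 : Tendsto (fun T : ℝ => T ^ (η - η2)) atTop atTop :=
      tendsto_rpow_atTop (by linarith)
    filter_upwards [h1.eventually_gt_atTop 2, eventually_gt_atTop 0] with T hT hT0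
    have h2 : T ^ (η - η2) * T ^ η2 = T ^ η := by
      rw [← Real.rpow_add hT0]; congr 1; ring
    have h3 : 0 < T ^ η2 := Real.rpow_pos_of_pos hT0 _
    nlinarith
  have e2 : ∀ᶠ T : ℝ in atTop, 1 ≤ Real.log T := Real.tendsto_log_atTop.eventually_ge_atTop 1
  have e3 : ∀ᶠ T : ℝ in atTop, 2 / c ≤ T ^ η1 :=
    (tendsto_rpow_atTop (by linarith : 0 < η1)).eventually_ge_atTop _
  have e7 := ((e1.and e2).and (e3.and (eventually_ge_atTop T1))).and
    ((eventually_ge_atTop T2).and (eventually_ge_atTop T3))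
  obtain ⟨T0, hT0⟩ := eventually_atTop.mp e7
  refine ⟨max T0 1, fun T hT t0 ht0 ht0' => ?_⟩
  obtain ⟨⟨⟨s1, s2⟩, s3, s4⟩, s5, s6⟩ := hT0 T ((le_max_left _ _).trans hT)
  have h1T : 1 ≤ T := (le_max_right _ _).trans hT
  have hTpos : 0 < T := by linarith
  by_contra hno
  push Not at hno
  set X := ⌊T ^ κ⌋₊ with hX
  have hTκ1 : 1 ≤ T ^ κ := Real.one_le_rpow h1T (by linarith)
  have hX1 : 1 ≤ X := by
    rw [hX]; exact Nat.le_floor (by simpa using hTκ1)
  have hXle : (X:ℝ) ≤ T ^ κ := Nat.floor_le (by positivity)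
  have hXT : (X:ℝ) ≤ T := hXle.trans (by
    calc T ^ κ ≤ T ^ (1:ℝ) := Real.rpow_le_rpow_of_exponent_le h1T hκ1.le
      _ = T := Real.rpow_one T)
  have hSB : ∑ q ∈ QV X, ‖bV (2 * Real.pi * τ / Real.log T) q‖ * Real.exp (2 * |wV q|) ≤
      T ^ (4:ℝ) := by
    refine (sum_bV_exp_le _ X).trans ?_
    rw [show (4:ℝ) = ((4:ℕ):ℝ) by norm_num, Real.rpow_natCast]
    exact pow_le_pow_left₀ (by positivity) hXT 4
  have hsep : ∀ q ∈ QV X, ∀ n : ℕ, 1 ≤ n →
      wV q + Real.log n = 0 ∨ T ^ (-κ) / 2 ≤ |wV q + Real.log n| := by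
    intro q hq n hn
    rcases wV_sep hq hn with h | h
    · exact Or.inl h
    · right
      refine le_trans ?_ h
      rw [Real.rpow_neg hTpos.le, inv_eq_one_div, div_div]
      apply one_div_le_one_div_of_le (by positivity)
      linarith
  have hH1 : 1 ≤ T ^ η1 := Real.one_le_rpow h1T (by linarith)
  have key := hW T s5 t0 ht0 ht0' (QV X) (bV (2 * Real.pi * τ / Real.log T)) wV
    (fun s => BSV_conj _ X s) (fun t => BSV_re_nonneg _ t X) hSB hsep
    (fun _ => Real.exp 1 * T ^ (4:ℝ) * T ^ C) (fun _ => by positivity)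
    (by
      apply Continuous.integrableOn_Icc
      fun_prop)
    (fun t ht s h1 h2 h3 => hFF T s6 (QV X) (bV (2 * Real.pi * τ / Real.log T)) wV _ hSB
      (T ^ η1) t0 hH1 t ht s h1 h2 h3)
  have hempty : Icc (t0 - 2 * T ^ η2) (t0 + 2 * T ^ η2) ∩ EE (2 * Real.pi * τ / Real.log T) = ∅ := by
    rw [Set.eq_empty_iff_forall_notMem]
    rintro t ⟨ht1, ht2⟩
    have h1 := hno t ht2
    have h2 : |t - t0| ≤ 2 * T ^ η2 := by
      rw [abs_le]; constructor <;> linarith [ht1.1, ht1.2]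
    linarith
  rw [hempty, Measure.restrict_empty, integral_zero_measure, Mdiag_eq] at key
  have key2 := hMJ T s4 t0 ht0 ht0'
  have h8 : 2 ≤ c * T ^ η1 := by
    rw [div_le_iff₀ hc] at s3
    linarith
  have h9 : c * T ^ η1 ≤ c * Real.log T * T ^ η1 := by
    have h10 : 0 ≤ c * T ^ η1 := by positivity
    nlinarith
  have h11 : -(2 * (0:ℝ)) - 1 ≤ -c * Real.log T * T ^ η1 := key.trans key2
  linarith

end Pool.Agent.HalfGap
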