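import Pool.Agent.ZGap.Half.ExistGap
import Pool.Agent.ZGap.Half.ShortEE

/-!
# Small gaps between zeros in every interval `[T, T + T ^ a]`
-/

namespace Pool.Agent.HalfGap

open Complex MeasureTheory Set Pool.Agent.Hadamard Filter Pool.Agent.ZetaGaps
open scoped Topology

/-- Small gaps in all intervals `[T, T + T ^ a]`, from the existence of points of `EE`. -/
theorem exists_gap_of_EE_gen {a : ℝ} (ha : 0 < a) (ha1 : a ≤ 1)
    (hE : ∀ τ : ℝ, 1 / (1 + a) < τ → τ < 1 → ∃ η : ℝ, 0 < η ∧ η < a ∧ ∃ T0 : ℝ, ∀ T : ℝ, T0 ≤ T →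
      ∀ t0 : ℝ, T ≤ t0 → t0 ≤ 2 * T →
        ∃ t ∈ EE (2 * Real.pi * τ / Real.log T), |t - t0| ≤ T ^ η)
    {ε : ℝ} (hε : 0 < ε) :
    ∃ T0 : ℝ, ∀ T : ℝ, T0 ≤ T → ∃ n : ℕ, 1 ≤ n ∧ T ≤ ordinate n ∧
      ordinate (n + 1) ≤ T + T ^ a ∧ gap n < 1 / (1 + a) + ε := by
  have hpi := Real.pi_pos
  have hpi4 := Real.pi_lt_four
  have h1a : 0 < 1 + a := by linarith
  have hs : 1 / (1 + a) + a / (1 + a) = 1 := by field_simp
  have hs0 : 0 < a / (1 + a) := by positivity
  have hp0 : 0 < 1 / (1 + a) := by positivity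
  set p := 1 / (1 + a) with hp
  set m := min ε (a / (1 + a)) with hm
  have hm0 : 0 < m := lt_min hε hs0
  have hm2 : m ≤ a / (1 + a) := min_le_right _ _
  have hm1 : m ≤ 1 := by linarith
  have hmε : m ≤ ε := min_le_left _ _
  have hpm : p + m ≤ 1 := by linarith
  obtain ⟨η1, hη10, hη1a, T1, h⟩ := hE (p + m / 4) (by linarith) (by linarith)
  have hη1c : η1 < 1 := by linarith
  have ev1 : ∀ᶠ T : ℝ in atTop, 8 / m ≤ Real.log T :=
    Real.tendsto_log_atTop.eventually_ge_atTop _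
  have ev2 : ∀ᶠ T : ℝ in atTop, 3 ≤ T ^ (1 - η1) :=
    (tendsto_rpow_atTop (by linarith)).eventually_ge_atTop _
  have ev3 : ∀ᶠ T : ℝ in atTop, 8 ≤ T ^ (a - η1) :=
    (tendsto_rpow_atTop (by linarith)).eventually_ge_atTop _
  have ev4 : ∀ᶠ T : ℝ in atTop, 16 ≤ T ^ η1 :=
    (tendsto_rpow_atTop (by linarith)).eventually_ge_atTop _
  obtain ⟨T0, hT0⟩ := eventually_atTop.1
    (ev1.and (ev2.and (ev3.and (ev4.and (eventually_ge_atTop (max T1 1))))))
  refine ⟨T0, fun T hT => ?_⟩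
  obtain ⟨h1, h2, h3, h4, h5⟩ := hT0 T hT
  have hT1 : T1 ≤ T := (le_max_left _ _).trans h5
  have hTone : 1 ≤ T := (le_max_right _ _).trans h5
  have hTpos : 0 < T := by linarith
  have hL8 : 8 ≤ Real.log T := by
    refine le_trans ?_ h1
    rw [le_div_iff₀ hm0]; linarith
  set L := Real.log T with hL
  have hLpos : 0 < L := by linarith
  set β : ℝ := 2 * Real.pi * (p + m / 2) / L with hβ
  have hαβ : 2 * Real.pi * (p + m / 4) / L < β := by
    rw [hβ]
    apply div_lt_div_of_pos_right _ hLpos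
    have : 0 < 2 * Real.pi := by positivity
    nlinarith
  have hα0 : 0 < 2 * Real.pi * (p + m / 4) / L := by positivity
  have hβ8 : β ≤ 8 := by
    rw [hβ, div_le_iff₀ hLpos]
    nlinarith
  have e1 : T ^ η1 * 3 ≤ T := by
    have e2 : T = T ^ η1 * T ^ (1 - η1) := by
      rw [← Real.rpow_add hTpos]
      conv_lhs => rw [← Real.rpow_one T]
      congr 1; ring
    have e3 : 0 < T ^ η1 := by positivity
    calc T ^ η1 * 3 ≤ T ^ η1 * T ^ (1 - η1) := by gcongr
      _ = T := e2.symm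
  have e2 : T ^ η1 * 8 ≤ T ^ a := by
    have e2 : T ^ a = T ^ η1 * T ^ (a - η1) := by
      rw [← Real.rpow_add hTpos]
      congr 1; ring
    rw [e2]
    have e3 : 0 < T ^ η1 := by positivity
    gcongr
  have e3 : T ^ a ≤ T := by
    conv_rhs => rw [← Real.rpow_one T]
    exact Real.rpow_le_rpow_of_exponent_le hTone ha1
  obtain ⟨t, htE, ht⟩ := h T hT1 (T + 3 * T ^ η1) (by linarith) (by linarith)
  have ht' := abs_le.mp ht
  obtain ⟨n, hn1, hn2, hn3, hn4⟩ := exists_ordinate_of_EE hα0 hαβ htE (by linarith)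
  have h6 : T ≤ ordinate n := by linarith
  have h7 : ordinate (n + 1) ≤ T + T ^ a := by linarith
  refine ⟨n, hn1, h6, h7, ?_⟩
  refine (gap_le hn1).trans_lt ?_
  have h8 : Real.log (ordinate (n + 1)) ≤ L + 1 := by
    have h9 : ordinate (n + 1) ≤ 2 * T := by linarith
    have h10 : 0 < ordinate (n + 1) := by
      have := ordinate_mono (zeroCount_unbounded (n + 1)) hn1 (by omega : n ≤ n + 1)
      linarith
    calc Real.log (ordinate (n + 1)) ≤ Real.log (2 * T) := Real.log_le_log h10 h9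
      _ = Real.log 2 + L := Real.log_mul (by norm_num) hTpos.ne'
      _ ≤ L + 1 := by linarith [Real.log_two_lt_d9]
  have h9 : (ordinate (n + 1) - ordinate n) * (Real.log (ordinate (n + 1)) + 1) ≤
      β * (L + 2) := by
    have h10 : 0 ≤ ordinate (n + 1) - ordinate n := by
      have := ordinate_mono (zeroCount_unbounded (n + 1)) hn1 (by omega : n ≤ n + 1)
      linarith
    have h11 : 0 ≤ Real.log (ordinate (n + 1)) + 1 := by
      have : 0 ≤ Real.log (ordinate (n + 1)) := Real.log_nonneg (by linarith)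
      linarith
    calc (ordinate (n + 1) - ordinate n) * (Real.log (ordinate (n + 1)) + 1)
        ≤ β * (Real.log (ordinate (n + 1)) + 1) := by gcongr
      _ ≤ β * (L + 2) := by
          apply mul_le_mul_of_nonneg_left _ (hα0.trans hαβ).le
          linarith
  calc (ordinate (n + 1) - ordinate n) * (Real.log (ordinate (n + 1)) + 1) / (2 * Real.pi)
      ≤ β * (L + 2) / (2 * Real.pi) := by gcongr
    _ = (p + m / 2) * (1 + 2 / L) := by rw [hβ]; field_simp
    _ < p + ε := by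
        have h12 : 2 / L ≤ m / 4 := by
          rw [div_le_div_iff₀ hLpos (by norm_num)]
          rw [div_le_iff₀ hm0] at h1
          linarith
        have h13 : 0 < 2 / L := by positivity
        nlinarith

/-- **Small gaps in every short interval** (RH). -/
theorem small_gaps_short (hRH : RiemannHypothesis) {a ε : ℝ} (ha : 0 < a) (ha1 : a ≤ 1)
    (hε : 0 < ε) : ∃ T0 : ℝ, ∀ T : ℝ, T0 ≤ T → ∃ n : ℕ, 1 ≤ n ∧ T ≤ ordinate n ∧
      ordinate (n + 1) ≤ T + T ^ a ∧ gap n < 1 / (1 + a) + ε :=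
  exists_gap_of_EE_gen ha ha1 (fun _ h1 h2 => exist_EE_gen hRH ha ha1 h1 h2) hε

end Pool.Agent.HalfGap
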