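import Pool.Agent.ZGap.Half.Fin2
import Pool.Agent.ZGap.Half.ShortGam

/-!
# The main term for the square of the resonator in short intervals
-/

namespace Pool.Agent.HalfGap

open MeasureTheory Finset Pool.Agent.ZGap.Res Filter Topology Complex
open scoped ComplexConjugate ArithmeticFunction.Moebius

/-- **The main term for the square of the resonator**, narrow windows. -/
theorem MJ_two_gen {τ θ η1 η2 : ℝ} (hτ1 : 1 / 2 < τ) (hτ2 : τ < 1) (hθ : 0 < θ) (hθ' : θ < 1 / 2)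
    (h3 : 1 < τ * (1 + 2 * θ)) (h1 : 0 < η1) (h1' : η2 < 2 * η1) (h12 : η1 < η2)
    (h2 : η2 < 1) :
    ∃ c : ℝ, 0 < c ∧ ∃ e : ℝ, 0 < e ∧ ∀ R : ResData, R.r = -1 →
      R.th = θ → R.ep ≤ e → ∀ δ : ℝ, δ ≤ e → LinProf R 1 0 δ →
      ∃ T0 : ℝ, ∀ T : ℝ, T0 ≤ T → ∀ t0 : ℝ, T ≤ t0 → t0 ≤ 2 * T →
      (M2 R T (2 * Real.pi * τ / Real.log T) * ∫ t in (t0 - T ^ η2)..(t0 + T ^ η2),
        Og (T ^ η1) t0 (2 + t * I) * gam (2 * Real.pi * τ / Real.log T) (2 + t * I)).im ≤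
        -c * T ^ η1 := by
  have hpi := Real.pi_pos
  have hτ : 0 < τ := by linarith
  obtain ⟨c, hc, e, he, g1⟩ := main_sign2 hτ1 hτ2 hθ hθ' h3
  have hA : 0 < 2 * Real.pi * τ := by positivity
  obtain ⟨C, T1, hC, k1⟩ := gam_int_gen hA h1 h1' h12 h2
  have hsp : 0 < Real.sqrt Real.pi := Real.sqrt_pos.mpr hpi
  refine ⟨c * Real.sqrt Real.pi / 2, by positivity, e, he, fun R hr hth hep δ hδe hlin => ?_⟩
  obtain ⟨T2, hT2, k2⟩ := g1 R hr hth hep δ hδe hlin
  have ev3 : ∀ᶠ T : ℝ in atTop, 2 * (C / Real.log T) ≤ c * Real.sqrt Real.pi / 2 := by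
    have := (Real.tendsto_log_atTop.const_div_atTop C).const_mul 2
    rw [mul_zero] at this
    exact this.eventually (ge_mem_nhds (by positivity))
  obtain ⟨T3, hT3⟩ := eventually_atTop.mp ev3
  refine ⟨max T1 (max T2 T3), fun T hT t0 ht1 ht2 => ?_⟩
  have hTT1 : T1 ≤ T := (le_max_left _ _).trans hT
  have hTT2 : T2 ≤ T := ((le_max_left _ _).trans (le_max_right _ _)).trans hT
  have hTT3 : T3 ≤ T := ((le_max_right _ _).trans (le_max_right _ _)).trans hT
  have hTe : Real.exp 3 ≤ T := hT2.trans hTT2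
  have h1T : 1 < T := lt_of_lt_of_le (Real.one_lt_exp_iff.mpr (by norm_num)) hTe
  have hT0 : 0 < T := by linarith
  have hL : 0 < Real.log T := Real.log_pos h1T
  have a3 := hT3 T hTT3
  obtain ⟨b1, b2'⟩ := k2 T hTT2
  set α := 2 * Real.pi * τ / Real.log T with hα
  have hα0 : 0 ≤ α := by positivity
  have key := k1 T α t0 hTT1 hα0 le_rfl ht1 ht2
  set J := ∫ t in (t0 - T ^ η2)..(t0 + T ^ η2), Og (T ^ η1) t0 (2 + t * I) * gam α (2 + t * I) with hJ
  set M := M2 R T α with hM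
  set m := mom R T 0 with hm
  have hm1 : 1 ≤ m := one_le_mom h1T 0
  have hmm : 1 ≤ m ^ 2 := one_le_pow₀ hm1
  set P := ((Real.sqrt Real.pi * T ^ η1 : ℝ) : ℂ) *
        Complex.exp ((α / 2 * Real.log (T / (2 * Real.pi)) : ℝ) * I) with hP
  have hH0 : 0 < T ^ η1 := Real.rpow_pos_of_pos hT0 _
  have hmain : (M * P).im ≤ -c * m ^ 2 * (Real.sqrt Real.pi * T ^ η1) := by
    have h5 := b2' T (by linarith) (by linarith)
    have e1 : M * P = ((Real.sqrt Real.pi * T ^ η1 : ℝ) : ℂ) *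
        (Complex.exp ((psi τ T T : ℝ) * I) * M) := by
      rw [hP]
      unfold psi
      ring
    rw [e1, Complex.im_ofReal_mul]
    have h6 : 0 ≤ Real.sqrt Real.pi * T ^ η1 := by positivity
    calc _ ≤ (Real.sqrt Real.pi * T ^ η1) * (-c * m ^ 2) := mul_le_mul_of_nonneg_left h5 h6
      _ = _ := by ring
  have herr : ‖M * J - M * P‖ ≤ c * Real.sqrt Real.pi / 2 * m ^ 2 * T ^ η1 := by
    rw [← mul_sub, norm_mul]
    calc _ ≤ (2 * m ^ 2) * (C / Real.log T * T ^ η1) := by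
          apply mul_le_mul b1 key (norm_nonneg _) (by positivity)
      _ = (2 * (C / Real.log T)) * m ^ 2 * T ^ η1 := by ring
      _ ≤ _ := by gcongr
  have h12' : (M * J).im - (M * P).im ≤ c * Real.sqrt Real.pi / 2 * m ^ 2 * T ^ η1 := by
    rw [← Complex.sub_im]
    exact (le_abs_self _).trans ((Complex.abs_im_le_norm _).trans herr)
  have h13 : (M * J).im ≤ -(c * Real.sqrt Real.pi / 2 * m ^ 2 * T ^ η1) := by
    linarith only [h12', hmain]
  refine h13.trans ?_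
  have h14 : 0 ≤ c * Real.sqrt Real.pi / 2 * T ^ η1 := by positivity
  linarith only [mul_le_mul_of_nonneg_left hmm h14]

end Pool.Agent.HalfGap
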