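import Pool.Agent.ZGap.Half.Defs
import Pool.Agent.ZGap.Half.Rect

/-!
# Symmetry and signs of the residues
-/

namespace Pool.Agent.HalfGap

open Complex MeasureTheory Set Pool.Agent.Hadamard
open scoped ComplexConjugate Topology

lemma Gammaℝ_conj_aux (s : ℂ) : Gammaℝ (conj s) = conj (Gammaℝ s) := by
  rw [Gammaℝ_def, Gammaℝ_def, map_mul, ← Complex.Gamma_conj]
  congr 1
  · have h1 : ((Real.pi : ℝ) : ℂ) = conj ((Real.pi : ℝ) : ℂ) := (conj_ofReal _).symm
    have h2 : (-(conj s) / 2 : ℂ) = conj (-s / 2) := by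
      rw [map_div₀, map_neg, map_ofNat]
    rw [h2]
    conv_lhs => rw [h1]
    rw [Complex.cpow_conj _ _ (by
      rw [conj_ofReal, Complex.arg_ofReal_of_nonneg Real.pi_pos.le]
      exact Real.pi_pos.ne)]
    simp
  · rw [map_div₀, map_ofNat]

lemma xiF_conj_of_pos {s : ℂ} (hs : 0 < s.re) : xiF (conj s) = conj (xiF s) := by
  by_cases h1 : s = 1
  · rw [h1]; simp [xiF_one]
  · have h2 : conj s ≠ 1 := by
      intro h
      apply h1
      have := congrArg conj h
      simpa using this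
    rw [xiF_eq_zeta (by simpa using hs) h2, xiF_eq_zeta hs h1, Gammaℝ_conj_aux, riemannZeta_conj]
    simp

lemma xiF_conj (s : ℂ) : xiF (conj s) = conj (xiF s) := by
  rcases lt_or_ge 0 s.re with h | h
  · exact xiF_conj_of_pos h
  · have h1 : 0 < (1 - s).re := by simp; linarith
    have h2 := xiF_conj_of_pos h1
    rw [xiF_one_sub] at h2
    rw [← h2, map_sub, map_one, xiF_one_sub]

lemma xiF_refl (s : ℂ) : xiF (1 - conj s) = conj (xiF s) := by
  rw [xiF_one_sub, xiF_conj]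

/-- The real function on the critical line. -/
noncomputable def Xr (t : ℝ) : ℝ := (xiF (1 / 2 + t * I)).re

lemma xiF_half (t : ℝ) : xiF (1 / 2 + t * I) = Xr t := by
  have h1 : (1 - conj (1 / 2 + t * I) : ℂ) = 1 / 2 + t * I := by
    apply Complex.ext
    · simp; norm_num
    · simp
  have h2 := xiF_refl (1 / 2 + t * I)
  rw [h1] at h2
  have h3 := Complex.conj_eq_iff_re.mp h2.symm
  unfold Xr
  exact h3.symm

lemma Xr_hasDerivAt (t : ℝ) : HasDerivAt Xr (deriv xiF (1 / 2 + t * I) * I).re t := by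
  have h1 : HasDerivAt (fun y : ℝ => (1 / 2 : ℂ) + y * I) I t := by
    have h3 : HasDerivAt (fun y : ℝ => (y : ℂ) * I) (1 * I) t :=
      (Complex.ofRealCLM.hasDerivAt (x := t)).mul_const I
    simpa using h3.const_add (1 / 2 : ℂ)
  have h2 := HasDerivAt.comp_of_eq t (xiF_differentiable (1 / 2 + t * I)).hasDerivAt h1 rfl
  have h4 := (Complex.reCLM.hasFDerivAt.comp_hasDerivAt t h2)
  exact h4

lemma deriv_xiF_half (t : ℝ) : deriv xiF (1 / 2 + t * I) = -I * (deriv Xr t : ℝ) := by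
  have h1 : HasDerivAt (fun y : ℝ => (1 / 2 : ℂ) + y * I) I t := by
    have h3 : HasDerivAt (fun y : ℝ => (y : ℂ) * I) (1 * I) t :=
      (Complex.ofRealCLM.hasDerivAt (x := t)).mul_const I
    simpa using h3.const_add (1 / 2 : ℂ)
  have h2 := HasDerivAt.comp_of_eq t (xiF_differentiable (1 / 2 + t * I)).hasDerivAt h1 rfl
  have h3 : (xiF ∘ fun y : ℝ => (1 / 2 : ℂ) + y * I) = fun y : ℝ => ((Xr y : ℝ) : ℂ) := by
    funext y
    exact xiF_half y
  rw [h3] at h2
  have h4 : HasDerivAt (fun y : ℝ => ((Xr y : ℝ) : ℂ)) ((deriv Xr t : ℝ) : ℂ) t :=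
    (Xr_hasDerivAt t).differentiableAt.hasDerivAt.ofReal_comp
  have h5 := h2.unique h4
  rw [← h5]
  linear_combination (deriv xiF (1 / 2 + t * I)) * I_mul_I

lemma Xr_continuous : Continuous Xr := by
  have h := xiF_differentiable.continuous
  have h2 : Continuous fun t : ℝ => (1 / 2 + t * I : ℂ) := by fun_prop
  exact continuous_re.comp (h.comp h2)

/-- The sign of the residue. -/
theorem sign_ratio {g α : ℝ} (hα : 0 < α) (h0 : Xr g = 0) (hd : deriv Xr g ≠ 0)
    (hne : ∀ t ∈ Ioo g (g + α), Xr t ≠ 0) : 0 ≤ Xr (g + α) / deriv Xr g := by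
  -- reduce to a positive derivative
  have key : ∀ f : ℝ → ℝ, Continuous f → HasDerivAt f (deriv f g) g → f g = 0 → 0 < deriv f g →
      (∀ t ∈ Ioo g (g + α), f t ≠ 0) → 0 ≤ f (g + α) := by
    intro f hf hdf hf0 hpos hfne
    by_contra hcon
    push Not at hcon
    have h1 : ∀ᶠ t in 𝓝[>] g, 0 < (f t - f g) / (t - g) := by
      have h2 := hasDerivAt_iff_tendsto_slope.mp hdf
      have h3 : Filter.Tendsto (slope f g) (𝓝[>] g) (𝓝 (deriv f g)) :=
        h2.mono_left (nhdsWithin_mono _ fun x hx => ne_of_gt hx)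
      filter_upwards [h3.eventually (eventually_gt_nhds hpos)] with t ht
      rwa [slope_def_field] at ht
    have h2 : ∀ᶠ t in 𝓝[>] g, t ∈ Ioo g (g + α) := Ioo_mem_nhdsGT (by linarith)
    obtain ⟨t, ht1, ht2⟩ := (h1.and h2).exists
    have h3 : 0 < f t := by
      rw [hf0, sub_zero] at ht1
      have h4 : 0 < t - g := by linarith [ht2.1]
      exact (div_pos_iff_of_pos_right h4).mp ht1
    have h4 : (0:ℝ) ∈ Icc (f (g + α)) (f t) := ⟨hcon.le, h3.le⟩
    obtain ⟨u, hu, hu0⟩ := intermediate_value_Icc' ht2.2.le hf.continuousOn h4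
    refine hfne u ⟨lt_of_lt_of_le ht2.1 hu.1, ?_⟩ hu0
    rcases eq_or_lt_of_le hu.2 with h5 | h5
    · rw [h5] at hu0; linarith
    · exact h5
  have hdiff : HasDerivAt Xr (deriv Xr g) g := (Xr_hasDerivAt g).differentiableAt.hasDerivAt
  rcases lt_or_gt_of_ne hd with h | h
  · have h1 : HasDerivAt (fun t => -Xr t) (-deriv Xr g) g := hdiff.neg
    have h2 := key (fun t => -Xr t) Xr_continuous.neg (by rw [h1.deriv]; exact h1)
      (by simp [h0]) (by rw [h1.deriv]; linarith) (fun t ht => neg_ne_zero.mpr (hne t ht))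
    exact div_nonneg_of_nonpos (by linarith) h.le
  · exact div_nonneg (key Xr Xr_continuous hdiff h0 h hne) h.le

/-! ### Symmetry of the integrand -/

lemma fq_symm (α : ℝ) (s : ℂ) : fq α (1 - conj s) = conj (fq α s) := by
  unfold fq
  rw [map_div₀, ← xiF_refl, ← xiF_refl]
  congr 2
  rw [map_add, map_mul, conj_ofReal, conj_I]
  ring

lemma Og_refl (H t0 : ℝ) (s : ℂ) : Og H t0 (1 - conj s) = conj (Og H t0 s) := by
  unfold Og
  rw [← Complex.exp_conj]
  congr 1
  rw [map_div₀, map_pow, map_pow, conj_ofReal, map_sub, map_sub, map_mul, conj_ofReal, conj_I]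
  congr 1
  have : (conj (1 / 2 : ℂ)) = 1 / 2 := by
    rw [map_div₀, map_one, map_ofNat]
  rw [this]
  ring

lemma Og_half (H t0 t : ℝ) : Og H t0 (1 / 2 + t * I) = (Real.exp (-(t - t0) ^ 2 / H ^ 2) : ℝ) := by
  unfold Og
  rw [ofReal_exp]
  congr 1
  push_cast
  have : ((1 / 2 + t * I - 1 / 2 - t0 * I : ℂ)) ^ 2 = -((t : ℂ) - t0) ^ 2 := by
    have h1 : (1 / 2 + t * I - 1 / 2 - t0 * I : ℂ) = (t - t0) * I := by ring
    rw [h1, mul_pow, I_sq]
    ring
  rw [this]

lemma norm_Og_s (H t0 : ℝ) (s : ℂ) :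
    ‖Og H t0 s‖ = Real.exp (((s.re - 1 / 2) ^ 2 - (s.im - t0) ^ 2) / H ^ 2) := by
  unfold Og
  rw [Complex.norm_exp]
  congr 1
  have h1 : (s - 1 / 2 - t0 * I : ℂ) = ((s.re - 1 / 2 : ℝ) : ℂ) + ((s.im - t0 : ℝ) : ℂ) * I := by
    apply Complex.ext <;> simp
  rw [h1, ← ofReal_pow, div_ofReal_re]
  congr 1
  simp [sq]

lemma Og_diff (H t0 : ℝ) : Differentiable ℂ (Og H t0) := by
  unfold Og
  fun_prop

lemma fq_differentiableAt {α : ℝ} {s : ℂ} (hs : xiF s ≠ 0) : DifferentiableAt ℂ (fq α) s := by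
  unfold fq
  have h1 := xiF_differentiable
  exact (h1.comp (by fun_prop : Differentiable ℂ fun s : ℂ => s + α * I) s).div (h1 s) hs

/-- The integrand. -/
noncomputable def FF (H t0 α : ℝ) (B : ℂ → ℂ) (s : ℂ) : ℂ := Og H t0 s * B s * fq α s

lemma FF_refl {B : ℂ → ℂ} (hB : ∀ s, B (1 - conj s) = conj (B s)) (H t0 α : ℝ) (s : ℂ) :
    FF H t0 α B (1 - conj s) = conj (FF H t0 α B s) := by
  unfold FF
  rw [map_mul, map_mul, Og_refl, hB, fq_symm]

lemma FF_differentiableAt {B : ℂ → ℂ} (hB : Differentiable ℂ B) {H t0 α : ℝ} {s : ℂ}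
    (hs : xiF s ≠ 0) : DifferentiableAt ℂ (FF H t0 α B) s :=
  ((Og_diff H t0 s).mul (hB s)).mul (fq_differentiableAt hs)

/-- The horizontal integral. -/
noncomputable def hor (F : ℂ → ℂ) (y c : ℝ) : ℂ :=
  ∫ x : ℝ in (1 / 2 - y)..(1 / 2 + y), F (x + c * I)

/-- The vertical integral against the boundary integral. -/
theorem im_eq {F : ℂ → ℂ} (hF : ∀ s, F (1 - conj s) = conj (F s)) (y c d : ℝ) :
    (∫ t : ℝ in c..d, F ((1 / 2 + y : ℝ) + t * I)).im =
      -(1 / 2) * (rInt F (1 / 2 - y) (1 / 2 + y) c d).re + 1 / 2 * (hor F y c - hor F y d).re := by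
  have h1 : ∫ t : ℝ in c..d, F ((1 / 2 - y : ℝ) + t * I) =
      conj (∫ t : ℝ in c..d, F ((1 / 2 + y : ℝ) + t * I)) := by
    have h3 : conj (∫ t : ℝ in c..d, F ((1 / 2 + y : ℝ) + t * I)) =
        ∫ t : ℝ in c..d, conj (F ((1 / 2 + y : ℝ) + t * I)) := by
      rw [intervalIntegral.intervalIntegral_eq_integral_uIoc,
        intervalIntegral.intervalIntegral_eq_integral_uIoc, integral_conj]
      split_ifs <;> simp
    rw [h3]
    refine intervalIntegral.integral_congr fun t _ => ?_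
    rw [← hF]
    congr 1
    apply Complex.ext
    · simp; ring
    · simp
  unfold rInt hor
  rw [h1]
  set J := ∫ t : ℝ in c..d, F ((1 / 2 + y : ℝ) + t * I) with hJ
  set A := ∫ x : ℝ in (1 / 2 - y)..(1 / 2 + y), F (x + c * I)
  set A' := ∫ x : ℝ in (1 / 2 - y)..(1 / 2 + y), F (x + d * I)
  simp only [add_re, sub_re, mul_re, I_re, zero_mul, I_im, one_mul, conj_im, conj_re]
  ring

end Pool.Agent.HalfGap
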