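import Pool.Agent.ZGap.Half.BrLim

/-!
# The sign of the diagonal coefficient of the square of the resonator
-/

namespace Pool.Agent.HalfGap

open MeasureTheory Finset Pool.Agent.ZGap.Res Filter Topology Complex

variable {R : ResData} {T : ℝ}

/-- **The one-sided sum.** -/
theorem SS_lim {A θ ε0 : ℝ} (hA : 0 < A) (hθ : 0 < θ) (hε : 0 < ε0) :
    ∃ e : ℝ, 0 < e ∧ ∀ R : ResData, R.r = -1 → R.th = θ → R.ep ≤ e → ∀ δ : ℝ, δ ≤ e →
      LinProf R 1 0 δ → ∃ T0 : ℝ, Real.exp 3 ≤ T0 ∧ ∀ T : ℝ, T0 ≤ T →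
        ‖SS R T (A / Real.log T) - lam (A * θ) * mom R T 0‖ ≤ ε0 * mom R T 0 := by
  obtain ⟨e1, he1, h1⟩ := S0_lim hA hθ (half_pos hε)
  set Q : ℝ := (6 / θ * (θ + 1) + 5 * A) * Real.exp (A * θ + 15) with hQ
  have hQ0 : 0 < Q := by positivity
  refine ⟨min e1 (ε0 / (2 * Q)), lt_min he1 (by positivity), fun R hr hth hep δ hδe hlin => ?_⟩
  have hR2 : R.r ^ 2 = 1 := by rw [hr]; norm_num
  have hep0 := R.ep_pos
  have hep2 : R.ep ≤ 1 / 2 := by
    have := R.ep_th
    have := R.th_lt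
    linarith
  have heQ : R.ep ≤ ε0 / (2 * Q) := hep.trans (min_le_right _ _)
  have hδQ : δ ≤ ε0 / (2 * Q) := hδe.trans (min_le_right _ _)
  obtain ⟨T1, hT1, g1⟩ := h1 R hR2 hth (hep.trans (min_le_left _ _))
  obtain ⟨T2, hT2, g2⟩ := layer_v R (δ := δ) (η := ε0 / (2 * Q)) hlin.hδ hlin.hδ' (by positivity)
  obtain ⟨T3, hT3, g3⟩ := small_wt hep0 hep2
  refine ⟨max T1 (max T2 T3), hT1.trans (le_max_left _ _), fun T hT => ?_⟩
  have k1 := g1 T ((le_max_left _ _).trans hT)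
  have k2 := g2 T (((le_max_left _ _).trans (le_max_right _ _)).trans hT)
  have k3 := g3 T (((le_max_right _ _).trans (le_max_right _ _)).trans hT)
  have hTe : Real.exp 3 ≤ T := hT1.trans ((le_max_left _ _).trans hT)
  have h1T : 1 < T := lt_of_lt_of_le (Real.one_lt_exp_iff.mpr (by norm_num)) hTe
  have hL : 0 < Real.log T := Real.log_pos h1T
  set α := A / Real.log T with hα
  have hα0 : 0 ≤ α := by positivity
  set v := vv R T α with hv
  set v' := vv' R T α with hv'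
  set m := mom R T 0 with hm
  have hm0 : 0 ≤ m := mom_nonneg h1T 0
  have k4 := k2 v (fun p _ => vv_nonneg α p) (fun p _ => vv_le hr α p)
  -- the small primes
  have s1 : ∑ p ∈ PP T, (if xi T p ≤ 2 * R.ep then v p else 0) ≤ 15 := by
    calc _ ≤ ∑ p ∈ PP T, 3 / R.ep * (if xi T p ≤ 2 * R.ep then wt T p else 0) := by
          refine sum_le_sum fun p hp => ?_
          have hp0 : (0:ℝ) < p := by exact_mod_cast (mem_PP.mp hp).1.pos
          split_ifs with h
          · refine (vv_le hr α p).trans ?_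
            by_cases hf : R.f (xi T p) = 0
            · rw [hf]
              have := wt_nonneg h1T p
              have : 0 ≤ 3 / R.ep * wt T p := by positivity
              simpa using this
            · have h3 : R.ep < Real.log p / Real.log T := large_of_f_ne h1T hf
              have h4 := R.f_le (xi T p)
              calc 3 * R.f (xi T p) / p ≤ 3 * 1 / p := by gcongr
                _ = 3 / R.ep * (R.ep / p) := by field_simp
                _ ≤ 3 / R.ep * wt T p := by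
                    apply mul_le_mul_of_nonneg_left _ (by positivity)
                    unfold wt
                    calc R.ep / p ≤ (Real.log p / Real.log T) / p := by gcongr
                      _ = _ := by field_simp
          · simp
      _ = 3 / R.ep * ∑ p ∈ PP T, (if xi T p ≤ 2 * R.ep then wt T p else 0) := by rw [mul_sum]
      _ ≤ 3 / R.ep * (5 * R.ep) := by gcongr
      _ = 15 := by field_simp; norm_num
  have s2 : ∑ q ∈ PP T, (if xi T q < R.th then v q - v' q else 0) ≤ A * (5 * R.ep) := by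
    calc _ ≤ ∑ p ∈ PP T, A * (if xi T p ≤ 2 * R.ep then wt T p else 0) := by
          refine sum_le_sum fun p hp => ?_
          have hp0 : (0:ℝ) < p := by exact_mod_cast (mem_PP.mp hp).1.pos
          have hw := wt_nonneg h1T p
          have e5 : v p - v' p = (R.f (xi T p) - R.f (xi T p) ^ 2) * ‖hh α p‖ := by
            rw [hv, hv']; unfold vv vv'; ring
          by_cases hx : xi T p ≤ 2 * R.ep
          · rw [if_pos hx]
            split_ifs with h
            · rw [e5, norm_hh]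
              have a1 := R.f_nonneg (xi T p)
              have a2 := R.f_le (xi T p)
              have a3 : R.f (xi T p) - R.f (xi T p) ^ 2 ≤ 1 := by linarith only [a2, sq_nonneg (R.f (xi T p))]
              have a4 := norm_one_sub_zp_le_log hα0 p
              calc (R.f (xi T p) - R.f (xi T p) ^ 2) * (‖1 - zp α p‖ / p) ≤
                    1 * (α * Real.log p / p) := by gcongr
                _ = A * wt T p := by rw [hα]; unfold wt; field_simp
            · positivity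
          · rw [if_neg hx, mul_zero]
            split_ifs with h
            · rw [e5, R.f_mid _ (not_le.mp hx).le h.le]
              norm_num
            · exact le_rfl
      _ = A * ∑ p ∈ PP T, (if xi T p ≤ 2 * R.ep then wt T p else 0) := by rw [mul_sum]
      _ ≤ _ := by gcongr
  have b1 := bv_le_mom (R := R) hr h1T hA.le s1
  have b2 := bv_sub_le (R := R) h1T (v := v) (v' := v') (fun p _ => vv'_nonneg α p)
    (fun p _ => vv'_le α p) s2
  have b3 := norm_SS_sub_S0_le hr hlin h1T α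
  have hB0 : 0 ≤ bv R T v (tp 0) := bv_nonneg h1T (fun p _ => vv_nonneg α p) fun u _ => tp_nonneg 0 u
  rw [hth] at k4 b1
  have c1 : ‖SS R T α - S0 R T α‖ ≤ ε0 / 2 * m := by
    calc ‖SS R T α - S0 R T α‖ ≤ bv R T v (ly δ) + (bv R T v (tp 0) - bv R T v' (tp 0)) := b3
      _ ≤ 6 / θ * (θ * δ + ε0 / (2 * Q)) * bv R T v (tp 0) + A * (5 * R.ep) * bv R T v (tp 0) :=
          add_le_add k4 b2
      _ = (6 / θ * (θ * δ + ε0 / (2 * Q)) + A * (5 * R.ep)) * bv R T v (tp 0) := by ring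
      _ ≤ (6 / θ * (θ * (ε0 / (2 * Q)) + ε0 / (2 * Q)) + A * (5 * (ε0 / (2 * Q)))) *
            (Real.exp (A * θ + 15) * m) := by
          apply mul_le_mul _ b1 hB0 (by positivity)
          gcongr
      _ = (ε0 / (2 * Q)) * ((6 / θ * (θ + 1) + 5 * A) * Real.exp (A * θ + 15)) * m := by ring
      _ = ε0 / 2 * m := by
          rw [← hQ]
          field_simp
  calc ‖SS R T α - lam (A * θ) * m‖ = ‖(SS R T α - S0 R T α) + (S0 R T α - lam (A * θ) * m)‖ := by
        congr 1; ring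
    _ ≤ ‖SS R T α - S0 R T α‖ + ‖S0 R T α - lam (A * θ) * m‖ := norm_add_le _ _
    _ ≤ ε0 / 2 * m + ε0 / 2 * m := add_le_add c1 k1
    _ = ε0 * m := by ring

/-- **The diagonal coefficient of the square of the resonator.** -/
theorem M2_lim {A θ ε0 : ℝ} (hA : 0 < A) (hθ : 0 < θ) (hε : 0 < ε0) :
    ∃ e : ℝ, 0 < e ∧ ∀ R : ResData, R.r = -1 → R.th = θ → R.ep ≤ e → ∀ δ : ℝ, δ ≤ e →
      LinProf R 1 0 δ → ∃ T0 : ℝ, Real.exp 3 ≤ T0 ∧ ∀ T : ℝ, T0 ≤ T →
        ‖M2 R T (A / Real.log T) - lam (A * θ) ^ 2 * mom R T 0 ^ 2‖ ≤ ε0 * mom R T 0 ^ 2 := by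
  set ε1 := min 1 (ε0 / 4) with hε1
  have hε1p : 0 < ε1 := lt_min one_pos (by positivity)
  obtain ⟨e, he, h1⟩ := SS_lim hA hθ hε1p
  refine ⟨e, he, fun R hr hth hep δ hδe hlin => ?_⟩
  obtain ⟨T1, hT1, g1⟩ := h1 R hr hth hep δ hδe hlin
  have hep0 := R.ep_pos
  have ev : ∀ᶠ T : ℝ in atTop, 54 / R.ep * Real.exp (18 / R.ep) * T ^ (-R.ep) ≤ ε0 / 4 := by
    have h2 : Tendsto (fun T : ℝ => 54 / R.ep * Real.exp (18 / R.ep) * T ^ (-R.ep)) atTop (𝓝 0) := by
      have := (tendsto_rpow_neg_atTop hep0).const_mul (54 / R.ep * Real.exp (18 / R.ep))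
      rwa [mul_zero] at this
    exact h2.eventually (ge_mem_nhds (by positivity))
  obtain ⟨T2, hT2⟩ := eventually_atTop.mp ev
  refine ⟨max T1 T2, hT1.trans (le_max_left _ _), fun T hT => ?_⟩
  have k1 := g1 T ((le_max_left _ _).trans hT)
  have k2 := hT2 T ((le_max_right _ _).trans hT)
  have hTe : Real.exp 3 ≤ T := hT1.trans ((le_max_left _ _).trans hT)
  have h1T : 1 < T := lt_of_lt_of_le (Real.one_lt_exp_iff.mpr (by norm_num)) hTe
  have k3 := norm_M2_sub_le (R := R) hr hTe (fun x hx => hlin.F_le_one hx) (A / Real.log T)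
  set m := mom R T 0 with hm
  have hm1 : 1 ≤ m := one_le_mom h1T 0
  have hm0 : 0 ≤ m := by linarith
  have hmm : 1 ≤ m ^ 2 := one_le_pow₀ hm1
  set S := SS R T (A / Real.log T) with hS
  set l := lam (A * θ) with hl
  have hl1 : ‖l‖ ≤ 1 := norm_lam_le _
  have hS1 : ‖S‖ ≤ 2 * m := by
    have : S = (S - l * m) + l * m := by ring
    rw [this]
    refine (norm_add_le _ _).trans ?_
    have a1 : ‖l * (m:ℂ)‖ ≤ m := by
      rw [norm_mul, Complex.norm_real, Real.norm_eq_abs, abs_of_nonneg hm0]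
      exact mul_le_of_le_one_left hm0 hl1
    have a2 : ε1 * m ≤ 1 * m := mul_le_mul_of_nonneg_right (min_le_left _ _) hm0
    linarith
  have c1 : ‖S ^ 2 - l ^ 2 * (m:ℂ) ^ 2‖ ≤ 3 * (ε1 * m ^ 2) := by
    have e1 : S ^ 2 - l ^ 2 * (m:ℂ) ^ 2 = (S - l * m) * (S + l * m) := by ring
    rw [e1, norm_mul]
    have a1 : ‖l * (m:ℂ)‖ ≤ m := by
      rw [norm_mul, Complex.norm_real, Real.norm_eq_abs, abs_of_nonneg hm0]
      exact mul_le_of_le_one_left hm0 hl1
    calc ‖S - l * m‖ * ‖S + l * m‖ ≤ (ε1 * m) * (2 * m + m) := by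
          apply mul_le_mul k1 _ (norm_nonneg _) (by positivity)
          exact (norm_add_le _ _).trans (add_le_add hS1 a1)
      _ = _ := by ring
  have hεle : ε1 ≤ ε0 / 4 := min_le_right _ _
  calc ‖M2 R T (A / Real.log T) - l ^ 2 * (m:ℂ) ^ 2‖
      = ‖(M2 R T (A / Real.log T) - S ^ 2) + (S ^ 2 - l ^ 2 * (m:ℂ) ^ 2)‖ := by congr 1; ring
    _ ≤ ‖M2 R T (A / Real.log T) - S ^ 2‖ + ‖S ^ 2 - l ^ 2 * (m:ℂ) ^ 2‖ := norm_add_le _ _
    _ ≤ ε0 / 4 + 3 * (ε1 * m ^ 2) := add_le_add (k3.trans k2) c1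
    _ ≤ ε0 / 4 * m ^ 2 + 3 * (ε0 / 4 * m ^ 2) := by
        apply add_le_add
        · exact le_mul_of_one_le_right (by positivity) hmm
        · gcongr
    _ = ε0 * m ^ 2 := by ring

/-- The phase of the archimedean factor. -/
noncomputable def psi (τ T t : ℝ) : ℝ :=
  2 * Real.pi * τ / Real.log T / 2 * Real.log (t / (2 * Real.pi))

lemma psi_lim {τ ε0 : ℝ} (hτ : 0 < τ) (hε : 0 < ε0) : ∃ T0 : ℝ, Real.exp 3 ≤ T0 ∧ ∀ T : ℝ, T0 ≤ T →
    ∀ t : ℝ, T / 8 ≤ t → t ≤ 8 * T → |psi τ T t - Real.pi * τ| ≤ ε0 := by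
  set C := Real.pi * τ * (Real.log 8 + Real.log (2 * Real.pi)) with hC
  have hpi := Real.pi_pos
  have hlp : 0 ≤ Real.log (2 * Real.pi) := Real.log_nonneg (by
    have := Real.pi_gt_three
    linarith)
  have hl8 : 0 ≤ Real.log 8 := Real.log_nonneg (by norm_num)
  have hC0 : 0 ≤ C := by positivity
  refine ⟨max (Real.exp 3) (Real.exp (C / ε0)), le_max_left _ _, fun T hT t h1 h2 => ?_⟩
  have hTe : Real.exp 3 ≤ T := (le_max_left _ _).trans hT
  have h1T : 1 < T := lt_of_lt_of_le (Real.one_lt_exp_iff.mpr (by norm_num)) hTe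
  have hT0 : 0 < T := by linarith
  have hL : 0 < Real.log T := Real.log_pos h1T
  have hLC : C / ε0 ≤ Real.log T := by
    rw [Real.le_log_iff_exp_le hT0]
    exact (le_max_right _ _).trans hT
  have ht0 : 0 < t := by linarith
  have e1 : psi τ T t - Real.pi * τ = Real.pi * τ * ((Real.log t - Real.log T) - Real.log (2 * Real.pi)) /
      Real.log T := by
    unfold psi
    rw [Real.log_div ht0.ne' (by positivity)]
    field_simp
    ring
  have h3 : |Real.log t - Real.log T| ≤ Real.log 8 := by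
    rw [abs_le]
    constructor
    · have := Real.log_le_log (by positivity) h1
      rw [Real.log_div hT0.ne' (by norm_num)] at this
      linarith
    · have := Real.log_le_log ht0 h2
      rw [Real.log_mul (by norm_num) hT0.ne'] at this
      linarith
  rw [e1, abs_div, abs_of_pos hL, div_le_iff₀ hL, abs_mul, abs_of_pos (by positivity : 0 < Real.pi * τ)]
  have h4 : |(Real.log t - Real.log T) - Real.log (2 * Real.pi)| ≤ Real.log 8 + Real.log (2 * Real.pi) := by
    refine (abs_sub _ _).trans ?_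
    rw [abs_of_nonneg hlp]
    linarith
  calc _ ≤ Real.pi * τ * (Real.log 8 + Real.log (2 * Real.pi)) := by gcongr
    _ = C := hC.symm
    _ = ε0 * (C / ε0) := by field_simp
    _ ≤ ε0 * Real.log T := by gcongr

/-- **The sign of the main term.** -/
theorem main_sign2 {τ θ : ℝ} (h1 : 1 / 2 < τ) (h2 : τ < 1) (hθ : 0 < θ) (hθ' : θ < 1 / 2)
    (h3 : 1 < τ * (1 + 2 * θ)) : ∃ c : ℝ, 0 < c ∧ ∃ e : ℝ, 0 < e ∧ ∀ R : ResData, R.r = -1 →
      R.th = θ → R.ep ≤ e → ∀ δ : ℝ, δ ≤ e → LinProf R 1 0 δ →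
      ∃ T0 : ℝ, Real.exp 3 ≤ T0 ∧ ∀ T : ℝ, T0 ≤ T →
        ‖M2 R T (2 * Real.pi * τ / Real.log T)‖ ≤ 2 * mom R T 0 ^ 2 ∧
        ∀ t : ℝ, T / 8 ≤ t → t ≤ 8 * T →
        (Complex.exp ((psi τ T t : ℝ) * I) * M2 R T (2 * Real.pi * τ / Real.log T)).im ≤
          -c * mom R T 0 ^ 2 := by
  have hpi := Real.pi_pos
  have hτ : 0 < τ := by linarith
  set φ := 2 * Real.pi * τ * θ with hφ
  have hφ0 : 0 < φ := by positivity
  -- the sinc factor
  have hs0 : 0 < Real.sin (φ / 2) := by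
    apply Real.sin_pos_of_pos_of_lt_pi (by positivity)
    rw [hφ]
    have : τ * θ < 1 := by nlinarith
    nlinarith
  set σ := Real.sin (φ / 2) / (φ / 2) with hσ
  have hσ0 : 0 < σ := by positivity
  have hsn : Real.sin (Real.pi * τ + φ) < 0 := by
    have e1 : Real.pi * τ + φ = Real.pi * (τ * (1 + 2 * θ)) := by rw [hφ]; ring
    have e2 : Real.sin (Real.pi * (τ * (1 + 2 * θ))) =
        -Real.sin (Real.pi * (τ * (1 + 2 * θ)) - Real.pi) := by
      rw [Real.sin_sub_pi]; ring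
    rw [e1, e2, neg_lt_zero]
    apply Real.sin_pos_of_pos_of_lt_pi
    · nlinarith
    · have : τ * (1 + 2 * θ) < 2 := by nlinarith
      nlinarith
  set c0 := -(σ ^ 2 * Real.sin (Real.pi * τ + φ)) with hc0
  have hc0p : 0 < c0 := by
    rw [hc0, neg_pos]
    exact mul_neg_of_pos_of_neg (by positivity) hsn
  set ε0 := min 1 (c0 / 6) with hε0
  have hε0p : 0 < ε0 := lt_min one_pos (by positivity)
  obtain ⟨e, he, g1⟩ := M2_lim (A := 2 * Real.pi * τ) (by positivity) hθ hε0p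
  refine ⟨c0 / 2, by positivity, e, he, fun R hr hth hep δ hδe hlin => ?_⟩
  obtain ⟨T1, hT1, k1⟩ := g1 R hr hth hep δ hδe hlin
  obtain ⟨T2, hT2, k2⟩ := psi_lim hτ hε0p
  refine ⟨max T1 T2, hT1.trans (le_max_left _ _), fun T hT => ?_⟩
  have q1 := k1 T ((le_max_left _ _).trans hT)
  have hTe : Real.exp 3 ≤ T := hT1.trans ((le_max_left _ _).trans hT)
  have h1T : 1 < T := lt_of_lt_of_le (Real.one_lt_exp_iff.mpr (by norm_num)) hTe
  set m := mom R T 0 with hm
  set M := M2 R T (2 * Real.pi * τ / Real.log T) with hM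
  rw [← hφ] at q1
  have hl1 : ‖lam φ‖ ≤ 1 := norm_lam_le _
  have hm2 : 0 ≤ m ^ 2 := sq_nonneg _
  have hMn : ‖M‖ ≤ 2 * m ^ 2 := by
    have e1 : M = (M - lam φ ^ 2 * (m:ℂ) ^ 2) + lam φ ^ 2 * (m:ℂ) ^ 2 := by ring
    rw [e1]
    refine (norm_add_le _ _).trans ?_
    have a1 : ‖lam φ ^ 2 * (m:ℂ) ^ 2‖ ≤ m ^ 2 := by
      rw [norm_mul, norm_pow, norm_pow, Complex.norm_real, Real.norm_eq_abs, sq_abs]
      have : ‖lam φ‖ ^ 2 ≤ 1 := pow_le_one₀ (norm_nonneg _) hl1
      exact mul_le_of_le_one_left hm2 this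
    have a2 : ε0 * m ^ 2 ≤ 1 * m ^ 2 := mul_le_mul_of_nonneg_right (min_le_left _ _) hm2
    linarith
  refine ⟨hMn, fun t ht1 ht2 => ?_⟩
  have q2 := k2 T ((le_max_right _ _).trans hT) t ht1 ht2
  set ψ := psi τ T t with hψ
  -- compare
  have hexp : ‖Complex.exp ((ψ : ℝ) * I) - Complex.exp ((Real.pi * τ : ℝ) * I)‖ ≤ ε0 := by
    have e1 : Complex.exp ((ψ : ℝ) * I) - Complex.exp ((Real.pi * τ : ℝ) * I) =
        Complex.exp ((Real.pi * τ : ℝ) * I) * (Complex.exp (I * ((ψ - Real.pi * τ : ℝ) : ℂ)) - 1) := by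
      rw [mul_sub, ← Complex.exp_add, mul_one]
      congr 2
      push_cast
      ring
    rw [e1, norm_mul, Complex.norm_exp_ofReal_mul_I, one_mul]
    refine (Real.norm_exp_I_mul_ofReal_sub_one_le).trans ?_
    rw [Real.norm_eq_abs]
    exact q2
  have hdiff : ‖Complex.exp ((ψ : ℝ) * I) * M - Complex.exp ((Real.pi * τ : ℝ) * I) *
      (lam φ ^ 2 * (m:ℂ) ^ 2)‖ ≤ 3 * ε0 * m ^ 2 := by
    have e1 : Complex.exp ((ψ : ℝ) * I) * M - Complex.exp ((Real.pi * τ : ℝ) * I) *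
        (lam φ ^ 2 * (m:ℂ) ^ 2) =
        (Complex.exp ((ψ : ℝ) * I) - Complex.exp ((Real.pi * τ : ℝ) * I)) * M +
        Complex.exp ((Real.pi * τ : ℝ) * I) * (M - lam φ ^ 2 * (m:ℂ) ^ 2) := by ring
    rw [e1]
    refine (norm_add_le _ _).trans ?_
    rw [norm_mul, norm_mul, Complex.norm_exp_ofReal_mul_I, one_mul]
    calc _ ≤ ε0 * (2 * m ^ 2) + ε0 * m ^ 2 := by
          apply add_le_add _ q1
          exact mul_le_mul hexp hMn (norm_nonneg _) hε0p.le
      _ = _ := by ring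
  have hmain : (Complex.exp ((Real.pi * τ : ℝ) * I) * (lam φ ^ 2 * (m:ℂ) ^ 2)).im = -c0 * m ^ 2 := by
    have e1 : Complex.exp ((Real.pi * τ : ℝ) * I) * (lam φ ^ 2 * (m:ℂ) ^ 2) =
        ((σ ^ 2 * m ^ 2 : ℝ) : ℂ) * Complex.exp ((Real.pi * τ + φ : ℝ) * I) := by
      unfold lam
      rw [← hσ, mul_pow, ← Complex.exp_nat_mul]
      have e2 : Complex.exp ((Real.pi * τ + φ : ℝ) * I) = Complex.exp ((Real.pi * τ : ℝ) * I) *
          Complex.exp (((2:ℕ) : ℂ) * (((φ / 2 : ℝ) : ℂ) * I)) := by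
        rw [← Complex.exp_add]
        congr 1
        push_cast
        ring
      rw [e2]
      push_cast
      ring
    rw [e1, Complex.im_ofReal_mul, Complex.exp_ofReal_mul_I_im, hc0]
    ring
  have him : |(Complex.exp ((ψ : ℝ) * I) * M).im - (Complex.exp ((Real.pi * τ : ℝ) * I) *
      (lam φ ^ 2 * (m:ℂ) ^ 2)).im| ≤ 3 * ε0 * m ^ 2 := by
    rw [← Complex.sub_im]
    exact (Complex.abs_im_le_norm _).trans hdiff
  rw [hmain, abs_le] at him
  have hεc : ε0 ≤ c0 / 6 := min_le_right _ _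
  have : 3 * ε0 * m ^ 2 ≤ c0 / 2 * m ^ 2 := by
    apply mul_le_mul_of_nonneg_right _ hm2
    linarith
  linarith [him.2]

end Pool.Agent.HalfGap
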