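import Mathlib

/-!
# The sum of `μ²(k) k^{-1+iα}`
-/

namespace Pool.Agent.HalfGap

open Complex Finset
open scoped ArithmeticFunction.Moebius ArithmeticFunction.zeta

lemma sq_dvd_iff {a b d : ℕ} (hb : Squarefree b) (ha : a ≠ 0) : d ^ 2 ∣ a ^ 2 * b ↔ d ∣ a := by
  constructor
  · intro h
    have hb0 : b ≠ 0 := hb.ne_zero
    have hd0 : d ≠ 0 := by
      rintro rfl
      rw [zero_pow (by norm_num), zero_dvd_iff] at h
      exact (mul_ne_zero (pow_ne_zero 2 ha) hb0) h
    rw [← Nat.factorization_le_iff_dvd hd0 ha]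
    rw [← Nat.factorization_le_iff_dvd (pow_ne_zero 2 hd0) (mul_ne_zero (pow_ne_zero 2 ha) hb0)] at h
    intro p
    have h1 := h p
    rw [Nat.factorization_mul (pow_ne_zero 2 ha) hb0, Nat.factorization_pow, Nat.factorization_pow,
      Finsupp.add_apply] at h1
    simp only [Finsupp.smul_apply, smul_eq_mul] at h1
    have h2 := hb.natFactorization_le_one p
    omega
  · intro h
    exact (pow_dvd_pow_of_dvd h 2).mul_right b

lemma sum_moebius_sq (k : ℕ) (hk : 1 ≤ k) {X : ℕ} (hkX : k ≤ X) :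
    ((μ k : ℤ) : ℂ) ^ 2 = ∑ d ∈ Icc 1 X, (if d ^ 2 ∣ k then ((μ d : ℤ) : ℂ) else 0) := by
  obtain ⟨b, a, hab, hb⟩ := Nat.sq_mul_squarefree k
  have ha0 : a ≠ 0 := by rintro rfl; simp at hab; omega
  have h1 : ∑ d ∈ Icc 1 X, (if d ^ 2 ∣ k then ((μ d : ℤ) : ℂ) else 0) =
      ∑ d ∈ a.divisors, ((μ d : ℤ) : ℂ) := by
    rw [← Finset.sum_filter]
    apply Finset.sum_congr _ fun _ _ => rfl
    ext d
    rw [mem_filter, mem_Icc, Nat.mem_divisors, ← hab, sq_dvd_iff hb ha0]
    constructor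
    · rintro ⟨_, h⟩; exact ⟨h, ha0⟩
    · rintro ⟨h, _⟩
      have hd1 := Nat.pos_of_dvd_of_pos h (Nat.pos_of_ne_zero ha0)
      have hd2 := Nat.le_of_dvd (Nat.pos_of_ne_zero ha0) h
      have h3 : a ≤ k := by
        rw [← hab]
        have hb1 := Nat.pos_of_ne_zero hb.ne_zero
        have ha1 := Nat.pos_of_ne_zero ha0
        nlinarith
      exact ⟨⟨hd1, by omega⟩, h⟩
  rw [h1]
  have h2 : ∑ d ∈ a.divisors, ((μ d : ℤ) : ℂ) = if a = 1 then 1 else 0 := by
    have h3 := congrArg (fun f : ArithmeticFunction ℤ => f a) ArithmeticFunction.moebius_mul_coe_zeta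
    simp only [ArithmeticFunction.mul_apply, ArithmeticFunction.one_apply] at h3
    rw [← Int.cast_sum]
    have h4 : ∑ d ∈ a.divisors, μ d = if a = 1 then 1 else 0 := by
      rw [← h3, Nat.sum_divisorsAntidiagonal (f := fun x y => μ x * (ζ : ArithmeticFunction ℤ) y)]
      refine Finset.sum_congr rfl fun d hd => ?_
      have hd' := Nat.div_pos (Nat.divisor_le hd) (Nat.pos_of_mem_divisors hd)
      rw [ArithmeticFunction.natCoe_apply, ArithmeticFunction.zeta_apply, if_neg (by omega)]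
      simp
    rw [h4]
    split_ifs <;> simp
  rw [h2]
  by_cases h : a = 1
  · rw [if_pos h]
    subst h
    rw [one_pow, one_mul] at hab
    rw [← hab]
    have := ArithmeticFunction.moebius_sq_eq_one_of_squarefree hb
    exact_mod_cast this
  · rw [if_neg h]
    have hns : ¬ Squarefree k := by
      intro hs
      apply h
      have : a * a ∣ k := by rw [← hab, ← sq]; exact dvd_mul_right _ _
      exact Nat.isUnit_iff.mp (hs a this)
    rw [ArithmeticFunction.moebius_eq_zero_of_not_squarefree hns]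
    simp

/-- `(x^{iα} - 1)/(iα)` -/
noncomputable def Lf (α x : ℝ) : ℂ := (Complex.exp (α * Real.log x * I) - 1) / (α * I)

lemma norm_exp_sub_exp_le (x y : ℝ) : ‖Complex.exp (x * I) - Complex.exp (y * I)‖ ≤ |x - y| := by
  have h1 : Complex.exp (x * I) - Complex.exp (y * I) =
      Complex.exp (y * I) * (Complex.exp (((x - y : ℝ) : ℂ) * I) - 1) := by
    rw [mul_sub, ← Complex.exp_add, mul_one]
    congr 2
    push_cast
    ring
  rw [h1, norm_mul, Complex.norm_exp_ofReal_mul_I, one_mul]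
  have h2 := Real.norm_exp_I_mul_ofReal_sub_one_le (x := x - y)
  rw [mul_comm] at h2
  simpa using h2

lemma Lf_sub_le {α x y : ℝ} (hα : 0 < α) (hx : 0 < x) (hxy : x ≤ y) :
    ‖Lf α y - Lf α x‖ ≤ Real.log y - Real.log x := by
  unfold Lf
  rw [← sub_div, norm_div]
  have h1 : ‖(α * I : ℂ)‖ = α := by
    rw [norm_mul, Complex.norm_I, mul_one, Complex.norm_real, Real.norm_of_nonneg hα.le]
  rw [h1, div_le_iff₀ hα]
  have h2 := norm_exp_sub_exp_le (α * Real.log y) (α * Real.log x)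
  have h3 : Real.log x ≤ Real.log y := Real.log_le_log hx hxy
  push_cast at h2
  have h4 : Complex.exp (α * Real.log y * I) - 1 - (Complex.exp (α * Real.log x * I) - 1) =
      Complex.exp (α * Real.log y * I) - Complex.exp (α * Real.log x * I) := by ring
  rw [h4]
  refine h2.trans (le_of_eq ?_)
  rw [← mul_sub, abs_of_nonneg (mul_nonneg hα.le (by linarith))]
  ring

lemma Lf_one (α : ℝ) : Lf α 1 = 0 := by simp [Lf]

lemma norm_Lf_le {α x : ℝ} (hα : 0 < α) (hx : 1 ≤ x) : ‖Lf α x‖ ≤ Real.log x := by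
  have := Lf_sub_le hα one_pos hx
  rwa [Lf_one, sub_zero, Real.log_one, sub_zero] at this

lemma cpow_eq_exp {α : ℝ} {j : ℕ} (hj : 1 ≤ j) :
    (j : ℂ) ^ (-1 + α * I : ℂ) = (1 / (j:ℝ) : ℝ) * Complex.exp (α * Real.log j * I) := by
  have hj0 : (j : ℂ) ≠ 0 := by exact_mod_cast (by omega : j ≠ 0)
  have hjr : (0:ℝ) < j := by exact_mod_cast hj
  rw [Complex.cpow_add _ _ hj0, Complex.cpow_neg_one, Complex.cpow_def_of_ne_zero hj0,
    ← Complex.ofReal_natCast, ← Complex.ofReal_log hjr.le]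
  push_cast
  rw [one_div]
  congr 2
  ring

lemma step_le {α : ℝ} (hα : 0 < α) (hα1 : α ≤ 1) {j : ℕ} (hj : 1 ≤ j) :
    ‖(j : ℂ) ^ (-1 + α * I : ℂ) - (Lf α (j + 1) - Lf α j)‖ ≤ 2 / (j:ℝ) ^ 2 := by
  have hjr : (1:ℝ) ≤ j := by exact_mod_cast hj
  have hj0 : (0:ℝ) < j := by linarith
  set D := Real.log ((j:ℝ) + 1) - Real.log j with hD
  have hD1 : D = Real.log (1 + 1 / j) := by
    rw [hD, ← Real.log_div (by positivity) (by positivity)]
    congr 1
    field_simp
  have hDle : D ≤ 1 / j := by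
    rw [hD1]
    have := Real.log_le_sub_one_of_pos (show (0:ℝ) < 1 + 1 / j by positivity)
    linarith
  have hDge : 1 / (j:ℝ) - 1 / (j:ℝ) ^ 2 ≤ D := by
    rw [hD1]
    have h1 := Real.one_sub_inv_le_log_of_pos (show (0:ℝ) < 1 + 1 / j by positivity)
    have h2 : 1 / (j:ℝ) - 1 / (j:ℝ) ^ 2 ≤ 1 - (1 + 1 / (j:ℝ))⁻¹ := by
      have h3 : 1 - (1 + 1 / (j:ℝ))⁻¹ = 1 / (j + 1) := by field_simp; ring
      rw [h3]
      rw [div_sub_div _ _ (by positivity) (by positivity), div_le_div_iff₀ (by positivity) (by positivity)]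
      nlinarith [mul_pos hj0 hj0]
    linarith
  have hD0 : 0 ≤ D := by
    rw [hD1]
    exact Real.log_nonneg (by have : (0:ℝ) < 1 / j := by positivity
                              linarith)
  have e1 : Lf α (j + 1) - Lf α j = Complex.exp (α * Real.log j * I) *
      ((Complex.exp ((α * D : ℝ) * I) - 1) / (α * I)) := by
    unfold Lf
    rw [← sub_div, ← mul_div_assoc]
    congr 1
    rw [mul_sub, ← Complex.exp_add, mul_one]
    have h4 : (α * Real.log j * I + ((α * D : ℝ) : ℂ) * I : ℂ) = α * Real.log (j + 1) * I := by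
      rw [hD]
      push_cast
      ring
    rw [h4]
    ring
  rw [cpow_eq_exp hj, e1, mul_comm (((1 / (j:ℝ) : ℝ)) : ℂ), ← mul_sub, norm_mul]
  have e2 : ‖Complex.exp (α * Real.log j * I)‖ = 1 := by
    have := Complex.norm_exp_ofReal_mul_I (α * Real.log j)
    rw [Complex.ofReal_mul] at this
    exact this
  rw [e2, one_mul]
  have hz : ‖((α * D : ℝ) : ℂ) * I‖ ≤ 1 := by
    rw [norm_mul, Complex.norm_I, mul_one, Complex.norm_real, Real.norm_of_nonneg (by positivity)]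
    have : 1 / (j:ℝ) ≤ 1 := by rw [div_le_one hj0]; exact hjr
    nlinarith
  have h5 := Complex.norm_exp_sub_one_sub_id_le hz
  have h6 : ‖((α * D : ℝ) : ℂ) * I‖ = α * D := by
    rw [norm_mul, Complex.norm_I, mul_one, Complex.norm_real, Real.norm_of_nonneg (by positivity)]
  rw [h6] at h5
  have hαI : (α * I : ℂ) ≠ 0 := mul_ne_zero (by exact_mod_cast hα.ne') Complex.I_ne_zero
  have e3 : ((1 / (j:ℝ) : ℝ) : ℂ) - (Complex.exp ((α * D : ℝ) * I) - 1) / (α * I) =
      ((1 / (j:ℝ) - D : ℝ) : ℂ) - (Complex.exp ((α * D : ℝ) * I) - 1 - ((α * D : ℝ) : ℂ) * I) / (α * I) := by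
    have : ((α * D : ℝ) : ℂ) * I / (α * I) = D := by
      have hαc : (α : ℂ) ≠ 0 := by exact_mod_cast hα.ne'
      push_cast
      field_simp
    rw [sub_div _ (((α * D : ℝ) : ℂ) * I), this]
    push_cast
    ring
  rw [e3]
  refine (norm_sub_le _ _).trans ?_
  have h7 : ‖((1 / (j:ℝ) - D : ℝ) : ℂ)‖ ≤ 1 / (j:ℝ) ^ 2 := by
    rw [Complex.norm_real, Real.norm_of_nonneg (by linarith)]
    linarith
  have h8 : ‖(Complex.exp ((α * D : ℝ) * I) - 1 - ((α * D : ℝ) : ℂ) * I) / (α * I)‖ ≤ 1 / (j:ℝ) ^ 2 := by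
    rw [norm_div]
    have h9 : ‖(α * I : ℂ)‖ = α := by
      rw [norm_mul, Complex.norm_I, mul_one, Complex.norm_real, Real.norm_of_nonneg hα.le]
    rw [h9, div_le_iff₀ hα]
    refine h5.trans ?_
    have h10 : D ^ 2 ≤ (1 / (j:ℝ)) ^ 2 := pow_le_pow_left₀ hD0 hDle 2
    calc (α * D) ^ 2 = α * α * D ^ 2 := by ring
      _ ≤ α * 1 * (1 / (j:ℝ)) ^ 2 := by gcongr
      _ = 1 / (j:ℝ) ^ 2 * α := by ring
  have : 2 / (j:ℝ) ^ 2 = 1 / (j:ℝ) ^ 2 + 1 / (j:ℝ) ^ 2 := by ring
  linarith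

/-- `∑_{j ≤ Y} j^{-1+iα}` -/
noncomputable def hs (α : ℝ) (Y : ℕ) : ℂ := ∑ j ∈ Icc 1 Y, (j : ℂ) ^ (-1 + α * I : ℂ)

lemma sum_two_div_sq_le (Y : ℕ) : ∑ j ∈ Icc 1 Y, 2 / (j:ℝ) ^ 2 ≤ 4 := by
  have h : ∀ Y : ℕ, ∑ j ∈ Icc 1 (Y + 1), 2 / (j:ℝ) ^ 2 ≤ 4 - 2 / ((Y:ℝ) + 1) := by
    intro Y
    induction Y with
    | zero => norm_num
    | succ Y ih =>
      rw [Finset.sum_Icc_succ_top (by omega)]
      have h1 : 2 / (((Y + 1 + 1 : ℕ) : ℝ)) ^ 2 ≤ 2 / ((Y:ℝ) + 1) - 2 / ((Y:ℝ) + 1 + 1) := by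
        push_cast
        have hy : (0:ℝ) ≤ Y := by positivity
        rw [div_sub_div _ _ (by positivity) (by positivity),
          div_le_div_iff₀ (by positivity) (by positivity)]
        nlinarith
      push_cast at h1 ⊢
      linarith
  rcases Nat.eq_zero_or_pos Y with rfl | hY
  · simp
  · obtain ⟨Z, rfl⟩ := Nat.exists_eq_add_of_le' hY
    refine (h Z).trans ?_
    have : (0:ℝ) ≤ 2 / ((Z:ℝ) + 1) := by positivity
    linarith

lemma hs_le {α : ℝ} (hα : 0 < α) (hα1 : α ≤ 1) (Y : ℕ) : ‖hs α Y - Lf α (Y + 1)‖ ≤ 4 := by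
  have h1 : hs α Y - Lf α (Y + 1) =
      ∑ j ∈ Icc 1 Y, ((j : ℂ) ^ (-1 + α * I : ℂ) - (Lf α (j + 1) - Lf α j)) := by
    unfold hs
    rw [Finset.sum_sub_distrib]
    congr 1
    induction Y with
    | zero => simp [Lf_one]
    | succ Y ih =>
      rw [Finset.sum_Icc_succ_top (by omega), ← ih]
      push_cast
      ring
  rw [h1]
  refine (norm_sum_le _ _).trans ((Finset.sum_le_sum fun j hj => ?_).trans (sum_two_div_sq_le Y))
  exact step_le hα hα1 (mem_Icc.mp hj).1

/-- weights -/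
noncomputable def zw (d : ℕ) : ℝ := (5 + 2 * Real.log d) / (d:ℝ) ^ 2

lemma summable_zw : Summable zw := by
  have h1 : Summable (fun d : ℕ => 9 * (d:ℝ) ^ (-(3:ℝ) / 2)) :=
    (Real.summable_nat_rpow.mpr (by norm_num)).mul_left 9
  refine Summable.of_nonneg_of_le (fun d => ?_) (fun d => ?_) h1
  · unfold zw
    have := Real.log_natCast_nonneg d
    positivity
  · unfold zw
    rcases Nat.eq_zero_or_pos d with rfl | hd
    · simp
    · have hd1 : (1:ℝ) ≤ d := by exact_mod_cast hd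
      have hd0 : (0:ℝ) < d := by linarith
      have h2 : Real.log d ≤ 2 * (d:ℝ) ^ ((1:ℝ) / 2) := by
        have := Real.log_le_rpow_div hd0.le (show (0:ℝ) < 1 / 2 by norm_num)
        linarith
      have h3 : (1:ℝ) ≤ (d:ℝ) ^ ((1:ℝ) / 2) := Real.one_le_rpow hd1 (by norm_num)
      rw [div_le_iff₀ (by positivity)]
      have h4 : 9 * (d:ℝ) ^ (-(3:ℝ) / 2) * (d:ℝ) ^ 2 = 9 * (d:ℝ) ^ ((1:ℝ) / 2) := by
        rw [mul_assoc, ← Real.rpow_natCast, ← Real.rpow_add hd0]
        norm_num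
      rw [h4]
      linarith

lemma zw_nonneg (d : ℕ) : 0 ≤ zw d := by
  unfold zw
  have := Real.log_natCast_nonneg d
  positivity

/-- the constant -/
noncomputable def Z1 : ℝ := ∑' d, zw d

lemma Z1_nonneg : 0 ≤ Z1 := tsum_nonneg zw_nonneg

/-- coefficients of the square divisors -/
noncomputable def cd (α : ℝ) (d : ℕ) : ℂ := ((μ d : ℤ) : ℂ) * ((d ^ 2 : ℕ) : ℂ) ^ (-1 + α * I : ℂ)

lemma norm_moebius_le (d : ℕ) : ‖((μ d : ℤ) : ℂ)‖ ≤ 1 := by
  have h2 : |ArithmeticFunction.moebius d| ≤ 1 := ArithmeticFunction.abs_moebius_le_one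
  rw [Complex.norm_intCast]
  exact_mod_cast h2

lemma norm_cd_le (α : ℝ) {d : ℕ} (hd : 1 ≤ d) : ‖cd α d‖ ≤ 1 / (d:ℝ) ^ 2 := by
  unfold cd
  rw [norm_mul, cpow_eq_exp (Nat.one_le_pow _ _ hd), norm_mul]
  have e2 : ‖Complex.exp (α * Real.log ((d ^ 2 : ℕ) : ℝ) * I)‖ = 1 := by
    have := Complex.norm_exp_ofReal_mul_I (α * Real.log ((d ^ 2 : ℕ) : ℝ))
    rw [Complex.ofReal_mul] at this
    exact this
  rw [e2, mul_one, Complex.norm_real, Real.norm_of_nonneg (by positivity)]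
  have := norm_moebius_le d
  push_cast
  have h0 : (0:ℝ) ≤ 1 / (d:ℝ) ^ 2 := by positivity
  nlinarith

/-- `∑_{k ≤ X} μ²(k) k^{-1+iα}` -/
noncomputable def Ms (α : ℝ) (X : ℕ) : ℂ :=
  ∑ k ∈ Icc 1 X, ((μ k : ℤ) : ℂ) ^ 2 * (k : ℂ) ^ (-1 + α * I : ℂ)

lemma Ms_eq (α : ℝ) (X : ℕ) : Ms α X = ∑ d ∈ Icc 1 X, cd α d * hs α (X / d ^ 2) := by
  unfold Ms
  have h1 : ∀ k ∈ Icc 1 X, ((μ k : ℤ) : ℂ) ^ 2 * (k : ℂ) ^ (-1 + α * I : ℂ) =
      ∑ d ∈ Icc 1 X, (if d ^ 2 ∣ k then ((μ d : ℤ) : ℂ) * (k : ℂ) ^ (-1 + α * I : ℂ) else 0) := by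
    intro k hk
    rw [mem_Icc] at hk
    rw [sum_moebius_sq k hk.1 hk.2, Finset.sum_mul]
    refine Finset.sum_congr rfl fun d _ => ?_
    split_ifs <;> simp
  rw [Finset.sum_congr rfl h1, Finset.sum_comm]
  refine Finset.sum_congr rfl fun d hd => ?_
  rw [mem_Icc] at hd
  rw [← Finset.sum_filter]
  have hd2 : 0 < d ^ 2 := Nat.pow_pos hd.1
  have h2 : (Icc 1 X).filter (fun k => d ^ 2 ∣ k) = (Icc 1 (X / d ^ 2)).image (fun j => d ^ 2 * j) := by
    ext k
    rw [mem_filter, mem_Icc, mem_image]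
    constructor
    · rintro ⟨⟨h3, h4⟩, j, rfl⟩
      refine ⟨j, ?_, rfl⟩
      rw [mem_Icc, Nat.le_div_iff_mul_le hd2]
      refine ⟨?_, by rw [mul_comm]; exact h4⟩
      rcases Nat.eq_zero_or_pos j with rfl | hj
      · simp at h3
      · exact hj
    · rintro ⟨j, hj, rfl⟩
      rw [mem_Icc, Nat.le_div_iff_mul_le hd2] at hj
      refine ⟨⟨?_, by rw [mul_comm]; exact hj.2⟩, dvd_mul_right _ _⟩
      have := hj.1
      nlinarith
  rw [h2, Finset.sum_image (fun a _ b _ h => Nat.eq_of_mul_eq_mul_left hd2 h)]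
  unfold hs cd
  rw [Finset.mul_sum]
  refine Finset.sum_congr rfl fun j hj => ?_
  have h3 : ((d ^ 2 * j : ℕ) : ℂ) ^ (-1 + α * I : ℂ) =
      ((d ^ 2 : ℕ) : ℂ) ^ (-1 + α * I : ℂ) * (j : ℂ) ^ (-1 + α * I : ℂ) := by
    rw [Nat.cast_mul, Complex.natCast_mul_natCast_cpow]
  rw [h3]
  ring

lemma tsum_moebius_sq_inv : HasSum (fun d : ℕ => ((μ d : ℤ) : ℂ) * (1 / (d:ℝ) ^ 2 : ℝ))
    ((6 / Real.pi ^ 2 : ℝ) : ℂ) := by
  have hs : (1:ℝ) < (2:ℂ).re := by norm_num
  have h3 := (ArithmeticFunction.LSeriesSummable_moebius_iff.mpr hs).LSeriesHasSum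
  have h4 := LSeries_one_mul_Lseries_moebius hs
  rw [LSeries_one_eq_riemannZeta hs] at h4
  rw [eq_inv_of_mul_eq_one_right h4, riemannZeta_two] at h3
  unfold LSeriesHasSum at h3
  have h5 : (fun d : ℕ => ((μ d : ℤ) : ℂ) * (1 / (d:ℝ) ^ 2 : ℝ)) =
      LSeries.term (fun n : ℕ => ((μ n : ℤ) : ℂ)) 2 := by
    funext d
    rcases Nat.eq_zero_or_pos d with rfl | hd
    · simp
    · rw [LSeries.term_of_ne_zero hd.ne']
      have : (d : ℂ) ^ (2:ℂ) = (d : ℂ) ^ 2 := by
        rw [show (2:ℂ) = ((2 : ℕ) : ℂ) by norm_num, Complex.cpow_natCast]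
      rw [this]
      push_cast
      rw [mul_one_div]
  rw [h5]
  convert h3 using 1
  push_cast
  rw [inv_div]

theorem Ms_asymp {α : ℝ} (hα : 0 < α) (hα1 : α ≤ 1) {X : ℕ} (hX : 1 ≤ X) :
    ‖Ms α X - ((6 / Real.pi ^ 2 : ℝ) : ℂ) * Lf α X‖ ≤ (2 + 2 * α * Real.log X) * Z1 := by
  have hXr : (1:ℝ) ≤ X := by exact_mod_cast hX
  have hlX : 0 ≤ Real.log X := Real.log_nonneg hXr
  have hL := norm_Lf_le hα hXr
  -- first part
  have h1 : ‖∑ d ∈ Icc 1 X, cd α d * (hs α (X / d ^ 2) - Lf α X)‖ ≤ Z1 := by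
    refine (norm_sum_le _ _).trans ?_
    refine (Finset.sum_le_sum (g := zw) fun d hd => ?_).trans
      (summable_zw.sum_le_tsum _ fun d _ => zw_nonneg d)
    rw [mem_Icc] at hd
    have hdr : (1:ℝ) ≤ d := by exact_mod_cast hd.1
    have hld : 0 ≤ Real.log d := Real.log_nonneg hdr
    rw [norm_mul]
    have h2 : ‖hs α (X / d ^ 2) - Lf α X‖ ≤ 5 + 2 * Real.log d := by
      have hd2 : 0 < d ^ 2 := Nat.pow_pos hd.1
      by_cases hc : d ^ 2 ≤ X
      · set Y := X / d ^ 2 with hY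
        have hY1 : 1 ≤ Y := Nat.div_pos hc hd2
        have h3 := hs_le hα hα1 Y
        have h4 : ‖Lf α (Y + 1) - Lf α X‖ ≤ 1 + 2 * Real.log d := by
          rcases le_or_gt ((Y:ℝ) + 1) X with h5 | h5
          · have h6 := Lf_sub_le hα (by positivity) h5
            rw [norm_sub_rev]
            refine h6.trans ?_
            have h7 : (X:ℝ) / (d:ℝ) ^ 2 ≤ Y + 1 := by
              have : X < (Y + 1) * d ^ 2 := by
                rw [hY, mul_comm]; exact Nat.lt_mul_div_succ X hd2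
              have h8 : (X:ℝ) ≤ ((Y:ℝ) + 1) * (d:ℝ) ^ 2 := by exact_mod_cast this.le
              rw [div_le_iff₀ (by positivity)]
              exact h8
            have h9 := Real.log_le_log (by positivity) h7
            rw [Real.log_div (by positivity) (by positivity), Real.log_pow] at h9
            push_cast at h9
            linarith
          · have h6 := Lf_sub_le hα (by linarith) h5.le
            refine h6.trans ?_
            have h7 : (Y:ℝ) ≤ X := by exact_mod_cast Nat.div_le_self X (d ^ 2)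
            have h8 : Real.log ((Y:ℝ) + 1) ≤ Real.log (2 * X) :=
              Real.log_le_log (by positivity) (by linarith)
            rw [Real.log_mul (by norm_num) (by positivity)] at h8
            have := Real.log_two_lt_d9
            linarith
        calc ‖hs α Y - Lf α X‖ = ‖(hs α Y - Lf α (Y + 1)) + (Lf α (Y + 1) - Lf α X)‖ := by
              congr 1; ring
          _ ≤ 4 + (1 + 2 * Real.log d) := (norm_add_le _ _).trans (add_le_add h3 h4)
          _ = _ := by ring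
      · have h3 : X / d ^ 2 = 0 := Nat.div_eq_of_lt (by omega)
        rw [h3]
        have h4 : hs α 0 = 0 := by simp [hs]
        rw [h4, zero_sub, norm_neg]
        refine hL.trans ?_
        have h5 : (X:ℝ) ≤ (d:ℝ) ^ 2 := by
          have : X ≤ d ^ 2 := by omega
          exact_mod_cast this
        have h6 := Real.log_le_log (by linarith) h5
        rw [Real.log_pow] at h6
        push_cast at h6
        linarith
    calc ‖cd α d‖ * ‖hs α (X / d ^ 2) - Lf α X‖ ≤ 1 / (d:ℝ) ^ 2 * (5 + 2 * Real.log d) :=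
          mul_le_mul (norm_cd_le α hd.1) h2 (norm_nonneg _) (by positivity)
      _ = zw d := by unfold zw; ring
  -- second part
  have h2 : ‖Lf α X * (∑ d ∈ Icc 1 X, cd α d - ((6 / Real.pi ^ 2 : ℝ) : ℂ))‖ ≤
      (1 + 2 * α * Real.log X) * Z1 := by
    have h3 : HasSum (fun d : ℕ => (if d ∈ Icc 1 X then cd α d else 0) -
        ((μ d : ℤ) : ℂ) * (1 / (d:ℝ) ^ 2 : ℝ)) (∑ d ∈ Icc 1 X, cd α d - ((6 / Real.pi ^ 2 : ℝ) : ℂ)) := by
      refine HasSum.sub ?_ tsum_moebius_sq_inv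
      have h4 : HasSum (fun d : ℕ => if d ∈ Icc 1 X then cd α d else 0)
          (∑ d ∈ Icc 1 X, if d ∈ Icc 1 X then cd α d else 0) :=
        hasSum_sum_of_ne_finset_zero (fun d hd => if_neg hd)
      have h5 : (∑ d ∈ Icc 1 X, if d ∈ Icc 1 X then cd α d else 0) = ∑ d ∈ Icc 1 X, cd α d :=
        Finset.sum_congr rfl fun d hd => if_pos hd
      rw [← h5]
      exact h4
    have h4 := h3.mul_left (Lf α X)
    rw [← h4.tsum_eq]
    have hb : ∀ d : ℕ, ‖Lf α X * ((if d ∈ Icc 1 X then cd α d else 0) -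
        ((μ d : ℤ) : ℂ) * (1 / (d:ℝ) ^ 2 : ℝ))‖ ≤ (1 + 2 * α * Real.log X) * zw d := by
      intro d
      rcases Nat.eq_zero_or_pos d with rfl | hd
      · simp
        have h5 := zw_nonneg 0
        have : 0 ≤ 1 + 2 * α * Real.log X := by positivity
        positivity
      · have hdr : (1:ℝ) ≤ d := by exact_mod_cast hd
        have hld : 0 ≤ Real.log d := Real.log_nonneg hdr
        rw [norm_mul]
        by_cases hc : d ∈ Icc 1 X
        · rw [if_pos hc]
          have h5 : ‖cd α d - ((μ d : ℤ) : ℂ) * (1 / (d:ℝ) ^ 2 : ℝ)‖ ≤ (2 * α * Real.log d) / (d:ℝ) ^ 2 := by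
            unfold cd
            rw [cpow_eq_exp (Nat.one_le_pow _ _ hd)]
            have h6 : ((μ d : ℤ) : ℂ) * (((1 / ((d ^ 2 : ℕ) : ℝ) : ℝ) : ℂ) *
                Complex.exp (α * Real.log ((d ^ 2 : ℕ) : ℝ) * I)) - ((μ d : ℤ) : ℂ) * (1 / (d:ℝ) ^ 2 : ℝ) =
                ((μ d : ℤ) : ℂ) * ((1 / (d:ℝ) ^ 2 : ℝ) : ℂ) *
                (Complex.exp (((α * Real.log ((d ^ 2 : ℕ) : ℝ) : ℝ) : ℂ) * I) - Complex.exp (((0:ℝ):ℂ) * I)) := by
              rw [Complex.ofReal_mul, Complex.ofReal_zero, zero_mul, Complex.exp_zero]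
              push_cast
              ring
            rw [h6, norm_mul, norm_mul, Complex.norm_real, Real.norm_of_nonneg (by positivity)]
            have h7 := norm_exp_sub_exp_le (α * Real.log ((d ^ 2 : ℕ) : ℝ)) 0
            have h8 : |α * Real.log ((d ^ 2 : ℕ) : ℝ) - 0| = 2 * α * Real.log d := by
              push_cast
              rw [sub_zero, Real.log_pow, abs_of_nonneg (by positivity)]
              push_cast
              ring
            rw [h8] at h7
            calc ‖((μ d : ℤ) : ℂ)‖ * (1 / (d:ℝ) ^ 2) *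
                ‖Complex.exp (((α * Real.log ((d ^ 2 : ℕ) : ℝ) : ℝ) : ℂ) * I) - Complex.exp (((0:ℝ):ℂ) * I)‖
                ≤ 1 * (1 / (d:ℝ) ^ 2) * (2 * α * Real.log d) := by
                  gcongr
                  exact norm_moebius_le d
              _ = _ := by ring
          calc ‖Lf α X‖ * ‖cd α d - ((μ d : ℤ) : ℂ) * (1 / (d:ℝ) ^ 2 : ℝ)‖
              ≤ Real.log X * ((2 * α * Real.log d) / (d:ℝ) ^ 2) :=
                mul_le_mul hL h5 (norm_nonneg _) hlX
            _ = 2 * α * Real.log X * (Real.log d / (d:ℝ) ^ 2) := by ring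
            _ ≤ 2 * α * Real.log X * zw d := by
                apply mul_le_mul_of_nonneg_left _ (by positivity)
                unfold zw
                apply div_le_div_of_nonneg_right _ (by positivity)
                linarith
            _ ≤ _ := by
                have := zw_nonneg d
                nlinarith
        · rw [if_neg hc, zero_sub, norm_neg, norm_mul, Complex.norm_real,
            Real.norm_of_nonneg (by positivity)]
          have h5 : X < d := by
            by_contra hcon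
            exact hc (mem_Icc.mpr ⟨hd, not_lt.mp hcon⟩)
          have h6 : Real.log X ≤ Real.log d := Real.log_le_log (by linarith) (by exact_mod_cast h5.le)
          calc ‖Lf α X‖ * (‖((μ d : ℤ) : ℂ)‖ * (1 / (d:ℝ) ^ 2)) ≤ Real.log d * (1 * (1 / (d:ℝ) ^ 2)) := by
                apply mul_le_mul (hL.trans h6) _ (by positivity) hld
                gcongr
                exact norm_moebius_le d
            _ ≤ 1 * zw d := by
                unfold zw
                rw [one_mul, one_mul, mul_one_div]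
                apply div_le_div_of_nonneg_right _ (by positivity)
                linarith
            _ ≤ _ := by
                have := zw_nonneg d
                have h7 : 0 ≤ 2 * α * Real.log X := by positivity
                nlinarith
    refine (norm_tsum_le_tsum_norm ?_).trans ?_
    · exact Summable.of_nonneg_of_le (fun _ => norm_nonneg _) hb (summable_zw.mul_left _)
    · unfold Z1
      rw [← tsum_mul_left]
      exact (Summable.of_nonneg_of_le (fun _ => norm_nonneg _) hb (summable_zw.mul_left _)).tsum_le_tsum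
        hb (summable_zw.mul_left _)
  have h3 : Ms α X - ((6 / Real.pi ^ 2 : ℝ) : ℂ) * Lf α X =
      ∑ d ∈ Icc 1 X, cd α d * (hs α (X / d ^ 2) - Lf α X) +
      Lf α X * (∑ d ∈ Icc 1 X, cd α d - ((6 / Real.pi ^ 2 : ℝ) : ℂ)) := by
    rw [Ms_eq]
    simp_rw [mul_sub]
    rw [Finset.sum_sub_distrib, ← Finset.sum_mul]
    ring
  rw [h3]
  refine (norm_add_le _ _).trans ?_
  linarith

end Pool.Agent.HalfGap
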