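import Mathlib

/-!
# Tiling of an interval by runs of points
-/

namespace Pool.Agent.HalfGap

open MeasureTheory Set

/-- The neighbourhood of the bad points. -/
def badE (Z : Finset ℝ) (bad : ℝ → Prop) (α : ℝ) : Set ℝ :=
  {t | ∃ z ∈ Z, bad z ∧ |t - z| ≤ α / 2}

lemma badE_measurable (Z : Finset ℝ) (bad : ℝ → Prop) (α : ℝ) :
    MeasurableSet (badE Z bad α) := by
  classical
  have h : badE Z bad α = ⋃ z ∈ Z.filter bad, {t | |t - z| ≤ α / 2} := by
    ext t
    simp only [badE, mem_ofPred_eq, Finset.mem_filter, mem_iUnion]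
    constructor
    · rintro ⟨z, h1, h2, h3⟩
      exact ⟨z, ⟨h1, h2⟩, h3⟩
    · rintro ⟨z, ⟨h1, h2⟩, h3⟩
      exact ⟨z, h1, h2, h3⟩
  rw [h]
  refine Finset.measurableSet_biUnion _ fun z _ => ?_
  exact (isClosed_le (by fun_prop) continuous_const).measurableSet

/-- **Tiling lemma.** -/
theorem tile {Z : Finset ℝ} {α h1 h2 : ℝ} (hα : 0 < α) (Φ : ℝ → ℝ → ℝ) (M : ℝ → ℝ)
    (bad : ℝ → Prop) (hbadz : ∀ z ∈ Z, ∀ w ∈ Z, w ≠ z → |w - z| < α → bad z)
    (hG1 : ∀ z ∈ Z, α / 2 ≤ |z - h1|)
    (hadd : ∀ a b c, (∀ z ∈ Z, α / 2 ≤ |z - a|) → (∀ z ∈ Z, α / 2 ≤ |z - b|) →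
      (∀ z ∈ Z, α / 2 ≤ |z - c|) → h1 ≤ a → a ≤ b → b ≤ c → c ≤ h2 → Φ a c = Φ a b + Φ b c)
    (hfree : ∀ a b, (∀ z ∈ Z, α / 2 ≤ |z - a|) → (∀ z ∈ Z, α / 2 ≤ |z - b|) →
      h1 ≤ a → a ≤ b → b ≤ h2 → (∀ z ∈ Z, ¬ (a < z ∧ z < b)) → 0 ≤ Φ a b)
    (hiso : ∀ z ∈ Z, ¬ bad z → (∀ w ∈ Z, w ≠ z → α ≤ |w - z|) → h1 ≤ z - α / 2 →
      z + α / 2 ≤ h2 → 0 ≤ Φ (z - α / 2) (z + α / 2))
    (hbad : ∀ a b, (∀ z ∈ Z, α / 2 ≤ |z - a|) → (∀ z ∈ Z, α / 2 ≤ |z - b|) →
      h1 ≤ a → a + α ≤ b → b ≤ h2 → -(∫ t in a..b, M t) ≤ Φ a b)
    (hM : ∀ t, 0 ≤ M t) (hMi : IntegrableOn M (Ioc h1 h2)) :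
    ∀ h, (∀ z ∈ Z, α / 2 ≤ |z - h|) → h1 ≤ h → h ≤ h2 →
      -(∫ t in Ioc h1 h ∩ badE Z bad α, M t) ≤ Φ h1 h := by
  classical
  have hEm := badE_measurable Z bad α
  -- integrability and nonnegativity
  have hInt : ∀ a b, h1 ≤ a → b ≤ h2 → IntegrableOn M (Ioc a b ∩ badE Z bad α) := by
    intro a b ha hb
    exact hMi.mono_set (inter_subset_left.trans (Ioc_subset_Ioc ha hb))
  have hpos : ∀ s : Set ℝ, MeasurableSet s → 0 ≤ ∫ t in s, M t := fun s hs =>
    setIntegral_nonneg hs fun t _ => hM t
  have hsplit : ∀ a b c, h1 ≤ a → a ≤ b → b ≤ c → c ≤ h2 →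
      ∫ t in Ioc a c ∩ badE Z bad α, M t =
        (∫ t in Ioc a b ∩ badE Z bad α, M t) + ∫ t in Ioc b c ∩ badE Z bad α, M t := by
    intro a b c ha hab hbc hc
    rw [← setIntegral_union _ (measurableSet_Ioc.inter hEm) (hInt a b ha (hbc.trans hc))
      (hInt b c (ha.trans hab) hc)]
    · congr 2
      rw [← union_inter_distrib_right, Ioc_union_Ioc_eq_Ioc hab hbc]
    · refine Disjoint.mono inter_subset_left inter_subset_left ?_
      rw [Set.disjoint_left]
      intro x hx hx'
      exact absurd hx.2 (not_le.mpr hx'.1)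
  -- strong induction
  have main : ∀ n : ℕ, ∀ h, (Z.filter (· < h)).card ≤ n → (∀ z ∈ Z, α / 2 ≤ |z - h|) →
      h1 ≤ h → h ≤ h2 → -(∫ t in Ioc h1 h ∩ badE Z bad α, M t) ≤ Φ h1 h := by
    intro n
    induction n with
    | zero =>
      intro h hcard hG h1h hh2
      have hempty : ∀ z ∈ Z, ¬ (h1 < z ∧ z < h) := by
        rintro z hz ⟨_, h4⟩
        have : z ∈ Z.filter (· < h) := Finset.mem_filter.mpr ⟨hz, h4⟩
        rw [Finset.card_eq_zero.mp (Nat.le_zero.mp hcard)] at this
        simp at this
      have h3 := hfree h1 h hG1 hG le_rfl h1h hh2 hempty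
      have h4 := hpos _ (measurableSet_Ioc (a := h1) (b := h) |>.inter hEm)
      linarith
    | succ n ih =>
      intro h hcard hG h1h hh2
      by_cases hS : ∃ z ∈ Z, h1 < z ∧ z < h
      swap
      · push Not at hS
        have h3 := hfree h1 h hG1 hG le_rfl h1h hh2 (by
          rintro z hz ⟨h5, h6⟩
          exact absurd h6 (not_lt.mpr (hS z hz h5)))
        have h4 := hpos _ (measurableSet_Ioc (a := h1) (b := h) |>.inter hEm)
        linarith
      set S := Z.filter (fun z => h1 < z ∧ z < h) with hSdef
      have hSne : S.Nonempty := by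
        obtain ⟨z, hz, h5⟩ := hS
        exact ⟨z, Finset.mem_filter.mpr ⟨hz, h5⟩⟩
      have hSm : ∀ z, z ∈ S ↔ z ∈ Z ∧ h1 < z ∧ z < h := fun z => by rw [hSdef, Finset.mem_filter]
      -- the largest point
      set zb := S.max' hSne with hzb
      have hzbS : zb ∈ S := S.max'_mem hSne
      obtain ⟨hzbZ, hzb1, hzb2⟩ := (hSm zb).mp hzbS
      have hzbmax : ∀ z ∈ S, z ≤ zb := fun z hz => S.le_max' z hz
      have hzbh : zb + α / 2 ≤ h := by
        have := hG zb hzbZ
        rw [abs_of_neg (by linarith)] at this
        linarith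
      -- points of S are at distance from h1
      have hS1 : ∀ z ∈ S, h1 + α / 2 ≤ z := by
        intro z hz
        obtain ⟨hz1, hz2, _⟩ := (hSm z).mp hz
        have := hG1 z hz1
        rw [abs_of_pos (by linarith)] at this
        linarith
      -- the left-start points
      set A := S.filter (fun z => ∀ w ∈ Z, w < z → w ≤ z - α) with hAdef
      have hAne : A.Nonempty := by
        refine ⟨S.min' hSne, Finset.mem_filter.mpr ⟨S.min'_mem hSne, fun w hw hlt => ?_⟩⟩
        have h5 := hS1 _ (S.min'_mem hSne)
        obtain ⟨_, _, h8⟩ := (hSm _).mp (S.min'_mem hSne)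
        have h6 : w ≤ h1 := by
          by_contra hcon
          push Not at hcon
          have h7 : w ∈ S := (hSm w).mpr ⟨hw, hcon, hlt.trans h8⟩
          exact absurd (S.min'_le w h7) (not_le.mpr hlt)
        have h7 := hG1 w hw
        rw [abs_of_nonpos (by linarith)] at h7
        linarith
      set za := A.max' hAne with hza
      have hzaA : za ∈ A := A.max'_mem hAne
      obtain ⟨hzaS, hzaleft⟩ := Finset.mem_filter.mp hzaA
      obtain ⟨hzaZ, hza1, hza2⟩ := (hSm za).mp hzaS
      have hzazb : za ≤ zb := hzbmax za hzaS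
      have hza1' := hS1 za hzaS
      -- every later point has a predecessor at distance < α
      have hpred : ∀ z ∈ Z, za < z → z ≤ zb → ∃ w ∈ Z, za ≤ w ∧ w < z ∧ z - α < w := by
        intro z hz hlt hle
        have hzS : z ∈ S := (hSm z).mpr ⟨hz, hza1.trans hlt, lt_of_le_of_lt hle hzb2⟩
        have hzA : z ∉ A := fun hcon => absurd (A.le_max' z hcon) (not_le.mpr hlt)
        rw [hAdef, Finset.mem_filter, not_and] at hzA
        have h5 := hzA hzS
        push Not at h5
        obtain ⟨w, hw, hwz, hwz'⟩ := h5
        refine ⟨w, hw, ?_, hwz, hwz'⟩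
        by_contra hcon
        push Not at hcon
        have := hzaleft w hw hcon
        linarith
      set c := za - α / 2 with hc
      set e := zb + α / 2 with he
      have hGc : ∀ z ∈ Z, α / 2 ≤ |z - c| := by
        intro z hz
        rcases lt_or_ge z za with h5 | h5
        · have := hzaleft z hz h5
          rw [abs_of_neg (by rw [hc]; linarith), hc]
          linarith
        · rw [abs_of_nonneg (by rw [hc]; linarith), hc]
          linarith
      have hGe : ∀ z ∈ Z, α / 2 ≤ |z - e| := by
        intro z hz
        rcases le_or_gt z zb with h5 | h5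
        · rw [abs_of_neg (by rw [he]; linarith), he]
          linarith
        · have h6 : h ≤ z := by
            by_contra hcon
            push Not at hcon
            exact absurd (hzbmax z ((hSm z).mpr ⟨hz, hzb1.trans h5, hcon⟩)) (not_le.mpr h5)
          have h7 := hG z hz
          rw [abs_of_nonneg (by linarith)] at h7
          rw [abs_of_nonneg (by rw [he]; linarith), he]
          linarith
      have hh1c : h1 ≤ c := by rw [hc]; linarith
      have hce : c ≤ e := by rw [hc, he]; linarith
      have hce' : c + α ≤ e := by rw [hc, he]; linarith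
      have heh : e ≤ h := hzbh
      have hch2 : c ≤ h2 := by linarith
      -- induction hypothesis
      have hIH := ih c (by
        have h5 : (Z.filter (· < c)) ⊂ (Z.filter (· < h)) := by
          rw [Finset.ssubset_iff_of_subset]
          · refine ⟨za, Finset.mem_filter.mpr ⟨hzaZ, hza2⟩, ?_⟩
            rw [Finset.mem_filter, not_and, not_lt]
            intro _
            rw [hc]; linarith
          · intro z hz
            rw [Finset.mem_filter] at hz ⊢
            exact ⟨hz.1, by linarith [hz.2]⟩
        have h6 := Finset.card_lt_card h5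
        omega) hGc hh1c hch2
      have hadd1 := hadd h1 c h hG1 hGc hG le_rfl hh1c (hce.trans heh) hh2
      have hadd2 := hadd c e h hGc hGe hG hh1c hce heh hh2
      have hfr := hfree e h hGe hG (hh1c.trans hce) heh hh2 (by
        rintro z hz ⟨h5, h6⟩
        have h7 : z ∈ S := (hSm z).mpr ⟨hz, by linarith, h6⟩
        have := hzbmax z h7
        rw [he] at h5
        linarith)
      have hs1 := hsplit h1 c h le_rfl hh1c (hce.trans heh) hh2
      have hs2 := hsplit c e h hh1c hce heh hh2
      have hp3 := hpos _ (measurableSet_Ioc (a := e) (b := h) |>.inter hEm)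
      have hp2 := hpos _ (measurableSet_Ioc (a := c) (b := e) |>.inter hEm)
      suffices hkey : -(∫ t in Ioc c e ∩ badE Z bad α, M t) ≤ Φ c e by
        rw [hadd1, hadd2, hs1, hs2]
        linarith
      by_cases hcase : za = zb ∧ ¬ bad za
      · obtain ⟨h5, h6⟩ := hcase
        have h7 : 0 ≤ Φ c e := by
          have h8 := hiso za hzaZ h6 (by
            intro w hw hne
            by_contra hcon
            push Not at hcon
            exact h6 (hbadz za hzaZ w hw hne hcon)) hh1c (by
              rw [h5]; exact heh.trans hh2)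
          rw [hc, he, ← h5]
          exact h8
        linarith
      · -- bad run
        have hallbad : ∀ z ∈ Z, za < z → z ≤ zb → bad z := by
          intro z hz h5 h6
          obtain ⟨w, hw, _, h8, h9⟩ := hpred z hz h5 h6
          refine hbadz z hz w hw h8.ne ?_
          rw [abs_of_neg (by linarith)]
          linarith
        have hzabad : bad za := by
          by_cases h5 : za = zb
          · by_contra h6
            exact hcase ⟨h5, h6⟩
          · -- the next point
            have h6 : za < zb := lt_of_le_of_ne hzazb h5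
            set N := Z.filter (fun z => za < z ∧ z ≤ zb) with hN
            have hNne : N.Nonempty := ⟨zb, Finset.mem_filter.mpr ⟨hzbZ, h6, le_rfl⟩⟩
            obtain ⟨k1, k2, k3⟩ := Finset.mem_filter.mp (N.min'_mem hNne)
            obtain ⟨w, hw, h8, h9, h10⟩ := hpred _ k1 k2 k3
            have h11 : w = za := by
              by_contra hne
              have h12 : w ∈ N := Finset.mem_filter.mpr
                ⟨hw, lt_of_le_of_ne h8 (Ne.symm hne), h9.le.trans k3⟩
              exact absurd (N.min'_le w h12) (not_le.mpr h9)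
            refine hbadz za hzaZ (N.min' hNne) k1 k2.ne' ?_
            rw [h11] at h10
            rw [abs_of_pos (by linarith)]
            linarith
        have hsub : Ioc c e ⊆ badE Z bad α := by
          intro t ht
          rcases lt_or_ge t za with h5 | h5
          · refine ⟨za, hzaZ, hzabad, ?_⟩
            rw [abs_of_neg (by linarith)]
            have := ht.1
            rw [hc] at this
            linarith
          · -- the last point before t
            set N := Z.filter (fun z => za ≤ z ∧ z ≤ zb ∧ z ≤ t) with hN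
            have hNne : N.Nonempty := ⟨za, Finset.mem_filter.mpr ⟨hzaZ, le_rfl, hzazb, h5⟩⟩
            obtain ⟨k1, k2, k3, k4⟩ := Finset.mem_filter.mp (N.max'_mem hNne)
            set z0 := N.max' hNne with hz0
            have hz0bad : bad z0 := by
              rcases eq_or_lt_of_le k2 with h6 | h6
              · rw [← h6]; exact hzabad
              · exact hallbad z0 k1 h6 k3
            rcases eq_or_lt_of_le k3 with h6 | h6
            · refine ⟨z0, k1, hz0bad, ?_⟩
              rw [abs_of_nonneg (by linarith)]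
              have := ht.2
              rw [he] at this
              linarith
            · -- the next point after t
              set N' := Z.filter (fun z => z0 < z ∧ z ≤ zb) with hN'
              have hNne' : N'.Nonempty := ⟨zb, Finset.mem_filter.mpr ⟨hzbZ, h6, le_rfl⟩⟩
              obtain ⟨l1, l2, l3⟩ := Finset.mem_filter.mp (N'.min'_mem hNne')
              set z1 := N'.min' hNne' with hz1
              obtain ⟨w, hw, h8, h9, h10⟩ := hpred z1 l1 (lt_of_le_of_lt k2 l2) l3
              have h11 : w ≤ z0 := by
                by_contra hne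
                push Not at hne
                have h12 : w ∈ N' := Finset.mem_filter.mpr ⟨hw, hne, h9.le.trans l3⟩
                exact absurd (N'.min'_le w h12) (not_le.mpr h9)
              have h13 : t < z1 := by
                by_contra hcon
                push Not at hcon
                have h14 : z1 ∈ N := Finset.mem_filter.mpr ⟨l1, k2.trans l2.le, l3, hcon⟩
                exact absurd (N.le_max' z1 h14) (not_le.mpr l2)
              rcases le_or_gt (t - z0) (α / 2) with h14 | h14
              · refine ⟨z0, k1, hz0bad, ?_⟩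
                rw [abs_of_nonneg (by linarith)]
                exact h14
              · refine ⟨z1, l1, hallbad z1 l1 (lt_of_le_of_lt k2 l2) l3, ?_⟩
                rw [abs_of_neg (by linarith)]
                linarith
        have h5 := hbad c e hGc hGe hh1c hce' (heh.trans hh2)
        rw [intervalIntegral.integral_of_le hce] at h5
        rw [inter_eq_self_of_subset_left hsub]
        exact h5
  intro h hG h1h hh2
  exact main _ h le_rfl hG h1h hh2

end Pool.Agent.HalfGap
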