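import Pool.Agent.ZGap.Half.Sign
import Pool.Agent.ZGap.Half.Tile

/-!
# The strip inequality
-/

namespace Pool.Agent.HalfGap

open Complex MeasureTheory Set Pool.Agent.Hadamard
open scoped ComplexConjugate Topology

/-- Under RH the zeros of `xiF` are on the critical line. -/
lemma xiF_zero_iff (hRH : RiemannHypothesis) {s : ℂ} :
    xiF s = 0 ↔ s.re = 1 / 2 ∧ Xr s.im = 0 := by
  constructor
  · intro h
    have h1 : s ∈ ntz := xiF_eq_zero_iff.mp h
    have h2 : s.re = 1 / 2 := by
      obtain ⟨h1, h2, h3⟩ := h1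
      refine hRH s h1 ?_ ?_
      · rintro ⟨n, hn⟩
        rw [hn] at h2
        simp at h2
        have : (0 : ℝ) ≤ n := Nat.cast_nonneg n
        linarith
      · intro h
        rw [h] at h3
        simp at h3
    refine ⟨h2, ?_⟩
    have h3 : s = 1 / 2 + s.im * I := by
      apply Complex.ext
      · simp [h2]
      · simp
    rw [h3] at h
    rw [xiF_half] at h
    exact_mod_cast h
  · rintro ⟨h1, h2⟩
    have h3 : s = 1 / 2 + s.im * I := by
      apply Complex.ext
      · simp [h1]
      · simp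
    rw [h3, xiF_half, h2]
    simp

/-- A zero which is multiple or has another zero at distance `< α`. -/
def badz (α z : ℝ) : Prop := deriv Xr z = 0 ∨ ∃ w, Xr w = 0 ∧ w ≠ z ∧ |w - z| < α

/-- The neighbourhood of the bad zeros. -/
def EE (α : ℝ) : Set ℝ := {t | ∃ z, Xr z = 0 ∧ badz α z ∧ |t - z| ≤ α / 2}

/-- The zeros in an interval. -/
lemma zeros_finite (a b : ℝ) : {w : ℝ | w ∈ Ioo a b ∧ Xr w = 0}.Finite := by
  have h := finite_zeros xiF_differentiable (w := 0) (by rw [xiF_zero]; exact one_ne_zero)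
    0 (1 + |a| + |b|)
  refine (h.image Complex.im).subset fun w hw => ?_
  refine ⟨1 / 2 + w * I, ⟨?_, ?_⟩, by simp⟩
  · rw [xiF_half, hw.2]; simp
  · rw [Metric.mem_closedBall, dist_zero_right]
    have h1 : ‖(1 / 2 + w * I : ℂ)‖ ≤ 1 / 2 + |w| := by
      refine (norm_add_le _ _).trans ?_
      simp
    have h2 : |w| ≤ |a| + |b| := by
      rcases abs_cases w with h3 | h3 <;> rcases abs_cases a with h4 | h4 <;>
        rcases abs_cases b with h5 | h5 <;> linarith [hw.1.1, hw.1.2]
    linarith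

variable {H t0 α y : ℝ} {B : ℂ → ℂ}

lemma FF_vert_continuous (hRH : RiemannHypothesis) (hB : Differentiable ℂ B) {x : ℝ}
    (hx : x ≠ 1 / 2) : Continuous (fun t : ℝ => FF H t0 α B (x + t * I)) := by
  rw [continuous_iff_continuousAt]
  intro t
  have h1 : ContinuousAt (FF H t0 α B) (x + t * I) := by
    apply DifferentiableAt.continuousAt (𝕜 := ℂ)
    apply FF_differentiableAt hB
    intro h
    have := ((xiF_zero_iff hRH).mp h).1
    simp at this
    exact hx (by rw [this]; norm_num)
  exact ContinuousAt.comp (f := fun t : ℝ => (x : ℂ) + t * I) (g := FF H t0 α B) h1 (by fun_prop)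

/-- The contribution of an isolated zero is nonnegative. -/
lemma iso_nonneg (hRH : RiemannHypothesis) (hα : 0 < α) (hy : 0 < y)
    (hB : Differentiable ℂ B) (hBr : ∀ t : ℝ, (B (1 / 2 + t * I)).im = 0)
    (hBp : ∀ t : ℝ, 0 ≤ (B (1 / 2 + t * I)).re) {z : ℝ} (hz : Xr z = 0) (hbz : ¬ badz α z) :
    (rInt (FF H t0 α B) (1 / 2 - y) (1 / 2 + y) (z - α / 2) (z + α / 2)).re ≤ 0 := by
  unfold badz at hbz
  push Not at hbz
  obtain ⟨hd, hiso⟩ := hbz
  have hxd := xiF_differentiable
  have hN : Differentiable ℂ (fun s => Og H t0 s * B s * xiF (s + α * I)) :=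
    ((Og_diff H t0).mul hB).mul
      (hxd.comp (by fun_prop : Differentiable ℂ fun s : ℂ => s + α * I))
  have h := rInt_simple (N := fun s => Og H t0 s * B s * xiF (s + α * I)) (D := xiF)
    (a := 1 / 2 - y) (b := 1 / 2 + y) (c := z - α / 2) (d := z + α / 2) (p := 1 / 2 + z * I)
    (by simp; linarith) (by simp; linarith) (by simp; linarith) (by simp; linarith)
    (fun s _ => hN s) (fun s _ => hxd s) (by rw [xiF_half, hz]; simp)
    (by
      rw [deriv_xiF_half]
      exact mul_ne_zero (by simp) (by exact_mod_cast hd))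
    (by
      intro s hs hne h0
      obtain ⟨h1, h2⟩ := (xiF_zero_iff hRH).mp h0
      apply hne
      have h3 : s.im = z := by
        by_contra hne'
        have h4 := hiso s.im h2 hne'
        have h5 : |s.im - z| ≤ α / 2 := by
          rw [abs_le]
          constructor
          · linarith [hs.2.2.1]
          · linarith [hs.2.2.2]
        linarith
      apply Complex.ext
      · simp [h1]
      · simp [h3])
    ⟨univ, Filter.univ_mem, fun s _ => hxd s⟩
  have hF : FF H t0 α B = fun s => Og H t0 s * B s * xiF (s + α * I) / xiF s := by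
    funext s
    unfold FF fq
    ring
  rw [hF, h, Og_half, deriv_xiF_half]
  have e1 : (1 / 2 + z * I + α * I : ℂ) = 1 / 2 + ((z + α : ℝ) : ℂ) * I := by
    push_cast; ring
  rw [e1, xiF_half]
  have e2 : B (1 / 2 + z * I) = ((B (1 / 2 + z * I)).re : ℂ) := by
    apply Complex.ext
    · simp
    · rw [hBr z]; simp
  rw [e2]
  set b := (B (1 / 2 + z * I)).re with hb
  set o := Real.exp (-(z - t0) ^ 2 / H ^ 2) with ho
  have hs := sign_ratio hα hz hd (fun t ht h0 => by
    have h1 := hiso t h0 ht.1.ne'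
    rw [abs_of_pos (by linarith [ht.1])] at h1
    linarith [ht.2])
  have e3 : (2 * Real.pi * I * ((o : ℂ) * b * (Xr (z + α) : ℝ) / (-I * (deriv Xr z : ℝ)))) =
      ((-(2 * Real.pi * o * b * (Xr (z + α) / deriv Xr z)) : ℝ) : ℂ) := by
    have hd' : ((deriv Xr z : ℝ) : ℂ) ≠ 0 := by exact_mod_cast hd
    push_cast
    field_simp
  rw [e3, ofReal_re]
  have h1 : 0 ≤ o := Real.exp_nonneg _
  have h2 : 0 ≤ b := hBp z
  have h3 := Real.pi_pos
  have : 0 ≤ 2 * Real.pi * o * b * (Xr (z + α) / deriv Xr z) := by positivity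
  linarith

/-- The horizontal integral at a good height. -/
lemma norm_hor_le {F : ℂ → ℂ} (hy : 0 < y) {c K : ℝ}
    (h : ∀ x ∈ Icc (1 / 2 - y) (1 / 2 + y), ‖F (x + c * I)‖ ≤ K) : ‖hor F y c‖ ≤ 2 * y * K := by
  unfold hor
  have h1 := intervalIntegral.norm_integral_le_of_norm_le_const (a := 1 / 2 - y) (b := 1 / 2 + y)
    (f := fun x : ℝ => F (x + c * I)) (C := K) (by
      intro x hx
      rw [uIoc_of_le (by linarith)] at hx
      exact h x ⟨hx.1.le, hx.2⟩)
  rw [abs_of_pos (by linarith)] at h1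
  refine h1.trans (le_of_eq ?_)
  ring

/-- The boundary integral over a bad rectangle. -/
lemma bad_bound (hRH : RiemannHypothesis) (hα : 0 < α) (hy : 0 < y) (hB : Differentiable ℂ B)
    {a b : ℝ} (hab : a + α ≤ b) {G : ℝ → ℝ} (hGi : IntegrableOn G (Ioc a b))
    (h1 : ∀ t ∈ Icc a b, ‖FF H t0 α B ((1 / 2 + y : ℝ) + t * I)‖ ≤ G t)
    (h2 : ∀ t ∈ Icc a b, ‖FF H t0 α B ((1 / 2 - y : ℝ) + t * I)‖ ≤ G t)
    (h3 : ∀ t ∈ Icc a (a + α), ∀ x ∈ Icc (1 / 2 - y) (1 / 2 + y),
      ‖FF H t0 α B (x + a * I)‖ ≤ G t)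
    (h4 : ∀ t ∈ Icc (b - α) b, ∀ x ∈ Icc (1 / 2 - y) (1 / 2 + y),
      ‖FF H t0 α B (x + b * I)‖ ≤ G t) (hG0 : ∀ t, 0 ≤ G t) :
    ‖rInt (FF H t0 α B) (1 / 2 - y) (1 / 2 + y) a b‖ ≤ 2 * (1 + 2 * y / α) * ∫ t in a..b, G t := by
  have hle : a ≤ b := by linarith
  have hGii : IntervalIntegrable G volume a b := by
    rwa [intervalIntegrable_iff_integrableOn_Ioc_of_le hle]
  set F := FF H t0 α B with hF
  have c1 : Continuous (fun t : ℝ => F ((1 / 2 + y : ℝ) + t * I)) :=
    FF_vert_continuous hRH hB (by linarith)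
  have c2 : Continuous (fun t : ℝ => F ((1 / 2 - y : ℝ) + t * I)) :=
    FF_vert_continuous hRH hB (by linarith)
  have b1 : ‖∫ t : ℝ in a..b, F ((1 / 2 + y : ℝ) + t * I)‖ ≤ ∫ t in a..b, G t := by
    refine (intervalIntegral.norm_integral_le_integral_norm hle).trans ?_
    exact intervalIntegral.integral_mono_on hle (c1.norm.intervalIntegrable _ _) hGii h1
  have b2 : ‖∫ t : ℝ in a..b, F ((1 / 2 - y : ℝ) + t * I)‖ ≤ ∫ t in a..b, G t := by
    refine (intervalIntegral.norm_integral_le_integral_norm hle).trans ?_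
    exact intervalIntegral.integral_mono_on hle (c2.norm.intervalIntegrable _ _) hGii h2
  -- horizontal sides
  have hside : ∀ (c u v : ℝ), v = u + α → a ≤ u → v ≤ b →
      (∀ t ∈ Icc u v, ∀ x ∈ Icc (1 / 2 - y) (1 / 2 + y), ‖F (x + c * I)‖ ≤ G t) →
      ‖hor F y c‖ ≤ 2 * y / α * ∫ t in a..b, G t := by
    intro c u v huv hau hvb hx
    have hs : ∀ t ∈ Icc u v, ‖hor F y c‖ ≤ 2 * y * G t := fun t ht =>
      norm_hor_le hy (hx t ht)
    have hsub : Icc u v ⊆ Icc a b := Icc_subset_Icc hau hvb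
    have hi : IntervalIntegrable G volume u v := by
      apply hGii.mono_set
      rw [uIcc_of_le (by linarith), uIcc_of_le hle]
      exact hsub
    have e1 : ∫ t in u..v, ‖hor F y c‖ ≤ ∫ t in u..v, 2 * y * G t :=
      intervalIntegral.integral_mono_on (by linarith) (by simp) (hi.const_mul _) hs
    rw [intervalIntegral.integral_const, intervalIntegral.integral_const_mul, huv,
      add_sub_cancel_left, smul_eq_mul] at e1
    have e2 : ∫ t in u..(u + α), G t ≤ ∫ t in a..b, G t := by
      refine intervalIntegral.integral_mono_interval hau (by linarith) (by linarith)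
        (Filter.Eventually.of_forall fun t => hG0 t) hGii
    rw [div_mul_eq_mul_div, le_div_iff₀ hα]
    have e3 : 2 * y * ∫ t in u..(u + α), G t ≤ 2 * y * ∫ t in a..b, G t :=
      mul_le_mul_of_nonneg_left e2 (by linarith)
    linarith
  have b3 := hside a a (a + α) rfl le_rfl hab h3
  have b4 := hside b (b - α) b (by ring) (by linarith) le_rfl h4
  unfold rInt
  unfold hor at b3 b4
  have n1 : ‖I * ∫ t : ℝ in a..b, F ((1 / 2 + y : ℝ) + t * I)‖ ≤ ∫ t in a..b, G t := by
    rw [norm_mul, norm_I, one_mul]; exact b1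
  have n2 : ‖I * ∫ t : ℝ in a..b, F ((1 / 2 - y : ℝ) + t * I)‖ ≤ ∫ t in a..b, G t := by
    rw [norm_mul, norm_I, one_mul]; exact b2
  calc _ ≤ ‖∫ x : ℝ in (1 / 2 - y)..(1 / 2 + y), F (x + a * I)‖ +
        ‖∫ x : ℝ in (1 / 2 - y)..(1 / 2 + y), F (x + b * I)‖ +
        ‖I * ∫ t : ℝ in a..b, F ((1 / 2 + y : ℝ) + t * I)‖ +
        ‖I * ∫ t : ℝ in a..b, F ((1 / 2 - y : ℝ) + t * I)‖ := by
        refine (norm_sub_le _ _).trans ?_
        gcongr
        refine (norm_add_le _ _).trans ?_
        gcongr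
        exact norm_sub_le _ _
    _ ≤ _ := by
        have : 2 * (1 + 2 * y / α) * ∫ t in a..b, G t =
          2 * y / α * (∫ t in a..b, G t) + 2 * y / α * (∫ t in a..b, G t) + (∫ t in a..b, G t) +
            ∫ t in a..b, G t := by ring
        rw [this]
        gcongr

/-- **The strip inequality.** -/
theorem strip (hRH : RiemannHypothesis) (hα : 0 < α) (hy : 0 < y) {h1 h2 : ℝ} (hh : h1 ≤ h2)
    (hB : Differentiable ℂ B) (hBc : ∀ s, B (1 - conj s) = conj (B s))
    (hBp : ∀ t : ℝ, 0 ≤ (B (1 / 2 + t * I)).re)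
    (hc1 : ∀ w, Xr w = 0 → α / 2 ≤ |w - h1|) (hc2 : ∀ w, Xr w = 0 → α / 2 ≤ |w - h2|)
    {G : ℝ → ℝ} (hG0 : ∀ t, 0 ≤ G t) (hGi : IntegrableOn G (Ioc h1 h2))
    (hG : ∀ t ∈ Icc h1 h2, ∀ s : ℂ, |s.re - 1 / 2| ≤ y → |s.im - t| ≤ α →
      (s.re = 1 / 2 + y ∨ s.re = 1 / 2 - y ∨ ∀ w, Xr w = 0 → α / 2 ≤ |w - s.im|) →
      ‖FF H t0 α B s‖ ≤ G t) :
    -((1 + 2 * y / α) * ∫ t in Ioc h1 h2 ∩ EE α, G t) -
      (‖hor (FF H t0 α B) y h1‖ + ‖hor (FF H t0 α B) y h2‖) / 2 ≤
      (∫ t : ℝ in h1..h2, FF H t0 α B ((1 / 2 + y : ℝ) + t * I)).im := by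
  classical
  set F := FF H t0 α B with hF
  have hk : 0 ≤ 1 + 2 * y / α := by positivity
  have hBr : ∀ t : ℝ, (B (1 / 2 + t * I)).im = 0 := by
    intro t
    have h3 := hBc (1 / 2 + t * I)
    have h4 : (1 - conj (1 / 2 + t * I) : ℂ) = 1 / 2 + t * I := by
      apply Complex.ext
      · simp; norm_num
      · simp
    rw [h4] at h3
    exact Complex.conj_eq_iff_im.mp h3.symm
  set Z : Finset ℝ := (zeros_finite h1 h2).toFinset with hZ
  have hZm : ∀ w, w ∈ Z ↔ w ∈ Ioo h1 h2 ∧ Xr w = 0 := fun w => by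
    rw [hZ, Set.Finite.mem_toFinset, mem_ofPred_eq]
  -- no zeros between cuts
  have hnz : ∀ w, Xr w = 0 → h1 ≤ w → w ≤ h2 → w ∈ Z := by
    intro w hw h3 h4
    rw [hZm]
    refine ⟨⟨lt_of_le_of_ne h3 ?_, lt_of_le_of_ne h4 ?_⟩, hw⟩
    · rintro rfl
      have := hc1 _ hw
      simp at this
      linarith
    · rintro rfl
      have := hc2 _ hw
      simp at this
      linarith
  -- a cut is good with respect to all zeros
  have hgood : ∀ a, h1 ≤ a → a ≤ h2 → (∀ z ∈ Z, α / 2 ≤ |z - a|) →
      ∀ w, Xr w = 0 → α / 2 ≤ |w - a| := by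
    intro a ha1 ha2 ha w hw
    rcases lt_or_ge w h1 with h3 | h3
    · have h4 := hc1 w hw
      rw [abs_of_neg (by linarith)] at h4 ⊢
      linarith
    · rcases lt_or_ge h2 w with h5 | h5
      · have h4 := hc2 w hw
        rw [abs_of_pos (by linarith)] at h4
        rw [abs_of_nonneg (by linarith)]
        linarith
      · exact ha w (hnz w hw h3 h5)
  have hint : ∀ a b : ℝ, IntervalIntegrable (fun t : ℝ => F ((1 / 2 + y : ℝ) + t * I)) volume a b :=
    fun a b => (FF_vert_continuous hRH hB (by linarith)).intervalIntegrable _ _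
  have hint' : ∀ a b : ℝ, IntervalIntegrable (fun t : ℝ => F ((1 / 2 - y : ℝ) + t * I)) volume a b :=
    fun a b => (FF_vert_continuous hRH hB (by linarith)).intervalIntegrable _ _
  have htile := tile (Z := Z) (h1 := h1) (h2 := h2) hα
    (fun a b => -(1 / 2) * (rInt F (1 / 2 - y) (1 / 2 + y) a b).re)
    (fun t => (1 + 2 * y / α) * G t) (badz α)
    (by
      intro z _ w hw hne hlt
      exact Or.inr ⟨w, ((hZm w).mp hw).2, hne, hlt⟩)
    (fun z hz => hc1 z ((hZm z).mp hz).2)
    (by
      intro a b c _ _ _ _ _ _ _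
      have := rInt_split (f := F) (a := 1 / 2 - y) (b := 1 / 2 + y) (c := a) (d := b) (e := c)
        (hint a b) (hint b c) (hint' a b) (hint' b c)
      simp only [this, add_re]
      ring)
    (by
      intro a b ha hb h3 h4 h5 h6
      have h0 : rInt F (1 / 2 - y) (1 / 2 + y) a b = 0 := by
        refine rInt_zero (by linarith) h4 fun s hs => FF_differentiableAt hB fun h0 => ?_
        obtain ⟨_, h7⟩ := (xiF_zero_iff hRH).mp h0
        have h8 : s.im ∈ Z := hnz _ h7 (h3.trans hs.2.2.1) (hs.2.2.2.trans h5)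
        have h9 := ha _ h8
        have h10 := hb _ h8
        refine h6 _ h8 ⟨lt_of_le_of_ne hs.2.2.1 ?_, lt_of_le_of_ne hs.2.2.2 ?_⟩
        · intro h11
          rw [← h11, sub_self, abs_zero] at h9
          linarith
        · intro h11
          rw [h11, sub_self, abs_zero] at h10
          linarith
      rw [h0, zero_re, mul_zero])
    (by
      intro z hz hbz _ _ _
      have := iso_nonneg (H := H) (t0 := t0) hRH hα hy hB hBr hBp ((hZm z).mp hz).2 hbz
      rw [← hF] at this
      linarith)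
    (by
      intro a b ha hb h3 h4 h5
      have ha' := hgood a h3 (by linarith) ha
      have hb' := hgood b (by linarith) h5 hb
      have h6 := bad_bound (H := H) (t0 := t0) (G := G) hRH hα hy hB h4
        (hGi.mono_set (Ioc_subset_Ioc h3 h5))
        (by
          intro t ht
          refine hG t ⟨h3.trans ht.1, ht.2.trans h5⟩ _ (by simp [abs_of_pos hy]) (by simp [hα.le])
            (Or.inl (by simp)))
        (by
          intro t ht
          refine hG t ⟨h3.trans ht.1, ht.2.trans h5⟩ _ (by simp [abs_of_pos hy]) (by simp [hα.le])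
            (Or.inr (Or.inl (by simp))))
        (by
          intro t ht x hx
          refine hG t ⟨h3.trans ht.1, by linarith [ht.2]⟩ _ ?_ ?_ (Or.inr (Or.inr ?_))
          · simp only [add_re, ofReal_re, mul_re, I_re, mul_zero, ofReal_im, I_im, mul_one,
              sub_self, add_zero]
            rw [abs_le]
            constructor <;> linarith [hx.1, hx.2]
          · simp only [add_im, ofReal_im, mul_im, ofReal_re, I_im, mul_one, I_re, mul_zero,
              add_zero, zero_add]
            rw [abs_le]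
            constructor <;> linarith [ht.1, ht.2]
          · simpa using ha')
        (by
          intro t ht x hx
          refine hG t ⟨by linarith [ht.1], ht.2.trans h5⟩ _ ?_ ?_ (Or.inr (Or.inr ?_))
          · simp only [add_re, ofReal_re, mul_re, I_re, mul_zero, ofReal_im, I_im, mul_one,
              sub_self, add_zero]
            rw [abs_le]
            constructor <;> linarith [hx.1, hx.2]
          · simp only [add_im, ofReal_im, mul_im, ofReal_re, I_im, mul_one, I_re, mul_zero,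
              add_zero, zero_add]
            rw [abs_le]
            constructor <;> linarith [ht.1, ht.2]
          · simpa using hb')
        hG0
      have h7 := (abs_le.mp ((abs_re_le_norm _).trans h6)).2
      rw [intervalIntegral.integral_const_mul]
      rw [← hF] at h7
      linarith)
    (fun t => mul_nonneg hk (hG0 t)) (hGi.const_mul _) h2
    (fun z hz => hc2 z ((hZm z).mp hz).2) hh le_rfl
  -- compare the two bad sets
  have hsub : badE Z (badz α) α ⊆ EE α := by
    rintro t ⟨z, hz, hb, ht⟩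
    exact ⟨z, ((hZm z).mp hz).2, hb, ht⟩
  have hmono : ∫ t in Ioc h1 h2 ∩ badE Z (badz α) α, (1 + 2 * y / α) * G t ≤
      (1 + 2 * y / α) * ∫ t in Ioc h1 h2 ∩ EE α, G t := by
    rw [MeasureTheory.integral_const_mul]
    refine mul_le_mul_of_nonneg_left ?_ hk
    refine setIntegral_mono_set (hGi.mono_set inter_subset_left)
      (Filter.Eventually.of_forall fun t => hG0 t) ?_
    exact (inter_subset_inter_right _ hsub).eventuallyLE
  have him := im_eq (FF_refl (H := H) (t0 := t0) (α := α) hBc) y h1 h2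
  rw [← hF] at him
  rw [him]
  have hh1 := (abs_le.mp (abs_re_le_norm (hor F y h1))).1
  have hh2 := (abs_le.mp (abs_re_le_norm (hor F y h2))).2
  rw [sub_re]
  linarith

end Pool.Agent.HalfGap
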