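import Pool.Agent.ZGap.Half.WSum
import Pool.Agent.ZGap.Res.VV

/-!
# The square of the resonator: coefficients and the diagonal coefficient
-/

namespace Pool.Agent.HalfGap

open Complex Finset Pool.Agent.ZGap.Res
open scoped ArithmeticFunction.Moebius ArithmeticFunction.zeta

variable {R : ResData} {T : ℝ}

/-- `p^{iα}` -/
noncomputable def zp (α : ℝ) (p : ℕ) : ℂ := Complex.exp ((α * Real.log p : ℝ) * I)

lemma norm_zp (α : ℝ) (p : ℕ) : ‖zp α p‖ = 1 := by
  unfold zp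
  exact Complex.norm_exp_ofReal_mul_I _

lemma norm_one_sub_zp_le (α : ℝ) (p : ℕ) : ‖1 - zp α p‖ ≤ 2 := by
  refine (norm_sub_le _ _).trans ?_
  rw [norm_zp, norm_one]; norm_num

/-- The pairs of pairs with nonzero coefficient. -/
noncomputable def Q2 (R : ResData) (T : ℝ) : Finset ((Finset ℕ × Finset ℕ) × (Finset ℕ × Finset ℕ)) :=
  (QQ T ×ˢ QQ T).filter (fun q => al R T q.1 ≠ 0 ∧ al R T q.2 ≠ 0)

/-- The frequencies of the square of the resonator. -/
noncomputable def w2 (q : (Finset ℕ × Finset ℕ) × (Finset ℕ × Finset ℕ)) : ℝ := fr q.1 + fr q.2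

/-- The coefficients of the square of the resonator. -/
noncomputable def b2 (R : ResData) (T α : ℝ) (q : (Finset ℕ × Finset ℕ) × (Finset ℕ × Finset ℕ)) : ℂ :=
  ((al R T q.1 * al R T q.2 : ℝ) : ℂ) * Complex.exp ((-(α * w2 q) : ℝ) * I)

lemma fr_swap (q : Finset ℕ × Finset ℕ) : fr q.swap = -fr q := by
  unfold fr; simp

lemma al_swap (q : Finset ℕ × Finset ℕ) : al R T q.swap = al R T q := by
  unfold al; simp [mul_comm]

lemma swap_mem_QQ {q : Finset ℕ × Finset ℕ} (hq : q ∈ QQ T) : q.swap ∈ QQ T := by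
  rw [mem_QQ] at hq ⊢
  exact ⟨hq.2.1, hq.1, hq.2.2.symm⟩

lemma w2_add_log {q : (Finset ℕ × Finset ℕ) × (Finset ℕ × Finset ℕ)} (h1 : q.1 ∈ QQ T)
    (h2 : q.2 ∈ QQ T) {n : ℕ} (hn : n ≠ 0) :
    w2 q + Real.log n = 0 ↔ pr q.1.1 * pr q.2.1 * n = pr q.1.2 * pr q.2.2 := by
  obtain ⟨a1, a2, a3⟩ := mem_QQ.mp h1
  obtain ⟨b1, b2, b3⟩ := mem_QQ.mp h2
  have p1 : (0:ℝ) < pr q.1.1 := by exact_mod_cast pr_pos a1
  have p2 : (0:ℝ) < pr q.1.2 := by exact_mod_cast pr_pos a2
  have p3 : (0:ℝ) < pr q.2.1 := by exact_mod_cast pr_pos b1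
  have p4 : (0:ℝ) < pr q.2.2 := by exact_mod_cast pr_pos b2
  have pn : (0:ℝ) < n := by exact_mod_cast Nat.pos_of_ne_zero hn
  have e1 : w2 q + Real.log n = Real.log ((pr q.1.1 * pr q.2.1 * n : ℕ) : ℝ) -
      Real.log ((pr q.1.2 * pr q.2.2 : ℕ) : ℝ) := by
    push_cast
    rw [Real.log_mul (by positivity) pn.ne', Real.log_mul p1.ne' p3.ne', Real.log_mul p2.ne' p4.ne']
    unfold w2 fr
    rw [ell_eq a1, ell_eq a2, ell_eq b1, ell_eq b2]
    ring
  rw [e1, sub_eq_zero]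
  constructor
  · intro h
    have h5 := Real.log_injOn_pos (Set.mem_Ioi.mpr (by push_cast; positivity))
      (Set.mem_Ioi.mpr (by push_cast; positivity)) h
    exact_mod_cast h5
  · intro h
    rw [h]

/-- The separation of the frequencies. -/
lemma w2_sep (hT : 1 < T) {q : (Finset ℕ × Finset ℕ) × (Finset ℕ × Finset ℕ)} (hq : q ∈ Q2 R T)
    {n : ℕ} (hn : 1 ≤ n) :
    w2 q + Real.log n = 0 ∨ T ^ (-(2 * R.th)) / 2 ≤ |w2 q + Real.log n| := by
  unfold Q2 at hq
  rw [mem_filter, mem_product] at hq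
  obtain ⟨⟨h1, h2⟩, h3, h4⟩ := hq
  by_cases hz : w2 q + Real.log n = 0
  · exact Or.inl hz
  · right
    rw [w2_add_log h1 h2 (by omega)] at hz
    have h5 := spacing (n := n) hT (swap_mem_QQ h1) h2 (by rw [al_swap]; exact h3) h4 (by omega)
      (by
        intro h6
        apply hz
        simp only [Prod.fst_swap, Prod.snd_swap] at h6
        rw [h6]; ring)
    rw [fr_swap] at h5
    have e1 : -fr q.1 - fr q.2 - Real.log n = -(w2 q + Real.log n) := by unfold w2; ring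
    rwa [e1, abs_neg] at h5

lemma Amp_conj (R : ResData) (T t : ℝ) : (starRingEnd ℂ) (Amp R T t) = Amp R T t := by
  rw [Amp_eq, map_sum]
  refine sum_bij' (fun q _ => q.swap) (fun q _ => q.swap) (fun q hq => swap_mem_QQ hq)
    (fun q hq => swap_mem_QQ hq) (fun q _ => by simp) (fun q _ => by simp) fun q hq => ?_
  rw [map_mul, Complex.conj_ofReal, ← Complex.exp_conj, map_mul, Complex.conj_ofReal, Complex.conj_I,
    al_swap, fr_swap]
  congr 2
  push_cast
  ring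

lemma Amp_im (R : ResData) (T t : ℝ) : (Amp R T t).im = 0 :=
  Complex.conj_eq_iff_im.mp (Amp_conj R T t)

lemma Amp_sq (R : ResData) (T t : ℝ) : Amp R T t ^ 2 = ((‖Amp R T t‖ ^ 2 : ℝ) : ℂ) := by
  rw [← Complex.normSq_eq_norm_sq, ← Complex.mul_conj, Amp_conj, sq]

/-- The value of the family on the critical line. -/
lemma B2_eq (R : ResData) (T α t : ℝ) :
    ∑ q ∈ Q2 R T, b2 R T α q * Complex.exp (-w2 q * ((1 / 2 + t * I) - 1 / 2)) =
      Amp R T (t + α) ^ 2 := by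
  have e1 : ∑ q ∈ Q2 R T, b2 R T α q * Complex.exp (-w2 q * ((1 / 2 + t * I) - 1 / 2)) =
      ∑ q ∈ QQ T ×ˢ QQ T, b2 R T α q * Complex.exp (-w2 q * ((1 / 2 + t * I) - 1 / 2)) := by
    unfold Q2
    rw [sum_filter]
    refine sum_congr rfl fun q _ => ?_
    split_ifs with h
    · rfl
    · rw [not_and_or, not_not, not_not] at h
      unfold b2
      rcases h with h | h <;> rw [h] <;> simp
  rw [e1, sum_product, sq, Amp_eq, sum_mul_sum]
  refine sum_congr rfl fun q _ => sum_congr rfl fun q' _ => ?_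
  unfold b2 w2
  rw [mul_assoc, ← Complex.exp_add, mul_mul_mul_comm, ← Complex.exp_add]
  push_cast
  congr 2
  ring

/-- The coefficient sum. -/
lemma sum_b2_le (hT : Real.exp 3 ≤ T) (hF : ∀ x, 0 ≤ x → R.F x ≤ 1) (α : ℝ) :
    ∑ q ∈ Q2 R T, ‖b2 R T α q‖ * Real.exp (-(3 * w2 q / 2)) ≤
      T ^ (3 * R.th) * (T * E1 R) ^ 2 := by
  have h1T : 1 < T := lt_of_lt_of_le (Real.one_lt_exp_iff.mpr (by norm_num)) hT
  have hT0 : 0 < T := by linarith
  have e1 : ∀ q ∈ Q2 R T, ‖b2 R T α q‖ * Real.exp (-(3 * w2 q / 2)) ≤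
      T ^ (3 * R.th) * (|al R T q.1| * |al R T q.2|) := by
    intro q hq
    unfold Q2 at hq
    rw [mem_filter, mem_product] at hq
    have f1 := abs_fr_le h1T hq.2.1
    have f2 := abs_fr_le h1T hq.2.2
    unfold b2
    rw [norm_mul, Complex.norm_exp_ofReal_mul_I, mul_one, Complex.norm_real, Real.norm_eq_abs,
      abs_mul, mul_comm]
    apply mul_le_mul_of_nonneg_right _ (by positivity)
    rw [Real.rpow_def_of_pos hT0]
    apply Real.exp_le_exp.mpr
    unfold w2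
    rw [abs_le] at f1 f2
    linarith [f1.1, f2.1]
  refine (sum_le_sum e1).trans ?_
  rw [← mul_sum]
  apply mul_le_mul_of_nonneg_left _ (by positivity)
  have e2 : ∑ q ∈ QQ T, |al R T q| ≤ T * E1 R := by
    calc ∑ q ∈ QQ T, |al R T q| ≤ ∑ q ∈ (PP T).powerset ×ˢ (PP T).powerset, |al R T q| := by
          unfold QQ
          exact sum_le_sum_of_subset_of_nonneg (filter_subset _ _) fun _ _ _ => abs_nonneg _
      _ = (∑ S ∈ (PP T).powerset, |aa R T S|) ^ 2 := by
          rw [sq, sum_mul_sum, sum_product]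
          refine sum_congr rfl fun S _ => sum_congr rfl fun S' _ => ?_
          unfold al
          rw [abs_mul]
      _ ≤ T * E0 R T := sum_abs_aa_sq_le h1T hF
      _ ≤ T * E1 R := mul_le_mul_of_nonneg_left (E0_le_E1 hT) hT0.le
  calc ∑ q ∈ Q2 R T, |al R T q.1| * |al R T q.2|
      ≤ ∑ q ∈ QQ T ×ˢ QQ T, |al R T q.1| * |al R T q.2| := by
        unfold Q2
        exact sum_le_sum_of_subset_of_nonneg (filter_subset _ _) fun _ _ _ => by positivity
    _ = (∑ q ∈ QQ T, |al R T q|) ^ 2 := by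
        rw [sq, sum_mul_sum, sum_product]
    _ ≤ (T * E1 R) ^ 2 := by
        apply pow_le_pow_left₀ (sum_nonneg fun _ _ => abs_nonneg _) e2

end Pool.Agent.HalfGap
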