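import Pool.Agent.ZGap.Res.Layer
import Pool.Agent.ZGap.Half.Main

/-!
# Weighted sums over finite sets of primes
-/

namespace Pool.Agent.HalfGap

open Finset Pool.Agent.ZGap.Res

/-- Pairs of disjoint sets and pairs `(U, H)` with `H ⊆ U`. -/
lemma sum_disj_eq {M : Type*} [AddCommMonoid M] (P : Finset ℕ) (g : Finset ℕ → Finset ℕ → M) :
    ∑ H ∈ P.powerset, ∑ N ∈ P.powerset, (if Disjoint H N then g H N else 0) =
      ∑ U ∈ P.powerset, ∑ N ∈ U.powerset, g (U \ N) N := by
  classical
  have e1 : ∑ H ∈ P.powerset, ∑ N ∈ P.powerset, (if Disjoint H N then g H N else 0) =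
      ∑ x ∈ (P.powerset ×ˢ P.powerset).filter (fun x => Disjoint x.1 x.2), g x.1 x.2 := by
    rw [sum_filter, sum_product]
  rw [e1, sum_sigma']
  refine sum_bij' (fun x _ => ⟨x.1 ∪ x.2, x.2⟩) (fun y _ => (y.1 \ y.2, y.2)) ?_ ?_ ?_ ?_ ?_
  · intro x hx
    rw [mem_filter, mem_product, mem_powerset, mem_powerset] at hx
    rw [mem_sigma, mem_powerset, mem_powerset]
    exact ⟨union_subset hx.1.1 hx.1.2, subset_union_right⟩
  · intro y hy
    rw [mem_sigma, mem_powerset, mem_powerset] at hy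
    rw [mem_filter, mem_product, mem_powerset, mem_powerset]
    exact ⟨⟨sdiff_subset.trans hy.1, hy.2.trans hy.1⟩, sdiff_disjoint⟩
  · intro x hx
    rw [mem_filter, mem_product, mem_powerset, mem_powerset] at hx
    ext1
    · simp only
      rw [union_sdiff_right, sdiff_eq_self_of_disjoint hx.2]
    · rfl
  · intro y hy
    rw [mem_sigma, mem_powerset, mem_powerset] at hy
    simp only
    rw [sdiff_union_of_subset hy.2]
  · intro x hx
    rw [mem_filter, mem_product, mem_powerset, mem_powerset] at hx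
    simp only
    rw [union_sdiff_right, sdiff_eq_self_of_disjoint hx.2]

/-- Sums over supersets. -/
lemma sum_superset {M : Type*} [AddCommMonoid M] {P K : Finset ℕ} (hK : K ⊆ P) (f : Finset ℕ → M) :
    ∑ S ∈ P.powerset, (if K ⊆ S then f S else 0) =
      ∑ N ∈ P.powerset, (if Disjoint K N then f (K ∪ N) else 0) := by
  classical
  rw [← sum_filter, ← sum_filter]
  refine sum_bij' (fun S _ => S \ K) (fun N _ => K ∪ N) ?_ ?_ ?_ ?_ ?_
  · intro S hS
    rw [mem_filter, mem_powerset] at hS ⊢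
    exact ⟨sdiff_subset.trans hS.1, disjoint_sdiff⟩
  · intro N hN
    rw [mem_filter, mem_powerset] at hN ⊢
    exact ⟨union_subset hK hN.1, subset_union_left⟩
  · intro S hS
    rw [mem_filter, mem_powerset] at hS
    rw [union_sdiff_of_subset hS.2]
  · intro N hN
    rw [mem_filter, mem_powerset] at hN
    rw [union_sdiff_left, sdiff_eq_self_of_disjoint hN.2.symm]
  · intro S hS
    rw [mem_filter, mem_powerset] at hS
    rw [union_sdiff_of_subset hS.2]

/-- Products of sums over a set. -/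
lemma sum_sdiff_prod {M : Type*} [CommSemiring M] (U : Finset ℕ) (x y : ℕ → M) :
    ∑ N ∈ U.powerset, (∏ p ∈ U \ N, x p) * ∏ p ∈ N, y p = ∏ p ∈ U, (x p + y p) := by
  classical
  have h1 : ∏ p ∈ U, (x p + y p) = ∏ p ∈ U, (y p + x p) := prod_congr rfl fun _ _ => add_comm _ _
  rw [h1, prod_add]
  exact sum_congr rfl fun N _ => mul_comm _ _

lemma sum_powerset_prod_le_exp {P : Finset ℕ} {v : ℕ → ℝ} (hv : ∀ p ∈ P, 0 ≤ v p) :
    ∑ U ∈ P.powerset, ∏ p ∈ U, v p ≤ Real.exp (∑ p ∈ P, v p) := by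
  rw [← prod_one_add, Real.exp_sum]
  refine prod_le_prod (fun p hp => by have := hv p hp; linarith) fun p hp => ?_
  have := Real.add_one_le_exp (v p)
  linarith

lemma sum_powerset_mem_le {P : Finset ℕ} {v : ℕ → ℝ} (hv : ∀ p ∈ P, 0 ≤ v p) {q : ℕ} (hq : q ∈ P) :
    ∑ U ∈ P.powerset, (if q ∈ U then ∏ p ∈ U, v p else 0) ≤ v q * Real.exp (∑ p ∈ P, v p) := by
  classical
  have h0 := sum_superset (K := {q}) (P := P) (singleton_subset_iff.mpr hq) (fun U => ∏ p ∈ U, v p)
  simp only [singleton_subset_iff, disjoint_singleton_left] at h0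
  rw [h0]
  calc ∑ N ∈ P.powerset, (if q ∉ N then ∏ p ∈ {q} ∪ N, v p else 0)
      ≤ ∑ N ∈ P.powerset, v q * ∏ p ∈ N, v p := by
        refine sum_le_sum fun N hN => ?_
        rw [mem_powerset] at hN
        by_cases h : q ∈ N
        · rw [if_neg (not_not.mpr h)]
          exact mul_nonneg (hv q hq) (prod_nonneg fun p hp => hv p (hN hp))
        · rw [if_pos h, prod_union (disjoint_singleton_left.mpr h), prod_singleton]
    _ = v q * ∑ N ∈ P.powerset, ∏ p ∈ N, v p := by rw [mul_sum]
    _ ≤ _ := mul_le_mul_of_nonneg_left (sum_powerset_prod_le_exp hv) (hv q hq)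

/-- The non-disjoint pairs of pairs. -/
lemma sum_nondisj_le {P : Finset ℕ} {x y : ℕ → ℝ} (hx : ∀ p ∈ P, 0 ≤ x p) (hy : ∀ p ∈ P, 0 ≤ y p) :
    ∑ H ∈ P.powerset, ∑ N ∈ P.powerset, ∑ K ∈ P.powerset, ∑ M ∈ P.powerset,
      (if Disjoint H N ∧ Disjoint K M ∧ ¬ Disjoint (H ∪ N) (K ∪ M) then
        ((∏ p ∈ H, x p) * ∏ p ∈ N, y p) * ((∏ p ∈ K, x p) * ∏ p ∈ M, y p) else 0) ≤
      (∑ p ∈ P, (x p + y p) ^ 2) * Real.exp (∑ p ∈ P, (x p + y p)) ^ 2 := by
  classical
  set A : Finset ℕ → Finset ℕ → ℝ := fun H N =>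
    if Disjoint H N then (∏ p ∈ H, x p) * ∏ p ∈ N, y p else 0 with hA
  have hA0 : ∀ H ∈ P.powerset, ∀ N ∈ P.powerset, 0 ≤ A H N := by
    intro H hH N hN
    rw [mem_powerset] at hH hN
    simp only [hA]
    split_ifs
    · exact mul_nonneg (prod_nonneg fun p hp => hx p (hH hp)) (prod_nonneg fun p hp => hy p (hN hp))
    · exact le_rfl
  set B : ℕ → ℝ := fun q => ∑ H ∈ P.powerset, ∑ N ∈ P.powerset,
    (if q ∈ H ∪ N then A H N else 0) with hB
  have hBle : ∀ q ∈ P, B q ≤ (x q + y q) * Real.exp (∑ p ∈ P, (x p + y p)) := by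
    intro q hq
    have e1 : B q = ∑ H ∈ P.powerset, ∑ N ∈ P.powerset, (if Disjoint H N then
        (if q ∈ H ∪ N then (∏ p ∈ H, x p) * ∏ p ∈ N, y p else 0) else 0) := by
      simp only [hB, hA]
      refine sum_congr rfl fun H _ => sum_congr rfl fun N _ => ?_
      by_cases h1 : q ∈ H ∪ N
      · rw [if_pos h1, if_pos h1]
      · rw [if_neg h1, if_neg h1, ite_self]
    rw [e1, sum_disj_eq P (fun H N => if q ∈ H ∪ N then (∏ p ∈ H, x p) * ∏ p ∈ N, y p else 0)]
    have e2 : ∀ U ∈ P.powerset, ∑ N ∈ U.powerset, (if q ∈ U \ N ∪ N then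
        (∏ p ∈ U \ N, x p) * ∏ p ∈ N, y p else 0) =
        if q ∈ U then ∏ p ∈ U, (x p + y p) else 0 := by
      intro U hU
      by_cases h1 : q ∈ U
      · rw [if_pos h1, ← sum_sdiff_prod]
        refine sum_congr rfl fun N hN => ?_
        rw [mem_powerset] at hN
        rw [sdiff_union_of_subset hN, if_pos h1]
      · rw [if_neg h1]
        refine sum_eq_zero fun N hN => ?_
        rw [mem_powerset] at hN
        rw [sdiff_union_of_subset hN, if_neg h1]
    rw [sum_congr rfl e2]
    exact sum_powerset_mem_le (fun p hp => add_nonneg (hx p hp) (hy p hp)) hq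
  have hB0 : ∀ q ∈ P, 0 ≤ B q := by
    intro q hq
    refine sum_nonneg fun H hH => sum_nonneg fun N hN => ?_
    split_ifs
    · exact hA0 H hH N hN
    · exact le_rfl
  calc _ ≤ ∑ H ∈ P.powerset, ∑ N ∈ P.powerset, ∑ K ∈ P.powerset, ∑ M ∈ P.powerset,
        ∑ q ∈ P, (if q ∈ H ∪ N then A H N else 0) * (if q ∈ K ∪ M then A K M else 0) := by
        refine sum_le_sum fun H hH => sum_le_sum fun N hN => sum_le_sum fun K hK =>
          sum_le_sum fun M hM => ?_
        have hn : ∀ q ∈ P, 0 ≤ (if q ∈ H ∪ N then A H N else 0) *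
            (if q ∈ K ∪ M then A K M else 0) := by
          intro q _
          refine mul_nonneg ?_ ?_
          · split_ifs
            · exact hA0 H hH N hN
            · exact le_rfl
          · split_ifs
            · exact hA0 K hK M hM
            · exact le_rfl
        by_cases h : Disjoint H N ∧ Disjoint K M ∧ ¬ Disjoint (H ∪ N) (K ∪ M)
        · rw [if_pos h]
          obtain ⟨q, hq1, hq2⟩ := not_disjoint_iff.mp h.2.2
          have hqP : q ∈ P := by
            rw [mem_powerset] at hH hN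
            exact union_subset hH hN hq1
          refine le_trans (le_of_eq ?_) (single_le_sum hn hqP)
          rw [if_pos hq1, if_pos hq2]
          simp only [hA]
          rw [if_pos h.1, if_pos h.2.1]
        · rw [if_neg h]
          exact sum_nonneg hn
    _ = ∑ q ∈ P, B q ^ 2 := by
        have e3 : ∀ q, B q ^ 2 = ∑ H ∈ P.powerset, ∑ N ∈ P.powerset, ∑ K ∈ P.powerset,
            ∑ M ∈ P.powerset, (if q ∈ H ∪ N then A H N else 0) *
              (if q ∈ K ∪ M then A K M else 0) := by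
          intro q
          rw [sq]
          simp only [hB]
          rw [sum_mul]
          refine sum_congr rfl fun H _ => ?_
          rw [sum_mul]
          refine sum_congr rfl fun N _ => ?_
          rw [mul_sum]
          refine sum_congr rfl fun K _ => ?_
          rw [mul_sum]
        simp only [e3]
        symm
        rw [sum_comm]
        refine sum_congr rfl fun H _ => ?_
        rw [sum_comm]
        refine sum_congr rfl fun N _ => ?_
        rw [sum_comm]
        refine sum_congr rfl fun K _ => ?_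
        rw [sum_comm]
    _ ≤ ∑ q ∈ P, (x q + y q) ^ 2 * Real.exp (∑ p ∈ P, (x p + y p)) ^ 2 := by
        refine sum_le_sum fun q hq => ?_
        rw [← mul_pow]
        exact pow_le_pow_left₀ (hB0 q hq) (hBle q hq) 2
    _ = _ := by rw [sum_mul]

end Pool.Agent.HalfGap
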